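import Mathlib

/-!
THEOREM A (MP_c6d112_nt): definitions.

`PP z0 z`: the sieving primes; `Rough`: no prime factor in `(z0, z]`; `nu z0 z a b`: normalised
indicator of the integers `n` for which all forms `a j * n + b j` are rough; `ee`: exponentials;
`ft`, `mean`, `ch`: Fourier transform on `ZMod p`.
-/

set_option autoImplicit false

namespace Pool.Agent.Lib.TwinAll

open Finset

/-- the sieving primes: primes in `(z0, z]` -/
def PP (z0 z : ℕ) : Finset ℕ := (Finset.Ioc z0 z).filter Nat.Prime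

/-- `n` has no prime factor in `(z0, z]` -/
def Rough (z0 z : ℕ) (n : ℤ) : Prop := ∀ q ∈ PP z0 z, ¬ ((q : ℤ) ∣ n)

/-- number of roots modulo `q` of the product of the forms `a j * n + b j` -/
noncomputable def om {k : ℕ} (a b : Fin k → ℤ) (q : ℕ) : ℕ :=
  ((Finset.range q).filter (fun n : ℕ => ∃ j, (q : ℤ) ∣ a j * n + b j)).card

/-- sieve density -/
noncomputable def VV (z0 z : ℕ) {k : ℕ} (a b : Fin k → ℤ) : ℝ :=
  ∏ q ∈ PP z0 z, (1 - (om a b q : ℝ) / q)

open Classical in
/-- normalised indicator function of all forms `a j * n + b j` being rough -/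
noncomputable def nu (z0 z : ℕ) {k : ℕ} (a b : Fin k → ℤ) (n : ℤ) : ℝ :=
  if ∀ j, Rough z0 z (a j * n + b j) then (VV z0 z a b)⁻¹ else 0

/-- Liouville function -/
noncomputable def lam (n : ℕ) : ℝ := (-1) ^ ArithmeticFunction.cardFactors n

/-- `ee θ = exp(2 π i θ)` -/
noncomputable def ee (θ : ℝ) : ℂ := Complex.exp (2 * Real.pi * θ * Complex.I)

/-- sum of `1/p` over the primes in `(x, y]` -/
noncomputable def SS (x y : ℕ) : ℝ := ∑ p ∈ PP x y, (1 : ℝ) / p

section group

variable {p : ℕ} [NeZero p]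

/-- the standard additive character of `ZMod p` -/
noncomputable def ch (x : ZMod p) : ℂ := ZMod.stdAddChar x

/-- mean value over `ZMod p` -/
noncomputable def mean (f : ZMod p → ℂ) : ℂ := (∑ x, f x) / p

/-- real mean value over `ZMod p` -/
noncomputable def meanR (f : ZMod p → ℝ) : ℝ := (∑ x, f x) / p

/-- Fourier coefficient -/
noncomputable def ft (f : ZMod p → ℂ) (ξ : ZMod p) : ℂ := mean (fun x => f x * ch (-(ξ * x)))

/-- `b` is a kernel with coefficients `c`: nonnegative, mean 1, real, with Fourier coefficients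
`c ζ` in `[0, 1]`, symmetric, supported on at most `K` points -/
structure Kernel (K : ℕ) (b c : ZMod p → ℝ) : Prop where
  nonneg : ∀ x, 0 ≤ b x
  expand : ∀ x, (b x : ℂ) = ∑ ζ, (c ζ : ℂ) * ch (ζ * x)
  coeff : ∀ ζ, 0 ≤ c ζ ∧ c ζ ≤ 1
  zero : c 0 = 1
  symm : ∀ ζ, c (-ζ) = c ζ
  supp : (Finset.univ.filter (fun ζ => c ζ ≠ 0)).card ≤ K

/-- convolution with a real kernel -/
noncomputable def conv (f : ZMod p → ℂ) (b : ZMod p → ℝ) (x : ZMod p) : ℂ :=
  mean (fun h => f (x - h) * (b h : ℂ))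

end group

end Pool.Agent.Lib.TwinAll
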