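import Mathlib
import Pool.Agent.Lib.TwinAll.Defs

/-!
THEOREM A (MP_c6d112_nt): statements of the modules, as propositions. A module proves
`theorem S1 : S1Stmt` etc., possibly from the statements of earlier modules given as hypotheses.
-/

set_option autoImplicit false

namespace Pool.Agent.Lib.TwinAll

open Finset

/-- S1: Brun-Hooley weights of precision `1 ± ε` (uniform in `h`). -/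
def S1Stmt : Prop :=
  ∀ (k : ℕ) (ε : ℝ), 0 < ε → ∃ s zs : ℕ, ∀ z0 : ℕ, zs ≤ z0 → ∀ z : ℕ, z0 ≤ z →
    ∃ U L : Finset ℕ → ℝ, (∀ D, |U D| ≤ 1 ∧ |L D| ≤ 1) ∧
      (∀ D, D ⊆ PP z0 z → (U D ≠ 0 ∨ L D ≠ 0) → ∏ q ∈ D, q ≤ z ^ s) ∧
      (∀ h : ℕ → ℝ, (∀ q, 0 ≤ h q ∧ h q ≤ 1) →
        (∑ D ∈ (PP z0 z).powerset, L D * ∏ q ∈ D, h q) ≤ ∏ q ∈ PP z0 z, (1 - h q) ∧
        ∏ q ∈ PP z0 z, (1 - h q) ≤ ∑ D ∈ (PP z0 z).powerset, U D * ∏ q ∈ D, h q) ∧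
      (∀ h : ℕ → ℝ, (∀ q ∈ PP z0 z, 0 ≤ h q ∧ h q ≤ (k : ℝ) / q) →
        (∑ D ∈ (PP z0 z).powerset, U D * ∏ q ∈ D, h q) ≤ (1 + ε) * ∏ q ∈ PP z0 z, (1 - h q) ∧
        (1 - ε) * ∏ q ∈ PP z0 z, (1 - h q) ≤ ∑ D ∈ (PP z0 z).powerset, L D * ∏ q ∈ D, h q)

/-- S2: mean value of `nu` over an interval. -/
def S2Stmt : Prop :=
  ∀ (k : ℕ) (ε : ℝ), 0 < ε → ∃ s zs : ℕ, ∀ z0 : ℕ, zs ≤ z0 → ∃ z1 : ℕ, ∀ z : ℕ, z1 ≤ z →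
    ∀ a b : Fin k → ℤ, (∀ j, ∀ q ∈ PP z0 z, ¬ ((q : ℤ) ∣ a j)) →
    ∀ (u : ℤ) (H : ℕ), z ^ s ≤ H →
      |(∑ n ∈ Finset.Ioc u (u + H), nu z0 z a b n) - H| ≤ ε * H

/-- S2b: rough numbers in a residue class modulo a product of sieving primes (upper bound). -/
def S2bStmt : Prop :=
  ∃ s zs : ℕ, ∀ z0 : ℕ, zs ≤ z0 → ∃ z1 : ℕ, ∀ z : ℕ, z1 ≤ z →
    ∀ D : Finset ℕ, D ⊆ PP z0 z → ∏ q ∈ D, q ≤ z →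
    ∀ (c u : ℤ) (H : ℕ), z ^ s ≤ H →
      (∑ n ∈ (Finset.Ioc u (u + H)).filter (fun n : ℤ => ((∏ q ∈ D, q : ℕ) : ℤ) ∣ n - c),
        nu z0 z (![1] : Fin 1 → ℤ) ![0] n) ≤ 2 * H * ∏ q ∈ D, (1 / ((q : ℝ) - 1))

/-- S3: the normalised indicator function of a system of `k` rough forms is close to 1 in `U^2`
norm, and its pair correlations have bounded fourth moment. -/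
def S3Stmt : Prop :=
  ∀ (k : ℕ) (ε : ℝ), 0 < ε → ∃ s zs : ℕ, ∀ z0 : ℕ, zs ≤ z0 → ∀ B : ℕ, ∃ z1 : ℕ, ∀ z : ℕ, z1 ≤ z →
    ∀ a b : Fin k → ℤ, (∀ j, |a j| ≤ (z : ℤ) ^ B ∧ |b j| ≤ (z : ℤ) ^ B ∧
      ∀ q ∈ PP z0 z, ¬ ((q : ℤ) ∣ a j)) →
    ∀ (u : ℤ) (H : ℕ), |u| ≤ (z : ℤ) ^ B → z ^ s ≤ H → H ≤ z ^ B →
      ∑ t ∈ Finset.Ioo (-(H : ℤ)) H,
        (∑ n ∈ (Finset.Ioc u (u + H)).filter (fun n => n + t ∈ Finset.Ioc u (u + H)),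
          (nu z0 z a b n - 1) * (nu z0 z a b (n + t) - 1)) ^ 2 ≤ ε * (H : ℝ) ^ 3 ∧
      ∑ t ∈ Finset.Ioo (-(H : ℤ)) H,
        (∑ n ∈ (Finset.Ioc u (u + H)).filter (fun n => n + t ∈ Finset.Ioc u (u + H)),
          nu z0 z a b n * nu z0 z a b (n + t)) ^ 4 ≤ 4 * (H : ℝ) ^ 5

/-- S4: exponential sums (consequence of S3 by Cauchy-Schwarz). -/
def S4Stmt : Prop :=
  ∀ (k : ℕ) (ε : ℝ), 0 < ε → ∃ s zs : ℕ, ∀ z0 : ℕ, zs ≤ z0 → ∀ B : ℕ, ∃ z1 : ℕ, ∀ z : ℕ, z1 ≤ z →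
    ∀ a b : Fin k → ℤ, (∀ j, |a j| ≤ (z : ℤ) ^ B ∧ |b j| ≤ (z : ℤ) ^ B ∧
      ∀ q ∈ PP z0 z, ¬ ((q : ℤ) ∣ a j)) →
    ∀ (u : ℤ) (H : ℕ), |u| ≤ (z : ℤ) ^ B → z ^ s ≤ H → H ≤ z ^ B → ∀ θ : ℝ,
      ‖∑ n ∈ Finset.Ioc u (u + H), ((nu z0 z a b n - 1 : ℝ) : ℂ) * ee (θ * n)‖ ≤ ε * H

/-- S5: the correlation constant of two primes is 1 on average. -/
def S5Stmt : Prop :=
  ∀ R : ℕ, ∃ s : ℕ, ∀ (C : ℕ) (ε : ℝ), 0 < ε → ∃ zs : ℕ, ∀ z0 : ℕ, zs ≤ z0 → ∃ z1 : ℕ, ∀ z : ℕ, z1 ≤ z →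
    ∀ γ : Fin 2 → ℤ, (∀ j, γ j ≠ 0 ∧ |γ j| ≤ R) → γ 0 ≠ γ 1 →
    ∀ y : ℕ, z ^ s ≤ y → y ≤ z ^ C →
      ∑ p ∈ PP z y, ∑ p' ∈ (PP z y).erase p,
        |VV z0 z (![1] : Fin 1 → ℤ) ![0] *
            VV z0 z (![1, (p : ℤ), p, p', p'] : Fin 5 → ℤ) ![0, γ 0, γ 1, γ 0, γ 1] /
          VV z0 z (![1, 1, 1] : Fin 3 → ℤ) ![0, γ 0, γ 1] ^ 2 - 1| ≤
      ε * ((y : ℝ) / Real.log y) ^ 2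

/-- W2: prime number theorem in arithmetic progressions with slowly varying phase (from `pnt_ap`
in Lib/MP_d5700b_nt/PNTAP). -/
def W2Stmt : Prop :=
  ∀ (q : ℕ) (T ε : ℝ), 0 < q → 0 < ε → ∃ y0 : ℕ, ∀ y, y0 ≤ y → ∀ c, Nat.Coprime c q →
    ∀ β : ℝ, |β| ≤ T →
      ‖((Real.log y / y : ℝ) : ℂ) * ∑ p ∈ (Finset.Ioc 0 y).filter
          (fun p : ℕ => p.Prime ∧ p ≡ c [MOD q]), ee (β * p / y) -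
        (1 / (q.totient : ℂ)) * ∫ t in (0 : ℝ)..1, ee (β * t)‖ ≤ ε

/-- L1: Turan-Kubilius for rough shift systems. -/
def L1Stmt : Prop :=
  ∀ (R : ℕ) (ε : ℝ), 0 < ε → ∃ s κ zs : ℕ, ∀ z0 : ℕ, zs ≤ z0 → ∀ c c' : ℕ, s ≤ c → κ * c ≤ c' →
    ∀ B : ℕ, ∃ z1 : ℕ, ∀ z : ℕ, z1 ≤ z → 1 ≤ SS (z ^ c) (z ^ c') ∧
    ∀ (k : ℕ) (γ : Fin (k + 1) → ℤ), k ≤ 2 → γ 0 = 0 → (∀ j, |γ j| ≤ R) →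
      Function.Injective γ → ∀ N : ℕ, z ^ (4 * c') ≤ N → N ≤ z ^ B →
      ∑ y ∈ Finset.Icc 1 N, nu z0 z (fun _ => 1) γ (y : ℤ) *
        |1 - (((PP (z ^ c) (z ^ c')).filter (fun p => p ∣ y)).card : ℝ) /
          SS (z ^ c) (z ^ c')| ≤ ε * N

/-- L2: dispersion over the prime `p`: the roughness of `p m + γ` may be dropped. -/
def L2Stmt : Prop :=
  ∀ (R : ℕ) (ε : ℝ), 0 < ε → ∃ s : ℕ, ∀ c c' : ℕ, s ≤ c → c < c' → ∃ zs : ℕ, ∀ z0 : ℕ, zs ≤ z0 →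
    ∀ B : ℕ, ∃ z1 : ℕ, ∀ z : ℕ, z1 ≤ z →
    ∀ γ : Fin 2 → ℤ, (∀ j, γ j ≠ 0 ∧ |γ j| ≤ R) → γ 0 ≠ γ 1 →
    ∀ N : ℕ, z ^ (4 * c') ≤ N → N ≤ z ^ B → ∀ θ : ℝ,
      ‖∑ p ∈ PP (z ^ c) (z ^ c'), ∑ m ∈ Finset.Icc 1 (N / p),
        ((nu z0 z (![1, 1, 1] : Fin 3 → ℤ) ![0, γ 0, γ 1] ((p : ℤ) * m) -
          nu z0 z (![1] : Fin 1 → ℤ) ![0] (m : ℤ) : ℝ) : ℂ) * (lam m : ℂ) *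
          ee (θ * ((p : ℝ) * m))‖ ≤ ε * (1 + SS (z ^ c) (z ^ c')) * N

/-- L3: minor arcs. -/
def L3Stmt : Prop :=
  ∀ ε : ℝ, 0 < ε → ∃ s : ℕ, ∀ c c' : ℕ, s ≤ c → c < c' → ∃ zs : ℕ, ∀ z0 : ℕ, zs ≤ z0 →
    ∃ Q T : ℕ, ∀ B : ℕ, ∃ z1 : ℕ, ∀ z : ℕ, z1 ≤ z →
    ∀ N : ℕ, z ^ (4 * c') ≤ N → N ≤ z ^ B → ∀ θ : ℝ,
      (∃ q : ℕ, 1 ≤ q ∧ q ≤ Q ∧ ∃ a : ℤ, |θ - (a : ℝ) / q| ≤ (T : ℝ) / N) ∨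
      ‖∑ p ∈ PP (z ^ c) (z ^ c'), ∑ m ∈ Finset.Icc 1 (N / p),
        ((nu z0 z (![1] : Fin 1 → ℤ) ![0] (m : ℤ) : ℝ) : ℂ) * (lam m : ℂ) *
          ee (θ * ((p : ℝ) * m))‖ ≤ ε * (1 + SS (z ^ c) (z ^ c')) * N

/-- L4: major arcs. -/
def L4Stmt : Prop :=
  ∀ ε : ℝ, 0 < ε → ∃ s κ zs : ℕ, ∀ z0 : ℕ, zs ≤ z0 → ∀ c c' : ℕ, s ≤ c → κ * c ≤ c' →
    ∀ Q T B : ℕ, ∃ z1 : ℕ, ∀ z : ℕ, z1 ≤ z →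
    ∀ N : ℕ, z ^ (4 * c') ≤ N → N ≤ z ^ B → ∀ (q : ℕ) (a : ℤ) (θ : ℝ), 1 ≤ q → q ≤ Q →
      |θ - (a : ℝ) / q| ≤ (T : ℝ) / N →
      ‖∑ p ∈ PP (z ^ c) (z ^ c'), ∑ m ∈ Finset.Icc 1 (N / p),
        ((nu z0 z (![1] : Fin 1 → ℤ) ![0] (m : ℤ) : ℝ) : ℂ) * (lam m : ℂ) *
          ee (θ * ((p : ℝ) * m))‖ ≤ ε * (1 + SS (z ^ c) (z ^ c')) * N

/-- LEMMA L: the Liouville function is Fourier uniform on rough triples. -/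
def LamStmt : Prop :=
  ∀ (R : ℕ) (ε : ℝ), 0 < ε → ∃ Bs zs : ℕ, ∀ z0 : ℕ, zs ≤ z0 → ∀ B : ℕ, ∃ z1 : ℕ, ∀ z : ℕ, z1 ≤ z →
    ∀ γ : Fin 2 → ℤ, (∀ j, γ j ≠ 0 ∧ |γ j| ≤ R) → γ 0 ≠ γ 1 →
    ∀ N : ℕ, z ^ Bs ≤ N → N ≤ z ^ B → ∀ θ : ℝ,
      ‖∑ y ∈ Finset.Icc 1 N,
        ((nu z0 z (![1, 1, 1] : Fin 3 → ℤ) ![0, γ 0, γ 1] (y : ℤ) : ℝ) : ℂ) * (lam y : ℂ) *
          ee (θ * y)‖ ≤ ε * N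

/-- H1: relative von Neumann inequality. -/
def H1Stmt : Prop :=
  ∀ (p : ℕ) [Fact p.Prime] (f u w : ZMod p → ℂ) (ν b c : ZMod p → ℝ) (α β δ : ZMod p)
    (η A D : ℝ), α ≠ 0 → β ≠ 0 →
    (∀ x, 0 ≤ b x) → (∀ x, (b x : ℂ) = ∑ ζ, (c ζ : ℂ) * ch (ζ * x)) → (∀ ζ, 0 ≤ c ζ) →
    (∀ x, 0 ≤ ν x) → (∀ x, ‖f x‖ ≤ ν x * b x) → (∀ x, ‖w x‖ ≤ 1) →
    (∀ ξ, ‖ft u ξ‖ ≤ η) →
    meanR (fun t => ‖mean (fun x => ((ν x - 1 : ℝ) : ℂ) * ((ν (x + t) - 1 : ℝ) : ℂ))‖ ^ 2) ≤ A →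
    meanR (fun t => ‖mean (fun x => u x * (starRingEnd ℂ) (u (x + t)))‖ ^ 4) ≤ D →
    ‖mean (fun x => mean (fun y => f x * u y * w (α * x + β * y + δ)))‖ ^ 2 ≤
      meanR (fun x => ν x * b x) * b 0 * (η ^ 2 + (A * D) ^ ((1 : ℝ) / 4))

/-- H2: product Fejer kernels. -/
def H2Stmt : Prop :=
  ∀ (J : ℕ) (η : ℝ), 0 < η → ∃ K : ℕ, ∀ (p : ℕ) [NeZero p] (S : Finset (ZMod p)), S.card ≤ J →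
    ∃ b c : ZMod p → ℝ, Kernel K b c ∧
      ∀ ξ ∈ S, meanR (fun x => b x * ‖ch (ξ * x) - 1‖ ^ 2) ≤ η

/-- H3: regularity (energy increment) for three functions below `ν`. -/
def H3Stmt : Prop :=
  ∀ ε : ℝ, 0 < ε → ∀ Φ : ℕ → ℝ, (∀ K, 0 < Φ K) → ∃ (Kmax : ℕ) (ε0 : ℝ), 0 < ε0 ∧
    ∀ (p : ℕ) [NeZero p] (ν : ZMod p → ℝ) (A : Fin 3 → ZMod p → ℝ),
    (∀ ξ, ξ ≠ 0 → ‖ft (fun x => (ν x : ℂ)) ξ‖ ≤ ε0) → |meanR ν - 1| ≤ ε0 →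
    (∀ j x, 0 ≤ A j x ∧ A j x ≤ ν x) →
    ∃ (K : ℕ) (b c b' c' : ZMod p → ℝ), K ≤ Kmax ∧ Kernel K b c ∧ Kernel Kmax b' c' ∧
      meanR (fun x => b x * ‖ch x - 1‖ ^ 2) ≤ ε ∧
      (∀ j, meanR (fun x => ‖conv (fun x => (A j x : ℂ)) b x -
        conv (fun x => (A j x : ℂ)) b' x‖ ^ 2) ≤ ε ^ 2) ∧
      (∀ j ξ, ‖ft (fun x => (A j x : ℂ) - conv (fun x => (A j x : ℂ)) b' x) ξ‖ ≤ Φ K) ∧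
      (∀ j x, ‖conv (fun x => (A j x : ℂ)) b x‖ ≤ 2 ∧ ‖conv (fun x => (A j x : ℂ)) b' x‖ ≤ 2)

/-- H4: three numbers with dividing differences in a Bohr set, by Ramsey's theorem. -/
def H4Stmt : Prop :=
  ∀ (K : ℕ) (ρ : ℝ), 0 < ρ → ∃ R : ℕ, ∀ (p : ℕ) [NeZero p] (S : Finset (ZMod p)), S.card ≤ K →
    ∃ (r : Fin 3 → ℕ) (c : ℕ), 0 < r 2 ∧ r 2 < r 1 ∧ r 1 < r 0 ∧ r 0 ≤ R ∧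
      ∀ i j : Fin 3, i < j → (r i - r j) ∣ r j ∧
        ArithmeticFunction.cardFactors (r i - r j) % 2 = c ∧
        ∀ ξ ∈ S, ‖ch (ξ * ((r j / (r i - r j) : ℕ) : ZMod p)) - 1‖ ≤ ρ

end Pool.Agent.Lib.TwinAll
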