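import Mathlib
import Pool.Agent.Lib.TwinAll.Defs

/-!
THEOREM A (MP_c6d112_nt), helper94: basic facts about `om`, `VV`, `nu`, `PP`, `SS`, `ee`, `lam`.
-/

set_option autoImplicit false

namespace Pool.Agent.Lib.TwinAll

open Finset

/-! ### sieving primes -/

theorem mem_PP {z0 z q : ℕ} : q ∈ PP z0 z ↔ (z0 < q ∧ q ≤ z) ∧ q.Prime := by
  simp [PP]

theorem PP_prime {z0 z q : ℕ} (h : q ∈ PP z0 z) : q.Prime := (mem_PP.1 h).2

theorem PP_lt {z0 z q : ℕ} (h : q ∈ PP z0 z) : z0 < q := (mem_PP.1 h).1.1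

theorem PP_le {z0 z q : ℕ} (h : q ∈ PP z0 z) : q ≤ z := (mem_PP.1 h).1.2

theorem PP_union {x y w : ℕ} (h1 : x ≤ y) (h2 : y ≤ w) :
    PP x w = (PP x y) ∪ (PP y w) := by
  ext q
  simp only [mem_PP, Finset.mem_union]
  constructor
  · rintro ⟨⟨ha, hb⟩, hc⟩
    rcases le_or_gt q y with h | h
    · exact Or.inl ⟨⟨ha, h⟩, hc⟩
    · exact Or.inr ⟨⟨h, hb⟩, hc⟩
  · rintro (⟨⟨ha, hb⟩, hc⟩ | ⟨⟨ha, hb⟩, hc⟩)
    · exact ⟨⟨ha, hb.trans h2⟩, hc⟩
    · exact ⟨⟨lt_of_le_of_lt h1 ha, hb⟩, hc⟩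

theorem PP_disjoint {x y w : ℕ} : Disjoint (PP x y) (PP y w) := by
  rw [Finset.disjoint_left]
  intro q hq hq'
  have h1 := PP_le hq
  have h2 := PP_lt hq'
  omega

theorem PP_mono {x y y' : ℕ} (h : y ≤ y') : PP x y ⊆ PP x y' := by
  intro q hq
  rw [mem_PP] at hq ⊢
  exact ⟨⟨hq.1.1, hq.1.2.trans h⟩, hq.2⟩

theorem PP_anti {x x' y : ℕ} (h : x ≤ x') : PP x' y ⊆ PP x y := by
  intro q hq
  rw [mem_PP] at hq ⊢
  exact ⟨⟨lt_of_le_of_lt h hq.1.1, hq.1.2⟩, hq.2⟩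

theorem SS_nonneg (x y : ℕ) : 0 ≤ SS x y :=
  Finset.sum_nonneg (fun p _ => by positivity)

theorem SS_add {x y w : ℕ} (h1 : x ≤ y) (h2 : y ≤ w) : SS x w = SS x y + SS y w := by
  unfold SS
  rw [PP_union h1 h2, Finset.sum_union PP_disjoint]

theorem SS_mono {x y y' : ℕ} (h : y ≤ y') : SS x y ≤ SS x y' :=
  Finset.sum_le_sum_of_subset_of_nonneg (PP_mono h) (fun p _ _ => by positivity)

/-- splitting a sum over `PP x w` -/
theorem sum_PP_split {M : Type*} [AddCommMonoid M] {x y w : ℕ} (h1 : x ≤ y) (h2 : y ≤ w)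
    (f : ℕ → M) : ∑ p ∈ PP x w, f p = ∑ p ∈ PP x y, f p + ∑ p ∈ PP y w, f p := by
  rw [PP_union h1 h2, Finset.sum_union PP_disjoint]

/-! ### roots -/

theorem om_le {k : ℕ} (a b : Fin k → ℤ) {q : ℕ} (hq : q.Prime)
    (ha : ∀ j, ¬ ((q : ℤ) ∣ a j)) : om a b q ≤ k := by
  classical
  unfold om
  have h1 : (Finset.range q).filter (fun n : ℕ => ∃ j, (q : ℤ) ∣ a j * n + b j) ⊆
      (Finset.univ : Finset (Fin k)).biUnion
        (fun j => (Finset.range q).filter (fun n : ℕ => (q : ℤ) ∣ a j * n + b j)) := by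
    intro n hn
    rw [Finset.mem_filter] at hn
    obtain ⟨hn1, j, hj⟩ := hn
    rw [Finset.mem_biUnion]
    exact ⟨j, Finset.mem_univ _, Finset.mem_filter.2 ⟨hn1, hj⟩⟩
  refine (Finset.card_le_card h1).trans (Finset.card_biUnion_le.trans ?_)
  have h2 : ∀ j ∈ (Finset.univ : Finset (Fin k)),
      ((Finset.range q).filter (fun n : ℕ => (q : ℤ) ∣ a j * n + b j)).card ≤ 1 := by
    intro j _
    rw [Finset.card_le_one]
    intro n hn n' hn'
    rw [Finset.mem_filter, Finset.mem_range] at hn hn'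
    have h3 : (q : ℤ) ∣ a j * ((n : ℤ) - n') := by
      have := dvd_sub hn.2 hn'.2
      have h4 : a j * (n : ℤ) + b j - (a j * n' + b j) = a j * ((n : ℤ) - n') := by ring
      rwa [h4] at this
    have h5 : (q : ℤ) ∣ ((n : ℤ) - n') :=
      ((Nat.prime_iff_prime_int.1 hq).dvd_or_dvd h3).resolve_left (ha j)
    have h6 : |(n : ℤ) - n'| < q := by
      rw [abs_lt]; constructor <;> omega
    have h7 := Int.eq_zero_of_abs_lt_dvd h5 h6
    omega
  calc ∑ j, ((Finset.range q).filter (fun n : ℕ => (q : ℤ) ∣ a j * n + b j)).card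
      ≤ ∑ _j : Fin k, 1 := Finset.sum_le_sum h2
    _ = k := by simp

/-- `om` only depends on the coefficients modulo `q` -/
theorem om_congr {k : ℕ} {a b a' b' : Fin k → ℤ} {q : ℕ}
    (ha : ∀ j, (q : ℤ) ∣ a j - a' j) (hb : ∀ j, (q : ℤ) ∣ b j - b' j) :
    om a b q = om a' b' q := by
  unfold om
  congr 1
  apply Finset.filter_congr
  intro n _
  have key : ∀ j, ((q : ℤ) ∣ a j * n + b j ↔ (q : ℤ) ∣ a' j * n + b' j) := by
    intro j
    have h : (q : ℤ) ∣ (a j * n + b j) - (a' j * n + b' j) := by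
      have h1 : (a j * n + b j) - (a' j * n + b' j) = (a j - a' j) * n + (b j - b' j) := by ring
      rw [h1]
      exact dvd_add (Dvd.dvd.mul_right (ha j) _) (hb j)
    exact (dvd_iff_dvd_of_dvd_sub h)
  constructor
  · rintro ⟨j, hj⟩; exact ⟨j, (key j).1 hj⟩
  · rintro ⟨j, hj⟩; exact ⟨j, (key j).2 hj⟩

theorem om_smul_le {k : ℕ} (a b : Fin k → ℤ) {q : ℕ} (hq : 0 < q) (p : ℤ)
    (hp : IsCoprime p (q : ℤ)) : om (fun j => p * a j) b q ≤ om a b q := by
  unfold om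
  refine Finset.card_le_card_of_injOn (fun n => ((p * n) % (q : ℤ)).toNat) ?_ ?_
  · intro n hn
    have hq' : (0 : ℤ) < q := by exact_mod_cast hq
    rw [Finset.coe_filter, Set.mem_ofPred_eq, Finset.mem_range] at hn
    rw [Finset.coe_filter, Set.mem_ofPred_eq, Finset.mem_range]
    have h0 : 0 ≤ (p * n) % (q : ℤ) := Int.emod_nonneg _ hq'.ne'
    have h1 : (p * n) % (q : ℤ) < q := Int.emod_lt_of_pos _ hq'
    refine ⟨by show ((p * n) % (q : ℤ)).toNat < q; omega, ?_⟩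
    obtain ⟨j, hj⟩ := hn.2
    refine ⟨j, ?_⟩
    show (q : ℤ) ∣ a j * ((((p * n) % (q : ℤ)).toNat : ℕ) : ℤ) + b j
    rw [Int.toNat_of_nonneg h0]
    have h2 : (q : ℤ) ∣ (p * n) - (p * n) % (q : ℤ) := Int.dvd_self_sub_emod
    have h3 : a j * ((p * n) % (q : ℤ)) + b j =
        (p * a j * n + b j) - a j * ((p * n) - (p * n) % (q : ℤ)) := by ring
    rw [h3]
    exact dvd_sub hj (Dvd.dvd.mul_left h2 _)
  · intro n hn n' hn' h
    have hq' : (0 : ℤ) < q := by exact_mod_cast hq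
    rw [Finset.coe_filter, Set.mem_ofPred_eq, Finset.mem_range] at hn hn'
    have h0 : 0 ≤ (p * n) % (q : ℤ) := Int.emod_nonneg _ hq'.ne'
    have h0' : 0 ≤ (p * n') % (q : ℤ) := Int.emod_nonneg _ hq'.ne'
    have h1 : (p * n) % (q : ℤ) = (p * n') % (q : ℤ) := by
      have := congrArg (fun t : ℕ => (t : ℤ)) h
      simpa [Int.toNat_of_nonneg h0, Int.toNat_of_nonneg h0'] using this
    have h2 : (q : ℤ) ∣ p * n - p * n' := Int.ModEq.dvd (Int.ModEq.symm h1)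
    have h3 : (q : ℤ) ∣ p * ((n : ℤ) - n') := by
      have h4 : p * (n : ℤ) - p * n' = p * ((n : ℤ) - n') := by ring
      rwa [h4] at h2
    have h5 : (q : ℤ) ∣ ((n : ℤ) - n') := (hp.symm).dvd_of_dvd_mul_left h3
    have h6 : |(n : ℤ) - n'| < q := by
      rw [abs_lt]; constructor <;> omega
    have h7 := Int.eq_zero_of_abs_lt_dvd h5 h6
    omega

/-- multiplying all leading coefficients by `p` prime to `q` does not change `om` -/
theorem om_smul {k : ℕ} (a b : Fin k → ℤ) {q : ℕ} (hq : 0 < q) (p : ℤ)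
    (hp : IsCoprime p (q : ℤ)) : om (fun j => p * a j) b q = om a b q := by
  refine le_antisymm (om_smul_le a b hq p hp) ?_
  obtain ⟨u, v, huv⟩ := hp
  have hu : IsCoprime u (q : ℤ) := ⟨p, v, by linarith⟩
  have h1 : om a b q = om (fun j => u * (p * a j)) b q := by
    refine om_congr (fun j => ?_) (fun j => by simp)
    have h2 : a j - u * (p * a j) = (q : ℤ) * (v * a j) := by
      have h3 : u * p = 1 - v * q := by linarith
      have h4 : u * (p * a j) = (u * p) * a j := by ring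
      rw [h4, h3]; ring
    rw [h2]
    exact Dvd.intro _ rfl
  rw [h1]
  exact om_smul_le (fun j => p * a j) b hq u hu

/-! ### sieve densities -/

theorem VV_factor_pos {z0 z k : ℕ} (hk : k ≤ z0) (a b : Fin k → ℤ)
    (ha : ∀ j, ∀ q ∈ PP z0 z, ¬ ((q : ℤ) ∣ a j)) {q : ℕ} (hq : q ∈ PP z0 z) :
    (1 : ℝ) - (k : ℝ) / q ≤ 1 - (om a b q : ℝ) / q ∧ 0 < (1 : ℝ) - (k : ℝ) / q := by
  have h1 : om a b q ≤ k := om_le a b (PP_prime hq) (fun j => ha j q hq)
  have h2 : k < q := lt_of_le_of_lt hk (PP_lt hq)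
  have hq0 : (0 : ℝ) < q := by exact_mod_cast (by omega : 0 < q)
  have h1' : (om a b q : ℝ) ≤ k := by exact_mod_cast h1
  have h2' : (k : ℝ) < q := by exact_mod_cast h2
  constructor
  · have := div_le_div_of_nonneg_right h1' hq0.le
    linarith
  · rw [sub_pos, div_lt_one hq0]; exact h2'

theorem VV_pos {z0 z k : ℕ} (hk : k ≤ z0) (a b : Fin k → ℤ)
    (ha : ∀ j, ∀ q ∈ PP z0 z, ¬ ((q : ℤ) ∣ a j)) : 0 < VV z0 z a b := by
  unfold VV
  refine Finset.prod_pos (fun q hq => ?_)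
  have h := VV_factor_pos hk a b ha hq
  linarith [h.1, h.2]

theorem VV_le_one (z0 z : ℕ) {k : ℕ} (a b : Fin k → ℤ) : VV z0 z a b ≤ 1 := by
  unfold VV
  refine Finset.prod_le_one (fun q hq => ?_) (fun q hq => ?_)
  · have h0 : (0 : ℝ) < q := by exact_mod_cast (PP_prime hq).pos
    have h1 : (om a b q : ℝ) ≤ q := by
      have : om a b q ≤ q := by
        unfold om
        exact (Finset.card_filter_le _ _).trans (by simp)
      exact_mod_cast this
    rw [sub_nonneg, div_le_one h0]; exact h1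
  · have : (0 : ℝ) ≤ (om a b q : ℝ) / q := by positivity
    linarith

/-- telescoping product -/
theorem prod_Ioc_desc (z0 k z : ℕ) (hk : k ≤ z0) (hz : z0 ≤ z) :
    (∏ n ∈ Finset.Ioc z0 z, (1 - (k : ℝ) / n)) * (z.descFactorial k : ℝ) =
      (z0.descFactorial k : ℝ) := by
  induction z, hz using Nat.le_induction with
  | base => simp
  | succ z hz ih =>
    rw [← Finset.insert_Ioc_right_eq_Ioc_add_one (by omega : z0 ≤ z),
      Finset.prod_insert (by simp)]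
    have h1 : ((z + 1 - k : ℕ) : ℝ) * ((z + 1).descFactorial k : ℝ) =
        ((z : ℝ) + 1) * (z.descFactorial k : ℝ) := by
      exact_mod_cast Nat.succ_descFactorial z k
    have h2 : ((z + 1 - k : ℕ) : ℝ) = (z : ℝ) + 1 - k := by
      rw [Nat.cast_sub (by omega)]; push_cast; ring
    have h3 : ((z + 1 : ℕ) : ℝ) ≠ 0 := by positivity
    rw [← ih]
    have h4 : (1 - (k : ℝ) / ((z + 1 : ℕ) : ℝ)) * ((z + 1).descFactorial k : ℝ) =
        (z.descFactorial k : ℝ) := by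
      rw [h2] at h1
      push_cast at h3 ⊢
      field_simp
      linarith
    calc (1 - (k : ℝ) / ((z + 1 : ℕ) : ℝ)) * (∏ n ∈ Finset.Ioc z0 z, (1 - (k : ℝ) / n)) *
          ((z + 1).descFactorial k : ℝ)
        = (∏ n ∈ Finset.Ioc z0 z, (1 - (k : ℝ) / n)) *
          ((1 - (k : ℝ) / ((z + 1 : ℕ) : ℝ)) * ((z + 1).descFactorial k : ℝ)) := by ring
      _ = _ := by rw [h4]

theorem VV_ge {z0 z k : ℕ} (hk : k ≤ z0) (hz : z0 ≤ z) (a b : Fin k → ℤ)
    (ha : ∀ j, ∀ q ∈ PP z0 z, ¬ ((q : ℤ) ∣ a j)) : 1 ≤ VV z0 z a b * (z : ℝ) ^ k := by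
  have h1 : (∏ n ∈ Finset.Ioc z0 z, (1 - (k : ℝ) / n)) ≤ VV z0 z a b := by
    unfold VV
    have h2 : (∏ n ∈ Finset.Ioc z0 z, (1 - (k : ℝ) / n)) ≤
        ∏ q ∈ PP z0 z, (1 - (k : ℝ) / q) := by
      have hsub : PP z0 z ⊆ Finset.Ioc z0 z := Finset.filter_subset _ _
      rw [← Finset.prod_sdiff hsub]
      have h3 : (∏ n ∈ Finset.Ioc z0 z \ PP z0 z, (1 - (k : ℝ) / n)) ≤ 1 := by
        refine Finset.prod_le_one (fun n hn => ?_) (fun n hn => ?_)
        · rw [Finset.mem_sdiff, Finset.mem_Ioc] at hn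
          have hn0 : (0 : ℝ) < n := by exact_mod_cast (by omega : 0 < n)
          have : (k : ℝ) ≤ n := by exact_mod_cast (by omega : k ≤ n)
          rw [sub_nonneg, div_le_one hn0]; exact this
        · have : (0 : ℝ) ≤ (k : ℝ) / n := by positivity
          linarith
      have h4 : 0 ≤ ∏ q ∈ PP z0 z, (1 - (k : ℝ) / q) :=
        Finset.prod_nonneg (fun q hq => (VV_factor_pos hk a b ha hq).2.le)
      calc _ ≤ 1 * ∏ q ∈ PP z0 z, (1 - (k : ℝ) / q) := mul_le_mul_of_nonneg_right h3 h4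
        _ = _ := one_mul _
    refine h2.trans (Finset.prod_le_prod (fun q hq => (VV_factor_pos hk a b ha hq).2.le)
      (fun q hq => (VV_factor_pos hk a b ha hq).1))
  have h5 : (z.descFactorial k : ℝ) ≤ (z : ℝ) ^ k := by
    exact_mod_cast Nat.descFactorial_le_pow z k
  have h6 : (1 : ℝ) ≤ (z0.descFactorial k : ℝ) := by
    have : 0 < z0.descFactorial k := Nat.descFactorial_pos.2 hk
    exact_mod_cast this
  rw [← prod_Ioc_desc z0 k z hk hz] at h6
  have h7 : 0 < VV z0 z a b := VV_pos hk a b ha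
  refine h6.trans ?_
  refine (mul_le_mul_of_nonneg_right h1 (by positivity)).trans ?_
  exact mul_le_mul_of_nonneg_left h5 h7.le

theorem VV_inv_le {z0 z k : ℕ} (hk : k ≤ z0) (hz : z0 ≤ z) (a b : Fin k → ℤ)
    (ha : ∀ j, ∀ q ∈ PP z0 z, ¬ ((q : ℤ) ∣ a j)) : (VV z0 z a b)⁻¹ ≤ (z : ℝ) ^ k := by
  have h1 := VV_ge hk hz a b ha
  have h2 := VV_pos hk a b ha
  rw [inv_le_iff_one_le_mul₀ h2]
  linarith [mul_comm (VV z0 z a b) ((z : ℝ) ^ k)]

theorem VV_smul (z0 z : ℕ) {k : ℕ} (a b : Fin k → ℤ) (p : ℤ)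
    (hp : ∀ q ∈ PP z0 z, IsCoprime p (q : ℤ)) :
    VV z0 z (fun j => p * a j) b = VV z0 z a b := by
  unfold VV
  refine Finset.prod_congr rfl (fun q hq => ?_)
  rw [om_smul a b (PP_prime hq).pos p (hp q hq)]

/-! ### the weights -/

theorem nu_nonneg {z0 z k : ℕ} (hk : k ≤ z0) (a b : Fin k → ℤ)
    (ha : ∀ j, ∀ q ∈ PP z0 z, ¬ ((q : ℤ) ∣ a j)) (n : ℤ) : 0 ≤ nu z0 z a b n := by
  unfold nu
  split_ifs
  · exact (inv_pos.2 (VV_pos hk a b ha)).le
  · exact le_rfl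

theorem nu_le {z0 z k : ℕ} (hk : k ≤ z0) (a b : Fin k → ℤ)
    (ha : ∀ j, ∀ q ∈ PP z0 z, ¬ ((q : ℤ) ∣ a j)) (n : ℤ) :
    nu z0 z a b n ≤ (VV z0 z a b)⁻¹ := by
  unfold nu
  split_ifs
  · exact le_rfl
  · exact (inv_pos.2 (VV_pos hk a b ha)).le

theorem nu_smul (z0 z : ℕ) {k : ℕ} (a b : Fin k → ℤ) (p : ℤ)
    (hp : ∀ q ∈ PP z0 z, IsCoprime p (q : ℤ)) (m : ℤ) :
    nu z0 z (fun j => p * a j) b m = nu z0 z a b (p * m) := by
  unfold nu
  rw [VV_smul z0 z a b p hp]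
  have h : (∀ j, Rough z0 z (p * a j * m + b j)) ↔ (∀ j, Rough z0 z (a j * (p * m) + b j)) := by
    refine forall_congr' (fun j => ?_)
    have h1 : p * a j * m + b j = a j * (p * m) + b j := by ring
    rw [h1]
  by_cases h2 : ∀ j, Rough z0 z (a j * (p * m) + b j)
  · rw [if_pos (h.2 h2), if_pos h2]
  · rw [if_neg (fun h3 => h2 (h.1 h3)), if_neg h2]

theorem rough_mul_iff {z0 z : ℕ} {p : ℤ} (hp : ∀ q ∈ PP z0 z, IsCoprime p (q : ℤ)) (m : ℤ) :
    Rough z0 z (p * m) ↔ Rough z0 z m := by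
  unfold Rough
  refine forall₂_congr (fun q hq => ?_)
  constructor
  · intro h h'; exact h (Dvd.dvd.mul_left h' _)
  · intro h h'; exact h ((hp q hq).symm.dvd_of_dvd_mul_left h')

/-- a prime above `z` is coprime to the sieving primes -/
theorem coprime_of_gt {z0 z p : ℕ} (hp : p.Prime) (hz : z < p) :
    ∀ q ∈ PP z0 z, IsCoprime (p : ℤ) (q : ℤ) := by
  intro q hq
  rw [Nat.isCoprime_iff_coprime]
  rw [Nat.coprime_primes hp (PP_prime hq)]
  have := PP_le hq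
  omega

theorem not_dvd_of_coprime {z0 z : ℕ} {a : ℤ} (h : ∀ q ∈ PP z0 z, IsCoprime a (q : ℤ)) :
    ∀ q ∈ PP z0 z, ¬ ((q : ℤ) ∣ a) := by
  intro q hq hd
  have h1 := (h q hq).symm
  have h2 : IsUnit ((q : ℤ)) := by
    have := h1.isUnit_of_dvd' (dvd_refl _) hd
    exact this
  have h3 := Int.isUnit_iff.1 h2
  have h4 := (PP_prime hq).two_le
  rcases h3 with h3 | h3 <;> omega

theorem not_dvd_one {z0 z : ℕ} : ∀ q ∈ PP z0 z, ¬ ((q : ℤ) ∣ (1 : ℤ)) :=
  not_dvd_of_coprime (fun _ _ => isCoprime_one_left)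

/-! ### exponentials and the Liouville function -/

theorem norm_ee (θ : ℝ) : ‖ee θ‖ = 1 := by
  unfold ee
  have h : (2 * (Real.pi : ℂ) * (θ : ℂ) * Complex.I) =
      ((2 * Real.pi * θ : ℝ) : ℂ) * Complex.I := by push_cast; ring
  rw [h, Complex.norm_exp_ofReal_mul_I]

theorem ee_add (θ φ : ℝ) : ee (θ + φ) = ee θ * ee φ := by
  unfold ee
  rw [← Complex.exp_add]
  congr 1
  push_cast; ring

theorem ee_neg (θ : ℝ) : ee (-θ) = (starRingEnd ℂ) (ee θ) := by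
  unfold ee
  rw [← Complex.exp_conj]
  congr 1
  have h2 : (starRingEnd ℂ) 2 = 2 := Complex.conj_ofNat 2
  simp [Complex.conj_ofReal, h2]

theorem ee_zero : ee 0 = 1 := by
  unfold ee; simp

theorem ee_int (n : ℤ) : ee n = 1 := by
  unfold ee
  rw [Complex.exp_eq_one_iff]
  exact ⟨n, by push_cast; ring⟩

theorem abs_lam (n : ℕ) : |lam n| = 1 := by
  unfold lam
  rw [abs_pow]; simp

theorem norm_lam (n : ℕ) : ‖(lam n : ℂ)‖ = 1 := by
  rw [Complex.norm_real, Real.norm_eq_abs, abs_lam]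

theorem lam_mul {m n : ℕ} (hm : m ≠ 0) (hn : n ≠ 0) : lam (m * n) = lam m * lam n := by
  unfold lam
  rw [ArithmeticFunction.cardFactors_mul hm hn, pow_add]

theorem lam_prime {p : ℕ} (hp : p.Prime) : lam p = -1 := by
  unfold lam
  rw [ArithmeticFunction.cardFactors_apply_prime hp]; simp

/-- sums over an integer interval `(0, H]` as sums over naturals -/
theorem sum_Ioc_int {M : Type*} [AddCommMonoid M] (H : ℕ) (f : ℤ → M) :
    ∑ n ∈ Finset.Ioc (0 : ℤ) (0 + H), f n = ∑ m ∈ Finset.Icc 1 H, f (m : ℤ) := by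
  symm
  refine Finset.sum_bij (fun m _ => (m : ℤ)) ?_ ?_ ?_ ?_
  · intro m hm
    rw [Finset.mem_Icc] at hm
    rw [Finset.mem_Ioc]
    omega
  · intro m _ m' _ h
    exact_mod_cast h
  · intro n hn
    rw [Finset.mem_Ioc] at hn
    exact ⟨n.toNat, by rw [Finset.mem_Icc]; omega, by omega⟩
  · intro m _; rfl

end Pool.Agent.Lib.TwinAll
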