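import Mathlib
import Pool.Agent.Lib.TwinAll.Stmts
import Pool.Agent.Lib.MP_c6d112_nt.DO.FL

/-!
THEOREM A (MP_c6d112_nt), module S1: Brun-Hooley weights of precision `1 ± ε`.
-/

set_option autoImplicit false

namespace Pool.Agent.Lib.TwinAll

open Finset
open Pool.Agent.Lib.MP_369a91_nt (ev)
open Pool.Agent.Lib.MP_c6d112_nt.DO (UU LL fundamental pointwise abs_UU abs_LL support_UU
  support_LL)

/-- restriction of an evaluation to a smaller set of primes -/
theorem ev_restrict (w : Finset ℕ → ℝ) (S T : Finset ℕ) (hST : S ⊆ T) (h : ℕ → ℝ) :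
    ev w T (fun q => if q ∈ S then h q else 0) = ∑ D ∈ S.powerset, w D * ∏ q ∈ D, h q := by
  classical
  unfold ev
  rw [← Finset.sum_subset (Finset.powerset_mono.2 hST)]
  · apply Finset.sum_congr rfl
    intro D hD
    rw [Finset.mem_powerset] at hD
    congr 1
    apply Finset.prod_congr rfl
    intro q hq
    simp only [if_pos (hD hq)]
  · intro D _ hDS
    rw [Finset.mem_powerset, Finset.not_subset] at hDS
    obtain ⟨q, hqD, hqS⟩ := hDS
    rw [Finset.prod_eq_zero hqD (by simp only [if_neg hqS]), mul_zero]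

theorem prod_restrict (S T : Finset ℕ) (hST : S ⊆ T) (h : ℕ → ℝ) :
    ∏ q ∈ T, (1 - (if q ∈ S then h q else 0)) = ∏ q ∈ S, (1 - h q) := by
  classical
  rw [← Finset.prod_subset hST]
  · apply Finset.prod_congr rfl
    intro q hq
    rw [if_pos hq]
  · intro q _ hq
    rw [if_neg hq, sub_zero]

theorem S1 : S1Stmt := by
  classical
  intro k ε hε
  obtain ⟨R, t1, ht1, hk, hfund⟩ := fundamental (k : ℝ) ε hε
  refine ⟨2 * (4 * R + 10), 2 ^ 2 ^ t1, fun z0 hz0 z hz => ?_⟩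
  -- choice of `t0`
  have hbig : ∀ t : ℕ, t < 2 ^ 2 ^ t := fun t =>
    lt_of_lt_of_le Nat.lt_two_pow_self (Nat.pow_le_pow_right (by norm_num)
      Nat.lt_two_pow_self.le)
  -- the largest `t0` with `2 ^ 2 ^ t0 ≤ z0`
  set t0 := Nat.findGreatest (fun t => 2 ^ 2 ^ t ≤ z0) z0 with ht0
  have ht0z : 2 ^ 2 ^ t0 ≤ z0 := by
    have : t1 ≤ z0 := (hbig t1).le.trans hz0
    exact Nat.findGreatest_spec (P := fun t => 2 ^ 2 ^ t ≤ z0) this hz0
  have ht1t0 : t1 ≤ t0 := Nat.le_findGreatest ((hbig t1).le.trans hz0) hz0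
  -- the smallest `n` with `z ≤ 2 ^ 2 ^ (t0 + n)`
  have hex : ∃ n, z ≤ 2 ^ 2 ^ (t0 + n) := by
    refine ⟨z, ?_⟩
    exact (hbig z).le.trans (Nat.pow_le_pow_right (by norm_num)
      (Nat.pow_le_pow_right (by norm_num) (by omega)))
  set n := Nat.find hex with hn
  have hnz : z ≤ 2 ^ 2 ^ (t0 + n) := Nat.find_spec hex
  have hz2 : 2 ^ 2 ^ (t0 + n) ≤ z ^ 2 := by
    rcases Nat.eq_zero_or_pos n with h0 | hpos
    · rw [h0, Nat.add_zero]
      have h1 : 2 ^ 2 ^ t0 ≤ z := ht0z.trans hz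
      calc 2 ^ 2 ^ t0 ≤ z := h1
        _ ≤ z ^ 2 := Nat.le_self_pow (by norm_num) z
    · have h1 : ¬ z ≤ 2 ^ 2 ^ (t0 + (n - 1)) := Nat.find_min hex (by omega)
      push Not at h1
      have h2 : 2 ^ 2 ^ (t0 + n) = (2 ^ 2 ^ (t0 + (n - 1))) ^ 2 := by
        rw [← pow_mul, ← pow_succ]
        congr 2
        omega
      rw [h2]
      exact Nat.pow_le_pow_left h1.le 2
  have hsub : PP z0 z ⊆ MP_c6d112_nt.DO.PP t0 n := by
    intro q hq
    simp only [PP, MP_c6d112_nt.DO.PP, Finset.mem_filter, Finset.mem_Ioc] at hq ⊢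
    exact ⟨⟨by omega, by omega⟩, hq.2⟩
  refine ⟨UU t0 R n, LL t0 R n, fun D => ⟨abs_UU _ _ _ _, abs_LL _ _ _ _⟩, ?_, ?_, ?_⟩
  · intro D hD hne
    have h1 : ∏ q ∈ D, q ≤ (2 ^ 2 ^ (t0 + n)) ^ (4 * R + 10) := by
      rcases hne with h | h
      · exact support_UU t0 R n D (hD.trans hsub) h
      · exact support_LL t0 R n D (hD.trans hsub) h
    calc ∏ q ∈ D, q ≤ (2 ^ 2 ^ (t0 + n)) ^ (4 * R + 10) := h1
      _ ≤ (z ^ 2) ^ (4 * R + 10) := Nat.pow_le_pow_left hz2 _
      _ = z ^ (2 * (4 * R + 10)) := by rw [← pow_mul]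
  · intro h hh
    have h1 := pointwise t0 R n (fun q => if q ∈ PP z0 z then h q else 0)
      (fun q _ => by
        split_ifs
        · exact (hh q).1
        · exact le_rfl)
      (fun q _ => by
        split_ifs
        · exact (hh q).2
        · exact zero_le_one)
    rw [ev_restrict _ _ _ hsub, ev_restrict _ _ _ hsub, prod_restrict _ _ hsub] at h1
    exact h1
  · intro h hh
    have h1 := hfund t0 n ht1t0 (fun q => if q ∈ PP z0 z then h q else 0)
      (fun q _ => by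
        by_cases hq : q ∈ PP z0 z
        · simp only [if_pos hq]; exact (hh q hq).1
        · simp only [if_neg hq]; exact le_rfl)
      (fun q _ => by
        by_cases hq : q ∈ PP z0 z
        · simp only [if_pos hq]; exact (hh q hq).2
        · simp only [if_neg hq]; positivity)
    rw [ev_restrict _ _ _ hsub, ev_restrict _ _ _ hsub, prod_restrict _ _ hsub] at h1
    exact ⟨h1.2.2.2, h1.1⟩

end Pool.Agent.Lib.TwinAll
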