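import Mathlib
import Pool.Agent.Lib.TwinAll.Stmts
import Pool.Agent.Lib.TwinAll.Basic94
import Pool.Agent.Lib.TwinAll.S1x82

/-!
THEOREM A (MP_c6d112_nt): the general sieve estimate with one set of bad classes for every prime
in `PP z0 z`, from the weights of S1 and the Chinese remainder theorem.
-/

set_option autoImplicit false

namespace Pool.Agent.Lib.TwinAll.T49

open Finset

/-- sum over a full period -/
theorem sum_period {d : ℕ} [NeZero d] (F : ZMod d → ℝ) (u : ℤ) :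
    ∑ n ∈ Ioc u (u + d), F (n : ZMod d) = ∑ x : ZMod d, F x := by
  have hd : (0 : ℤ) < d := by exact_mod_cast Nat.pos_of_ne_zero (NeZero.ne d)
  refine Finset.sum_bij (fun n _ => (n : ZMod d)) (fun _ _ => mem_univ _) ?_ ?_ (fun _ _ => rfl)
  · intro n hn m hm h
    rw [mem_Ioc] at hn hm
    obtain ⟨c, hc⟩ := (ZMod.intCast_eq_intCast_iff_dvd_sub n m d).1 h
    have h1 : c < 1 := by
      by_contra h1
      have : (d : ℤ) * 1 ≤ d * c := mul_le_mul_of_nonneg_left (by omega) hd.le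
      omega
    have h2 : -1 < c := by
      by_contra h2
      have : (d : ℤ) * c ≤ d * (-1) := mul_le_mul_of_nonneg_left (by omega) hd.le
      omega
    have h3 : c = 0 := by omega
    rw [h3, mul_zero] at hc
    omega
  · intro x _
    refine ⟨u + 1 + (((x - ((u + 1 : ℤ) : ZMod d) : ZMod d).val : ℕ) : ℤ), ?_, ?_⟩
    · rw [mem_Ioc]
      have := ZMod.val_lt (x - ((u + 1 : ℤ) : ZMod d))
      omega
    · push_cast
      rw [ZMod.natCast_val, ZMod.cast_id]
      ring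

/-- the number of solutions over a full period: Chinese remainder theorem -/
theorem count_crt (D : Finset ℕ) (hD : ∀ q ∈ D, q.Prime) (bad : ℕ → ℤ → Prop)
    [∀ q n, Decidable (bad q n)]
    (hper : ∀ q ∈ D, ∀ n m : ℤ, (q : ℤ) ∣ n - m → (bad q n ↔ bad q m)) (u : ℤ) :
    ∑ n ∈ Ioc u (u + (∏ q ∈ D, q : ℕ)), ∏ q ∈ D, (if bad q n then (1 : ℝ) else 0) =
      ∏ q ∈ D, ((((range q).filter (fun r : ℕ => bad q r)).card : ℕ) : ℝ) := by
  classical
  have hpos : 0 < ∏ q ∈ D, q := Finset.prod_pos (fun q hq => (hD q hq).pos)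
  have hne : NeZero (∏ i : ↥D, (i : ℕ)) := by
    constructor
    rw [Finset.prod_coe_sort D (fun q => q)]
    exact hpos.ne'
  have hcop : Pairwise (Function.onFun Nat.Coprime (fun i : ↥D => (i : ℕ))) := by
    intro i j hij
    exact (Nat.coprime_primes (hD i i.2) (hD j j.2)).2 (fun h => hij (Subtype.ext h))
  have hnz : ∀ i : ↥D, NeZero (i : ℕ) := fun i => ⟨(hD i i.2).ne_zero⟩
  let G : ∀ i : ↥D, ZMod (i : ℕ) → ℝ := fun i y => if bad i (y.val : ℤ) then 1 else 0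
  have hG : ∀ (i : ↥D) (n : ℤ), G i (n : ZMod (i : ℕ)) = if bad i n then 1 else 0 := by
    intro i n
    have h1 : bad i (((n : ZMod (i : ℕ)).val : ℕ) : ℤ) ↔ bad i n := by
      apply hper i i.2
      rw [ZMod.val_intCast]
      have h2 := Int.emod_add_mul_ediv n (i : ℕ)
      refine ⟨-(n / (i : ℕ)), ?_⟩
      linarith
    simp only [G]
    by_cases h : bad i n
    · rw [if_pos (h1.2 h), if_pos h]
    · rw [if_neg (fun h' => h (h1.1 h')), if_neg h]
  let E := ZMod.prodEquivPi (fun i : ↥D => (i : ℕ)) hcop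
  have h1 : ∀ n : ℤ, ∏ q ∈ D, (if bad q n then (1 : ℝ) else 0) =
      ∏ i : ↥D, G i (E (n : ZMod (∏ i : ↥D, (i : ℕ))) i) := by
    intro n
    rw [← Finset.prod_coe_sort D (fun q => if bad q n then (1 : ℝ) else 0)]
    apply Finset.prod_congr rfl
    intro i _
    rw [← hG i n, ZMod.prodEquivPi_apply, map_intCast]
  have h2 : ∀ v : ℤ, ∑ n ∈ Ioc v (v + (∏ q ∈ D, q : ℕ)), ∏ q ∈ D, (if bad q n then (1 : ℝ) else 0) =
      ∑ x : ZMod (∏ i : ↥D, (i : ℕ)), ∏ i : ↥D, G i (E x i) := by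
    intro v
    have hI : Ioc v (v + ((∏ q ∈ D, q : ℕ) : ℤ)) =
        Ioc v (v + ((∏ i : ↥D, (i : ℕ) : ℕ) : ℤ)) := by
      rw [Finset.prod_coe_sort D (fun q => q)]
    rw [← sum_period (fun x => ∏ i : ↥D, G i (E x i)) v, hI]
    exact Finset.sum_congr rfl (fun n _ => h1 n)
  have h22 : ∑ x : ZMod (∏ i : ↥D, (i : ℕ)), ∏ i : ↥D, G i (E x i) =
      ∑ y : (∀ i : ↥D, ZMod (i : ℕ)), ∏ i : ↥D, G i (y i) :=
    Equiv.sum_comp E.toEquiv (fun y => ∏ i : ↥D, G i (y i))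
  rw [h2, h22]
  have h3 := Finset.prod_univ_sum (fun i : ↥D => (Finset.univ : Finset (ZMod (i : ℕ)))) G
  rw [Fintype.piFinset_univ] at h3
  rw [← h3, ← Finset.prod_coe_sort D
    (fun q => ((((range q).filter (fun r : ℕ => bad q r)).card : ℕ) : ℝ))]
  apply Finset.prod_congr rfl
  intro i _
  rw [Finset.card_filter]
  push_cast
  refine Finset.sum_bij (fun y _ => y.val) ?_ ?_ ?_ ?_
  · intro y _
    exact mem_range.2 (ZMod.val_lt y)
  · intro y _ y' _ h
    exact ZMod.val_injective _ h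
  · intro r hr
    exact ⟨(r : ZMod (i : ℕ)), mem_univ _, ZMod.val_cast_of_lt (mem_range.1 hr)⟩
  · intro y _
    rfl

/-- splitting off a full period -/
theorem count_shift (f : ℤ → ℝ) (c : ℝ) (d : ℕ) (hf : ∀ u : ℤ, ∑ n ∈ Ioc u (u + d), f n = c)
    (t r : ℕ) (u : ℤ) :
    ∑ n ∈ Ioc u (u + (d * t + r : ℕ)), f n = c * t + ∑ n ∈ Ioc (u + d * t) (u + d * t + r), f n := by
  induction t generalizing u with
  | zero => simp
  | succ t ih =>
    have h1 : Ioc u (u + (d * (t + 1) + r : ℕ)) =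
        Ioc u (u + d) ∪ Ioc (u + d) (u + d + (d * t + r : ℕ)) := by
      rw [Ioc_union_Ioc_eq_Ioc]
      · congr 1
        push_cast
        ring
      · have : (0 : ℤ) ≤ d := Int.natCast_nonneg _
        linarith
      · have : (0 : ℤ) ≤ ((d * t + r : ℕ) : ℤ) := Int.natCast_nonneg _
        linarith
    rw [h1, Finset.sum_union, hf, ih]
    · have h2 : u + d + d * t = u + d * ((t + 1 : ℕ) : ℤ) := by
        push_cast
        ring
      rw [h2]
      push_cast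
      ring
    · rw [Finset.disjoint_left]
      intro x hx hx'
      rw [mem_Ioc] at hx hx'
      omega

theorem prod_ind_mem (D : Finset ℕ) (p : ℕ → Prop) [DecidablePred p] :
    0 ≤ ∏ q ∈ D, (if p q then (1 : ℝ) else 0) ∧ ∏ q ∈ D, (if p q then (1 : ℝ) else 0) ≤ 1 := by
  constructor
  · apply Finset.prod_nonneg
    intro q _
    split_ifs <;> norm_num
  · apply Finset.prod_le_one
    · intro q _
      split_ifs <;> norm_num
    · intro q _
      split_ifs <;> norm_num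

theorem alg8 (H c d t r : ℝ) (hd : 0 < d) (h : H = d * t + r) :
    H * (c / d) = c * t + r * (c / d) := by
  rw [h]
  field_simp

/-- number of solutions in an arbitrary interval -/
theorem count_any (D : Finset ℕ) (hD : ∀ q ∈ D, q.Prime) (bad : ℕ → ℤ → Prop)
    [∀ q n, Decidable (bad q n)]
    (hper : ∀ q ∈ D, ∀ n m : ℤ, (q : ℤ) ∣ n - m → (bad q n ↔ bad q m)) (u : ℤ) (H : ℕ) :
    |∑ n ∈ Ioc u (u + H), ∏ q ∈ D, (if bad q n then (1 : ℝ) else 0) -
      H * ∏ q ∈ D, ((((range q).filter (fun r : ℕ => bad q r)).card : ℕ) : ℝ) / q| ≤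
      ((∏ q ∈ D, q : ℕ) : ℝ) := by
  classical
  set d : ℕ := ∏ q ∈ D, q with hd
  have hpos : 0 < d := Finset.prod_pos (fun q hq => (hD q hq).pos)
  have hdR : (0 : ℝ) < d := by exact_mod_cast hpos
  set f : ℤ → ℝ := fun n => ∏ q ∈ D, (if bad q n then (1 : ℝ) else 0) with hf
  set c : ℝ := ∏ q ∈ D, ((((range q).filter (fun r : ℕ => bad q r)).card : ℕ) : ℝ) with hc
  have h1 : ∀ v : ℤ, ∑ n ∈ Ioc v (v + d), f n = c := fun v => count_crt D hD bad hper v
  have hc0 : 0 ≤ c := Finset.prod_nonneg (fun _ _ => Nat.cast_nonneg _)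
  have hcd : c ≤ d := by
    rw [hd]
    push_cast
    apply Finset.prod_le_prod (fun _ _ => Nat.cast_nonneg _)
    intro q _
    exact_mod_cast (Finset.card_filter_le _ _).trans (le_of_eq (card_range q))
  have h2 : ∏ q ∈ D, ((((range q).filter (fun r : ℕ => bad q r)).card : ℕ) : ℝ) / q = c / d := by
    rw [Finset.prod_div_distrib, hd]
    push_cast
    rfl
  have h3 := count_shift f c d h1 (H / d) (H % d) u
  rw [Nat.div_add_mod] at h3
  have h4 : (H : ℝ) = d * (H / d : ℕ) + (H % d : ℕ) := by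
    exact_mod_cast (Nat.div_add_mod H d).symm
  have h5 : ((H % d : ℕ) : ℝ) ≤ d := by exact_mod_cast (Nat.mod_lt H hpos).le
  have h50 : (0 : ℝ) ≤ ((H % d : ℕ) : ℝ) := Nat.cast_nonneg _
  set v : ℤ := u + d * ((H / d : ℕ) : ℤ) with hv
  have h6 : 0 ≤ ∑ n ∈ Ioc v (v + (H % d : ℕ)), f n :=
    Finset.sum_nonneg (fun n _ => (prod_ind_mem D (fun q => bad q n)).1)
  have h7 : ∑ n ∈ Ioc v (v + (H % d : ℕ)), f n ≤ (H % d : ℕ) := by
    have : ∑ n ∈ Ioc v (v + (H % d : ℕ)), f n ≤ ∑ n ∈ Ioc v (v + (H % d : ℕ)), (1 : ℝ) :=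
      Finset.sum_le_sum (fun n _ => (prod_ind_mem D (fun q => bad q n)).2)
    refine this.trans (le_of_eq ?_)
    rw [Finset.sum_const, Int.card_Ioc, nsmul_eq_mul, mul_one]
    congr 1
    omega
  have h8 : (H : ℝ) * (c / d) = c * (H / d : ℕ) + (H % d : ℕ) * (c / d) :=
    alg8 H c d _ _ hdR h4
  have h9 : 0 ≤ ((H % d : ℕ) : ℝ) * (c / d) := mul_nonneg h50 (div_nonneg hc0 hdR.le)
  have h10 : ((H % d : ℕ) : ℝ) * (c / d) ≤ ((H % d : ℕ) : ℝ) := by
    have : c / d ≤ 1 := (div_le_one hdR).2 hcd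
    exact mul_le_of_le_one_right h50 this
  rw [h2, h3, h8, abs_le]
  constructor
  · linarith
  · linarith

/-- number of sets of primes with a product at most `X` -/
theorem card_sets_le (P : Finset ℕ) (hP : ∀ q ∈ P, q.Prime) (X : ℕ) :
    (P.powerset.filter (fun D => ∏ q ∈ D, q ≤ X)).card ≤ X := by
  have h1 : (Icc 1 X).card = X := by simp
  conv_rhs => rw [← h1]
  apply Finset.card_le_card_of_injOn (fun D => ∏ q ∈ D, q)
  · intro D hD
    rw [mem_coe, mem_filter, mem_powerset] at hD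
    rw [mem_coe, mem_Icc]
    exact ⟨Finset.prod_pos (fun q hq => (hP q (hD.1 hq)).pos), hD.2⟩
  · intro D hD D' hD' h
    rw [mem_coe, mem_filter, mem_powerset] at hD hD'
    have h2 := congrArg Nat.primeFactors h
    simp only at h2
    rwa [Nat.primeFactors_prod (fun q hq => hP q (hD.1 hq)),
      Nat.primeFactors_prod (fun q hq => hP q (hD'.1 hq))] at h2

/-- general sieve estimate -/
theorem core (k : ℕ) (ε : ℝ) (hε : 0 < ε) : ∃ s zs : ℕ, ∀ z0 : ℕ, zs ≤ z0 → ∀ z : ℕ, z0 ≤ z →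
    ∀ (bad : ℕ → ℤ → Prop) [∀ q n, Decidable (bad q n)],
    (∀ q ∈ PP z0 z, ∀ n m : ℤ, (q : ℤ) ∣ n - m → (bad q n ↔ bad q m)) →
    (∀ q ∈ PP z0 z, ((range q).filter (fun r : ℕ => bad q r)).card ≤ k) →
    ∀ (u : ℤ) (H : ℕ),
      (1 - ε) * (H * ∏ q ∈ PP z0 z, (1 - ((((range q).filter (fun r : ℕ => bad q r)).card : ℕ) : ℝ)
        / q)) - (z : ℝ) ^ (2 * s) ≤
      (((Ioc u (u + H)).filter (fun n => ∀ q ∈ PP z0 z, ¬ bad q n)).card : ℝ) ∧
      (((Ioc u (u + H)).filter (fun n => ∀ q ∈ PP z0 z, ¬ bad q n)).card : ℝ) ≤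
      (1 + ε) * (H * ∏ q ∈ PP z0 z, (1 - ((((range q).filter (fun r : ℕ => bad q r)).card : ℕ) : ℝ)
        / q)) + (z : ℝ) ^ (2 * s) := by
  classical
  obtain ⟨s, zs, hS⟩ := S1 k ε hε
  refine ⟨s, zs, fun z0 hz0 z hz bad _ hper hk u H => ?_⟩
  obtain ⟨U, L, hUL, hsupp, hind, hdens⟩ := hS z0 hz0 z hz
  set P := PP z0 z with hP
  have hPp : ∀ q ∈ P, q.Prime := fun q hq => PP_prime hq
  set g : ℕ → ℝ := fun q => ((((range q).filter (fun r : ℕ => bad q r)).card : ℕ) : ℝ) / q with hg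
  have hdens2 := hdens g (fun q hq => ⟨by positivity, by
    have : (0 : ℝ) < q := by exact_mod_cast (hPp q hq).pos
    have h2 : ((((range q).filter (fun r : ℕ => bad q r)).card : ℕ) : ℝ) ≤ k := by
      exact_mod_cast hk q hq
    exact div_le_div_of_nonneg_right h2 this.le⟩)
  -- indicator
  have hI : ∀ n : ℤ, ∏ q ∈ P, (1 - (if bad q n then (1 : ℝ) else 0)) =
      if ∀ q ∈ P, ¬ bad q n then 1 else 0 := by
    intro n
    by_cases h : ∀ q ∈ P, ¬ bad q n
    · rw [if_pos h]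
      apply Finset.prod_eq_one
      intro q hq
      rw [if_neg (h q hq), sub_zero]
    · rw [if_neg h]
      push Not at h
      obtain ⟨q, hq, hb⟩ := h
      apply Finset.prod_eq_zero hq
      rw [if_pos hb, sub_self]
  have hcard : (((Ioc u (u + H)).filter (fun n => ∀ q ∈ P, ¬ bad q n)).card : ℝ) =
      ∑ n ∈ Ioc u (u + H), ∏ q ∈ P, (1 - (if bad q n then (1 : ℝ) else 0)) := by
    rw [Finset.card_filter]
    push_cast
    exact Finset.sum_congr rfl (fun n _ => (hI n).symm)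
  -- error term
  have herr : ∀ W : Finset ℕ → ℝ, (∀ D, |W D| ≤ 1) →
      (∀ D, D ⊆ P → W D ≠ 0 → ∏ q ∈ D, q ≤ z ^ s) →
      |∑ n ∈ Ioc u (u + H), ∑ D ∈ P.powerset, W D * ∏ q ∈ D, (if bad q n then (1 : ℝ) else 0) -
        H * ∑ D ∈ P.powerset, W D * ∏ q ∈ D, g q| ≤ (z : ℝ) ^ (2 * s) := by
    intro W hW1 hW2
    rw [Finset.sum_comm, Finset.mul_sum, ← Finset.sum_sub_distrib]
    refine (Finset.abs_sum_le_sum_abs _ _).trans ?_
    have h1 : ∀ D ∈ P.powerset, |∑ n ∈ Ioc u (u + H), W D * ∏ q ∈ D,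
        (if bad q n then (1 : ℝ) else 0) - H * (W D * ∏ q ∈ D, g q)| ≤
        if ∏ q ∈ D, q ≤ z ^ s then (z : ℝ) ^ s else 0 := by
      intro D hD
      rw [mem_powerset] at hD
      rw [← Finset.mul_sum]
      have h2 : W D * ∑ n ∈ Ioc u (u + H), ∏ q ∈ D, (if bad q n then (1 : ℝ) else 0) -
          H * (W D * ∏ q ∈ D, g q) = W D * (∑ n ∈ Ioc u (u + H), ∏ q ∈ D,
            (if bad q n then (1 : ℝ) else 0) - H * ∏ q ∈ D, g q) := by ring
      rw [h2, abs_mul]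
      by_cases h3 : W D = 0
      · rw [h3, abs_zero, zero_mul]
        split_ifs
        · positivity
        · exact le_rfl
      · have h4 := hW2 D hD h3
        rw [if_pos h4]
        have h5 := count_any D (fun q hq => hPp q (hD hq)) bad (fun q hq => hper q (hD hq)) u H
        have h6 : ((∏ q ∈ D, q : ℕ) : ℝ) ≤ (z : ℝ) ^ s := by exact_mod_cast h4
        calc |W D| * |∑ n ∈ Ioc u (u + H), ∏ q ∈ D,
            (if bad q n then (1 : ℝ) else 0) - H * ∏ q ∈ D, g q|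
            ≤ 1 * ((∏ q ∈ D, q : ℕ) : ℝ) :=
              mul_le_mul (hW1 D) h5 (abs_nonneg _) zero_le_one
          _ ≤ (z : ℝ) ^ s := by rw [one_mul]; exact h6
    refine (Finset.sum_le_sum h1).trans ?_
    rw [← Finset.sum_filter, Finset.sum_const, nsmul_eq_mul]
    have h7 := card_sets_le P hPp (z ^ s)
    have h8 : (((P.powerset.filter (fun D => ∏ q ∈ D, q ≤ z ^ s)).card : ℕ) : ℝ) ≤ (z : ℝ) ^ s := by
      exact_mod_cast h7
    calc _ ≤ (z : ℝ) ^ s * (z : ℝ) ^ s := mul_le_mul_of_nonneg_right h8 (by positivity)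
      _ = (z : ℝ) ^ (2 * s) := by rw [← pow_add, two_mul]
  have hH : (0 : ℝ) ≤ (H : ℝ) := Nat.cast_nonneg _
  have hind1 : ∀ n : ℤ, _ := fun n => hind (fun q => if bad q n then (1 : ℝ) else 0)
    (fun q => by split_ifs <;> norm_num)
  rw [hcard]
  constructor
  · have h1 := herr L (fun D => (hUL D).2) (fun D hD h => hsupp D hD (Or.inr h))
    have h2 : ∑ n ∈ Ioc u (u + H), ∑ D ∈ P.powerset, L D * ∏ q ∈ D,
        (if bad q n then (1 : ℝ) else 0) ≤
        ∑ n ∈ Ioc u (u + H), ∏ q ∈ P, (1 - (if bad q n then (1 : ℝ) else 0)) :=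
      Finset.sum_le_sum (fun n _ => (hind1 n).1)
    have h3 := mul_le_mul_of_nonneg_left hdens2.2 hH
    have h4 := (abs_le.1 h1).1
    have h5 : (1 - ε) * (H * ∏ q ∈ P, (1 - g q)) = H * ((1 - ε) * ∏ q ∈ P, (1 - g q)) := by ring
    change (1 - ε) * (H * ∏ q ∈ P, (1 - g q)) - (z : ℝ) ^ (2 * s) ≤ _
    rw [h5]
    linarith
  · have h1 := herr U (fun D => (hUL D).1) (fun D hD h => hsupp D hD (Or.inl h))
    have h2 : ∑ n ∈ Ioc u (u + H), ∏ q ∈ P, (1 - (if bad q n then (1 : ℝ) else 0)) ≤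
        ∑ n ∈ Ioc u (u + H), ∑ D ∈ P.powerset, U D * ∏ q ∈ D,
        (if bad q n then (1 : ℝ) else 0) :=
      Finset.sum_le_sum (fun n _ => (hind1 n).2)
    have h3 := mul_le_mul_of_nonneg_left hdens2.1 hH
    have h4 := (abs_le.1 h1).2
    have h5 : (1 + ε) * (H * ∏ q ∈ P, (1 - g q)) = H * ((1 + ε) * ∏ q ∈ P, (1 - g q)) := by ring
    change _ ≤ (1 + ε) * (H * ∏ q ∈ P, (1 - g q)) + (z : ℝ) ^ (2 * s)
    rw [h5]
    linarith

end Pool.Agent.Lib.TwinAll.T49
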