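import Pool.Agent.Lib.TwinAll.Stmts
import Pool.Agent.Lib.MP_d5700b_nt.PNTAP

/-!
THEOREM A (MP_c6d112_nt), module W2: the prime number theorem in arithmetic progressions with a
slowly varying phase.
-/

set_option autoImplicit false

open Filter Topology

namespace Pool.Agent.Lib.TwinAll

open Finset

/-- the number of primes up to `x` congruent to `c` modulo `q` -/
noncomputable def w2f (q c x : ℕ) : ℕ :=
  ((Finset.Ioc 0 x).filter (fun p : ℕ => p.Prime ∧ p ≡ c [MOD q])).card

theorem w2f_eq (q c x : ℕ) : w2f q c x =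
    ((Finset.range (x + 1)).filter (fun p => p.Prime ∧ p ≡ c [MOD q])).card := by
  rw [w2f]
  congr 1
  ext p
  simp only [Finset.mem_filter, Finset.mem_Ioc, Finset.mem_range]
  constructor
  · rintro ⟨⟨-, h1⟩, h2⟩
    exact ⟨by omega, h2⟩
  · rintro ⟨h1, h2⟩
    exact ⟨⟨h2.1.pos, by omega⟩, h2⟩

theorem w2_tendsto (q c : ℕ) (hq : 0 < q) (hc : Nat.Coprime c q) (j K : ℕ) (hK : 0 < K) :
    Tendsto (fun y : ℕ => (Real.log y / y) * (w2f q c (j * y / K) : ℝ)) atTop
      (𝓝 ((j : ℝ) / K / q.totient)) := by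
  rcases Nat.eq_zero_or_pos j with rfl | hj
  · have h1 : ∀ y : ℕ, (Real.log y / y) * (w2f q c (0 * y / K) : ℝ) = 0 := by
      intro y
      rw [Nat.zero_mul, Nat.zero_div, w2f]
      simp
    simp only [h1, Nat.cast_zero, zero_div]
    exact tendsto_const_nhds
  have hKr : (0 : ℝ) < K := by exact_mod_cast hK
  have hjr : (0 : ℝ) < j := by exact_mod_cast hj
  -- `x = j y / K` tends to infinity
  have hx : Tendsto (fun y : ℕ => j * y / K) atTop atTop := by
    refine tendsto_atTop.2 fun b => ?_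
    filter_upwards [eventually_ge_atTop (b * K)] with y hy
    rw [Nat.le_div_iff_mul_le hK]
    nlinarith
  have h1 := (MP_d5700b_nt.PNTM.pnt_ap q hq c hc).comp hx
  -- `x / y → j / K`
  have h2 : Tendsto (fun y : ℕ => ((j * y / K : ℕ) : ℝ) / y) atTop (𝓝 ((j : ℝ) / K)) := by
    have h3 : Tendsto (fun y : ℕ => (j : ℝ) / K - 1 / (y : ℝ)) atTop (𝓝 ((j : ℝ) / K - 0)) :=
      tendsto_const_nhds.sub tendsto_one_div_atTop_nhds_zero_nat
    rw [sub_zero] at h3
    refine tendsto_of_tendsto_of_tendsto_of_le_of_le' h3 tendsto_const_nhds ?_ ?_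
    · filter_upwards [eventually_gt_atTop 0] with y hy
      have hyr : (0 : ℝ) < y := by exact_mod_cast hy
      rw [le_div_iff₀ hyr, sub_mul, div_mul_cancel₀ _ hyr.ne', sub_le_iff_le_add]
      have h4 : (j * y : ℕ) < (j * y / K + 1) * K := by
        have := Nat.div_add_mod (j * y) K
        have := Nat.mod_lt (j * y) hK
        nlinarith
      have h5 : ((j * y : ℕ) : ℝ) < ((j * y / K : ℕ) + 1) * K := by exact_mod_cast h4
      rw [div_mul_eq_mul_div, div_le_iff₀ hKr]
      push_cast at h5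
      exact h5.le
    · filter_upwards [eventually_gt_atTop 0] with y hy
      have hyr : (0 : ℝ) < y := by exact_mod_cast hy
      rw [div_le_iff₀ hyr, div_mul_eq_mul_div, le_div_iff₀ hKr]
      have h4 : (j * y / K) * K ≤ j * y := Nat.div_mul_le_self _ _
      exact_mod_cast h4
  -- `log y / log x → 1`
  have h3 : Tendsto (fun y : ℕ => Real.log y / Real.log ((j * y / K : ℕ) : ℝ)) atTop (𝓝 1) := by
    have hjK : (0 : ℝ) < (j : ℝ) / K := div_pos hjr hKr
    have h4 : Tendsto (fun y : ℕ => Real.log (((j * y / K : ℕ) : ℝ) / y)) atTop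
        (𝓝 (Real.log ((j : ℝ) / K))) := h2.log hjK.ne'
    have h5 : Tendsto (fun y : ℕ => Real.log ((j * y / K : ℕ) : ℝ)) atTop atTop :=
      Real.tendsto_log_atTop.comp (tendsto_natCast_atTop_atTop.comp hx)
    have h6 := (h4.div_atTop h5)
    have h7 : Tendsto (fun y : ℕ => 1 - Real.log (((j * y / K : ℕ) : ℝ) / y) /
        Real.log ((j * y / K : ℕ) : ℝ)) atTop (𝓝 (1 - 0)) := tendsto_const_nhds.sub h6
    rw [sub_zero] at h7
    refine h7.congr' ?_
    filter_upwards [eventually_gt_atTop 0, h5.eventually_gt_atTop 0,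
      hx.eventually_gt_atTop 0] with y hy hlog hx0
    have hyr : (y : ℝ) ≠ 0 := by exact_mod_cast hy.ne'
    have hxr : ((j * y / K : ℕ) : ℝ) ≠ 0 := by exact_mod_cast hx0.ne'
    rw [Real.log_div hxr hyr]
    field_simp
    ring
  have h4 := (h1.mul h2).mul h3
  have h5 : (1 / (q.totient : ℝ)) * ((j : ℝ) / K) * 1 = (j : ℝ) / K / q.totient := by ring
  rw [h5] at h4
  refine h4.congr' ?_
  filter_upwards [eventually_gt_atTop 0, hx.eventually_gt_atTop 1] with y hy hx0
  have hyr : (y : ℝ) ≠ 0 := by exact_mod_cast hy.ne'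
  have hx1 : (1 : ℝ) < ((j * y / K : ℕ) : ℝ) := by exact_mod_cast hx0
  have hlog : Real.log ((j * y / K : ℕ) : ℝ) ≠ 0 := (Real.log_pos hx1).ne'
  have hxr : ((j * y / K : ℕ) : ℝ) ≠ 0 := by positivity
  simp only [Function.comp]
  rw [w2f_eq]
  field_simp

theorem w2_ee_lip (x y : ℝ) : ‖ee x - ee y‖ ≤ 2 * Real.pi * |x - y| := by
  have h1 : ee x - ee y = ee y * (ee (x - y) - 1) := by
    simp only [ee]
    rw [mul_sub, ← Complex.exp_add, mul_one]
    congr 2
    push_cast
    ring
  have h2 : ‖ee y‖ = 1 := by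
    have : ee y = Complex.exp (((2 * Real.pi * y : ℝ) : ℂ) * Complex.I) := by
      rw [ee]
      push_cast
      rfl
    rw [this, Complex.norm_exp_ofReal_mul_I]
  rw [h1, norm_mul, h2, one_mul]
  have h3 : ee (x - y) = Complex.exp (Complex.I * ((2 * Real.pi * (x - y) : ℝ) : ℂ)) := by
    rw [ee]
    push_cast
    congr 1
    ring
  rw [h3]
  refine (Real.norm_exp_I_mul_ofReal_sub_one_le).trans ?_
  rw [Real.norm_eq_abs, abs_mul, abs_mul, abs_of_pos Real.pi_pos, abs_two]

theorem w2_sum_blocks (a : ℕ → ℕ) (ha : Monotone a) (ha0 : a 0 = 0) (F : ℕ → ℂ) (n : ℕ) :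
    ∑ p ∈ Finset.Ioc 0 (a n), F p = ∑ j ∈ Finset.range n, ∑ p ∈ Finset.Ioc (a j) (a (j + 1)), F p := by
  induction n with
  | zero => rw [ha0]; simp
  | succ n ih =>
    rw [Finset.sum_range_succ, ← ih]
    exact (Finset.sum_Ioc_consecutive F (Nat.zero_le _) (ha (Nat.le_succ n))).symm

theorem w2_card_blocks (q c : ℕ) {x y : ℕ} (hxy : x ≤ y) :
    ((((Finset.Ioc x y).filter (fun p : ℕ => p.Prime ∧ p ≡ c [MOD q])).card : ℕ) : ℝ) =
      (w2f q c y : ℝ) - w2f q c x := by
  have h1 : w2f q c y = w2f q c x +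
      ((Finset.Ioc x y).filter (fun p : ℕ => p.Prime ∧ p ≡ c [MOD q])).card := by
    rw [w2f, w2f, Finset.card_filter, Finset.card_filter, Finset.card_filter]
    exact (Finset.sum_Ioc_consecutive _ (Nat.zero_le _) hxy).symm
  rw [h1]
  push_cast
  ring

theorem w2_continuous (β : ℝ) : Continuous fun t : ℝ => ee (β * t) := by
  unfold ee
  fun_prop

/-- Module W2. -/
theorem W2 : W2Stmt := by
  intro q T ε hq hε
  obtain ⟨T', hT', hT'0⟩ : ∃ T' : ℝ, T ≤ T' ∧ 0 ≤ T' := ⟨|T|, le_abs_self T, abs_nonneg T⟩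
  obtain ⟨K, hK⟩ := exists_nat_gt (max 1 (6 * Real.pi * T' / (ε / 2)))
  have hK1 : (1 : ℝ) < K := lt_of_le_of_lt (le_max_left _ _) hK
  have hKr : (0 : ℝ) < K := by linarith
  have hK0 : 0 < K := by exact_mod_cast hKr
  have hKε : 6 * Real.pi * T' / K ≤ ε / 2 := by
    have h1 : 6 * Real.pi * T' / (ε / 2) < K := lt_of_le_of_lt (le_max_right _ _) hK
    rw [div_lt_iff₀ (by positivity)] at h1
    rw [div_le_iff₀ hKr]
    linarith
  set η : ℝ := min 1 (ε / (8 * K)) with hη
  have hη0 : 0 < η := lt_min one_pos (by positivity)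
  have hη1 : η ≤ 1 := min_le_left _ _
  have hηε : η ≤ ε / (8 * K) := min_le_right _ _
  have hev : ∀ᶠ y : ℕ in atTop, ∀ c ∈ Finset.range q, ∀ j ∈ Finset.range (K + 1),
      Nat.Coprime c q →
      |(Real.log y / y) * (w2f q c (j * y / K) : ℝ) - (j : ℝ) / K / q.totient| ≤ η := by
    rw [Filter.eventually_all_finset]
    intro c _
    rw [Filter.eventually_all_finset]
    intro j _
    by_cases hc : Nat.Coprime c q
    · have h1 := (w2_tendsto q c hq hc j K hK0).sub_const ((j : ℝ) / K / q.totient)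
      rw [sub_self] at h1
      have h2 := h1.abs
      rw [abs_zero] at h2
      filter_upwards [h2.eventually (gt_mem_nhds hη0)] with y hy _
      exact hy.le
    · exact Filter.Eventually.of_forall fun y h => absurd h hc
  obtain ⟨y0, hy0⟩ := Filter.eventually_atTop.1 (hev.and (eventually_gt_atTop 0))
  refine ⟨y0, fun y hy c hc β hβ => ?_⟩
  obtain ⟨h1, hypos⟩ := hy0 y hy
  have hβ' : |β| ≤ T' := hβ.trans hT'
  have hyr : (0 : ℝ) < y := by exact_mod_cast hypos
  have hlog0 : 0 ≤ Real.log y / y := div_nonneg (Real.log_natCast_nonneg y) hyr.le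
  -- the residue class
  have hcm : ∀ p : ℕ, p ≡ c [MOD q] ↔ p ≡ c % q [MOD q] := fun p =>
    ⟨fun h => h.trans (Nat.mod_modEq c q).symm, fun h => h.trans (Nat.mod_modEq c q)⟩
  have hfc : ∀ x, w2f q c x = w2f q (c % q) x := by
    intro x
    rw [w2f, w2f]
    simp only [hcm]
  have hφ : (1 : ℝ) ≤ q.totient := by exact_mod_cast Nat.totient_pos.2 hq
  have hδ : ∀ j, j ≤ K →
      |(Real.log y / y) * (w2f q c (j * y / K) : ℝ) - (j : ℝ) / K / q.totient| ≤ η := by
    intro j hj
    rw [hfc]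
    refine h1 (c % q) (Finset.mem_range.2 (Nat.mod_lt _ hq)) j
      (Finset.mem_range.2 (by omega)) ?_
    exact (Nat.ModEq.gcd_eq (Nat.mod_modEq c q)).trans hc
  set a : ℕ → ℕ := fun j => j * y / K with ha
  have ham : Monotone a := fun i j hij => Nat.div_le_div_right (Nat.mul_le_mul_right _ hij)
  have ha0 : a 0 = 0 := by simp [ha]
  have haK : a K = y := by
    rw [ha]
    exact Nat.mul_div_cancel_left y hK0
  set Bl : ℕ → Finset ℕ := fun j =>
    (Finset.Ioc (a j) (a (j + 1))).filter (fun p : ℕ => p.Prime ∧ p ≡ c [MOD q]) with hBl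
  set n : ℕ → ℝ := fun j => ((Bl j).card : ℝ) with hn
  have hnj : ∀ j, n j = (w2f q c (a (j + 1)) : ℝ) - w2f q c (a j) := fun j =>
    w2_card_blocks q c (ham (Nat.le_succ j))
  have hnn : ∀ j, 0 ≤ n j := fun j => Nat.cast_nonneg _
  -- the sum in blocks
  have hsum : ∑ p ∈ (Finset.Ioc 0 y).filter (fun p : ℕ => p.Prime ∧ p ≡ c [MOD q]),
      ee (β * p / y) = ∑ j ∈ Finset.range K, ∑ p ∈ Bl j, ee (β * p / y) := by
    rw [Finset.sum_filter]
    have h2 := w2_sum_blocks a ham ha0
      (fun p : ℕ => if p.Prime ∧ p ≡ c [MOD q] then ee (β * p / y) else 0) K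
    rw [haK] at h2
    rw [h2]
    refine Finset.sum_congr rfl fun j _ => ?_
    rw [hBl, Finset.sum_filter]
  have hint : ∫ t in (0 : ℝ)..1, ee (β * t) =
      ∑ j ∈ Finset.range K, ∫ t in ((j : ℝ) / K)..(((j + 1 : ℕ) : ℝ) / K), ee (β * t) := by
    have h2 := intervalIntegral.sum_integral_adjacent_intervals (μ := MeasureTheory.volume)
      (f := fun t : ℝ => ee (β * t)) (a := fun j : ℕ => (j : ℝ) / K) (n := K)
      (fun j _ => (w2_continuous β).intervalIntegrable _ _)
    rw [h2]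
    simp [hKr.ne']
  have hLip : ∀ (x z : ℝ), |x - z| ≤ 1 / K → ‖ee (β * x) - ee (β * z)‖ ≤ 2 * Real.pi * T' / K := by
    intro x z hxz
    refine (w2_ee_lip _ _).trans ?_
    rw [← mul_sub, abs_mul]
    calc 2 * Real.pi * (|β| * |x - z|) ≤ 2 * Real.pi * (T' * (1 / K)) := by gcongr
      _ = 2 * Real.pi * T' / K := by ring
  -- one block
  have hblock : ∀ j ∈ Finset.range K,
      ‖((Real.log y / y : ℝ) : ℂ) * ∑ p ∈ Bl j, ee (β * p / y) -
        (1 / (q.totient : ℂ)) * ∫ t in ((j : ℝ) / K)..(((j + 1 : ℕ) : ℝ) / K), ee (β * t)‖ ≤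
      (Real.log y / y) * n j * (2 * Real.pi * T' / K) +
        2 * η + (1 / K) * (2 * Real.pi * T' / K) := by
    intro j hj
    have hjK : j < K := Finset.mem_range.1 hj
    set e : ℂ := ee (β * (((j + 1 : ℕ) : ℝ) / K)) with he
    have hen : ‖e‖ = 1 := by
      have h3 : e = Complex.exp (((2 * Real.pi * (β * (((j + 1 : ℕ) : ℝ) / K)) : ℝ) : ℂ) *
          Complex.I) := by
        rw [he, ee]
        push_cast
        rfl
      rw [h3, Complex.norm_exp_ofReal_mul_I]
    -- first part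
    have e1 : ‖∑ p ∈ Bl j, ee (β * p / y) - (n j : ℂ) * e‖ ≤ n j * (2 * Real.pi * T' / K) := by
      have h3 : ∑ p ∈ Bl j, ee (β * p / y) - (n j : ℂ) * e =
          ∑ p ∈ Bl j, (ee (β * p / y) - e) := by
        rw [Finset.sum_sub_distrib, Finset.sum_const, nsmul_eq_mul]
        simp [hn]
      rw [h3]
      refine (norm_sum_le _ _).trans ?_
      rw [hn, ← nsmul_eq_mul]
      refine Finset.sum_le_card_nsmul _ _ _ fun p hp => ?_
      rw [mul_div_assoc]
      refine hLip _ _ ?_
      have hp1 := (Finset.mem_filter.1 hp).1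
      rw [Finset.mem_Ioc] at hp1
      have h4 : (j : ℝ) / K ≤ (p : ℝ) / y := by
        rw [div_le_div_iff₀ hKr hyr]
        have h5 : j * y < (a j + 1) * K := by
          have := Nat.div_add_mod (j * y) K
          have := Nat.mod_lt (j * y) hK0
          simp only [ha]
          nlinarith
        have h6 : j * y ≤ p * K := h5.le.trans (Nat.mul_le_mul_right _ hp1.1)
        exact_mod_cast h6
      have h5 : (p : ℝ) / y ≤ ((j + 1 : ℕ) : ℝ) / K := by
        rw [div_le_div_iff₀ hyr hKr]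
        have h6 : p * K ≤ (j + 1) * y :=
          (Nat.mul_le_mul_right K hp1.2).trans (Nat.div_mul_le_self _ _)
        exact_mod_cast h6
      have h6 : ((j + 1 : ℕ) : ℝ) / K = (j : ℝ) / K + 1 / K := by
        push_cast
        ring
      rw [abs_le]
      constructor <;> linarith
    -- the count
    have e2 : |(Real.log y / y) * n j - 1 / K / q.totient| ≤ 2 * η := by
      have h3 := hδ j hjK.le
      have h4 := hδ (j + 1) hjK
      rw [hnj]
      have h5 : (Real.log y / y) * ((w2f q c (a (j + 1)) : ℝ) - w2f q c (a j)) -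
          1 / K / q.totient =
          ((Real.log y / y) * (w2f q c ((j + 1) * y / K) : ℝ) -
            ((j + 1 : ℕ) : ℝ) / K / q.totient) -
          ((Real.log y / y) * (w2f q c (j * y / K) : ℝ) - (j : ℝ) / K / q.totient) := by
        simp only [ha]
        push_cast
        ring
      rw [h5]
      refine (abs_sub _ _).trans ?_
      linarith
    -- the integral
    have e3 : ‖(∫ t in ((j : ℝ) / K)..(((j + 1 : ℕ) : ℝ) / K), ee (β * t)) -
        ((1 / K : ℝ) : ℂ) * e‖ ≤ (2 * Real.pi * T' / K) * (1 / K) := by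
      have h6 : ((j + 1 : ℕ) : ℝ) / K = (j : ℝ) / K + 1 / K := by
        push_cast
        ring
      have h3 : ((1 / K : ℝ) : ℂ) * e = ∫ t in ((j : ℝ) / K)..(((j + 1 : ℕ) : ℝ) / K), e := by
        rw [intervalIntegral.integral_const, h6, Complex.real_smul]
        congr 2
        ring
      rw [h3, ← intervalIntegral.integral_sub ((w2_continuous β).intervalIntegrable _ _)
        intervalIntegrable_const]
      have h4 := intervalIntegral.norm_integral_le_of_norm_le_const
        (f := fun t : ℝ => ee (β * t) - e) (a := (j : ℝ) / K) (b := ((j + 1 : ℕ) : ℝ) / K)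
        (C := 2 * Real.pi * T' / K) (by
          intro t ht
          rw [h6, Set.uIoc_of_le (by linarith [one_div_pos.2 hKr])] at ht
          rw [he]
          refine hLip _ _ ?_
          rw [h6, abs_le]
          constructor <;> linarith [ht.1, ht.2])
      rw [h6] at h4 ⊢
      rw [add_sub_cancel_left, abs_of_pos (one_div_pos.2 hKr)] at h4
      exact h4
    -- together
    have hsplit : ((Real.log y / y : ℝ) : ℂ) * ∑ p ∈ Bl j, ee (β * p / y) -
        (1 / (q.totient : ℂ)) * ∫ t in ((j : ℝ) / K)..(((j + 1 : ℕ) : ℝ) / K), ee (β * t) =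
        ((Real.log y / y : ℝ) : ℂ) * (∑ p ∈ Bl j, ee (β * p / y) - (n j : ℂ) * e) +
        (((Real.log y / y) * n j - 1 / K / q.totient : ℝ) : ℂ) * e -
        ((1 / q.totient : ℝ) : ℂ) *
          ((∫ t in ((j : ℝ) / K)..(((j + 1 : ℕ) : ℝ) / K), ee (β * t)) -
            ((1 / K : ℝ) : ℂ) * e) := by
      push_cast
      ring
    rw [hsplit]
    refine (norm_sub_le _ _).trans ?_
    refine (add_le_add (norm_add_le _ _) le_rfl).trans ?_
    rw [norm_mul, norm_mul, norm_mul, Complex.norm_real, Complex.norm_real, Complex.norm_real,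
      hen, mul_one, Real.norm_eq_abs, Real.norm_eq_abs, Real.norm_eq_abs, abs_of_nonneg hlog0,
      abs_of_nonneg (by positivity : (0 : ℝ) ≤ 1 / q.totient)]
    have h7 : (1 : ℝ) / q.totient ≤ 1 := by
      rw [div_le_one (by linarith)]
      exact hφ
    have h8 : (0 : ℝ) ≤ 2 * Real.pi * T' / K * (1 / K) := by positivity
    refine add_le_add (add_le_add ?_ e2) ?_
    · rw [mul_assoc]
      exact mul_le_mul_of_nonneg_left e1 hlog0
    · calc 1 / (q.totient : ℝ) * _ ≤ 1 * (2 * Real.pi * T' / K * (1 / K)) :=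
          mul_le_mul h7 e3 (norm_nonneg _) zero_le_one
        _ = (1 / K) * (2 * Real.pi * T' / K) := by ring
  rw [hsum, hint, Finset.mul_sum, Finset.mul_sum, ← Finset.sum_sub_distrib]
  refine (norm_sum_le _ _).trans ?_
  refine (Finset.sum_le_sum hblock).trans ?_
  rw [Finset.sum_add_distrib, Finset.sum_add_distrib, Finset.sum_const, Finset.sum_const,
    Finset.card_range, nsmul_eq_mul, nsmul_eq_mul, ← Finset.sum_mul, ← Finset.mul_sum]
  have hnsum : (Real.log y / y) * ∑ j ∈ Finset.range K, n j ≤ 2 := by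
    have h3 : ∑ j ∈ Finset.range K, n j = w2f q c y := by
      have h4 : ∀ j ∈ Finset.range K, n j = (w2f q c (a (j + 1)) : ℝ) - w2f q c (a j) :=
        fun j _ => hnj j
      rw [Finset.sum_congr rfl h4, Finset.sum_range_sub (fun j => (w2f q c (a j) : ℝ)), haK, ha0]
      simp [w2f]
    have h4 := hδ K le_rfl
    rw [Nat.mul_div_cancel_left y hK0, div_self hKr.ne'] at h4
    rw [h3]
    have h5 := (abs_le.1 h4).2
    have h7 : (1 : ℝ) / q.totient ≤ 1 := by
      rw [div_le_one (by linarith)]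
      exact hφ
    linarith
  have hP : 0 ≤ 2 * Real.pi * T' / K := by positivity
  have h9 : K * (2 * η) ≤ ε / 4 := by
    have := mul_le_mul_of_nonneg_left hηε (by positivity : (0 : ℝ) ≤ K * 2)
    calc K * (2 * η) = K * 2 * η := by ring
      _ ≤ K * 2 * (ε / (8 * K)) := this
      _ = ε / 4 := by field_simp; norm_num
  have h10 : K * (1 / K * (2 * Real.pi * T' / K)) = 2 * Real.pi * T' / K := by
    field_simp
  rw [h10]
  have h11 : 3 * (2 * Real.pi * T' / K) ≤ ε / 2 := by
    calc 3 * (2 * Real.pi * T' / K) = 6 * Real.pi * T' / K := by ring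
      _ ≤ ε / 2 := hKε
  have h12 : (Real.log y / y) * (∑ j ∈ Finset.range K, n j) * (2 * Real.pi * T' / K) ≤
      2 * (2 * Real.pi * T' / K) := mul_le_mul_of_nonneg_right hnsum hP
  linarith

end Pool.Agent.Lib.TwinAll
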