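import Mathlib
import Pool.Agent.Lib.TwinAll.Defs

/-!
THEOREM A (MP_c6d112_nt), module L3 (minor arcs), part a: exponential sums, the structure of the
set of small multiples, the Mertens upper bound.
-/

set_option autoImplicit false

namespace Pool.Agent.Lib.TwinAll.M88

open Pool.Agent.Lib.TwinAll

open Finset

lemma ee_add (x y : ℝ) : ee (x + y) = ee x * ee y := by
  unfold ee
  rw [← Complex.exp_add]
  congr 1
  push_cast
  ring

lemma ee_neg (x : ℝ) : ee (-x) = (ee x)⁻¹ := by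
  unfold ee
  rw [← Complex.exp_neg]
  congr 1
  push_cast
  ring

lemma ee_zero : ee 0 = 1 := by
  unfold ee
  simp

lemma norm_ee (x : ℝ) : ‖ee x‖ = 1 := by
  unfold ee
  have h : (2 * Real.pi * x * Complex.I : ℂ) = ((2 * Real.pi * x : ℝ) : ℂ) * Complex.I := by
    push_cast; ring
  rw [h, Complex.norm_exp_ofReal_mul_I]

lemma ee_int (k : ℤ) : ee (k : ℝ) = 1 := by
  unfold ee
  have h : (2 * Real.pi * ((k : ℤ) : ℝ) * Complex.I : ℂ) = (k : ℂ) * (2 * Real.pi * Complex.I) := by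
    push_cast; ring
  rw [h, Complex.exp_int_mul_two_pi_mul_I]

lemma conj_ee (x : ℝ) : (starRingEnd ℂ) (ee x) = ee (-x) := by
  unfold ee
  rw [← Complex.exp_conj]
  congr 1
  simp only [map_mul, Complex.conj_I, Complex.conj_ofReal, map_ofNat]
  push_cast
  ring

lemma norm_ee_sub_one (x : ℝ) : ‖ee x - 1‖ = 2 * |Real.sin (Real.pi * x)| := by
  have h : ee x = Complex.exp (Complex.I * ((2 * Real.pi * x : ℝ) : ℂ)) := by
    unfold ee
    congr 1
    push_cast
    ring
  rw [h, Complex.norm_exp_I_mul_ofReal_sub_one]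
  rw [Real.norm_eq_abs, abs_mul, abs_of_pos (by norm_num : (0 : ℝ) < 2)]
  congr 2
  ring_nf

/-- if `x` is at distance more than `d` from all integers then `‖ee x - 1‖ ≥ 4 d` -/
lemma ee_sub_one_ge (x d : ℝ) (h : ∀ k : ℤ, d < |x - k|) : 4 * d ≤ ‖ee x - 1‖ := by
  have h1 := h (round x)
  have h2 : |x - round x| ≤ 1 / 2 := abs_sub_round x
  have h3 : ee x = ee (x - round x) := by
    have : x = (x - round x) + ((round x : ℤ) : ℝ) := by ring
    conv_lhs => rw [this]
    rw [ee_add, ee_int, mul_one]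
  rw [h3, norm_ee_sub_one]
  have h4 : |Real.pi * (x - round x)| ≤ Real.pi / 2 := by
    rw [abs_mul, abs_of_pos Real.pi_pos]
    nlinarith [Real.pi_pos]
  have h5 := Real.mul_abs_le_abs_sin h4
  rw [abs_mul, abs_of_pos Real.pi_pos] at h5
  have h6 : 2 / Real.pi * (Real.pi * |x - round x|) = 2 * |x - round x| := by
    field_simp
  rw [h6] at h5
  linarith

lemma geom_Icc (x : ℝ) (H : ℕ) :
    (∑ m ∈ Finset.Icc 1 H, ee (x * m)) * (ee x - 1) = ee (x * (H + 1)) - ee x := by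
  induction H with
  | zero => simp
  | succ n ih =>
    rw [Finset.sum_Icc_succ_top (by omega), add_mul, ih]
    push_cast
    have h1 : ee (x * (n + 1 + 1)) = ee (x * (n + 1)) * ee x := by
      rw [← ee_add]; congr 1; ring
    rw [h1]
    ring

/-- geometric sum bound -/
lemma geom_bound (x d : ℝ) (H : ℕ) (hd : 0 < d) (h : ∀ k : ℤ, d < |x - k|) :
    ‖∑ m ∈ Finset.Icc 1 H, ee (x * m)‖ ≤ 1 / (2 * d) := by
  have h1 := ee_sub_one_ge x d h
  have h2 := congrArg (fun w : ℂ => ‖w‖) (geom_Icc x H)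
  simp only [norm_mul] at h2
  have h3 : ‖ee (x * (H + 1)) - ee x‖ ≤ 2 := by
    refine (norm_sub_le _ _).trans ?_
    rw [norm_ee, norm_ee]
    norm_num
  rw [← h2] at h3
  have h4 : ‖∑ m ∈ Finset.Icc 1 H, ee (x * m)‖ * (4 * d) ≤ 2 :=
    le_trans (mul_le_mul_of_nonneg_left h1 (norm_nonneg _)) h3
  rw [le_div_iff₀ (by positivity)]
  nlinarith

/-- Many small multiples force a rational approximation. -/
lemma major_of_many (θ δ : ℝ) (y L : ℕ) (hδ : 0 ≤ δ) (hL : 1 ≤ L) (A : Finset ℕ)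
    (hA : ∀ h ∈ A, 1 ≤ h ∧ h ≤ y ∧ ∃ k : ℤ, |θ * h - k| ≤ δ)
    (hcard : y / L + 1 < A.card) (hsmall : (2 * (y : ℝ) + 1) * δ * L < 1) :
    ∃ q : ℕ, 1 ≤ q ∧ q ≤ L ∧ ∃ a : ℤ, |θ - (a : ℝ) / q| ≤ δ / A.card := by
  classical
  -- pigeonhole
  have hLr : (1 : ℝ) ≤ L := by exact_mod_cast hL
  obtain ⟨h1, hh1, h2, hh2, hne, heq⟩ := Finset.exists_ne_map_eq_of_card_lt_of_maps_to
    (s := A) (t := Finset.range (y / L + 1)) (by rw [Finset.card_range]; exact hcard)
    (f := fun h => h / L) (by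
      intro h hh
      have h3 := (hA h hh).2.1
      simp only [Finset.coe_range, Set.mem_Iio]
      exact Nat.lt_succ_of_le (Nat.div_le_div_right h3))
  wlog hlt : h2 < h1 generalizing h1 h2 with H
  · exact H h2 hh2 h1 hh1 hne.symm heq.symm (by omega)
  obtain ⟨k1, hk1⟩ := (hA h1 hh1).2.2
  obtain ⟨k2, hk2⟩ := (hA h2 hh2).2.2
  have hdiff : h1 - h2 < L := by
    have h3 := Nat.div_add_mod h1 L
    have h4 := Nat.div_add_mod h2 L
    have h5 := Nat.mod_lt h1 (by omega : 0 < L)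
    have h6 : L * (h1 / L) = L * (h2 / L) := by rw [show h1 / L = h2 / L from heq]
    have h7 := Nat.zero_le (h2 % L)
    omega
  obtain ⟨r, hr⟩ : ∃ r, r = h1 - h2 := ⟨_, rfl⟩
  have hr1 : 1 ≤ r := by omega
  have hrL : r < L := by omega
  have hθr : |θ * r - (k1 - k2 : ℤ)| ≤ 2 * δ := by
    have h3 : θ * r - ((k1 - k2 : ℤ) : ℝ) = (θ * h1 - k1) - (θ * h2 - k2) := by
      rw [hr, Nat.cast_sub hlt.le]
      push_cast
      ring
    rw [h3]
    have h4 := abs_sub (θ * h1 - k1) (θ * h2 - k2)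
    linarith [abs_sub (θ * h1 - k1) (θ * h2 - k2)]
  -- reduce the fraction
  obtain ⟨k0, hk0⟩ : ∃ k0, k0 = k1 - k2 := ⟨_, rfl⟩
  rw [← hk0] at hθr
  obtain ⟨g, hg⟩ : ∃ g, g = Int.gcd k0 r := ⟨_, rfl⟩
  have hgpos : 0 < g := by
    rw [hg]
    exact Int.gcd_pos_of_ne_zero_right _ (by exact_mod_cast (by omega : r ≠ 0))
  obtain ⟨a, ha⟩ : ((g : ℤ)) ∣ k0 := by rw [hg]; exact Int.gcd_dvd_left _ _
  obtain ⟨q, hq⟩ : g ∣ r := by
    have : ((g : ℤ)) ∣ (r : ℤ) := by rw [hg]; exact Int.gcd_dvd_right _ _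
    exact_mod_cast this
  have hq1 : 1 ≤ q := by
    rcases Nat.eq_zero_or_pos q with h | h
    · subst h; omega
    · exact h
  have hcop : IsCoprime a (q : ℤ) := by
    rw [Int.isCoprime_iff_gcd_eq_one]
    have h3 : Int.gcd k0 r = g * Int.gcd a q := by
      rw [ha, hq]
      push_cast
      rw [Int.gcd_mul_left]
      simp
    rw [← hg] at h3
    have h4 : g * 1 = g * Int.gcd a q := by omega
    exact (Nat.eq_of_mul_eq_mul_left hgpos h4).symm
  have hqr : q ≤ r := by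
    rw [hq]; exact Nat.le_mul_of_pos_left _ hgpos
  have hqR : (1 : ℝ) ≤ q := by exact_mod_cast hq1
  have hrR : (1 : ℝ) ≤ r := by exact_mod_cast hr1
  have hgR : (0 : ℝ) < g := by exact_mod_cast hgpos
  have hrq : (r : ℝ) = g * q := by rw [hq]; push_cast; ring
  have hkq : (k0 : ℝ) = g * a := by rw [ha]; push_cast; ring
  -- first approximation
  obtain ⟨β, hβ⟩ : ∃ β : ℝ, β = θ - a / q := ⟨_, rfl⟩
  have hβ1 : |β| ≤ 2 * δ := by
    have h3 : θ * r - k0 = β * r := by
      rw [hβ, hrq, hkq]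
      field_simp
    rw [h3, abs_mul, abs_of_pos (by linarith : (0 : ℝ) < r)] at hθr
    nlinarith [abs_nonneg β]
  -- every `h ∈ A` satisfies `|β| h ≤ δ`
  have hβh : ∀ h ∈ A, |β| * h ≤ δ := by
    intro h hh
    obtain ⟨hh1', hhy, k, hk⟩ := hA h hh
    have hhr : (h : ℝ) ≤ y := by exact_mod_cast hhy
    have hh0 : (0 : ℝ) ≤ h := by positivity
    have h3 : θ * h - k = β * h + ((a : ℝ) * h - k * q) / q := by
      rw [hβ]; field_simp; ring
    have h4 : |((a : ℝ) * h - k * q) / q| ≤ δ + |β| * h := by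
      have h5 : ((a : ℝ) * h - k * q) / q = (θ * h - k) - β * h := by rw [h3]; ring
      rw [h5]
      refine (abs_sub _ _).trans ?_
      rw [abs_mul, abs_of_nonneg hh0]
      linarith
    have h5 : |((a : ℝ) * h - k * q)| < 1 := by
      rw [abs_div, abs_of_pos (by linarith : (0 : ℝ) < q), div_le_iff₀ (by linarith)] at h4
      refine lt_of_le_of_lt h4 (lt_of_le_of_lt ?_ hsmall)
      have h6 : |β| * h ≤ 2 * δ * y := by
        apply mul_le_mul hβ1 hhr hh0 (by linarith)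
      have h7 : (q : ℝ) ≤ L := by exact_mod_cast (by omega : q ≤ L)
      calc (δ + |β| * h) * q ≤ (δ + 2 * δ * y) * q := by
            apply mul_le_mul_of_nonneg_right _ (by linarith); linarith
        _ ≤ (δ + 2 * δ * y) * L := by
            apply mul_le_mul_of_nonneg_left h7
            have : (0 : ℝ) ≤ y := by positivity
            positivity
        _ = (2 * (y : ℝ) + 1) * δ * L := by ring
    have h6 : a * h - k * q = 0 := by
      have h7 : |((a * h - k * q : ℤ) : ℝ)| < 1 := by push_cast; exact h5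
      have h8 : |(a * h - k * q : ℤ)| < 1 := by exact_mod_cast h7
      exact Int.abs_lt_one_iff.1 h8
    have h7 : ((a : ℝ) * h - k * q) = 0 := by exact_mod_cast h6
    rw [h7, zero_div, add_zero] at h3
    rw [h3, abs_mul, abs_of_nonneg hh0] at hk
    exact hk
  refine ⟨q, hq1, by omega, a, ?_⟩
  rw [← hβ]
  have hApos : 0 < A.card := lt_of_le_of_lt (Nat.zero_le _) hcard
  have hAne : A.Nonempty := Finset.card_pos.1 hApos
  have hmax : A.card ≤ A.max' hAne := by
    have h3 : A ⊆ Finset.Icc 1 (A.max' hAne) := by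
      intro h hh
      rw [Finset.mem_Icc]
      exact ⟨(hA h hh).1, Finset.le_max' _ _ hh⟩
    have h4 := Finset.card_le_card h3
    rw [Nat.card_Icc] at h4
    omega
  have h3 := hβh _ (Finset.max'_mem A hAne)
  rw [le_div_iff₀ (by exact_mod_cast hApos)]
  refine le_trans (mul_le_mul_of_nonneg_left ?_ (abs_nonneg β)) h3
  exact_mod_cast hmax

end Pool.Agent.Lib.TwinAll.M88
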