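import Mathlib
import Pool.Agent.Lib.TwinAll.L3a88

/-!
THEOREM A (MP_c6d112_nt), module L3 (minor arcs), part b: the one-form system, the block estimate.
-/

set_option autoImplicit false

namespace Pool.Agent.Lib.TwinAll.M88

open Pool.Agent.Lib.TwinAll

open Finset

/-- sieve density of one form -/
noncomputable def V1 (z0 z : ℕ) : ℝ := VV z0 z (![1] : Fin 1 → ℤ) ![0]

/-- normalised indicator function of the rough numbers -/
noncomputable def nu1 (z0 z : ℕ) (n : ℤ) : ℝ := nu z0 z (![1] : Fin 1 → ℤ) ![0] n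

lemma mem_PP {z0 z q : ℕ} : q ∈ PP z0 z ↔ (z0 < q ∧ q ≤ z) ∧ q.Prime := by
  unfold PP
  rw [Finset.mem_filter, Finset.mem_Ioc]

lemma om_one {q : ℕ} (hq : 0 < q) : om (![1] : Fin 1 → ℤ) ![0] q = 1 := by
  unfold om
  have h : (Finset.range q).filter (fun n : ℕ => ∃ j : Fin 1, (q : ℤ) ∣ (![1] : Fin 1 → ℤ) j * n +
      (![0] : Fin 1 → ℤ) j) = {0} := by
    ext n
    simp only [Finset.mem_filter, Finset.mem_range, Finset.mem_singleton]
    constructor
    · rintro ⟨h1, j, h2⟩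
      have hj : j = 0 := Subsingleton.elim _ _
      subst hj
      simp only [Matrix.cons_val_fin_one, one_mul, add_zero] at h2
      have h3 : q ∣ n := by exact_mod_cast h2
      exact Nat.eq_zero_of_dvd_of_lt h3 h1
    · rintro rfl
      exact ⟨hq, 0, by simp⟩
  rw [h, Finset.card_singleton]

lemma V1_eq (z0 z : ℕ) : V1 z0 z = ∏ q ∈ PP z0 z, (1 - 1 / (q : ℝ)) := by
  unfold V1 VV
  apply Finset.prod_congr rfl
  intro q hq
  rw [om_one (mem_PP.1 hq).2.pos]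
  norm_num

lemma one_sub_inv_pos {q : ℕ} (hq : q.Prime) : 0 < 1 - 1 / (q : ℝ) := by
  have h2 : (2 : ℝ) ≤ q := by exact_mod_cast hq.two_le
  have h3 : 1 / (q : ℝ) ≤ 1 / 2 := one_div_le_one_div_of_le (by norm_num) h2
  linarith

lemma V1_pos (z0 z : ℕ) : 0 < V1 z0 z := by
  rw [V1_eq]
  exact Finset.prod_pos (fun q hq => one_sub_inv_pos (mem_PP.1 hq).2)

lemma nu1_eq (z0 z : ℕ) (n : ℤ) [Decidable (Rough z0 z n)] :
    nu1 z0 z n = if Rough z0 z n then (V1 z0 z)⁻¹ else 0 := by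
  unfold nu1 nu V1
  by_cases h : Rough z0 z n
  · rw [if_pos h, if_pos]
    intro j
    have hj : j = 0 := Subsingleton.elim _ _
    subst hj
    simpa using h
  · rw [if_neg h, if_neg]
    intro h1
    apply h
    simpa using h1 0

lemma nu1_nonneg (z0 z : ℕ) (n : ℤ) : 0 ≤ nu1 z0 z n := by
  classical
  rw [nu1_eq]
  split_ifs
  · exact inv_nonneg.2 (V1_pos z0 z).le
  · exact le_rfl

lemma nu1_prime (z0 z p : ℕ) (hp : p.Prime) (hz : z < p) : V1 z0 z * nu1 z0 z p = 1 := by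
  classical
  rw [nu1_eq, if_pos, mul_inv_cancel₀ (V1_pos z0 z).ne']
  intro q hq h
  have h1 : q ∣ p := by exact_mod_cast h
  rw [mem_PP] at hq
  rcases (Nat.dvd_prime hp).1 h1 with h2 | h2
  · exact hq.2.one_lt.ne' h2
  · omega

/-- Mertens type upper bound -/
lemma V1_upper (z : ℕ) (hz : 2 ≤ z) : ∏ p ∈ PP 1 z, (1 - 1 / (p : ℝ)) ≤ 1 / Real.log z := by
  classical
  let f : ℕ →* ℝ :=
    { toFun := fun n => (n : ℝ)⁻¹
      map_one' := by simp
      map_mul' := by intro a b; push_cast; rw [mul_inv] }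
  have hfd : ∀ n : ℕ, f n = (n : ℝ)⁻¹ := fun n => rfl
  have hf : ∀ {p : ℕ}, p.Prime → ‖f p‖ < 1 := by
    intro p hp
    rw [hfd, norm_inv, Real.norm_natCast]
    apply inv_lt_one_of_one_lt₀
    exact_mod_cast hp.one_lt
  obtain ⟨_, hhas⟩ := EulerProduct.summable_and_hasSum_factoredNumbers_prod_filter_prime_geometric
    hf (Finset.Ioc 1 z)
  have h1 : ∑ n ∈ Finset.Icc 1 z, (n : ℝ)⁻¹ ≤ ∏ p ∈ PP 1 z, (1 - f p)⁻¹ := by
    have h2 := sum_le_hasSum ((Finset.Icc 1 z).subtype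
      (fun n => n ∈ Nat.factoredNumbers (Finset.Ioc 1 z)))
      (fun i _ => by rw [hfd]; positivity) hhas
    refine le_trans (le_of_eq ?_) h2
    have h3 := Finset.sum_subtype_eq_sum_filter (s := Finset.Icc 1 z) (fun n : ℕ => f n)
      (p := fun n => n ∈ Nat.factoredNumbers (Finset.Ioc 1 z))
    rw [h3, Finset.filter_true_of_mem]
    · apply Finset.sum_congr rfl
      intro n _
      rw [hfd]
    · intro n hn
      rw [Finset.mem_Icc] at hn
      rw [Nat.mem_factoredNumbers_iff_forall_le]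
      refine ⟨by omega, ?_⟩
      intro p hpn hp _
      rw [Finset.mem_Ioc]
      exact ⟨hp.one_lt, by omega⟩
  have h2 : Real.log z ≤ ∑ n ∈ Finset.Icc 1 z, (n : ℝ)⁻¹ := by
    have h3 := log_add_one_le_harmonic z
    rw [harmonic_eq_sum_Icc] at h3
    push_cast at h3
    refine le_trans ?_ h3
    apply Real.log_le_log
    · have : 0 < z := by omega
      exact_mod_cast this
    · linarith
  have h3 : ∏ p ∈ PP 1 z, (1 - f p)⁻¹ = (∏ p ∈ PP 1 z, (1 - 1 / (p : ℝ)))⁻¹ := by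
    rw [← Finset.prod_inv_distrib]
    apply Finset.prod_congr rfl
    intro p _
    rw [hfd, one_div]
  rw [h3] at h1
  have hlog : 0 < Real.log z := Real.log_pos (by exact_mod_cast hz)
  have h4 := h2.trans h1
  rw [one_div]
  rw [← inv_inv (∏ p ∈ PP 1 z, (1 - 1 / (p : ℝ)))]
  exact inv_anti₀ hlog h4

lemma V1_log (z0 : ℕ) : ∃ C : ℝ, 0 < C ∧ ∀ z : ℕ, 2 ≤ z → z0 ≤ z →
    V1 z0 z * Real.log z ≤ C := by
  refine ⟨(∏ p ∈ PP 1 z0, (1 - 1 / (p : ℝ)))⁻¹, ?_, ?_⟩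
  · exact inv_pos.2 (Finset.prod_pos (fun q hq => one_sub_inv_pos (mem_PP.1 hq).2))
  intro z hz hz0
  have hpos : 0 < ∏ p ∈ PP 1 z0, (1 - 1 / (p : ℝ)) :=
    Finset.prod_pos (fun q hq => one_sub_inv_pos (mem_PP.1 hq).2)
  have h1 := V1_upper z hz
  have hlog : 0 < Real.log z := Real.log_pos (by exact_mod_cast hz)
  have h2 : ∏ p ∈ PP 1 z, (1 - 1 / (p : ℝ)) = (∏ p ∈ PP 1 z0, (1 - 1 / (p : ℝ))) * V1 z0 z := by
    classical
    rw [V1_eq, ← Finset.prod_union]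
    · apply Finset.prod_congr _ (fun _ _ => rfl)
      ext q
      rw [Finset.mem_union, mem_PP, mem_PP, mem_PP]
      constructor
      · rintro ⟨⟨h1, h2⟩, h3⟩
        by_cases h4 : q ≤ z0
        · exact Or.inl ⟨⟨h1, h4⟩, h3⟩
        · exact Or.inr ⟨⟨by omega, h2⟩, h3⟩
      · rintro (⟨⟨h1, h2⟩, h3⟩ | ⟨⟨h1, h2⟩, h3⟩)
        · exact ⟨⟨h1, by omega⟩, h3⟩
        · exact ⟨⟨h3.one_lt, h2⟩, h3⟩
    · rw [Finset.disjoint_left]
      intro q h3 h4
      rw [mem_PP] at h3 h4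
      omega
  rw [h2, le_div_iff₀ hlog, mul_assoc] at h1
  rw [← one_div, le_div_iff₀' hpos]
  exact h1

/-- Cauchy-Schwarz for a block of primes -/
lemma block_cs (P : Finset ℕ) (y N : ℕ) (θ : ℝ) (w : ℕ → ℝ) (g : ℕ → ℂ) (hy : 0 < y)
    (hP : ∀ p ∈ P, y < p) (hw : ∀ m, 0 ≤ w m) (hg : ∀ m, ‖g m‖ ≤ 1) :
    ‖∑ p ∈ P, ∑ m ∈ Finset.Icc 1 (N / p), (w m : ℂ) * g m * ee (θ * ((p : ℝ) * m))‖ ^ 2 ≤
      (∑ m ∈ Finset.Icc 1 (N / y), w m) * ∑ p ∈ P, ∑ p' ∈ P,
        ‖∑ m ∈ Finset.Icc 1 (min (N / p) (N / p')), (w m : ℂ) * ee (θ * ((p : ℝ) - p') * m)‖ := by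
  classical
  obtain ⟨A, hA⟩ : ∃ A : ℕ → ℂ, ∀ m, A m = ∑ p ∈ P, if m ≤ N / p then ee (θ * ((p : ℝ) * m)) else 0 :=
    ⟨_, fun m => rfl⟩
  have hsub : ∀ p ∈ P, N / p ≤ N / y := fun p hp => Nat.div_le_div_left (hP p hp).le hy
  have h1 : ∑ p ∈ P, ∑ m ∈ Finset.Icc 1 (N / p), (w m : ℂ) * g m * ee (θ * ((p : ℝ) * m)) =
      ∑ m ∈ Finset.Icc 1 (N / y), (w m : ℂ) * g m * A m := by
    have h2 : ∀ p ∈ P, ∑ m ∈ Finset.Icc 1 (N / p), (w m : ℂ) * g m * ee (θ * ((p : ℝ) * m)) =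
        ∑ m ∈ Finset.Icc 1 (N / y), if m ≤ N / p then
          (w m : ℂ) * g m * ee (θ * ((p : ℝ) * m)) else 0 := by
      intro p hp
      rw [← Finset.sum_filter]
      apply Finset.sum_congr _ (fun _ _ => rfl)
      ext m
      have := hsub p hp
      simp only [Finset.mem_Icc, Finset.mem_filter]
      omega
    rw [Finset.sum_congr rfl h2, Finset.sum_comm]
    apply Finset.sum_congr rfl
    intro m _
    rw [hA, Finset.mul_sum]
    apply Finset.sum_congr rfl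
    intro p _
    split_ifs <;> simp
  rw [h1]
  have h2 : ‖∑ m ∈ Finset.Icc 1 (N / y), (w m : ℂ) * g m * A m‖ ≤
      ∑ m ∈ Finset.Icc 1 (N / y), w m * ‖A m‖ := by
    refine (norm_sum_le _ _).trans (Finset.sum_le_sum ?_)
    intro m _
    rw [norm_mul, norm_mul, Complex.norm_real, Real.norm_eq_abs, abs_of_nonneg (hw m)]
    apply mul_le_mul_of_nonneg_right _ (norm_nonneg _)
    exact mul_le_of_le_one_right (hw m) (hg m)
  have h3 : (∑ m ∈ Finset.Icc 1 (N / y), w m * ‖A m‖) ^ 2 ≤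
      (∑ m ∈ Finset.Icc 1 (N / y), w m) * ∑ m ∈ Finset.Icc 1 (N / y), w m * ‖A m‖ ^ 2 := by
    have h4 := Finset.sum_mul_sq_le_sq_mul_sq (Finset.Icc 1 (N / y)) (fun m => Real.sqrt (w m))
      (fun m => Real.sqrt (w m) * ‖A m‖)
    have h5 : ∀ m, Real.sqrt (w m) * (Real.sqrt (w m) * ‖A m‖) = w m * ‖A m‖ := by
      intro m
      rw [← mul_assoc, Real.mul_self_sqrt (hw m)]
    have h6 : ∀ m, Real.sqrt (w m) ^ 2 = w m := fun m => Real.sq_sqrt (hw m)
    have h7 : ∀ m, (Real.sqrt (w m) * ‖A m‖) ^ 2 = w m * ‖A m‖ ^ 2 := by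
      intro m
      rw [mul_pow, h6]
    simp only [h5, h6, h7] at h4
    exact h4
  have h4 : ∑ m ∈ Finset.Icc 1 (N / y), w m * ‖A m‖ ^ 2 ≤ ∑ p ∈ P, ∑ p' ∈ P,
        ‖∑ m ∈ Finset.Icc 1 (min (N / p) (N / p')), (w m : ℂ) * ee (θ * ((p : ℝ) - p') * m)‖ := by
    have h5 : ((∑ m ∈ Finset.Icc 1 (N / y), w m * ‖A m‖ ^ 2 : ℝ) : ℂ) = ∑ p ∈ P, ∑ p' ∈ P,
        ∑ m ∈ Finset.Icc 1 (min (N / p) (N / p')), (w m : ℂ) * ee (θ * ((p : ℝ) - p') * m) := by
      have h6 : ∀ p ∈ P, ∀ p' ∈ P, ∑ m ∈ Finset.Icc 1 (min (N / p) (N / p')),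
          (w m : ℂ) * ee (θ * ((p : ℝ) - p') * m) =
          ∑ m ∈ Finset.Icc 1 (N / y), if m ≤ min (N / p) (N / p') then
            (w m : ℂ) * ee (θ * ((p : ℝ) - p') * m) else 0 := by
        intro p hp p' hp'
        rw [← Finset.sum_filter]
        apply Finset.sum_congr _ (fun _ _ => rfl)
        ext m
        have := hsub p hp
        have := hsub p' hp'
        simp only [Finset.mem_Icc, Finset.mem_filter, le_min_iff]
        constructor
        · rintro ⟨a, b, c⟩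
          exact ⟨⟨a, by omega⟩, b, c⟩
        · rintro ⟨⟨a, b⟩, c, d⟩
          exact ⟨a, c, d⟩
      rw [Finset.sum_congr rfl (fun p hp => Finset.sum_congr rfl (fun p' hp' => h6 p hp p' hp'))]
      rw [Complex.ofReal_sum]
      have h7 : ∀ m ∈ Finset.Icc 1 (N / y), ((w m * ‖A m‖ ^ 2 : ℝ) : ℂ) =
          ∑ p ∈ P, ∑ p' ∈ P, if m ≤ min (N / p) (N / p') then
            (w m : ℂ) * ee (θ * ((p : ℝ) - p') * m) else 0 := by
        intro m _
        have h8 : ((w m * ‖A m‖ ^ 2 : ℝ) : ℂ) = (w m : ℂ) * (A m * (starRingEnd ℂ) (A m)) := by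
          rw [Complex.mul_conj, Complex.normSq_eq_norm_sq]
          push_cast
          ring
        rw [h8, hA, map_sum, Finset.sum_mul_sum, Finset.mul_sum]
        apply Finset.sum_congr rfl
        intro p _
        rw [Finset.mul_sum]
        apply Finset.sum_congr rfl
        intro p' _
        by_cases ha : m ≤ N / p
        · by_cases hb : m ≤ N / p'
          · rw [if_pos ha, if_pos hb, if_pos (le_min ha hb), conj_ee, ← ee_add]
            congr 2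
            ring
          · have hc : ¬ (m ≤ min (N / p) (N / p')) := fun h => hb (h.trans (min_le_right _ _))
            rw [if_neg hb, if_neg hc]
            simp
        · have hc : ¬ (m ≤ min (N / p) (N / p')) := fun h => ha (h.trans (min_le_left _ _))
          rw [if_neg ha, if_neg hc]
          simp
      rw [Finset.sum_congr rfl h7, Finset.sum_comm]
      apply Finset.sum_congr rfl
      intro p _
      rw [Finset.sum_comm]
    have h6 : 0 ≤ ∑ m ∈ Finset.Icc 1 (N / y), w m * ‖A m‖ ^ 2 :=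
      Finset.sum_nonneg (fun m _ => mul_nonneg (hw m) (by positivity))
    calc ∑ m ∈ Finset.Icc 1 (N / y), w m * ‖A m‖ ^ 2
        = ‖((∑ m ∈ Finset.Icc 1 (N / y), w m * ‖A m‖ ^ 2 : ℝ) : ℂ)‖ := by
          rw [Complex.norm_real, Real.norm_eq_abs, abs_of_nonneg h6]
      _ ≤ _ := by
          rw [h5]
          refine (norm_sum_le _ _).trans (Finset.sum_le_sum fun p _ => ?_)
          exact norm_sum_le _ _
  have h0 : 0 ≤ ∑ m ∈ Finset.Icc 1 (N / y), w m := Finset.sum_nonneg (fun m _ => hw m)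
  calc ‖∑ m ∈ Finset.Icc 1 (N / y), (w m : ℂ) * g m * A m‖ ^ 2
      ≤ (∑ m ∈ Finset.Icc 1 (N / y), w m * ‖A m‖) ^ 2 := by
        gcongr
    _ ≤ _ := h3
    _ ≤ _ := mul_le_mul_of_nonneg_left h4 h0

/-- Number of pairs of elements of `P` whose difference lies in `Hs`. -/
lemma pair_count (P : Finset ℕ) (y : ℕ) (V K : ℝ) (f : ℤ → ℝ) (Hs : Finset ℤ)
    (hV : 0 < V) (hK : 0 < K) (hf : ∀ n, 0 ≤ f n)
    (hP : ∀ p ∈ P, y < p ∧ p ≤ 2 * y ∧ V * f p = 1)
    (hHs : Hs ⊆ Finset.Ioo (-(y : ℤ)) y)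
    (h4 : ∑ t ∈ Finset.Ioo (-(y : ℤ)) y,
        (∑ n ∈ (Finset.Ioc (y : ℤ) (y + y)).filter (fun n => n + t ∈ Finset.Ioc (y : ℤ) (y + y)),
          f n * f (n + t)) ^ 4 ≤ 4 * (y : ℝ) ^ 5) :
    (((P ×ˢ P).filter (fun x => ((x.1 : ℤ) - x.2) ∈ Hs)).card : ℝ) ≤
      V ^ 2 * (Hs.card * K + 4 * (y : ℝ) ^ 5 / K ^ 3) := by
  classical
  obtain ⟨c, hc⟩ : ∃ c : ℤ → ℝ, ∀ t, c t = ∑ n ∈ (Finset.Ioc (y : ℤ) (y + y)).filter
    (fun n => n + t ∈ Finset.Ioc (y : ℤ) (y + y)), f n * f (n + t) := ⟨_, fun t => rfl⟩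
  have hc0 : ∀ t, 0 ≤ c t := by
    intro t
    rw [hc]
    exact Finset.sum_nonneg (fun n _ => mul_nonneg (hf _) (hf _))
  have h5 : (((P ×ˢ P).filter (fun x => ((x.1 : ℤ) - x.2) ∈ Hs)).card : ℝ) =
      ∑ h ∈ Hs, (((P ×ˢ P).filter (fun x => ((x.1 : ℤ) - x.2) = h)).card : ℝ) := by
    have h6 := Finset.card_eq_sum_card_fiberwise
      (s := (P ×ˢ P).filter (fun x => ((x.1 : ℤ) - x.2) ∈ Hs)) (t := Hs)
      (f := fun x => ((x.1 : ℤ) - x.2)) (by
        intro x hx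
        simp only [Finset.coe_filter, Set.mem_ofPred_eq] at hx
        exact hx.2)
    rw [h6]
    push_cast
    apply Finset.sum_congr rfl
    intro h hh
    congr 2
    ext x
    simp only [Finset.mem_filter]
    constructor
    · rintro ⟨⟨h1, _⟩, h2⟩
      exact ⟨h1, h2⟩
    · rintro ⟨h1, h2⟩
      exact ⟨⟨h1, by rw [h2]; exact hh⟩, h2⟩
  have h6 : ∀ h ∈ Hs, (((P ×ˢ P).filter (fun x => ((x.1 : ℤ) - x.2) = h)).card : ℝ) ≤
      V ^ 2 * c h := by
    intro h _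
    rw [hc, Finset.mul_sum]
    have h7 : ∑ x ∈ (P ×ˢ P).filter (fun x => ((x.1 : ℤ) - x.2) = h),
        V ^ 2 * (f (x.2 : ℤ) * f ((x.2 : ℤ) + h)) =
        (((P ×ˢ P).filter (fun x => ((x.1 : ℤ) - x.2) = h)).card : ℝ) := by
      rw [Finset.card_eq_sum_ones]
      push_cast
      apply Finset.sum_congr rfl
      intro x hx
      rw [Finset.mem_filter, Finset.mem_product] at hx
      have h8 : (x.2 : ℤ) + h = x.1 := by rw [← hx.2]; ring
      rw [h8]
      have h9 := (hP _ hx.1.1).2.2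
      have h10 := (hP _ hx.1.2).2.2
      calc V ^ 2 * (f (x.2 : ℤ) * f (x.1 : ℤ)) = (V * f x.1) * (V * f x.2) := by ring
        _ = 1 := by rw [h9, h10, one_mul]
    rw [← h7]
    rw [← Finset.sum_image (f := fun n : ℤ => V ^ 2 * (f n * f (n + h)))
      (g := fun x : ℕ × ℕ => (x.2 : ℤ))]
    · apply Finset.sum_le_sum_of_subset_of_nonneg
      · intro n hn
        rw [Finset.mem_image] at hn
        obtain ⟨x, hx, rfl⟩ := hn
        rw [Finset.mem_filter, Finset.mem_product] at hx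
        have h8 : (x.2 : ℤ) + h = x.1 := by rw [← hx.2]; ring
        have h9 := hP _ hx.1.1
        have h10 := hP _ hx.1.2
        rw [Finset.mem_filter, h8, Finset.mem_Ioc, Finset.mem_Ioc]
        omega
      · intro n _ _
        have := hf n
        have := hf (n + h)
        positivity
    · intro x hx x' hx' hxx
      simp only [Finset.coe_filter, Set.mem_ofPred_eq] at hx hx'
      have h8 := hx.2
      have h9 := hx'.2
      simp only at hxx
      have h10 : x.2 = x'.2 := by exact_mod_cast hxx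
      have h11 : x.1 = x'.1 := by omega
      exact Prod.ext h11 h10
  have h7 : ∑ h ∈ Hs, c h ≤ Hs.card * K + 4 * (y : ℝ) ^ 5 / K ^ 3 := by
    have h8 : ∀ h, c h ≤ K + c h ^ 4 / K ^ 3 := by
      intro h
      by_cases h9 : c h ≤ K
      · have : 0 ≤ c h ^ 4 / K ^ 3 := by have := hc0 h; positivity
        linarith
      · push Not at h9
        have h10 : c h ≤ c h ^ 4 / K ^ 3 := by
          rw [le_div_iff₀ (by positivity)]
          have h11 : K ^ 3 ≤ c h ^ 3 := pow_le_pow_left₀ hK.le h9.le 3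
          calc c h * K ^ 3 ≤ c h * c h ^ 3 := mul_le_mul_of_nonneg_left h11 (hc0 h)
            _ = c h ^ 4 := by ring
        linarith
    calc ∑ h ∈ Hs, c h ≤ ∑ h ∈ Hs, (K + c h ^ 4 / K ^ 3) := Finset.sum_le_sum (fun h _ => h8 h)
      _ = Hs.card * K + (∑ h ∈ Hs, c h ^ 4) / K ^ 3 := by
          rw [Finset.sum_add_distrib, Finset.sum_const, nsmul_eq_mul, Finset.sum_div]
      _ ≤ Hs.card * K + 4 * (y : ℝ) ^ 5 / K ^ 3 := by
          have h9 : ∑ h ∈ Hs, c h ^ 4 ≤ 4 * (y : ℝ) ^ 5 := by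
            refine le_trans ?_ h4
            refine le_trans (Finset.sum_le_sum_of_subset_of_nonneg hHs
              (fun t _ _ => by have := hc0 t; positivity)) (le_of_eq ?_)
            apply Finset.sum_congr rfl
            intro t _
            rw [hc]
          have h10 := div_le_div_of_nonneg_right h9 (by positivity : (0 : ℝ) ≤ K ^ 3)
          linarith
  rw [h5]
  calc ∑ h ∈ Hs, (((P ×ˢ P).filter (fun x => ((x.1 : ℤ) - x.2) = h)).card : ℝ)
      ≤ ∑ h ∈ Hs, V ^ 2 * c h := Finset.sum_le_sum h6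
    _ = V ^ 2 * ∑ h ∈ Hs, c h := by rw [Finset.mul_sum]
    _ ≤ _ := mul_le_mul_of_nonneg_left h7 (by positivity)

end Pool.Agent.Lib.TwinAll.M88
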