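import Mathlib
import Pool.Agent.Lib.TwinAll.Defs

/-!
THEOREM A (MP_c6d112_nt): elementary facts on `PP`, `Rough`, `om`, `VV`, `nu`; behaviour under
the substitution `n = d * t + c` with `d` prime to the sieving primes.
-/

set_option autoImplicit false

namespace Pool.Agent.Lib.TwinAll.A81

open Finset

theorem mem_PP {z0 z q : ℕ} : q ∈ PP z0 z ↔ z0 < q ∧ q ≤ z ∧ q.Prime := by
  simp [PP, and_assoc]

theorem rough_iff {z0 z : ℕ} {n : ℤ} : Rough z0 z n ↔ ∀ q ∈ PP z0 z, ¬ ((q : ℤ) ∣ n) := Iff.rfl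

theorem rough_mul_iff {z0 z : ℕ} {m n : ℤ} :
    Rough z0 z (m * n) ↔ Rough z0 z m ∧ Rough z0 z n := by
  constructor
  · intro h
    exact ⟨fun q hq hd => h q hq (hd.mul_right n), fun q hq hd => h q hq (hd.mul_left m)⟩
  · rintro ⟨h1, h2⟩ q hq hd
    have hp : Prime (q : ℤ) := Nat.prime_iff_prime_int.1 (mem_PP.1 hq).2.2
    rcases hp.dvd_or_dvd hd with h | h
    · exact h1 q hq h
    · exact h2 q hq h

section om

variable {k k' : ℕ}

/-- `om` depends only on the set of roots -/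
theorem om_congr {a b : Fin k → ℤ} {a' b' : Fin k' → ℤ} {q : ℕ}
    (h : ∀ n : ℤ, (∃ j, (q : ℤ) ∣ a j * n + b j) ↔ (∃ j, (q : ℤ) ∣ a' j * n + b' j)) :
    om a b q = om a' b' q := by
  unfold om
  congr 1
  apply Finset.filter_congr
  intro n _
  exact h n

theorem om_eq_zmod (a b : Fin k → ℤ) (q : ℕ) [NeZero q] :
    om a b q = (univ.filter (fun x : ZMod q =>
      ∃ j, ((a j : ℤ) : ZMod q) * x + ((b j : ℤ) : ZMod q) = 0)).card := by
  unfold om
  have key : ∀ n : ℕ, (∃ j, (q : ℤ) ∣ a j * (n : ℤ) + b j) ↔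
      ∃ j, ((a j : ℤ) : ZMod q) * ((n : ℕ) : ZMod q) + ((b j : ℤ) : ZMod q) = 0 := by
    intro n
    apply exists_congr
    intro j
    rw [← ZMod.intCast_zmod_eq_zero_iff_dvd]
    push_cast
    rfl
  refine Finset.card_bij (fun n _ => ((n : ℕ) : ZMod q)) ?_ ?_ ?_
  · intro n hn
    rw [mem_filter] at hn
    rw [mem_filter]
    exact ⟨mem_univ _, (key n).1 hn.2⟩
  · intro n hn m hm hnm
    rw [mem_filter, mem_range] at hn hm
    have h1 := (ZMod.natCast_eq_natCast_iff' n m q).1 hnm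
    rwa [Nat.mod_eq_of_lt hn.1, Nat.mod_eq_of_lt hm.1] at h1
  · intro x hx
    rw [mem_filter] at hx
    refine ⟨x.val, ?_, ?_⟩
    · rw [mem_filter, mem_range]
      refine ⟨ZMod.val_lt x, (key _).2 ?_⟩
      rw [ZMod.natCast_zmod_val]
      exact hx.2
    · exact ZMod.natCast_zmod_val x

theorem om_le_self (a b : Fin k → ℤ) (q : ℕ) : om a b q ≤ q := by
  unfold om
  exact (Finset.card_filter_le _ _).trans (Finset.card_range q).le

/-- each form with leading coefficient prime to `q` has at most one root -/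
theorem om_le {a b : Fin k → ℤ} {q : ℕ} (hq : q.Prime) (h : ∀ j, ¬ ((q : ℤ) ∣ a j)) :
    om a b q ≤ k := by
  have := Fact.mk hq
  rw [om_eq_zmod]
  have h1 : (univ.filter (fun x : ZMod q =>
      ∃ j, ((a j : ℤ) : ZMod q) * x + ((b j : ℤ) : ZMod q) = 0)) ⊆
      (univ : Finset (Fin k)).image
        (fun j => - ((b j : ℤ) : ZMod q) * (((a j : ℤ) : ZMod q))⁻¹) := by
    intro x hx
    rw [mem_filter] at hx
    obtain ⟨j, hj⟩ := hx.2
    rw [mem_image]
    refine ⟨j, mem_univ _, ?_⟩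
    have ha : ((a j : ℤ) : ZMod q) ≠ 0 := by
      intro h0
      exact h j ((ZMod.intCast_zmod_eq_zero_iff_dvd _ _).1 h0)
    field_simp
    linear_combination -hj
  calc _ ≤ _ := Finset.card_le_card h1
    _ ≤ _ := Finset.card_image_le
    _ = k := by simp

/-- a form with leading coefficient prime to `q` has a root -/
theorem one_le_om {a b : Fin k → ℤ} {q : ℕ} (hq : q.Prime) (j : Fin k)
    (h : ¬ ((q : ℤ) ∣ a j)) : 1 ≤ om a b q := by
  have := Fact.mk hq
  rw [om_eq_zmod, Nat.one_le_iff_ne_zero, Finset.card_ne_zero]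
  have ha : ((a j : ℤ) : ZMod q) ≠ 0 := by
    intro h0
    exact h ((ZMod.intCast_zmod_eq_zero_iff_dvd _ _).1 h0)
  refine ⟨- ((b j : ℤ) : ZMod q) * (((a j : ℤ) : ZMod q))⁻¹, ?_⟩
  rw [mem_filter]
  refine ⟨mem_univ _, j, ?_⟩
  field_simp
  ring

/-- for one form there is exactly one root -/
theorem om_one {a b : Fin 1 → ℤ} {q : ℕ} (hq : q.Prime) (h : ¬ ((q : ℤ) ∣ a 0)) :
    om a b q = 1 :=
  le_antisymm (om_le hq (fun j => by rw [Subsingleton.elim j 0]; exact h)) (one_le_om hq 0 h)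

/-- affine substitution `n = d * t + c` -/
theorem om_affine (a b : Fin k → ℤ) {q : ℕ} (hq : q.Prime) {d : ℤ} (hd : ¬ ((q : ℤ) ∣ d))
    (c : ℤ) : om (fun j => a j * d) (fun j => a j * c + b j) q = om a b q := by
  have := Fact.mk hq
  rw [om_eq_zmod, om_eq_zmod]
  have hd' : ((d : ℤ) : ZMod q) ≠ 0 := by
    intro h0
    exact hd ((ZMod.intCast_zmod_eq_zero_iff_dvd _ _).1 h0)
  refine Finset.card_bij (fun x _ => ((d : ℤ) : ZMod q) * x + ((c : ℤ) : ZMod q)) ?_ ?_ ?_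
  · intro x hx
    rw [mem_filter] at hx ⊢
    obtain ⟨j, hj⟩ := hx.2
    refine ⟨mem_univ _, j, ?_⟩
    push_cast at hj
    rw [← hj]
    ring
  · intro x _ y _ hxy
    have h1 : ((d : ℤ) : ZMod q) * x = ((d : ℤ) : ZMod q) * y := by
      simpa using hxy
    exact mul_left_cancel₀ hd' h1
  · intro y hy
    rw [mem_filter] at hy
    obtain ⟨j, hj⟩ := hy.2
    have e : ((d : ℤ) : ZMod q) * ((y - ((c : ℤ) : ZMod q)) * (((d : ℤ) : ZMod q))⁻¹) +
        ((c : ℤ) : ZMod q) = y := by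
      field_simp
      ring
    refine ⟨(y - ((c : ℤ) : ZMod q)) * (((d : ℤ) : ZMod q))⁻¹, ?_, e⟩
    rw [mem_filter]
    refine ⟨mem_univ _, j, ?_⟩
    push_cast
    calc _ = ((a j : ℤ) : ZMod q) * (((d : ℤ) : ZMod q) *
          ((y - ((c : ℤ) : ZMod q)) * (((d : ℤ) : ZMod q))⁻¹) + ((c : ℤ) : ZMod q)) +
          ((b j : ℤ) : ZMod q) := by ring
      _ = 0 := by rw [e, hj]

end om

section VV

variable {k k' : ℕ}

theorem VV_congr {z0 z : ℕ} {a b : Fin k → ℤ} {a' b' : Fin k' → ℤ}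
    (h : ∀ q ∈ PP z0 z, om a b q = om a' b' q) : VV z0 z a b = VV z0 z a' b' := by
  unfold VV
  apply Finset.prod_congr rfl
  intro q hq
  rw [h q hq]

theorem VV_affine {z0 z : ℕ} (a b : Fin k → ℤ) {d : ℤ}
    (hd : ∀ q ∈ PP z0 z, ¬ ((q : ℤ) ∣ d)) (c : ℤ) :
    VV z0 z (fun j => a j * d) (fun j => a j * c + b j) = VV z0 z a b :=
  VV_congr (fun q hq => om_affine a b (mem_PP.1 hq).2.2 (hd q hq) c)

theorem VV_nonneg (z0 z : ℕ) (a b : Fin k → ℤ) : 0 ≤ VV z0 z a b := by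
  unfold VV
  apply Finset.prod_nonneg
  intro q hq
  have hq0 : (0 : ℝ) < q := by exact_mod_cast (mem_PP.1 hq).2.2.pos
  have h1 : (om a b q : ℝ) ≤ q := by exact_mod_cast om_le_self a b q
  rw [sub_nonneg, div_le_one hq0]
  exact h1

theorem VV_le_one (z0 z : ℕ) (a b : Fin k → ℤ) : VV z0 z a b ≤ 1 := by
  unfold VV
  apply Finset.prod_le_one
  · intro q hq
    have hq0 : (0 : ℝ) < q := by exact_mod_cast (mem_PP.1 hq).2.2.pos
    have h1 : (om a b q : ℝ) ≤ q := by exact_mod_cast om_le_self a b q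
    rw [sub_nonneg, div_le_one hq0]
    exact h1
  · intro q _
    have : (0 : ℝ) ≤ (om a b q : ℝ) / q := by positivity
    linarith

theorem VV_pos {z0 z : ℕ} {a b : Fin k → ℤ} (hk : k ≤ z0)
    (h : ∀ j, ∀ q ∈ PP z0 z, ¬ ((q : ℤ) ∣ a j)) : 0 < VV z0 z a b := by
  unfold VV
  apply Finset.prod_pos
  intro q hq
  obtain ⟨h1, _, h3⟩ := mem_PP.1 hq
  have hq0 : (0 : ℝ) < q := by exact_mod_cast h3.pos
  have h4 : om a b q < q := lt_of_le_of_lt (om_le h3 (fun j => h j q hq)) (by omega)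
  have h5 : (om a b q : ℝ) < q := by exact_mod_cast h4
  rw [sub_pos, div_lt_one hq0]
  exact h5

end VV

section nu

variable {k k' : ℕ}

theorem nu_nonneg (z0 z : ℕ) (a b : Fin k → ℤ) (n : ℤ) : 0 ≤ nu z0 z a b n := by
  unfold nu
  split_ifs
  · exact inv_nonneg.2 (VV_nonneg _ _ _ _)
  · exact le_rfl

/-- affine substitution `n = d * t + c` -/
theorem nu_affine {z0 z : ℕ} (a b : Fin k → ℤ) {d : ℤ}
    (hd : ∀ q ∈ PP z0 z, ¬ ((q : ℤ) ∣ d)) (c t : ℤ) :
    nu z0 z a b (d * t + c) = nu z0 z (fun j => a j * d) (fun j => a j * c + b j) t := by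
  have h : (∀ j, Rough z0 z (a j * (d * t + c) + b j)) ↔
      (∀ j, Rough z0 z (a j * d * t + (a j * c + b j))) := by
    apply forall_congr'
    intro j
    rw [show a j * (d * t + c) + b j = a j * d * t + (a j * c + b j) by ring]
  unfold nu
  rw [VV_affine a b hd c]
  by_cases hc : ∀ j, Rough z0 z (a j * (d * t + c) + b j)
  · rw [if_pos hc, if_pos (h.1 hc)]
  · rw [if_neg hc, if_neg (fun h' => hc (h.2 h'))]

/-- systems with the same rough points and the same roots -/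
theorem nu_congr {z0 z : ℕ} {a b : Fin k → ℤ} {a' b' : Fin k' → ℤ} {n n' : ℤ}
    (h1 : (∀ j, Rough z0 z (a j * n + b j)) ↔ (∀ j, Rough z0 z (a' j * n' + b' j)))
    (h2 : VV z0 z a b = VV z0 z a' b') : nu z0 z a b n = nu z0 z a' b' n' := by
  unfold nu
  rw [h2]
  by_cases hc : ∀ j, Rough z0 z (a j * n + b j)
  · rw [if_pos hc, if_pos (h1.1 hc)]
  · rw [if_neg hc, if_neg (fun h' => hc (h1.2 h'))]

/-- translation -/
theorem nu_add {z0 z : ℕ} (a b : Fin k → ℤ) (c t : ℤ) :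
    nu z0 z a b (t + c) = nu z0 z a (fun j => a j * c + b j) t := by
  have h := nu_affine (z0 := z0) (z := z) a b (d := 1) (fun q hq hd => by
    have h1 : (q : ℤ) = 1 := Int.eq_one_of_dvd_one (by positivity) hd
    have h2 : q = 1 := by exact_mod_cast h1
    exact (mem_PP.1 hq).2.2.one_lt.ne' h2) c t
  simpa using h

/-- where `nu` does not vanish all forms are rough -/
theorem rough_of_nu_ne_zero {z0 z : ℕ} {a b : Fin k → ℤ} {n : ℤ} (h : nu z0 z a b n ≠ 0) (j : Fin k) :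
    Rough z0 z (a j * n + b j) := by
  unfold nu at h
  by_contra hcon
  rw [if_neg (fun h1 => hcon (h1 j))] at h
  exact h rfl

theorem nu_eq {z0 z : ℕ} {a b : Fin k → ℤ} {n : ℤ} (h : ∀ j, Rough z0 z (a j * n + b j)) :
    nu z0 z a b n = (VV z0 z a b)⁻¹ := by
  unfold nu
  rw [if_pos h]

end nu

end Pool.Agent.Lib.TwinAll.A81
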