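import Mathlib
import Pool.Agent.Lib.TwinAll.Stmts
import Pool.Agent.Lib.MP_973905_nt.PrimeSum

/-!
THEOREM A (MP_c6d112_nt): module L1, the Turan-Kubilius inequality on rough shift systems, from
S2 (mean values of `nu`) and Mertens' theorem.
-/

set_option autoImplicit false

namespace Pool.Agent.Lib.TwinAll

open Finset

namespace L1Aux

/-- Mertens' theorem for the primes in `(z^c, z^c']`. -/
theorem SS_bound (z c c' : ℕ) (hz : 2 ≤ z) (hc : 1 ≤ c) (hcc : c ≤ c') :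
    |SS (z ^ c) (z ^ c') - Real.log ((c' : ℝ) / c)| ≤ 10 / (c * Real.log z) := by
  have hzc : 2 ≤ z ^ c := le_trans hz (Nat.le_self_pow (by omega) z)
  have hle : z ^ c ≤ z ^ c' := Nat.pow_le_pow_right (by omega) hcc
  have h := MP_973905_nt.PrimeSum.range_bound ((z ^ c : ℕ) : ℝ) ((z ^ c' : ℕ) : ℝ)
    (by exact_mod_cast hzc) (by exact_mod_cast hle)
  have hlz : 0 < Real.log z := Real.log_pos (by exact_mod_cast hz)
  have e1 : Real.log ((z ^ c : ℕ) : ℝ) = c * Real.log z := by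
    push_cast
    rw [Real.log_pow]
  have e2 : Real.log ((z ^ c' : ℕ) : ℝ) = c' * Real.log z := by
    push_cast
    rw [Real.log_pow]
  have hps : MP_973905_nt.PS ((z ^ c : ℕ) : ℝ) ((z ^ c' : ℕ) : ℝ) = PP (z ^ c) (z ^ c') := by
    unfold MP_973905_nt.PS PP
    rw [Nat.floor_natCast, Nat.floor_natCast]
  rw [hps, e1, e2, mul_div_mul_right _ _ hlz.ne'] at h
  exact h

theorem om_le {k : ℕ} (a b : Fin k → ℤ) (q : ℕ) : om a b q ≤ q := by
  unfold om
  refine (Finset.card_filter_le _ _).trans ?_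
  simp

theorem VV_nonneg (z0 z : ℕ) {k : ℕ} (a b : Fin k → ℤ) : 0 ≤ VV z0 z a b := by
  unfold VV
  refine Finset.prod_nonneg fun q hq => ?_
  have hq0 : (0 : ℝ) < q := by
    have : q.Prime := (Finset.mem_filter.1 hq).2
    exact_mod_cast this.pos
  have h : (om a b q : ℝ) ≤ q := by exact_mod_cast om_le a b q
  rw [sub_nonneg, div_le_one hq0]
  exact h

theorem nu_nonneg (z0 z : ℕ) {k : ℕ} (a b : Fin k → ℤ) (n : ℤ) : 0 ≤ nu z0 z a b n := by
  unfold nu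
  split_ifs
  · exact inv_nonneg.2 (VV_nonneg _ _ _ _)
  · exact le_rfl

theorem om_mul {k : ℕ} (b : Fin k → ℤ) (q D : ℕ) (hq : 1 < q) (hD : Nat.Coprime D q) :
    om (fun _ => (D : ℤ)) b q = om (fun _ => (1 : ℤ)) b q := by
  unfold om
  obtain ⟨E, -, hE⟩ := Nat.exists_mul_mod_eq_one_of_coprime hD hq
  have hE' : (D : ℤ) * E ≡ 1 [ZMOD q] := by
    have h1 : D * E ≡ 1 [MOD q] := by
      unfold Nat.ModEq
      rw [hE, Nat.mod_eq_of_lt hq]
    exact_mod_cast (Int.natCast_modEq_iff.2 h1)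
  have hmod : ∀ m : ℕ, ((m % q : ℕ) : ℤ) ≡ m [ZMOD q] := fun m => by
    push_cast
    exact Int.mod_modEq _ _
  have hdvd : ∀ (x y c : ℤ), x ≡ y [ZMOD q] → ((q : ℤ) ∣ x + c ↔ (q : ℤ) ∣ y + c) := by
    intro x y c h
    have h2 : (q : ℤ) ∣ y - x := h.dvd
    constructor
    · intro h3
      have := dvd_add h3 h2
      have e : x + c + (y - x) = y + c := by ring
      rwa [e] at this
    · intro h3
      have := dvd_sub h3 h2
      have e : y + c - (y - x) = x + c := by ring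
      rwa [e] at this
  refine Finset.card_nbij' (fun n => (D * n) % q) (fun n => (E * n) % q) ?_ ?_ ?_ ?_
  · intro n hn
    simp only [Finset.coe_filter, Finset.mem_range, Set.mem_ofPred_eq] at hn ⊢
    refine ⟨Nat.mod_lt _ (by omega), ?_⟩
    obtain ⟨j, hj⟩ := hn.2
    refine ⟨j, ?_⟩
    rw [one_mul, hdvd _ ((D : ℤ) * n) _ (by simpa using hmod (D * n))]
    exact hj
  · intro n hn
    simp only [Finset.coe_filter, Finset.mem_range, Set.mem_ofPred_eq] at hn ⊢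
    refine ⟨Nat.mod_lt _ (by omega), ?_⟩
    obtain ⟨j, hj⟩ := hn.2
    refine ⟨j, ?_⟩
    rw [one_mul] at hj
    rw [hdvd _ (n : ℤ) _ ?_]
    · exact hj
    · have h1 : (D : ℤ) * ((E * n % q : ℕ) : ℤ) ≡ D * (E * n : ℕ) [ZMOD q] :=
        (hmod _).mul_left _
      have h2 : (D : ℤ) * (E * n : ℕ) ≡ 1 * n [ZMOD q] := by
        push_cast
        rw [← mul_assoc]
        exact hE'.mul_right _
      rw [one_mul] at h2
      exact h1.trans h2
  · intro n hn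
    simp only [Finset.coe_filter, Finset.mem_range, Set.mem_ofPred_eq] at hn
    have h1 : (E * (D * n % q)) ≡ n [MOD q] := by
      have h2 : (E * (D * n % q)) ≡ E * (D * n) [MOD q] := (Nat.mod_modEq _ _).mul_left _
      have h3 : E * (D * n) ≡ 1 * n [MOD q] := by
        have : E * (D * n) = D * E * n := by ring
        rw [this]
        apply Nat.ModEq.mul_right
        unfold Nat.ModEq
        rw [hE, Nat.mod_eq_of_lt hq]
      rw [one_mul] at h3
      exact h2.trans h3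
    show E * (D * n % q) % q = n
    have := h1
    unfold Nat.ModEq at this
    rw [this, Nat.mod_eq_of_lt hn.1]
  · intro n hn
    simp only [Finset.coe_filter, Finset.mem_range, Set.mem_ofPred_eq] at hn
    have h1 : (D * (E * n % q)) ≡ n [MOD q] := by
      have h2 : (D * (E * n % q)) ≡ D * (E * n) [MOD q] := (Nat.mod_modEq _ _).mul_left _
      have h3 : D * (E * n) ≡ 1 * n [MOD q] := by
        rw [← mul_assoc]
        apply Nat.ModEq.mul_right
        unfold Nat.ModEq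
        rw [hE, Nat.mod_eq_of_lt hq]
      rw [one_mul] at h3
      exact h2.trans h3
    show D * (E * n % q) % q = n
    have := h1
    unfold Nat.ModEq at this
    rw [this, Nat.mod_eq_of_lt hn.1]

theorem VV_mul (z0 z : ℕ) {k : ℕ} (b : Fin k → ℤ) (D : ℕ) (hD : ∀ q ∈ PP z0 z, ¬ q ∣ D) :
    VV z0 z (fun _ => (D : ℤ)) b = VV z0 z (fun _ => (1 : ℤ)) b := by
  unfold VV
  refine Finset.prod_congr rfl fun q hq => ?_
  have hqp : q.Prime := (Finset.mem_filter.1 hq).2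
  rw [om_mul b q D hqp.one_lt]
  exact ((Nat.Prime.coprime_iff_not_dvd hqp).2 (hD q hq)).symm

/-- `nu` at multiples of `D` is `nu` of the dilated system. -/
theorem nu_mul (z0 z : ℕ) {k : ℕ} (b : Fin k → ℤ) (D : ℕ) (hD : ∀ q ∈ PP z0 z, ¬ q ∣ D)
    (m : ℤ) : nu z0 z (fun _ => (1 : ℤ)) b (D * m) = nu z0 z (fun _ => (D : ℤ)) b m := by
  unfold nu
  rw [VV_mul z0 z b D hD]
  have h : (∀ j, Rough z0 z (1 * ((D : ℤ) * m) + b j)) ↔ (∀ j, Rough z0 z ((D : ℤ) * m + b j)) := by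
    simp only [one_mul]
  by_cases h1 : ∀ j, Rough z0 z ((D : ℤ) * m + b j)
  · rw [if_pos h1, if_pos (h.2 h1)]
  · rw [if_neg h1, if_neg (fun h2 => h1 (h.1 h2))]

/-- sums over integer intervals as sums over natural numbers -/
theorem sum_Ioc (f : ℤ → ℝ) (H : ℕ) :
    ∑ n ∈ Finset.Ioc (0 : ℤ) (0 + H), f n = ∑ m ∈ Finset.Icc 1 H, f (m : ℤ) := by
  symm
  refine Finset.sum_nbij (fun m : ℕ => (m : ℤ)) ?_ ?_ ?_ ?_
  · intro m hm
    simp only [Finset.mem_Icc, Finset.mem_Ioc] at hm ⊢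
    omega
  · intro m _ m' _ h
    simpa using h
  · intro n hn
    simp only [Finset.coe_Ioc, Set.mem_Ioc, Finset.coe_Icc, Set.mem_image, Set.mem_Icc] at hn ⊢
    exact ⟨n.toNat, by omega, by omega⟩
  · intro m _
    rfl

/-- multiples of `D` -/
theorem sum_dvd (f : ℕ → ℝ) (N D : ℕ) (hD : 0 < D) :
    ∑ y ∈ (Finset.Icc 1 N).filter (fun y => D ∣ y), f y = ∑ m ∈ Finset.Icc 1 (N / D), f (D * m) := by
  symm
  refine Finset.sum_nbij (fun m : ℕ => D * m) ?_ ?_ ?_ ?_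
  · intro m hm
    simp only [Finset.mem_Icc, Finset.mem_filter] at hm ⊢
    refine ⟨⟨Nat.mul_pos hD hm.1, ?_⟩, dvd_mul_right _ _⟩
    calc D * m ≤ D * (N / D) := Nat.mul_le_mul_left _ hm.2
      _ ≤ N := Nat.mul_div_le _ _
  · intro m _ m' _ h
    exact Nat.eq_of_mul_eq_mul_left hD h
  · intro y hy
    simp only [Finset.coe_filter, Finset.mem_Icc, Set.mem_ofPred_eq, Finset.coe_Icc,
      Set.mem_image, Set.mem_Icc] at hy ⊢
    obtain ⟨m, rfl⟩ := hy.2
    refine ⟨m, ⟨Nat.pos_of_mul_pos_left hy.1.1, ?_⟩, rfl⟩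
    exact (Nat.le_div_iff_mul_le hD).2 (by rw [mul_comm]; exact hy.1.2)
  · intro m _
    rfl

/-- mean value over the multiples of `D`, from S2 -/
theorem mean_mul {k : ℕ} {z0 z s : ℕ} {δ : ℝ}
    (h2 : ∀ a b : Fin k → ℤ, (∀ j, ∀ q ∈ PP z0 z, ¬ ((q : ℤ) ∣ a j)) →
      ∀ (u : ℤ) (H : ℕ), z ^ s ≤ H →
      |(∑ n ∈ Finset.Ioc u (u + H), nu z0 z a b n) - H| ≤ δ * H)
    (b : Fin k → ℤ) (D : ℕ) (hD0 : 0 < D) (hD : ∀ q ∈ PP z0 z, ¬ q ∣ D) (N : ℕ)
    (hN : z ^ s ≤ N / D) :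
    |(∑ y ∈ (Finset.Icc 1 N).filter (fun y => D ∣ y), nu z0 z (fun _ => (1 : ℤ)) b (y : ℤ)) -
      ((N / D : ℕ) : ℝ)| ≤ δ * ((N / D : ℕ) : ℝ) := by
  rw [sum_dvd _ N D hD0]
  have h3 := h2 (fun _ => (D : ℤ)) b (fun j q hq h => hD q hq (by exact_mod_cast h)) 0 (N / D) hN
  rw [sum_Ioc] at h3
  have h4 : ∑ m ∈ Finset.Icc 1 (N / D), nu z0 z (fun _ => (1 : ℤ)) b ((D * m : ℕ) : ℤ) =
      ∑ m ∈ Finset.Icc 1 (N / D), nu z0 z (fun _ => (D : ℤ)) b (m : ℤ) := by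
    refine Finset.sum_congr rfl fun m _ => ?_
    rw [Nat.cast_mul]
    exact nu_mul z0 z b D hD m
  rw [h4]
  exact h3

/-- first and second moments -/
theorem moments {N : ℕ} (ν : ℕ → ℝ) (P : Finset ℕ)
    (hP : ∀ p ∈ P, p.Prime) (S δ : ℝ) (hS : S = ∑ p ∈ P, (1 : ℝ) / p) (hδ0 : 0 < δ) (hδ : δ ≤ 1)
    (hSδ : 1 / δ ≤ S)
    (h0 : |∑ y ∈ Finset.Icc 1 N, ν y - N| ≤ δ * N)
    (h1 : ∀ p ∈ P, |∑ y ∈ (Finset.Icc 1 N).filter (fun y => p ∣ y), ν y - ((N / p : ℕ) : ℝ)| ≤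
      δ * ((N / p : ℕ) : ℝ))
    (h2 : ∀ p ∈ P, ∀ p' ∈ P, p ≠ p' →
      |∑ y ∈ (Finset.Icc 1 N).filter (fun y => p * p' ∣ y), ν y - ((N / (p * p') : ℕ) : ℝ)| ≤
      δ * ((N / (p * p') : ℕ) : ℝ))
    (hc : (P.card : ℝ) ≤ δ * N) :
    ∑ y ∈ Finset.Icc 1 N, ν y * (1 - ((P.filter (fun p => p ∣ y)).card : ℝ) / S) ^ 2 ≤
      10 * δ * N := by
  have hN0 : (0 : ℝ) ≤ N := Nat.cast_nonneg _
  have hS1 : 1 ≤ S := le_trans (by rw [le_div_iff₀ hδ0]; linarith) hSδ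
  have hS0 : 0 < S := by linarith
  -- the counting function
  have hom : ∀ y : ℕ, ((P.filter (fun p => p ∣ y)).card : ℝ) = ∑ p ∈ P, if p ∣ y then (1 : ℝ) else 0 := by
    intro y
    rw [Finset.card_filter]
    push_cast
    rfl
  -- first moment
  have hM1 : ∑ y ∈ Finset.Icc 1 N, ν y * ((P.filter (fun p => p ∣ y)).card : ℝ) =
      ∑ p ∈ P, ∑ y ∈ (Finset.Icc 1 N).filter (fun y => p ∣ y), ν y := by
    simp_rw [hom, Finset.mul_sum, Finset.sum_filter]
    rw [Finset.sum_comm]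
    refine Finset.sum_congr rfl fun p _ => Finset.sum_congr rfl fun y _ => ?_
    split_ifs <;> simp
  have hM2 : ∑ y ∈ Finset.Icc 1 N, ν y * ((P.filter (fun p => p ∣ y)).card : ℝ) ^ 2 =
      ∑ p ∈ P, ∑ p' ∈ P, ∑ y ∈ (Finset.Icc 1 N).filter (fun y => p ∣ y ∧ p' ∣ y), ν y := by
    simp_rw [hom, sq, Finset.sum_mul_sum, Finset.mul_sum, Finset.sum_filter]
    rw [Finset.sum_comm]
    refine Finset.sum_congr rfl fun p _ => ?_
    rw [Finset.sum_comm]
    refine Finset.sum_congr rfl fun p' _ => Finset.sum_congr rfl fun y _ => ?_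
    by_cases hp : p ∣ y <;> by_cases hp' : p' ∣ y <;> simp [hp, hp']
  have hfl : ∀ D : ℕ, ((N / D : ℕ) : ℝ) ≤ N / D := fun D => Nat.cast_div_le
  have hflo : ∀ D : ℕ, 0 < D → (N : ℝ) / D - 1 ≤ ((N / D : ℕ) : ℝ) := by
    intro D hD
    have hD' : (0 : ℝ) < D := by exact_mod_cast hD
    have h3 := Nat.lt_div_mul_add (a := N) hD
    have h4 : (N : ℝ) < ((N / D : ℕ) : ℝ) * D + D := by exact_mod_cast h3
    rw [sub_le_iff_le_add, div_le_iff₀ hD']
    linarith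
  -- lower bound of the first moment
  have hL1 : (1 - δ) * (N * S - δ * N) ≤
      ∑ p ∈ P, ∑ y ∈ (Finset.Icc 1 N).filter (fun y => p ∣ y), ν y := by
    have h3 : ∀ p ∈ P, (1 - δ) * ((N : ℝ) * (1 / p) - 1) ≤
        ∑ y ∈ (Finset.Icc 1 N).filter (fun y => p ∣ y), ν y := by
      intro p hp
      have h4 := (abs_le.1 (h1 p hp)).1
      have h5 := hflo p (hP p hp).pos
      have h6 : (1 - δ) * ((N : ℝ) * (1 / p) - 1) ≤ (1 - δ) * ((N / p : ℕ) : ℝ) := by
        apply mul_le_mul_of_nonneg_left _ (by linarith)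
        rw [mul_one_div]
        exact h5
      linarith
    have h7 := Finset.sum_le_sum h3
    rw [← Finset.mul_sum, Finset.sum_sub_distrib, ← Finset.mul_sum, ← hS] at h7
    simp only [Finset.sum_const, nsmul_eq_mul, mul_one] at h7
    refine le_trans ?_ h7
    apply mul_le_mul_of_nonneg_left _ (by linarith)
    linarith
  -- upper bound of the first moment
  have hU1 : ∀ p ∈ P, ∑ y ∈ (Finset.Icc 1 N).filter (fun y => p ∣ y), ν y ≤
      (1 + δ) * (N * (1 / p)) := by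
    intro p hp
    have h4 := (abs_le.1 (h1 p hp)).2
    have h5 := hfl p
    have h6 : (1 + δ) * ((N / p : ℕ) : ℝ) ≤ (1 + δ) * ((N : ℝ) * (1 / p)) := by
      apply mul_le_mul_of_nonneg_left _ (by linarith)
      rw [mul_one_div]
      exact h5
    linarith
  have hU2 : ∀ p ∈ P, ∀ p' ∈ P,
      ∑ y ∈ (Finset.Icc 1 N).filter (fun y => p ∣ y ∧ p' ∣ y), ν y ≤
      (if p = p' then (1 + δ) * (N * (1 / p)) else 0) + (1 + δ) * (N * ((1 / p) * (1 / p'))) := by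
    intro p hp p' hp'
    have hpp : (0 : ℝ) ≤ (1 + δ) * (N * ((1 / p) * (1 / p'))) := by positivity
    by_cases hpe : p = p'
    · subst hpe
      rw [if_pos rfl]
      simp only [and_self]
      have := hU1 p hp
      linarith
    · rw [if_neg hpe]
      have hcop : Nat.Coprime p p' := (Nat.coprime_primes (hP p hp) (hP p' hp')).2 hpe
      have hiff : ∀ y : ℕ, (p ∣ y ∧ p' ∣ y) ↔ p * p' ∣ y := fun y =>
        ⟨fun h => hcop.mul_dvd_of_dvd_of_dvd h.1 h.2,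
          fun h => ⟨dvd_of_mul_right_dvd h, dvd_of_mul_left_dvd h⟩⟩
      simp_rw [hiff]
      have h4 := (abs_le.1 (h2 p hp p' hp' hpe)).2
      have h5 := hfl (p * p')
      have h6 : (1 + δ) * ((N / (p * p') : ℕ) : ℝ) ≤ (1 + δ) * ((N : ℝ) * ((1 / p) * (1 / p'))) := by
        apply mul_le_mul_of_nonneg_left _ (by linarith)
        refine h5.trans (le_of_eq ?_)
        push_cast
        rw [div_mul_div_comm, one_mul, mul_one_div]
      linarith
  have hU : ∑ p ∈ P, ∑ p' ∈ P, ∑ y ∈ (Finset.Icc 1 N).filter (fun y => p ∣ y ∧ p' ∣ y), ν y ≤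
      (1 + δ) * (N * S) + (1 + δ) * (N * (S * S)) := by
    refine (Finset.sum_le_sum fun p hp => Finset.sum_le_sum fun p' hp' => hU2 p hp p' hp').trans ?_
    simp_rw [Finset.sum_add_distrib, Finset.sum_ite_eq]
    refine add_le_add (le_of_eq ?_) (le_of_eq ?_)
    · rw [Finset.sum_congr rfl (fun p hp => if_pos hp), ← Finset.mul_sum, ← Finset.mul_sum, ← hS]
    · simp_rw [← Finset.mul_sum]
      rw [← Finset.sum_mul, ← hS]
  -- conclusion
  have hexp : ∑ y ∈ Finset.Icc 1 N, ν y * (1 - ((P.filter (fun p => p ∣ y)).card : ℝ) / S) ^ 2 =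
      ∑ y ∈ Finset.Icc 1 N, ν y -
        2 / S * ∑ y ∈ Finset.Icc 1 N, ν y * ((P.filter (fun p => p ∣ y)).card : ℝ) +
        1 / S ^ 2 * ∑ y ∈ Finset.Icc 1 N, ν y * ((P.filter (fun p => p ∣ y)).card : ℝ) ^ 2 := by
    rw [Finset.mul_sum, Finset.mul_sum, ← Finset.sum_sub_distrib, ← Finset.sum_add_distrib]
    refine Finset.sum_congr rfl fun y _ => ?_
    field_simp
    ring
  rw [hexp, hM1, hM2]
  have h3 := (abs_le.1 h0).2
  have h4 : 2 / S * ((1 - δ) * (N * S - δ * N)) ≤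
      2 / S * ∑ p ∈ P, ∑ y ∈ (Finset.Icc 1 N).filter (fun y => p ∣ y), ν y :=
    mul_le_mul_of_nonneg_left hL1 (by positivity)
  have h5 := mul_le_mul_of_nonneg_left hU (show (0 : ℝ) ≤ 1 / S ^ 2 by positivity)
  have h6 : 2 / S * ((1 - δ) * (N * S - δ * N)) = 2 * (1 - δ) * N - 2 * (1 - δ) * δ * N / S := by
    field_simp
  have h7 : 1 / S ^ 2 * ((1 + δ) * (N * S) + (1 + δ) * (N * (S * S))) =
      (1 + δ) * N / S + (1 + δ) * N := by
    field_simp
  have hSi : 1 / S ≤ δ := by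
    rw [div_le_iff₀ hS0]
    rw [div_le_iff₀ hδ0] at hSδ
    linarith
  have hSi0 : 0 ≤ 1 / S := by positivity
  have h8 : 2 * (1 - δ) * δ * N / S ≤ 2 * δ * N := by
    rw [div_le_iff₀ hS0]
    have h9 : 0 ≤ δ * N := by positivity
    nlinarith
  have h10 : (1 + δ) * N / S ≤ 2 * δ * N := by
    have : (1 + δ) * N / S = (1 + δ) * N * (1 / S) := by ring
    rw [this]
    have h11 : (1 + δ) * N * (1 / S) ≤ (1 + δ) * N * δ := mul_le_mul_of_nonneg_left hSi (by positivity)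
    nlinarith [mul_nonneg hδ0.le hN0]
  rw [h6] at h4
  rw [h7] at h5
  nlinarith [mul_nonneg hδ0.le hN0]

/-- Turan-Kubilius in `L^1` -/
theorem tk {N : ℕ} (ν : ℕ → ℝ) (hν : ∀ y, 0 ≤ ν y) (P : Finset ℕ)
    (hP : ∀ p ∈ P, p.Prime) (S δ ε : ℝ) (hS : S = ∑ p ∈ P, (1 : ℝ) / p) (hδ0 : 0 < δ) (hδ : δ ≤ 1)
    (hε : 0 < ε) (hδε : 20 * δ ≤ ε ^ 2)
    (hSδ : 1 / δ ≤ S)
    (h0 : |∑ y ∈ Finset.Icc 1 N, ν y - N| ≤ δ * N)
    (h1 : ∀ p ∈ P, |∑ y ∈ (Finset.Icc 1 N).filter (fun y => p ∣ y), ν y - ((N / p : ℕ) : ℝ)| ≤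
      δ * ((N / p : ℕ) : ℝ))
    (h2 : ∀ p ∈ P, ∀ p' ∈ P, p ≠ p' →
      |∑ y ∈ (Finset.Icc 1 N).filter (fun y => p * p' ∣ y), ν y - ((N / (p * p') : ℕ) : ℝ)| ≤
      δ * ((N / (p * p') : ℕ) : ℝ))
    (hc : (P.card : ℝ) ≤ δ * N) :
    ∑ y ∈ Finset.Icc 1 N, ν y * |1 - ((P.filter (fun p => p ∣ y)).card : ℝ) / S| ≤
      ε * N := by
  have hN0 : (0 : ℝ) ≤ N := Nat.cast_nonneg _
  have hm := moments ν P hP S δ hS hδ0 hδ hSδ h0 h1 h2 hc
  have h3 := (abs_le.1 h0).2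
  have h4 : ∀ y, ν y * |1 - ((P.filter (fun p => p ∣ y)).card : ℝ) / S| ≤
      ε / 4 * ν y + 1 / ε * (ν y * (1 - ((P.filter (fun p => p ∣ y)).card : ℝ) / S) ^ 2) := by
    intro y
    set x := |1 - ((P.filter (fun p => p ∣ y)).card : ℝ) / S| with hx
    have hx2 : (1 - ((P.filter (fun p => p ∣ y)).card : ℝ) / S) ^ 2 = x ^ 2 := by rw [hx, sq_abs]
    rw [hx2]
    have h5 : x ≤ ε / 4 + 1 / ε * x ^ 2 := by
      have h6 : ε / 4 + 1 / ε * x ^ 2 - x = (ε / 2 - x) ^ 2 / ε := by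
        field_simp
        ring
      have h7 : 0 ≤ (ε / 2 - x) ^ 2 / ε := by positivity
      linarith
    calc ν y * x ≤ ν y * (ε / 4 + 1 / ε * x ^ 2) := mul_le_mul_of_nonneg_left h5 (hν y)
      _ = _ := by ring
  refine (Finset.sum_le_sum fun y _ => h4 y).trans ?_
  rw [Finset.sum_add_distrib, ← Finset.mul_sum, ← Finset.mul_sum]
  have h5 : 1 / ε * ∑ y ∈ Finset.Icc 1 N, (ν y * (1 - ((P.filter (fun p => p ∣ y)).card : ℝ) / S) ^ 2) ≤
      ε / 2 * N := by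
    rw [div_mul_eq_mul_div, div_le_iff₀ hε, one_mul]
    refine hm.trans ?_
    have : 10 * δ ≤ ε ^ 2 / 2 := by linarith
    nlinarith
  have h6 : ε / 4 * ∑ y ∈ Finset.Icc 1 N, ν y ≤ ε / 4 * (2 * N) := by
    apply mul_le_mul_of_nonneg_left _ (by positivity)
    nlinarith
  linarith

end L1Aux

/-- Module L1. -/
theorem L1 (h2 : S2Stmt) : L1Stmt := by
  intro R ε hε
  set ε' : ℝ := min ε 1 with hε'
  have hε'0 : 0 < ε' := lt_min hε one_pos
  have hε'1 : ε' ≤ 1 := min_le_right _ _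
  set δ : ℝ := ε' ^ 2 / 20 with hδ
  have hδ0 : 0 < δ := by positivity
  have hδ1 : δ ≤ 1 := by
    have : ε' ^ 2 ≤ 1 := by nlinarith
    rw [hδ]
    linarith
  choose S Z hSZ using fun k : ℕ => h2 (k + 1) δ hδ0
  -- choice of the constants
  obtain ⟨κ, hκ⟩ : ∃ κ : ℕ, Real.exp (1 / δ + 10) ≤ κ := exists_nat_ge _
  have hκ1 : 1 ≤ κ := by
    have h3 : (1 : ℝ) ≤ Real.exp (1 / δ + 10) := Real.one_le_exp (by positivity)
    exact_mod_cast h3.trans hκ
  refine ⟨S 0 + S 1 + S 2 + 1, κ, Z 0 + Z 1 + Z 2, ?_⟩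
  intro z0 hz0 c c' hc hcc B
  choose z1 hz1 using fun k : Fin 3 => hSZ k.1 z0 (by
    fin_cases k <;> simp <;> omega)
  obtain ⟨zδ, hzδ⟩ : ∃ zδ : ℕ, 1 / δ ≤ zδ := exists_nat_ge _
  refine ⟨z1 0 + z1 1 + z1 2 + zδ + 3, ?_⟩
  intro z hz
  have hz3 : 3 ≤ z := by omega
  have hc1 : 1 ≤ c := by omega
  have hcc1 : c ≤ c' := le_trans (by nlinarith) hcc
  -- the sum over primes is large
  have hSS : 1 / δ ≤ SS (z ^ c) (z ^ c') := by
    have h3 := (abs_le.1 (L1Aux.SS_bound z c c' (by omega) hc1 hcc1)).1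
    have hc0 : (0 : ℝ) < c := by exact_mod_cast hc1
    have h4 : 1 / δ + 10 ≤ Real.log ((c' : ℝ) / c) := by
      rw [Real.le_log_iff_exp_le]
      · refine hκ.trans ?_
        rw [le_div_iff₀ hc0]
        exact_mod_cast hcc
      · apply div_pos _ hc0
        exact_mod_cast (by omega : 0 < c')
    have h5 : 10 / ((c : ℝ) * Real.log z) ≤ 10 := by
      have h6 : 1 ≤ Real.log z := by
        rw [Real.le_log_iff_exp_le (by exact_mod_cast (by omega : 0 < z))]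
        have h7 := Real.exp_one_lt_d9
        have h8 : (3 : ℝ) ≤ z := by exact_mod_cast hz3
        linarith
      have h7 : (1 : ℝ) ≤ c := by exact_mod_cast hc1
      have h8 : 1 ≤ (c : ℝ) * Real.log z := by nlinarith
      rw [div_le_iff₀ (by linarith)]
      linarith
    linarith
  refine ⟨le_trans (by rw [le_div_iff₀ hδ0]; linarith) hSS, ?_⟩
  intro k γ hk _ _ _ N hN _
  -- S2 for the system
  have hkk := hz1 ⟨k, by omega⟩ z (by
    have : z1 ⟨k, by omega⟩ ≤ z1 0 + z1 1 + z1 2 := by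
      interval_cases k
      · exact Nat.le_trans (Nat.le_add_right _ _) (Nat.le_add_right _ _)
      · exact Nat.le_trans (Nat.le_add_left _ _) (Nat.le_add_right _ _)
      · exact Nat.le_add_left _ _
    omega)
  have hsk : S k ≤ c := by
    have : S k ≤ S 0 + S 1 + S 2 := by
      interval_cases k <;> omega
    omega
  have hbig : ∀ D : ℕ, 0 < D → D ≤ z ^ (2 * c') → z ^ S k ≤ N / D := by
    intro D hD hD2
    rw [Nat.le_div_iff_mul_le hD]
    calc z ^ S k * D ≤ z ^ c' * z ^ (2 * c') :=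
          Nat.mul_le_mul (Nat.pow_le_pow_right (by omega) (by omega)) hD2
      _ = z ^ (3 * c') := by rw [← pow_add]; congr 1; ring
      _ ≤ z ^ (4 * c') := Nat.pow_le_pow_right (by omega) (by omega)
      _ ≤ N := hN
  have hmean := L1Aux.mean_mul (s := S k) (δ := δ) (fun a b h u H hH => hkk a b h u H hH) γ
  set P := PP (z ^ c) (z ^ c') with hP
  have hPp : ∀ p ∈ P, p.Prime := fun p hp => (Finset.mem_filter.1 hp).2
  have hPz : ∀ p ∈ P, z < p ∧ p ≤ z ^ c' := by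
    intro p hp
    have h3 := (Finset.mem_Ioc.1 (Finset.mem_filter.1 hp).1)
    have h4 : z ≤ z ^ c := Nat.le_self_pow (by omega) z
    exact ⟨lt_of_le_of_lt h4 h3.1, h3.2⟩
  have hqp : ∀ q ∈ PP z0 z, ∀ p ∈ P, ¬ q ∣ p := by
    intro q hq p hp h
    have h3 : q.Prime := (Finset.mem_filter.1 hq).2
    have h4 : q ≤ z := (Finset.mem_Ioc.1 (Finset.mem_filter.1 hq).1).2
    have h5 := (Nat.prime_dvd_prime_iff_eq h3 (hPp p hp)).1 h
    have h6 := (hPz p hp).1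
    omega
  have h0 : |∑ y ∈ Finset.Icc 1 N, nu z0 z (fun _ => (1 : ℤ)) γ (y : ℤ) - N| ≤ δ * N := by
    have h3 := hmean 1 one_pos (fun q hq h => by
      have h4 : q.Prime := (Finset.mem_filter.1 hq).2
      exact h4.one_lt.ne' (Nat.dvd_one.1 h)) N (hbig 1 one_pos (Nat.one_le_pow _ _ (by omega)))
    simpa using h3
  have hle := L1Aux.tk (N := N) (fun y => nu z0 z (fun _ => (1 : ℤ)) γ (y : ℤ))
    (fun y => L1Aux.nu_nonneg _ _ _ _ _) P hPp (SS (z ^ c) (z ^ c')) δ ε' rfl hδ0 hδ1 hε'0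
    (by rw [hδ]; linarith) hSS h0 ?_ ?_ ?_
  · refine hle.trans ?_
    exact mul_le_mul_of_nonneg_right (min_le_left _ _) (Nat.cast_nonneg _)
  · intro p hp
    refine hmean p (hPp p hp).pos (fun q hq => hqp q hq p hp) N (hbig p (hPp p hp).pos ?_)
    exact (hPz p hp).2.trans (Nat.pow_le_pow_right (by omega) (by omega))
  · intro p hp p' hp' _
    refine hmean (p * p') (Nat.mul_pos (hPp p hp).pos (hPp p' hp').pos) ?_ N
      (hbig (p * p') (Nat.mul_pos (hPp p hp).pos (hPp p' hp').pos) ?_)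
    · intro q hq h
      have h3 : q.Prime := (Finset.mem_filter.1 hq).2
      rcases (Nat.Prime.dvd_mul h3).1 h with h4 | h4
      · exact hqp q hq p hp h4
      · exact hqp q hq p' hp' h4
    · calc p * p' ≤ z ^ c' * z ^ c' := Nat.mul_le_mul (hPz p hp).2 (hPz p' hp').2
        _ = z ^ (2 * c') := by rw [← pow_add]; congr 1; ring
  · -- few primes
    have h3 : P.card ≤ z ^ c' := by
      rw [hP]
      unfold PP
      refine (Finset.card_filter_le _ _).trans ?_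
      rw [Nat.card_Ioc]
      exact Nat.sub_le _ _
    have h4 : (zδ * P.card : ℕ) ≤ N := by
      calc zδ * P.card ≤ z ^ c' * z ^ c' := by
            apply Nat.mul_le_mul _ h3
            exact le_trans (by omega) (Nat.le_self_pow (by omega : c' ≠ 0) z)
        _ = z ^ (2 * c') := by rw [← pow_add]; congr 1; ring
        _ ≤ z ^ (4 * c') := Nat.pow_le_pow_right (by omega) (by omega)
        _ ≤ N := hN
    have h5 : (zδ : ℝ) * P.card ≤ N := by exact_mod_cast h4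
    have h6 : 1 / δ * (P.card : ℝ) ≤ N :=
      le_trans (mul_le_mul_of_nonneg_right hzδ (Nat.cast_nonneg _)) h5
    rw [div_mul_eq_mul_div, one_mul, div_le_iff₀ hδ0] at h6
    linarith

end Pool.Agent.Lib.TwinAll
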