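import Mathlib
import Pool.Agent.Lib.TwinAll.Stmts
import Pool.Agent.Lib.TwinAll.Aff81
import Pool.Agent.Lib.MP_3be4fe_nt.Sharp

/-!
THEOREM A (MP_c6d112_nt), module S5: the correlation constant of two primes is 1 on average.
-/

set_option autoImplicit false

namespace Pool.Agent.Lib.TwinAll

open Finset A81

/-! ### Mertens on `PP z0 z` -/

theorem SS_bounds82 : ∃ C : ℝ, 0 ≤ C ∧ ∀ z0 z : ℕ, 3 ≤ z0 → z0 ≤ z →
    Real.log (Real.log z) - Real.log (Real.log z0) - C ≤ SS z0 z ∧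
    SS z0 z ≤ Real.log (Real.log z) - Real.log (Real.log z0) + C := by
  obtain ⟨C, hC⟩ := Pool.Agent.Lib.MP_3be4fe_nt.mertens_second
  have hC0 : 0 ≤ C := (abs_nonneg _).trans (hC 3 le_rfl)
  refine ⟨2 * C, by linarith, fun z0 z h3 hz => ?_⟩
  have h1 := hC z0 h3
  have h2 := hC z (h3.trans hz)
  have h4 : ∑ p ∈ Pool.Agent.Lib.MP_3be4fe_nt.primesLE z, 1 / (p : ℝ) =
      ∑ p ∈ Pool.Agent.Lib.MP_3be4fe_nt.primesLE z0, 1 / (p : ℝ) + SS z0 z := by
    unfold SS
    rw [← Finset.sum_union]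
    · apply Finset.sum_congr _ (fun _ _ => rfl)
      ext p
      simp only [Pool.Agent.Lib.MP_3be4fe_nt.primesLE, PP, Finset.mem_union, Finset.mem_filter,
        Finset.mem_Iic, Finset.mem_Ioc]
      constructor
      · rintro ⟨a1, a2⟩
        by_cases h : p ≤ z0
        · left; exact ⟨h, a2⟩
        · right; exact ⟨⟨by omega, a1⟩, a2⟩
      · rintro (⟨a1, a2⟩ | ⟨⟨a1, a2⟩, a3⟩)
        · exact ⟨by omega, a2⟩
        · exact ⟨a2, a3⟩
    · rw [Finset.disjoint_left]
      intro p hp hp'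
      simp only [Pool.Agent.Lib.MP_3be4fe_nt.primesLE, PP, Finset.mem_filter,
        Finset.mem_Iic, Finset.mem_Ioc] at hp hp'
      omega
  rw [abs_le] at h1 h2
  rw [h4] at h2
  constructor
  · linarith [h1.1, h1.2, h2.1, h2.2]
  · linarith [h1.1, h1.2, h2.1, h2.2]

/-- upper bound for the one dimensional density -/
theorem V1_le82 : ∃ K : ℝ, 0 < K ∧ ∀ z0 z : ℕ, 3 ≤ z0 → z0 ≤ z →
    VV z0 z (![1] : Fin 1 → ℤ) ![0] ≤ K * Real.log z0 / Real.log z := by
  obtain ⟨C, hC0, hC⟩ := SS_bounds82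
  refine ⟨Real.exp C, Real.exp_pos _, fun z0 z h3 hz => ?_⟩
  have h1 := (hC z0 z h3 hz).1
  have hz0l : 0 < Real.log z0 := Real.log_pos (by exact_mod_cast (by omega : 1 < z0))
  have hzl : 0 < Real.log z := Real.log_pos (by exact_mod_cast (by omega : 1 < z))
  calc VV z0 z (![1] : Fin 1 → ℤ) ![0] ≤ ∏ q ∈ PP z0 z, Real.exp (-(1 / (q : ℝ))) := by
        unfold VV
        apply Finset.prod_le_prod
        · intro q hq
          have hq0 : (0 : ℝ) < q := by exact_mod_cast (mem_PP.1 hq).2.2.pos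
          have h1 : (om (![1] : Fin 1 → ℤ) ![0] q : ℝ) ≤ q := by
            exact_mod_cast om_le_self _ _ q
          rw [sub_nonneg, div_le_one hq0]
          exact h1
        · intro q hq
          have hqp := (mem_PP.1 hq).2.2
          have h2 : om (![1] : Fin 1 → ℤ) ![0] q = 1 := by
            apply om_one hqp
            simp only [Matrix.cons_val_zero]
            intro hd
            have h1 : (q : ℤ) = 1 := Int.eq_one_of_dvd_one (by positivity) hd
            have h2 : q = 1 := by exact_mod_cast h1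
            exact hqp.one_lt.ne' h2
          rw [h2]
          have := Real.add_one_le_exp (-(1 / (q : ℝ)))
          push_cast
          linarith
    _ = Real.exp (-SS z0 z) := by
        rw [← Real.exp_sum, Finset.sum_neg_distrib]; rfl
    _ ≤ Real.exp (C + Real.log (Real.log z0) - Real.log (Real.log z)) := by
        apply Real.exp_le_exp.2
        linarith
    _ = Real.exp C * Real.log z0 / Real.log z := by
        rw [Real.exp_sub, Real.exp_add, Real.exp_log hz0l, Real.exp_log hzl]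

/-- upper bound for `∏ (1 + c/q)` -/
theorem prod_le82 (c : ℕ) : ∃ K : ℝ, 0 < K ∧ ∀ z0 z : ℕ, 3 ≤ z0 → z0 ≤ z →
    ∏ q ∈ PP z0 z, (1 + (c : ℝ) / q) ≤ K * Real.log z ^ c := by
  obtain ⟨C, hC0, hC⟩ := SS_bounds82
  refine ⟨Real.exp (c * C), Real.exp_pos _, fun z0 z h3 hz => ?_⟩
  have h1 := (hC z0 z h3 hz).2
  have hz0l : 1 ≤ Real.log z0 := by
    rw [Real.le_log_iff_exp_le (by exact_mod_cast (by omega : 0 < z0))]
    have := Real.exp_one_lt_d9
    have h4 : (3 : ℝ) ≤ z0 := by exact_mod_cast h3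
    linarith
  have hzl : 0 < Real.log z := Real.log_pos (by exact_mod_cast (by omega : 1 < z))
  have hll : 0 ≤ Real.log (Real.log z0) := Real.log_nonneg hz0l
  calc ∏ q ∈ PP z0 z, (1 + (c : ℝ) / q) ≤ ∏ q ∈ PP z0 z, Real.exp (c * (1 / (q : ℝ))) := by
        apply Finset.prod_le_prod
        · intro q _; positivity
        · intro q _
          have := Real.add_one_le_exp ((c : ℝ) * (1 / (q : ℝ)))
          rw [mul_one_div] at this ⊢
          linarith
    _ = Real.exp (c * SS z0 z) := by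
        rw [← Real.exp_sum, ← Finset.mul_sum]; rfl
    _ ≤ Real.exp (c * C + c * Real.log (Real.log z)) := by
        apply Real.exp_le_exp.2
        have hc : (0 : ℝ) ≤ c := Nat.cast_nonneg c
        nlinarith
    _ = Real.exp (c * C) * Real.log z ^ c := by
        rw [Real.exp_add]
        congr 1
        rw [mul_comm, Real.exp_mul, Real.exp_log hzl, Real.rpow_natCast]

/-! ### elementary products -/

theorem prod_one_sub_ge82 {ι : Type*} (s : Finset ι) (x : ι → ℝ) (h0 : ∀ i ∈ s, 0 ≤ x i)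
    (h1 : ∀ i ∈ s, x i ≤ 1) : 1 - ∑ i ∈ s, x i ≤ ∏ i ∈ s, (1 - x i) := by
  classical
  induction s using Finset.induction with
  | empty => simp
  | insert i s hi ih =>
    rw [Finset.prod_insert hi, Finset.sum_insert hi]
    have ih := ih (fun j hj => h0 j (Finset.mem_insert_of_mem hj))
      (fun j hj => h1 j (Finset.mem_insert_of_mem hj))
    have a0 := h0 i (Finset.mem_insert_self _ _)
    have a1 := h1 i (Finset.mem_insert_self _ _)
    have hP1 : ∏ j ∈ s, (1 - x j) ≤ 1 := by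
      apply Finset.prod_le_one
      · intro j hj; linarith [h1 j (Finset.mem_insert_of_mem hj)]
      · intro j hj; linarith [h0 j (Finset.mem_insert_of_mem hj)]
    nlinarith

theorem sum_inv_sq82 (z0 z : ℕ) (h0 : 0 < z0) (hz : z0 ≤ z) :
    ∑ q ∈ PP z0 z, (1 : ℝ) / (q : ℝ) ^ 2 ≤ 1 / z0 := by
  have h1 := sum_Ioc_inv_sq_le_sub (α := ℝ) (k := z0) (n := z) (by omega) hz
  calc ∑ q ∈ PP z0 z, (1 : ℝ) / (q : ℝ) ^ 2 ≤ ∑ i ∈ Finset.Ioc z0 z, ((i : ℝ) ^ 2)⁻¹ := by
        unfold PP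
        rw [Finset.sum_filter]
        apply Finset.sum_le_sum
        intro q _
        split_ifs
        · rw [one_div]
        · positivity
    _ ≤ (z0 : ℝ)⁻¹ - (z : ℝ)⁻¹ := h1
    _ ≤ 1 / z0 := by
        rw [one_div]
        have : (0 : ℝ) ≤ (z : ℝ)⁻¹ := by positivity
        linarith

theorem prod_one_add_small82 (z0 z : ℕ) (c : ℝ) (hc : 0 ≤ c) (h0 : 0 < z0) (hz : z0 ≤ z)
    (hcz : 2 * c ≤ z0) :
    ∏ q ∈ PP z0 z, (1 + c / q * (1 / ((q : ℝ) - 1))) ≤ 1 + 4 * c / z0 := by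
  have hz0 : (0 : ℝ) < z0 := by exact_mod_cast h0
  have h1 := sum_inv_sq82 z0 z h0 hz
  calc ∏ q ∈ PP z0 z, (1 + c / q * (1 / ((q : ℝ) - 1))) ≤
      ∏ q ∈ PP z0 z, Real.exp (2 * c * (1 / (q : ℝ) ^ 2)) := by
        apply Finset.prod_le_prod
        · intro q hq
          have h2 : (2 : ℝ) ≤ q := by exact_mod_cast (mem_PP.1 hq).2.2.two_le
          have : 0 ≤ (1 / ((q : ℝ) - 1)) := by
            apply div_nonneg zero_le_one; linarith
          positivity
        · intro q hq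
          have h2 : (2 : ℝ) ≤ q := by exact_mod_cast (mem_PP.1 hq).2.2.two_le
          have h3 := Real.add_one_le_exp (2 * c * (1 / (q : ℝ) ^ 2))
          have h4 : c / q * (1 / ((q : ℝ) - 1)) ≤ 2 * c * (1 / (q : ℝ) ^ 2) := by
            have h5 : 1 / ((q : ℝ) - 1) ≤ 2 / q := by
              rw [div_le_div_iff₀ (by linarith) (by linarith)]
              linarith
            calc c / q * (1 / ((q : ℝ) - 1)) ≤ c / q * (2 / q) :=
                  mul_le_mul_of_nonneg_left h5 (by positivity)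
              _ = 2 * c * (1 / (q : ℝ) ^ 2) := by
                  field_simp
          linarith
    _ = Real.exp (2 * c * ∑ q ∈ PP z0 z, (1 : ℝ) / (q : ℝ) ^ 2) := by
        rw [← Real.exp_sum, ← Finset.mul_sum]
    _ ≤ Real.exp (2 * c / z0) := by
        apply Real.exp_le_exp.2
        calc 2 * c * ∑ q ∈ PP z0 z, (1 : ℝ) / (q : ℝ) ^ 2 ≤ 2 * c * (1 / z0) :=
              mul_le_mul_of_nonneg_left h1 (by positivity)
          _ = 2 * c / z0 := by ring
    _ ≤ 1 + 4 * c / z0 := by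
        have h2 : 2 * c / z0 ≤ 1 := by rw [div_le_one hz0]; exact hcz
        have h3 : 0 ≤ 2 * c / z0 := by positivity
        have h4 := Real.abs_exp_sub_one_le (x := 2 * c / z0) (by rw [abs_of_nonneg h3]; exact h2)
        rw [abs_of_nonneg h3] at h4
        have h5 := (abs_le.1 h4).2
        have h6 : 2 * (2 * c / z0) = 4 * c / z0 := by ring
        linarith

/-! ### number of roots -/

theorem om_ge82 {k m : ℕ} {a b : Fin k → ℤ} {q : ℕ} (hq : q.Prime) (h : ∀ j, ¬ ((q : ℤ) ∣ a j))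
    (g : Fin m → Fin k)
    (hg : ∀ i j, i ≠ j → ¬ ((q : ℤ) ∣ a (g i) * b (g j) - a (g j) * b (g i))) :
    m ≤ om a b q := by
  classical
  have := Fact.mk hq
  rw [om_eq_zmod]
  have ha : ∀ j, ((a j : ℤ) : ZMod q) ≠ 0 := fun j h0 =>
    h j ((ZMod.intCast_zmod_eq_zero_iff_dvd _ _).1 h0)
  have hinj : Function.Injective
      (fun i : Fin m => -((b (g i) : ℤ) : ZMod q) / ((a (g i) : ℤ) : ZMod q)) := by
    intro i j hij
    by_contra hne
    apply hg i j hne
    rw [← ZMod.intCast_zmod_eq_zero_iff_dvd]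
    simp only at hij
    rw [div_eq_div_iff (ha _) (ha _)] at hij
    push_cast
    linear_combination hij
  calc m = (Finset.univ.image
        (fun i : Fin m => -((b (g i) : ℤ) : ZMod q) / ((a (g i) : ℤ) : ZMod q))).card := by
        rw [Finset.card_image_of_injective _ hinj]
        simp
    _ ≤ _ := by
        apply Finset.card_le_card
        intro x hx
        rw [Finset.mem_image] at hx
        obtain ⟨i, _, hi⟩ := hx
        rw [Finset.mem_filter]
        refine ⟨Finset.mem_univ _, g i, ?_⟩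
        rw [← hi]
        field_simp [ha (g i)]
        ring

/-! ### the local factors -/

/-- the three roots are distinct -/
theorem om3_82 {γ : Fin 2 → ℤ} {R q : ℕ} (hγ : ∀ j, γ j ≠ 0 ∧ |γ j| ≤ R) (hne : γ 0 ≠ γ 1)
    (hq : q.Prime) (hqR : 2 * R < q) :
    om (![1, 1, 1] : Fin 3 → ℤ) ![0, γ 0, γ 1] q = 3 := by
  have small : ∀ x : ℤ, x ≠ 0 → |x| ≤ 2 * R → ¬ ((q : ℤ) ∣ x) := by
    intro x hx hxR hd
    have h1 := Int.le_of_dvd (abs_pos.2 hx) ((dvd_abs _ _).2 hd)
    have h2 : ((2 * R : ℕ) : ℤ) < q := by exact_mod_cast hqR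
    push_cast at h2
    linarith
  have h1 : ∀ j, ¬ ((q : ℤ) ∣ (![1, 1, 1] : Fin 3 → ℤ) j) := by
    intro j
    have : (![1, 1, 1] : Fin 3 → ℤ) j = 1 := by fin_cases j <;> rfl
    rw [this]
    intro hd
    have h1 : (q : ℤ) = 1 := Int.eq_one_of_dvd_one (by positivity) hd
    have h2 : q = 1 := by exact_mod_cast h1
    exact hq.one_lt.ne' h2
  apply le_antisymm (om_le hq h1)
  apply om_ge82 hq h1 id
  have g0 := hγ 0
  have g1 := hγ 1
  have e0 := small (γ 0) g0.1 (by have := g0.2; have := abs_nonneg (γ 0); linarith)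
  have e1 := small (γ 1) g1.1 (by have := g1.2; have := abs_nonneg (γ 1); linarith)
  have e01 := small (γ 1 - γ 0) (sub_ne_zero.2 hne.symm) (by
    have := abs_sub (γ 1) (γ 0); linarith [g0.2, g1.2])
  have e10 := small (γ 0 - γ 1) (sub_ne_zero.2 hne) (by
    have := abs_sub (γ 0) (γ 1); linarith [g0.2, g1.2])
  intro i j hij
  fin_cases i <;> fin_cases j <;> first
    | exact absurd rfl hij
    | simpa using e0
    | simpa using e1
    | simpa using e01
    | simpa using e10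

/-- the four cross differences -/
def Dl82 (γ : Fin 2 → ℤ) (p p' : ℕ) (i j : Fin 2) : ℤ := p' * γ i - p * γ j

theorem om5_82 {γ : Fin 2 → ℤ} {R q p p' : ℕ} (hγ : ∀ j, γ j ≠ 0 ∧ |γ j| ≤ R) (hne : γ 0 ≠ γ 1)
    (hq : q.Prime) (hqR : 2 * R < q) (hp : p.Prime) (hp' : p'.Prime) (hqp : q < p)
    (hqp' : q < p') :
    3 ≤ om (![1, (p : ℤ), p, p', p'] : Fin 5 → ℤ) ![0, γ 0, γ 1, γ 0, γ 1] q ∧
    om (![1, (p : ℤ), p, p', p'] : Fin 5 → ℤ) ![0, γ 0, γ 1, γ 0, γ 1] q ≤ 5 ∧
    ((∀ i j, ¬ ((q : ℤ) ∣ Dl82 γ p p' i j)) →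
      om (![1, (p : ℤ), p, p', p'] : Fin 5 → ℤ) ![0, γ 0, γ 1, γ 0, γ 1] q = 5) := by
  have hqI : Prime (q : ℤ) := Nat.prime_iff_prime_int.1 hq
  have small : ∀ x : ℤ, x ≠ 0 → |x| ≤ 2 * R → ¬ ((q : ℤ) ∣ x) := by
    intro x hx hxR hd
    have h1 := Int.le_of_dvd (abs_pos.2 hx) ((dvd_abs _ _).2 hd)
    have h2 : ((2 * R : ℕ) : ℤ) < q := by exact_mod_cast hqR
    push_cast at h2
    linarith
  have hqone : ¬ ((q : ℤ) ∣ 1) := by
    intro hd
    have h1 : (q : ℤ) = 1 := Int.eq_one_of_dvd_one (by positivity) hd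
    have h2 : q = 1 := by exact_mod_cast h1
    exact hq.one_lt.ne' h2
  have hqP : ¬ ((q : ℤ) ∣ p) := by
    intro hd
    have := (Nat.prime_dvd_prime_iff_eq hq hp).1 (by exact_mod_cast hd)
    omega
  have hqP' : ¬ ((q : ℤ) ∣ p') := by
    intro hd
    have := (Nat.prime_dvd_prime_iff_eq hq hp').1 (by exact_mod_cast hd)
    omega
  have ha : ∀ j, ¬ ((q : ℤ) ∣ (![1, (p : ℤ), p, p', p'] : Fin 5 → ℤ) j) := by
    intro j
    fin_cases j <;> first
      | exact hqone
      | exact hqP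
      | exact hqP'
  have g0 := hγ 0
  have g1 := hγ 1
  have e0 := small (γ 0) g0.1 (by have := g0.2; have := abs_nonneg (γ 0); linarith)
  have e1 := small (γ 1) g1.1 (by have := g1.2; have := abs_nonneg (γ 1); linarith)
  have e01 := small (γ 1 - γ 0) (sub_ne_zero.2 hne.symm) (by
    have := abs_sub (γ 1) (γ 0); linarith [g0.2, g1.2])
  have e10 := small (γ 0 - γ 1) (sub_ne_zero.2 hne) (by
    have := abs_sub (γ 0) (γ 1); linarith [g0.2, g1.2])
  have f01 : ¬ ((q : ℤ) ∣ p * γ 1 - p * γ 0) := by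
    rw [← mul_sub]; exact fun hd => (hqI.dvd_or_dvd hd).elim hqP e01
  have f10 : ¬ ((q : ℤ) ∣ p * γ 0 - p * γ 1) := by
    rw [← mul_sub]; exact fun hd => (hqI.dvd_or_dvd hd).elim hqP e10
  have f01' : ¬ ((q : ℤ) ∣ p' * γ 1 - p' * γ 0) := by
    rw [← mul_sub]; exact fun hd => (hqI.dvd_or_dvd hd).elim hqP' e01
  have f10' : ¬ ((q : ℤ) ∣ p' * γ 0 - p' * γ 1) := by
    rw [← mul_sub]; exact fun hd => (hqI.dvd_or_dvd hd).elim hqP' e10
  refine ⟨?_, om_le hq ha, fun hD => ?_⟩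
  · apply om_ge82 hq ha ![0, 1, 2]
    intro i j hij
    fin_cases i <;> fin_cases j <;> first
      | exact absurd rfl hij
      | simpa using e0
      | simpa using e1
      | simpa using f01
      | simpa using f10
  · apply le_antisymm (om_le hq ha)
    apply om_ge82 hq ha id
    have d00 : ¬ ((q : ℤ) ∣ p' * γ 0 - p * γ 0) := hD 0 0
    have d01 : ¬ ((q : ℤ) ∣ p' * γ 0 - p * γ 1) := hD 0 1
    have d10 : ¬ ((q : ℤ) ∣ p' * γ 1 - p * γ 0) := hD 1 0
    have d11 : ¬ ((q : ℤ) ∣ p' * γ 1 - p * γ 1) := hD 1 1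
    have d00' : ¬ ((q : ℤ) ∣ p * γ 0 - p' * γ 0) := by rwa [dvd_sub_comm]
    have d01' : ¬ ((q : ℤ) ∣ p * γ 1 - p' * γ 0) := by rwa [dvd_sub_comm]
    have d10' : ¬ ((q : ℤ) ∣ p * γ 0 - p' * γ 1) := by rwa [dvd_sub_comm]
    have d11' : ¬ ((q : ℤ) ∣ p * γ 1 - p' * γ 1) := by rwa [dvd_sub_comm]
    intro i j hij
    fin_cases i <;> fin_cases j <;> first
      | exact absurd rfl hij
      | simpa using e0
      | simpa using e1
      | simpa using f01
      | simpa using f10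
      | simpa using f01'
      | simpa using f10'
      | simpa using d00
      | simpa using d01
      | simpa using d10
      | simpa using d11
      | simpa using d00'
      | simpa using d01'
      | simpa using d10'
      | simpa using d11'

/-- the local factor of the correlation constant -/
theorem local82 {q x : ℝ} (hq : 9 ≤ q) (h3 : 3 ≤ x) (h5 : x ≤ 5) :
    1 - 9 * (1 / q ^ 2) ≤ (1 - 1 / q) * (1 - x / q) / (1 - 3 / q) ^ 2 ∧
    (1 - 1 / q) * (1 - x / q) / (1 - 3 / q) ^ 2 ≤ 1 + 3 / q ∧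
    (x = 5 → (1 - 1 / q) * (1 - x / q) / (1 - 3 / q) ^ 2 ≤ 1) := by
  have hq0 : (0 : ℝ) < q := by linarith
  have hq3 : (0 : ℝ) < q - 3 := by linarith
  have e : (1 - 1 / q) * (1 - x / q) / (1 - 3 / q) ^ 2 = (q - 1) * (q - x) / (q - 3) ^ 2 := by
    field_simp
  rw [e]
  have hq32 : (0 : ℝ) < (q - 3) ^ 2 := by positivity
  refine ⟨?_, ?_, ?_⟩
  · rw [le_div_iff₀ hq32]
    have h1 : (1 - 9 * (1 / q ^ 2)) * (q - 3) ^ 2 = (q - 3) ^ 2 - 9 * (q - 3) ^ 2 / q ^ 2 := by
      field_simp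
    rw [h1]
    have h2 : 4 ≤ 9 * (q - 3) ^ 2 / q ^ 2 := by
      rw [le_div_iff₀ (by positivity)]
      nlinarith
    nlinarith
  · rw [div_le_iff₀ hq32]
    have h1 : (1 + 3 / q) * (q - 3) ^ 2 = (q + 3) * (q - 3) ^ 2 / q := by
      field_simp
    rw [h1, le_div_iff₀ hq0]
    have h2 : (q - 1) * (q - x) * q ≤ (q - 1) * (q - 3) * q := by
      apply mul_le_mul_of_nonneg_right _ hq0.le
      apply mul_le_mul_of_nonneg_left _ (by linarith)
      linarith
    nlinarith
  · intro hx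
    rw [hx, div_le_one hq32]
    nlinarith

/-! ### the correlation constant -/

open Classical in
/-- the majorant -/
noncomputable def Fm82 (z0 z : ℕ) (c : ℝ) (n : ℤ) : ℝ :=
  ∏ q ∈ PP z0 z, (1 + if (q : ℤ) ∣ n then c / q else 0)

theorem one_le_Fm82 (z0 z : ℕ) (c : ℝ) (hc : 0 ≤ c) (n : ℤ) : 1 ≤ Fm82 z0 z c n := by
  classical
  unfold Fm82
  calc (1 : ℝ) = ∏ q ∈ PP z0 z, (1 : ℝ) := by rw [Finset.prod_const_one]
    _ ≤ _ := by
      apply Finset.prod_le_prod
      · intro q _; exact zero_le_one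
      · intro q _
        have : (0 : ℝ) ≤ if (q : ℤ) ∣ n then c / q else 0 := by
          split_ifs
          · positivity
          · exact le_rfl
        linarith

theorem Fm_pow82 (z0 z : ℕ) (h9 : 9 ≤ z0) (n : ℤ) : Fm82 z0 z 3 n ^ 4 ≤ Fm82 z0 z 45 n := by
  classical
  unfold Fm82
  rw [← Finset.prod_pow]
  apply Finset.prod_le_prod
  · intro q _
    split_ifs <;> positivity
  · intro q hq
    have hq9 : (9 : ℝ) < q := by exact_mod_cast (lt_of_le_of_lt h9 (mem_PP.1 hq).1)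
    split_ifs
    · have h0 : (0 : ℝ) ≤ 3 / q := by positivity
      have h1 : (3 : ℝ) / q ≤ 1 := by rw [div_le_one (by linarith)]; linarith
      have e : (45 : ℝ) / q = 15 * (3 / q) := by ring
      rw [e]
      generalize (3 : ℝ) / q = x at h0 h1
      have h2 : x ^ 2 ≤ x := by nlinarith
      have h3 : x ^ 3 ≤ x := by nlinarith
      have h4 : x ^ 4 ≤ x := by nlinarith
      nlinarith
    · simp

theorem VV3_82 {γ : Fin 2 → ℤ} {R z0 z : ℕ} (hγ : ∀ j, γ j ≠ 0 ∧ |γ j| ≤ R) (hne : γ 0 ≠ γ 1)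
    (hz0R : 2 * R ≤ z0) :
    VV z0 z (![1, 1, 1] : Fin 3 → ℤ) ![0, γ 0, γ 1] = ∏ q ∈ PP z0 z, (1 - 3 / (q : ℝ)) := by
  unfold VV
  apply Finset.prod_congr rfl
  intro q hq
  obtain ⟨h1, _, h3⟩ := mem_PP.1 hq
  rw [om3_82 hγ hne h3 (by omega)]
  norm_num

theorem VV1_82 {z0 z : ℕ} :
    VV z0 z (![1] : Fin 1 → ℤ) ![0] = ∏ q ∈ PP z0 z, (1 - 1 / (q : ℝ)) := by
  unfold VV
  apply Finset.prod_congr rfl
  intro q hq
  have hqp := (mem_PP.1 hq).2.2
  have h2 : om (![1] : Fin 1 → ℤ) ![0] q = 1 := by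
    apply om_one hqp
    simp only [Matrix.cons_val_zero]
    intro hd
    have h1 : (q : ℤ) = 1 := Int.eq_one_of_dvd_one (by positivity) hd
    have h2 : q = 1 := by exact_mod_cast h1
    exact hqp.one_lt.ne' h2
  rw [h2]
  norm_num

theorem corr82 {γ : Fin 2 → ℤ} {R z0 z p p' : ℕ} (hγ : ∀ j, γ j ≠ 0 ∧ |γ j| ≤ R)
    (hne : γ 0 ≠ γ 1) (hz0R : 2 * R ≤ z0) (h9 : 9 ≤ z0) (hz : z0 ≤ z) (hp : p.Prime)
    (hp' : p'.Prime) (hzp : z < p) (hzp' : z < p') :
    |VV z0 z (![1] : Fin 1 → ℤ) ![0] *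
        VV z0 z (![1, (p : ℤ), p, p', p'] : Fin 5 → ℤ) ![0, γ 0, γ 1, γ 0, γ 1] /
      VV z0 z (![1, 1, 1] : Fin 3 → ℤ) ![0, γ 0, γ 1] ^ 2 - 1| ≤
      9 / z0 + (1 / 4) * ∑ i : Fin 2, ∑ j : Fin 2, (Fm82 z0 z 45 (Dl82 γ p p' i j) - 1) := by
  classical
  have hz00 : (0 : ℝ) < z0 := by exact_mod_cast (by omega : 0 < z0)
  set x : ℕ → ℝ := fun q =>
    (om (![1, (p : ℤ), p, p', p'] : Fin 5 → ℤ) ![0, γ 0, γ 1, γ 0, γ 1] q : ℝ) with hx
  have hom : ∀ q ∈ PP z0 z, 3 ≤ x q ∧ x q ≤ 5 ∧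
      ((∀ i j, ¬ ((q : ℤ) ∣ Dl82 γ p p' i j)) → x q = 5) := by
    intro q hq
    obtain ⟨h1, h2, h3⟩ := mem_PP.1 hq
    have h4 := om5_82 hγ hne h3 (by omega) hp hp' (by omega) (by omega)
    refine ⟨?_, ?_, ?_⟩
    · simp only [hx]; exact_mod_cast h4.1
    · simp only [hx]; exact_mod_cast h4.2.1
    · intro h5
      simp only [hx]; exact_mod_cast h4.2.2 h5
  have hratio : VV z0 z (![1] : Fin 1 → ℤ) ![0] *
        VV z0 z (![1, (p : ℤ), p, p', p'] : Fin 5 → ℤ) ![0, γ 0, γ 1, γ 0, γ 1] /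
      VV z0 z (![1, 1, 1] : Fin 3 → ℤ) ![0, γ 0, γ 1] ^ 2 =
      ∏ q ∈ PP z0 z, ((1 - 1 / (q : ℝ)) * (1 - x q / q) / (1 - 3 / (q : ℝ)) ^ 2) := by
    rw [VV3_82 hγ hne hz0R, VV1_82]
    unfold VV
    rw [Finset.prod_div_distrib, Finset.prod_mul_distrib, Finset.prod_pow]
  rw [hratio]
  have hq9 : ∀ q ∈ PP z0 z, (9 : ℝ) ≤ q := by
    intro q hq
    exact_mod_cast (h9.trans (mem_PP.1 hq).1.le)
  -- lower bound
  have hlow : 1 - 9 / (z0 : ℝ) ≤
      ∏ q ∈ PP z0 z, ((1 - 1 / (q : ℝ)) * (1 - x q / q) / (1 - 3 / (q : ℝ)) ^ 2) := by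
    calc 1 - 9 / (z0 : ℝ) ≤ 1 - ∑ q ∈ PP z0 z, 9 * (1 / (q : ℝ) ^ 2) := by
          rw [← Finset.mul_sum]
          have h1 := sum_inv_sq82 z0 z (by omega) hz
          have h2 : (9 : ℝ) / z0 = 9 * (1 / z0) := by ring
          rw [h2]
          linarith
      _ ≤ ∏ q ∈ PP z0 z, (1 - 9 * (1 / (q : ℝ) ^ 2)) := by
          apply prod_one_sub_ge82
          · intro q _; positivity
          · intro q hq
            have h1 := hq9 q hq
            rw [mul_one_div, div_le_one (by positivity)]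
            nlinarith
      _ ≤ _ := by
          apply Finset.prod_le_prod
          · intro q hq
            have h1 := hq9 q hq
            rw [sub_nonneg, mul_one_div, div_le_one (by positivity)]
            nlinarith
          · intro q hq
            obtain ⟨h3, h5, _⟩ := hom q hq
            exact (local82 (hq9 q hq) h3 h5).1
  -- upper bound
  have hup : ∏ q ∈ PP z0 z, ((1 - 1 / (q : ℝ)) * (1 - x q / q) / (1 - 3 / (q : ℝ)) ^ 2) ≤
      (Fm82 z0 z 3 (Dl82 γ p p' 0 0) * Fm82 z0 z 3 (Dl82 γ p p' 0 1)) *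
      (Fm82 z0 z 3 (Dl82 γ p p' 1 0) * Fm82 z0 z 3 (Dl82 γ p p' 1 1)) := by
    unfold Fm82
    rw [← Finset.prod_mul_distrib, ← Finset.prod_mul_distrib, ← Finset.prod_mul_distrib]
    apply Finset.prod_le_prod
    · intro q hq
      obtain ⟨h3, h5, _⟩ := hom q hq
      have h9' := hq9 q hq
      have hq0 : (0 : ℝ) < q := by linarith
      apply div_nonneg _ (sq_nonneg _)
      apply mul_nonneg
      · rw [sub_nonneg, div_le_one hq0]; linarith
      · rw [sub_nonneg, div_le_one hq0]; linarith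
    · intro q hq
      obtain ⟨h3, h5, h5'⟩ := hom q hq
      have hl := local82 (hq9 q hq) h3 h5
      have hq0 : (0 : ℝ) < q := by linarith [hq9 q hq]
      have ht : ∀ n : ℤ, (1 : ℝ) ≤ 1 + (if (q : ℤ) ∣ n then 3 / (q : ℝ) else 0) := by
        intro n
        split_ifs
        · have : (0 : ℝ) ≤ 3 / q := by positivity
          linarith
        · linarith
      by_cases hD : ∀ i j, ¬ ((q : ℤ) ∣ Dl82 γ p p' i j)
      · have h1 := hl.2.2 (h5' hD)
        refine h1.trans ?_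
        have a1 := one_le_mul_of_one_le_of_one_le (ht (Dl82 γ p p' 0 0)) (ht (Dl82 γ p p' 0 1))
        have a2 := one_le_mul_of_one_le_of_one_le (ht (Dl82 γ p p' 1 0)) (ht (Dl82 γ p p' 1 1))
        exact one_le_mul_of_one_le_of_one_le a1 a2
      · refine hl.2.1.trans ?_
        push Not at hD
        obtain ⟨i, j, hij⟩ := hD
        have key : ∀ a b c d : ℝ, 1 ≤ a → 1 ≤ b → 1 ≤ c → 1 ≤ d →
            (a = 1 + 3 / (q : ℝ) ∨ b = 1 + 3 / (q : ℝ) ∨ c = 1 + 3 / (q : ℝ) ∨
              d = 1 + 3 / (q : ℝ)) →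
            1 + 3 / (q : ℝ) ≤ (a * b) * (c * d) := by
          intro a b c d ha hb hc hd h
          have hab := one_le_mul_of_one_le_of_one_le ha hb
          have hcd := one_le_mul_of_one_le_of_one_le hc hd
          rcases h with h | h | h | h
          · rw [← h]; nlinarith
          · rw [← h]; nlinarith
          · rw [← h]; nlinarith
          · rw [← h]; nlinarith
        have hif : ∀ n : ℤ, (q : ℤ) ∣ n →
            (1 + if (q : ℤ) ∣ n then 3 / (q : ℝ) else 0) = 1 + 3 / (q : ℝ) := by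
          intro n hn
          rw [if_pos hn]
        apply key _ _ _ _ (ht _) (ht _) (ht _) (ht _)
        fin_cases i <;> fin_cases j
        · exact Or.inl (hif _ hij)
        · exact Or.inr (Or.inl (hif _ hij))
        · exact Or.inr (Or.inr (Or.inl (hif _ hij)))
        · exact Or.inr (Or.inr (Or.inr (hif _ hij)))
  have hamgm : ∀ a b c d : ℝ, (a * b) * (c * d) ≤ (1 / 4) * (a ^ 4 + b ^ 4 + (c ^ 4 + d ^ 4)) := by
    intro a b c d
    nlinarith [sq_nonneg (a * b - c * d), sq_nonneg (a ^ 2 - b ^ 2), sq_nonneg (c ^ 2 - d ^ 2)]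
  have hup2 := hup.trans (hamgm _ _ _ _)
  have p1 := Fm_pow82 z0 z h9 (Dl82 γ p p' 0 0)
  have p2 := Fm_pow82 z0 z h9 (Dl82 γ p p' 0 1)
  have p3 := Fm_pow82 z0 z h9 (Dl82 γ p p' 1 0)
  have p4 := Fm_pow82 z0 z h9 (Dl82 γ p p' 1 1)
  have q1 := one_le_Fm82 z0 z 45 (by norm_num) (Dl82 γ p p' 0 0)
  have q2 := one_le_Fm82 z0 z 45 (by norm_num) (Dl82 γ p p' 0 1)
  have q3 := one_le_Fm82 z0 z 45 (by norm_num) (Dl82 γ p p' 1 0)
  have q4 := one_le_Fm82 z0 z 45 (by norm_num) (Dl82 γ p p' 1 1)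
  have h90 : 0 ≤ 9 / (z0 : ℝ) := by positivity
  simp only [Fin.sum_univ_two]
  rw [abs_le]
  constructor
  · linarith
  · linarith

/-! ### counting primes in residue classes -/

/-- the primes `p'` with `q ∣ p' g - e` for all `q ∈ D` -/
noncomputable def cls82 (z y : ℕ) (D : Finset ℕ) (g e : ℤ) : Finset ℕ :=
  (PP z y).filter (fun p' => ∀ q ∈ D, (q : ℤ) ∣ p' * g - e)

theorem exists_cls82 {z0 z : ℕ} {D : Finset ℕ} (hD : D ⊆ PP z0 z) {g : ℤ}
    (hg : ∀ q ∈ PP z0 z, ¬ ((q : ℤ) ∣ g)) (e : ℤ) :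
    ∃ c : ℤ, ∀ n : ℤ, (∀ q ∈ D, (q : ℤ) ∣ n * g - e) → ((∏ q ∈ D, q : ℕ) : ℤ) ∣ n - c := by
  classical
  have hcop : IsCoprime ((∏ q ∈ D, q : ℕ) : ℤ) g := by
    rw [Nat.cast_prod]
    apply IsCoprime.prod_left
    intro q hq
    have hqI : Prime (q : ℤ) := Nat.prime_iff_prime_int.1 (mem_PP.1 (hD hq)).2.2
    exact (Irreducible.coprime_iff_not_dvd hqI.irreducible).2 (hg q (hD hq))
  obtain ⟨u, v, huv⟩ := hcop
  refine ⟨v * e, fun n hn => ?_⟩
  have h1 : ((∏ q ∈ D, q : ℕ) : ℤ) ∣ n * g - e := by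
    rw [Int.natCast_dvd]
    apply Finset.prod_primes_dvd
    · intro q hq
      exact (mem_PP.1 (hD hq)).2.2.prime
    · intro q hq
      exact Int.natCast_dvd.1 (hn q hq)
  have h2 : n - v * e = n * u * ((∏ q ∈ D, q : ℕ) : ℤ) + v * (n * g - e) := by
    linear_combination n * (-huv)
  rw [h2]
  exact dvd_add (Dvd.intro_left _ rfl) (h1.mul_left v)

theorem card_class82 {d y : ℕ} (_hd : 0 < d) (c : ℤ) (S : Finset ℕ) (hS : ∀ n ∈ S, n ≤ y)
    (hc : ∀ n ∈ S, (d : ℤ) ∣ (n : ℤ) - c) : S.card ≤ y / d + 1 := by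
  classical
  rw [← Finset.card_range (y / d + 1)]
  apply Finset.card_le_card_of_injOn (fun n => n / d)
  · intro n hn
    have hn' : n ∈ S := hn
    simp only [Finset.coe_range, Set.mem_Iio]
    exact Nat.lt_succ_of_le (Nat.div_le_div_right (hS n hn'))
  · intro n hn m hm hnm
    have h1 : (d : ℤ) ∣ (n : ℤ) - m := by
      have := dvd_sub (hc n hn) (hc m hm)
      have e : (n : ℤ) - c - (m - c) = n - m := by ring
      rwa [e] at this
    have h2 : n % d = m % d := by
      have h3 : (m : ℤ) ≡ n [ZMOD d] := Int.modEq_iff_dvd.2 h1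
      have h4 : m ≡ n [MOD d] := by exact_mod_cast h3
      exact h4.symm
    have hnm' : n / d = m / d := hnm
    have e1 := Nat.div_add_mod n d
    have e2 := Nat.div_add_mod m d
    rw [hnm', h2] at e1
    omega

/-- the counting bound -/
theorem count82 {z0 z y : ℕ} (hz1 : 1 ≤ z) (hzy : z ≤ y) (hV : 0 < VV z0 z (![1] : Fin 1 → ℤ) ![0])
    (h2b : ∀ D : Finset ℕ, D ⊆ PP z0 z → ∏ q ∈ D, q ≤ z → ∀ (c : ℤ),
      (∑ n ∈ (Finset.Ioc (0 : ℤ) (0 + y)).filter (fun n : ℤ => ((∏ q ∈ D, q : ℕ) : ℤ) ∣ n - c),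
        nu z0 z (![1] : Fin 1 → ℤ) ![0] n) ≤ 2 * y * ∏ q ∈ D, (1 / ((q : ℝ) - 1)))
    {D : Finset ℕ} (hD : D ⊆ PP z0 z) {g : ℤ} (hg : ∀ q ∈ PP z0 z, ¬ ((q : ℤ) ∣ g)) (e : ℤ) :
    ((cls82 z y D g e).card : ℝ) ≤
      2 * VV z0 z (![1] : Fin 1 → ℤ) ![0] * y * ∏ q ∈ D, (1 / ((q : ℝ) - 1)) + 2 * y / z := by
  classical
  obtain ⟨c, hc⟩ := exists_cls82 hD hg e
  have hzr : (0 : ℝ) < z := by exact_mod_cast (by omega : 0 < z)
  have hprod0 : (0 : ℝ) ≤ ∏ q ∈ D, (1 / ((q : ℝ) - 1)) := by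
    apply Finset.prod_nonneg
    intro q hq
    have h2 : (2 : ℝ) ≤ q := by exact_mod_cast (mem_PP.1 (hD hq)).2.2.two_le
    apply div_nonneg zero_le_one; linarith
  by_cases hDz : ∏ q ∈ D, q ≤ z
  · have h1 := h2b D hD hDz c
    have h2 : (VV z0 z (![1] : Fin 1 → ℤ) ![0])⁻¹ * ((cls82 z y D g e).card : ℝ) ≤
        ∑ n ∈ (Finset.Ioc (0 : ℤ) (0 + y)).filter
          (fun n : ℤ => ((∏ q ∈ D, q : ℕ) : ℤ) ∣ n - c), nu z0 z (![1] : Fin 1 → ℤ) ![0] n := by
      calc (VV z0 z (![1] : Fin 1 → ℤ) ![0])⁻¹ * ((cls82 z y D g e).card : ℝ) =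
          ∑ n ∈ (cls82 z y D g e).image (fun n : ℕ => (n : ℤ)),
            nu z0 z (![1] : Fin 1 → ℤ) ![0] n := by
            rw [Finset.sum_image (fun a _ b _ h => by exact_mod_cast h)]
            rw [mul_comm, ← nsmul_eq_mul, ← Finset.sum_const]
            apply Finset.sum_congr rfl
            intro n hn
            unfold cls82 at hn
            rw [Finset.mem_filter] at hn
            obtain ⟨hzn, _, hnp⟩ := mem_PP.1 hn.1
            symm
            apply nu_eq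
            intro j q hq hqd
            have e1 : (![1] : Fin 1 → ℤ) j * (n : ℤ) + (![0] : Fin 1 → ℤ) j = n := by
              fin_cases j; simp
            rw [e1] at hqd
            have h3 := (Nat.prime_dvd_prime_iff_eq (mem_PP.1 hq).2.2 hnp).1
              (by exact_mod_cast hqd)
            have := (mem_PP.1 hq).2.1
            omega
        _ ≤ _ := by
            apply Finset.sum_le_sum_of_subset_of_nonneg
            · intro m hm
              rw [Finset.mem_image] at hm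
              obtain ⟨n, hn, rfl⟩ := hm
              unfold cls82 at hn
              rw [Finset.mem_filter] at hn
              obtain ⟨hzn, hny, hnp⟩ := mem_PP.1 hn.1
              rw [Finset.mem_filter, Finset.mem_Ioc]
              refine ⟨⟨by have := hnp.pos; omega, by omega⟩, hc _ hn.2⟩
            · intro n _ _
              exact nu_nonneg _ _ _ _ _
    have h3 : ((cls82 z y D g e).card : ℝ) ≤
        VV z0 z (![1] : Fin 1 → ℤ) ![0] * (2 * y * ∏ q ∈ D, (1 / ((q : ℝ) - 1))) := by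
      have h4 := h2.trans h1
      rw [inv_mul_le_iff₀ hV] at h4
      exact h4
    have h5 : (0 : ℝ) ≤ 2 * y / z := by positivity
    nlinarith
  · push Not at hDz
    have hd0 : 0 < ∏ q ∈ D, q := by omega
    have h1 : (cls82 z y D g e).card ≤ y / (∏ q ∈ D, q) + 1 := by
      apply card_class82 hd0 c
      · intro n hn
        unfold cls82 at hn
        rw [Finset.mem_filter] at hn
        exact (mem_PP.1 hn.1).2.1
      · intro n hn
        unfold cls82 at hn
        rw [Finset.mem_filter] at hn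
        exact hc _ hn.2
    have h2 : y / (∏ q ∈ D, q) ≤ y / z := Nat.div_le_div_left hDz.le (by omega)
    have h3 : ((y / z : ℕ) : ℝ) ≤ (y : ℝ) / z := Nat.cast_div_le
    have h4 : (1 : ℝ) ≤ (y : ℝ) / z := by
      rw [one_le_div hzr]; exact_mod_cast hzy
    have h5 : ((cls82 z y D g e).card : ℝ) ≤ ((y / z : ℕ) : ℝ) + 1 := by
      exact_mod_cast h1.trans (Nat.add_le_add_right h2 1)
    have h6 : 0 ≤ 2 * VV z0 z (![1] : Fin 1 → ℤ) ![0] * y * ∏ q ∈ D, (1 / ((q : ℝ) - 1)) := by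
      positivity
    have h7 : 2 * (y : ℝ) / z = (y : ℝ) / z + (y : ℝ) / z := by ring
    rw [h7]
    linarith

/-- the average of the majorant over one prime -/
theorem avg82 {z0 z y : ℕ} (h0 : 0 < z0) (hz0z : z0 ≤ z) (h90 : 90 ≤ z0) (hzy : z ≤ y)
    (hV : 0 < VV z0 z (![1] : Fin 1 → ℤ) ![0])
    (h2b : ∀ D : Finset ℕ, D ⊆ PP z0 z → ∏ q ∈ D, q ≤ z → ∀ (c : ℤ),
      (∑ n ∈ (Finset.Ioc (0 : ℤ) (0 + y)).filter (fun n : ℤ => ((∏ q ∈ D, q : ℕ) : ℤ) ∣ n - c),
        nu z0 z (![1] : Fin 1 → ℤ) ![0] n) ≤ 2 * y * ∏ q ∈ D, (1 / ((q : ℝ) - 1)))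
    {g : ℤ} (hg : ∀ q ∈ PP z0 z, ¬ ((q : ℤ) ∣ g)) (e : ℤ) :
    ∑ p' ∈ PP z y, (Fm82 z0 z 45 (p' * g - e) - 1) ≤
      2 * VV z0 z (![1] : Fin 1 → ℤ) ![0] * y * (180 / z0) +
        2 * y / z * ∏ q ∈ PP z0 z, (1 + (45 : ℕ) / (q : ℝ)) := by
  classical
  have hz1 : 1 ≤ z := by omega
  have hexp : ∀ n : ℤ, Fm82 z0 z 45 n - 1 = ∑ D ∈ (PP z0 z).powerset.erase ∅,
      (∏ q ∈ D, (45 : ℝ) / q) * (if ∀ q ∈ D, (q : ℤ) ∣ n then 1 else 0) := by
    intro n
    unfold Fm82
    have h1 : ∏ q ∈ PP z0 z, (1 + if (q : ℤ) ∣ n then (45 : ℝ) / q else 0) =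
        ∑ D ∈ (PP z0 z).powerset, ∏ q ∈ D, (if (q : ℤ) ∣ n then (45 : ℝ) / q else 0) := by
      rw [← Finset.prod_add_one]
      apply Finset.prod_congr rfl
      intro q _; ring
    rw [h1, ← Finset.add_sum_erase _ _ (Finset.empty_mem_powerset _)]
    rw [Finset.prod_empty, add_sub_cancel_left]
    apply Finset.sum_congr rfl
    intro D _
    by_cases hall : ∀ q ∈ D, (q : ℤ) ∣ n
    · rw [if_pos hall, mul_one]
      apply Finset.prod_congr rfl
      intro q hq
      rw [if_pos (hall q hq)]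
    · rw [if_neg hall, mul_zero]
      push Not at hall
      obtain ⟨q, hq, hqn⟩ := hall
      exact Finset.prod_eq_zero hq (if_neg hqn)
  have hsum : ∑ p' ∈ PP z y, (Fm82 z0 z 45 (p' * g - e) - 1) =
      ∑ D ∈ (PP z0 z).powerset.erase ∅,
        (∏ q ∈ D, (45 : ℝ) / q) * ((cls82 z y D g e).card : ℝ) := by
    simp_rw [hexp]
    rw [Finset.sum_comm]
    apply Finset.sum_congr rfl
    intro D _
    rw [← Finset.mul_sum]
    congr 1
    rw [Finset.sum_boole]
    rfl
  rw [hsum]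
  set V := VV z0 z (![1] : Fin 1 → ℤ) ![0] with hVdef
  calc ∑ D ∈ (PP z0 z).powerset.erase ∅,
        (∏ q ∈ D, (45 : ℝ) / q) * ((cls82 z y D g e).card : ℝ) ≤
      ∑ D ∈ (PP z0 z).powerset.erase ∅,
        (∏ q ∈ D, (45 : ℝ) / q) * (2 * V * y * ∏ q ∈ D, (1 / ((q : ℝ) - 1)) + 2 * y / z) := by
        apply Finset.sum_le_sum
        intro D hD
        apply mul_le_mul_of_nonneg_left
        · exact count82 hz1 hzy hV h2b (Finset.mem_powerset.1 (Finset.mem_of_mem_erase hD)) hg e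
        · exact Finset.prod_nonneg (fun q _ => by positivity)
    _ = 2 * V * y * (∑ D ∈ (PP z0 z).powerset.erase ∅,
          ∏ q ∈ D, ((45 : ℝ) / q * (1 / ((q : ℝ) - 1)))) +
        2 * y / z * ∑ D ∈ (PP z0 z).powerset.erase ∅, ∏ q ∈ D, (45 : ℝ) / q := by
        rw [Finset.mul_sum, Finset.mul_sum, ← Finset.sum_add_distrib]
        apply Finset.sum_congr rfl
        intro D _
        rw [Finset.prod_mul_distrib]
        ring
    _ ≤ _ := by
        have e1 : ∑ D ∈ (PP z0 z).powerset.erase ∅,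
            ∏ q ∈ D, ((45 : ℝ) / q * (1 / ((q : ℝ) - 1))) =
            ∏ q ∈ PP z0 z, (1 + (45 : ℝ) / q * (1 / ((q : ℝ) - 1))) - 1 := by
          have h1 : ∏ q ∈ PP z0 z, (1 + (45 : ℝ) / q * (1 / ((q : ℝ) - 1))) =
              ∑ D ∈ (PP z0 z).powerset, ∏ q ∈ D, ((45 : ℝ) / q * (1 / ((q : ℝ) - 1))) := by
            rw [← Finset.prod_add_one]
            apply Finset.prod_congr rfl
            intro q _; ring
          rw [h1, ← Finset.add_sum_erase _ _ (Finset.empty_mem_powerset _), Finset.prod_empty,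
            add_sub_cancel_left]
        have e2 : ∑ D ∈ (PP z0 z).powerset.erase ∅, ∏ q ∈ D, (45 : ℝ) / q ≤
            ∏ q ∈ PP z0 z, (1 + (45 : ℕ) / (q : ℝ)) := by
          have h1 : ∏ q ∈ PP z0 z, (1 + (45 : ℕ) / (q : ℝ)) =
              ∑ D ∈ (PP z0 z).powerset, ∏ q ∈ D, (45 : ℝ) / q := by
            rw [← Finset.prod_add_one]
            apply Finset.prod_congr rfl
            intro q _
            push_cast
            ring
          rw [h1]
          apply Finset.sum_le_sum_of_subset_of_nonneg (Finset.erase_subset _ _)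
          intro D _ _
          exact Finset.prod_nonneg (fun q _ => by positivity)
        have e3 := prod_one_add_small82 z0 z 45 (by norm_num) h0 hz0z (by
          have : (90 : ℝ) ≤ z0 := by exact_mod_cast h90
          linarith)
        rw [e1]
        have hzr : (0 : ℝ) < z := by exact_mod_cast (by omega : 0 < z)
        apply add_le_add
        · apply mul_le_mul_of_nonneg_left _ (by positivity)
          have e4 : (4 : ℝ) * 45 / z0 = 180 / z0 := by norm_num
          rw [e4] at e3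
          linarith
        · exact mul_le_mul_of_nonneg_left e2 (by positivity)

/-! ### the theorem -/

theorem eventually_log_sq82 (K δ : ℝ) (hδ : 0 < δ) : ∃ n0 : ℕ, ∀ n : ℕ, n0 ≤ n →
    K * Real.log n ^ 2 / n ≤ δ := by
  have h1 : Filter.Tendsto (fun x : ℝ => K * (Real.log x ^ 2 / (1 * x + 0))) Filter.atTop
      (nhds (K * 0)) :=
    (Real.tendsto_pow_log_div_mul_add_atTop 1 0 2 one_ne_zero).const_mul K
  rw [mul_zero] at h1
  have h2 := (h1.comp tendsto_natCast_atTop_atTop).eventually (gt_mem_nhds hδ)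
  obtain ⟨n0, hn0⟩ := Filter.eventually_atTop.1 h2
  refine ⟨n0, fun n hn => ?_⟩
  have h3 := hn0 n hn
  simp only [Function.comp, one_mul, add_zero] at h3
  rw [mul_div_assoc]
  exact h3.le

theorem eventually_log_pow82 (K : ℝ) (m : ℕ) (δ : ℝ) (hδ : 0 < δ) : ∃ n0 : ℕ, ∀ n : ℕ, n0 ≤ n →
    K * Real.log n ^ m / n ≤ δ := by
  have h1 : Filter.Tendsto (fun x : ℝ => K * (Real.log x ^ m / (1 * x + 0))) Filter.atTop
      (nhds (K * 0)) :=
    (Real.tendsto_pow_log_div_mul_add_atTop 1 0 m one_ne_zero).const_mul K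
  rw [mul_zero] at h1
  have h2 := (h1.comp tendsto_natCast_atTop_atTop).eventually (gt_mem_nhds hδ)
  obtain ⟨n0, hn0⟩ := Filter.eventually_atTop.1 h2
  refine ⟨n0, fun n hn => ?_⟩
  have h3 := hn0 n hn
  simp only [Function.comp, one_mul, add_zero] at h3
  rw [mul_div_assoc]
  exact h3.le

theorem S5_82 (h2b : S2bStmt) : S5Stmt := by
  classical
  intro R
  obtain ⟨s, zs2, h2b⟩ := h2b
  obtain ⟨K1, hK1, hV1⟩ := V1_le82
  obtain ⟨K2, hK2, hP⟩ := prod_le82 45
  refine ⟨s + 1, fun C ε hε => ?_⟩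
  set C' : ℝ := max (C : ℝ) 1 with hC'
  have hC'1 : 1 ≤ C' := le_max_right _ _
  have hC'C : (C : ℝ) ≤ C' := le_max_left _ _
  -- choice of zs
  obtain ⟨n1, hn1⟩ := eventually_log_sq82 (189 * (2 * K1 * C') ^ 2) (ε / 2) (by linarith)
  refine ⟨max (max zs2 n1) (max (2 * R) 90), fun z0 hz0 => ?_⟩
  have hzs2 : zs2 ≤ z0 := le_trans (le_trans (le_max_left _ _) (le_max_left _ _)) hz0
  have hn1z : n1 ≤ z0 := le_trans (le_trans (le_max_right _ _) (le_max_left _ _)) hz0
  have hRz : 2 * R ≤ z0 := le_trans (le_trans (le_max_left _ _) (le_max_right _ _)) hz0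
  have h90 : 90 ≤ z0 := le_trans (le_trans (le_max_right _ _) (le_max_right _ _)) hz0
  obtain ⟨z1, h2b⟩ := h2b z0 hzs2
  obtain ⟨n2, hn2⟩ := eventually_log_pow82 (4 * K2 * C' ^ 2) 47 (ε / 2) (by linarith)
  refine ⟨max (max z1 n2) z0, fun z hz γ hγ hne y hzy hyC => ?_⟩
  have hz1z : z1 ≤ z := le_trans (le_trans (le_max_left _ _) (le_max_left _ _)) hz
  have hn2z : n2 ≤ z := le_trans (le_trans (le_max_right _ _) (le_max_left _ _)) hz
  have hz0z : z0 ≤ z := le_trans (le_max_right _ _) hz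
  have hzpos : 0 < z := by omega
  have hzley : z ≤ y := by
    calc z = z ^ 1 := (pow_one z).symm
      _ ≤ z ^ (s + 1) := Nat.pow_le_pow_right hzpos (by omega)
      _ ≤ y := hzy
  have hzsy : z ^ s ≤ y := (Nat.pow_le_pow_right hzpos (by omega)).trans hzy
  have hV : 0 < VV z0 z (![1] : Fin 1 → ℤ) ![0] := by
    apply VV_pos (by omega)
    intro j q hq hd
    have e1 : (![1] : Fin 1 → ℤ) j = 1 := by fin_cases j; rfl
    rw [e1] at hd
    have h1 : (q : ℤ) = 1 := Int.eq_one_of_dvd_one (by positivity) hd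
    have h2 : q = 1 := by exact_mod_cast h1
    exact (mem_PP.1 hq).2.2.one_lt.ne' h2
  have h2b' : ∀ D : Finset ℕ, D ⊆ PP z0 z → ∏ q ∈ D, q ≤ z → ∀ (c : ℤ),
      (∑ n ∈ (Finset.Ioc (0 : ℤ) (0 + y)).filter (fun n : ℤ => ((∏ q ∈ D, q : ℕ) : ℤ) ∣ n - c),
        nu z0 z (![1] : Fin 1 → ℤ) ![0] n) ≤ 2 * y * ∏ q ∈ D, (1 / ((q : ℝ) - 1)) :=
    fun D hD hDz c => h2b z hz1z D hD hDz c 0 y hzsy
  have hgq : ∀ i : Fin 2, ∀ q ∈ PP z0 z, ¬ ((q : ℤ) ∣ γ i) := by
    intro i q hq hd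
    have h1 := Int.le_of_dvd (abs_pos.2 (hγ i).1) ((dvd_abs _ _).2 hd)
    have h2 := (hγ i).2
    have h3 := (mem_PP.1 hq).1
    have h4 : (2 * R : ℤ) < q := by exact_mod_cast (by omega : 2 * R < q)
    linarith
  set V := VV z0 z (![1] : Fin 1 → ℤ) ![0] with hVdef
  -- the number of primes
  have hcard : ((PP z y).card : ℝ) ≤ 2 * V * y := by
    have h1 := h2b' ∅ (Finset.empty_subset _) (by rw [Finset.prod_empty]; omega) 0
    rw [Finset.prod_empty, Finset.prod_empty, mul_one] at h1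
    have h2 : V⁻¹ * ((PP z y).card : ℝ) ≤
        ∑ n ∈ (Finset.Ioc (0 : ℤ) (0 + y)).filter (fun n : ℤ => ((1 : ℕ) : ℤ) ∣ n - 0),
          nu z0 z (![1] : Fin 1 → ℤ) ![0] n := by
      calc V⁻¹ * ((PP z y).card : ℝ) =
          ∑ n ∈ (PP z y).image (fun n : ℕ => (n : ℤ)), nu z0 z (![1] : Fin 1 → ℤ) ![0] n := by
            rw [Finset.sum_image (fun a _ b _ h => by exact_mod_cast h)]
            rw [mul_comm, ← nsmul_eq_mul, ← Finset.sum_const]
            apply Finset.sum_congr rfl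
            intro n hn
            obtain ⟨hzn, _, hnp⟩ := mem_PP.1 hn
            symm
            apply nu_eq
            intro j q hq hqd
            have e1 : (![1] : Fin 1 → ℤ) j * (n : ℤ) + (![0] : Fin 1 → ℤ) j = n := by
              fin_cases j; simp
            rw [e1] at hqd
            have h3 := (Nat.prime_dvd_prime_iff_eq (mem_PP.1 hq).2.2 hnp).1
              (by exact_mod_cast hqd)
            have := (mem_PP.1 hq).2.1
            omega
        _ ≤ _ := by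
            apply Finset.sum_le_sum_of_subset_of_nonneg
            · intro m hm
              rw [Finset.mem_image] at hm
              obtain ⟨n, hn, rfl⟩ := hm
              obtain ⟨hzn, hny, hnp⟩ := mem_PP.1 hn
              rw [Finset.mem_filter, Finset.mem_Ioc]
              exact ⟨⟨by have := hnp.pos; omega, by omega⟩, by simp⟩
            · intro n _ _
              exact nu_nonneg _ _ _ _ _
    have h4 := h2.trans h1
    rw [inv_mul_le_iff₀ hV] at h4
    linarith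
  -- logs
  have hz0r : (0 : ℝ) < z0 := by exact_mod_cast (by omega : 0 < z0)
  have hzr : (0 : ℝ) < z := by exact_mod_cast hzpos
  have hyr : (0 : ℝ) < y := by exact_mod_cast (by omega : 0 < y)
  have hlz0 : 0 < Real.log z0 := Real.log_pos (by exact_mod_cast (by omega : 1 < z0))
  have hlz : 0 < Real.log z := Real.log_pos (by exact_mod_cast (by omega : 1 < z))
  have hly : 0 < Real.log y := Real.log_pos (by exact_mod_cast (by omega : 1 < y))
  have hlyz : Real.log y ≤ C' * Real.log z := by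
    calc Real.log y ≤ Real.log ((z : ℝ) ^ C) := by
          apply Real.log_le_log hyr
          exact_mod_cast hyC
      _ = C * Real.log z := by rw [Real.log_pow]
      _ ≤ C' * Real.log z := mul_le_mul_of_nonneg_right hC'C hlz.le
  have hVle : V ≤ K1 * C' * Real.log z0 / Real.log y := by
    refine (hV1 z0 z (by omega) hz0z).trans ?_
    rw [div_le_div_iff₀ hlz hly]
    calc K1 * Real.log z0 * Real.log y ≤ K1 * Real.log z0 * (C' * Real.log z) :=
          mul_le_mul_of_nonneg_left hlyz (by positivity)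
      _ = K1 * C' * Real.log z0 * Real.log z := by ring
  have hVone : V ≤ 1 := VV_le_one _ _ _ _
  -- the sum
  have hPz := hP z0 z (by omega) hz0z
  set E := 2 * V * y * (180 / z0) + 2 * y / z * (K2 * Real.log z ^ 45) with hE
  have havg : ∀ p ∈ PP z y, ∀ i j : Fin 2,
      ∑ p' ∈ PP z y, (Fm82 z0 z 45 (Dl82 γ p p' i j) - 1) ≤ E := by
    intro p _ i j
    have h1 := avg82 (by omega) hz0z h90 hzley hV h2b' (hgq i) (p * γ j)
    refine h1.trans ?_
    rw [hE]
    apply add_le_add le_rfl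
    exact mul_le_mul_of_nonneg_left hPz (by positivity)
  have hE0 : 0 ≤ E := by rw [hE]; positivity
  have hmain : ∑ p ∈ PP z y, ∑ p' ∈ (PP z y).erase p,
        |VV z0 z (![1] : Fin 1 → ℤ) ![0] *
            VV z0 z (![1, (p : ℤ), p, p', p'] : Fin 5 → ℤ) ![0, γ 0, γ 1, γ 0, γ 1] /
          VV z0 z (![1, 1, 1] : Fin 3 → ℤ) ![0, γ 0, γ 1] ^ 2 - 1| ≤
      (2 * V * y) * (9 / z0 * (2 * V * y) + E) := by
    calc _ ≤ ∑ p ∈ PP z y, (9 / z0 * (2 * V * y) + E) := by
          apply Finset.sum_le_sum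
          intro p hp
          calc _ ≤ ∑ p' ∈ (PP z y).erase p, (9 / (z0 : ℝ) + (1 / 4) * ∑ i : Fin 2, ∑ j : Fin 2,
                  (Fm82 z0 z 45 (Dl82 γ p p' i j) - 1)) := by
                apply Finset.sum_le_sum
                intro p' hp'
                have hp'' := Finset.mem_of_mem_erase hp'
                exact corr82 hγ hne hRz (by omega) hz0z (mem_PP.1 hp).2.2 (mem_PP.1 hp'').2.2
                  (mem_PP.1 hp).1 (mem_PP.1 hp'').1
            _ ≤ ∑ p' ∈ PP z y, (9 / (z0 : ℝ) + (1 / 4) * ∑ i : Fin 2, ∑ j : Fin 2,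
                  (Fm82 z0 z 45 (Dl82 γ p p' i j) - 1)) := by
                apply Finset.sum_le_sum_of_subset_of_nonneg (Finset.erase_subset _ _)
                intro p' _ _
                have : 0 ≤ ∑ i : Fin 2, ∑ j : Fin 2,
                    (Fm82 z0 z 45 (Dl82 γ p p' i j) - 1) := by
                  apply Finset.sum_nonneg
                  intro i _
                  apply Finset.sum_nonneg
                  intro j _
                  linarith [one_le_Fm82 z0 z 45 (by norm_num) (Dl82 γ p p' i j)]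
                positivity
            _ = (PP z y).card * (9 / (z0 : ℝ)) + (1 / 4) * ∑ i : Fin 2, ∑ j : Fin 2,
                  ∑ p' ∈ PP z y, (Fm82 z0 z 45 (Dl82 γ p p' i j) - 1) := by
                rw [Finset.sum_add_distrib, Finset.sum_const, nsmul_eq_mul, ← Finset.mul_sum]
                congr 2
                rw [Finset.sum_comm]
                apply Finset.sum_congr rfl
                intro i _
                rw [Finset.sum_comm]
            _ ≤ (2 * V * y) * (9 / (z0 : ℝ)) + (1 / 4) * ∑ i : Fin 2, ∑ j : Fin 2, E := by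
                apply add_le_add
                · exact mul_le_mul_of_nonneg_right hcard (by positivity)
                · apply mul_le_mul_of_nonneg_left _ (by norm_num)
                  apply Finset.sum_le_sum
                  intro i _
                  apply Finset.sum_le_sum
                  intro j _
                  exact havg p hp i j
            _ = 9 / z0 * (2 * V * y) + E := by
                simp only [Fin.sum_univ_two]
                ring
      _ = (PP z y).card * (9 / z0 * (2 * V * y) + E) := by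
          rw [Finset.sum_const, nsmul_eq_mul]
      _ ≤ _ := mul_le_mul_of_nonneg_right hcard (by positivity)
  refine hmain.trans ?_
  have e1 : (2 * V * y) * (9 / z0 * (2 * V * y) + E) =
      189 * (2 * V) ^ 2 / z0 * (y : ℝ) ^ 2 +
        4 * V * (K2 * Real.log z ^ 45) / z * (y : ℝ) ^ 2 := by
    rw [hE]; field_simp; ring
  rw [e1]
  have f1 : 189 * (2 * V) ^ 2 / z0 ≤ ε / 2 * (1 / Real.log y) ^ 2 := by
    have h1 := hn1 z0 hn1z
    have h2 : (2 * V) ^ 2 ≤ (2 * (K1 * C' * Real.log z0 / Real.log y)) ^ 2 :=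
      pow_le_pow_left₀ (by positivity) (by linarith) 2
    calc 189 * (2 * V) ^ 2 / z0 ≤
        189 * (2 * (K1 * C' * Real.log z0 / Real.log y)) ^ 2 / z0 := by
          apply div_le_div_of_nonneg_right _ hz0r.le
          linarith
      _ = (189 * (2 * K1 * C') ^ 2 * Real.log z0 ^ 2 / z0) * (1 / Real.log y) ^ 2 := by
          field_simp
      _ ≤ _ := mul_le_mul_of_nonneg_right h1 (by positivity)
  have f2 : 4 * V * (K2 * Real.log z ^ 45) / z ≤ ε / 2 * (1 / Real.log y) ^ 2 := by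
    have h1 := hn2 z hn2z
    have h2 : Real.log y ^ 2 ≤ (C' * Real.log z) ^ 2 := pow_le_pow_left₀ hly.le hlyz 2
    have h3 : 4 * V * (K2 * Real.log z ^ 45) / z * Real.log y ^ 2 ≤ ε / 2 := by
      calc 4 * V * (K2 * Real.log z ^ 45) / z * Real.log y ^ 2 ≤
          4 * 1 * (K2 * Real.log z ^ 45) / z * (C' * Real.log z) ^ 2 := by
            apply mul_le_mul _ h2 (by positivity) (by positivity)
            apply div_le_div_of_nonneg_right _ hzr.le
            apply mul_le_mul_of_nonneg_right _ (by positivity)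
            linarith
        _ = 4 * K2 * C' ^ 2 * Real.log z ^ 47 / z := by ring
        _ ≤ ε / 2 := h1
    rw [one_div, inv_pow, ← div_eq_mul_inv, le_div_iff₀ (by positivity)]
    exact h3
  have e2 : ε * ((y : ℝ) / Real.log y) ^ 2 = ε / 2 * (1 / Real.log y) ^ 2 * (y : ℝ) ^ 2 +
      ε / 2 * (1 / Real.log y) ^ 2 * (y : ℝ) ^ 2 := by
    field_simp; ring
  rw [e2]
  exact add_le_add (mul_le_mul_of_nonneg_right f1 (by positivity))
    (mul_le_mul_of_nonneg_right f2 (by positivity))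

end Pool.Agent.Lib.TwinAll
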