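import Mathlib
import Pool.Agent.Lib.TwinAll.Defs
import Pool.Agent.Lib.TwinAll.Stmts
import Pool.Agent.Lib.MP_973905_nt.PrimeSum

/-!
Module S5 of THEOREM A: the correlation constant of two primes is 1 on average
(`theorem S5 : S2bStmt → S5Stmt`).
-/

set_option autoImplicit false

namespace Pool.Agent.Lib.TwinAll
namespace Corr98

open Finset

/-! ### number of roots -/

theorem om_eq {k : ℕ} (a b : Fin k → ℤ) (q : ℕ) [hq : Fact q.Prime]
    (ha : ∀ j, ¬ ((q : ℤ) ∣ a j)) :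
    om a b q = (univ.image (fun j => -(b j : ZMod q) / (a j : ZMod q))).card := by
  classical
  have ha' : ∀ j, (a j : ZMod q) ≠ 0 := fun j h =>
    ha j ((ZMod.intCast_zmod_eq_zero_iff_dvd _ _).1 h)
  unfold om
  refine Finset.card_bij (fun n _ => (n : ZMod q)) ?_ ?_ ?_
  · intro n hn
    rw [Finset.mem_filter] at hn
    obtain ⟨_, j, hj⟩ := hn
    rw [Finset.mem_image]
    refine ⟨j, Finset.mem_univ _, ?_⟩
    have h := (ZMod.intCast_zmod_eq_zero_iff_dvd (a j * n + b j) q).2 hj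
    push_cast at h
    rw [div_eq_iff (ha' j)]
    linear_combination -h
  · intro n hn m hm h
    rw [Finset.mem_filter, Finset.mem_range] at hn hm
    have h2 := (ZMod.natCast_eq_natCast_iff' n m q).1 h
    rwa [Nat.mod_eq_of_lt hn.1, Nat.mod_eq_of_lt hm.1] at h2
  · intro x hx
    rw [Finset.mem_image] at hx
    obtain ⟨j, _, hj⟩ := hx
    refine ⟨x.val, ?_, ?_⟩
    · rw [Finset.mem_filter, Finset.mem_range]
      refine ⟨ZMod.val_lt x, j, ?_⟩
      rw [← ZMod.intCast_zmod_eq_zero_iff_dvd]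
      push_cast
      rw [ZMod.natCast_zmod_val, ← hj]
      field_simp [ha' j]
      ring
    · rw [ZMod.natCast_zmod_val]

theorem root_inj {k : ℕ} (a b : Fin k → ℤ) (q : ℕ) [hq : Fact q.Prime]
    (ha : ∀ j, ¬ ((q : ℤ) ∣ a j)) (i j : Fin k)
    (hd : ¬ ((q : ℤ) ∣ a i * b j - a j * b i)) :
    -(b i : ZMod q) / (a i : ZMod q) ≠ -(b j : ZMod q) / (a j : ZMod q) := by
  have ha' : ∀ j, (a j : ZMod q) ≠ 0 := fun j h =>
    ha j ((ZMod.intCast_zmod_eq_zero_iff_dvd _ _).1 h)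
  intro h
  apply hd
  rw [← ZMod.intCast_zmod_eq_zero_iff_dvd]
  push_cast
  rw [div_eq_div_iff (ha' i) (ha' j)] at h
  linear_combination h

theorem om_le {k : ℕ} (a b : Fin k → ℤ) (q : ℕ) [hq : Fact q.Prime]
    (ha : ∀ j, ¬ ((q : ℤ) ∣ a j)) : om a b q ≤ k := by
  rw [om_eq a b q ha]
  exact Finset.card_image_le.trans (by simp)

theorem om_eq_k {k : ℕ} (a b : Fin k → ℤ) (q : ℕ) [hq : Fact q.Prime]
    (ha : ∀ j, ¬ ((q : ℤ) ∣ a j))
    (hd : ∀ i j, i ≠ j → ¬ ((q : ℤ) ∣ a i * b j - a j * b i)) : om a b q = k := by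
  rw [om_eq a b q ha, Finset.card_image_of_injective]
  · simp
  · intro i j h
    by_contra hij
    exact root_inj a b q ha i j (hd i j hij) h

theorem om_ge {k l : ℕ} (a b : Fin k → ℤ) (q : ℕ) [hq : Fact q.Prime]
    (ha : ∀ j, ¬ ((q : ℤ) ∣ a j)) (e : Fin l → Fin k)
    (hd : ∀ i j, i ≠ j → ¬ ((q : ℤ) ∣ a (e i) * b (e j) - a (e j) * b (e i))) :
    l ≤ om a b q := by
  rw [om_eq a b q ha]
  have h1 : (univ.image (fun i : Fin l => -(b (e i) : ZMod q) / (a (e i) : ZMod q))).card = l := by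
    rw [Finset.card_image_of_injective]
    · simp
    · intro i j h
      by_contra hij
      exact root_inj a b q ha (e i) (e j) (hd i j hij) h
  rw [← h1]
  apply Finset.card_le_card
  intro x hx
  rw [Finset.mem_image] at hx ⊢
  obtain ⟨i, _, hi⟩ := hx
  exact ⟨e i, Finset.mem_univ _, hi⟩

/-! ### the Euler factors -/

theorem factor_bounds (q : ℝ) (hq : 10 ≤ q) (w : ℝ) (h3 : 3 ≤ w) (h5 : w ≤ 5) :
    1 - 16 / q ^ 2 ≤ (1 - 1 / q) * (1 - w / q) / (1 - 3 / q) ^ 2 ∧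
    (1 - 1 / q) * (1 - w / q) / (1 - 3 / q) ^ 2 ≤ 1 + 4 / q ∧
    (w = 5 → (1 - 1 / q) * (1 - w / q) / (1 - 3 / q) ^ 2 ≤ 1) := by
  have hq0 : (0 : ℝ) < q := by linarith
  have hq3 : (0 : ℝ) < q - 3 := by linarith
  have e : (1 - 1 / q) * (1 - w / q) / (1 - 3 / q) ^ 2 = (q - 1) * (q - w) / (q - 3) ^ 2 := by
    have : (1 - 3 / q) = (q - 3) / q := by field_simp
    rw [this]
    field_simp
  rw [e]
  refine ⟨?_, ?_, ?_⟩
  · rw [le_div_iff₀ (by positivity)]
    have h1 : (q - 3) ^ 2 - 4 ≤ (q - 1) * (q - w) := by nlinarith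
    refine le_trans ?_ h1
    have h2 : (1 - 16 / q ^ 2) * (q - 3) ^ 2 = (q - 3) ^ 2 - 16 * (q - 3) ^ 2 / q ^ 2 := by
      field_simp
    rw [h2]
    have h3 : 4 ≤ 16 * (q - 3) ^ 2 / q ^ 2 := by
      rw [le_div_iff₀ (by positivity)]
      nlinarith
    linarith
  · rw [div_le_iff₀ (by positivity)]
    have h1 : (q - 1) * (q - w) ≤ (q - 1) * (q - 3) := by nlinarith
    refine le_trans h1 ?_
    have h2 : (1 + 4 / q) * (q - 3) ^ 2 = (q + 4) * (q - 3) ^ 2 / q := by field_simp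
    rw [h2, le_div_iff₀ hq0]
    have : (q - 1) * q ≤ (q + 4) * (q - 3) := by nlinarith
    nlinarith
  · intro hw
    subst hw
    rw [div_le_one (by positivity)]
    nlinarith

/-! ### the correlation constant -/

/-- the three linear forms which detect coincidences of roots -/
def ell (γ : Fin 2 → ℤ) (p p' : ℤ) : Fin 3 → ℤ :=
  ![p' - p, γ 0 * p' - γ 1 * p, γ 1 * p' - γ 0 * p]

/-- the correlation constant -/
noncomputable def cc (z0 z : ℕ) (γ : Fin 2 → ℤ) (p p' : ℕ) : ℝ :=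
  VV z0 z (![1] : Fin 1 → ℤ) ![0] *
    VV z0 z (![1, (p : ℤ), p, p', p'] : Fin 5 → ℤ) ![0, γ 0, γ 1, γ 0, γ 1] /
      VV z0 z (![1, 1, 1] : Fin 3 → ℤ) ![0, γ 0, γ 1] ^ 2

theorem om_eq_k' {k : ℕ} (a b : Fin k → ℤ) (q : ℕ) [hq : Fact q.Prime]
    (ha : ∀ j, ¬ ((q : ℤ) ∣ a j))
    (hd : ∀ i j, i < j → ¬ ((q : ℤ) ∣ a i * b j - a j * b i)) : om a b q = k := by
  apply om_eq_k a b q ha
  intro i j hij
  rcases lt_or_gt_of_ne hij with h | h
  · exact hd i j h
  · have := hd j i h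
    rwa [← dvd_neg, neg_sub] at this

theorem om_ge' {k l : ℕ} (a b : Fin k → ℤ) (q : ℕ) [hq : Fact q.Prime]
    (ha : ∀ j, ¬ ((q : ℤ) ∣ a j)) (e : Fin l → Fin k)
    (hd : ∀ i j, i < j → ¬ ((q : ℤ) ∣ a (e i) * b (e j) - a (e j) * b (e i))) :
    l ≤ om a b q := by
  apply om_ge a b q ha e
  intro i j hij
  rcases lt_or_gt_of_ne hij with h | h
  · exact hd i j h
  · have := hd j i h
    rwa [← dvd_neg, neg_sub] at this

section prime

variable {R z0 z : ℕ} {γ : Fin 2 → ℤ} (hγ : ∀ j, γ j ≠ 0 ∧ |γ j| ≤ R) (hγ2 : γ 0 ≠ γ 1)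
  (hz0 : 2 * R + 10 ≤ z0) {q : ℕ} (hq : q ∈ PP z0 z)

theorem mem_PP {x y p : ℕ} : p ∈ PP x y ↔ (x < p ∧ p ≤ y) ∧ p.Prime := by
  unfold PP
  rw [Finset.mem_filter, Finset.mem_Ioc]

include hγ hz0 hq in
theorem q_ndvd_g (j : Fin 2) : ¬ ((q : ℤ) ∣ γ j) := by
  intro h
  have h1 := Int.eq_zero_of_abs_lt_dvd h (by
    have h2 := (hγ j).2
    have h3 := (mem_PP.1 hq).1.1
    have : (R : ℤ) < q := by exact_mod_cast (by omega : R < q)
    linarith)
  exact (hγ j).1 h1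

include hγ hγ2 hz0 hq in
theorem q_ndvd_gg : ¬ ((q : ℤ) ∣ γ 1 - γ 0) := by
  intro h
  have h1 := Int.eq_zero_of_abs_lt_dvd h (by
    have h2 := (hγ 0).2
    have h2' := (hγ 1).2
    have h3 := (mem_PP.1 hq).1.1
    have h4 : (2 * R : ℤ) < q := by exact_mod_cast (by omega : 2 * R < q)
    have h5 : |γ 1 - γ 0| ≤ |γ 1| + |γ 0| := abs_sub _ _
    linarith)
  exact hγ2 (by linarith)

include hq in
theorem q_ndvd_p {p : ℕ} (hp : p.Prime) (hzp : z < p) : ¬ ((q : ℤ) ∣ (p : ℤ)) := by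
  intro h
  have h1 : q ∣ p := by exact_mod_cast h
  have h2 := (mem_PP.1 hq)
  rcases (Nat.dvd_prime hp).1 h1 with h3 | h3
  · exact h2.2.one_lt.ne' h3
  · omega

include hq in
theorem om1 : om (![1] : Fin 1 → ℤ) ![0] q = 1 := by
  have : Fact q.Prime := ⟨(mem_PP.1 hq).2⟩
  have hp := (mem_PP.1 hq).2
  apply om_eq_k'
  · intro j
    fin_cases j
    show ¬ ((q : ℤ) ∣ 1)
    intro h
    have : q ∣ 1 := by exact_mod_cast h
    exact hp.one_lt.ne' (Nat.dvd_one.1 this)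
  · intro i j hij
    exact absurd hij (by omega)

include hγ hγ2 hz0 hq in
theorem om3 : om (![1, 1, 1] : Fin 3 → ℤ) ![0, γ 0, γ 1] q = 3 := by
  have : Fact q.Prime := ⟨(mem_PP.1 hq).2⟩
  have hp := (mem_PP.1 hq).2
  have h1 : ¬ ((q : ℤ) ∣ 1) := by
    intro h
    have : q ∣ 1 := by exact_mod_cast h
    exact hp.one_lt.ne' (Nat.dvd_one.1 this)
  have h01 : ¬ ((q : ℤ) ∣ 1 * γ 0 - 1 * 0) := by
    rw [show (1 : ℤ) * γ 0 - 1 * 0 = γ 0 by ring]; exact q_ndvd_g hγ hz0 hq 0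
  have h02 : ¬ ((q : ℤ) ∣ 1 * γ 1 - 1 * 0) := by
    rw [show (1 : ℤ) * γ 1 - 1 * 0 = γ 1 by ring]; exact q_ndvd_g hγ hz0 hq 1
  have h12 : ¬ ((q : ℤ) ∣ 1 * γ 1 - 1 * γ 0) := by
    rw [show (1 : ℤ) * γ 1 - 1 * γ 0 = γ 1 - γ 0 by ring]; exact q_ndvd_gg hγ hγ2 hz0 hq
  apply om_eq_k'
  · intro j
    fin_cases j <;> exact h1
  · intro i j hij
    fin_cases i <;> fin_cases j <;>
      first
        | exact h01
        | exact h02
        | exact h12
        | exact absurd hij (by decide)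

include hγ hγ2 hz0 hq in
theorem om5 {p p' : ℕ} (hp : p.Prime) (hzp : z < p) (hp' : p'.Prime) (hzp' : z < p') :
    3 ≤ om (![1, (p : ℤ), p, p', p'] : Fin 5 → ℤ) ![0, γ 0, γ 1, γ 0, γ 1] q ∧
    om (![1, (p : ℤ), p, p', p'] : Fin 5 → ℤ) ![0, γ 0, γ 1, γ 0, γ 1] q ≤ 5 ∧
    ((¬ ∃ i, (q : ℤ) ∣ ell γ p p' i) →
      om (![1, (p : ℤ), p, p', p'] : Fin 5 → ℤ) ![0, γ 0, γ 1, γ 0, γ 1] q = 5) := by
  have : Fact q.Prime := ⟨(mem_PP.1 hq).2⟩
  have hpq := (mem_PP.1 hq).2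
  have hqi : Prime (q : ℤ) := Nat.prime_iff_prime_int.1 hpq
  have h1 : ¬ ((q : ℤ) ∣ 1) := by
    intro h
    have : q ∣ 1 := by exact_mod_cast h
    exact hpq.one_lt.ne' (Nat.dvd_one.1 this)
  have hpp := q_ndvd_p hq hp hzp
  have hpp' := q_ndvd_p hq hp' hzp'
  have ha : ∀ j, ¬ ((q : ℤ) ∣ (![1, (p : ℤ), p, p', p'] : Fin 5 → ℤ) j) := by
    intro j
    fin_cases j
    · exact h1
    · exact hpp
    · exact hpp
    · exact hpp'
    · exact hpp'
  have hg := q_ndvd_g hγ hz0 hq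
  have hgg := q_ndvd_gg hγ hγ2 hz0 hq
  have h01 : ¬ ((q : ℤ) ∣ 1 * γ 0 - (p : ℤ) * 0) := by
    rw [show (1 : ℤ) * γ 0 - (p : ℤ) * 0 = γ 0 by ring]; exact hg 0
  have h02 : ¬ ((q : ℤ) ∣ 1 * γ 1 - (p : ℤ) * 0) := by
    rw [show (1 : ℤ) * γ 1 - (p : ℤ) * 0 = γ 1 by ring]; exact hg 1
  have h03 : ¬ ((q : ℤ) ∣ 1 * γ 0 - (p' : ℤ) * 0) := by
    rw [show (1 : ℤ) * γ 0 - (p' : ℤ) * 0 = γ 0 by ring]; exact hg 0
  have h04 : ¬ ((q : ℤ) ∣ 1 * γ 1 - (p' : ℤ) * 0) := by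
    rw [show (1 : ℤ) * γ 1 - (p' : ℤ) * 0 = γ 1 by ring]; exact hg 1
  have h12 : ¬ ((q : ℤ) ∣ (p : ℤ) * γ 1 - (p : ℤ) * γ 0) := by
    rw [← mul_sub]
    intro h
    rcases hqi.dvd_or_dvd h with h | h
    · exact hpp h
    · exact hgg h
  have h34 : ¬ ((q : ℤ) ∣ (p' : ℤ) * γ 1 - (p' : ℤ) * γ 0) := by
    rw [← mul_sub]
    intro h
    rcases hqi.dvd_or_dvd h with h | h
    · exact hpp' h
    · exact hgg h
  refine ⟨?_, om_le _ _ q ha, ?_⟩
  · apply om_ge' _ _ q ha (![0, 1, 2] : Fin 3 → Fin 5)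
    intro i j hij
    fin_cases i <;> fin_cases j <;>
      first
        | exact h01
        | exact h02
        | exact h12
        | exact absurd hij (by decide)
  · intro hno
    have hl : ∀ i, ¬ ((q : ℤ) ∣ ell γ p p' i) := fun i hi => hno ⟨i, hi⟩
    have hl0 : ¬ ((q : ℤ) ∣ (p' : ℤ) - p) := hl 0
    have hl1 : ¬ ((q : ℤ) ∣ γ 0 * (p' : ℤ) - γ 1 * p) := hl 1
    have hl2 : ¬ ((q : ℤ) ∣ γ 1 * (p' : ℤ) - γ 0 * p) := hl 2
    have h13 : ¬ ((q : ℤ) ∣ (p : ℤ) * γ 0 - (p' : ℤ) * γ 0) := by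
      rw [show (p : ℤ) * γ 0 - (p' : ℤ) * γ 0 = -(γ 0 * ((p' : ℤ) - p)) by ring, dvd_neg]
      intro h
      rcases hqi.dvd_or_dvd h with h | h
      · exact hg 0 h
      · exact hl0 h
    have h24 : ¬ ((q : ℤ) ∣ (p : ℤ) * γ 1 - (p' : ℤ) * γ 1) := by
      rw [show (p : ℤ) * γ 1 - (p' : ℤ) * γ 1 = -(γ 1 * ((p' : ℤ) - p)) by ring, dvd_neg]
      intro h
      rcases hqi.dvd_or_dvd h with h | h
      · exact hg 1 h
      · exact hl0 h
    have h14 : ¬ ((q : ℤ) ∣ (p : ℤ) * γ 1 - (p' : ℤ) * γ 0) := by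
      rw [show (p : ℤ) * γ 1 - (p' : ℤ) * γ 0 = -(γ 0 * (p' : ℤ) - γ 1 * p) by ring, dvd_neg]
      exact hl1
    have h23 : ¬ ((q : ℤ) ∣ (p : ℤ) * γ 0 - (p' : ℤ) * γ 1) := by
      rw [show (p : ℤ) * γ 0 - (p' : ℤ) * γ 1 = -(γ 1 * (p' : ℤ) - γ 0 * p) by ring, dvd_neg]
      exact hl2
    apply om_eq_k' _ _ q ha
    intro i j hij
    fin_cases i <;> fin_cases j <;>
      first
        | exact h01
        | exact h02
        | exact h03
        | exact h04
        | exact h12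
        | exact h34
        | exact h13
        | exact h24
        | exact h14
        | exact h23
        | exact absurd hij (by decide)

end prime

theorem prod_ge (s : Finset ℕ) (x : ℕ → ℝ) (h : ∀ i ∈ s, 0 ≤ x i ∧ x i ≤ 1) :
    1 - ∑ i ∈ s, x i ≤ ∏ i ∈ s, (1 - x i) := by
  classical
  induction s using Finset.induction with
  | empty => simp
  | insert q s hq ih =>
    rw [Finset.sum_insert hq, Finset.prod_insert hq]
    have h1 := h q (Finset.mem_insert_self q s)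
    have h2 := ih (fun i hi => h i (Finset.mem_insert_of_mem hi))
    have h3 : ∏ i ∈ s, (1 - x i) ≤ 1 := by
      apply Finset.prod_le_one
      · intro i hi
        have := h i (Finset.mem_insert_of_mem hi)
        linarith
      · intro i hi
        have := h i (Finset.mem_insert_of_mem hi)
        linarith
    nlinarith

theorem sum_inv_sq (z0 z : ℕ) (hz0 : 0 < z0) :
    ∑ q ∈ PP z0 z, (1 : ℝ) / (q : ℝ) ^ 2 ≤ 1 / z0 := by
  by_cases h : z0 ≤ z
  · calc ∑ q ∈ PP z0 z, (1 : ℝ) / (q : ℝ) ^ 2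
        ≤ ∑ q ∈ Finset.Ioc z0 z, (1 : ℝ) / (q : ℝ) ^ 2 := by
          apply Finset.sum_le_sum_of_subset_of_nonneg (Finset.filter_subset _ _)
          intro i _ _
          positivity
      _ = ∑ q ∈ Finset.Ioc z0 z, ((q : ℝ) ^ 2)⁻¹ := by simp
      _ ≤ (z0 : ℝ)⁻¹ - (z : ℝ)⁻¹ := sum_Ioc_inv_sq_le_sub hz0.ne' h
      _ ≤ 1 / z0 := by
          have : 0 ≤ (z : ℝ)⁻¹ := by positivity
          rw [one_div]
          linarith
  · have : PP z0 z = ∅ := by
      unfold PP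
      rw [Finset.Ioc_eq_empty (by omega)]
      rfl
    rw [this]
    simp

section cbound

variable {R z0 z : ℕ} {γ : Fin 2 → ℤ} (hγ : ∀ j, γ j ≠ 0 ∧ |γ j| ≤ R) (hγ2 : γ 0 ≠ γ 1)
  (hz0 : 2 * R + 10 ≤ z0)

include hγ hγ2 hz0 in
theorem cc_eq {p p' : ℕ} :
    cc z0 z γ p p' = ∏ q ∈ PP z0 z, ((1 - 1 / (q : ℝ)) *
      (1 - (om (![1, (p : ℤ), p, p', p'] : Fin 5 → ℤ) ![0, γ 0, γ 1, γ 0, γ 1] q : ℝ) / q) /
        (1 - 3 / (q : ℝ)) ^ 2) := by
  unfold cc
  rw [Finset.prod_div_distrib, Finset.prod_mul_distrib, Finset.prod_pow]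
  congr 1
  · congr 1
    unfold VV
    apply Finset.prod_congr rfl
    intro q hq
    rw [om1 hq]
    norm_num
  · congr 1
    unfold VV
    apply Finset.prod_congr rfl
    intro q hq
    rw [om3 hγ hγ2 hz0 hq]
    norm_num

open Classical in
include hγ hγ2 hz0 in
theorem cc_bound {p p' : ℕ} (hp : p ∈ PP z p) (hp' : p' ∈ PP z p') :
    |cc z0 z γ p p' - 1| ≤ 16 / z0 +
      ∑ D ∈ (PP z0 z).powerset.erase ∅,
        if (∀ q ∈ D, ∃ i, (q : ℤ) ∣ ell γ p p' i) then ∏ q ∈ D, (4 / (q : ℝ)) else 0 := by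
  obtain ⟨⟨hzp, _⟩, hpp⟩ := mem_PP.1 hp
  obtain ⟨⟨hzp', _⟩, hpp'⟩ := mem_PP.1 hp'
  have hz00 : 0 < z0 := by omega
  have hz00' : (0 : ℝ) < z0 := by exact_mod_cast hz00
  rw [cc_eq hγ hγ2 hz0]
  set t : ℕ → ℝ := fun q => ((1 - 1 / (q : ℝ)) *
      (1 - (om (![1, (p : ℤ), p, p', p'] : Fin 5 → ℤ) ![0, γ 0, γ 1, γ 0, γ 1] q : ℝ) / q) /
        (1 - 3 / (q : ℝ)) ^ 2) with ht
  have hq10 : ∀ q ∈ PP z0 z, (10 : ℝ) ≤ q := by
    intro q hq
    have := (mem_PP.1 hq).1.1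
    exact_mod_cast (by omega : 10 ≤ q)
  have hfb : ∀ q ∈ PP z0 z, 1 - 16 / (q : ℝ) ^ 2 ≤ t q ∧ t q ≤ 1 + 4 / (q : ℝ) ∧
      ((¬ ∃ i, (q : ℤ) ∣ ell γ p p' i) → t q ≤ 1) := by
    intro q hq
    have h5 := om5 hγ hγ2 hz0 hq hpp hzp hpp' hzp'
    have hb := factor_bounds q (hq10 q hq)
      (om (![1, (p : ℤ), p, p', p'] : Fin 5 → ℤ) ![0, γ 0, γ 1, γ 0, γ 1] q : ℝ)
      (by exact_mod_cast h5.1) (by exact_mod_cast h5.2.1)
    refine ⟨hb.1, hb.2.1, fun h => hb.2.2 ?_⟩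
    exact_mod_cast h5.2.2 h
  have hlow : 1 - 16 / (z0 : ℝ) ≤ ∏ q ∈ PP z0 z, t q := by
    calc 1 - 16 / (z0 : ℝ) ≤ 1 - ∑ q ∈ PP z0 z, 16 / (q : ℝ) ^ 2 := by
          have h1 := sum_inv_sq z0 z hz00
          have h2 : ∑ q ∈ PP z0 z, 16 / (q : ℝ) ^ 2 = 16 * ∑ q ∈ PP z0 z, 1 / (q : ℝ) ^ 2 := by
            rw [Finset.mul_sum]
            apply Finset.sum_congr rfl
            intro q _
            ring
          rw [h2]
          have h3 : 16 / (z0 : ℝ) = 16 * (1 / z0) := by ring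
          rw [h3]
          linarith
      _ ≤ ∏ q ∈ PP z0 z, (1 - 16 / (q : ℝ) ^ 2) := by
          apply prod_ge
          intro q hq
          have := hq10 q hq
          refine ⟨by positivity, ?_⟩
          rw [div_le_one (by positivity)]
          nlinarith
      _ ≤ ∏ q ∈ PP z0 z, t q := by
          apply Finset.prod_le_prod
          · intro q hq
            have := hq10 q hq
            have h : 16 / (q : ℝ) ^ 2 ≤ 1 := by
              rw [div_le_one (by positivity)]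
              nlinarith
            linarith
          · intro q hq
            exact (hfb q hq).1
  have hup : ∏ q ∈ PP z0 z, t q ≤ 1 + ∑ D ∈ (PP z0 z).powerset.erase ∅,
        if (∀ q ∈ D, ∃ i, (q : ℤ) ∣ ell γ p p' i) then ∏ q ∈ D, (4 / (q : ℝ)) else 0 := by
    calc ∏ q ∈ PP z0 z, t q
        ≤ ∏ q ∈ PP z0 z, (1 + if (∃ i, (q : ℤ) ∣ ell γ p p' i) then 4 / (q : ℝ) else 0) := by
          apply Finset.prod_le_prod
          · intro q hq
            have := hq10 q hq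
            have h : 16 / (q : ℝ) ^ 2 ≤ 1 := by
              rw [div_le_one (by positivity)]
              nlinarith
            linarith [(hfb q hq).1]
          · intro q hq
            split_ifs with h
            · exact (hfb q hq).2.1
            · have := (hfb q hq).2.2 h
              linarith
      _ = ∑ D ∈ (PP z0 z).powerset, ∏ q ∈ D,
            (if (∃ i, (q : ℤ) ∣ ell γ p p' i) then 4 / (q : ℝ) else 0) := by
          rw [Finset.prod_one_add]
      _ = 1 + ∑ D ∈ (PP z0 z).powerset.erase ∅, ∏ q ∈ D,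
            (if (∃ i, (q : ℤ) ∣ ell γ p p' i) then 4 / (q : ℝ) else 0) := by
          rw [← Finset.add_sum_erase _ _ (Finset.empty_mem_powerset (PP z0 z))]
          simp
      _ = 1 + ∑ D ∈ (PP z0 z).powerset.erase ∅,
        if (∀ q ∈ D, ∃ i, (q : ℤ) ∣ ell γ p p' i) then ∏ q ∈ D, (4 / (q : ℝ)) else 0 := by
          congr 1
          apply Finset.sum_congr rfl
          intro D _
          split_ifs with h
          · apply Finset.prod_congr rfl
            intro q hq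
            rw [if_pos (h q hq)]
          · push Not at h
            obtain ⟨q, hq, hq2⟩ := h
            apply Finset.prod_eq_zero hq
            rw [if_neg]
            rintro ⟨i, hi⟩
            exact hq2 i hi
  have hs0 : 0 ≤ ∑ D ∈ (PP z0 z).powerset.erase ∅,
        if (∀ q ∈ D, ∃ i, (q : ℤ) ∣ ell γ p p' i) then ∏ q ∈ D, (4 / (q : ℝ)) else 0 := by
    apply Finset.sum_nonneg
    intro D _
    split_ifs
    · apply Finset.prod_nonneg
      intro q _
      positivity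
    · exact le_refl _
  have h16 : 0 ≤ 16 / (z0 : ℝ) := by positivity
  rw [abs_le]
  constructor <;> linarith

end cbound

/-! ### counting pairs of primes -/

open Classical in
theorem card_cover {R z0 z : ℕ} {γ : Fin 2 → ℤ} (hγ : ∀ j, γ j ≠ 0 ∧ |γ j| ≤ R)
    (hz0 : 2 * R + 10 ≤ z0) (D : Finset ℕ) (hD : D ⊆ PP z0 z) (S : Finset ℕ) (p : ℕ) (M : ℝ)
    (hM0 : 0 ≤ M)
    (hM : ∀ c : ℤ, ((S.filter (fun n : ℕ => ((∏ q ∈ D, q : ℕ) : ℤ) ∣ (n : ℤ) - c)).card : ℝ) ≤ M) :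
    ((S.filter (fun p' : ℕ => ∀ q ∈ D, ∃ i, (q : ℤ) ∣ ell γ p p' i)).card : ℝ) ≤
      3 ^ D.card * M := by
  set F : ({x // x ∈ D} → Fin 3) → Finset ℕ := fun φ =>
    S.filter (fun p' : ℕ => ∀ q : {x // x ∈ D}, ((q : ℕ) : ℤ) ∣ ell γ p p' (φ q)) with hF
  have hcov : S.filter (fun p' : ℕ => ∀ q ∈ D, ∃ i, (q : ℤ) ∣ ell γ p p' i) ⊆
      Finset.univ.biUnion F := by
    intro n hn
    rw [Finset.mem_filter] at hn
    have h1 : ∀ q : {x // x ∈ D}, ∃ i, ((q : ℕ) : ℤ) ∣ ell γ p n i := fun q => hn.2 q q.2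
    choose φ hφ using h1
    rw [Finset.mem_biUnion]
    refine ⟨φ, Finset.mem_univ _, ?_⟩
    rw [hF, Finset.mem_filter]
    exact ⟨hn.1, hφ⟩
  have hFM : ∀ φ, ((F φ).card : ℝ) ≤ M := by
    intro φ
    by_cases hne : (F φ).Nonempty
    · obtain ⟨n0, hn0⟩ := hne
      refine le_trans ?_ (hM n0)
      have hsub : F φ ⊆ S.filter (fun n : ℕ => ((∏ q ∈ D, q : ℕ) : ℤ) ∣ (n : ℤ) - n0) := by
        intro n hn
        rw [hF, Finset.mem_filter] at hn hn0
        rw [Finset.mem_filter]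
        refine ⟨hn.1, ?_⟩
        rw [Int.natCast_dvd]
        apply Finset.prod_primes_dvd
        · intro q hq
          exact (mem_PP.1 (hD hq)).2.prime
        · intro q hq
          rw [← Int.natCast_dvd]
          have hq' := hD hq
          have hqp := (mem_PP.1 hq').2
          have hqi : Prime (q : ℤ) := Nat.prime_iff_prime_int.1 hqp
          have h1 := hn.2 ⟨q, hq⟩
          have h2 := hn0.2 ⟨q, hq⟩
          have h3 := dvd_sub h1 h2
          have hg := q_ndvd_g hγ hz0 hq'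
          generalize φ ⟨q, hq⟩ = i at h3
          fin_cases i
          · have h4 : (q : ℤ) ∣ ((n : ℤ) - p) - ((n0 : ℤ) - p) := h3
            rw [show ((n : ℤ) - p) - ((n0 : ℤ) - p) = (n : ℤ) - n0 by ring] at h4
            exact h4
          · have h4 : (q : ℤ) ∣ (γ 0 * (n : ℤ) - γ 1 * p) - (γ 0 * (n0 : ℤ) - γ 1 * p) := h3
            rw [show (γ 0 * (n : ℤ) - γ 1 * p) - (γ 0 * (n0 : ℤ) - γ 1 * p) =
              γ 0 * ((n : ℤ) - n0) by ring] at h4
            rcases hqi.dvd_or_dvd h4 with h5 | h5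
            · exact absurd h5 (hg 0)
            · exact h5
          · have h4 : (q : ℤ) ∣ (γ 1 * (n : ℤ) - γ 0 * p) - (γ 1 * (n0 : ℤ) - γ 0 * p) := h3
            rw [show (γ 1 * (n : ℤ) - γ 0 * p) - (γ 1 * (n0 : ℤ) - γ 0 * p) =
              γ 1 * ((n : ℤ) - n0) by ring] at h4
            rcases hqi.dvd_or_dvd h4 with h5 | h5
            · exact absurd h5 (hg 1)
            · exact h5
      exact_mod_cast Finset.card_le_card hsub
    · rw [Finset.not_nonempty_iff_eq_empty.1 hne]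
      simpa using hM0
  calc ((S.filter (fun p' : ℕ => ∀ q ∈ D, ∃ i, (q : ℤ) ∣ ell γ p p' i)).card : ℝ)
      ≤ ((Finset.univ.biUnion F).card : ℝ) := by exact_mod_cast Finset.card_le_card hcov
    _ ≤ ∑ φ, ((F φ).card : ℝ) := by exact_mod_cast Finset.card_biUnion_le
    _ ≤ ∑ _φ : ({x // x ∈ D} → Fin 3), M := Finset.sum_le_sum (fun φ _ => hFM φ)
    _ = 3 ^ D.card * M := by
        rw [Finset.sum_const, nsmul_eq_mul, Finset.card_univ, Fintype.card_fun,
          Fintype.card_fin, Fintype.card_coe]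
        push_cast
        rfl

theorem card_triv (S : Finset ℕ) (y : ℕ) (hS : ∀ n ∈ S, 0 < n ∧ n ≤ y) (d : ℕ) (hd : 0 < d)
    (c : ℤ) :
    ((S.filter (fun n : ℕ => (d : ℤ) ∣ (n : ℤ) - c)).card : ℝ) ≤ (y : ℝ) / d + 1 := by
  have hd' : (0 : ℤ) < d := by exact_mod_cast hd
  have h1 : (S.filter (fun n : ℕ => (d : ℤ) ∣ (n : ℤ) - c)).card ≤
      ((Finset.Ioc (0 : ℤ) y).filter (fun x => x ≡ c [ZMOD d])).card := by
    apply Finset.card_le_card_of_injOn (fun n : ℕ => (n : ℤ))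
    · intro n hn
      rw [Finset.mem_coe, Finset.mem_filter] at hn
      rw [Finset.mem_coe, Finset.mem_filter, Finset.mem_Ioc]
      have := hS n hn.1
      refine ⟨⟨Int.natCast_pos.2 this.1, Int.ofNat_le.2 this.2⟩, ?_⟩
      exact (Int.modEq_iff_dvd.2 hn.2).symm
    · intro a _ b _ h
      exact Int.natCast_inj.1 h
  have h2 := Int.Ioc_filter_modEq_card (0 : ℤ) (y : ℤ) hd' c
  have h3 : (((S.filter (fun n : ℕ => (d : ℤ) ∣ (n : ℤ) - c)).card : ℤ) : ℝ) ≤
      ((max (⌊(((y : ℤ) : ℚ) - (c : ℚ)) / ((d : ℤ) : ℚ)⌋ -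
        ⌊(((0 : ℤ) : ℚ) - (c : ℚ)) / ((d : ℤ) : ℚ)⌋) 0 : ℤ) : ℝ) := by
    rw [← h2]
    exact_mod_cast h1
  have hdq : (0 : ℚ) < (d : ℚ) := by exact_mod_cast hd
  have h4 : (((max (⌊(((y : ℤ) : ℚ) - (c : ℚ)) / ((d : ℤ) : ℚ)⌋ -
        ⌊(((0 : ℤ) : ℚ) - (c : ℚ)) / ((d : ℤ) : ℚ)⌋) 0 : ℤ) : ℚ)) ≤ (y : ℚ) / d + 1 := by
    have h5 := Int.floor_le ((((y : ℤ) : ℚ) - (c : ℚ)) / ((d : ℤ) : ℚ))
    have h6 := Int.lt_floor_add_one ((((0 : ℤ) : ℚ) - (c : ℚ)) / ((d : ℤ) : ℚ))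
    push_cast at h5 h6 ⊢
    apply max_le
    · have : ((y : ℚ) - c) / d = y / d + (0 - c) / d := by ring
      linarith
    · positivity
  have h5 : ((((max (⌊(((y : ℤ) : ℚ) - (c : ℚ)) / ((d : ℤ) : ℚ)⌋ -
        ⌊(((0 : ℤ) : ℚ) - (c : ℚ)) / ((d : ℤ) : ℚ)⌋) 0 : ℤ) : ℚ)) : ℝ) ≤
        (((y : ℚ) / d + 1 : ℚ) : ℝ) := by exact_mod_cast h4
  push_cast at h3 h5
  exact le_trans h3 (by exact_mod_cast h5)

section sieve

variable {z0 z : ℕ}

theorem V_eq : VV z0 z (![1] : Fin 1 → ℤ) ![0] = ∏ q ∈ PP z0 z, (1 - 1 / (q : ℝ)) := by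
  unfold VV
  apply Finset.prod_congr rfl
  intro q hq
  rw [om1 hq]
  norm_num

theorem V_pos : 0 < VV z0 z (![1] : Fin 1 → ℤ) ![0] := by
  rw [V_eq]
  apply Finset.prod_pos
  intro q hq
  have h1 := (mem_PP.1 hq).2.two_le
  have h2 : (2 : ℝ) ≤ q := by exact_mod_cast h1
  have : 1 / (q : ℝ) < 1 := by
    rw [div_lt_one (by linarith)]
    linarith
  linarith

theorem nu_nonneg (n : ℤ) : 0 ≤ nu z0 z (![1] : Fin 1 → ℤ) ![0] n := by
  unfold nu
  split_ifs
  · exact inv_nonneg.2 V_pos.le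
  · exact le_refl _

theorem nu_prime {p : ℕ} (hp : p.Prime) (hzp : z < p) :
    nu z0 z (![1] : Fin 1 → ℤ) ![0] (p : ℤ) = (VV z0 z (![1] : Fin 1 → ℤ) ![0])⁻¹ := by
  unfold nu
  rw [if_pos]
  intro j q hq
  fin_cases j
  show ¬ ((q : ℤ) ∣ 1 * (p : ℤ) + 0)
  rw [one_mul, add_zero]
  exact q_ndvd_p hq hp hzp

theorem card_sieve (y : ℕ) (D : Finset ℕ) (c : ℤ) (K : ℝ)
    (h : (∑ n ∈ (Finset.Ioc (0 : ℤ) (0 + (y : ℤ))).filter
      (fun n : ℤ => ((∏ q ∈ D, q : ℕ) : ℤ) ∣ n - c),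
        nu z0 z (![1] : Fin 1 → ℤ) ![0] n) ≤ K) :
    (((PP z y).filter (fun n : ℕ => ((∏ q ∈ D, q : ℕ) : ℤ) ∣ (n : ℤ) - c)).card : ℝ) ≤
      VV z0 z (![1] : Fin 1 → ℤ) ![0] * K := by
  classical
  have hV := V_pos (z0 := z0) (z := z)
  have h1 : (((PP z y).filter (fun n : ℕ => ((∏ q ∈ D, q : ℕ) : ℤ) ∣ (n : ℤ) - c)).card : ℝ) *
      (VV z0 z (![1] : Fin 1 → ℤ) ![0])⁻¹ ≤ K := by
    refine le_trans ?_ h
    calc (((PP z y).filter (fun n : ℕ => ((∏ q ∈ D, q : ℕ) : ℤ) ∣ (n : ℤ) - c)).card : ℝ) *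
          (VV z0 z (![1] : Fin 1 → ℤ) ![0])⁻¹
        = ∑ n ∈ (PP z y).filter (fun n : ℕ => ((∏ q ∈ D, q : ℕ) : ℤ) ∣ (n : ℤ) - c),
          nu z0 z (![1] : Fin 1 → ℤ) ![0] (n : ℤ) := by
          rw [Finset.sum_congr rfl (fun n hn => nu_prime (z0 := z0)
            (mem_PP.1 (Finset.mem_filter.1 hn).1).2 (mem_PP.1 (Finset.mem_filter.1 hn).1).1.1),
            Finset.sum_const, nsmul_eq_mul]
      _ = ∑ n ∈ ((PP z y).filter
            (fun n : ℕ => ((∏ q ∈ D, q : ℕ) : ℤ) ∣ (n : ℤ) - c)).image (fun n : ℕ => (n : ℤ)),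
          nu z0 z (![1] : Fin 1 → ℤ) ![0] n := by
          rw [Finset.sum_image]
          intro a _ b _ h
          exact Int.natCast_inj.1 h
      _ ≤ _ := by
          apply Finset.sum_le_sum_of_subset_of_nonneg
          · intro n hn
            rw [Finset.mem_image] at hn
            obtain ⟨m, hm, rfl⟩ := hn
            rw [Finset.mem_filter] at hm
            have h2 := mem_PP.1 hm.1
            rw [Finset.mem_filter, Finset.mem_Ioc]
            refine ⟨⟨by exact_mod_cast h2.2.pos, ?_⟩, hm.2⟩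
            rw [zero_add]
            exact_mod_cast h2.1.2
          · intro n _ _
            exact nu_nonneg n
  rw [← div_eq_mul_inv, div_le_iff₀ hV] at h1
  linarith

end sieve

/-! ### elementary sums -/

theorem sum_sqrt_aux (N : ℕ) (hN : 1 ≤ N) :
    ∑ n ∈ Finset.Ioc 0 N, 1 / ((n : ℝ) * √n) ≤ 3 - 2 / √N := by
  induction N, hN using Nat.le_induction with
  | base => norm_num
  | succ N hN ih =>
    rw [Finset.sum_Ioc_succ_top (by omega)]
    have hN' : (1 : ℝ) ≤ N := by exact_mod_cast hN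
    set u := √(N : ℝ) with hu
    set w := √((N + 1 : ℕ) : ℝ) with hw
    have hu2 : u ^ 2 = N := Real.sq_sqrt (by linarith)
    have hw2 : w ^ 2 = N + 1 := by
      rw [hw, Real.sq_sqrt (by positivity)]
      push_cast
      ring
    have hu0 : 0 < u := Real.sqrt_pos.2 (by linarith)
    have hw0 : 0 < w := Real.sqrt_pos.2 (by positivity)
    have huw : u ≤ w := by
      apply Real.sqrt_le_sqrt
      push_cast
      linarith
    have h1 : (w - u) * (w + u) = 1 := by linear_combination hw2 - hu2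
    have h2 : u ≤ 2 * w ^ 2 * (w - u) := by
      by_contra hcon
      push Not at hcon
      have h3 : 2 * w ^ 2 * (w - u) * (w + u) < u * (w + u) :=
        mul_lt_mul_of_pos_right hcon (by linarith)
      have h4 : 2 * w ^ 2 * (w - u) * (w + u) = 2 * w ^ 2 := by
        rw [mul_assoc, h1, mul_one]
      rw [h4] at h3
      nlinarith
    have h3 : 1 / (w ^ 2 * w) ≤ 2 / u - 2 / w := by
      rw [div_sub_div _ _ hu0.ne' hw0.ne', div_le_div_iff₀ (by positivity) (by positivity)]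
      nlinarith
    have h4 : ((N + 1 : ℕ) : ℝ) = w ^ 2 := by rw [hw2]; push_cast; ring
    rw [h4] at *
    linarith

theorem sum_sqrt (z0 z : ℕ) : ∑ q ∈ PP z0 z, 1 / ((q : ℝ) * √q) ≤ 3 := by
  have h0 : ∑ q ∈ PP z0 z, 1 / ((q : ℝ) * √q) ≤
      ∑ n ∈ Finset.Ioc 0 (z + 1), 1 / ((n : ℝ) * √n) := by
    apply Finset.sum_le_sum_of_subset_of_nonneg
    · intro q hq
      have := mem_PP.1 hq
      rw [Finset.mem_Ioc]
      omega
    · intro i _ _
      positivity
  have h1 := sum_sqrt_aux (z + 1) (by omega)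
  have h2 : 0 ≤ 2 / √((z + 1 : ℕ) : ℝ) := by positivity
  linarith

theorem sum_inv (z0 z : ℕ) : ∑ q ∈ PP z0 z, 1 / (q : ℝ) ≤ 1 + Real.log z := by
  have h0 : ∑ q ∈ PP z0 z, 1 / (q : ℝ) ≤ ∑ n ∈ Finset.Icc 1 z, 1 / (n : ℝ) := by
    apply Finset.sum_le_sum_of_subset_of_nonneg
    · intro q hq
      have := mem_PP.1 hq
      rw [Finset.mem_Icc]
      omega
    · intro i _ _
      positivity
  refine h0.trans ?_
  have h1 := harmonic_le_one_add_log z
  rw [harmonic_eq_sum_Icc] at h1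
  push_cast at h1
  simpa using h1

theorem sum_prod_le (P : Finset ℕ) (x : ℕ → ℝ) (hx : ∀ q ∈ P, 0 ≤ x q) (K : ℝ)
    (hK : ∑ q ∈ P, x q ≤ K) : ∑ D ∈ P.powerset, ∏ q ∈ D, x q ≤ Real.exp K := by
  rw [← Finset.prod_one_add]
  calc ∏ q ∈ P, (1 + x q) ≤ ∏ q ∈ P, Real.exp (x q) := by
        apply Finset.prod_le_prod
        · intro q hq
          linarith [hx q hq]
        · intro q _
          rw [add_comm]
          exact Real.add_one_le_exp _
    _ = Real.exp (∑ q ∈ P, x q) := (Real.exp_sum _ _).symm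
    _ ≤ Real.exp K := Real.exp_le_exp.2 hK

theorem exp_sub_one_le (x : ℝ) (h0 : 0 ≤ x) (h1 : x ≤ 1) : Real.exp x - 1 ≤ 2 * x := by
  have h := Real.abs_exp_sub_one_le (x := x) (by rw [abs_of_nonneg h0]; exact h1)
  rw [abs_of_nonneg h0] at h
  exact (le_abs_self _).trans h

/-! ### the main bound -/

theorem main_bound {R z0 z : ℕ} {γ : Fin 2 → ℤ} (hγ : ∀ j, γ j ≠ 0 ∧ |γ j| ≤ R)
    (hγ2 : γ 0 ≠ γ 1) (hz0 : 2 * R + 24 ≤ z0) (hz : 1 ≤ z) (y : ℕ) (Y : ℝ)
    (hs : ∀ D, D ⊆ PP z0 z → ∏ q ∈ D, q ≤ z → ∀ c : ℤ,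
      (((PP z y).filter (fun n : ℕ => ((∏ q ∈ D, q : ℕ) : ℤ) ∣ (n : ℤ) - c)).card : ℝ) ≤
        Y * ∏ q ∈ D, (1 / ((q : ℝ) - 1))) :
    ∑ p ∈ PP z y, ∑ p' ∈ (PP z y).erase p, |cc z0 z γ p p' - 1| ≤
      Y ^ 2 * (64 / z0) + (y : ℝ) ^ 2 / √z * Real.exp 36 +
        y * Real.exp (12 * (1 + Real.log z)) := by
  classical
  have hz0' : 2 * R + 10 ≤ z0 := by omega
  have hz00 : (24 : ℝ) ≤ z0 := by exact_mod_cast (by omega : 24 ≤ z0)
  have hzr : (1 : ℝ) ≤ z := by exact_mod_cast hz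
  have hsz : 0 < √(z : ℝ) := Real.sqrt_pos.2 (by linarith)
  have hPY : ((PP z y).card : ℝ) ≤ Y := by
    have h := hs ∅ (Finset.empty_subset _) (by simpa using hz) 0
    simpa using h
  have hY0 : 0 ≤ Y := le_trans (by positivity) hPY
  have hPy : ((PP z y).card : ℝ) ≤ y := by
    have h1 : (PP z y).card ≤ y := by
      unfold PP
      calc _ ≤ (Finset.Ioc z y).card := Finset.card_filter_le _ _
        _ = y - z := Nat.card_Ioc z y
        _ ≤ y := Nat.sub_le _ _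
    exact_mod_cast h1
  have hq24 : ∀ q ∈ PP z0 z, (24 : ℝ) ≤ q := by
    intro q hq
    have := (mem_PP.1 hq).1.1
    exact_mod_cast (by omega : 24 ≤ q)
  set B : Finset ℕ → ℝ := fun D => Y ^ 2 * ∏ q ∈ D, (24 / (q : ℝ) ^ 2) +
    (y : ℝ) ^ 2 / √z * ∏ q ∈ D, (12 / ((q : ℝ) * √q)) + y * ∏ q ∈ D, (12 / (q : ℝ)) with hB
  have hTD : ∀ D ∈ (PP z0 z).powerset.erase ∅, ∑ p ∈ PP z y,
      (((PP z y).filter (fun p' : ℕ => ∀ q ∈ D, ∃ i, (q : ℤ) ∣ ell γ p p' i)).card : ℝ) *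
        ∏ q ∈ D, (4 / (q : ℝ)) ≤ B D := by
    intro D hD
    have hDs : D ⊆ PP z0 z := Finset.mem_powerset.1 (Finset.mem_erase.1 hD).2
    have hqD : ∀ q ∈ D, (24 : ℝ) ≤ q := fun q hq => hq24 q (hDs hq)
    have hA1 : 0 ≤ ∏ q ∈ D, (24 / (q : ℝ) ^ 2) := Finset.prod_nonneg fun q _ => by positivity
    have hA2 : 0 ≤ ∏ q ∈ D, (12 / ((q : ℝ) * √q)) := Finset.prod_nonneg fun q _ => by positivity
    have hA3 : 0 ≤ ∏ q ∈ D, (12 / (q : ℝ)) := Finset.prod_nonneg fun q _ => by positivity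
    have hA4 : 0 ≤ ∏ q ∈ D, (4 / (q : ℝ)) := Finset.prod_nonneg fun q _ => by positivity
    by_cases hDz : ∏ q ∈ D, q ≤ z
    · have hM0 : 0 ≤ Y * ∏ q ∈ D, (1 / ((q : ℝ) - 1)) := by
        apply mul_nonneg hY0
        apply Finset.prod_nonneg
        intro q hq
        have := hqD q hq
        apply div_nonneg (by norm_num)
        linarith
      have h1 : ∀ p ∈ PP z y,
          (((PP z y).filter (fun p' : ℕ => ∀ q ∈ D, ∃ i, (q : ℤ) ∣ ell γ p p' i)).card : ℝ) *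
            ∏ q ∈ D, (4 / (q : ℝ)) ≤ Y * ∏ q ∈ D, (24 / (q : ℝ) ^ 2) := by
        intro p _
        have h2 := card_cover hγ hz0' D hDs (PP z y) p _ hM0 (hs D hDs hDz)
        calc _ ≤ (3 ^ D.card * (Y * ∏ q ∈ D, (1 / ((q : ℝ) - 1)))) * ∏ q ∈ D, (4 / (q : ℝ)) :=
              mul_le_mul_of_nonneg_right h2 hA4
          _ = Y * ∏ q ∈ D, (3 * (1 / ((q : ℝ) - 1)) * (4 / (q : ℝ))) := by
              rw [Finset.prod_mul_distrib, Finset.prod_mul_distrib, Finset.prod_const]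
              ring
          _ ≤ Y * ∏ q ∈ D, (24 / (q : ℝ) ^ 2) := by
              apply mul_le_mul_of_nonneg_left _ hY0
              apply Finset.prod_le_prod
              · intro q hq
                have := hqD q hq
                have h3 : 0 < (q : ℝ) - 1 := by linarith
                positivity
              · intro q hq
                have := hqD q hq
                have h3 : 0 < (q : ℝ) - 1 := by linarith
                have h4 : 0 < (q : ℝ) := by linarith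
                rw [show 3 * (1 / ((q : ℝ) - 1)) * (4 / (q : ℝ)) = 12 / (((q : ℝ) - 1) * q) by
                  field_simp; norm_num]
                rw [div_le_div_iff₀ (by positivity) (by positivity)]
                nlinarith
      calc _ ≤ ∑ _p ∈ PP z y, Y * ∏ q ∈ D, (24 / (q : ℝ) ^ 2) := Finset.sum_le_sum h1
        _ = (PP z y).card * (Y * ∏ q ∈ D, (24 / (q : ℝ) ^ 2)) := by
            rw [Finset.sum_const, nsmul_eq_mul]
        _ ≤ Y * (Y * ∏ q ∈ D, (24 / (q : ℝ) ^ 2)) :=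
            mul_le_mul_of_nonneg_right hPY (by positivity)
        _ = Y ^ 2 * ∏ q ∈ D, (24 / (q : ℝ) ^ 2) := by ring
        _ ≤ B D := by
            rw [hB]
            have h5 : 0 ≤ (y : ℝ) ^ 2 / √z * ∏ q ∈ D, (12 / ((q : ℝ) * √q)) := by positivity
            have h6 : 0 ≤ (y : ℝ) * ∏ q ∈ D, (12 / (q : ℝ)) := by positivity
            simp only
            linarith
    · push Not at hDz
      have hd0 : 0 < ∏ q ∈ D, q := by omega
      have hd0' : (0 : ℝ) < ((∏ q ∈ D, q : ℕ) : ℝ) := by exact_mod_cast hd0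
      have hM : ∀ c : ℤ, (((PP z y).filter
          (fun n : ℕ => ((∏ q ∈ D, q : ℕ) : ℤ) ∣ (n : ℤ) - c)).card : ℝ) ≤
          (y : ℝ) / ((∏ q ∈ D, q : ℕ) : ℝ) + 1 := by
        intro c
        apply card_triv (PP z y) y _ _ hd0
        intro n hn
        have := mem_PP.1 hn
        exact ⟨this.2.pos, this.1.2⟩
      have h1 : ∀ p ∈ PP z y,
          (((PP z y).filter (fun p' : ℕ => ∀ q ∈ D, ∃ i, (q : ℤ) ∣ ell γ p p' i)).card : ℝ) *
            ∏ q ∈ D, (4 / (q : ℝ)) ≤ y * ∏ q ∈ D, (12 / (q : ℝ) ^ 2) +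
              ∏ q ∈ D, (12 / (q : ℝ)) := by
        intro p _
        have h2 := card_cover hγ hz0' D hDs (PP z y) p _ (by positivity) hM
        calc _ ≤ (3 ^ D.card * ((y : ℝ) / ((∏ q ∈ D, q : ℕ) : ℝ) + 1)) *
                ∏ q ∈ D, (4 / (q : ℝ)) := mul_le_mul_of_nonneg_right h2 hA4
          _ = y * ((∏ q ∈ D, (3 * (4 / (q : ℝ)))) * (∏ q ∈ D, (q : ℝ))⁻¹) +
              ∏ q ∈ D, (3 * (4 / (q : ℝ))) := by
              rw [Finset.prod_mul_distrib, Finset.prod_const]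
              push_cast
              ring
          _ = _ := by
              rw [← Finset.prod_inv_distrib, ← Finset.prod_mul_distrib]
              congr 1
              · congr 1
                apply Finset.prod_congr rfl
                intro q hq
                have := hqD q hq
                have h4 : (q : ℝ) ≠ 0 := by linarith
                field_simp
                norm_num
              · apply Finset.prod_congr rfl
                intro q hq
                ring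
      have hsq : ∏ q ∈ D, (12 / (q : ℝ) ^ 2) ≤ 1 / √z * ∏ q ∈ D, (12 / ((q : ℝ) * √q)) := by
        have h2 : ∏ q ∈ D, (12 / (q : ℝ) ^ 2) =
            (∏ q ∈ D, √(q : ℝ))⁻¹ * ∏ q ∈ D, (12 / ((q : ℝ) * √q)) := by
          rw [← Finset.prod_inv_distrib, ← Finset.prod_mul_distrib]
          apply Finset.prod_congr rfl
          intro q hq
          have := hqD q hq
          have h4 : (q : ℝ) ≠ 0 := by linarith
          have h5 : √(q : ℝ) ≠ 0 := (Real.sqrt_pos.2 (by linarith)).ne'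
          have h6 : √(q : ℝ) * √(q : ℝ) = q := Real.mul_self_sqrt (by linarith)
          rw [eq_comm, ← div_eq_inv_mul, div_div, mul_assoc, h6, sq]
        rw [h2]
        apply mul_le_mul_of_nonneg_right _ hA2
        rw [one_div]
        apply inv_anti₀ hsz
        rw [Real.sqrt_le_iff]
        refine ⟨Finset.prod_nonneg fun q _ => Real.sqrt_nonneg _, ?_⟩
        rw [← Finset.prod_pow]
        have h3 : ∏ q ∈ D, √(q : ℝ) ^ 2 = ((∏ q ∈ D, q : ℕ) : ℝ) := by
          push_cast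
          apply Finset.prod_congr rfl
          intro q _
          exact Real.sq_sqrt (by positivity)
        rw [h3]
        exact_mod_cast hDz.le
      calc _ ≤ ∑ _p ∈ PP z y, (y * ∏ q ∈ D, (12 / (q : ℝ) ^ 2) +
              ∏ q ∈ D, (12 / (q : ℝ))) := Finset.sum_le_sum h1
        _ = (PP z y).card * (y * ∏ q ∈ D, (12 / (q : ℝ) ^ 2) + ∏ q ∈ D, (12 / (q : ℝ))) := by
            rw [Finset.sum_const, nsmul_eq_mul]
        _ ≤ y * (y * (1 / √z * ∏ q ∈ D, (12 / ((q : ℝ) * √q))) +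
              ∏ q ∈ D, (12 / (q : ℝ))) := by
            apply mul_le_mul hPy _ _ (by positivity)
            · have := mul_le_mul_of_nonneg_left hsq (Nat.cast_nonneg (α := ℝ) y)
              linarith
            · have h7 : 0 ≤ ∏ q ∈ D, (12 / (q : ℝ) ^ 2) :=
                Finset.prod_nonneg fun q _ => by positivity
              positivity
        _ = (y : ℝ) ^ 2 / √z * ∏ q ∈ D, (12 / ((q : ℝ) * √q)) +
              y * ∏ q ∈ D, (12 / (q : ℝ)) := by ring
        _ ≤ B D := by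
            rw [hB]
            have h5 : 0 ≤ Y ^ 2 * ∏ q ∈ D, (24 / (q : ℝ) ^ 2) := by positivity
            simp only
            linarith
  -- the sum of the bounds
  have hsum : ∑ D ∈ (PP z0 z).powerset.erase ∅, B D ≤ Y ^ 2 * (48 / z0) +
      (y : ℝ) ^ 2 / √z * Real.exp 36 + y * Real.exp (12 * (1 + Real.log z)) := by
    have e1 : ∑ D ∈ (PP z0 z).powerset.erase ∅, ∏ q ∈ D, (24 / (q : ℝ) ^ 2) ≤ 48 / (z0 : ℝ) := by
      have h1 : ∑ q ∈ PP z0 z, 24 / (q : ℝ) ^ 2 ≤ 24 / (z0 : ℝ) := by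
        have h2 := sum_inv_sq z0 z (by omega)
        have h3 : ∑ q ∈ PP z0 z, 24 / (q : ℝ) ^ 2 = 24 * ∑ q ∈ PP z0 z, 1 / (q : ℝ) ^ 2 := by
          rw [Finset.mul_sum]
          apply Finset.sum_congr rfl
          intro q _
          ring
        rw [h3, show 24 / (z0 : ℝ) = 24 * (1 / z0) by ring]
        linarith
      have h2 := sum_prod_le (PP z0 z) (fun q => 24 / (q : ℝ) ^ 2) (fun q _ => by positivity) _ h1
      rw [← Finset.add_sum_erase _ _ (Finset.empty_mem_powerset (PP z0 z)),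
        Finset.prod_empty] at h2
      have h3 := exp_sub_one_le (24 / (z0 : ℝ)) (by positivity) (by
        rw [div_le_one (by linarith)]
        exact hz00)
      have h4 : 2 * (24 / (z0 : ℝ)) = 48 / z0 := by ring
      linarith
    have e2 : ∑ D ∈ (PP z0 z).powerset.erase ∅, ∏ q ∈ D, (12 / ((q : ℝ) * √q)) ≤
        Real.exp 36 := by
      have h1 : ∑ q ∈ PP z0 z, 12 / ((q : ℝ) * √q) ≤ 36 := by
        have h2 := sum_sqrt z0 z
        have h3 : ∑ q ∈ PP z0 z, 12 / ((q : ℝ) * √q) =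
            12 * ∑ q ∈ PP z0 z, 1 / ((q : ℝ) * √q) := by
          rw [Finset.mul_sum]
          apply Finset.sum_congr rfl
          intro q _
          ring
        rw [h3]
        linarith
      have h2 := sum_prod_le (PP z0 z) (fun q => 12 / ((q : ℝ) * √q))
        (fun q _ => by positivity) _ h1
      refine le_trans ?_ h2
      apply Finset.sum_le_sum_of_subset_of_nonneg (Finset.erase_subset _ _)
      intro D _ _
      exact Finset.prod_nonneg fun q _ => by positivity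
    have e3 : ∑ D ∈ (PP z0 z).powerset.erase ∅, ∏ q ∈ D, (12 / (q : ℝ)) ≤
        Real.exp (12 * (1 + Real.log z)) := by
      have h1 : ∑ q ∈ PP z0 z, 12 / (q : ℝ) ≤ 12 * (1 + Real.log z) := by
        have h2 := sum_inv z0 z
        have h3 : ∑ q ∈ PP z0 z, 12 / (q : ℝ) = 12 * ∑ q ∈ PP z0 z, 1 / (q : ℝ) := by
          rw [Finset.mul_sum]
          apply Finset.sum_congr rfl
          intro q _
          ring
        rw [h3]
        linarith
      have h2 := sum_prod_le (PP z0 z) (fun q => 12 / (q : ℝ)) (fun q _ => by positivity) _ h1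
      refine le_trans ?_ h2
      apply Finset.sum_le_sum_of_subset_of_nonneg (Finset.erase_subset _ _)
      intro D _ _
      exact Finset.prod_nonneg fun q _ => by positivity
    simp only [hB]
    rw [Finset.sum_add_distrib, Finset.sum_add_distrib, ← Finset.mul_sum, ← Finset.mul_sum,
      ← Finset.mul_sum]
    have f1 := mul_le_mul_of_nonneg_left e1 (sq_nonneg Y)
    have f2 := mul_le_mul_of_nonneg_left e2 (show 0 ≤ (y : ℝ) ^ 2 / √z by positivity)
    have f3 := mul_le_mul_of_nonneg_left e3 (Nat.cast_nonneg (α := ℝ) y)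
    linarith
  -- assembly
  have hcc : ∀ p ∈ PP z y, ∀ p' ∈ PP z y, |cc z0 z γ p p' - 1| ≤ 16 / z0 +
      ∑ D ∈ (PP z0 z).powerset.erase ∅,
        if (∀ q ∈ D, ∃ i, (q : ℤ) ∣ ell γ p p' i) then ∏ q ∈ D, (4 / (q : ℝ)) else 0 := by
    intro p hp p' hp'
    have h1 := mem_PP.1 hp
    have h2 := mem_PP.1 hp'
    convert cc_bound hγ hγ2 hz0' (z := z) (p := p) (p' := p')
      (mem_PP.2 ⟨⟨h1.1.1, le_refl _⟩, h1.2⟩) (mem_PP.2 ⟨⟨h2.1.1, le_refl _⟩, h2.2⟩) using 1
  calc ∑ p ∈ PP z y, ∑ p' ∈ (PP z y).erase p, |cc z0 z γ p p' - 1|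
      ≤ ∑ p ∈ PP z y, ∑ p' ∈ PP z y, |cc z0 z γ p p' - 1| := by
        apply Finset.sum_le_sum
        intro p _
        apply Finset.sum_le_sum_of_subset_of_nonneg (Finset.erase_subset _ _)
        intro _ _ _
        exact abs_nonneg _
    _ ≤ ∑ p ∈ PP z y, ∑ p' ∈ PP z y, (16 / z0 +
          ∑ D ∈ (PP z0 z).powerset.erase ∅,
          if (∀ q ∈ D, ∃ i, (q : ℤ) ∣ ell γ p p' i) then ∏ q ∈ D, (4 / (q : ℝ)) else 0) :=
        Finset.sum_le_sum fun p hp => Finset.sum_le_sum fun p' hp' => hcc p hp p' hp'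
    _ = ((PP z y).card : ℝ) ^ 2 * (16 / z0) + ∑ D ∈ (PP z0 z).powerset.erase ∅, ∑ p ∈ PP z y,
          (((PP z y).filter (fun p' : ℕ => ∀ q ∈ D, ∃ i, (q : ℤ) ∣ ell γ p p' i)).card : ℝ) *
          ∏ q ∈ D, (4 / (q : ℝ)) := by
        simp_rw [Finset.sum_add_distrib, Finset.sum_const, nsmul_eq_mul]
        congr 1
        · ring
        · rw [Finset.sum_congr rfl (fun p _ => Finset.sum_comm), Finset.sum_comm]
          apply Finset.sum_congr rfl
          intro D _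
          apply Finset.sum_congr rfl
          intro p _
          rw [← Finset.sum_filter, Finset.sum_const, nsmul_eq_mul]
    _ ≤ Y ^ 2 * (16 / z0) + ∑ D ∈ (PP z0 z).powerset.erase ∅, B D := by
        apply add_le_add
        · apply mul_le_mul_of_nonneg_right _ (by positivity)
          exact pow_le_pow_left₀ (by positivity) hPY 2
        · exact Finset.sum_le_sum hTD
    _ ≤ _ := by
        have h16 : Y ^ 2 * (64 / (z0 : ℝ)) = Y ^ 2 * (16 / z0) + Y ^ 2 * (48 / z0) := by ring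
        rw [h16]
        linarith

/-! ### Mertens -/

theorem V_le (z0 z : ℕ) (hz0 : 10 ≤ z0) (hz : z0 ≤ z) :
    VV z0 z (![1] : Fin 1 → ℤ) ![0] ≤ Real.exp 5 * (Real.log z0 / Real.log z) := by
  have hz0r : (10 : ℝ) ≤ z0 := by exact_mod_cast hz0
  have hzr : (z0 : ℝ) ≤ z := by exact_mod_cast hz
  have hl0 : 2 ≤ Real.log z0 := by
    have h1 : Real.exp 2 ≤ 10 := by
      have h := Real.exp_one_lt_d9
      have h2 : Real.exp 2 = Real.exp 1 * Real.exp 1 := by rw [← Real.exp_add]; norm_num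
      rw [h2]
      nlinarith [Real.exp_pos 1]
    rw [Real.le_log_iff_exp_le (by linarith)]
    linarith
  have hlz : Real.log z0 ≤ Real.log z := Real.log_le_log (by linarith) hzr
  have hb := Pool.Agent.Lib.MP_973905_nt.PrimeSum.range_bound (z0 : ℝ) (z : ℝ) (by linarith) hzr
  have hPS : Pool.Agent.Lib.MP_973905_nt.PS (z0 : ℝ) (z : ℝ) = PP z0 z := by
    unfold Pool.Agent.Lib.MP_973905_nt.PS PP
    rw [Nat.floor_natCast, Nat.floor_natCast]
  rw [hPS] at hb
  have h10 : 10 / Real.log z0 ≤ 5 := by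
    rw [div_le_iff₀ (by linarith)]
    linarith
  have h1 := (abs_le.1 hb).1
  have hS : Real.log (Real.log z / Real.log z0) - 5 ≤ ∑ q ∈ PP z0 z, (1 : ℝ) / q := by linarith
  rw [V_eq]
  calc ∏ q ∈ PP z0 z, (1 - 1 / (q : ℝ)) ≤ ∏ q ∈ PP z0 z, Real.exp (-(1 / (q : ℝ))) := by
        apply Finset.prod_le_prod
        · intro q hq
          have h1 := (mem_PP.1 hq).2.two_le
          have h2 : (2 : ℝ) ≤ q := by exact_mod_cast h1
          have : 1 / (q : ℝ) ≤ 1 := by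
            rw [div_le_one (by linarith)]
            linarith
          linarith
        · intro q _
          have := Real.add_one_le_exp (-(1 / (q : ℝ)))
          linarith
    _ = Real.exp (-(∑ q ∈ PP z0 z, (1 : ℝ) / q)) := by
        rw [← Real.exp_sum, Finset.sum_neg_distrib]
    _ ≤ Real.exp (5 + -(Real.log (Real.log z / Real.log z0))) := by
        apply Real.exp_le_exp.2
        linarith
    _ = Real.exp 5 * (Real.log z0 / Real.log z) := by
        rw [Real.exp_add, Real.exp_neg, Real.exp_log (div_pos (by linarith) (by linarith)),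
          inv_div]

theorem ev_log_sq (K ε : ℝ) (hε : 0 < ε) :
    ∃ n0 : ℕ, ∀ n : ℕ, n0 ≤ n → K * Real.log n ^ 2 ≤ ε * n := by
  have h := (Real.isLittleO_pow_log_id_atTop (n := 2)).bound
    (show 0 < ε / (|K| + 1) by positivity)
  have h2 := tendsto_natCast_atTop_atTop (R := ℝ) |>.eventually h
  obtain ⟨n0, hn0⟩ := Filter.eventually_atTop.1 h2
  refine ⟨n0, fun n hn => ?_⟩
  have h3 := hn0 n hn
  simp only [id, Real.norm_eq_abs, Nat.abs_cast] at h3
  rw [abs_of_nonneg (by positivity)] at h3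
  calc K * Real.log n ^ 2 ≤ (|K| + 1) * Real.log n ^ 2 := by
        apply mul_le_mul_of_nonneg_right _ (by positivity)
        linarith [le_abs_self K]
    _ ≤ (|K| + 1) * (ε / (|K| + 1) * n) := mul_le_mul_of_nonneg_left h3 (by positivity)
    _ = ε * n := by field_simp

theorem ev_log_sqrt (K ε : ℝ) (hε : 0 < ε) :
    ∃ n0 : ℕ, ∀ n : ℕ, n0 ≤ n → K * Real.log n ^ 2 ≤ ε * √n := by
  have h := (Real.isLittleO_pow_log_id_atTop (n := 4)).bound
    (show 0 < (ε / (|K| + 1)) ^ 2 by positivity)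
  have h2 := tendsto_natCast_atTop_atTop (R := ℝ) |>.eventually h
  obtain ⟨n0, hn0⟩ := Filter.eventually_atTop.1 h2
  refine ⟨n0, fun n hn => ?_⟩
  have h3 := hn0 n hn
  simp only [id, Real.norm_eq_abs, Nat.abs_cast] at h3
  rw [abs_of_nonneg (by positivity)] at h3
  have h4 : Real.log n ^ 2 ≤ ε / (|K| + 1) * √n := by
    rw [← pow_le_pow_iff_left₀ (by positivity) (by positivity) (show (2 : ℕ) ≠ 0 by norm_num)]
    rw [mul_pow, Real.sq_sqrt (by positivity), ← pow_mul]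
    exact h3
  calc K * Real.log n ^ 2 ≤ (|K| + 1) * Real.log n ^ 2 := by
        apply mul_le_mul_of_nonneg_right _ (by positivity)
        linarith [le_abs_self K]
    _ ≤ (|K| + 1) * (ε / (|K| + 1) * √n) := mul_le_mul_of_nonneg_left h4 (by positivity)
    _ = ε * √n := by field_simp

end Corr98

open Corr98 in
/-- S5: the correlation constant of two primes is 1 on average. -/
theorem S5 (h2b : S2bStmt) : S5Stmt := by
  intro R
  obtain ⟨s2, zs2, h2⟩ := h2b
  refine ⟨max s2 13, ?_⟩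
  intro C ε hε
  obtain ⟨n1, hn1⟩ := ev_log_sq ((2 * Real.exp 5 * C) ^ 2 * 64) (ε / 2) (by positivity)
  refine ⟨max (max zs2 (2 * R + 24)) n1, ?_⟩
  intro z0 hz0
  have hz0a : zs2 ≤ z0 := le_trans (le_trans (le_max_left _ _) (le_max_left _ _)) hz0
  have hz0b : 2 * R + 24 ≤ z0 := le_trans (le_trans (le_max_right _ _) (le_max_left _ _)) hz0
  have hz0c : n1 ≤ z0 := le_trans (le_max_right _ _) hz0
  obtain ⟨z1, h2⟩ := h2 z0 hz0a
  obtain ⟨n2, hn2⟩ := ev_log_sqrt ((Real.exp 36 + Real.exp 12) * (C : ℝ) ^ 2) (ε / 2)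
    (by positivity)
  refine ⟨max (max z1 z0) n2, ?_⟩
  intro z hz γ hγ hγ2 y hy1 hy2
  have hza : z1 ≤ z := le_trans (le_trans (le_max_left _ _) (le_max_left _ _)) hz
  have hzb : z0 ≤ z := le_trans (le_trans (le_max_right _ _) (le_max_left _ _)) hz
  have hzc : n2 ≤ z := le_trans (le_max_right _ _) hz
  have hz24 : 24 ≤ z := by omega
  have hs2 : z ^ s2 ≤ y := le_trans (Nat.pow_le_pow_right (by omega) (le_max_left _ _)) hy1
  have hs13 : z ^ 13 ≤ y := le_trans (Nat.pow_le_pow_right (by omega) (le_max_right _ _)) hy1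
  have hzr : (24 : ℝ) ≤ z := by exact_mod_cast hz24
  have hz0r : (24 : ℝ) ≤ z0 := by exact_mod_cast (by omega : 24 ≤ z0)
  have hyz : z ≤ y := by
    calc z = z ^ 1 := (pow_one z).symm
      _ ≤ z ^ 13 := Nat.pow_le_pow_right (by omega) (by norm_num)
      _ ≤ y := hs13
  have hyr : (z : ℝ) ≤ y := by exact_mod_cast hyz
  have hlz : 0 < Real.log z := Real.log_pos (by linarith)
  have hlz0 : 0 < Real.log z0 := Real.log_pos (by linarith)
  have hly : 0 < Real.log y := Real.log_pos (by linarith)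
  have hlyz : Real.log y ≤ C * Real.log z := by
    have h1 : (y : ℝ) ≤ (z : ℝ) ^ C := by exact_mod_cast hy2
    calc Real.log y ≤ Real.log ((z : ℝ) ^ C) := Real.log_le_log (by linarith) h1
      _ = C * Real.log z := Real.log_pow _ _
  set V := VV z0 z (![1] : Fin 1 → ℤ) ![0] with hV
  have hV0 : 0 < V := V_pos
  have hVle : V ≤ Real.exp 5 * (Real.log z0 / Real.log z) := V_le z0 z (by omega) hzb
  set Y : ℝ := V * (2 * y) with hY
  have hs : ∀ D, D ⊆ PP z0 z → ∏ q ∈ D, q ≤ z → ∀ c : ℤ,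
      (((PP z y).filter (fun n : ℕ => ((∏ q ∈ D, q : ℕ) : ℤ) ∣ (n : ℤ) - c)).card : ℝ) ≤
        Y * ∏ q ∈ D, (1 / ((q : ℝ) - 1)) := by
    intro D hD hDz c
    have h3 := card_sieve y D c _ (h2 z hza D hD hDz c 0 y hs2)
    rw [hY]
    linarith
  have hmain := main_bound hγ hγ2 hz0b (by omega) y Y hs
  change ∑ p ∈ PP z y, ∑ p' ∈ (PP z y).erase p, |cc z0 z γ p p' - 1| ≤ _
  refine hmain.trans ?_
  have hy0 : (0 : ℝ) < y := by linarith
  -- first term
  have hYle : Y ≤ 2 * Real.exp 5 * C * Real.log z0 * (y / Real.log y) := by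
    have h3 : 1 / Real.log z ≤ C / Real.log y := by
      rw [div_le_div_iff₀ hlz hly]
      linarith
    calc Y ≤ (Real.exp 5 * (Real.log z0 / Real.log z)) * (2 * y) :=
          mul_le_mul_of_nonneg_right hVle (by positivity)
      _ = (2 * Real.exp 5 * Real.log z0 * y) * (1 / Real.log z) := by ring
      _ ≤ (2 * Real.exp 5 * Real.log z0 * y) * (C / Real.log y) :=
          mul_le_mul_of_nonneg_left h3 (by positivity)
      _ = _ := by ring
  have hfirst : Y ^ 2 * (64 / z0) ≤ ε / 2 * ((y : ℝ) / Real.log y) ^ 2 := by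
    have h3 := hn1 z0 hz0c
    have hz0p : (0 : ℝ) < z0 := by linarith
    have h4 : (2 * Real.exp 5 * C) ^ 2 * 64 * Real.log z0 ^ 2 / z0 ≤ ε / 2 := by
      rw [div_le_iff₀ hz0p]
      exact h3
    calc Y ^ 2 * (64 / z0)
        ≤ (2 * Real.exp 5 * C * Real.log z0 * (y / Real.log y)) ^ 2 * (64 / z0) := by
          apply mul_le_mul_of_nonneg_right _ (by positivity)
          exact pow_le_pow_left₀ (by positivity) hYle 2
      _ = (2 * Real.exp 5 * C) ^ 2 * 64 * Real.log z0 ^ 2 / z0 * ((y : ℝ) / Real.log y) ^ 2 := by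
          ring
      _ ≤ ε / 2 * ((y : ℝ) / Real.log y) ^ 2 :=
          mul_le_mul_of_nonneg_right h4 (by positivity)
  -- second term
  have hsz : 0 < √(z : ℝ) := Real.sqrt_pos.2 (by linarith)
  have hsz1 : √(z : ℝ) ≤ z := by
    rw [Real.sqrt_le_iff]
    constructor
    · linarith
    · nlinarith
  have hexp : Real.exp (12 * (1 + Real.log z)) = Real.exp 12 * (z : ℝ) ^ 12 := by
    rw [mul_add, mul_one, Real.exp_add]
    congr 1
    rw [show (12 : ℝ) * Real.log z = ((12 : ℕ) : ℝ) * Real.log z by norm_num, ← Real.log_pow,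
      Real.exp_log (by positivity)]
  have hz12 : (z : ℝ) ^ 12 ≤ y / √z := by
    rw [le_div_iff₀ hsz]
    have h3 : (z : ℝ) ^ 13 ≤ y := by exact_mod_cast hs13
    calc (z : ℝ) ^ 12 * √z ≤ (z : ℝ) ^ 12 * z := mul_le_mul_of_nonneg_left hsz1 (by positivity)
      _ = (z : ℝ) ^ 13 := by ring
      _ ≤ y := h3
  have hsecond : (y : ℝ) ^ 2 / √z * Real.exp 36 + y * Real.exp (12 * (1 + Real.log z)) ≤
      ε / 2 * ((y : ℝ) / Real.log y) ^ 2 := by
    have h3 := hn2 z hzc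
    have h4 : (Real.exp 36 + Real.exp 12) * Real.log y ^ 2 ≤ ε / 2 * √z := by
      refine le_trans ?_ h3
      calc (Real.exp 36 + Real.exp 12) * Real.log y ^ 2
          ≤ (Real.exp 36 + Real.exp 12) * (C * Real.log z) ^ 2 := by
            apply mul_le_mul_of_nonneg_left _ (by positivity)
            exact pow_le_pow_left₀ hly.le hlyz 2
        _ = _ := by ring
    have h5 : (Real.exp 36 + Real.exp 12) / √z ≤ ε / 2 / Real.log y ^ 2 := by
      rw [div_le_div_iff₀ hsz (by positivity)]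
      exact h4
    calc (y : ℝ) ^ 2 / √z * Real.exp 36 + y * Real.exp (12 * (1 + Real.log z))
        ≤ (y : ℝ) ^ 2 / √z * Real.exp 36 + y * (Real.exp 12 * (y / √z)) := by
          rw [hexp]
          have h6 : Real.exp 12 * (z : ℝ) ^ 12 ≤ Real.exp 12 * (y / √z) :=
            mul_le_mul_of_nonneg_left hz12 (by positivity)
          have := mul_le_mul_of_nonneg_left h6 hy0.le
          linarith
      _ = (y : ℝ) ^ 2 * ((Real.exp 36 + Real.exp 12) / √z) := by ring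
      _ ≤ (y : ℝ) ^ 2 * (ε / 2 / Real.log y ^ 2) := mul_le_mul_of_nonneg_left h5 (by positivity)
      _ = ε / 2 * ((y : ℝ) / Real.log y) ^ 2 := by ring
  linarith

end Pool.Agent.Lib.TwinAll
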