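import Pool.Agent.Lib.TwinAll.Mod69c

set_option autoImplicit false

/-!
Finite Maynard model, part 4: the theorem.
-/

namespace Pool.Agent.Lib.TwinAll.Mod69

open Finset

variable {ι : Type*} [DecidableEq ι]

theorem one_le_prod69 {β : Type*} {s : Finset β} {f : β → ℝ} (h : ∀ i ∈ s, 1 ≤ f i) :
    1 ≤ ∏ i ∈ s, f i := by
  calc (1 : ℝ) = ∏ _i ∈ s, (1 : ℝ) := by rw [Finset.prod_const_one]
    _ ≤ _ := Finset.prod_le_prod (fun _ _ => by norm_num) h

theorem tr_support {α : Type*} [DecidableEq α] (nu : α → ℝ) (P : Finset α)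
    (y : Finset α → ℝ) (d : Finset α) (hd : d ⊆ P) (h : tr nu P y d ≠ 0) :
    ∃ r ⊆ P, d ⊆ r ∧ y r ≠ 0 := by
  unfold tr at h
  have h1 := right_ne_zero_of_mul h
  obtain ⟨r, hr, hr0⟩ := Finset.exists_ne_zero_of_sum_ne_zero h1
  refine ⟨d ∪ r, Finset.union_subset hd ((Finset.mem_powerset.1 hr).trans Finset.sdiff_subset),
    Finset.subset_union_left, right_ne_zero_of_mul hr0⟩

theorem tr_abs_le {α : Type*} [DecidableEq α] (nu : α → ℝ) (P : Finset α)
    (hnu : ∀ x ∈ P, 0 ≤ nu x) (y : Finset α → ℝ) (C : ℝ) (hy : ∀ r ⊆ P, |y r| ≤ C)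
    (d : Finset α) (hd : d ⊆ P) : |tr nu P y d| ≤ C * ∏ x ∈ P, (1 + nu x) := by
  have h1 : |∏ x ∈ d, (-(1 + nu x))| = ∏ x ∈ d, (1 + nu x) := by
    rw [Finset.abs_prod]
    refine Finset.prod_congr rfl fun x hx => ?_
    rw [abs_neg, abs_of_nonneg (by linarith [hnu x (hd hx)])]
  have h2 : |∑ r ∈ (P \ d).powerset, (∏ x ∈ r, nu x) * y (d ∪ r)| ≤
      C * ∏ x ∈ P \ d, (1 + nu x) := by
    rw [Finset.prod_one_add, Finset.mul_sum]
    refine (Finset.abs_sum_le_sum_abs _ _).trans (Finset.sum_le_sum fun r hr => ?_)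
    have hr' := (Finset.mem_powerset.1 hr).trans Finset.sdiff_subset
    have h3 : 0 ≤ ∏ x ∈ r, nu x := Finset.prod_nonneg fun x hx => hnu x (hr' hx)
    rw [abs_mul, abs_of_nonneg h3, mul_comm]
    exact mul_le_mul_of_nonneg_right (hy _ (Finset.union_subset hd hr')) h3
  have h4 : 0 ≤ ∏ x ∈ d, (1 + nu x) := Finset.prod_nonneg fun x hx => by linarith [hnu x (hd hx)]
  unfold tr
  rw [abs_mul, h1, ← Finset.prod_sdiff hd]
  calc (∏ x ∈ d, (1 + nu x)) * |∑ r ∈ (P \ d).powerset, (∏ x ∈ r, nu x) * y (d ∪ r)| ≤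
      (∏ x ∈ d, (1 + nu x)) * (C * ∏ x ∈ P \ d, (1 + nu x)) := mul_le_mul_of_nonneg_left h2 h4
    _ = _ := by ring

/-- The finite Maynard model: a weight of level `1` for which each of the `k` forms is free of
events with weighted proportion at least `J * V0 / (144 * V)`. -/
theorem maynard_model (J : ℕ) (hJ : 1 ≤ J) (k : ℕ) (hk : 1 ≤ k) (Q : Finset ι)
    (nu p t : ι → ℝ) (hnu : ∀ q ∈ Q, 0 ≤ nu q) (hp : ∀ q ∈ Q, p q * (1 + nu q) = nu q)
    (ht : ∀ q ∈ Q, 0 ≤ t q) (S : ℕ → Finset ι) (hS : ∀ s ≤ J, S s ⊆ Q)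
    (h1 : ∀ s < J, 3 / 2 * mass nu (S s) ≤ mass nu (S (s + 1)))
    (h2 : ∀ s ≤ J, ∑ q ∈ S s, p q * t q ≤ 1 / 4)
    (h3 : ∀ s ≤ J, 144 * k * mass nu (S 0) * ∑ q ∈ S s, p q * t q ≤ mass nu (S s)) :
    ∃ l : Finset (Fin k × ι) → ℝ,
      (∀ d ⊆ (Finset.univ : Finset (Fin k)) ×ˢ Q, |l d| ≤ 3 ^ k * mass nu Q ^ k) ∧
      (∀ d ⊆ (Finset.univ : Finset (Fin k)) ×ˢ Q, l d ≠ 0 → ∑ x ∈ d, t x.2 ≤ 1) ∧
      1 ≤ bf (fun x => p x.2) ((Finset.univ : Finset (Fin k)) ×ˢ Q) l l ∧
      ∀ j : Fin k, J * mass nu (S 0) / 144 *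
          bf (fun x => p x.2) ((Finset.univ : Finset (Fin k)) ×ˢ Q) l l ≤
        bf (fun x => p x.2) (((Finset.univ : Finset (Fin k)).erase j) ×ˢ Q) l l := by
  have hJ0 : (0 : ℝ) < J := by exact_mod_cast hJ
  have hJ1 : (1 : ℝ) ≤ J := by exact_mod_cast hJ
  have hk0 : (0 : ℝ) < k := by exact_mod_cast hk
  have hsq : (0 : ℝ) < Real.sqrt J := Real.sqrt_pos.2 hJ0
  have hsq1 : (1 : ℝ) ≤ Real.sqrt J := by
    rw [← Real.sqrt_one]
    exact Real.sqrt_le_sqrt hJ1
  have hsqsq : Real.sqrt J ^ 2 = J := Real.sq_sqrt hJ0.le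
  -- masses
  have hVpos : ∀ s ≤ J, 1 ≤ mass nu (S s) := by
    intro s hs
    unfold mass
    exact one_le_prod69 (fun q hq => by linarith [hnu q (hS s hs hq)])
  have hV0 : 1 ≤ mass nu (S 0) := hVpos 0 (Nat.zero_le _)
  have hVge : ∀ s ≤ J, mass nu (S 0) ≤ mass nu (S s) := by
    intro s
    induction s with
    | zero => intro _; exact le_rfl
    | succ s ih =>
      intro hs
      have a1 := ih (by omega)
      have a2 := h1 s (by omega)
      linarith
  have htau : ∀ s ≤ J, 0 ≤ ∑ q ∈ S s, p q * t q := by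
    intro s hs
    refine Finset.sum_nonneg fun q hq => mul_nonneg ?_ (ht q (hS s hs hq))
    have a1 := hp q (hS s hs hq)
    have a2 := hnu q (hS s hs hq)
    by_contra hneg
    push Not at hneg
    nlinarith
  -- the coefficients
  let e : ℕ → ℝ := fun s => if s = 0 then 1 else if s ≤ J then
    mass nu (S 0) / (Real.sqrt J * mass nu (S s)) else 0
  have he0 : e 0 = 1 := if_pos rfl
  have hes : ∀ s, 1 ≤ s → s ≤ J → e s = mass nu (S 0) / (Real.sqrt J * mass nu (S s)) := by
    intro s a1 a2
    change (if s = 0 then (1 : ℝ) else if s ≤ J then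
      mass nu (S 0) / (Real.sqrt J * mass nu (S s)) else 0) = _
    rw [if_neg (by omega), if_pos a2]
  have he : ∀ s, 0 ≤ e s := by
    intro s
    rcases Nat.eq_zero_or_pos s with a | a
    · rw [a, he0]
      norm_num
    · by_cases b : s ≤ J
      · rw [hes s a b]
        have := hVpos s b
        positivity
      · change 0 ≤ (if s = 0 then (1 : ℝ) else if s ≤ J then
          mass nu (S 0) / (Real.sqrt J * mass nu (S s)) else 0)
        rw [if_neg (by omega), if_neg b]
  have hr : ∀ s, s + 1 < J + 1 → e (s + 1) ≤ 2 / 3 * e s := by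
    intro s hs
    have a1 := hVpos (s + 1) (by omega)
    have a2 := h1 s (by omega)
    rw [hes (s + 1) (by omega) (by omega)]
    rcases Nat.eq_zero_or_pos s with a | a
    · subst a
      rw [he0, mul_one, div_le_iff₀ (by positivity)]
      nlinarith
    · rw [hes s a (by omega)]
      have a3 := hVpos s (by omega)
      rw [mul_div_assoc', div_le_div_iff₀ (by positivity) (by positivity)]
      have a4 : 0 ≤ mass nu (S 0) * Real.sqrt J := by positivity
      nlinarith [mul_le_mul_of_nonneg_left a2 a4]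
  have he1 : ∀ s, e s ≤ 1 := by
    intro s
    rcases Nat.eq_zero_or_pos s with a | a
    · rw [a, he0]
    · by_cases b : s ≤ J
      · rw [hes s a b]
        have b1 := hVpos s b
        have b2 := hVge s b
        rw [div_le_one (by positivity)]
        nlinarith
      · change (if s = 0 then (1 : ℝ) else if s ≤ J then
          mass nu (S 0) / (Real.sqrt J * mass nu (S s)) else 0) ≤ 1
        rw [if_neg (by omega), if_neg b]
        norm_num
  set g := gs t S e J with hgdef
  have hg : ∀ a ⊆ Q, g a ≠ 0 → ∑ q ∈ a, t q ≤ 1 / 2 := by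
    intro a _ h
    by_contra hcon
    apply h
    rw [hgdef]
    unfold gs
    rw [if_neg hcon]
  have hg0 : ∀ a, 0 ≤ g a := by
    intro a
    rw [hgdef]
    unfold gs
    split_ifs
    · exact Finset.sum_nonneg fun s _ => mul_nonneg (he s) (by split_ifs <;> norm_num)
    · exact le_rfl
  have hg3 : ∀ a, g a ≤ 3 := by
    intro a
    have a1 := geom_aux J e he hr
    rw [he0] at a1
    rw [hgdef]
    unfold gs
    split_ifs
    · refine le_trans (Finset.sum_le_sum fun s _ => ?_) (a1.trans (by norm_num))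
      split_ifs
      · rw [mul_one]
      · rw [mul_zero]
        exact he s
    · norm_num
  -- moments
  have hM0le : M0 Q nu g ≤ 18 * mass nu (S 0) := by
    refine (M0_le Q nu t hnu J S hS e he hr).trans ?_
    rw [Finset.sum_range_succ', he0]
    have b1 : ∑ s ∈ range J, e (s + 1) ^ 2 * mass nu (S (s + 1)) ≤ mass nu (S 0) := by
      calc ∑ s ∈ range J, e (s + 1) ^ 2 * mass nu (S (s + 1)) ≤
          ∑ s ∈ range J, mass nu (S 0) / J := by
            refine Finset.sum_le_sum fun s hs => ?_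
            have hs' := Finset.mem_range.1 hs
            rw [hes (s + 1) (by omega) (by omega)]
            have b2 := hVpos (s + 1) (by omega)
            have b3 := hVge (s + 1) (by omega)
            rw [div_pow, mul_pow, hsqsq, div_mul_eq_mul_div, div_le_div_iff₀ (by positivity) hJ0]
            have b4 : 0 ≤ mass nu (S 0) * J * mass nu (S (s + 1)) := by positivity
            nlinarith [mul_le_mul_of_nonneg_left b3 b4]
        _ = mass nu (S 0) := by
            rw [Finset.sum_const, Finset.card_range, nsmul_eq_mul]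
            field_simp
    linarith
  have hM0ge : mass nu (S 0) / 2 ≤ M0 Q nu g := by
    refine le_trans ?_ (M0_ge Q nu p t hnu hp ht J S hS e he he0)
    have b1 := h2 0 (Nat.zero_le _)
    nlinarith
  have hM0pos : 0 < M0 Q nu g := by linarith
  have hL1 : L1 Q nu t g ≤ mass nu (S 0) / (8 * k) := by
    refine (L1_le Q nu p t hnu hp ht J S hS e he hr).trans ?_
    rw [Finset.sum_range_succ', he0]
    have b0 : mass nu (S 0) * ∑ q ∈ S 0, p q * t q ≤ mass nu (S 0) / (144 * k) := by
      have := h3 0 (Nat.zero_le _)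
      rw [le_div_iff₀ (by positivity)]
      nlinarith
    have b1 : ∑ s ∈ range J, e (s + 1) ^ 2 * (mass nu (S (s + 1)) * ∑ q ∈ S (s + 1), p q * t q) ≤
        mass nu (S 0) / (144 * k) := by
      calc ∑ s ∈ range J, e (s + 1) ^ 2 * (mass nu (S (s + 1)) * ∑ q ∈ S (s + 1), p q * t q) ≤
          ∑ s ∈ range J, mass nu (S 0) / (144 * k) / J := by
            refine Finset.sum_le_sum fun s hs => ?_
            have hs' := Finset.mem_range.1 hs
            rw [hes (s + 1) (by omega) (by omega)]
            have b2 := hVpos (s + 1) (by omega)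
            have b3 := h3 (s + 1) (by omega)
            have b4 := htau (s + 1) (by omega)
            rw [div_pow, mul_pow, hsqsq, div_mul_eq_mul_div, div_div,
              div_le_div_iff₀ (by positivity) (by positivity)]
            have b5 : 0 ≤ mass nu (S 0) * J * mass nu (S (s + 1)) := by positivity
            nlinarith [mul_le_mul_of_nonneg_left b3 b5]
        _ = mass nu (S 0) / (144 * k) := by
            rw [Finset.sum_const, Finset.card_range, nsmul_eq_mul]
            field_simp
    have b6 : 9 * (mass nu (S 0) / (144 * k) + mass nu (S 0) / (144 * k)) =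
        mass nu (S 0) / (8 * k) := by
      field_simp
      norm_num
    linarith
  have hL : 4 * k * L1 Q nu t g ≤ M0 Q nu g := by
    have b1 : 4 * k * L1 Q nu t g ≤ 4 * k * (mass nu (S 0) / (8 * k)) :=
      mul_le_mul_of_nonneg_left hL1 (by positivity)
    have b2 : 4 * (k : ℝ) * (mass nu (S 0) / (8 * k)) = mass nu (S 0) / 2 := by
      field_simp
      norm_num
    linarith
  have hM1 : Real.sqrt J * mass nu (S 0) / 2 ≤ M1 Q nu g := by
    refine le_trans ?_ (M1_ge Q nu p t hnu hp ht J S hS e he)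
    rw [Finset.sum_range_succ', he0]
    have b0 : 0 ≤ 1 * (mass nu (S 0) * (1 - 2 * ∑ q ∈ S 0, p q * t q)) := by
      have b1 := h2 0 (Nat.zero_le _)
      have : 0 ≤ 1 - 2 * ∑ q ∈ S 0, p q * t q := by linarith
      positivity
    have b1 : Real.sqrt J * mass nu (S 0) / 2 ≤ ∑ s ∈ range J,
        e (s + 1) * (mass nu (S (s + 1)) * (1 - 2 * ∑ q ∈ S (s + 1), p q * t q)) := by
      calc Real.sqrt J * mass nu (S 0) / 2 = ∑ s ∈ range J, mass nu (S 0) / (2 * Real.sqrt J) := by
            rw [Finset.sum_const, Finset.card_range, nsmul_eq_mul]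
            have : (J : ℝ) = Real.sqrt J * Real.sqrt J := by rw [← sq, hsqsq]
            rw [this]
            field_simp
            rw [Real.sqrt_sq hsq.le]
        _ ≤ _ := by
            refine Finset.sum_le_sum fun s hs => ?_
            have hs' := Finset.mem_range.1 hs
            rw [hes (s + 1) (by omega) (by omega)]
            have b2 := hVpos (s + 1) (by omega)
            have b3 := h2 (s + 1) (by omega)
            have b4 : mass nu (S 0) / (Real.sqrt J * mass nu (S (s + 1))) *
                (mass nu (S (s + 1)) * (1 - 2 * ∑ q ∈ S (s + 1), p q * t q)) =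
                mass nu (S 0) / Real.sqrt J * (1 - 2 * ∑ q ∈ S (s + 1), p q * t q) := by
              field_simp
            rw [b4]
            have b5 : 0 ≤ mass nu (S 0) / Real.sqrt J := by positivity
            calc mass nu (S 0) / (2 * Real.sqrt J) = mass nu (S 0) / Real.sqrt J * (1 / 2) := by
                  field_simp
              _ ≤ _ := mul_le_mul_of_nonneg_left (by linarith) b5
    linarith
  -- the weight
  let P : Finset (Fin k × ι) := (Finset.univ : Finset (Fin k)) ×ˢ Q
  let y := wy Q t k g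
  have hnu' : ∀ x ∈ P, 0 ≤ (fun x : Fin k × ι => nu x.2) x :=
    fun x hx => hnu _ (Finset.mem_product.1 hx).2
  have hp' : ∀ x ∈ P, (fun x : Fin k × ι => p x.2) x * (1 + (fun x : Fin k × ι => nu x.2) x) =
      (fun x : Fin k × ι => nu x.2) x := fun x hx => hp _ (Finset.mem_product.1 hx).2
  have hy : ∀ r ⊆ P, |y r| ≤ 3 ^ k := by
    intro r _
    change |wy Q t k g r| ≤ 3 ^ k
    unfold wy
    split_ifs
    · rw [abs_of_nonneg (Finset.prod_nonneg fun j _ => hg0 _)]
      calc ∏ j : Fin k, g (sl Q j r) ≤ ∏ _j : Fin k, (3 : ℝ) :=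
            Finset.prod_le_prod (fun j _ => hg0 _) (fun j _ => hg3 _)
        _ = 3 ^ k := by rw [Finset.prod_const, Finset.card_univ, Fintype.card_fin]
    · rw [abs_zero]
      positivity
  have hmassP : ∏ x ∈ P, (1 + nu x.2) = mass nu Q ^ k := by
    change ∏ x ∈ (Finset.univ : Finset (Fin k)) ×ˢ Q, (1 + nu x.2) = mass nu Q ^ k
    rw [Finset.prod_product]
    change ∏ _x : Fin k, mass nu Q = mass nu Q ^ k
    rw [Finset.prod_const, Finset.card_univ, Fintype.card_fin]
  have hS1 : bf (fun x => p x.2) P (tr (fun x => nu x.2) P y) (tr (fun x => nu x.2) P y) =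
      S1 Q nu k y := by
    rw [bf_tr (fun x : Fin k × ι => nu x.2) (fun x => p x.2) P hp']
    unfold S1
    refine Finset.sum_congr rfl fun r _ => ?_
    ring
  refine ⟨tr (fun x => nu x.2) P y, ?_, ?_, ?_, ?_⟩
  · intro d hd
    have := tr_abs_le (fun x : Fin k × ι => nu x.2) P hnu' y (3 ^ k) hy d hd
    rwa [hmassP] at this
  · intro d hd h
    obtain ⟨r, hr1, hdr, hr0⟩ := tr_support (fun x : Fin k × ι => nu x.2) P y d hd h
    have h4 : ∑ x ∈ r, t x.2 ≤ 1 := by
      by_contra hcon
      apply hr0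
      change wy Q t k g r = 0
      unfold wy
      rw [if_neg hcon]
    refine le_trans (Finset.sum_le_sum_of_subset_of_nonneg hdr fun x hx _ => ?_) h4
    exact ht _ (Finset.mem_product.1 (hr1 hx)).2
  · rw [hS1]
    have h5 : (∏ x ∈ (∅ : Finset (Fin k × ι)), nu x.2) * y ∅ ^ 2 ≤ S1 Q nu k y := by
      unfold S1
      refine Finset.single_le_sum (f := fun r => (∏ x ∈ r, nu x.2) * y r ^ 2) (fun r hr => ?_)
        (Finset.empty_mem_powerset _)
      exact mul_nonneg (Finset.prod_nonneg fun x hx =>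
        hnu' x ((Finset.mem_powerset.1 hr) hx)) (sq_nonneg _)
    refine le_trans ?_ h5
    rw [Finset.prod_empty, one_mul]
    have h6 : ∀ j : Fin k, 1 ≤ g (sl Q j (∅ : Finset (Fin k × ι))) := by
      intro j
      have h7 : sl Q j (∅ : Finset (Fin k × ι)) = ∅ := by
        ext q
        simp [sl]
      rw [h7, hgdef]
      unfold gs
      rw [Finset.sum_empty, if_pos (by norm_num), Finset.sum_range_succ', he0,
        if_pos (Finset.empty_subset _)]
      have : 0 ≤ ∑ s ∈ range J, e (s + 1) * (if (∅ : Finset ι) ⊆ S (s + 1) then (1 : ℝ) else 0) :=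
        Finset.sum_nonneg fun s _ => mul_nonneg (he _) (by split_ifs <;> norm_num)
      linarith
    have h8 : 1 ≤ y ∅ := by
      change 1 ≤ wy Q t k g ∅
      unfold wy
      rw [Finset.sum_empty, if_pos (by norm_num)]
      exact one_le_prod69 (fun j _ => h6 j)
    nlinarith
  · intro j
    have hPj : P = (((Finset.univ : Finset (Fin k)).erase j) ×ˢ Q) ∪
        (({j} : Finset (Fin k)) ×ˢ Q) := by
      rw [← Finset.union_product]
      change (Finset.univ : Finset (Fin k)) ×ˢ Q = _
      congr 1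
      ext i
      simp only [Finset.mem_univ, Finset.mem_union, Finset.mem_erase, Finset.mem_singleton, true_iff,
        ne_eq, and_true]
      exact (em (i = j)).symm
    have hdis : Disjoint (((Finset.univ : Finset (Fin k)).erase j) ×ˢ Q)
        (({j} : Finset (Fin k)) ×ˢ Q) := by
      rw [Finset.disjoint_left]
      intro x hx hx'
      have a1 := (Finset.mem_product.1 hx).1
      have a2 := Finset.mem_singleton.1 (Finset.mem_product.1 hx').1
      exact (Finset.ne_of_mem_erase a1) a2
    have hS2 : bf (fun x => p x.2) (((Finset.univ : Finset (Fin k)).erase j) ×ˢ Q)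
        (tr (fun x => nu x.2) P y) (tr (fun x => nu x.2) P y) = S2 Q nu k y j := by
      rw [hPj, bf_tr_union (fun x : Fin k × ι => nu x.2) (fun x => p x.2) _ _ hdis
        (fun x hx => hp' x (by rw [hPj]; exact Finset.mem_union_left _ hx))]
      rfl
    change J * mass nu (S 0) / 144 * bf (fun x => p x.2) P (tr (fun x => nu x.2) P y)
      (tr (fun x => nu x.2) P y) ≤ bf (fun x => p x.2) (((Finset.univ : Finset (Fin k)).erase j) ×ˢ Q)
        (tr (fun x => nu x.2) P y) (tr (fun x => nu x.2) P y)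
    rw [hS1, hS2]
    refine le_trans ?_ (model_of_moments Q nu t hnu ht k hk g hg hM0pos hL j)
    have hS1nn : 0 ≤ S1 Q nu k y := by
      unfold S1
      exact Finset.sum_nonneg fun r hr => mul_nonneg (Finset.prod_nonneg fun x hx =>
        hnu' x ((Finset.mem_powerset.1 hr) hx)) (sq_nonneg _)
    refine mul_le_mul_of_nonneg_right ?_ hS1nn
    rw [le_div_iff₀ (by positivity)]
    have c1 : (Real.sqrt J * mass nu (S 0) / 2) ^ 2 ≤ M1 Q nu g ^ 2 :=
      pow_le_pow_left₀ (by positivity) hM1 2
    have c2 : (Real.sqrt J * mass nu (S 0) / 2) ^ 2 = J * mass nu (S 0) ^ 2 / 4 := by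
      rw [div_pow, mul_pow, hsqsq]
      norm_num
    have c3 : J * mass nu (S 0) / 144 * (2 * M0 Q nu g) ≤
        J * mass nu (S 0) / 144 * (2 * (18 * mass nu (S 0))) :=
      mul_le_mul_of_nonneg_left (by linarith) (by positivity)
    nlinarith

end Pool.Agent.Lib.TwinAll.Mod69
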