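import Mathlib
import Pool.Agent.Lib.TwinAll.Defs
import Pool.Agent.Lib.MP_c6d112_nt.DO.Avg69

/-!
THEOREM A (MP_c6d112_nt), module S3, part: average of the singular series over the shift `t`.
-/

set_option autoImplicit false

namespace Pool.Agent.Lib.TwinAll

open Finset

/-- number of `t` in `(-H, H)` with all primes of `D` dividing `A t + B` -/
theorem cnt24 (A Bb : ℤ) (D : Finset ℕ) (hD : ∀ q ∈ D, q.Prime ∧ ¬ ((q : ℤ) ∣ A)) (H : ℕ) :
    (((Ioo (-(H : ℤ)) H).filter (fun t => ∀ q ∈ D, (q : ℤ) ∣ A * t + Bb)).card : ℝ) ≤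
      2 * H / ((∏ q ∈ D, q : ℕ) : ℝ) + 1 := by
  classical
  set m : ℕ := ∏ q ∈ D, q with hm
  have hm0 : 0 < m := Finset.prod_pos (fun q hq => (hD q hq).1.pos)
  rcases Finset.eq_empty_or_nonempty ((Ioo (-(H : ℤ)) H).filter
      (fun t => ∀ q ∈ D, (q : ℤ) ∣ A * t + Bb)) with he | ⟨t0, ht0⟩
  · rw [he]
    simp only [Finset.card_empty, Nat.cast_zero]
    positivity
  have hsub : (Ioo (-(H : ℤ)) H).filter (fun t => ∀ q ∈ D, (q : ℤ) ∣ A * t + Bb) ⊆
      (Ioc (-(H : ℤ)) H).filter (fun x => x ≡ t0 [ZMOD (m : ℤ)]) := by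
    intro t ht
    rw [mem_filter, mem_Ioo] at ht ht0
    rw [mem_filter, mem_Ioc]
    refine ⟨⟨ht.1.1, ht.1.2.le⟩, ?_⟩
    apply Int.ModEq.symm
    rw [Int.modEq_iff_dvd]
    have hprod : ((∏ q ∈ D, (q : ℤ))) ∣ t - t0 := by
      apply Finset.prod_dvd_of_coprime
      · intro p hp q hq hpq
        have := (Nat.coprime_primes (hD p hp).1 (hD q hq).1).2 hpq
        exact Nat.isCoprime_iff_coprime.2 this
      · intro q hq
        have h1 := dvd_sub (ht.2 q hq) (ht0.2 q hq)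
        have h2 : A * t + Bb - (A * t0 + Bb) = A * (t - t0) := by ring
        rw [h2] at h1
        rcases (Nat.prime_iff_prime_int.1 (hD q hq).1).dvd_or_dvd h1 with h3 | h3
        · exact absurd h3 (hD q hq).2
        · exact h3
    rw [hm]
    push_cast
    exact hprod
  have hcard := Finset.card_le_card hsub
  have h2 := Int.Ioc_filter_modEq_card (-(H : ℤ)) (H : ℤ) (r := (m : ℤ)) (by exact_mod_cast hm0) t0
  have hmq : (0 : ℚ) < m := by exact_mod_cast hm0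
  have h3 : ((((Ioc (-(H : ℤ)) H).filter (fun x => x ≡ t0 [ZMOD (m : ℤ)])).card : ℤ) : ℚ) ≤
      2 * H / m + 1 := by
    rw [h2]
    push_cast
    apply max_le
    · have h4 := Int.floor_le ((((H : ℤ) : ℚ) - (t0 : ℚ)) / ((m : ℤ) : ℚ))
      have h5 := Int.lt_floor_add_one ((((-(H : ℤ) : ℤ) : ℚ) - (t0 : ℚ)) / ((m : ℤ) : ℚ))
      push_cast at h4 h5
      have h6 : ((H : ℚ) - t0) / m - (-(H : ℚ) - t0) / m = 2 * H / m := by
        field_simp
        ring
      linarith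
    · positivity
  have h7 : (((Ioo (-(H : ℤ)) H).filter (fun t => ∀ q ∈ D, (q : ℤ) ∣ A * t + Bb)).card : ℚ) ≤
      2 * H / m + 1 := by
    refine le_trans ?_ h3
    exact_mod_cast hcard
  have h8 : ((((Ioo (-(H : ℤ)) H).filter
      (fun t => ∀ q ∈ D, (q : ℤ) ∣ A * t + Bb)).card : ℚ) : ℝ) ≤ ((2 * H / m + 1 : ℚ) : ℝ) := by
    exact_mod_cast h7
  push_cast at h8
  exact h8

theorem prod_sub_one24 (s : Finset ℕ) (f : ℕ → ℝ) :
    ∏ i ∈ s, (1 + f i) - 1 = ∑ D ∈ s.powerset.erase ∅, ∏ i ∈ D, f i := by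
  classical
  rw [Finset.prod_one_add, ← Finset.add_sum_erase s.powerset _ (Finset.empty_mem_powerset s)]
  simp

theorem exp_prod24 (s : Finset ℕ) (f : ℕ → ℝ) (hf : ∀ i ∈ s, 0 ≤ f i) :
    ∏ i ∈ s, (1 + f i) ≤ Real.exp (∑ i ∈ s, f i) := by
  rw [Real.exp_sum]
  apply Finset.prod_le_prod
  · intro i hi
    have := hf i hi
    linarith
  · intro i _
    rw [add_comm]
    exact Real.add_one_le_exp _

/-- one form, small primes -/
theorem small24 (C : ℕ) (A Bb : ℤ) (z0 w : ℕ) (hz0 : 1 ≤ z0)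
    (hA : ∀ q ∈ PP z0 w, ¬ ((q : ℤ) ∣ A)) (H : ℕ) :
    ∑ t ∈ Ioo (-(H : ℤ)) H,
      (∏ q ∈ (PP z0 w).filter (fun q : ℕ => (q : ℤ) ∣ A * t + Bb), (1 + (C : ℝ) / q) - 1) ≤
      2 * H * (Real.exp (C / z0) - 1) + Real.exp (C * (1 + Real.log w)) := by
  classical
  have hPP : ∀ q ∈ PP z0 w, q.Prime ∧ z0 < q ∧ q ≤ w := by
    intro q hq
    unfold PP at hq
    rw [mem_filter, mem_Ioc] at hq
    exact ⟨hq.2, hq.1.1, hq.1.2⟩
  have h1 : ∀ t ∈ Ioo (-(H : ℤ)) H,
      (∏ q ∈ (PP z0 w).filter (fun q : ℕ => (q : ℤ) ∣ A * t + Bb), (1 + (C : ℝ) / q) - 1) =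
      ∑ D ∈ (PP z0 w).powerset.erase ∅,
        if (∀ q ∈ D, (q : ℤ) ∣ A * t + Bb) then ∏ q ∈ D, ((C : ℝ) / q) else 0 := by
    intro t _
    rw [prod_sub_one24, ← Finset.sum_filter]
    apply Finset.sum_congr _ (fun _ _ => rfl)
    ext D
    simp only [mem_erase, mem_powerset, mem_filter, Finset.subset_iff]
    constructor
    · rintro ⟨h1, h2⟩
      exact ⟨⟨h1, fun q hq => (h2 hq).1⟩, fun q hq => (h2 hq).2⟩
    · rintro ⟨⟨h1, h2⟩, h3⟩
      exact ⟨h1, fun q hq => ⟨h2 hq, h3 q hq⟩⟩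
  rw [Finset.sum_congr rfl h1, Finset.sum_comm]
  have h2 : ∀ D ∈ (PP z0 w).powerset.erase ∅,
      (∑ t ∈ Ioo (-(H : ℤ)) H,
        if (∀ q ∈ D, (q : ℤ) ∣ A * t + Bb) then ∏ q ∈ D, ((C : ℝ) / q) else 0) ≤
      2 * H * ∏ q ∈ D, ((C : ℝ) / q ^ 2) + ∏ q ∈ D, ((C : ℝ) / q) := by
    intro D hD
    rw [mem_erase, mem_powerset] at hD
    rw [← Finset.sum_filter, Finset.sum_const, nsmul_eq_mul]
    have h3 := cnt24 A Bb D (fun q hq => ⟨(hPP q (hD.2 hq)).1, hA q (hD.2 hq)⟩) H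
    have h4 : 0 ≤ ∏ q ∈ D, ((C : ℝ) / q) := Finset.prod_nonneg (fun q _ => by positivity)
    refine le_trans (mul_le_mul_of_nonneg_right h3 h4) (le_of_eq ?_)
    have h5 : ∏ q ∈ D, ((C : ℝ) / (q : ℝ) ^ 2) =
        (∏ q ∈ D, ((C : ℝ) / (q : ℝ))) / ∏ q ∈ D, (q : ℝ) := by
      rw [← Finset.prod_div_distrib]
      apply Finset.prod_congr rfl
      intro q _
      rw [div_div]
      ring
    rw [h5]
    push_cast
    ring
  refine le_trans (Finset.sum_le_sum h2) ?_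
  rw [Finset.sum_add_distrib, ← Finset.mul_sum, ← prod_sub_one24, ← prod_sub_one24]
  have h6 : ∏ q ∈ PP z0 w, (1 + (C : ℝ) / (q : ℝ) ^ 2) ≤ Real.exp (C / z0) := by
    refine le_trans (exp_prod24 _ _ (fun q _ => by positivity)) ?_
    apply Real.exp_le_exp.2
    have h7 := MP_c6d112_nt.DO.sum_inv_sq_le z0 hz0 (PP z0 w) (fun q hq => (hPP q hq).2.1)
    have h8 : ∑ q ∈ PP z0 w, ((C : ℝ) / (q : ℝ) ^ 2) =
        C * ∑ q ∈ PP z0 w, (1 / (q : ℝ) ^ 2) := by
      rw [Finset.mul_sum]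
      exact Finset.sum_congr rfl (fun q _ => by ring)
    rw [h8]
    calc (C : ℝ) * ∑ q ∈ PP z0 w, (1 / (q : ℝ) ^ 2) ≤ C * (1 / z0) :=
          mul_le_mul_of_nonneg_left h7 (Nat.cast_nonneg C)
      _ = C / z0 := by ring
  have h9 : ∏ q ∈ PP z0 w, (1 + (C : ℝ) / (q : ℝ)) ≤ Real.exp (C * (1 + Real.log w)) := by
    refine le_trans (exp_prod24 _ _ (fun q _ => by positivity)) ?_
    apply Real.exp_le_exp.2
    have h8 : ∑ q ∈ PP z0 w, ((C : ℝ) / (q : ℝ)) =
        C * ∑ q ∈ PP z0 w, ((q : ℝ)⁻¹) := by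
      rw [Finset.mul_sum]
      exact Finset.sum_congr rfl (fun q _ => by rw [div_eq_mul_inv])
    rw [h8]
    apply mul_le_mul_of_nonneg_left _ (Nat.cast_nonneg C)
    have h10 := harmonic_le_one_add_log w
    refine le_trans ?_ h10
    rw [harmonic_eq_sum_Icc]
    push_cast
    apply Finset.sum_le_sum_of_subset_of_nonneg
    · intro q hq
      have := hPP q hq
      rw [mem_Icc]
      omega
    · intro q _ _
      positivity
  have hH : (0 : ℝ) ≤ 2 * H := by positivity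
  have h11 : 2 * (H : ℝ) * (∏ q ∈ PP z0 w, (1 + (C : ℝ) / (q : ℝ) ^ 2) - 1) ≤
      2 * H * (Real.exp (C / z0) - 1) := mul_le_mul_of_nonneg_left (by linarith) hH
  linarith

theorem card_PP_dvd24 (w z : ℕ) (n : ℤ) (hn : n ≠ 0) (M : ℕ) (hM : |n| < 2 ^ M) :
    ((PP w z).filter (fun q : ℕ => (q : ℤ) ∣ n)).card ≤ M := by
  classical
  set S := (PP w z).filter (fun q : ℕ => (q : ℤ) ∣ n) with hS
  have hprime : ∀ q ∈ S, q.Prime := by
    intro q hq
    rw [hS, mem_filter] at hq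
    unfold PP at hq
    rw [mem_filter] at hq
    exact hq.1.2
  have h1 : (∏ q ∈ S, (q : ℤ)) ∣ n := by
    apply Finset.prod_dvd_of_coprime
    · intro p hp q hq hpq
      have := (Nat.coprime_primes (hprime p hp) (hprime q hq)).2 hpq
      exact Nat.isCoprime_iff_coprime.2 this
    · intro q hq
      rw [hS, mem_filter] at hq
      exact hq.2
  have h2 : (2 : ℤ) ^ S.card ≤ ∏ q ∈ S, (q : ℤ) := by
    rw [← Finset.prod_const]
    apply Finset.prod_le_prod
    · intro q _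
      norm_num
    · intro q hq
      exact_mod_cast (hprime q hq).two_le
  have h3 : ∏ q ∈ S, (q : ℤ) ≤ |n| := by
    apply Int.le_of_dvd (abs_pos.2 hn)
    rw [dvd_abs]
    exact h1
  have h4 : (2 : ℤ) ^ S.card < 2 ^ M := by linarith
  have h5 : S.card < M := (pow_lt_pow_iff_right₀ (by norm_num : (1 : ℤ) < 2)).1 h4
  exact h5.le

/-- eventually in `L` -/
theorem lim24 (C : ℕ) (B : ℕ) (η : ℝ) (hη : 0 < η) : ∃ L0 : ℕ, ∀ L : ℕ, L0 ≤ L →
    1 ≤ L ∧ Real.exp (C * (1 + Real.log ((L ^ 2 : ℕ) : ℝ))) ≤ η * 2 ^ L ∧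
    (1 + (C : ℝ) / ((L ^ 2 : ℕ) : ℝ)) ^ (2 + 3 * B * (L + 1)) ≤ 1 + η ∧ L ^ 2 ≤ 2 ^ L := by
  have h1 : Filter.Tendsto (fun L : ℕ => (L : ℝ) ^ (2 * C) / (2 : ℝ) ^ L) Filter.atTop
      (nhds 0) := tendsto_pow_const_div_const_pow_of_one_lt (2 * C) (by norm_num)
  have h2 : Filter.Tendsto (fun L : ℕ => (L : ℝ) ^ 2 / (2 : ℝ) ^ L) Filter.atTop
      (nhds 0) := tendsto_pow_const_div_const_pow_of_one_lt 2 (by norm_num)
  have h3 : Filter.Tendsto (fun L : ℕ => (L : ℝ)) Filter.atTop Filter.atTop :=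
    tendsto_natCast_atTop_atTop
  have hlog : 0 < Real.log (1 + η) := Real.log_pos (by linarith)
  have e1 := h1.eventually (gt_mem_nhds (show (0 : ℝ) < η / Real.exp C by positivity))
  have e2 := h2.eventually (gt_mem_nhds (show (0 : ℝ) < 1 by norm_num))
  have e3 := h3.eventually_ge_atTop (max 1 (C * (2 + 6 * B) / Real.log (1 + η)))
  obtain ⟨L0, hL0⟩ := Filter.eventually_atTop.1 (e1.and (e2.and e3))
  refine ⟨L0, fun L hL => ?_⟩
  obtain ⟨f1, f2, f3⟩ := hL0 L hL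
  have hL1 : (1 : ℝ) ≤ L := le_trans (le_max_left _ _) f3
  have hL1' : 1 ≤ L := by exact_mod_cast hL1
  have hL2 : C * (2 + 6 * B) / Real.log (1 + η) ≤ L := le_trans (le_max_right _ _) f3
  refine ⟨hL1', ?_, ?_, ?_⟩
  · have hpos : (0 : ℝ) < L := by linarith
    rw [mul_add, mul_one, Real.exp_add]
    have h4 : Real.exp (C * Real.log ((L ^ 2 : ℕ) : ℝ)) = (L : ℝ) ^ (2 * C) := by
      push_cast
      rw [Real.log_pow, show (C : ℝ) * (((2 : ℕ) : ℝ) * Real.log L) =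
        ((2 * C : ℕ) : ℝ) * Real.log L by push_cast; ring, Real.exp_nat_mul,
        Real.exp_log hpos]
    rw [h4]
    rw [div_lt_div_iff₀ (by positivity) (Real.exp_pos _)] at f1
    linarith
  · have hpos : (0 : ℝ) < L := by linarith
    have h5 : (1 + (C : ℝ) / ((L ^ 2 : ℕ) : ℝ)) ≤ Real.exp ((C : ℝ) / ((L ^ 2 : ℕ) : ℝ)) := by
      rw [add_comm]
      exact Real.add_one_le_exp _
    refine le_trans (pow_le_pow_left₀ (by positivity) h5 _) ?_
    rw [← Real.exp_nat_mul]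
    have h6 : ((2 + 3 * B * (L + 1) : ℕ) : ℝ) * ((C : ℝ) / ((L ^ 2 : ℕ) : ℝ)) ≤
        Real.log (1 + η) := by
      rw [div_le_iff₀ hlog] at hL2
      push_cast
      rw [← mul_div_assoc, div_le_iff₀ (by positivity)]
      have h7 : (2 + 3 * (B : ℝ) * (L + 1)) * C ≤ (C * (2 + 6 * B)) * L := by
        have hB : (0 : ℝ) ≤ B := Nat.cast_nonneg B
        have hC : (0 : ℝ) ≤ C := Nat.cast_nonneg C
        have h8 : 2 + 3 * (B : ℝ) * (L + 1) ≤ (2 + 6 * B) * L := by nlinarith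
        calc (2 + 3 * (B : ℝ) * (L + 1)) * C ≤ ((2 + 6 * B) * L) * C :=
              mul_le_mul_of_nonneg_right h8 hC
          _ = (C * (2 + 6 * B)) * L := by ring
      refine le_trans h7 ?_
      calc (C * (2 + 6 * (B : ℝ))) * L ≤ (L * Real.log (1 + η)) * L :=
            mul_le_mul_of_nonneg_right hL2 hpos.le
        _ = Real.log (1 + η) * (L : ℝ) ^ 2 := by ring
    calc Real.exp (((2 + 3 * B * (L + 1) : ℕ) : ℝ) * ((C : ℝ) / ((L ^ 2 : ℕ) : ℝ))) ≤
          Real.exp (Real.log (1 + η)) := Real.exp_le_exp.2 h6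
      _ = 1 + η := Real.exp_log (by linarith)
  · rw [div_lt_one (by positivity)] at f2
    have : ((L ^ 2 : ℕ) : ℝ) < ((2 ^ L : ℕ) : ℝ) := by
      push_cast
      exact f2
    exact_mod_cast this.le

/-- average of the singular series, one form -/
theorem single24 (C : ℕ) (ε : ℝ) (hε : 0 < ε) : ∃ zs : ℕ, ∀ z0 : ℕ, zs ≤ z0 → ∀ B : ℕ,
    ∃ z1 : ℕ, ∀ z : ℕ, z1 ≤ z → ∀ A Bb : ℤ, |A| ≤ (z : ℤ) ^ (2 * B) →
    |Bb| ≤ 2 * (z : ℤ) ^ (2 * B) → (∀ q ∈ PP z0 z, ¬ ((q : ℤ) ∣ A)) →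
    ∀ H : ℕ, z ≤ H → H ≤ z ^ B →
    ∑ t ∈ (Ioo (-(H : ℤ)) H).filter (fun t => A * t + Bb ≠ 0),
      (∏ q ∈ (PP z0 z).filter (fun q : ℕ => (q : ℤ) ∣ A * t + Bb), (1 + (C : ℝ) / q) - 1) ≤
      ε * H := by
  classical
  set η : ℝ := min 1 (ε / 16) with hη
  have hη0 : 0 < η := lt_min one_pos (by positivity)
  have hη1 : η ≤ 1 := min_le_left _ _
  have hη2 : η ≤ ε / 16 := min_le_right _ _
  have hlog : 0 < Real.log (1 + η) := Real.log_pos (by linarith)
  obtain ⟨zs, hzs⟩ := exists_nat_ge (max 1 (C / Real.log (1 + η)))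
  refine ⟨zs, fun z0 hz0 B => ?_⟩
  have hz0' : (zs : ℝ) ≤ z0 := by exact_mod_cast hz0
  have hz01 : (1 : ℝ) ≤ z0 := le_trans (le_trans (le_max_left _ _) hzs) hz0'
  have hz01' : 1 ≤ z0 := by exact_mod_cast hz01
  have hz02 : C / Real.log (1 + η) ≤ z0 := le_trans (le_trans (le_max_right _ _) hzs) hz0'
  have hexp : Real.exp (C / z0) ≤ 1 + η := by
    rw [div_le_iff₀ hlog] at hz02
    have h1 : (C : ℝ) / z0 ≤ Real.log (1 + η) := by
      rw [div_le_iff₀ (by linarith)]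
      linarith
    calc Real.exp (C / z0) ≤ Real.exp (Real.log (1 + η)) := Real.exp_le_exp.2 h1
      _ = 1 + η := Real.exp_log (by linarith)
  obtain ⟨L0, hL0⟩ := lim24 C B η hη0
  refine ⟨2 ^ (max L0 (z0 + 1)), fun z hz A Bb hA hBb hq H hH1 hH2 => ?_⟩
  have hzpos : 0 < z := lt_of_lt_of_le (by positivity) hz
  set L := Nat.log 2 z with hL
  have hLge : max L0 (z0 + 1) ≤ L := by
    rw [hL]
    exact Nat.le_log_of_pow_le (by norm_num) hz
  obtain ⟨g1, g2, g3, g4⟩ := hL0 L (le_trans (le_max_left _ _) hLge)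
  have hLz0 : z0 + 1 ≤ L := le_trans (le_max_right _ _) hLge
  have hz2L : 2 ^ L ≤ z := Nat.pow_log_le_self 2 hzpos.ne'
  have hz2L' : z < 2 ^ (L + 1) := Nat.lt_pow_succ_log_self (by norm_num) z
  set w : ℕ := L ^ 2 with hw
  have hw1 : z0 ≤ w := by
    rw [hw]
    nlinarith
  have hw2 : w ≤ z := le_trans g4 hz2L
  have hwpos : (0 : ℝ) < w := by
    rw [hw]
    have : 0 < L ^ 2 := by positivity
    exact_mod_cast this
  -- splitting of the primes
  have hsplit : ∀ t : ℤ,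
      ∏ q ∈ (PP z0 z).filter (fun q : ℕ => (q : ℤ) ∣ A * t + Bb), (1 + (C : ℝ) / q) =
      (∏ q ∈ (PP z0 w).filter (fun q : ℕ => (q : ℤ) ∣ A * t + Bb), (1 + (C : ℝ) / q)) *
      ∏ q ∈ (PP w z).filter (fun q : ℕ => (q : ℤ) ∣ A * t + Bb), (1 + (C : ℝ) / q) := by
    intro t
    rw [← Finset.prod_union]
    · apply Finset.prod_congr _ (fun _ _ => rfl)
      ext q
      unfold PP
      simp only [mem_filter, mem_union, mem_Ioc]
      constructor
      · rintro ⟨⟨⟨h1, h2⟩, h3⟩, h4⟩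
        rcases le_or_gt q w with h5 | h5
        · exact Or.inl ⟨⟨⟨h1, h5⟩, h3⟩, h4⟩
        · exact Or.inr ⟨⟨⟨h5, h2⟩, h3⟩, h4⟩
      · rintro (⟨⟨⟨h1, h2⟩, h3⟩, h4⟩ | ⟨⟨⟨h1, h2⟩, h3⟩, h4⟩)
        · exact ⟨⟨⟨h1, le_trans h2 hw2⟩, h3⟩, h4⟩
        · exact ⟨⟨⟨lt_of_le_of_lt hw1 h1, h2⟩, h3⟩, h4⟩
    · rw [Finset.disjoint_left]
      intro q h1 h2
      unfold PP at h1 h2
      simp only [mem_filter, mem_Ioc] at h1 h2
      omega
  have hone : ∀ (a b : ℕ) (t : ℤ),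
      1 ≤ ∏ q ∈ (PP a b).filter (fun q : ℕ => (q : ℤ) ∣ A * t + Bb), (1 + (C : ℝ) / q) := by
    intro a b t
    calc (1 : ℝ) = ∏ q ∈ (PP a b).filter (fun q : ℕ => (q : ℤ) ∣ A * t + Bb), (1 : ℝ) := by simp
      _ ≤ _ := Finset.prod_le_prod (fun _ _ => zero_le_one) (fun q _ => by
          have : (0 : ℝ) ≤ C / q := by positivity
          linarith)
  -- large primes
  have hlarge : ∀ t ∈ (Ioo (-(H : ℤ)) H).filter (fun t => A * t + Bb ≠ 0),
      ∏ q ∈ (PP w z).filter (fun q : ℕ => (q : ℤ) ∣ A * t + Bb), (1 + (C : ℝ) / q) ≤ 1 + η := by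
    intro t ht
    rw [mem_filter, mem_Ioo] at ht
    have h1 : |A * t + Bb| < 2 ^ (2 + 3 * B * (L + 1)) := by
      have hzz : (0 : ℤ) < (z : ℤ) := by exact_mod_cast hzpos
      have h2 : |t| ≤ (z : ℤ) ^ B := by
        have h3 : |t| ≤ (H : ℤ) := by
          rw [abs_le]
          exact ⟨by linarith [ht.1.1], ht.1.2.le⟩
        have h4 : (H : ℤ) ≤ (z : ℤ) ^ B := by exact_mod_cast hH2
        exact le_trans h3 h4
      have h5 : |A * t + Bb| ≤ 3 * (z : ℤ) ^ (3 * B) := by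
        have h6 : |A * t| ≤ (z : ℤ) ^ (3 * B) := by
          rw [abs_mul]
          calc |A| * |t| ≤ (z : ℤ) ^ (2 * B) * (z : ℤ) ^ B :=
                mul_le_mul hA h2 (abs_nonneg _) (by positivity)
            _ = (z : ℤ) ^ (3 * B) := by rw [← pow_add]; ring_nf
        have h7 : (z : ℤ) ^ (2 * B) ≤ (z : ℤ) ^ (3 * B) :=
          pow_le_pow_right₀ (by linarith) (by omega)
        have h8 := abs_add_le (A * t) Bb
        linarith
      have h9 : (z : ℤ) ^ (3 * B) ≤ (2 : ℤ) ^ ((L + 1) * (3 * B)) := by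
        calc (z : ℤ) ^ (3 * B) ≤ ((2 : ℤ) ^ (L + 1)) ^ (3 * B) := by
              apply pow_le_pow_left₀ hzz.le
              exact_mod_cast hz2L'.le
          _ = (2 : ℤ) ^ ((L + 1) * (3 * B)) := (pow_mul _ _ _).symm
      have h10 : (2 : ℤ) ^ (2 + 3 * B * (L + 1)) = 4 * (2 : ℤ) ^ ((L + 1) * (3 * B)) := by
        rw [pow_add]
        ring_nf
      have h11 : (0 : ℤ) < (2 : ℤ) ^ ((L + 1) * (3 * B)) := by positivity
      rw [h10]
      linarith
    have h2 := card_PP_dvd24 w z (A * t + Bb) ht.2 _ h1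
    have hCw : (0 : ℝ) ≤ C / w := by positivity
    calc ∏ q ∈ (PP w z).filter (fun q : ℕ => (q : ℤ) ∣ A * t + Bb), (1 + (C : ℝ) / q)
        ≤ ∏ _q ∈ (PP w z).filter (fun q : ℕ => (q : ℤ) ∣ A * t + Bb), (1 + (C : ℝ) / w) := by
          apply Finset.prod_le_prod
          · intro q _
            positivity
          · intro q hq'
            unfold PP at hq'
            simp only [mem_filter, mem_Ioc] at hq'
            have h3 : (w : ℝ) ≤ q := by exact_mod_cast hq'.1.1.1.le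
            have h4 : (C : ℝ) / q ≤ C / w :=
              div_le_div_of_nonneg_left (Nat.cast_nonneg C) hwpos h3
            linarith
      _ = (1 + (C : ℝ) / w) ^ ((PP w z).filter (fun q : ℕ => (q : ℤ) ∣ A * t + Bb)).card := by
          rw [Finset.prod_const]
      _ ≤ (1 + (C : ℝ) / w) ^ (2 + 3 * B * (L + 1)) :=
          pow_le_pow_right₀ (by linarith) h2
      _ ≤ 1 + η := g3
  have hsm := small24 C A Bb z0 w hz01' (fun q hq' => hq q (by
    unfold PP at hq' ⊢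
    rw [mem_filter, mem_Ioc] at hq' ⊢
    exact ⟨⟨hq'.1.1, le_trans hq'.1.2 hw2⟩, hq'.2⟩)) H
  have hfin : ∑ t ∈ (Ioo (-(H : ℤ)) H).filter (fun t => A * t + Bb ≠ 0),
      (∏ q ∈ (PP z0 z).filter (fun q : ℕ => (q : ℤ) ∣ A * t + Bb), (1 + (C : ℝ) / q) - 1) ≤
      ∑ t ∈ (Ioo (-(H : ℤ)) H).filter (fun t => A * t + Bb ≠ 0),
        (2 * (∏ q ∈ (PP z0 w).filter (fun q : ℕ => (q : ℤ) ∣ A * t + Bb), (1 + (C : ℝ) / q) - 1)
          + η) := by
    apply Finset.sum_le_sum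
    intro t ht
    rw [hsplit t]
    have h1 := hlarge t ht
    have h2 := hone z0 w t
    set P1 := ∏ q ∈ (PP z0 w).filter (fun q : ℕ => (q : ℤ) ∣ A * t + Bb), (1 + (C : ℝ) / q)
    set P2 := ∏ q ∈ (PP w z).filter (fun q : ℕ => (q : ℤ) ∣ A * t + Bb), (1 + (C : ℝ) / q)
    have h3 : P1 * P2 ≤ P1 * (1 + η) := mul_le_mul_of_nonneg_left h1 (by linarith)
    nlinarith
  refine le_trans hfin ?_
  rw [Finset.sum_add_distrib, ← Finset.mul_sum, Finset.sum_const, nsmul_eq_mul]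
  have hsub : ∑ t ∈ (Ioo (-(H : ℤ)) H).filter (fun t => A * t + Bb ≠ 0),
      (∏ q ∈ (PP z0 w).filter (fun q : ℕ => (q : ℤ) ∣ A * t + Bb), (1 + (C : ℝ) / q) - 1) ≤
      ∑ t ∈ Ioo (-(H : ℤ)) H,
      (∏ q ∈ (PP z0 w).filter (fun q : ℕ => (q : ℤ) ∣ A * t + Bb), (1 + (C : ℝ) / q) - 1) := by
    apply Finset.sum_le_sum_of_subset_of_nonneg (Finset.filter_subset _ _)
    intro t _ _
    have := hone z0 w t
    linarith
  have hcard : (((Ioo (-(H : ℤ)) H).filter (fun t => A * t + Bb ≠ 0)).card : ℝ) ≤ 2 * H := by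
    have h1 := Finset.card_filter_le (Ioo (-(H : ℤ)) H) (fun t => A * t + Bb ≠ 0)
    rw [Int.card_Ioo] at h1
    have h2 : ((H : ℤ) - (-(H : ℤ)) - 1).toNat ≤ 2 * H := by omega
    exact_mod_cast le_trans h1 h2
  have hHpos : (0 : ℝ) ≤ H := Nat.cast_nonneg H
  have h1 : (2 : ℝ) ^ L ≤ H := by
    have : 2 ^ L ≤ H := le_trans hz2L hH1
    exact_mod_cast this
  have h2 : Real.exp (C * (1 + Real.log w)) ≤ η * H :=
    le_trans g2 (mul_le_mul_of_nonneg_left h1 hη0.le)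
  have h3 : 2 * (H : ℝ) * (Real.exp (C / z0) - 1) ≤ 2 * H * η :=
    mul_le_mul_of_nonneg_left (by linarith) (by positivity)
  have h4 : η * H ≤ ε / 16 * H := mul_le_mul_of_nonneg_right hη2 hHpos
  have h5 : (((Ioo (-(H : ℤ)) H).filter (fun t => A * t + Bb ≠ 0)).card : ℝ) * η ≤ 2 * H * η :=
    mul_le_mul_of_nonneg_right hcard hη0.le
  nlinarith

theorem pow24 (C : ℕ) (J : ℕ) (q : ℕ) (hq : 1 ≤ q) :
    (1 + (C : ℝ) / q) ^ J ≤ 1 + (((1 + C) ^ J : ℕ) : ℝ) / q := by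
  have hq' : (1 : ℝ) ≤ q := by exact_mod_cast hq
  have hq0 : (0 : ℝ) < q := by linarith
  have key : (1 + (C : ℝ) / q) ^ J ≤ 1 + ((1 + (C : ℝ)) ^ J - 1) / q := by
    induction J with
    | zero => simp
    | succ J ih =>
      have hC : (0 : ℝ) ≤ C := Nat.cast_nonneg C
      have h1 : (1 : ℝ) ≤ (1 + (C : ℝ)) ^ J := one_le_pow₀ (by linarith)
      rw [pow_succ]
      calc (1 + (C : ℝ) / q) ^ J * (1 + (C : ℝ) / q)
          ≤ (1 + ((1 + (C : ℝ)) ^ J - 1) / q) * (1 + (C : ℝ) / q) :=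
            mul_le_mul_of_nonneg_right ih (by positivity)
        _ = 1 + ((1 + (C : ℝ)) ^ J - 1) / q + C / q +
              (((1 + (C : ℝ)) ^ J - 1) * C / q) * (1 / q) := by
            field_simp
            ring
        _ ≤ 1 + ((1 + (C : ℝ)) ^ J - 1) / q + C / q +
              (((1 + (C : ℝ)) ^ J - 1) * C / q) * 1 := by
            have h2 : (1 : ℝ) / q ≤ 1 := by
              rw [div_le_one hq0]
              exact hq'
            have h3 : 0 ≤ ((1 + (C : ℝ)) ^ J - 1) * C / q := by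
              apply div_nonneg (mul_nonneg (by linarith) hC) hq0.le
            have := mul_le_mul_of_nonneg_left h2 h3
            linarith
        _ = 1 + ((1 + (C : ℝ)) ^ (J + 1) - 1) / q := by
            field_simp
            ring
  refine le_trans key ?_
  push_cast
  have : ((1 + (C : ℝ)) ^ J - 1) / q ≤ (1 + (C : ℝ)) ^ J / q := by
    apply div_le_div_of_nonneg_right _ hq0.le
    linarith
  linarith

/-- arithmetic-geometric mean in the form used below -/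
theorem amgm24 {ι : Type*} [Fintype ι] [Nonempty ι] (f : ι → ℝ) (hf : ∀ i, 1 ≤ f i) :
    ∏ i, f i - 1 ≤ (1 / (Fintype.card ι : ℝ)) * ∑ i, (f i ^ (Fintype.card ι) - 1) := by
  set J := Fintype.card ι with hJ
  have hJ0 : J ≠ 0 := Fintype.card_ne_zero
  have hJ' : (0 : ℝ) < J := by exact_mod_cast Nat.pos_of_ne_zero hJ0
  have h := Real.geom_mean_le_arith_mean_weighted Finset.univ (fun _ : ι => (J : ℝ)⁻¹)
    (fun i => f i ^ J) (fun _ _ => by positivity)
    (by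
      rw [Finset.sum_const, Finset.card_univ, nsmul_eq_mul, ← hJ]
      exact mul_inv_cancel₀ hJ'.ne')
    (fun i _ => pow_nonneg (by linarith [hf i]) _)
  have h1 : ∀ i, (f i ^ J) ^ ((J : ℝ)⁻¹) = f i := fun i =>
    Real.pow_rpow_inv_natCast (by linarith [hf i]) hJ0
  simp only [h1] at h
  rw [Finset.sum_sub_distrib, Finset.sum_const, Finset.card_univ, nsmul_eq_mul, ← hJ, mul_sub,
    Finset.mul_sum]
  have h2 : 1 / (J : ℝ) * (J * 1) = 1 := by
    field_simp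
  rw [h2]
  have h3 : ∑ i, (J : ℝ)⁻¹ * f i ^ J = ∑ i, 1 / (J : ℝ) * f i ^ J := by
    simp [one_div]
  linarith

/-- average of the singular series of the system `{F, F shifted by t}` -/
theorem avg24 (k C : ℕ) (ε : ℝ) (hε : 0 < ε) : ∃ zs : ℕ, ∀ z0 : ℕ, zs ≤ z0 → ∀ B : ℕ,
    ∃ z1 : ℕ, ∀ z : ℕ, z1 ≤ z → ∀ a b : Fin k → ℤ,
    (∀ j, |a j| ≤ (z : ℤ) ^ B ∧ |b j| ≤ (z : ℤ) ^ B ∧
      ∀ q ∈ PP z0 z, ¬ ((q : ℤ) ∣ a j)) →
    ∀ H : ℕ, z ≤ H → H ≤ z ^ B →
    ∑ t ∈ (Ioo (-(H : ℤ)) H).filter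
        (fun t => ∀ i j, a i * a j * t + a i * b j - a j * b i ≠ 0),
      (∏ q ∈ (PP z0 z).filter
        (fun q : ℕ => ∃ i j, (q : ℤ) ∣ a i * a j * t + a i * b j - a j * b i),
          (1 + (C : ℝ) / q) - 1) ≤ ε * H := by
  classical
  rcases Nat.eq_zero_or_pos k with hk | hk
  · subst hk
    refine ⟨0, fun z0 _ B => ⟨0, fun z _ a b _ H _ _ => ?_⟩⟩
    simp
    positivity
  set J := Fintype.card (Fin k × Fin k) with hJ
  obtain ⟨zs, hzs⟩ := single24 ((1 + C) ^ J) ε hε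
  refine ⟨zs, fun z0 hz0 B => ?_⟩
  obtain ⟨z1, hz1⟩ := hzs z0 hz0 B
  refine ⟨max z1 1, fun z hz a b hab H hH1 hH2 => ?_⟩
  have hzz1 : z1 ≤ z := le_trans (le_max_left _ _) hz
  haveI : Nonempty (Fin k × Fin k) := ⟨(⟨0, hk⟩, ⟨0, hk⟩)⟩
  have hJ0 : (0 : ℝ) < J := by
    rw [hJ]
    exact_mod_cast Fintype.card_pos
  set Δ : Fin k × Fin k → ℤ → ℤ :=
    fun x t => a x.1 * a x.2 * t + (a x.1 * b x.2 - a x.2 * b x.1) with hΔ
  have hΔe : ∀ i j t, a i * a j * t + a i * b j - a j * b i = Δ (i, j) t := by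
    intro i j t
    simp only [hΔ]
    ring
  set f : Fin k × Fin k → ℤ → ℝ := fun x t =>
    ∏ q ∈ (PP z0 z).filter (fun q : ℕ => (q : ℤ) ∣ Δ x t), (1 + (C : ℝ) / q) with hf
  have hf1 : ∀ x t, 1 ≤ f x t := by
    intro x t
    calc (1 : ℝ) = ∏ q ∈ (PP z0 z).filter (fun q : ℕ => (q : ℤ) ∣ Δ x t), (1 : ℝ) := by simp
      _ ≤ _ := Finset.prod_le_prod (fun _ _ => zero_le_one) (fun q _ => by
          have : (0 : ℝ) ≤ C / q := by positivity
          linarith)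
  have hterm : ∀ t : ℤ,
      (∏ q ∈ (PP z0 z).filter
        (fun q : ℕ => ∃ i j, (q : ℤ) ∣ a i * a j * t + a i * b j - a j * b i),
          (1 + (C : ℝ) / q)) ≤ ∏ x, f x t := by
    intro t
    simp only [hf, Finset.prod_filter]
    rw [Finset.prod_comm]
    apply Finset.prod_le_prod
    · intro q _
      split_ifs <;> positivity
    · intro q _
      have hCq : (0 : ℝ) ≤ C / q := by positivity
      split_ifs with h
      · obtain ⟨i, j, hij⟩ := h
        rw [hΔe] at hij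
        calc (1 + (C : ℝ) / q) = ∏ x : Fin k × Fin k, (if x = (i, j) then (1 + (C : ℝ) / q)
              else 1) := by
              rw [Finset.prod_ite_eq' Finset.univ (i, j) (fun _ => (1 + (C : ℝ) / q))]
              simp
          _ ≤ ∏ x, (if (q : ℤ) ∣ Δ x t then (1 + (C : ℝ) / q) else 1) := by
              apply Finset.prod_le_prod
              · intro x _
                split_ifs <;> linarith
              · intro x _
                by_cases hx : x = (i, j)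
                · subst hx
                  simp [hij]
                · rw [if_neg hx]
                  split_ifs <;> linarith
      · calc (1 : ℝ) = ∏ _x : Fin k × Fin k, (1 : ℝ) := by simp
          _ ≤ _ := Finset.prod_le_prod (fun _ _ => zero_le_one) (fun x _ => by
              split_ifs <;> linarith)
  have hpow : ∀ x t, f x t ^ J ≤
      ∏ q ∈ (PP z0 z).filter (fun q : ℕ => (q : ℤ) ∣ Δ x t),
        (1 + (((1 + C) ^ J : ℕ) : ℝ) / q) := by
    intro x t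
    simp only [hf]
    rw [← Finset.prod_pow]
    apply Finset.prod_le_prod
    · intro q _
      positivity
    · intro q hq
      apply pow24
      rw [mem_filter] at hq
      unfold PP at hq
      rw [mem_filter] at hq
      exact hq.1.2.one_le
  have hx : ∀ x : Fin k × Fin k,
      ∑ t ∈ (Ioo (-(H : ℤ)) H).filter
        (fun t => ∀ i j, a i * a j * t + a i * b j - a j * b i ≠ 0), (f x t ^ J - 1) ≤
      ε * H := by
    intro x
    have hz1' : (1 : ℤ) ≤ z := by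
      have : 1 ≤ z := le_trans (le_max_right _ _) hz
      exact_mod_cast this
    have e1 : |a x.1 * a x.2| ≤ (z : ℤ) ^ (2 * B) := by
      rw [abs_mul, two_mul, pow_add]
      exact mul_le_mul (hab x.1).1 (hab x.2).1 (abs_nonneg _) (by positivity)
    have e2 : |a x.1 * b x.2 - a x.2 * b x.1| ≤ 2 * (z : ℤ) ^ (2 * B) := by
      have e3 : |a x.1 * b x.2| ≤ (z : ℤ) ^ (2 * B) := by
        rw [abs_mul, two_mul, pow_add]
        exact mul_le_mul (hab x.1).1 (hab x.2).2.1 (abs_nonneg _) (by positivity)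
      have e4 : |a x.2 * b x.1| ≤ (z : ℤ) ^ (2 * B) := by
        rw [abs_mul, two_mul, pow_add]
        exact mul_le_mul (hab x.2).1 (hab x.1).2.1 (abs_nonneg _) (by positivity)
      have e5 := abs_sub (a x.1 * b x.2) (a x.2 * b x.1)
      linarith
    have e6 : ∀ q ∈ PP z0 z, ¬ ((q : ℤ) ∣ a x.1 * a x.2) := by
      intro q hq hdvd
      have hp : Prime (q : ℤ) := by
        unfold PP at hq
        rw [mem_filter] at hq
        exact Nat.prime_iff_prime_int.1 hq.2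
      rcases hp.dvd_or_dvd hdvd with h | h
      · exact (hab x.1).2.2 q hq h
      · exact (hab x.2).2.2 q hq h
    have e7 := hz1 z hzz1 (a x.1 * a x.2) (a x.1 * b x.2 - a x.2 * b x.1) e1 e2 e6 H hH1 hH2
    refine le_trans ?_ e7
    refine le_trans ?_ (Finset.sum_le_sum_of_subset_of_nonneg (s := (Ioo (-(H : ℤ)) H).filter
        (fun t => ∀ i j, a i * a j * t + a i * b j - a j * b i ≠ 0)) ?_ ?_)
    · apply Finset.sum_le_sum
      intro t _
      have := hpow x t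
      simp only [hΔ] at this
      linarith
    · intro t ht
      rw [mem_filter] at ht ⊢
      refine ⟨ht.1, ?_⟩
      have := ht.2 x.1 x.2
      intro h0
      apply this
      linarith
    · intro t _ _
      rw [sub_nonneg]
      calc (1 : ℝ) = ∏ q ∈ (PP z0 z).filter (fun q : ℕ => (q : ℤ) ∣
            a x.1 * a x.2 * t + (a x.1 * b x.2 - a x.2 * b x.1)), (1 : ℝ) := by simp
        _ ≤ _ := Finset.prod_le_prod (fun _ _ => zero_le_one) (fun q _ => by
            have : (0 : ℝ) ≤ (((1 + C) ^ J : ℕ) : ℝ) / q := by positivity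
            linarith)
  calc ∑ t ∈ (Ioo (-(H : ℤ)) H).filter
        (fun t => ∀ i j, a i * a j * t + a i * b j - a j * b i ≠ 0),
      (∏ q ∈ (PP z0 z).filter
        (fun q : ℕ => ∃ i j, (q : ℤ) ∣ a i * a j * t + a i * b j - a j * b i),
          (1 + (C : ℝ) / q) - 1)
      ≤ ∑ t ∈ (Ioo (-(H : ℤ)) H).filter
        (fun t => ∀ i j, a i * a j * t + a i * b j - a j * b i ≠ 0),
        ((1 / (J : ℝ)) * ∑ x, (f x t ^ J - 1)) := by
        apply Finset.sum_le_sum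
        intro t _
        have h1 := hterm t
        have h2 := amgm24 (fun x => f x t) (fun x => hf1 x t)
        rw [← hJ] at h2
        linarith
    _ = (1 / (J : ℝ)) * ∑ x, ∑ t ∈ (Ioo (-(H : ℤ)) H).filter
        (fun t => ∀ i j, a i * a j * t + a i * b j - a j * b i ≠ 0), (f x t ^ J - 1) := by
        rw [← Finset.mul_sum, Finset.sum_comm]
    _ ≤ (1 / (J : ℝ)) * ∑ _x : Fin k × Fin k, ε * H :=
        mul_le_mul_of_nonneg_left (Finset.sum_le_sum (fun x _ => hx x)) (by positivity)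
    _ = ε * H := by
        rw [Finset.sum_const, Finset.card_univ, nsmul_eq_mul, ← hJ]
        field_simp

end Pool.Agent.Lib.TwinAll
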