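import Mathlib
import Pool.Agent.Lib.TwinAll.Aff81

/-!
THEOREM A (MP_c6d112_nt), S3, first part: the doubled system `F(n), F(n+t)`.
-/

set_option autoImplicit false

namespace Pool.Agent.Lib.TwinAll.T49

open Finset

variable {k : ℕ}

/-- leading coefficients of the doubled system -/
def da (a : Fin k → ℤ) : Fin (k + k) → ℤ := Fin.append a a

/-- constant coefficients of the doubled system -/
def db (a b : Fin k → ℤ) (t : ℤ) : Fin (k + k) → ℤ := Fin.append b (fun j => b j + a j * t)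

theorem forall_dbl (a b : Fin k → ℤ) (t n : ℤ) (P : ℤ → Prop) :
    (∀ j, P (da a j * n + db a b t j)) ↔
      (∀ j, P (a j * n + b j)) ∧ (∀ j, P (a j * (n + t) + b j)) := by
  constructor
  · intro h
    refine ⟨fun j => ?_, fun j => ?_⟩
    · have := h (Fin.castAdd k j)
      simpa [da, db, Fin.append_left] using this
    · have := h (Fin.natAdd k j)
      simp only [da, db, Fin.append_right] at this
      rw [show a j * (n + t) + b j = a j * n + (b j + a j * t) by ring]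
      exact this
  · rintro ⟨h1, h2⟩ j
    refine Fin.addCases (fun i => ?_) (fun i => ?_) j
    · simpa [da, db, Fin.append_left] using h1 i
    · have := h2 i
      rw [show a i * (n + t) + b i = a i * n + (b i + a i * t) by ring] at this
      simpa only [da, db, Fin.append_right] using this

theorem exists_dbl (a b : Fin k → ℤ) (t n : ℤ) (P : ℤ → Prop) :
    (∃ j, P (da a j * n + db a b t j)) ↔
      (∃ j, P (a j * n + b j)) ∨ (∃ j, P (a j * (n + t) + b j)) := by
  have h := forall_dbl a b t n (fun x => ¬ P x)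
  rw [← not_iff_not, not_or, not_exists, not_exists, not_exists]
  exact h

theorem da_forall (a : Fin k → ℤ) (P : ℤ → Prop) (h : ∀ j, P (a j)) : ∀ j, P (da a j) := by
  intro j
  refine Fin.addCases (fun i => ?_) (fun i => ?_) j
  · simpa [da, Fin.append_left] using h i
  · unfold da
    rw [Fin.append_right]
    exact h i

section om

variable (a b : Fin k → ℤ) (t : ℤ) {q : ℕ}

/-- the roots modulo `q` -/
def Zr (a b : Fin k → ℤ) (q : ℕ) [NeZero q] : Finset (ZMod q) :=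
  univ.filter (fun x => ∃ j, ((a j : ℤ) : ZMod q) * x + ((b j : ℤ) : ZMod q) = 0)

theorem om_dbl_card [NeZero q] : om (da a) (db a b t) q =
    (Zr a b q ∪ (Zr a b q).image (fun x => x - (t : ZMod q))).card := by
  rw [A81.om_eq_zmod]
  congr 1
  ext x
  rw [mem_filter, mem_union, mem_image]
  have key : ∀ n : ℕ, (∃ j, (q : ℤ) ∣ da a j * (n : ℤ) + db a b t j) ↔
      ((∃ j, (q : ℤ) ∣ a j * (n : ℤ) + b j) ∨ (∃ j, (q : ℤ) ∣ a j * ((n : ℤ) + t) + b j)) :=
    fun n => exists_dbl a b t n (fun x => (q : ℤ) ∣ x)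
  have k1 := key x.val
  have e1 : (∃ j, (q : ℤ) ∣ da a j * (x.val : ℤ) + db a b t j) ↔
      ∃ j, ((da a j : ℤ) : ZMod q) * x + ((db a b t j : ℤ) : ZMod q) = 0 := by
    apply exists_congr
    intro j
    rw [← ZMod.intCast_zmod_eq_zero_iff_dvd]
    push_cast
    rw [ZMod.natCast_zmod_val]
  have e2 : (∃ j, (q : ℤ) ∣ a j * (x.val : ℤ) + b j) ↔
      ∃ j, ((a j : ℤ) : ZMod q) * x + ((b j : ℤ) : ZMod q) = 0 := by
    apply exists_congr
    intro j
    rw [← ZMod.intCast_zmod_eq_zero_iff_dvd]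
    push_cast
    rw [ZMod.natCast_zmod_val]
  have e3 : (∃ j, (q : ℤ) ∣ a j * ((x.val : ℤ) + t) + b j) ↔
      ∃ j, ((a j : ℤ) : ZMod q) * (x + (t : ZMod q)) + ((b j : ℤ) : ZMod q) = 0 := by
    apply exists_congr
    intro j
    rw [← ZMod.intCast_zmod_eq_zero_iff_dvd]
    push_cast
    rw [ZMod.natCast_zmod_val]
  rw [e1, e2, e3] at k1
  simp only [mem_univ, true_and, Zr, mem_filter]
  rw [k1]
  constructor
  · rintro (h | h)
    · exact Or.inl h
    · exact Or.inr ⟨x + (t : ZMod q), h, by ring⟩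
  · rintro (h | ⟨y, hy, hyx⟩)
    · exact Or.inl h
    · right
      rw [← hyx]
      simpa using hy

theorem card_shift [NeZero q] :
    ((Zr a b q).image (fun x => x - (t : ZMod q))).card = (Zr a b q).card :=
  Finset.card_image_of_injective _ (sub_left_injective)

theorem om_card [NeZero q] : om a b q = (Zr a b q).card := A81.om_eq_zmod a b q

theorem om_dbl_le (hq : q.Prime) : om (da a) (db a b t) q ≤ 2 * om a b q := by
  have := Fact.mk hq
  rw [om_dbl_card, om_card]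
  refine (Finset.card_union_le _ _).trans ?_
  rw [card_shift]
  omega

theorem le_om_dbl (hq : q.Prime) : om a b q ≤ om (da a) (db a b t) q := by
  have := Fact.mk hq
  rw [om_dbl_card, om_card]
  exact Finset.card_le_card Finset.subset_union_left

theorem om_dbl_eq (hq : q.Prime)
    (hd : ∀ i j, ¬ ((q : ℤ) ∣ a i * a j * t + a i * b j - a j * b i)) :
    om (da a) (db a b t) q = 2 * om a b q := by
  have := Fact.mk hq
  rw [om_dbl_card, om_card, Finset.card_union_of_disjoint, card_shift]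
  · omega
  · rw [Finset.disjoint_left]
    intro x hx hx'
    rw [mem_image] at hx'
    obtain ⟨y, hy, hyx⟩ := hx'
    rw [Zr, mem_filter] at hx hy
    obtain ⟨i, hi⟩ := hx.2
    obtain ⟨j, hj⟩ := hy.2
    have hy2 : y = x + (t : ZMod q) := by rw [← hyx]; ring
    rw [hy2] at hj
    apply hd i j
    rw [← ZMod.intCast_zmod_eq_zero_iff_dvd]
    push_cast
    linear_combination ((a i : ℤ) : ZMod q) * hj - ((a j : ℤ) : ZMod q) * hi

end om

section VV

/-- the correlation constant: upper bound -/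
theorem ratio_le {z0 z : ℕ} (hk : 2 * k ≤ z0) (a b : Fin k → ℤ)
    (ha : ∀ j, ∀ q ∈ PP z0 z, ¬ ((q : ℤ) ∣ a j)) (t : ℤ) :
    VV z0 z (da a) (db a b t) / VV z0 z a b ^ 2 ≤
      ∏ q ∈ (PP z0 z).filter
        (fun q : ℕ => ∃ i j, (q : ℤ) ∣ a i * a j * t + a i * b j - a j * b i),
        (1 + ((2 * k : ℕ) : ℝ) / q) := by
  classical
  unfold VV
  rw [← Finset.prod_pow, ← Finset.prod_div_distrib, Finset.prod_filter]
  apply Finset.prod_le_prod
  · intro q hq
    obtain ⟨h1, _, h3⟩ := A81.mem_PP.1 hq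
    have hq0 : (0 : ℝ) < q := by exact_mod_cast h3.pos
    apply div_nonneg _ (sq_nonneg _)
    rw [sub_nonneg, div_le_one hq0]
    exact_mod_cast A81.om_le_self _ _ q
  · intro q hq
    obtain ⟨h1, _, h3⟩ := A81.mem_PP.1 hq
    have hq0 : (0 : ℝ) < q := by exact_mod_cast h3.pos
    have hw : om a b q ≤ k := A81.om_le h3 (fun j => ha j q hq)
    set x : ℝ := (om a b q : ℝ) / q with hx
    have hx0 : 0 ≤ x := by positivity
    have hxk : x ≤ (k : ℝ) / q := by
      rw [hx]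
      exact div_le_div_of_nonneg_right (by exact_mod_cast hw) hq0.le
    have hkq : (k : ℝ) / q ≤ 1 / 2 := by
      rw [div_le_div_iff₀ hq0 (by norm_num)]
      have : (2 * k : ℕ) ≤ q := by omega
      have h' : ((2 * k : ℕ) : ℝ) ≤ q := by exact_mod_cast this
      push_cast at h'
      linarith
    have hx2 : x ≤ 1 / 2 := hxk.trans hkq
    have hpos : 0 < (1 - x) ^ 2 := by
      have : 0 < 1 - x := by linarith
      positivity
    split_ifs with hdiv
    · have h4 : x ≤ (om (da a) (db a b t) q : ℝ) / q := by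
        rw [hx]
        exact div_le_div_of_nonneg_right (by exact_mod_cast le_om_dbl a b t h3) hq0.le
      rw [div_le_iff₀ hpos]
      have h5 : 2 * x ≤ ((2 * k : ℕ) : ℝ) / q := by
        push_cast
        rw [mul_div_assoc]
        linarith
      have h6 : (1 + 2 * x) * (1 - x) ^ 2 ≤ (1 + ((2 * k : ℕ) : ℝ) / q) * (1 - x) ^ 2 :=
        mul_le_mul_of_nonneg_right (by linarith) hpos.le
      have h7 : 1 - x ≤ (1 + 2 * x) * (1 - x) ^ 2 := by
        have : 0 ≤ (1 - x) * (x * (1 - 2 * x)) := by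
          apply mul_nonneg (by linarith)
          apply mul_nonneg hx0 (by linarith)
        nlinarith
      linarith
    · push Not at hdiv
      have h4 : om (da a) (db a b t) q = 2 * om a b q := om_dbl_eq a b t h3 hdiv
      rw [h4, div_le_one hpos]
      push_cast
      rw [mul_div_assoc, ← hx]
      nlinarith [sq_nonneg x]

/-- the correlation constant: lower bound -/
theorem ratio_ge {z0 z : ℕ} (hk : 2 * k ≤ z0) (hz0 : 1 ≤ z0) (a b : Fin k → ℤ)
    (ha : ∀ j, ∀ q ∈ PP z0 z, ¬ ((q : ℤ) ∣ a j)) (t : ℤ) :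
    1 - 4 * (k : ℝ) ^ 2 / z0 ≤ VV z0 z (da a) (db a b t) / VV z0 z a b ^ 2 := by
  classical
  have h0 : (0 : ℝ) < z0 := by exact_mod_cast hz0
  have hfac : ∀ q ∈ PP z0 z, (1 : ℝ) - 4 * (k : ℝ) ^ 2 / (q : ℝ) ^ 2 ≤
      (1 - (om (da a) (db a b t) q : ℝ) / q) / (1 - (om a b q : ℝ) / q) ^ 2 ∧
      0 ≤ (1 : ℝ) - 4 * (k : ℝ) ^ 2 / (q : ℝ) ^ 2 := by
    intro q hq
    obtain ⟨h1, _, h3⟩ := A81.mem_PP.1 hq
    have hq0 : (0 : ℝ) < q := by exact_mod_cast h3.pos
    have hw : om a b q ≤ k := A81.om_le h3 (fun j => ha j q hq)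
    set x : ℝ := (om a b q : ℝ) / q with hx
    have hx0 : 0 ≤ x := by positivity
    have hxk : x ≤ (k : ℝ) / q := by
      rw [hx]
      exact div_le_div_of_nonneg_right (by exact_mod_cast hw) hq0.le
    have hkq : (k : ℝ) / q ≤ 1 / 2 := by
      rw [div_le_div_iff₀ hq0 (by norm_num)]
      have : (2 * k : ℕ) ≤ q := by omega
      have h' : ((2 * k : ℕ) : ℝ) ≤ q := by exact_mod_cast this
      push_cast at h'
      linarith
    have hx2 : x ≤ 1 / 2 := hxk.trans hkq
    have hpos : 0 < (1 - x) ^ 2 := by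
      have : 0 < 1 - x := by linarith
      positivity
    have h4 : (om (da a) (db a b t) q : ℝ) / q ≤ 2 * x := by
      rw [hx, ← mul_div_assoc]
      exact div_le_div_of_nonneg_right (by exact_mod_cast om_dbl_le a b t h3) hq0.le
    have hk2 : 4 * (k : ℝ) ^ 2 / (q : ℝ) ^ 2 = 4 * ((k : ℝ) / q) ^ 2 := by
      rw [div_pow]; ring
    rw [hk2]
    have hxx : x ^ 2 ≤ ((k : ℝ) / q) ^ 2 := pow_le_pow_left₀ hx0 hxk 2
    constructor
    · rw [le_div_iff₀ hpos]
      have h5 : (1 - 4 * ((k : ℝ) / q) ^ 2) * (1 - x) ^ 2 ≤ (1 - 4 * x ^ 2) * (1 - x) ^ 2 :=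
        mul_le_mul_of_nonneg_right (by linarith) hpos.le
      have h6 : (1 - 4 * x ^ 2) * (1 - x) ^ 2 ≤ 1 - 2 * x := by
        have h7 : x ^ 2 * (1 - 4 * (1 - x) ^ 2) ≤ 0 := by
          apply mul_nonpos_of_nonneg_of_nonpos (sq_nonneg x)
          nlinarith
        nlinarith
      linarith
    · have : ((k : ℝ) / q) ^ 2 ≤ (1 / 2) ^ 2 := pow_le_pow_left₀ (by positivity) hkq 2
      norm_num at this
      linarith
  have h8 : 1 - ∑ q ∈ PP z0 z, 4 * (k : ℝ) ^ 2 / (q : ℝ) ^ 2 ≤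
      ∏ q ∈ PP z0 z, (1 - 4 * (k : ℝ) ^ 2 / (q : ℝ) ^ 2) := by
    have : ∀ s : Finset ℕ, s ⊆ PP z0 z → 1 - ∑ q ∈ s, 4 * (k : ℝ) ^ 2 / (q : ℝ) ^ 2 ≤
        ∏ q ∈ s, (1 - 4 * (k : ℝ) ^ 2 / (q : ℝ) ^ 2) := by
      intro s
      induction s using Finset.induction_on with
      | empty => intro _; simp
      | insert q s hqs ih =>
        intro hs
        rw [Finset.sum_insert hqs, Finset.prod_insert hqs]
        have h9 := ih (fun x hx => hs (Finset.mem_insert_of_mem hx))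
        have h10 := hfac q (hs (Finset.mem_insert_self _ _))
        have h11 : 0 ≤ 4 * (k : ℝ) ^ 2 / (q : ℝ) ^ 2 := by positivity
        have h12 : 0 ≤ ∑ q ∈ s, 4 * (k : ℝ) ^ 2 / (q : ℝ) ^ 2 :=
          Finset.sum_nonneg (fun _ _ => by positivity)
        have h13 := mul_le_mul_of_nonneg_left h9 h10.2
        nlinarith [mul_nonneg h11 h12]
    exact this _ subset_rfl
  have h14 : ∑ q ∈ PP z0 z, 4 * (k : ℝ) ^ 2 / (q : ℝ) ^ 2 ≤ 4 * (k : ℝ) ^ 2 / z0 := by
    have h15 : ∑ q ∈ PP z0 z, ((q : ℝ) ^ 2)⁻¹ ≤ (z0 : ℝ)⁻¹ := by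
      rcases le_or_gt z0 z with hz | hz
      · have h16 := sum_Ioc_inv_sq_le_sub (α := ℝ) (k := z0) (n := z) (by omega) hz
        have h17 : ∑ q ∈ PP z0 z, ((q : ℝ) ^ 2)⁻¹ ≤ ∑ q ∈ Finset.Ioc z0 z, ((q : ℝ) ^ 2)⁻¹ :=
          Finset.sum_le_sum_of_subset_of_nonneg (Finset.filter_subset _ _)
            (fun _ _ _ => by positivity)
        have h18 : (0 : ℝ) ≤ (z : ℝ)⁻¹ := by positivity
        linarith
      · have : PP z0 z = ∅ := by
          unfold PP
          rw [Finset.Ioc_eq_empty (by omega)]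
          simp
        rw [this]
        simp
    calc ∑ q ∈ PP z0 z, 4 * (k : ℝ) ^ 2 / (q : ℝ) ^ 2
        = 4 * (k : ℝ) ^ 2 * ∑ q ∈ PP z0 z, ((q : ℝ) ^ 2)⁻¹ := by
          rw [Finset.mul_sum]
          exact Finset.sum_congr rfl (fun _ _ => by rw [div_eq_mul_inv])
      _ ≤ 4 * (k : ℝ) ^ 2 * (z0 : ℝ)⁻¹ := mul_le_mul_of_nonneg_left h15 (by positivity)
      _ = _ := by rw [← div_eq_mul_inv]
  have h19 : ∏ q ∈ PP z0 z, (1 - 4 * (k : ℝ) ^ 2 / (q : ℝ) ^ 2) ≤
      VV z0 z (da a) (db a b t) / VV z0 z a b ^ 2 := by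
    unfold VV
    rw [← Finset.prod_pow, ← Finset.prod_div_distrib]
    exact Finset.prod_le_prod (fun q hq => (hfac q hq).2) (fun q hq => (hfac q hq).1)
  linarith

end VV

/-- product of two values of `nu` -/
theorem nu_mul_nu {z0 z : ℕ} (hk : 2 * k ≤ z0) (a b : Fin k → ℤ)
    (ha : ∀ j, ∀ q ∈ PP z0 z, ¬ ((q : ℤ) ∣ a j)) (n t : ℤ) :
    nu z0 z a b n * nu z0 z a b (n + t) =
      VV z0 z (da a) (db a b t) / VV z0 z a b ^ 2 * nu z0 z (da a) (db a b t) n := by
  have hV : 0 < VV z0 z (da a) (db a b t) :=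
    A81.VV_pos (by omega) (da_forall a (fun x => ∀ q ∈ PP z0 z, ¬ ((q : ℤ) ∣ x)) ha)
  have hV1 : 0 < VV z0 z a b := A81.VV_pos (by omega) ha
  have h := forall_dbl a b t n (Rough z0 z)
  unfold nu
  by_cases h1 : ∀ j, Rough z0 z (a j * n + b j)
  · by_cases h2 : ∀ j, Rough z0 z (a j * (n + t) + b j)
    · rw [if_pos h1, if_pos h2, if_pos (h.2 ⟨h1, h2⟩)]
      field_simp
    · rw [if_pos h1, if_neg h2, if_neg (fun h3 => h2 (h.1 h3).2)]
      simp
  · rw [if_neg h1, if_neg (fun h3 => h1 (h.1 h3).1)]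
    simp

end Pool.Agent.Lib.TwinAll.T49
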