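import Mathlib
import Pool.Agent.Lib.TwinAll.Stmts
import Pool.Agent.Lib.TwinAll.S3a49
import Pool.Agent.Lib.TwinAll.Basic94

/-!
THEOREM A (MP_c6d112_nt), S3: assembly from S2 and the average over the differences.
-/

set_option autoImplicit false

namespace Pool.Agent.Lib.TwinAll.T49

open Finset

/-- the average over the differences `t` (helper24: `avg24`) -/
def AvgStmt : Prop :=
  ∀ (k C : ℕ) (ε : ℝ), 0 < ε → ∃ zs : ℕ, ∀ z0 : ℕ, zs ≤ z0 → ∀ B : ℕ, ∃ z1 : ℕ, ∀ z : ℕ, z1 ≤ z →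
    ∀ a b : Fin k → ℤ, (∀ j, |a j| ≤ (z : ℤ) ^ B ∧ |b j| ≤ (z : ℤ) ^ B ∧
      ∀ q ∈ PP z0 z, ¬ ((q : ℤ) ∣ a j)) →
    ∀ H : ℕ, z ≤ H → H ≤ z ^ B →
      ∑ t ∈ (Finset.Ioo (-(H : ℤ)) H).filter
          (fun t : ℤ => ∀ i j, a i * a j * t + a i * b j - a j * b i ≠ 0),
        ((∏ q ∈ (PP z0 z).filter
          (fun q : ℕ => ∃ i j, (q : ℤ) ∣ a i * a j * t + a i * b j - a j * b i),
          (1 + (C : ℝ) / q)) - 1) ≤ ε * H

theorem mean_bds {z0 z k' : ℕ} (a b : Fin k' → ℤ) {s : ℕ} {e : ℝ} (he0 : 0 ≤ e) (he1 : e ≤ 1)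
    (hS : ∀ (u : ℤ) (H : ℕ), z ^ s ≤ H →
      |(∑ n ∈ Finset.Ioc u (u + H), nu z0 z a b n) - H| ≤ e * H) (u : ℤ) (m : ℕ) :
    (∑ n ∈ Finset.Ioc u (u + m), nu z0 z a b n) ≤ (1 + e) * (m + (z ^ s : ℕ)) ∧
    (1 - e) * ((m : ℝ) - (z ^ s : ℕ)) ≤ ∑ n ∈ Finset.Ioc u (u + m), nu z0 z a b n := by
  have hz : (0 : ℝ) ≤ ((z ^ s : ℕ) : ℝ) := Nat.cast_nonneg _
  have hm0 : (0 : ℝ) ≤ (m : ℝ) := Nat.cast_nonneg _
  rcases le_or_gt (z ^ s) m with h | h
  · have h1 := abs_le.1 (hS u m h)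
    constructor
    · nlinarith [h1.2, mul_nonneg (by linarith : 0 ≤ 1 + e) hz]
    · nlinarith [h1.1, mul_nonneg (by linarith : 0 ≤ 1 - e) hz]
  · have h1 := abs_le.1 (hS u (z ^ s) le_rfl)
    have hsub : Finset.Ioc u (u + m) ⊆ Finset.Ioc u (u + (z ^ s : ℕ)) := by
      apply Finset.Ioc_subset_Ioc_right
      have : (m : ℤ) ≤ (z ^ s : ℕ) := by exact_mod_cast h.le
      linarith
    have h2 : (∑ n ∈ Finset.Ioc u (u + m), nu z0 z a b n) ≤
        ∑ n ∈ Finset.Ioc u (u + (z ^ s : ℕ)), nu z0 z a b n :=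
      Finset.sum_le_sum_of_subset_of_nonneg hsub (fun _ _ _ => A81.nu_nonneg _ _ _ _ _)
    have h3 : 0 ≤ ∑ n ∈ Finset.Ioc u (u + m), nu z0 z a b n :=
      Finset.sum_nonneg (fun _ _ => A81.nu_nonneg _ _ _ _ _)
    have h4 : (m : ℝ) < ((z ^ s : ℕ) : ℝ) := by exact_mod_cast h
    constructor
    · nlinarith [h1.2, mul_nonneg (by linarith : 0 ≤ 1 + e) hm0]
    · have : (1 - e) * ((m : ℝ) - (z ^ s : ℕ)) ≤ 0 :=
        mul_nonpos_of_nonneg_of_nonpos (by linarith) (by linarith)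
      linarith

theorem interval_eq (u t : ℤ) (H : ℕ) (ht : t ∈ Finset.Ioo (-(H : ℤ)) H) :
    (Finset.Ioc u (u + H)).filter (fun n => n + t ∈ Finset.Ioc u (u + H)) =
      Finset.Ioc (u + max 0 (-t)) (u + max 0 (-t) + ((H - t.natAbs : ℕ) : ℤ)) := by
  rw [mem_Ioo] at ht
  ext n
  rw [mem_filter, mem_Ioc, mem_Ioc, mem_Ioc]
  omega

theorem sum_shift (f : ℤ → ℝ) (v t m : ℤ) :
    ∑ n ∈ Finset.Ioc v (v + m), f (n + t) = ∑ n ∈ Finset.Ioc (v + t) (v + t + m), f n := by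
  refine Finset.sum_nbij' (fun n => n + t) (fun n => n - t) ?_ ?_ ?_ ?_ ?_
  · intro n hn; rw [mem_Ioc] at hn ⊢; omega
  · intro n hn; rw [mem_Ioc] at hn ⊢; omega
  · intro n _; ring
  · intro n _; ring
  · intro n _; rfl

theorem pow_factor (x j : ℕ) {q : ℝ} (hq : 1 ≤ q) :
    (1 + (x : ℝ) / q) ^ j ≤ 1 + (((1 + x) ^ j : ℕ) : ℝ) / q := by
  have h : (1 + (x : ℝ) / q) ^ j ≤ 1 + ((1 + (x : ℝ)) ^ j - 1) / q := by
    induction j with
    | zero => simp
    | succ j ih =>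
      have hx : (0 : ℝ) ≤ x := Nat.cast_nonneg _
      have h1 : 0 ≤ (1 + (x : ℝ)) ^ j - 1 := by
        have := one_le_pow₀ (by linarith : (1 : ℝ) ≤ 1 + x) (n := j)
        linarith
      have hq0 : 0 < q := by linarith
      rw [pow_succ]
      refine (mul_le_mul_of_nonneg_right ih (by positivity)).trans ?_
      have h2 : ((1 + (x : ℝ)) ^ j - 1) / q * ((x : ℝ) / q) ≤
          ((1 + (x : ℝ)) ^ j - 1) * x / q := by
        rw [div_mul_div_comm, div_le_div_iff₀ (by positivity) hq0]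
        have : ((1 + (x : ℝ)) ^ j - 1) * x * q * 1 ≤ ((1 + (x : ℝ)) ^ j - 1) * x * q * q :=
          mul_le_mul_of_nonneg_left hq (by positivity)
        nlinarith
      have h3 : ((1 + (x : ℝ)) ^ (j + 1) - 1) / q =
          ((1 + (x : ℝ)) ^ j - 1) * x / q + ((1 + (x : ℝ)) ^ j - 1) / q + x / q := by
        field_simp
        ring
      rw [h3]
      have h4 : (1 + ((1 + (x : ℝ)) ^ j - 1) / q) * (1 + (x : ℝ) / q) =
          1 + x / q + ((1 + (x : ℝ)) ^ j - 1) / q +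
            ((1 + (x : ℝ)) ^ j - 1) / q * ((x : ℝ) / q) := by ring
      rw [h4]
      linarith
  refine h.trans ?_
  have hq0 : 0 < q := by linarith
  push_cast
  have : ((1 + (x : ℝ)) ^ j - 1) / q ≤ ((1 + (x : ℝ)) ^ j) / q :=
    div_le_div_of_nonneg_right (by linarith) hq0.le
  linarith

theorem prod_pow_factor (x j : ℕ) (s : Finset ℕ) (hs : ∀ q ∈ s, 1 ≤ q) :
    (∏ q ∈ s, (1 + (x : ℝ) / q)) ^ j ≤ ∏ q ∈ s, (1 + (((1 + x) ^ j : ℕ) : ℝ) / q) := by
  rw [← Finset.prod_pow]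
  refine Finset.prod_le_prod (fun q _ => by positivity) (fun q hq => ?_)
  exact pow_factor x j (by exact_mod_cast hs q hq)

/-- exceptional differences -/
theorem exc_card {k : ℕ} (a b : Fin k → ℤ) (ha : ∀ j, a j ≠ 0) (H : ℕ) :
    ((Finset.Ioo (-(H : ℤ)) H).filter
      (fun t : ℤ => ¬ ∀ i j, a i * a j * t + a i * b j - a j * b i ≠ 0)).card ≤ k ^ 2 := by
  classical
  have hsub : (Finset.Ioo (-(H : ℤ)) H).filter
      (fun t : ℤ => ¬ ∀ i j, a i * a j * t + a i * b j - a j * b i ≠ 0) ⊆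
      (univ : Finset (Fin k × Fin k)).biUnion (fun ij => (Finset.Ioo (-(H : ℤ)) H).filter
        (fun t : ℤ => a ij.1 * a ij.2 * t + a ij.1 * b ij.2 - a ij.2 * b ij.1 = 0)) := by
    intro t ht
    rw [mem_filter] at ht
    obtain ⟨h1, h2⟩ := ht
    push Not at h2
    obtain ⟨i, j, hij⟩ := h2
    rw [mem_biUnion]
    exact ⟨(i, j), mem_univ _, mem_filter.2 ⟨h1, hij⟩⟩
  refine (Finset.card_le_card hsub).trans (Finset.card_biUnion_le.trans ?_)
  have h3 : ∀ ij ∈ (univ : Finset (Fin k × Fin k)), ((Finset.Ioo (-(H : ℤ)) H).filter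
      (fun t : ℤ => a ij.1 * a ij.2 * t + a ij.1 * b ij.2 - a ij.2 * b ij.1 = 0)).card ≤ 1 := by
    intro ij _
    rw [Finset.card_le_one]
    intro x hx y hy
    rw [mem_filter] at hx hy
    have h4 : a ij.1 * a ij.2 * (x - y) = 0 := by linear_combination hx.2 - hy.2
    have h5 : a ij.1 * a ij.2 ≠ 0 := mul_ne_zero (ha _) (ha _)
    rcases mul_eq_zero.1 h4 with h | h
    · exact absurd h h5
    · linarith
  refine (Finset.sum_le_sum h3).trans ?_
  simp [sq]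

/-- arithmetic: one non-exceptional difference, first statement -/
theorem K_arith {R A Bs m h0 H G S δ e : ℝ} (hH : 0 ≤ H) (hm : 0 ≤ m) (hmH : m ≤ H) (hh : 0 ≤ h0)
    (hhH : h0 ≤ e * H) (he : 0 ≤ e) (he1 : e ≤ 1) (hδ : 0 ≤ δ) (hδe : δ ≤ e) (hG : 1 ≤ G)
    (hSG : S ≤ G) (hS : 1 - δ ≤ S) (hR0 : 0 ≤ R)
    (hR : ∃ N, R = S * N ∧ 0 ≤ N ∧ N ≤ (1 + e) * (m + h0) ∧ (1 - e) * (m - h0) ≤ N)
    (hA : A ≤ (1 + e) * (m + h0) ∧ (1 - e) * (m - h0) ≤ A)
    (hB : Bs ≤ (1 + e) * (m + h0) ∧ (1 - e) * (m - h0) ≤ Bs) :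
    (R - A - Bs + m) ^ 2 ≤ H ^ 2 * (32 * (G ^ 2 - 1) + 200 * e) := by
  obtain ⟨N, hRN, hN0, hN1, hN2⟩ := hR
  have heH : e * H ≤ H := by nlinarith
  have hem : e * m ≤ e * H := mul_le_mul_of_nonneg_left hmH he
  have heh : e * h0 ≤ h0 := by nlinarith
  have hA1 : |A - m| ≤ 3 * (e * H) := by
    rw [abs_le]
    constructor
    · nlinarith [hA.2]
    · nlinarith [hA.1]
  have hB1 : |Bs - m| ≤ 3 * (e * H) := by
    rw [abs_le]
    constructor
    · nlinarith [hB.2]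
    · nlinarith [hB.1]
  have hR1 : R - m ≤ 4 * (H * (G - 1)) + 3 * (e * H) := by
    have h1 : R ≤ G * N := by rw [hRN]; exact mul_le_mul_of_nonneg_right hSG hN0
    have h2 : N ≤ m + 3 * (e * H) := by nlinarith
    have h3 : N ≤ 4 * H := by linarith
    have h4 : G * N = (G - 1) * N + N := by ring
    have h5 : (G - 1) * N ≤ (G - 1) * (4 * H) := mul_le_mul_of_nonneg_left h3 (by linarith)
    nlinarith
  have hR2 : m - R ≤ 3 * (e * H) := by
    rcases le_or_gt h0 m with h | h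
    · have h1 : (1 - δ) * N ≤ R := by rw [hRN]; exact mul_le_mul_of_nonneg_right hS hN0
      have h2 : (1 - δ) * ((1 - e) * (m - h0)) ≤ (1 - δ) * N :=
        mul_le_mul_of_nonneg_left hN2 (by linarith)
      have h3 : 0 ≤ m - h0 := by linarith
      have h4 : (1 - δ) * ((1 - e) * (m - h0)) ≥ (1 - δ - e) * (m - h0) := by
        have : 0 ≤ δ * e * (m - h0) := mul_nonneg (mul_nonneg hδ he) h3
        nlinarith
      have h5 : (δ + e) * (m - h0) ≤ (2 * e) * m := by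
        have h6 : (δ + e) * (m - h0) ≤ (δ + e) * m :=
          mul_le_mul_of_nonneg_left (by linarith) (by linarith)
        have h7 : (δ + e) * m ≤ (2 * e) * m := mul_le_mul_of_nonneg_right (by linarith) hm
        linarith
      nlinarith
    · nlinarith
  have hR3 : |R - m| ≤ 4 * (H * (G - 1)) + 3 * (e * H) := by
    rw [abs_le]
    have : 0 ≤ H * (G - 1) := mul_nonneg hH (by linarith)
    constructor
    · linarith
    · exact hR1
  have hK : |R - A - Bs + m| ≤ H * (4 * (G - 1) + 9 * e) := by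
    have h1 : R - A - Bs + m = (R - m) - (A - m) - (Bs - m) := by ring
    rw [h1]
    have h2 := abs_sub ((R - m) - (A - m)) (Bs - m)
    have h3 := abs_sub (R - m) (A - m)
    nlinarith
  have hK2 : (R - A - Bs + m) ^ 2 ≤ (H * (4 * (G - 1) + 9 * e)) ^ 2 := by
    rw [← sq_abs (R - A - Bs + m)]
    exact pow_le_pow_left₀ (abs_nonneg _) hK 2
  refine hK2.trans ?_
  rw [mul_pow]
  apply mul_le_mul_of_nonneg_left _ (sq_nonneg H)
  have h1 : (4 * (G - 1) + 9 * e) ^ 2 ≤ 2 * (4 * (G - 1)) ^ 2 + 2 * (9 * e) ^ 2 := by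
    nlinarith [sq_nonneg (4 * (G - 1) - 9 * e)]
  have h2 : (G - 1) ^ 2 ≤ G ^ 2 - 1 := by nlinarith
  have h3 : e ^ 2 ≤ e := by nlinarith
  nlinarith

section decomp

variable {k : ℕ} {z0 z : ℕ}

theorem corr_eq (hk : 2 * k ≤ z0) (a b : Fin k → ℤ)
    (ha : ∀ j, ∀ q ∈ PP z0 z, ¬ ((q : ℤ) ∣ a j)) (u t : ℤ) (H : ℕ)
    (ht : t ∈ Finset.Ioo (-(H : ℤ)) H) :
    (∑ n ∈ (Finset.Ioc u (u + H)).filter (fun n => n + t ∈ Finset.Ioc u (u + H)),
      nu z0 z a b n * nu z0 z a b (n + t)) =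
    VV z0 z (da a) (db a b t) / VV z0 z a b ^ 2 *
      ∑ n ∈ Finset.Ioc (u + max 0 (-t)) (u + max 0 (-t) + ((H - t.natAbs : ℕ) : ℤ)),
        nu z0 z (da a) (db a b t) n := by
  rw [interval_eq u t H ht, Finset.mul_sum]
  exact Finset.sum_congr rfl (fun n _ => nu_mul_nu hk a b ha n t)

theorem K_eq (a b : Fin k → ℤ) (u t : ℤ) (H : ℕ) (ht : t ∈ Finset.Ioo (-(H : ℤ)) H) :
    (∑ n ∈ (Finset.Ioc u (u + H)).filter (fun n => n + t ∈ Finset.Ioc u (u + H)),
      (nu z0 z a b n - 1) * (nu z0 z a b (n + t) - 1)) =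
    (∑ n ∈ (Finset.Ioc u (u + H)).filter (fun n => n + t ∈ Finset.Ioc u (u + H)),
      nu z0 z a b n * nu z0 z a b (n + t)) -
    (∑ n ∈ Finset.Ioc (u + max 0 (-t)) (u + max 0 (-t) + ((H - t.natAbs : ℕ) : ℤ)),
      nu z0 z a b n) -
    (∑ n ∈ Finset.Ioc (u + max 0 (-t) + t) (u + max 0 (-t) + t + ((H - t.natAbs : ℕ) : ℤ)),
      nu z0 z a b n) + ((H - t.natAbs : ℕ) : ℝ) := by
  rw [interval_eq u t H ht, ← sum_shift (fun n => nu z0 z a b n) (u + max 0 (-t)) t]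
  have h1 : ∀ n ∈ Finset.Ioc (u + max 0 (-t)) (u + max 0 (-t) + ((H - t.natAbs : ℕ) : ℤ)),
      (nu z0 z a b n - 1) * (nu z0 z a b (n + t) - 1) =
      nu z0 z a b n * nu z0 z a b (n + t) - nu z0 z a b n - nu z0 z a b (n + t) + 1 := by
    intro n _; ring
  rw [Finset.sum_congr rfl h1, Finset.sum_add_distrib, Finset.sum_sub_distrib,
    Finset.sum_sub_distrib, Finset.sum_const, Int.card_Ioc, nsmul_eq_mul, mul_one]
  congr 2
  omega

theorem trivial_bd (k z : ℕ) (u t : ℤ) (H : ℕ) (f g : ℤ → ℝ)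
    (hf : ∀ n, |f n| ≤ (z : ℝ) ^ k) (hg : ∀ n, |g n| ≤ (z : ℝ) ^ k) :
    |∑ n ∈ (Finset.Ioc u (u + H)).filter (fun n => n + t ∈ Finset.Ioc u (u + H)),
      f n * g (n + t)| ≤ H * (z : ℝ) ^ (2 * k) := by
  refine (Finset.abs_sum_le_sum_abs _ _).trans ?_
  have h1 : ∀ n ∈ (Finset.Ioc u (u + H)).filter (fun n => n + t ∈ Finset.Ioc u (u + H)),
      |f n * g (n + t)| ≤ (z : ℝ) ^ (2 * k) := by
    intro n _
    rw [abs_mul, two_mul, pow_add]
    exact mul_le_mul (hf n) (hg _) (abs_nonneg _) (by positivity)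
  refine (Finset.sum_le_card_nsmul _ _ _ h1).trans ?_
  rw [nsmul_eq_mul]
  apply mul_le_mul_of_nonneg_right _ (by positivity)
  have h2 := Finset.card_filter_le (Finset.Ioc u (u + H))
    (fun n => n + t ∈ Finset.Ioc u (u + H))
  rw [Int.card_Ioc] at h2
  have h3 : (u + H - u).toNat = H := by simp
  rw [h3] at h2
  exact_mod_cast h2

end decomp

theorem S3_of (hS2 : S2Stmt) (hAvg : AvgStmt) : S3Stmt := by
  classical
  intro k ε hε
  set e : ℝ := min (1 / 100) (ε / 1600) with he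
  have he0 : 0 < e := lt_min (by norm_num) (by positivity)
  have he1 : e ≤ 1 / 100 := min_le_left _ _
  have he2 : e ≤ ε / 1600 := min_le_right _ _
  obtain ⟨s1, zs1, h1⟩ := hS2 k e he0
  obtain ⟨s2, zs2, h2⟩ := hS2 (k + k) e he0
  obtain ⟨zs3, h3⟩ := hAvg k ((1 + 2 * k) ^ 2) (ε / 128) (by positivity)
  obtain ⟨zs4, h4⟩ := hAvg k ((1 + 2 * k) ^ 4) 1 one_pos
  set sm : ℕ := max s1 s2 with hsm
  obtain ⟨M1, hM1⟩ := exists_nat_gt (4 * (k : ℝ) ^ 2 / e)
  obtain ⟨M2, hM2⟩ := exists_nat_gt (1 / e)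
  obtain ⟨M3, hM3⟩ := exists_nat_gt (2 * (k : ℝ) ^ 2 / ε)
  refine ⟨sm + (8 * k + 2), zs1 + zs2 + zs3 + zs4 + (2 * k) + M1 + 1, ?_⟩
  intro z0 hz0 B
  obtain ⟨za, hza⟩ := h1 z0 (by omega)
  obtain ⟨zb, hzb⟩ := h2 z0 (by omega)
  obtain ⟨zc, hzc⟩ := h3 z0 (by omega) B
  obtain ⟨zd, hzd⟩ := h4 z0 (by omega) B
  obtain ⟨p0, hp0, hp0'⟩ := Nat.exists_infinite_primes (z0 + 1)
  refine ⟨za + zb + zc + zd + p0 + M2 + M3 + 2 * k ^ 2 + z0 + 2, ?_⟩
  intro z hz a b hab u H hu hH1 hH2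
  have ha : ∀ j, ∀ q ∈ PP z0 z, ¬ ((q : ℤ) ∣ a j) := fun j => (hab j).2.2
  have ha0 : ∀ j, a j ≠ 0 := by
    intro j h0
    have hp : p0 ∈ PP z0 z := A81.mem_PP.2 ⟨by omega, by omega, hp0'⟩
    exact ha j p0 hp (by rw [h0]; exact dvd_zero _)
  have hk2 : 2 * k ≤ z0 := by omega
  have hk1 : k ≤ z0 := by omega
  have hz0z : z0 ≤ z := by omega
  have hz1 : 1 ≤ z := by omega
  have hzR : (1 : ℝ) ≤ z := by exact_mod_cast hz1
  -- sizes
  have hpow : z ^ sm * z ^ (8 * k + 2) ≤ H := by rw [← pow_add]; exact hH1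
  have hH0 : (0 : ℝ) ≤ (H : ℝ) := Nat.cast_nonneg _
  have hzsm : 1 ≤ z ^ sm := Nat.one_le_pow _ _ hz1
  have hpow2 : z * z ^ (8 * k) ≤ H := by
    calc z * z ^ (8 * k) ≤ z * z * z ^ (8 * k) := by
          apply Nat.mul_le_mul_right
          exact Nat.le_mul_of_pos_left z hz1
      _ = z ^ (8 * k + 2) := by ring
      _ ≤ z ^ sm * z ^ (8 * k + 2) := Nat.le_mul_of_pos_left _ hzsm
      _ ≤ H := hpow
  have hzH : z ≤ H := le_trans (Nat.le_mul_of_pos_right z (Nat.one_le_pow _ _ hz1)) hpow2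
  have hpow3 : z * z ^ sm ≤ H := by
    calc z * z ^ sm = z ^ sm * z := by ring
      _ ≤ z ^ sm * z ^ (8 * k + 2) := by
        apply Nat.mul_le_mul_left
        calc z = z ^ 1 := (pow_one z).symm
          _ ≤ z ^ (8 * k + 2) := Nat.pow_le_pow_right hz1 (by omega)
      _ ≤ H := hpow
  have hzM2 : 1 / e ≤ z := by
    have : (M2 : ℝ) ≤ z := by exact_mod_cast (by omega : M2 ≤ z)
    linarith
  have hh0 : ((z ^ sm : ℕ) : ℝ) ≤ e * H := by
    have h5 : ((z * z ^ sm : ℕ) : ℝ) ≤ H := by exact_mod_cast hpow3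
    rw [Nat.cast_mul] at h5
    have h6 : 1 ≤ e * z := by
      rw [div_le_iff₀ he0] at hzM2
      linarith
    have h7 : e * ((z : ℝ) * ((z ^ sm : ℕ) : ℝ)) ≤ e * H := mul_le_mul_of_nonneg_left h5 he0.le
    have h8 : 1 * ((z ^ sm : ℕ) : ℝ) ≤ (e * z) * ((z ^ sm : ℕ) : ℝ) :=
      mul_le_mul_of_nonneg_right h6 (Nat.cast_nonneg _)
    linarith
  have hδ : 4 * (k : ℝ) ^ 2 / z0 ≤ e := by
    have h5 : (M1 : ℝ) ≤ z0 := by exact_mod_cast (by omega : M1 ≤ z0)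
    have h6 : (0 : ℝ) < z0 := by exact_mod_cast (by omega : 0 < z0)
    rw [div_le_iff₀ h6]
    rw [div_lt_iff₀ he0] at hM1
    nlinarith
  -- means
  have hm1 : ∀ (u : ℤ) (m : ℕ), _ := mean_bds (z0 := z0) (z := z) a b (s := sm) he0.le
    (by linarith) (fun u' H' hH' => hza z (by omega) a b ha u' H'
      (le_trans (Nat.pow_le_pow_right hz1 (le_max_left _ _)) hH'))
  have hm2 : ∀ (t : ℤ) (u : ℤ) (m : ℕ), _ := fun t => mean_bds (z0 := z0) (z := z)
    (da a) (db a b t) (s := sm) he0.le (by linarith)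
    (fun u' H' hH' => hzb z (by omega) (da a) (db a b t)
      (da_forall a (fun x => ∀ q ∈ PP z0 z, ¬ ((q : ℤ) ∣ x)) ha) u' H'
      (le_trans (Nat.pow_le_pow_right hz1 (le_max_right _ _)) hH'))
  set T := Finset.Ioo (-(H : ℤ)) H with hT
  set Ne : ℤ → Prop := fun t : ℤ => ∀ i j, a i * a j * t + a i * b j - a j * b i ≠ 0 with hNe
  set G : ℤ → ℝ := fun t => ∏ q ∈ (PP z0 z).filter
    (fun q : ℕ => ∃ i j, (q : ℤ) ∣ a i * a j * t + a i * b j - a j * b i),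
    (1 + ((2 * k : ℕ) : ℝ) / q) with hG
  have hGone : ∀ t, 1 ≤ G t := by
    intro t
    have : (1 : ℝ) = ∏ q ∈ (PP z0 z).filter
      (fun q : ℕ => ∃ i j, (q : ℤ) ∣ a i * a j * t + a i * b j - a j * b i), (1 : ℝ) := by simp
    rw [this]
    refine Finset.prod_le_prod (fun _ _ => zero_le_one) (fun q _ => ?_)
    have : (0 : ℝ) ≤ ((2 * k : ℕ) : ℝ) / q := by positivity
    linarith
  have hGpow : ∀ (j : ℕ) t, G t ^ j ≤ ∏ q ∈ (PP z0 z).filter
      (fun q : ℕ => ∃ i j, (q : ℤ) ∣ a i * a j * t + a i * b j - a j * b i),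
      (1 + (((1 + 2 * k) ^ j : ℕ) : ℝ) / q) := by
    intro j t
    exact prod_pow_factor (2 * k) j _ (fun q hq =>
      (A81.mem_PP.1 (Finset.mem_filter.1 hq).1).2.2.one_le)
  have hcardT : (T.card : ℝ) ≤ 2 * H := by
    have h5 : T.card ≤ 2 * H := by
      rw [hT, Int.card_Ioo]
      omega
    have h6 : (T.card : ℝ) ≤ ((2 * H : ℕ) : ℝ) := by exact_mod_cast h5
    push_cast at h6
    exact h6
  have hcardNe : ((T.filter Ne).card : ℝ) ≤ 2 * H :=
    le_trans (by exact_mod_cast Finset.card_filter_le _ _) hcardT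
  have hcardExc : ((T.filter (fun t => ¬ Ne t)).card : ℝ) ≤ (k : ℝ) ^ 2 := by
    have := exc_card a b ha0 H
    exact_mod_cast this
  have havg2 : ∑ t ∈ T.filter Ne, (G t ^ 2 - 1) ≤ ε / 128 * H := by
    refine le_trans (Finset.sum_le_sum (fun t _ => ?_)) (hzc z (by omega) a b hab H hzH hH2)
    have := hGpow 2 t
    linarith
  have havg4 : ∑ t ∈ T.filter Ne, (G t ^ 4 - 1) ≤ (1 : ℝ) * (H : ℝ) := by
    refine le_trans (Finset.sum_le_sum (fun t _ => ?_)) (hzd z (by omega) a b hab H hzH hH2)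
    have := hGpow 4 t
    linarith
  have hVinv : (VV z0 z a b)⁻¹ ≤ (z : ℝ) ^ k := VV_inv_le hk1 hz0z a b ha
  have hzk1 : (1 : ℝ) ≤ (z : ℝ) ^ k := one_le_pow₀ hzR
  have hnu_le : ∀ n, nu z0 z a b n ≤ (z : ℝ) ^ k := fun n => (nu_le hk1 a b ha n).trans hVinv
  have hnu_nn : ∀ n, 0 ≤ nu z0 z a b n := fun n => A81.nu_nonneg _ _ _ _ _
  have hnu1 : ∀ n, |nu z0 z a b n| ≤ (z : ℝ) ^ k := by
    intro n
    rw [abs_of_nonneg (hnu_nn n)]
    exact hnu_le n
  have hnu2 : ∀ n, |nu z0 z a b n - 1| ≤ (z : ℝ) ^ k := by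
    intro n
    rw [abs_le]
    constructor
    · linarith [hnu_nn n]
    · linarith [hnu_le n]
  have hmH : ∀ t : ℤ, ((H - t.natAbs : ℕ) : ℝ) ≤ H := by
    intro t
    exact_mod_cast Nat.sub_le _ _
  constructor
  · -- first statement
    rw [← Finset.sum_filter_add_sum_filter_not T Ne]
    have hA : ∑ t ∈ T.filter Ne,
        (∑ n ∈ (Finset.Ioc u (u + H)).filter (fun n => n + t ∈ Finset.Ioc u (u + H)),
          (nu z0 z a b n - 1) * (nu z0 z a b (n + t) - 1)) ^ 2 ≤ ε / 2 * (H : ℝ) ^ 3 := by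
      have h5 : ∀ t ∈ T.filter Ne,
          (∑ n ∈ (Finset.Ioc u (u + H)).filter (fun n => n + t ∈ Finset.Ioc u (u + H)),
            (nu z0 z a b n - 1) * (nu z0 z a b (n + t) - 1)) ^ 2 ≤
          (H : ℝ) ^ 2 * (32 * (G t ^ 2 - 1) + 200 * e) := by
        intro t ht
        have ht1 : t ∈ T := (Finset.mem_filter.1 ht).1
        rw [K_eq a b u t H ht1]
        refine K_arith (h0 := ((z ^ sm : ℕ) : ℝ)) (S := VV z0 z (da a) (db a b t) /
          VV z0 z a b ^ 2) (δ := 4 * (k : ℝ) ^ 2 / z0) hH0 (Nat.cast_nonneg _) (hmH t)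
          (Nat.cast_nonneg _) hh0 he0.le (by linarith) (by positivity) hδ (hGone t)
          (ratio_le hk2 a b ha t) (ratio_ge hk2 (by omega) a b ha t) ?_ ?_ (hm1 _ _) (hm1 _ _)
        · exact Finset.sum_nonneg (fun n _ => mul_nonneg (hnu_nn _) (hnu_nn _))
        · exact ⟨_, corr_eq hk2 a b ha u t H ht1,
            Finset.sum_nonneg (fun n _ => A81.nu_nonneg _ _ _ _ _), (hm2 t _ _).1, (hm2 t _ _).2⟩
      refine (Finset.sum_le_sum h5).trans ?_
      rw [← Finset.mul_sum, Finset.sum_add_distrib, ← Finset.mul_sum, Finset.sum_const,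
        nsmul_eq_mul]
      have h6 : 32 * (∑ t ∈ T.filter Ne, (G t ^ 2 - 1)) + ((T.filter Ne).card : ℝ) * (200 * e) ≤
          ε / 2 * H := by
        have h7 : ((T.filter Ne).card : ℝ) * (200 * e) ≤ (2 * H) * (200 * e) :=
          mul_le_mul_of_nonneg_right hcardNe (by positivity)
        have h8 : (2 * H) * (200 * e) ≤ (2 * H) * (200 * (ε / 1600)) :=
          mul_le_mul_of_nonneg_left (by linarith) (by positivity)
        linarith
      calc (H : ℝ) ^ 2 * (32 * (∑ t ∈ T.filter Ne, (G t ^ 2 - 1)) +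
            ((T.filter Ne).card : ℝ) * (200 * e)) ≤ (H : ℝ) ^ 2 * (ε / 2 * H) :=
            mul_le_mul_of_nonneg_left h6 (by positivity)
        _ = _ := by ring
    have hB : ∑ t ∈ T.filter (fun t => ¬ Ne t),
        (∑ n ∈ (Finset.Ioc u (u + H)).filter (fun n => n + t ∈ Finset.Ioc u (u + H)),
          (nu z0 z a b n - 1) * (nu z0 z a b (n + t) - 1)) ^ 2 ≤ ε / 2 * (H : ℝ) ^ 3 := by
      have h5 : ∀ t ∈ T.filter (fun t => ¬ Ne t),
          (∑ n ∈ (Finset.Ioc u (u + H)).filter (fun n => n + t ∈ Finset.Ioc u (u + H)),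
            (nu z0 z a b n - 1) * (nu z0 z a b (n + t) - 1)) ^ 2 ≤
          (H * (z : ℝ) ^ (2 * k)) ^ 2 := by
        intro t _
        have h6 := trivial_bd k z u t H
          (fun n => nu z0 z a b n - 1) (fun n => nu z0 z a b n - 1) hnu2 hnu2
        rw [← sq_abs]
        exact pow_le_pow_left₀ (abs_nonneg _) h6 2
      refine (Finset.sum_le_card_nsmul _ _ _ h5).trans ?_
      rw [nsmul_eq_mul]
      refine (mul_le_mul_of_nonneg_right hcardExc (by positivity)).trans ?_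
      have h7 : (k : ℝ) ^ 2 * (z : ℝ) ^ (4 * k) ≤ ε / 2 * H := by
        have h8 : 2 * (k : ℝ) ^ 2 / ε ≤ z := by
          have : (M3 : ℝ) ≤ z := by exact_mod_cast (by omega : M3 ≤ z)
          linarith
        rw [div_le_iff₀ hε] at h8
        have h9 : ((z * z ^ (8 * k) : ℕ) : ℝ) ≤ H := by exact_mod_cast hpow2
        push_cast at h9
        have h10 : (z : ℝ) ^ (4 * k) ≤ (z : ℝ) ^ (8 * k) := pow_le_pow_right₀ hzR (by omega)
        have h11 : (0 : ℝ) ≤ (z : ℝ) ^ (4 * k) := by positivity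
        calc (k : ℝ) ^ 2 * (z : ℝ) ^ (4 * k) ≤ (ε / 2 * z) * (z : ℝ) ^ (4 * k) :=
              mul_le_mul_of_nonneg_right (by linarith) h11
          _ ≤ (ε / 2 * z) * (z : ℝ) ^ (8 * k) :=
              mul_le_mul_of_nonneg_left h10 (by positivity)
          _ = ε / 2 * (z * (z : ℝ) ^ (8 * k)) := by ring
          _ ≤ ε / 2 * H := mul_le_mul_of_nonneg_left h9 (by positivity)
      calc (k : ℝ) ^ 2 * (H * (z : ℝ) ^ (2 * k)) ^ 2
          = (H : ℝ) ^ 2 * ((k : ℝ) ^ 2 * (z : ℝ) ^ (4 * k)) := by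
            rw [mul_pow, ← pow_mul]; ring
        _ ≤ (H : ℝ) ^ 2 * (ε / 2 * H) := mul_le_mul_of_nonneg_left h7 (by positivity)
        _ = _ := by ring
    linarith
  · -- second statement
    rw [← Finset.sum_filter_add_sum_filter_not T Ne]
    have hA : ∑ t ∈ T.filter Ne,
        (∑ n ∈ (Finset.Ioc u (u + H)).filter (fun n => n + t ∈ Finset.Ioc u (u + H)),
          nu z0 z a b n * nu z0 z a b (n + t)) ^ 4 ≤ (33 / 10) * (H : ℝ) ^ 5 := by
      have h5 : ∀ t ∈ T.filter Ne,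
          (∑ n ∈ (Finset.Ioc u (u + H)).filter (fun n => n + t ∈ Finset.Ioc u (u + H)),
            nu z0 z a b n * nu z0 z a b (n + t)) ^ 4 ≤
          (11 / 10 * (H : ℝ) ^ 4) * ((G t ^ 4 - 1) + 1) := by
        intro t ht
        have ht1 : t ∈ T := (Finset.mem_filter.1 ht).1
        have h6 : (∑ n ∈ (Finset.Ioc u (u + H)).filter (fun n => n + t ∈ Finset.Ioc u (u + H)),
            nu z0 z a b n * nu z0 z a b (n + t)) ≤ G t * ((101 / 100) ^ 2 * H) := by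
          rw [corr_eq hk2 a b ha u t H ht1]
          have h7 := (hm2 t (u + max 0 (-t)) (H - t.natAbs)).1
          have h8 : (0 : ℝ) ≤ ∑ n ∈ Finset.Ioc (u + max 0 (-t))
              (u + max 0 (-t) + ((H - t.natAbs : ℕ) : ℤ)), nu z0 z (da a) (db a b t) n :=
            Finset.sum_nonneg (fun n _ => A81.nu_nonneg _ _ _ _ _)
          refine (mul_le_mul_of_nonneg_right (ratio_le hk2 a b ha t) h8).trans ?_
          apply mul_le_mul_of_nonneg_left _ (by linarith [hGone t])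
          refine h7.trans ?_
          have h9 := hmH t
          have h10 : ((H - t.natAbs : ℕ) : ℝ) + ((z ^ sm : ℕ) : ℝ) ≤ 101 / 100 * H := by
            have : e * H ≤ 1 / 100 * H := mul_le_mul_of_nonneg_right he1 hH0
            linarith
          have h11 : (1 + e) * (((H - t.natAbs : ℕ) : ℝ) + ((z ^ sm : ℕ) : ℝ)) ≤
              (1 + e) * (101 / 100 * H) := mul_le_mul_of_nonneg_left h10 (by linarith)
          have h12 : (1 + e) * (101 / 100 * (H : ℝ)) ≤ (101 / 100) * (101 / 100 * H) :=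
            mul_le_mul_of_nonneg_right (by linarith) (by positivity)
          calc _ ≤ _ := h11
            _ ≤ _ := h12
            _ = _ := by ring
        have h13 : (0 : ℝ) ≤ (∑ n ∈ (Finset.Ioc u (u + H)).filter
            (fun n => n + t ∈ Finset.Ioc u (u + H)), nu z0 z a b n * nu z0 z a b (n + t)) :=
          Finset.sum_nonneg (fun n _ => mul_nonneg (hnu_nn _) (hnu_nn _))
        refine (pow_le_pow_left₀ h13 h6 4).trans ?_
        have h14 : (G t * ((101 / 100) ^ 2 * (H : ℝ))) ^ 4 =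
            ((101 / 100) ^ 8) * ((H : ℝ) ^ 4 * G t ^ 4) := by ring
        rw [h14]
        have h15 : (0 : ℝ) ≤ (H : ℝ) ^ 4 * G t ^ 4 := by
          have := hGone t
          positivity
        have h16 : ((101 / 100 : ℝ) ^ 8) ≤ 11 / 10 := by norm_num
        calc ((101 / 100 : ℝ) ^ 8) * ((H : ℝ) ^ 4 * G t ^ 4) ≤
              11 / 10 * ((H : ℝ) ^ 4 * G t ^ 4) := mul_le_mul_of_nonneg_right h16 h15
          _ = _ := by ring
      refine (Finset.sum_le_sum h5).trans ?_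
      rw [← Finset.mul_sum, Finset.sum_add_distrib, Finset.sum_const, nsmul_eq_mul, mul_one]
      calc (11 / 10 * (H : ℝ) ^ 4) * ((∑ t ∈ T.filter Ne, (G t ^ 4 - 1)) +
            ((T.filter Ne).card : ℝ)) ≤ (11 / 10 * (H : ℝ) ^ 4) * (1 * H + 2 * H) :=
            mul_le_mul_of_nonneg_left (by linarith) (by positivity)
        _ = _ := by ring
    have hB : ∑ t ∈ T.filter (fun t => ¬ Ne t),
        (∑ n ∈ (Finset.Ioc u (u + H)).filter (fun n => n + t ∈ Finset.Ioc u (u + H)),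
          nu z0 z a b n * nu z0 z a b (n + t)) ^ 4 ≤ 1 / 2 * (H : ℝ) ^ 5 := by
      have h5 : ∀ t ∈ T.filter (fun t => ¬ Ne t),
          (∑ n ∈ (Finset.Ioc u (u + H)).filter (fun n => n + t ∈ Finset.Ioc u (u + H)),
            nu z0 z a b n * nu z0 z a b (n + t)) ^ 4 ≤
          (H * (z : ℝ) ^ (2 * k)) ^ 4 := by
        intro t _
        have h6 := trivial_bd k z u t H
          (fun n => nu z0 z a b n) (fun n => nu z0 z a b n) hnu1 hnu1
        have h7 : (0 : ℝ) ≤ (∑ n ∈ (Finset.Ioc u (u + H)).filter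
            (fun n => n + t ∈ Finset.Ioc u (u + H)), nu z0 z a b n * nu z0 z a b (n + t)) :=
          Finset.sum_nonneg (fun n _ => mul_nonneg (hnu_nn _) (hnu_nn _))
        rw [abs_of_nonneg h7] at h6
        exact pow_le_pow_left₀ h7 h6 4
      refine (Finset.sum_le_card_nsmul _ _ _ h5).trans ?_
      rw [nsmul_eq_mul]
      refine (mul_le_mul_of_nonneg_right hcardExc (by positivity)).trans ?_
      have h7 : (k : ℝ) ^ 2 * (z : ℝ) ^ (8 * k) ≤ 1 / 2 * H := by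
        have h8 : 2 * (k : ℝ) ^ 2 ≤ z := by
          exact_mod_cast (by omega : 2 * k ^ 2 ≤ z)
        have h9 : ((z * z ^ (8 * k) : ℕ) : ℝ) ≤ H := by exact_mod_cast hpow2
        push_cast at h9
        have h11 : (0 : ℝ) ≤ (z : ℝ) ^ (8 * k) := by positivity
        calc (k : ℝ) ^ 2 * (z : ℝ) ^ (8 * k) ≤ (1 / 2 * z) * (z : ℝ) ^ (8 * k) :=
              mul_le_mul_of_nonneg_right (by linarith) h11
          _ = 1 / 2 * (z * (z : ℝ) ^ (8 * k)) := by ring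
          _ ≤ 1 / 2 * H := mul_le_mul_of_nonneg_left h9 (by positivity)
      calc (k : ℝ) ^ 2 * (H * (z : ℝ) ^ (2 * k)) ^ 4
          = (H : ℝ) ^ 4 * ((k : ℝ) ^ 2 * (z : ℝ) ^ (8 * k)) := by
            rw [mul_pow, ← pow_mul]; ring_nf
        _ ≤ (H : ℝ) ^ 4 * (1 / 2 * H) := mul_le_mul_of_nonneg_left h7 (by positivity)
        _ = _ := by ring
    have h17 : (0 : ℝ) ≤ (H : ℝ) ^ 5 := by positivity
    linarith

end Pool.Agent.Lib.TwinAll.T49
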