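import Mathlib
import Pool.Agent.Lib.TwinAll.Stmts
import Pool.Agent.Lib.TwinAll.S3x49
import Pool.Agent.Lib.TwinAll.Avg24

/-!
THEOREM A (MP_c6d112_nt), module S3: the U2 estimate and the moment estimate for the pair
correlations of a system of rough forms, from S2.
-/

set_option autoImplicit false

namespace Pool.Agent.Lib.TwinAll

/-- S3 from S2 -/
theorem S3 (hS2 : S2Stmt) : S3Stmt :=
  T49.S3_of hS2 (fun k C ε hε => avg24 k C ε hε)

end Pool.Agent.Lib.TwinAll
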