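import Mathlib
import Pool.Agent.Lib.TwinAll.L3b88

/-!
THEOREM A (MP_c6d112_nt), module L3 (minor arcs), part c: one dyadic block of primes.
-/

set_option autoImplicit false

namespace Pool.Agent.Lib.TwinAll.M88

open Pool.Agent.Lib.TwinAll

open Finset

lemma sum_Icc_cast (H : ℕ) (F : ℤ → ℂ) :
    ∑ m ∈ Finset.Icc 1 H, F (m : ℤ) = ∑ n ∈ Finset.Ioc (0 : ℤ) (0 + H), F n := by
  have h : Finset.Ioc (0 : ℤ) (0 + H) = (Finset.Icc 1 H).map Nat.castEmbedding := by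
    ext n
    simp only [Finset.mem_Ioc, Finset.mem_map, Finset.mem_Icc, Nat.castEmbedding_apply]
    constructor
    · rintro ⟨h1, h2⟩
      exact ⟨n.toNat, by omega, by omega⟩
    · rintro ⟨m, hm, rfl⟩
      omega
  rw [h, Finset.sum_map]
  rfl

lemma block_main (z0 z N y L : ℕ) (P : Finset ℕ) (θ ε1 K0 η l : ℝ)
    (hy : 1 ≤ y) (hN : 1 ≤ N) (hε0 : 0 ≤ ε1) (hε1 : ε1 ≤ 1) (hK0 : 0 < K0) (hη : 0 < η)
    (hl : 0 < l) (hL1 : 1 ≤ L) (hL : 2 / η ≤ L)
    (hP : ∀ p ∈ P, p.Prime ∧ z < p ∧ y < p ∧ p ≤ 2 * y)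
    (hexp : ∀ H : ℕ, N / (2 * y) ≤ H → H ≤ N / y → ∀ α : ℝ,
      ‖∑ m ∈ Finset.Icc 1 H, ((nu1 z0 z m - 1 : ℝ) : ℂ) * ee (α * m)‖ ≤ ε1 * H)
    (h4 : ∑ t ∈ Finset.Ioo (-(y : ℤ)) y,
        (∑ n ∈ (Finset.Ioc (y : ℤ) (y + y)).filter (fun n => n + t ∈ Finset.Ioc (y : ℤ) (y + y)),
          nu1 z0 z n * nu1 z0 z (n + t)) ^ 4 ≤ 4 * (y : ℝ) ^ 5)
    (hηy : 2 ≤ η * y) (hsmall : (2 * (y : ℝ) + 1) * (K0 * y / N) * L < 1)
    (hminor : ¬ ∃ q : ℕ, 1 ≤ q ∧ q ≤ L ∧ ∃ a : ℤ, |θ - (a : ℝ) / q| ≤ K0 / (η * N)) :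
    ‖∑ p ∈ P, ∑ m ∈ Finset.Icc 1 (N / p), (nu1 z0 z m : ℂ) * (lam m : ℂ) *
        ee (θ * ((p : ℝ) * m))‖ ^ 2 ≤
      (2 * N / y) * ((N : ℝ) / y) * ((ε1 + 1 / (2 * K0)) * (P.card : ℝ) ^ 2 + 2 * P.card +
        2 * (V1 z0 z) ^ 2 * (2 * η * l + 4 / l ^ 3) * (y : ℝ) ^ 2) := by
  classical
  have hyR : (1 : ℝ) ≤ y := by exact_mod_cast hy
  have hy0 : (0 : ℝ) < y := by linarith
  have hNR : (1 : ℝ) ≤ N := by exact_mod_cast hN
  have hN0 : (0 : ℝ) < N := by linarith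
  obtain ⟨δ, hδ⟩ : ∃ δ : ℝ, δ = K0 * y / N := ⟨_, rfl⟩
  have hδ0 : 0 < δ := by rw [hδ]; positivity
  rw [← hδ] at hsmall
  -- the set of small multiples
  obtain ⟨A, hA⟩ : ∃ A : Finset ℕ, A = (Finset.Icc 1 y).filter
    (fun h : ℕ => ∃ k : ℤ, |θ * h - k| ≤ δ) := ⟨_, rfl⟩
  have hAcard : (A.card : ℝ) ≤ η * y := by
    by_contra hcon
    push Not at hcon
    apply hminor
    have h1 : y / L + 1 < A.card := by
      have h2 : ((y / L : ℕ) : ℝ) ≤ (y : ℝ) / L := Nat.cast_div_le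
      have hLR : (0 : ℝ) < L := by exact_mod_cast hL1
      have h3 : (y : ℝ) / L ≤ η * y / 2 := by
        rw [div_le_iff₀ hLR]
        rw [div_le_iff₀ hη] at hL
        nlinarith
      have h5 : ((y / L + 1 : ℕ) : ℝ) < A.card := by
        push_cast
        linarith
      exact_mod_cast h5
    obtain ⟨q, hq1, hqL, a, ha⟩ := major_of_many θ δ y L hδ0.le hL1 A (by
      intro h hh
      rw [hA, Finset.mem_filter, Finset.mem_Icc] at hh
      exact ⟨hh.1.1, hh.1.2, hh.2⟩) h1 hsmall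
    refine ⟨q, hq1, hqL, a, ha.trans ?_⟩
    have h5 : δ / A.card ≤ δ / (η * y) :=
      div_le_div_of_nonneg_left hδ0.le (by positivity) hcon.le
    refine h5.trans (le_of_eq ?_)
    rw [hδ]
    field_simp
  obtain ⟨Hs, hHs⟩ : ∃ Hs : Finset ℤ, Hs = (Finset.Ioo (-(y : ℤ)) y).filter
    (fun h : ℤ => h ≠ 0 ∧ ∃ k : ℤ, |θ * h - k| ≤ δ) := ⟨_, rfl⟩
  have hHscard : (Hs.card : ℝ) ≤ 2 * η * y := by
    have h1 : Hs ⊆ A.image (fun n : ℕ => (n : ℤ)) ∪ A.image (fun n : ℕ => -(n : ℤ)) := by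
      intro h hh
      rw [hHs, Finset.mem_filter, Finset.mem_Ioo] at hh
      obtain ⟨⟨h2, h3⟩, h5, k, hk⟩ := hh
      rw [Finset.mem_union, Finset.mem_image, Finset.mem_image]
      rcases lt_or_gt_of_ne h5 with h6 | h6
      · right
        refine ⟨h.natAbs, ?_, by omega⟩
        rw [hA, Finset.mem_filter, Finset.mem_Icc]
        refine ⟨⟨by omega, by omega⟩, -k, ?_⟩
        have h7 : ((h.natAbs : ℕ) : ℝ) = -(h : ℝ) := by
          have : ((h.natAbs : ℕ) : ℤ) = -h := by omega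
          have h8 : (((h.natAbs : ℕ) : ℤ) : ℝ) = ((-h : ℤ) : ℝ) := by rw [this]
          push_cast at h8
          simpa using h8
        rw [h7]
        push_cast
        rw [show θ * -(h : ℝ) - -(k : ℝ) = -(θ * h - k) by ring, abs_neg]
        exact hk
      · left
        refine ⟨h.natAbs, ?_, by omega⟩
        rw [hA, Finset.mem_filter, Finset.mem_Icc]
        refine ⟨⟨by omega, by omega⟩, k, ?_⟩
        have h7 : ((h.natAbs : ℕ) : ℝ) = (h : ℝ) := by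
          have : ((h.natAbs : ℕ) : ℤ) = h := by omega
          have h8 : (((h.natAbs : ℕ) : ℤ) : ℝ) = ((h : ℤ) : ℝ) := by rw [this]
          simpa using h8
        rw [h7]
        exact hk
    have h2 := (Finset.card_le_card h1).trans (Finset.card_union_le _ _)
    have h3 := Finset.card_image_le (s := A) (f := fun n : ℕ => (n : ℤ))
    have h5 := Finset.card_image_le (s := A) (f := fun n : ℕ => -(n : ℤ))
    have h6 : (Hs.card : ℝ) ≤ 2 * A.card := by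
      exact_mod_cast (by omega : Hs.card ≤ 2 * A.card)
    linarith
  -- pairs
  have hpairs : (((P ×ˢ P).filter (fun x => ((x.1 : ℤ) - x.2) ∈ Hs)).card : ℝ) ≤
      (V1 z0 z) ^ 2 * (2 * η * l + 4 / l ^ 3) * (y : ℝ) ^ 2 := by
    have h1 := pair_count P y (V1 z0 z) (l * y) (nu1 z0 z) Hs (V1_pos z0 z) (by positivity)
      (nu1_nonneg z0 z) (by
        intro p hp
        obtain ⟨h1, h2, h3, h5⟩ := hP p hp
        exact ⟨h3, h5, nu1_prime z0 z p h1 h2⟩)
      (by rw [hHs]; exact Finset.filter_subset _ _) h4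
    refine h1.trans ?_
    rw [mul_assoc ((V1 z0 z) ^ 2)]
    apply mul_le_mul_of_nonneg_left _ (by positivity)
    have h2 : (Hs.card : ℝ) * (l * y) ≤ (2 * η * y) * (l * y) :=
      mul_le_mul_of_nonneg_right hHscard (by positivity)
    have h3 : 4 * (y : ℝ) ^ 5 / (l * y) ^ 3 = 4 / l ^ 3 * (y : ℝ) ^ 2 := by
      field_simp
    rw [h3]
    nlinarith
  -- Cauchy-Schwarz
  have hcs := block_cs P y N θ (fun m => nu1 z0 z m) (fun m => (lam m : ℂ)) hy
    (fun p hp => (hP p hp).2.2.1) (fun m => nu1_nonneg z0 z m) (by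
      intro m
      rw [Complex.norm_real, Real.norm_eq_abs]
      unfold lam
      rw [abs_pow, abs_neg, abs_one, one_pow])
  refine hcs.trans ?_
  have hcastdiv : ∀ H : ℕ, H ≤ N / y → (H : ℝ) ≤ N / y := by
    intro H hH
    have h2 : ((N / y : ℕ) : ℝ) ≤ (N : ℝ) / y := Nat.cast_div_le
    exact le_trans (by exact_mod_cast hH) h2
  -- sums of `nu1`
  have hsum : ∀ H : ℕ, N / (2 * y) ≤ H → H ≤ N / y →
      ∑ m ∈ Finset.Icc 1 H, nu1 z0 z m ≤ 2 * N / y := by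
    intro H hH1 hH2
    have h1 := hexp H hH1 hH2 0
    have h2 : ∑ m ∈ Finset.Icc 1 H, ((nu1 z0 z m - 1 : ℝ) : ℂ) * ee (0 * m) =
        ((∑ m ∈ Finset.Icc 1 H, nu1 z0 z m - H : ℝ) : ℂ) := by
      simp only [zero_mul, ee_zero, mul_one]
      push_cast
      rw [Finset.sum_sub_distrib, Finset.sum_const, Nat.card_Icc]
      simp
    rw [h2, Complex.norm_real, Real.norm_eq_abs] at h1
    have h3 := (abs_le.1 h1).2
    have h5 := hcastdiv H hH2
    have h6 : (0 : ℝ) ≤ H := by positivity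
    have h7 : ε1 * H ≤ 1 * H := mul_le_mul_of_nonneg_right hε1 h6
    have h8 : 2 * (N : ℝ) / y = N / y + N / y := by ring
    rw [h8]
    linarith
  have hsum1 : ∑ m ∈ Finset.Icc 1 (N / y), nu1 z0 z (m : ℤ) ≤ 2 * N / y :=
    hsum (N / y) (Nat.div_le_div_left (by omega) hy) le_rfl
  have hE : ∀ p ∈ P, ∀ p' ∈ P,
      ‖∑ m ∈ Finset.Icc 1 (min (N / p) (N / p')), (nu1 z0 z m : ℂ) *
        ee (θ * ((p : ℝ) - p') * m)‖ ≤ (ε1 + 1 / (2 * K0)) * (N / y) +
        (if p = p' then 2 * (N : ℝ) / y else 0) +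
        (if ((p : ℤ) - p') ∈ Hs then 2 * (N : ℝ) / y else 0) := by
    intro p hp p' hp'
    obtain ⟨hp1, hp2, hp3, hp4⟩ := hP p hp
    obtain ⟨hp1', hp2', hp3', hp4'⟩ := hP p' hp'
    have hH1 : N / (2 * y) ≤ min (N / p) (N / p') :=
      le_min (Nat.div_le_div_left hp4 (by omega)) (Nat.div_le_div_left hp4' (by omega))
    have hH2 : min (N / p) (N / p') ≤ N / y :=
      (min_le_left _ _).trans (Nat.div_le_div_left hp3.le hy)
    obtain ⟨H, hH⟩ : ∃ H, H = min (N / p) (N / p') := ⟨_, rfl⟩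
    rw [← hH] at hH1 hH2 ⊢
    have hpos1 : 0 ≤ (ε1 + 1 / (2 * K0)) * ((N : ℝ) / y) := by positivity
    have hpos2 : 0 ≤ 2 * (N : ℝ) / y := by positivity
    have htriv : ‖∑ m ∈ Finset.Icc 1 H, (nu1 z0 z m : ℂ) *
        ee (θ * ((p : ℝ) - p') * m)‖ ≤ 2 * N / y := by
      refine le_trans (norm_sum_le _ _) (le_trans (le_of_eq ?_) (hsum H hH1 hH2))
      apply Finset.sum_congr rfl
      intro m _
      rw [norm_mul, norm_ee, mul_one, Complex.norm_real, Real.norm_eq_abs,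
        abs_of_nonneg (nu1_nonneg z0 z m)]
    by_cases hpp : p = p'
    · rw [if_pos hpp]
      split_ifs <;> linarith
    · by_cases hh : ((p : ℤ) - p') ∈ Hs
      · rw [if_pos hh, if_neg hpp]
        linarith
      · rw [if_neg hh, if_neg hpp, add_zero, add_zero]
        have hfar : ∀ k : ℤ, δ < |θ * ((p : ℝ) - p') - k| := by
          intro k
          by_contra hcon
          push Not at hcon
          apply hh
          rw [hHs, Finset.mem_filter, Finset.mem_Ioo]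
          refine ⟨⟨by omega, by omega⟩, by omega, k, ?_⟩
          push_cast
          exact hcon
        have h1 := geom_bound (θ * ((p : ℝ) - p')) δ H hδ0 hfar
        have h2 := hexp H hH1 hH2 (θ * ((p : ℝ) - p'))
        have h3 : ∑ m ∈ Finset.Icc 1 H, (nu1 z0 z m : ℂ) * ee (θ * ((p : ℝ) - p') * m) =
            ∑ m ∈ Finset.Icc 1 H, ((nu1 z0 z m - 1 : ℝ) : ℂ) * ee (θ * ((p : ℝ) - p') * m) +
            ∑ m ∈ Finset.Icc 1 H, ee (θ * ((p : ℝ) - p') * m) := by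
          rw [← Finset.sum_add_distrib]
          apply Finset.sum_congr rfl
          intro m _
          push_cast
          ring
        rw [h3]
        refine (norm_add_le _ _).trans ?_
        have h5 : 1 / (2 * δ) = 1 / (2 * K0) * (N / y) := by
          rw [hδ]; field_simp
        have h6 : ε1 * H ≤ ε1 * (N / y) := mul_le_mul_of_nonneg_left (hcastdiv H hH2) hε0
        rw [h5] at h1
        calc _ ≤ ε1 * H + 1 / (2 * K0) * (N / y) := add_le_add h2 h1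
          _ ≤ ε1 * (N / y) + 1 / (2 * K0) * (N / y) := by linarith
          _ = _ := by ring
  have hE2 : ∑ p ∈ P, ∑ p' ∈ P,
      ‖∑ m ∈ Finset.Icc 1 (min (N / p) (N / p')), (nu1 z0 z m : ℂ) *
        ee (θ * ((p : ℝ) - p') * m)‖ ≤ ((N : ℝ) / y) * ((ε1 + 1 / (2 * K0)) * (P.card : ℝ) ^ 2 +
        2 * P.card + 2 * (V1 z0 z) ^ 2 * (2 * η * l + 4 / l ^ 3) * (y : ℝ) ^ 2) := by
    refine (Finset.sum_le_sum (fun p hp => Finset.sum_le_sum (fun p' hp' => hE p hp p' hp'))).trans ?_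
    have h1 : ∑ p ∈ P, ∑ p' ∈ P, ((ε1 + 1 / (2 * K0)) * ((N : ℝ) / y) +
        (if p = p' then 2 * (N : ℝ) / y else 0) +
        (if ((p : ℤ) - p') ∈ Hs then 2 * (N : ℝ) / y else 0)) =
        (P.card : ℝ) ^ 2 * ((ε1 + 1 / (2 * K0)) * ((N : ℝ) / y)) + P.card * (2 * (N : ℝ) / y) +
        (((P ×ˢ P).filter (fun x => ((x.1 : ℤ) - x.2) ∈ Hs)).card : ℝ) * (2 * (N : ℝ) / y) := by
      simp only [Finset.sum_add_distrib]
      congr 1
      · congr 1
        · simp only [Finset.sum_const, nsmul_eq_mul]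
          ring
        · simp only [Finset.sum_ite_eq, Finset.sum_const, nsmul_eq_mul]
          rw [Finset.sum_congr rfl (fun p hp => if_pos hp), Finset.sum_const, nsmul_eq_mul]
      · rw [← Finset.sum_product', ← Finset.sum_filter, Finset.sum_const, nsmul_eq_mul]
    rw [h1]
    have h2 : (((P ×ˢ P).filter (fun x => ((x.1 : ℤ) - x.2) ∈ Hs)).card : ℝ) * (2 * (N : ℝ) / y) ≤
        ((V1 z0 z) ^ 2 * (2 * η * l + 4 / l ^ 3) * (y : ℝ) ^ 2) * (2 * (N : ℝ) / y) :=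
      mul_le_mul_of_nonneg_right hpairs (by positivity)
    refine (add_le_add_right h2 _).trans (le_of_eq ?_)
    ring
  have hE0 : 0 ≤ ∑ p ∈ P, ∑ p' ∈ P,
      ‖∑ m ∈ Finset.Icc 1 (min (N / p) (N / p')), (nu1 z0 z m : ℂ) *
        ee (θ * ((p : ℝ) - p') * m)‖ :=
    Finset.sum_nonneg (fun p _ => Finset.sum_nonneg (fun p' _ => norm_nonneg _))
  refine (mul_le_mul hsum1 hE2 hE0 (by positivity)).trans (le_of_eq ?_)
  ring

end Pool.Agent.Lib.TwinAll.M88
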