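import Mathlib
import Pool.Agent.Lib.TwinAll.Stmts

/-!
THEOREM A (MP_c6d112_nt): S4 from S3 (exponential sums).
-/

set_option autoImplicit false

namespace Pool.Agent.Lib.TwinAll

open Finset

theorem ee_norm69 (θ : ℝ) : ‖ee θ‖ = 1 := by
  unfold ee
  rw [show (2 * (Real.pi : ℂ) * (θ : ℂ) * Complex.I) = ((2 * Real.pi * θ : ℝ) : ℂ) * Complex.I by
    push_cast; ring]
  exact Complex.norm_exp_ofReal_mul_I _

theorem ee_add69 (x y : ℝ) : ee (x + y) = ee x * ee y := by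
  unfold ee
  rw [← Complex.exp_add]
  congr 1
  push_cast; ring

theorem ee_conj69 (x : ℝ) : (starRingEnd ℂ) (ee x) = ee (-x) := by
  unfold ee
  rw [← Complex.exp_conj]
  congr 1
  rw [show (2 * (Real.pi : ℂ) * (x : ℂ) * Complex.I) = ((2 * Real.pi * x : ℝ) : ℂ) * Complex.I by
    push_cast; ring]
  rw [map_mul, Complex.conj_ofReal, Complex.conj_I]
  push_cast; ring

/-- van der Corput / Cauchy-Schwarz: fourth power of an exponential sum against the correlations -/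
theorem expsum_le69 (g : ℤ → ℝ) (u : ℤ) (H : ℕ) (θ : ℝ) :
    ‖∑ n ∈ Finset.Ioc u (u + H), ((g n : ℝ) : ℂ) * ee (θ * n)‖ ^ 4 ≤
      2 * H * ∑ t ∈ Finset.Ioo (-(H : ℤ)) H,
        (∑ n ∈ (Finset.Ioc u (u + H)).filter (fun n => n + t ∈ Finset.Ioc u (u + H)),
          g n * g (n + t)) ^ 2 := by
  classical
  set I := Finset.Ioc u (u + H) with hI
  set K : ℤ → ℝ := fun t => ∑ n ∈ I.filter (fun n => n + t ∈ I), g n * g (n + t) with hK
  set E : ℂ := ∑ n ∈ I, ((g n : ℝ) : ℂ) * ee (θ * n) with hE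
  -- |E|^2 = sum_t K t * ee (θ t)
  have h1 : ((‖E‖ ^ 2 : ℝ) : ℂ) = ∑ t ∈ Finset.Ioo (-(H : ℤ)) H, ((K t : ℝ) : ℂ) * ee (θ * t) := by
    have h2 : ((‖E‖ ^ 2 : ℝ) : ℂ) = (starRingEnd ℂ) E * E := by
      rw [← Complex.normSq_eq_norm_sq, Complex.normSq_eq_conj_mul_self]
    rw [h2, hE, map_sum, Finset.sum_mul_sum]
    have h3 : ∀ n ∈ I, ∑ m ∈ I, (starRingEnd ℂ) (((g n : ℝ) : ℂ) * ee (θ * n)) *
        (((g m : ℝ) : ℂ) * ee (θ * m)) =
        ∑ t ∈ Finset.Ioo (-(H : ℤ)) H, if n + t ∈ I then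
          ((g n * g (n + t) : ℝ) : ℂ) * ee (θ * t) else 0 := by
      intro n hn
      rw [← Finset.sum_filter]
      apply Finset.sum_nbij' (fun m => m - n) (fun t => n + t)
      · intro m hm
        rw [Finset.mem_filter, Finset.mem_Ioo]
        rw [hI, Finset.mem_Ioc] at hn hm
        refine ⟨⟨by omega, by omega⟩, ?_⟩
        rw [hI, Finset.mem_Ioc]
        constructor <;> omega
      · intro t ht
        rw [Finset.mem_filter] at ht
        exact ht.2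
      · intro m _
        ring
      · intro t _
        ring
      · intro m _
        rw [map_mul, Complex.conj_ofReal, ee_conj69]
        have h4 : n + (m - n) = m := by ring
        rw [h4]
        have h5 : ee (θ * ((m - n : ℤ) : ℝ)) = ee (-(θ * n)) * ee (θ * m) := by
          rw [← ee_add69]
          congr 1
          push_cast; ring
        rw [h5]
        push_cast
        ring
    rw [Finset.sum_congr rfl h3, Finset.sum_comm]
    apply Finset.sum_congr rfl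
    intro t _
    rw [← Finset.sum_filter, hK]
    push_cast
    rw [Finset.sum_mul]
  have h2 : ‖E‖ ^ 2 ≤ ∑ t ∈ Finset.Ioo (-(H : ℤ)) H, |K t| := by
    have h3 : ‖((‖E‖ ^ 2 : ℝ) : ℂ)‖ = ‖E‖ ^ 2 := by
      rw [Complex.norm_real, Real.norm_eq_abs, abs_of_nonneg (by positivity)]
    rw [← h3, h1]
    refine le_trans (norm_sum_le _ _) ?_
    apply Finset.sum_le_sum
    intro t _
    rw [norm_mul, ee_norm69, mul_one, Complex.norm_real, Real.norm_eq_abs]
  have h3 : (∑ t ∈ Finset.Ioo (-(H : ℤ)) H, |K t|) ^ 2 ≤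
      2 * H * ∑ t ∈ Finset.Ioo (-(H : ℤ)) H, (K t) ^ 2 := by
    have h4 := Finset.sum_mul_sq_le_sq_mul_sq (Finset.Ioo (-(H : ℤ)) H) (fun _ => (1 : ℝ))
      (fun t => |K t|)
    simp only [one_mul, one_pow, sq_abs, Finset.sum_const, nsmul_eq_mul, mul_one] at h4
    refine le_trans h4 ?_
    apply mul_le_mul_of_nonneg_right
    · rw [Int.card_Ioo]
      have : ((((H : ℤ) - -(H : ℤ) - 1).toNat : ℕ) : ℝ) ≤ 2 * H := by
        have h5 : ((H : ℤ) - -(H : ℤ) - 1).toNat ≤ 2 * H := by omega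
        exact_mod_cast h5
      exact this
    · exact Finset.sum_nonneg (fun _ _ => sq_nonneg _)
  calc ‖E‖ ^ 4 = (‖E‖ ^ 2) ^ 2 := by ring
    _ ≤ (∑ t ∈ Finset.Ioo (-(H : ℤ)) H, |K t|) ^ 2 :=
        pow_le_pow_left₀ (by positivity) h2 2
    _ ≤ _ := h3

theorem S4 (h3 : S3Stmt) : S4Stmt := by
  intro k ε hε
  obtain ⟨s, zs, h⟩ := h3 k (ε ^ 4 / 2) (by positivity)
  refine ⟨s, zs, fun z0 hz0 B => ?_⟩
  obtain ⟨z1, hz1⟩ := h z0 hz0 B
  refine ⟨z1, fun z hz a b hab u H hu hH1 hH2 θ => ?_⟩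
  have h4 := (hz1 z hz a b hab u H hu hH1 hH2).1
  have h5 := expsum_le69 (fun n => nu z0 z a b n - 1) u H θ
  have h6 : ‖∑ n ∈ Finset.Ioc u (u + H), ((nu z0 z a b n - 1 : ℝ) : ℂ) * ee (θ * n)‖ ^ 4 ≤
      (ε * H) ^ 4 := by
    refine le_trans h5 ?_
    calc 2 * (H : ℝ) * ∑ t ∈ Finset.Ioo (-(H : ℤ)) H,
        (∑ n ∈ (Finset.Ioc u (u + H)).filter (fun n => n + t ∈ Finset.Ioc u (u + H)),
          (nu z0 z a b n - 1) * (nu z0 z a b (n + t) - 1)) ^ 2
        ≤ 2 * (H : ℝ) * (ε ^ 4 / 2 * (H : ℝ) ^ 3) :=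
          mul_le_mul_of_nonneg_left h4 (by positivity)
      _ = (ε * H) ^ 4 := by ring
  exact le_of_pow_le_pow_left₀ (by norm_num) (by positivity) h6

end Pool.Agent.Lib.TwinAll
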