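import Pool.Agent.Lib.TwinAll.Stmts

/-!
THEOREM A (MP_c6d112_nt): module H1, the relative von Neumann inequality on `ZMod p`, with a
positive definite kernel in the majorant.
-/

set_option autoImplicit false

namespace Pool.Agent.Lib.TwinAll

open Finset

namespace H1M

variable {p : ℕ} [NeZero p]

theorem sum_ch (b : ZMod p) : ∑ ξ : ZMod p, ch (ξ * b) = if b = 0 then (p : ℂ) else 0 := by
  have h := AddChar.sum_mulShift b (ZMod.isPrimitive_stdAddChar p)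
  rw [ZMod.card] at h
  unfold ch
  exact_mod_cast h

theorem conj_ch (a : ZMod p) : (starRingEnd ℂ) (ch a) = ch (-a) := by
  unfold ch
  rw [AddChar.map_neg_eq_conj]

theorem norm_ch (a : ZMod p) : ‖ch a‖ = 1 := AddChar.norm_apply _ _

theorem ch_add (a b : ZMod p) : ch (a + b) = ch a * ch b := AddChar.map_add_eq_mul _ _ _

theorem ch_zero : ch (0 : ZMod p) = 1 := AddChar.map_zero_eq_one _

/-- unnormalised Fourier sum -/
noncomputable def F (f : ZMod p → ℂ) (ξ : ZMod p) : ℂ := ∑ x, f x * ch (-(ξ * x))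

theorem parseval (f : ZMod p → ℂ) : ∑ ξ : ZMod p, ‖F f ξ‖ ^ 2 = (p : ℝ) * ∑ x, ‖f x‖ ^ 2 := by
  have h1 : ∀ ξ : ZMod p, F f ξ * (starRingEnd ℂ) (F f ξ) =
      ∑ x, ∑ y, (f x * (starRingEnd ℂ) (f y)) * ch (ξ * (y - x)) := by
    intro ξ
    unfold F
    rw [map_sum, Finset.sum_mul_sum]
    refine Finset.sum_congr rfl fun x _ => Finset.sum_congr rfl fun y _ => ?_
    rw [map_mul (starRingEnd ℂ), conj_ch, neg_neg, mul_sub, sub_eq_add_neg, ch_add]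
    ring
  have h2 : ∑ ξ : ZMod p, F f ξ * (starRingEnd ℂ) (F f ξ) =
      (p : ℂ) * ∑ x, f x * (starRingEnd ℂ) (f x) := by
    simp_rw [h1]
    rw [Finset.sum_comm, Finset.mul_sum]
    refine Finset.sum_congr rfl fun x _ => ?_
    rw [Finset.sum_comm]
    simp_rw [← Finset.mul_sum, sum_ch]
    rw [Finset.sum_eq_single x]
    · rw [sub_self, if_pos rfl]; ring
    · intro y _ hy
      rw [if_neg (sub_ne_zero.2 hy), mul_zero]
    · intro h; exact absurd (Finset.mem_univ x) h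
  have h3 : ∀ z : ℂ, z * (starRingEnd ℂ) z = ((‖z‖ ^ 2 : ℝ) : ℂ) := by
    intro z
    rw [Complex.mul_conj, Complex.normSq_eq_norm_sq]
  simp_rw [h3] at h2
  exact_mod_cast h2

/-- `G(x) = ∑ u(y) w(x+y)` -/
noncomputable def G (u w : ZMod p → ℂ) (x : ZMod p) : ℂ := ∑ y, u y * w (x + y)

theorem F_G (u w : ZMod p → ℂ) (ξ : ZMod p) : F (G u w) ξ = F w ξ * F u (-ξ) := by
  have h1 : F (G u w) ξ = ∑ y, ∑ x, u y * w (x + y) * ch (-(ξ * x)) := by
    unfold F G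
    simp_rw [Finset.sum_mul]
    rw [Finset.sum_comm]
  have h2 : F w ξ * F u (-ξ) = ∑ y, ∑ z, w z * ch (-(ξ * z)) * (u y * ch (-(-ξ * y))) := by
    unfold F
    rw [Finset.sum_mul_sum, Finset.sum_comm]
  rw [h1, h2]
  refine Finset.sum_congr rfl fun y _ => ?_
  rw [← Equiv.sum_comp (Equiv.addRight y) (fun z => w z * ch (-(ξ * z)) * (u y * ch (-(-ξ * y))))]
  refine Finset.sum_congr rfl fun x _ => ?_
  simp only [Equiv.coe_addRight]
  rw [show -(ξ * x) = -(ξ * (x + y)) + -(-ξ * y) by ring, ch_add]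
  ring

theorem sum_G_sq_le (u w : ZMod p → ℂ) (η : ℝ) (hη : ∀ ξ, ‖F u ξ‖ ≤ η) :
    ∑ x, ‖G u w x‖ ^ 2 ≤ η ^ 2 * ∑ x, ‖w x‖ ^ 2 := by
  have hp : (0 : ℝ) < p := by exact_mod_cast NeZero.pos p
  have h1 := parseval (G u w)
  have h2 := parseval w
  have h3 : ∑ ξ : ZMod p, ‖F (G u w) ξ‖ ^ 2 ≤ η ^ 2 * ∑ ξ : ZMod p, ‖F w ξ‖ ^ 2 := by
    rw [Finset.mul_sum]
    refine Finset.sum_le_sum fun ξ _ => ?_
    rw [F_G, norm_mul, mul_pow, mul_comm]
    exact mul_le_mul_of_nonneg_right (pow_le_pow_left₀ (norm_nonneg _) (hη _) 2) (by positivity)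
  rw [h1, h2] at h3
  have h4 : (p : ℝ) * ∑ y, ‖G u w y‖ ^ 2 ≤ p * (η ^ 2 * ∑ x, ‖w x‖ ^ 2) := by
    rw [← mul_assoc, mul_comm (p : ℝ) (η ^ 2), mul_assoc]; exact h3
  exact le_of_mul_le_mul_left h4 hp

/-- autocorrelation -/
noncomputable def C (u : ZMod p → ℂ) (t : ZMod p) : ℂ := ∑ x, u x * (starRingEnd ℂ) (u (x + t))

theorem sum_weight (u w g : ZMod p → ℂ) :
    ∑ x, g x * ((‖G u w x‖ ^ 2 : ℝ) : ℂ) =
      ∑ q : ZMod p × ZMod p, (w q.1 * (starRingEnd ℂ) (w (q.1 + q.2))) *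
        ∑ x, g x * u (q.1 - x) * (starRingEnd ℂ) (u (q.1 + q.2 - x)) := by
  have h1 : ∀ x, G u w x = ∑ m, w m * u (m - x) := by
    intro x
    unfold G
    rw [← Equiv.sum_comp (Equiv.addLeft x) (fun m => w m * u (m - x))]
    refine Finset.sum_congr rfl fun y _ => ?_
    simp only [Equiv.coe_addLeft, add_sub_cancel_left]
    ring
  have h2 : ∀ x, g x * ((‖G u w x‖ ^ 2 : ℝ) : ℂ) =
      ∑ m, ∑ h, (w m * (starRingEnd ℂ) (w (m + h))) *
        (g x * u (m - x) * (starRingEnd ℂ) (u (m + h - x))) := by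
    intro x
    have h3 : ((‖G u w x‖ ^ 2 : ℝ) : ℂ) = G u w x * (starRingEnd ℂ) (G u w x) := by
      rw [Complex.mul_conj, Complex.normSq_eq_norm_sq]
    rw [h3, h1 x, map_sum, Finset.sum_mul_sum, Finset.mul_sum]
    refine Finset.sum_congr rfl fun m _ => ?_
    rw [← Equiv.sum_comp (Equiv.addLeft m)
      (fun z => w m * u (m - x) * (starRingEnd ℂ) (w z * u (z - x))), Finset.mul_sum]
    refine Finset.sum_congr rfl fun h _ => ?_
    simp only [Equiv.coe_addLeft]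
    rw [map_mul (starRingEnd ℂ)]
    ring
  simp_rw [h2]
  rw [← Finset.univ_product_univ, Finset.sum_product, Finset.sum_comm]
  refine Finset.sum_congr rfl fun m _ => ?_
  rw [Finset.sum_comm]
  refine Finset.sum_congr rfl fun h _ => ?_
  rw [Finset.mul_sum]

theorem sum_sq_identity (u g : ZMod p → ℂ) :
    ((∑ q : ZMod p × ZMod p,
      ‖∑ x, g x * u (q.1 - x) * (starRingEnd ℂ) (u (q.1 + q.2 - x))‖ ^ 2 : ℝ) : ℂ) =
      ∑ t, (starRingEnd ℂ) (C g t) * ((‖C u t‖ ^ 2 : ℝ) : ℂ) := by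
  have h0 : ∀ z : ℂ, ((‖z‖ ^ 2 : ℝ) : ℂ) = z * (starRingEnd ℂ) z := by
    intro z
    rw [Complex.mul_conj, Complex.normSq_eq_norm_sq]
  have e1 : ∀ x x' z : ZMod p, ∑ h, u (z + h - x) * (starRingEnd ℂ) (u (z + h - x')) =
      C u (x - x') := by
    intro x x' z
    unfold C
    rw [← Equiv.sum_comp (Equiv.addRight (z - x))
      (fun m => u m * (starRingEnd ℂ) (u (m + (x - x'))))]
    refine Finset.sum_congr rfl fun h _ => ?_
    simp only [Equiv.coe_addRight]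
    rw [show h + (z - x) = z + h - x by ring, show z + h - x + (x - x') = z + h - x' by ring]
  have e2 : ∀ x x' : ZMod p, ∑ m, u (m - x) * (starRingEnd ℂ) (u (m - x')) = C u (x - x') := by
    intro x x'
    have := e1 x x' 0
    simpa using this
  have h1 : ∀ m h : ZMod p,
      ((‖∑ x, g x * u (m - x) * (starRingEnd ℂ) (u (m + h - x))‖ ^ 2 : ℝ) : ℂ) =
      ∑ x, ∑ x', (g x * (starRingEnd ℂ) (g x')) *
        ((u (m - x) * (starRingEnd ℂ) (u (m - x'))) *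
          (starRingEnd ℂ) (u (m + h - x) * (starRingEnd ℂ) (u (m + h - x')))) := by
    intro m h
    rw [h0, map_sum, Finset.sum_mul_sum]
    refine Finset.sum_congr rfl fun x _ => Finset.sum_congr rfl fun x' _ => ?_
    simp only [map_mul, Complex.conj_conj]
    ring
  have h2 : ∀ x x' : ZMod p, ∑ m, ∑ h, (g x * (starRingEnd ℂ) (g x')) *
        ((u (m - x) * (starRingEnd ℂ) (u (m - x'))) *
          (starRingEnd ℂ) (u (m + h - x) * (starRingEnd ℂ) (u (m + h - x')))) =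
      (g x * (starRingEnd ℂ) (g x')) * ((‖C u (x - x')‖ ^ 2 : ℝ) : ℂ) := by
    intro x x'
    have e3 : ∀ m, ∑ h, (g x * (starRingEnd ℂ) (g x')) *
        ((u (m - x) * (starRingEnd ℂ) (u (m - x'))) *
          (starRingEnd ℂ) (u (m + h - x) * (starRingEnd ℂ) (u (m + h - x')))) =
        (u (m - x) * (starRingEnd ℂ) (u (m - x'))) *
          ((g x * (starRingEnd ℂ) (g x')) * (starRingEnd ℂ) (C u (x - x'))) := by
      intro m
      rw [← e1 x x' m, map_sum, Finset.mul_sum, Finset.mul_sum]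
      exact Finset.sum_congr rfl fun h _ => by ring
    simp_rw [e3]
    rw [← Finset.sum_mul, e2, h0]
    ring
  rw [← Finset.univ_product_univ, Finset.sum_product]
  push_cast
  push_cast at h1
  simp_rw [h1]
  calc ∑ m : ZMod p, ∑ h : ZMod p, ∑ x, ∑ x', (g x * (starRingEnd ℂ) (g x')) *
        ((u (m - x) * (starRingEnd ℂ) (u (m - x'))) *
          (starRingEnd ℂ) (u (m + h - x) * (starRingEnd ℂ) (u (m + h - x'))))
      = ∑ m : ZMod p, ∑ x, ∑ x', ∑ h : ZMod p, (g x * (starRingEnd ℂ) (g x')) *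
        ((u (m - x) * (starRingEnd ℂ) (u (m - x'))) *
          (starRingEnd ℂ) (u (m + h - x) * (starRingEnd ℂ) (u (m + h - x')))) := by
        refine Finset.sum_congr rfl fun m _ => ?_
        rw [Finset.sum_comm]
        refine Finset.sum_congr rfl fun x _ => ?_
        rw [Finset.sum_comm]
    _ = ∑ x, ∑ x', ∑ m : ZMod p, ∑ h : ZMod p, (g x * (starRingEnd ℂ) (g x')) *
        ((u (m - x) * (starRingEnd ℂ) (u (m - x'))) *
          (starRingEnd ℂ) (u (m + h - x) * (starRingEnd ℂ) (u (m + h - x')))) := by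
        rw [Finset.sum_comm]
        refine Finset.sum_congr rfl fun x _ => ?_
        rw [Finset.sum_comm]
    _ = ∑ x, ∑ x', (g x * (starRingEnd ℂ) (g x')) * ((‖C u (x - x')‖ ^ 2 : ℝ) : ℂ) := by
        simp_rw [h2]
    _ = ∑ x', ∑ t, (g (x' + t) * (starRingEnd ℂ) (g x')) * ((‖C u t‖ ^ 2 : ℝ) : ℂ) := by
        rw [Finset.sum_comm]
        refine Finset.sum_congr rfl fun x' _ => ?_
        rw [← Equiv.sum_comp (Equiv.addLeft x')
          (fun x => (g x * (starRingEnd ℂ) (g x')) * ((‖C u (x - x')‖ ^ 2 : ℝ) : ℂ))]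
        refine Finset.sum_congr rfl fun t _ => ?_
        simp only [Equiv.coe_addLeft, add_sub_cancel_left]
    _ = _ := by
        rw [Finset.sum_comm]
        refine Finset.sum_congr rfl fun t _ => ?_
        rw [← Finset.sum_mul]
        unfold C
        rw [map_sum]
        push_cast
        congr 1
        refine Finset.sum_congr rfl fun x _ => ?_
        simp only [map_mul, Complex.conj_conj]
        ring

theorem cs_complex {ι : Type*} (s : Finset ι) (a b : ι → ℂ) :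
    ‖∑ i ∈ s, a i * b i‖ ^ 2 ≤ (∑ i ∈ s, ‖a i‖ ^ 2) * ∑ i ∈ s, ‖b i‖ ^ 2 := by
  have h1 : ‖∑ i ∈ s, a i * b i‖ ≤ ∑ i ∈ s, ‖a i‖ * ‖b i‖ := by
    refine (norm_sum_le _ _).trans (le_of_eq ?_)
    exact Finset.sum_congr rfl fun i _ => norm_mul _ _
  exact (pow_le_pow_left₀ (norm_nonneg _) h1 2).trans (Finset.sum_mul_sq_le_sq_mul_sq _ _ _)

/-- second Cauchy–Schwarz step -/
theorem weight_le (u w g : ZMod p → ℂ) (hw : ∀ x, ‖w x‖ ≤ 1) :
    ‖∑ x, g x * ((‖G u w x‖ ^ 2 : ℝ) : ℂ)‖ ^ 2 ≤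
      (p : ℝ) ^ 2 * ∑ t, ‖C g t‖ * ‖C u t‖ ^ 2 := by
  rw [sum_weight]
  refine (cs_complex _ _ _).trans ?_
  have h1 : ∑ q : ZMod p × ZMod p, ‖w q.1 * (starRingEnd ℂ) (w (q.1 + q.2))‖ ^ 2 ≤
      (p : ℝ) ^ 2 := by
    calc ∑ q : ZMod p × ZMod p, ‖w q.1 * (starRingEnd ℂ) (w (q.1 + q.2))‖ ^ 2
        ≤ ∑ _q : ZMod p × ZMod p, (1 : ℝ) := by
          refine Finset.sum_le_sum fun q _ => ?_
          rw [norm_mul, RCLike.norm_conj]
          have : ‖w q.1‖ * ‖w (q.1 + q.2)‖ ≤ 1 := mul_le_one₀ (hw _) (norm_nonneg _) (hw _)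
          exact pow_le_one₀ (by positivity) this
      _ = (p : ℝ) ^ 2 := by
          simp [ZMod.card]
          ring
  have h2 := sum_sq_identity u g
  have h3 : ∑ q : ZMod p × ZMod p,
      ‖∑ x, g x * u (q.1 - x) * (starRingEnd ℂ) (u (q.1 + q.2 - x))‖ ^ 2 ≤
      ∑ t, ‖C g t‖ * ‖C u t‖ ^ 2 := by
    have h4 : ∑ q : ZMod p × ZMod p,
        ‖∑ x, g x * u (q.1 - x) * (starRingEnd ℂ) (u (q.1 + q.2 - x))‖ ^ 2 =
        ‖∑ t, (starRingEnd ℂ) (C g t) * ((‖C u t‖ ^ 2 : ℝ) : ℂ)‖ := by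
      rw [← h2, Complex.norm_real, Real.norm_of_nonneg]
      exact Finset.sum_nonneg fun q _ => by positivity
    rw [h4]
    refine (norm_sum_le _ _).trans (le_of_eq ?_)
    refine Finset.sum_congr rfl fun t _ => ?_
    rw [norm_mul, RCLike.norm_conj, Complex.norm_real, Real.norm_of_nonneg (by positivity)]
  exact mul_le_mul h1 h3 (Finset.sum_nonneg fun q _ => by positivity) (by positivity)

/-- the undilated inequality, sums -/
theorem core (f u w : ZMod p → ℂ) (ν b c : ZMod p → ℝ) (η A D : ℝ)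
    (hb : ∀ x, 0 ≤ b x) (hbc : ∀ x, (b x : ℂ) = ∑ ζ, (c ζ : ℂ) * ch (ζ * x)) (hc : ∀ ζ, 0 ≤ c ζ)
    (hν : ∀ x, 0 ≤ ν x) (hf : ∀ x, ‖f x‖ ≤ ν x * b x) (hw : ∀ x, ‖w x‖ ≤ 1)
    (hη : ∀ ξ, ‖F u ξ‖ ≤ η)
    (hA : ∑ t, ‖∑ x, ((ν x - 1 : ℝ) : ℂ) * ((ν (x + t) - 1 : ℝ) : ℂ)‖ ^ 2 ≤ A)
    (hD : ∑ t, ‖C u t‖ ^ 4 ≤ D) :
    ‖∑ x, f x * G u w x‖ ^ 2 ≤ (∑ x, ν x * b x) *
      (b 0 * (η ^ 2 * p + p * Real.sqrt (Real.sqrt (A * D)))) := by
  have hp : (0 : ℝ) < p := by exact_mod_cast NeZero.pos p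
  -- first Cauchy–Schwarz
  have h1 : ‖∑ x, f x * G u w x‖ ^ 2 ≤ (∑ x, ν x * b x) * ∑ x, (ν x * b x) * ‖G u w x‖ ^ 2 := by
    have h2 : ‖∑ x, f x * G u w x‖ ≤ ∑ x, Real.sqrt (ν x * b x) *
        (Real.sqrt (ν x * b x) * ‖G u w x‖) := by
      refine (norm_sum_le _ _).trans (Finset.sum_le_sum fun x _ => ?_)
      rw [norm_mul, ← mul_assoc, Real.mul_self_sqrt (mul_nonneg (hν x) (hb x))]
      exact mul_le_mul_of_nonneg_right (hf x) (norm_nonneg _)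
    refine (pow_le_pow_left₀ (norm_nonneg _) h2 2).trans ?_
    refine (Finset.sum_mul_sq_le_sq_mul_sq _ _ _).trans (le_of_eq ?_)
    congr 1
    · exact Finset.sum_congr rfl fun x _ => Real.sq_sqrt (mul_nonneg (hν x) (hb x))
    · refine Finset.sum_congr rfl fun x _ => ?_
      rw [mul_pow, Real.sq_sqrt (mul_nonneg (hν x) (hb x))]
  refine h1.trans (mul_le_mul_of_nonneg_left ?_
    (Finset.sum_nonneg fun x _ => mul_nonneg (hν x) (hb x)))
  -- expansion of the kernel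
  have hb0 : b 0 = ∑ ζ, c ζ := by
    have h := hbc 0
    simp only [mul_zero, ch_zero, mul_one] at h
    exact_mod_cast h
  have h3 : ((∑ x, (ν x * b x) * ‖G u w x‖ ^ 2 : ℝ) : ℂ) =
      ∑ ζ, (c ζ : ℂ) * ((∑ x, ch (ζ * x) * ((‖G u w x‖ ^ 2 : ℝ) : ℂ)) +
        ∑ x, (((ν x - 1 : ℝ) : ℂ) * ch (ζ * x)) * ((‖G u w x‖ ^ 2 : ℝ) : ℂ)) := by
    have h4 : ∀ ζ, (c ζ : ℂ) * ((∑ x, ch (ζ * x) * ((‖G u w x‖ ^ 2 : ℝ) : ℂ)) +
        ∑ x, (((ν x - 1 : ℝ) : ℂ) * ch (ζ * x)) * ((‖G u w x‖ ^ 2 : ℝ) : ℂ)) =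
        ∑ x, (ν x : ℂ) * ((c ζ : ℂ) * ch (ζ * x)) * ((‖G u w x‖ ^ 2 : ℝ) : ℂ) := by
      intro ζ
      rw [← Finset.sum_add_distrib, Finset.mul_sum]
      refine Finset.sum_congr rfl fun x _ => ?_
      push_cast
      ring
    simp_rw [h4]
    rw [Finset.sum_comm]
    push_cast
    refine Finset.sum_congr rfl fun x _ => ?_
    rw [hbc x, ← Finset.sum_mul, ← Finset.mul_sum]
  have h5 : ∀ ζ, ‖(∑ x, ch (ζ * x) * ((‖G u w x‖ ^ 2 : ℝ) : ℂ)) +
        ∑ x, (((ν x - 1 : ℝ) : ℂ) * ch (ζ * x)) * ((‖G u w x‖ ^ 2 : ℝ) : ℂ)‖ ≤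
        η ^ 2 * p + p * Real.sqrt (Real.sqrt (A * D)) := by
    intro ζ
    refine (norm_add_le _ _).trans (add_le_add ?_ ?_)
    · calc ‖∑ x, ch (ζ * x) * ((‖G u w x‖ ^ 2 : ℝ) : ℂ)‖ ≤ ∑ x, ‖G u w x‖ ^ 2 := by
            refine (norm_sum_le _ _).trans (le_of_eq ?_)
            refine Finset.sum_congr rfl fun x _ => ?_
            rw [norm_mul, norm_ch, one_mul, Complex.norm_real, Real.norm_of_nonneg (by positivity)]
        _ ≤ η ^ 2 * ∑ x, ‖w x‖ ^ 2 := sum_G_sq_le u w η hη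
        _ ≤ η ^ 2 * p := by
            refine mul_le_mul_of_nonneg_left ?_ (sq_nonneg _)
            calc ∑ x, ‖w x‖ ^ 2 ≤ ∑ _x : ZMod p, (1 : ℝ) :=
                  Finset.sum_le_sum fun x _ => pow_le_one₀ (norm_nonneg _) (hw x)
              _ = p := by simp [ZMod.card]
    · have h6 := weight_le u w (fun x => ((ν x - 1 : ℝ) : ℂ) * ch (ζ * x)) hw
      have h7 : ∀ t, ‖C (fun x => ((ν x - 1 : ℝ) : ℂ) * ch (ζ * x)) t‖ =
          ‖∑ x, ((ν x - 1 : ℝ) : ℂ) * ((ν (x + t) - 1 : ℝ) : ℂ)‖ := by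
        intro t
        have h8 : C (fun x => ((ν x - 1 : ℝ) : ℂ) * ch (ζ * x)) t =
            (∑ x, ((ν x - 1 : ℝ) : ℂ) * ((ν (x + t) - 1 : ℝ) : ℂ)) * ch (-(ζ * t)) := by
          unfold C
          rw [Finset.sum_mul]
          refine Finset.sum_congr rfl fun x _ => ?_
          rw [map_mul (starRingEnd ℂ), Complex.conj_ofReal, conj_ch]
          have : ch (ζ * x) * ch (-(ζ * (x + t))) = ch (-(ζ * t)) := by
            rw [← ch_add]; congr 1; ring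
          rw [← this]
          ring
        rw [h8, norm_mul, norm_ch, mul_one]
      simp_rw [h7] at h6
      have h9 : (∑ t, ‖∑ x, ((ν x - 1 : ℝ) : ℂ) * ((ν (x + t) - 1 : ℝ) : ℂ)‖ * ‖C u t‖ ^ 2) ^ 2 ≤
          A * D := by
        refine (Finset.sum_mul_sq_le_sq_mul_sq _ _ _).trans ?_
        have e4 : ∀ t, (‖C u t‖ ^ 2) ^ 2 = ‖C u t‖ ^ 4 := fun t => by ring
        simp_rw [e4]
        exact mul_le_mul hA hD (Finset.sum_nonneg fun t _ => by positivity)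
          ((Finset.sum_nonneg fun t _ => by positivity).trans hA)
      have h10 := Real.le_sqrt_of_sq_le h9
      have h11 : ‖∑ x, (((ν x - 1 : ℝ) : ℂ) * ch (ζ * x)) * ((‖G u w x‖ ^ 2 : ℝ) : ℂ)‖ ^ 2 ≤
          (p : ℝ) ^ 2 * Real.sqrt (A * D) :=
        h6.trans (mul_le_mul_of_nonneg_left h10 (by positivity))
      have h12 := Real.le_sqrt_of_sq_le h11
      rwa [Real.sqrt_mul (by positivity), Real.sqrt_sq hp.le] at h12
  have h13 : ∑ x, (ν x * b x) * ‖G u w x‖ ^ 2 =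
      ‖∑ ζ, (c ζ : ℂ) * ((∑ x, ch (ζ * x) * ((‖G u w x‖ ^ 2 : ℝ) : ℂ)) +
        ∑ x, (((ν x - 1 : ℝ) : ℂ) * ch (ζ * x)) * ((‖G u w x‖ ^ 2 : ℝ) : ℂ))‖ := by
    rw [← h3, Complex.norm_real, Real.norm_of_nonneg]
    exact Finset.sum_nonneg fun x _ => mul_nonneg (mul_nonneg (hν x) (hb x)) (by positivity)
  rw [h13, hb0, Finset.sum_mul]
  refine (norm_sum_le _ _).trans (Finset.sum_le_sum fun ζ _ => ?_)
  rw [norm_mul, Complex.norm_real, Real.norm_of_nonneg (hc ζ)]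
  exact mul_le_mul_of_nonneg_left (h5 ζ) (hc ζ)

/-- multiplication by a unit as a permutation -/
theorem sum_dil {q : ℕ} [Fact q.Prime] {M : Type*} [AddCommMonoid M] (α : ZMod q) (hα : α ≠ 0)
    (f : ZMod q → M) : ∑ x, f (α * x) = ∑ x, f x :=
  Fintype.sum_bijective (fun x => α * x) (mulLeft_bijective₀ α hα) _ _ fun _ => rfl

theorem sum_dil_inv {q : ℕ} [Fact q.Prime] {M : Type*} [AddCommMonoid M] (α : ZMod q) (hα : α ≠ 0)
    (f : ZMod q → M) : ∑ x, f (α⁻¹ * x) = ∑ x, f x := sum_dil α⁻¹ (inv_ne_zero hα) f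

end H1M

open H1M in
theorem H1 : H1Stmt := by
  intro p _ f u w ν b c α β δ η A D hα hβ hb hbc hc hν hf hw hη hA hD
  have hp : (0 : ℝ) < p := by exact_mod_cast (Fact.out : p.Prime).pos
  have hpc : (p : ℂ) ≠ 0 := by exact_mod_cast hp.ne'
  -- the dilated functions
  have hbc' : ∀ x : ZMod p, ((b (α⁻¹ * x) : ℝ) : ℂ) = ∑ ζ, ((c (α * ζ) : ℝ) : ℂ) * ch (ζ * x) := by
    intro x
    rw [hbc, ← sum_dil α hα (fun ζ => (c ζ : ℂ) * ch (ζ * (α⁻¹ * x)))]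
    refine Finset.sum_congr rfl fun ζ _ => ?_
    rw [show α * ζ * (α⁻¹ * x) = ζ * x by field_simp]
  have hη' : ∀ ξ, ‖F (fun y => u (β⁻¹ * y)) ξ‖ ≤ η * p := by
    intro ξ
    have h1 : F (fun y => u (β⁻¹ * y)) ξ = p * ft u (β * ξ) := by
      unfold F ft mean
      rw [mul_div_cancel₀ _ hpc, ← sum_dil β hβ (fun x => u (β⁻¹ * x) * ch (-(ξ * x)))]
      refine Finset.sum_congr rfl fun y _ => ?_
      rw [inv_mul_cancel_left₀ hβ, show ξ * (β * y) = β * ξ * y by ring]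
    rw [h1, norm_mul, mul_comm]
    rw [Complex.norm_natCast]
    exact mul_le_mul_of_nonneg_right (hη _) hp.le
  have hA' : ∑ t : ZMod p, ‖∑ x, ((ν (α⁻¹ * x) - 1 : ℝ) : ℂ) *
      ((ν (α⁻¹ * (x + t)) - 1 : ℝ) : ℂ)‖ ^ 2 ≤ A * p ^ 3 := by
    have h1 : ∀ t : ZMod p, (∑ x, ((ν (α⁻¹ * x) - 1 : ℝ) : ℂ) *
        ((ν (α⁻¹ * (x + t)) - 1 : ℝ) : ℂ)) = ∑ x, ((ν x - 1 : ℝ) : ℂ) *
        ((ν (x + α⁻¹ * t) - 1 : ℝ) : ℂ) := by
      intro t
      rw [← sum_dil_inv α hα (fun x => ((ν x - 1 : ℝ) : ℂ) * ((ν (x + α⁻¹ * t) - 1 : ℝ) : ℂ))]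
      refine Finset.sum_congr rfl fun x _ => ?_
      rw [mul_add]
    simp_rw [h1]
    rw [sum_dil_inv α hα (fun t => ‖∑ x, ((ν x - 1 : ℝ) : ℂ) *
        ((ν (x + t) - 1 : ℝ) : ℂ)‖ ^ 2)]
    have h2 : meanR (fun t => ‖mean (fun x => ((ν x - 1 : ℝ) : ℂ) *
        ((ν (x + t) - 1 : ℝ) : ℂ))‖ ^ 2) = (∑ t : ZMod p, ‖∑ x, ((ν x - 1 : ℝ) : ℂ) *
        ((ν (x + t) - 1 : ℝ) : ℂ)‖ ^ 2) / p ^ 3 := by
      unfold meanR mean
      rw [Finset.sum_div, Finset.sum_div]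
      refine Finset.sum_congr rfl fun t _ => ?_
      rw [norm_div, Complex.norm_natCast, div_pow]
      field_simp
    rw [h2, div_le_iff₀ (by positivity)] at hA
    exact hA
  have hD' : ∑ t, ‖C (fun y => u (β⁻¹ * y)) t‖ ^ 4 ≤ D * p ^ 5 := by
    have h1 : ∀ t, C (fun y => u (β⁻¹ * y)) t = C u (β⁻¹ * t) := by
      intro t
      unfold C
      rw [← sum_dil_inv β hβ (fun x => u x * (starRingEnd ℂ) (u (x + β⁻¹ * t)))]
      refine Finset.sum_congr rfl fun x _ => ?_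
      dsimp only
      rw [mul_add]
    simp_rw [h1]
    rw [sum_dil_inv β hβ (fun t => ‖C u t‖ ^ 4)]
    have h2 : meanR (fun t => ‖mean (fun x => u x * (starRingEnd ℂ) (u (x + t)))‖ ^ 4) =
        (∑ t : ZMod p, ‖C u t‖ ^ 4) / p ^ 5 := by
      unfold meanR mean C
      rw [Finset.sum_div, Finset.sum_div]
      refine Finset.sum_congr rfl fun t _ => ?_
      rw [norm_div, Complex.norm_natCast, div_pow]
      field_simp
    rw [h2, div_le_iff₀ (by positivity)] at hD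
    exact hD
  have hA0 : 0 ≤ A := by
    refine le_trans ?_ hA
    unfold meanR
    positivity
  have hD0 : 0 ≤ D := by
    refine le_trans ?_ hD
    unfold meanR
    positivity
  have hcore := core (fun x => f (α⁻¹ * x)) (fun y => u (β⁻¹ * y)) (fun z => w (z + δ))
    (fun x => ν (α⁻¹ * x)) (fun x => b (α⁻¹ * x)) (fun ζ => c (α * ζ)) (η * p) (A * p ^ 3)
    (D * p ^ 5) (fun x => hb _) hbc' (fun ζ => hc _) (fun x => hν _) (fun x => hf _)
    (fun z => hw _) hη' hA' hD'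
  -- rewriting of the left side
  have hL : mean (fun x => mean (fun y => f x * u y * w (α * x + β * y + δ))) =
      (∑ x, f (α⁻¹ * x) * G (fun y => u (β⁻¹ * y)) (fun z => w (z + δ)) x) / (p : ℂ) ^ 2 := by
    unfold mean
    rw [← Finset.sum_div, div_div, ← pow_two]
    congr 1
    rw [← sum_dil_inv α hα (fun x => ∑ y, f x * u y * w (α * x + β * y + δ))]
    refine Finset.sum_congr rfl fun x _ => ?_
    unfold G
    rw [Finset.mul_sum, ← sum_dil_inv β hβ (fun y => f (α⁻¹ * x) * u y *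
      w (α * (α⁻¹ * x) + β * y + δ))]
    refine Finset.sum_congr rfl fun y _ => ?_
    rw [mul_inv_cancel_left₀ hα, mul_inv_cancel_left₀ hβ]
    ring
  have hS : ∑ x, ν (α⁻¹ * x) * b (α⁻¹ * x) = p * meanR (fun x => ν x * b x) := by
    rw [sum_dil_inv α hα (fun x => ν x * b x)]
    unfold meanR
    field_simp
  have hsq : Real.sqrt (Real.sqrt (A * p ^ 3 * (D * p ^ 5))) = p ^ 2 * (A * D) ^ ((1 : ℝ) / 4) := by
    have e1 : A * (p : ℝ) ^ 3 * (D * p ^ 5) = (p ^ 4) ^ 2 * (A * D) := by ring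
    have e2 : (p : ℝ) ^ 4 = (p ^ 2) ^ 2 := by ring
    rw [e1, Real.sqrt_mul (by positivity), Real.sqrt_sq (by positivity),
      Real.sqrt_mul (by positivity), e2, Real.sqrt_sq (by positivity)]
    congr 1
    rw [Real.sqrt_eq_rpow, Real.sqrt_eq_rpow, ← Real.rpow_mul (mul_nonneg hA0 hD0)]
    norm_num
  rw [hL, norm_div, norm_pow, Complex.norm_natCast, div_pow, div_le_iff₀ (by positivity)]
  refine hcore.trans (le_of_eq ?_)
  rw [hS, hsq, mul_zero]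
  ring

end Pool.Agent.Lib.TwinAll
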