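import Mathlib
import Pool.Agent.Lib.TwinAll.Defs

/-!
THEOREM A (MP_c6d112_nt): elementary Fourier analysis on `ZMod p` with `ch`, `mean`, `ft`, `conv`.
-/

set_option autoImplicit false

namespace Pool.Agent.Lib.TwinAll

open Finset

section group

variable {p : ℕ} [NeZero p]

theorem ch_zero : ch (0 : ZMod p) = 1 := by
  unfold ch
  exact AddChar.map_zero_eq_one _

theorem ch_add (x y : ZMod p) : ch (x + y) = ch x * ch y := by
  unfold ch
  exact AddChar.map_add_eq_mul _ _ _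

theorem norm_ch (x : ZMod p) : ‖ch x‖ = 1 := by
  unfold ch
  rw [ZMod.stdAddChar_apply]
  exact Circle.norm_coe _

theorem ch_neg_mul_self (x : ZMod p) : ch (-x) * ch x = 1 := by
  rw [← ch_add, neg_add_cancel, ch_zero]

theorem ch_ne_zero (x : ZMod p) : ch x ≠ 0 := by
  intro h
  have := norm_ch x
  rw [h, norm_zero] at this
  exact one_ne_zero this.symm

theorem conj_ch (x : ZMod p) : (starRingEnd ℂ) (ch x) = ch (-x) := by
  have h1 : ch (-x) = (ch x)⁻¹ := eq_inv_of_mul_eq_one_left (ch_neg_mul_self x)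
  rw [h1, Complex.inv_def, Complex.normSq_eq_norm_sq, norm_ch]
  simp

theorem ch_sub (x y : ZMod p) : ch (x - y) = ch x * (starRingEnd ℂ) (ch y) := by
  rw [conj_ch, ← ch_add, sub_eq_add_neg]

theorem ch_nat_mul (n : ℕ) (x : ZMod p) : ch ((n : ZMod p) * x) = ch x ^ n := by
  induction n with
  | zero => rw [Nat.cast_zero, zero_mul, ch_zero, pow_zero]
  | succ n ih => rw [Nat.cast_succ, add_mul, one_mul, ch_add, ih, pow_succ]

/-- orthogonality -/
theorem sum_ch (ξ : ZMod p) : ∑ x : ZMod p, ch (ξ * x) = if ξ = 0 then (p : ℂ) else 0 := by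
  have h := AddChar.sum_mulShift (R := ZMod p) (R' := ℂ) (ψ := ZMod.stdAddChar) ξ
    (ZMod.isPrimitive_stdAddChar p)
  rw [ZMod.card] at h
  unfold ch
  simp only [mul_comm ξ]
  rw [h]
  split_ifs <;> simp

theorem cast_ne : (p : ℂ) ≠ 0 := Nat.cast_ne_zero.2 (NeZero.ne p)

theorem castR_pos : (0 : ℝ) < p := Nat.cast_pos.2 (Nat.pos_of_ne_zero (NeZero.ne p))

theorem mean_ch (ξ : ZMod p) : mean (fun x => ch (ξ * x)) = if ξ = 0 then 1 else 0 := by
  unfold mean
  rw [sum_ch]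
  split_ifs
  · exact div_self cast_ne
  · rw [zero_div]

/-! ### mean values -/

theorem mean_add (f g : ZMod p → ℂ) : mean (fun x => f x + g x) = mean f + mean g := by
  unfold mean
  rw [sum_add_distrib, add_div]

theorem mean_sub (f g : ZMod p → ℂ) : mean (fun x => f x - g x) = mean f - mean g := by
  unfold mean
  rw [sum_sub_distrib, sub_div]

theorem mean_const (c : ℂ) : mean (fun _ : ZMod p => c) = c := by
  unfold mean
  rw [sum_const, card_univ, ZMod.card, nsmul_eq_mul, mul_div_cancel_left₀ _ cast_ne]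

theorem mean_mul_left (c : ℂ) (f : ZMod p → ℂ) : mean (fun x => c * f x) = c * mean f := by
  unfold mean
  rw [← mul_sum, mul_div_assoc]

theorem mean_mul_right (c : ℂ) (f : ZMod p → ℂ) : mean (fun x => f x * c) = mean f * c := by
  unfold mean
  rw [← sum_mul, div_mul_eq_mul_div]

theorem mean_sum {ι : Type*} (s : Finset ι) (f : ι → ZMod p → ℂ) :
    mean (fun x => ∑ i ∈ s, f i x) = ∑ i ∈ s, mean (f i) := by
  unfold mean
  rw [sum_comm, sum_div]

theorem meanR_sum {ι : Type*} (s : Finset ι) (f : ι → ZMod p → ℝ) :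
    meanR (fun x => ∑ i ∈ s, f i x) = ∑ i ∈ s, meanR (f i) := by
  unfold meanR
  rw [sum_comm, sum_div]

theorem meanR_const (c : ℝ) : meanR (fun _ : ZMod p => c) = c := by
  unfold meanR
  rw [sum_const, card_univ, ZMod.card, nsmul_eq_mul, mul_div_cancel_left₀ _ castR_pos.ne']

theorem meanR_add (f g : ZMod p → ℝ) : meanR (fun x => f x + g x) = meanR f + meanR g := by
  unfold meanR
  rw [sum_add_distrib, add_div]

theorem meanR_sub (f g : ZMod p → ℝ) : meanR (fun x => f x - g x) = meanR f - meanR g := by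
  unfold meanR
  rw [sum_sub_distrib, sub_div]

theorem meanR_mul_left (c : ℝ) (f : ZMod p → ℝ) : meanR (fun x => c * f x) = c * meanR f := by
  unfold meanR
  rw [← mul_sum, mul_div_assoc]

theorem meanR_mul_right (c : ℝ) (f : ZMod p → ℝ) : meanR (fun x => f x * c) = meanR f * c := by
  unfold meanR
  rw [← sum_mul, div_mul_eq_mul_div]

theorem meanR_nonneg (f : ZMod p → ℝ) (h : ∀ x, 0 ≤ f x) : 0 ≤ meanR f :=
  div_nonneg (sum_nonneg fun x _ => h x) (Nat.cast_nonneg p)

theorem meanR_mono (f g : ZMod p → ℝ) (h : ∀ x, f x ≤ g x) : meanR f ≤ meanR g :=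
  div_le_div_of_nonneg_right (sum_le_sum fun x _ => h x) (Nat.cast_nonneg p)

theorem ofReal_meanR (f : ZMod p → ℝ) : ((meanR f : ℝ) : ℂ) = mean (fun x => (f x : ℂ)) := by
  unfold meanR mean
  push_cast
  rfl

theorem norm_mean_le (f : ZMod p → ℂ) : ‖mean f‖ ≤ meanR (fun x => ‖f x‖) := by
  unfold mean meanR
  rw [norm_div, Complex.norm_natCast]
  exact div_le_div_of_nonneg_right (norm_sum_le _ _) (Nat.cast_nonneg p)

theorem mean_shift (f : ZMod p → ℂ) (t : ZMod p) : mean (fun x => f (x + t)) = mean f := by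
  unfold mean
  rw [← Equiv.sum_comp (Equiv.addRight t) f]
  rfl

theorem mean_shift_sub (f : ZMod p → ℂ) (t : ZMod p) : mean (fun x => f (x - t)) = mean f := by
  unfold mean
  rw [← Equiv.sum_comp (Equiv.subRight t) f]
  rfl

theorem mean_neg (f : ZMod p → ℂ) : mean (fun x => f (-x)) = mean f := by
  unfold mean
  rw [← Equiv.sum_comp (Equiv.neg (ZMod p)) f]
  rfl

theorem mean_comm (f : ZMod p → ZMod p → ℂ) :
    mean (fun x => mean (fun y => f x y)) = mean (fun y => mean (fun x => f x y)) := by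
  unfold mean
  simp only [← sum_div]
  rw [sum_comm]

/-- Cauchy-Schwarz with a nonnegative weight -/
theorem mean_cs (w : ZMod p → ℝ) (hw : ∀ x, 0 ≤ w x) (f : ZMod p → ℂ) :
    meanR (fun x => w x * ‖f x‖) ^ 2 ≤ meanR w * meanR (fun x => w x * ‖f x‖ ^ 2) := by
  have h := sum_mul_sq_le_sq_mul_sq (univ : Finset (ZMod p)) (fun x => √(w x))
    (fun x => √(w x) * ‖f x‖)
  have e1 : ∀ x, √(w x) * (√(w x) * ‖f x‖) = w x * ‖f x‖ := fun x => by
    rw [← mul_assoc, Real.mul_self_sqrt (hw x)]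
  have e2 : ∀ x, (√(w x) * ‖f x‖) ^ 2 = w x * ‖f x‖ ^ 2 := fun x => by
    rw [mul_pow, Real.sq_sqrt (hw x)]
  have e3 : ∀ x, √(w x) ^ 2 = w x := fun x => Real.sq_sqrt (hw x)
  simp only [e1, e2, e3] at h
  unfold meanR
  rw [div_pow, div_mul_div_comm, ← sq (p : ℝ)]
  exact div_le_div_of_nonneg_right h (by positivity)

/-! ### Fourier coefficients -/

theorem ft_zero_eq (f : ZMod p → ℂ) : ft f 0 = mean f := by
  unfold ft
  simp only [zero_mul, neg_zero, ch_zero, mul_one]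

theorem ft_add (f g : ZMod p → ℂ) (ξ : ZMod p) : ft (fun x => f x + g x) ξ = ft f ξ + ft g ξ := by
  unfold ft
  simp only [add_mul]
  exact mean_add _ _

theorem ft_sub (f g : ZMod p → ℂ) (ξ : ZMod p) : ft (fun x => f x - g x) ξ = ft f ξ - ft g ξ := by
  unfold ft
  simp only [sub_mul]
  exact mean_sub _ _

theorem norm_ft_le (f : ZMod p → ℂ) (ξ : ZMod p) : ‖ft f ξ‖ ≤ meanR (fun x => ‖f x‖) := by
  refine (norm_mean_le _).trans (meanR_mono _ _ fun x => ?_)
  rw [norm_mul, norm_ch, mul_one]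

/-- a function given by a Fourier expansion has these Fourier coefficients -/
theorem ft_of_expand (f : ZMod p → ℂ) (c : ZMod p → ℂ) (h : ∀ x, f x = ∑ ζ, c ζ * ch (ζ * x))
    (ξ : ZMod p) : ft f ξ = c ξ := by
  unfold ft
  have h1 : (fun x => f x * ch (-(ξ * x))) = fun x => ∑ ζ, c ζ * ch ((ζ - ξ) * x) := by
    funext x
    rw [h x, sum_mul]
    refine sum_congr rfl fun ζ _ => ?_
    rw [mul_assoc, ← ch_add]
    congr 2
    ring
  rw [h1, mean_sum]
  simp only [mean_mul_left, mean_ch, sub_eq_zero, mul_ite, mul_one, mul_zero]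
  rw [sum_ite_eq' univ ξ c, if_pos (mem_univ ξ)]

/-- Fourier inversion -/
theorem inversion (f : ZMod p → ℂ) (x : ZMod p) : f x = ∑ ξ, ft f ξ * ch (ξ * x) := by
  unfold ft
  simp only [← mean_mul_right]
  rw [← mean_sum]
  have h1 : (fun y => ∑ ξ, f y * ch (-(ξ * y)) * ch (ξ * x)) = fun y =>
      f y * if x = y then (p : ℂ) else 0 := by
    funext y
    have h2 : ∀ ξ : ZMod p, f y * ch (-(ξ * y)) * ch (ξ * x) = f y * ch ((x - y) * ξ) := by
      intro ξ
      rw [mul_assoc, ← ch_add]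
      congr 2
      ring
    simp only [h2]
    rw [← mul_sum, sum_ch]
    simp only [sub_eq_zero]
  rw [h1]
  unfold mean
  simp only [mul_ite, mul_zero]
  rw [sum_ite_eq univ x (fun y => f y * (p : ℂ)), if_pos (mem_univ x),
    mul_div_cancel_right₀ _ cast_ne]

/-- Parseval for a Fourier expansion -/
theorem parseval (f : ZMod p → ℂ) : meanR (fun x => ‖f x‖ ^ 2) = ∑ ξ, ‖ft f ξ‖ ^ 2 := by
  have h1 : ((meanR (fun x => ‖f x‖ ^ 2) : ℝ) : ℂ) = ((∑ ξ, ‖ft f ξ‖ ^ 2 : ℝ) : ℂ) := by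
    rw [ofReal_meanR]
    have h2 : (fun x => ((‖f x‖ ^ 2 : ℝ) : ℂ)) = fun x =>
        ∑ ξ, (starRingEnd ℂ) (ft f ξ) * (f x * ch (-(ξ * x))) := by
      funext x
      have h3 : ((‖f x‖ ^ 2 : ℝ) : ℂ) = (starRingEnd ℂ) (f x) * f x := by
        rw [← Complex.normSq_eq_norm_sq, ← Complex.normSq_eq_conj_mul_self]
      rw [h3]
      nth_rewrite 1 [inversion f x]
      rw [map_sum, sum_mul]
      refine sum_congr rfl fun ξ _ => ?_
      rw [map_mul, conj_ch]
      ring
    rw [h2, mean_sum, Complex.ofReal_sum]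
    refine sum_congr rfl fun ξ _ => ?_
    rw [mean_mul_left, ← Complex.normSq_eq_norm_sq, Complex.normSq_eq_conj_mul_self]
    rfl
  exact_mod_cast h1

/-! ### kernels -/

theorem Kernel.ft_eq {K : ℕ} {b c : ZMod p → ℝ} (h : Kernel K b c) (ξ : ZMod p) :
    ft (fun x => (b x : ℂ)) ξ = (c ξ : ℂ) :=
  ft_of_expand _ (fun ζ => (c ζ : ℂ)) h.expand ξ

theorem Kernel.mono {K K' : ℕ} {b c : ZMod p → ℝ} (h : Kernel K b c) (hK : K ≤ K') :
    Kernel K' b c :=
  ⟨h.nonneg, h.expand, h.coeff, h.zero, h.symm, h.supp.trans hK⟩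

theorem Kernel.meanR_eq {K : ℕ} {b c : ZMod p → ℝ} (h : Kernel K b c) : meanR b = 1 := by
  have h1 := h.ft_eq 0
  rw [ft_zero_eq, h.zero, ← ofReal_meanR] at h1
  exact_mod_cast h1

/-- `ft` of a convolution with a kernel -/
theorem Kernel.ft_conv {K : ℕ} {b c : ZMod p → ℝ} (h : Kernel K b c) (f : ZMod p → ℂ)
    (ξ : ZMod p) : ft (conv f b) ξ = ft f ξ * (c ξ : ℂ) := by
  unfold conv
  have h1 : ft (fun x => mean (fun h => f (x - h) * (b h : ℂ))) ξ =
      mean (fun h => mean (fun x => f (x - h) * (b h : ℂ) * ch (-(ξ * x)))) := by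
    unfold ft
    rw [mean_comm]
    congr 1
    funext x
    rw [mean_mul_right]
  rw [h1]
  have h2 : (fun h => mean (fun x => f (x - h) * (b h : ℂ) * ch (-(ξ * x)))) = fun h =>
      ft f ξ * ((b h : ℂ) * ch (-(ξ * h))) := by
    funext h
    have h3 : (fun x => f (x - h) * (b h : ℂ) * ch (-(ξ * x))) = fun x =>
        (f (x - h) * ch (-(ξ * (x - h)))) * ((b h : ℂ) * ch (-(ξ * h))) := by
      funext x
      have h4 : ch (-(ξ * x)) = ch (-(ξ * (x - h))) * ch (-(ξ * h)) := by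
        rw [← ch_add]
        congr 1
        ring
      rw [h4]
      ring
    rw [h3, mean_mul_right, mean_shift_sub (fun x => f x * ch (-(ξ * x))) h]
    rfl
  rw [h2, mean_mul_left]
  congr 1
  exact h.ft_eq ξ

/-- Fourier expansion of a convolution with a kernel -/
theorem Kernel.conv_expand {K : ℕ} {b c : ZMod p → ℝ} (h : Kernel K b c) (f : ZMod p → ℂ)
    (x : ZMod p) : conv f b x = ∑ ξ, ft f ξ * (c ξ : ℂ) * ch (ξ * x) := by
  rw [inversion (conv f b) x]
  refine sum_congr rfl fun ξ _ => ?_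
  rw [h.ft_conv]

/-- the translation error of a kernel in terms of its Fourier coefficients -/
theorem Kernel.meanR_norm_sq {K : ℕ} {b c : ZMod p → ℝ} (h : Kernel K b c) (ξ : ZMod p) :
    meanR (fun x => b x * ‖ch (ξ * x) - 1‖ ^ 2) = 2 * (1 - c ξ) := by
  have h1 : ((meanR (fun x => b x * ‖ch (ξ * x) - 1‖ ^ 2) : ℝ) : ℂ) =
      ((2 * (1 - c ξ) : ℝ) : ℂ) := by
    rw [ofReal_meanR]
    have h2 : (fun x => ((b x * ‖ch (ξ * x) - 1‖ ^ 2 : ℝ) : ℂ)) = fun x =>
        2 * ((b x : ℂ) * ch (-(0 * x))) - (b x : ℂ) * ch (-(ξ * x)) -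
          (b x : ℂ) * ch (-((-ξ) * x)) := by
      funext x
      have h3 : ((‖ch (ξ * x) - 1‖ ^ 2 : ℝ) : ℂ) = 2 - ch (-(ξ * x)) - ch (ξ * x) := by
        rw [← Complex.normSq_eq_norm_sq, Complex.normSq_eq_conj_mul_self, map_sub, map_one,
          conj_ch]
        have := ch_neg_mul_self (ξ * x)
        linear_combination this
      rw [Complex.ofReal_mul, h3, zero_mul, neg_zero, ch_zero]
      ring_nf
    rw [h2, mean_sub, mean_sub, mean_mul_left]
    have e0 := h.ft_eq 0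
    have e1 := h.ft_eq ξ
    have e2 := h.ft_eq (-ξ)
    unfold ft at e0 e1 e2
    rw [e0, e1, e2, h.symm, h.zero]
    push_cast
    ring
  exact_mod_cast h1

end group

end Pool.Agent.Lib.TwinAll
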