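import Mathlib
import Pool.Agent.Lib.TwinAll.Aff81

/-!
THEOREM A (MP_c6d112_nt): Liouville function, almost primes, bounded smooth part, key lemma.
-/

set_option autoImplicit false

namespace Pool.Agent.Lib.TwinAll.A81

open Finset

section lam

theorem lam_mul {m n : ℕ} (hm : m ≠ 0) (hn : n ≠ 0) : lam (m * n) = lam m * lam n := by
  unfold lam
  rw [ArithmeticFunction.cardFactors_mul hm hn, pow_add]

theorem lam_two : lam 2 = -1 := by
  unfold lam
  rw [ArithmeticFunction.cardFactors_apply_prime Nat.prime_two, pow_one]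

theorem lam_prime {p : ℕ} (hp : p.Prime) : lam p = -1 := by
  unfold lam
  rw [ArithmeticFunction.cardFactors_apply_prime hp, pow_one]

theorem lam_eq (n : ℕ) : lam n = 1 ∨ lam n = -1 := neg_one_pow_eq_or ℝ _

theorem lam_sq (n : ℕ) : lam n * lam n = 1 := by
  rcases lam_eq n with h | h <;> rw [h] <;> norm_num

theorem abs_lam (n : ℕ) : |lam n| = 1 := by
  rcases lam_eq n with h | h <;> rw [h] <;> norm_num

theorem lam_ne_zero (n : ℕ) : lam n ≠ 0 := by
  rcases lam_eq n with h | h <;> rw [h] <;> norm_num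

theorem neg_one_pow_eq_iff (m r : ℕ) : ((-1 : ℝ)) ^ m = (-1) ^ r ↔ m ≡ r [MOD 2] := by
  unfold Nat.ModEq
  rcases Nat.even_or_odd m with hm | hm <;> rcases Nat.even_or_odd r with hr | hr
  · rw [hm.neg_one_pow, hr.neg_one_pow, Nat.even_iff.1 hm, Nat.even_iff.1 hr]; simp
  · rw [hm.neg_one_pow, hr.neg_one_pow, Nat.even_iff.1 hm, Nat.odd_iff.1 hr]; norm_num
  · rw [hm.neg_one_pow, hr.neg_one_pow, Nat.odd_iff.1 hm, Nat.even_iff.1 hr]; norm_num
  · rw [hm.neg_one_pow, hr.neg_one_pow, Nat.odd_iff.1 hm, Nat.odd_iff.1 hr]; simp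

/-- `lam n = (-1) ^ r` iff `Ω n ≡ r` modulo 2 -/
theorem lam_eq_iff (n r : ℕ) :
    lam n = (-1) ^ r ↔ ArithmeticFunction.cardFactors n ≡ r [MOD 2] := neg_one_pow_eq_iff _ _

/-- if `τ = 1` or `-1`, then `lam n = τ` or `lam n = -τ` -/
theorem lam_eq_tau {τ : ℝ} (hτ : τ = 1 ∨ τ = -1) (n : ℕ) : lam n = τ ∨ lam n = -τ := by
  rcases hτ with rfl | rfl <;> rcases lam_eq n with h | h <;> rw [h] <;> norm_num

end lam

section near

/-- `x = d ρ` with `1 ≤ d ≤ C` and all prime factors `p` of `ρ` satisfying `N < p ^ C`; at most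
`C` prime factors (with multiplicity) -/
def NearPrime (C N x : ℕ) : Prop :=
  ArithmeticFunction.cardFactors x ≤ C ∧
    ∃ d ρ : ℕ, x = d * ρ ∧ 1 ≤ d ∧ d ≤ C ∧ ∀ p : ℕ, p.Prime → p ∣ ρ → N < p ^ C

/-- the part of `x` composed of primes `≤ z0` is at most `C1` -/
def Sm (z0 C1 x : ℕ) : Prop :=
  ∃ d ρ : ℕ, x = d * ρ ∧ 1 ≤ d ∧ d ≤ C1 ∧ ∀ p : ℕ, p.Prime → p ∣ ρ → z0 < p

theorem cardFactors_le_self81 (x : ℕ) (hx : x ≠ 0) : ArithmeticFunction.cardFactors x ≤ x := by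
  have h1 : 2 ^ ArithmeticFunction.cardFactors x ≤ x := by
    rw [ArithmeticFunction.cardFactors_apply]
    calc 2 ^ x.primeFactorsList.length ≤ x.primeFactorsList.prod := by
          apply List.pow_card_le_prod
          intro p hp
          exact (Nat.prime_of_mem_primeFactorsList hp).two_le
      _ = x := Nat.prod_primeFactorsList hx
  have h2 : ArithmeticFunction.cardFactors x < 2 ^ ArithmeticFunction.cardFactors x :=
    Nat.lt_two_pow_self
  omega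

theorem pow_cardFactors_le81 (z x : ℕ) (hx : x ≠ 0) (h : ∀ p : ℕ, p.Prime → p ∣ x → z ≤ p) :
    z ^ ArithmeticFunction.cardFactors x ≤ x := by
  rw [ArithmeticFunction.cardFactors_apply]
  calc z ^ x.primeFactorsList.length ≤ x.primeFactorsList.prod := by
        apply List.pow_card_le_prod
        intro p hp
        exact h p (Nat.prime_of_mem_primeFactorsList hp) (Nat.dvd_of_mem_primeFactorsList hp)
    _ = x := Nat.prod_primeFactorsList hx

/-- a divisor `y` of `k x`, `k` bounded, `x` rough with bounded smooth part, is an almost prime -/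
theorem nearPrime_of_dvd {z0 z C1 E N C k x y : ℕ} (hx : x ≠ 0) (hk : k ≠ 0) (h1 : Sm z0 C1 x)
    (h2 : Rough z0 z (x : ℤ)) (hz : 2 ≤ z) (hxE : x < z ^ E) (hN : N < z ^ E)
    (hC : k * C1 + E ≤ C) (hy : y ∣ k * x) : NearPrime C N y := by
  obtain ⟨d, ρ, hxd, hd1, hdC, hρ⟩ := h1
  have hρ0 : ρ ≠ 0 := by
    rintro rfl
    exact hx (by rw [hxd, mul_zero])
  have hpr : ∀ p : ℕ, p.Prime → p ∣ ρ → z < p := by
    intro p hp hpd
    by_contra hcon
    push Not at hcon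
    apply h2 p (mem_PP.2 ⟨hρ p hp hpd, hcon, hp⟩)
    rw [hxd]
    exact Int.natCast_dvd_natCast.2 (hpd.mul_left d)
  have hkd0 : k * d ≠ 0 := Nat.mul_ne_zero hk (by omega)
  have hy0 : y ≠ 0 := by
    rintro rfl
    have := Nat.eq_zero_of_zero_dvd hy
    exact (Nat.mul_ne_zero hk hx) this
  obtain ⟨g, hg⟩ : ∃ g : ℕ, g = Nat.gcd y (k * d) := ⟨_, rfl⟩
  have hg0 : 0 < g := by rw [hg]; exact Nat.gcd_pos_of_pos_left _ (Nat.pos_of_ne_zero hy0)
  have hgkd : g ≤ k * d := by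
    rw [hg]; exact Nat.gcd_le_right _ (Nat.pos_of_ne_zero hkd0)
  have hgC : g ≤ k * C1 := hgkd.trans (Nat.mul_le_mul_left _ hdC)
  obtain ⟨σ, hσ⟩ : g ∣ y := by rw [hg]; exact Nat.gcd_dvd_left _ _
  have hσρ : σ ∣ ρ := by
    have h3 : y ∣ k * d * ρ := by rw [mul_assoc, ← hxd]; exact hy
    have h5 : Nat.Coprime (y / g) (k * d / g) := by
      rw [hg]
      exact Nat.coprime_div_gcd_div_gcd (by rw [← hg]; exact hg0)
    have h7 : g * (y / g) = y := by rw [hσ, Nat.mul_div_cancel_left _ hg0]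
    have h8 : g * (k * d / g) = k * d := Nat.mul_div_cancel' (by
      rw [hg]; exact Nat.gcd_dvd_right _ _)
    have h9 : g * (y / g) ∣ g * ((k * d / g) * ρ) := by
      rw [h7, ← mul_assoc, h8]; exact h3
    have h6 : y / g ∣ (k * d / g) * ρ := (Nat.mul_dvd_mul_iff_left hg0).1 h9
    have h4 : y / g ∣ ρ := h5.dvd_of_dvd_mul_left h6
    rwa [hσ, Nat.mul_div_cancel_left _ hg0] at h4
  have hσ0 : σ ≠ 0 := by
    rintro rfl
    exact hρ0 (Nat.eq_zero_of_zero_dvd hσρ)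
  have hσpr : ∀ p : ℕ, p.Prime → p ∣ σ → z < p := fun p hp hpd => hpr p hp (hpd.trans hσρ)
  have hσx : σ ≤ x := by
    have a1 : σ ≤ ρ := Nat.le_of_dvd (Nat.pos_of_ne_zero hρ0) hσρ
    have a2 : ρ ≤ x := by rw [hxd]; exact Nat.le_mul_of_pos_left _ hd1
    omega
  constructor
  · rw [hσ, ArithmeticFunction.cardFactors_mul hg0.ne' hσ0]
    have b1 := cardFactors_le_self81 g hg0.ne'
    have b2 := pow_cardFactors_le81 z σ hσ0 (fun p hp hpd => (hσpr p hp hpd).le)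
    have b3 : z ^ ArithmeticFunction.cardFactors σ < z ^ E := by omega
    have b4 := (Nat.pow_lt_pow_iff_right (by omega)).1 b3
    omega
  · refine ⟨g, σ, hσ, hg0, by omega, ?_⟩
    intro p hp hpd
    have b1 : z ^ E ≤ p ^ E := Nat.pow_le_pow_left (hσpr p hp hpd).le E
    have b2 : p ^ E ≤ p ^ C := Nat.pow_le_pow_right hp.pos (by omega)
    omega

end near

section good

/-- the numbers used: `g`, `g + 2` are almost primes with Liouville function `τ` -/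
def Good (τ : ℝ) (C N g : ℕ) : Prop :=
  0 < g ∧ lam g = τ ∧ lam (g + 2) = τ ∧ NearPrime C N g ∧ NearPrime C N (g + 2)

/-- KEY LEMMA, first case -/
theorem good_two_mul {τ : ℝ} {z0 z C1 E N C x : ℕ} (hx : 0 < x) (h0 : Sm z0 C1 x)
    (h1 : Sm z0 C1 (x + 1)) (r0 : Rough z0 z (x : ℤ)) (r1 : Rough z0 z ((x + 1 : ℕ) : ℤ))
    (hz : 2 ≤ z) (hxE : x + 1 < z ^ E) (hN : N < z ^ E) (hC : 2 * C1 + E ≤ C)
    (l0 : lam x = -τ) (l1 : lam (x + 1) = -τ) : Good τ C N (2 * x) := by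
  refine ⟨by omega, ?_, ?_, ?_, ?_⟩
  · rw [lam_mul (by norm_num) hx.ne', lam_two, l0]; ring
  · rw [show 2 * x + 2 = 2 * (x + 1) by ring, lam_mul (by norm_num) (by omega), lam_two, l1]; ring
  · exact nearPrime_of_dvd hx.ne' two_ne_zero h0 r0 hz (by omega) hN hC dvd_rfl
  · exact nearPrime_of_dvd (x := x + 1) (by omega) two_ne_zero h1 r1 hz (by omega) hN hC
      (by rw [show 2 * x + 2 = 2 * (x + 1) by ring])

/-- KEY LEMMA, second case -/
theorem good_two_mul_add {τ : ℝ} {z0 z C1 E N C x : ℕ} (h1 : Sm z0 C1 (x + 1))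
    (h2 : Sm z0 C1 (x + 2)) (r1 : Rough z0 z ((x + 1 : ℕ) : ℤ)) (r2 : Rough z0 z ((x + 2 : ℕ) : ℤ))
    (hz : 2 ≤ z) (hxE : x + 2 < z ^ E) (hN : N < z ^ E) (hC : 2 * C1 + E ≤ C)
    (l1 : lam (x + 1) = -τ) (l2 : lam (x + 2) = -τ) : Good τ C N (2 * x + 2) :=
  good_two_mul (τ := τ) (x := x + 1) (by omega) h1 h2 r1 r2 hz hxE hN hC l1 l2

/-- KEY LEMMA, third case -/
theorem good_self {τ : ℝ} {z0 z C1 E N C x : ℕ} (hx : 0 < x) (h0 : Sm z0 C1 x)
    (h2 : Sm z0 C1 (x + 2)) (r0 : Rough z0 z (x : ℤ)) (r2 : Rough z0 z ((x + 2 : ℕ) : ℤ))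
    (hz : 2 ≤ z) (hxE : x + 2 < z ^ E) (hN : N < z ^ E) (hC : C1 + E ≤ C)
    (l0 : lam x = τ) (l2 : lam (x + 2) = τ) : Good τ C N x := by
  refine ⟨hx, l0, l2, ?_, ?_⟩
  · exact nearPrime_of_dvd hx.ne' one_ne_zero h0 r0 hz (by omega) hN (by omega)
      (by rw [one_mul])
  · exact nearPrime_of_dvd (x := x + 2) (by omega) one_ne_zero h2 r2 hz hxE hN (by omega)
      (by rw [one_mul])

/-- quotients: `d * g = y`, `d * (g + 2) = y'` with `y`, `y'` rough, `lam y = lam y' = τ lam d` -/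
theorem good_quot {τ : ℝ} {z0 z C1 E N C d g y y' : ℕ} (hd : 0 < d) (hg : 0 < g)
    (hy : d * g = y) (hy' : d * (g + 2) = y') (h0 : Sm z0 C1 y)
    (h2 : Sm z0 C1 y') (r0 : Rough z0 z (y : ℤ)) (r2 : Rough z0 z (y' : ℤ))
    (hz : 2 ≤ z) (hxE : y' < z ^ E) (hN : N < z ^ E) (hC : C1 + E ≤ C)
    (l0 : lam y = τ * lam d) (l2 : lam y' = τ * lam d) : Good τ C N g := by
  have hyy : y ≤ y' := by
    rw [← hy, ← hy']
    exact Nat.mul_le_mul_left _ (by omega)
  have hy0 : y ≠ 0 := by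
    rw [← hy]
    exact Nat.mul_ne_zero hd.ne' hg.ne'
  refine ⟨hg, ?_, ?_, ?_, ?_⟩
  · have h := lam_mul hd.ne' hg.ne'
    rw [hy, l0, mul_comm τ] at h
    exact (mul_left_cancel₀ (lam_ne_zero d) h).symm
  · have h := lam_mul hd.ne' (show g + 2 ≠ 0 by omega)
    rw [hy', l2, mul_comm τ] at h
    exact (mul_left_cancel₀ (lam_ne_zero d) h).symm
  · exact nearPrime_of_dvd hy0 one_ne_zero h0 r0 hz (by omega) hN (by omega)
      (by rw [one_mul, ← hy]; exact Nat.dvd_mul_left _ _)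
  · exact nearPrime_of_dvd (x := y') (by omega) one_ne_zero h2 r2 hz hxE hN (by omega)
      (by rw [one_mul, ← hy']; exact Nat.dvd_mul_left _ _)

/-- KEY LEMMA: the three cases are exhaustive -/
theorem key_cases {τ : ℝ} (hτ : τ = 1 ∨ τ = -1) (x : ℕ) :
    lam x = -τ ∨ lam (x + 2) = -τ ∨ (lam x = τ ∧ lam (x + 2) = τ) := by
  rcases lam_eq_tau hτ x with h | h
  · rcases lam_eq_tau hτ (x + 2) with h' | h'
    · exact Or.inr (Or.inr ⟨h, h'⟩)
    · exact Or.inr (Or.inl h')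
  · exact Or.inl h

end good

end Pool.Agent.Lib.TwinAll.A81
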