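import Mathlib
import Pool.Agent.Lib.TwinAll.Stmts
import Pool.Agent.Lib.TwinAll.Basic94
import Pool.Agent.Lib.TwinAll.Key81
import Pool.Agent.Lib.TwinAll.Four73

/-!
THEOREM A (MP_c6d112_nt): transfer from intervals to `ZMod p`.
-/

set_option autoImplicit false

namespace Pool.Agent.Lib.TwinAll.A81

open Finset

section bridge

variable {p : ℕ} [NeZero p]

theorem sum_zmod_val {M : Type*} [AddCommMonoid M] (f : ℕ → M) :
    ∑ x : ZMod p, f x.val = ∑ n ∈ Finset.range p, f n := by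
  refine Finset.sum_bij (fun x _ => x.val) ?_ ?_ ?_ ?_
  · intro x _
    exact Finset.mem_range.2 (ZMod.val_lt x)
  · intro x _ y _ h
    exact ZMod.val_injective p h
  · intro n hn
    exact ⟨(n : ZMod p), mem_univ _, ZMod.val_cast_of_lt (Finset.mem_range.1 hn)⟩
  · intro x _
    rfl

theorem sum_zmod_Icc {M : Type*} [AddCommMonoid M] (f : ℕ → M) {H : ℕ} (hH : H < p) :
    ∑ x : ZMod p, (if 1 ≤ x.val ∧ x.val ≤ H then f x.val else 0) = ∑ n ∈ Finset.Icc 1 H, f n := by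
  rw [sum_zmod_val (fun n => if 1 ≤ n ∧ n ≤ H then f n else 0), ← Finset.sum_filter]
  congr 1
  ext n
  rw [mem_filter, Finset.mem_range, Finset.mem_Icc]
  omega

theorem ch_mul_eq (ζ x : ZMod p) : ch (ζ * x) = ee ((ζ.val : ℝ) / p * x.val) := by
  have h1 : ζ * x = (((ζ.val * x.val : ℕ) : ℤ) : ZMod p) := by
    push_cast
    rw [ZMod.natCast_zmod_val, ZMod.natCast_zmod_val]
  unfold ch ee
  rw [h1, ZMod.stdAddChar_coe]
  congr 1
  push_cast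
  ring

theorem sum_Ioc_range {M : Type*} [AddCommMonoid M] (F : ℤ → M) (p : ℕ) :
    ∑ n ∈ Finset.Ioc (-1 : ℤ) (-1 + p), F n = ∑ n ∈ Finset.range p, F (n : ℤ) := by
  symm
  refine Finset.sum_bij (fun n _ => (n : ℤ)) ?_ ?_ ?_ ?_
  · intro n hn
    rw [Finset.mem_range] at hn
    rw [Finset.mem_Ioc]
    omega
  · intro n _ m _ h
    exact_mod_cast h
  · intro n hn
    rw [Finset.mem_Ioc] at hn
    exact ⟨n.toNat, Finset.mem_range.2 (by omega), by omega⟩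
  · intro n _
    rfl

/-- autocorrelation on an interval -/
noncomputable def Kc (p : ℕ) (f : ℤ → ℝ) (t : ℤ) : ℝ :=
  ∑ n ∈ (Finset.Ioc (-1 : ℤ) (-1 + p)).filter (fun n => n + t ∈ Finset.Ioc (-1 : ℤ) (-1 + p)),
    f n * f (n + t)

/-- the cyclic correlation in terms of the interval correlations -/
theorem corr_cyclic (f : ℤ → ℝ) (t : ZMod p) :
    ∑ x : ZMod p, f (x.val : ℤ) * f ((x + t).val : ℤ) =
      Kc p f (t.val : ℤ) + Kc p f ((t.val : ℤ) - p) := by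
  have hp : 0 < p := Nat.pos_of_ne_zero (NeZero.ne p)
  have ht := ZMod.val_lt t
  unfold Kc
  rw [Finset.sum_filter, Finset.sum_filter, sum_Ioc_range, sum_Ioc_range,
    ← Finset.sum_add_distrib, ← sum_zmod_val]
  apply Finset.sum_congr rfl
  intro x _
  have hx := ZMod.val_lt x
  simp only [Finset.mem_Ioc]
  have h1 : (x + t).val = (x.val + t.val) % p := ZMod.val_add x t
  rcases lt_or_ge (x.val + t.val) p with h | h
  · rw [if_pos (by omega), if_neg (by omega), add_zero, h1, Nat.mod_eq_of_lt h]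
    push_cast
    rfl
  · rw [if_neg (by omega), if_pos (by omega), zero_add, h1]
    have h2 : (x.val + t.val) % p = x.val + t.val - p := by
      rw [Nat.mod_eq_sub_mod h, Nat.mod_eq_of_lt (by omega)]
    rw [h2]
    congr 2
    omega

theorem sum_Ico_split (G : ℤ → ℝ) :
    ∑ t : ZMod p, G (t.val : ℤ) + ∑ t : ZMod p, G ((t.val : ℤ) - p) =
      G (-(p : ℤ)) + ∑ t ∈ Finset.Ioo (-(p : ℤ)) p, G t := by
  have hp : 0 < p := Nat.pos_of_ne_zero (NeZero.ne p)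
  have h1 : ∑ t : ZMod p, G (t.val : ℤ) = ∑ t ∈ Finset.Ico (0 : ℤ) p, G t := by
    rw [sum_zmod_val (fun n : ℕ => G (n : ℤ))]
    refine Finset.sum_bij (fun n _ => (n : ℤ)) ?_ ?_ ?_ ?_
    · intro n hn
      rw [Finset.mem_range] at hn
      rw [Finset.mem_Ico]; omega
    · intro n _ m _ h
      exact_mod_cast h
    · intro n hn
      rw [Finset.mem_Ico] at hn
      exact ⟨n.toNat, Finset.mem_range.2 (by omega), by omega⟩
    · intro n _
      rfl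
  have h2 : ∑ t : ZMod p, G ((t.val : ℤ) - p) = ∑ t ∈ Finset.Ico (-(p : ℤ)) 0, G t := by
    rw [sum_zmod_val (fun n : ℕ => G ((n : ℤ) - p))]
    refine Finset.sum_bij (fun n _ => (n : ℤ) - p) ?_ ?_ ?_ ?_
    · intro n hn
      rw [Finset.mem_range] at hn
      rw [Finset.mem_Ico]; omega
    · intro n _ m _ h
      omega
    · intro n hn
      rw [Finset.mem_Ico] at hn
      exact ⟨(n + p).toNat, Finset.mem_range.2 (by omega), by omega⟩
    · intro n _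
      rfl
  have h3 : Finset.Ico (-(p : ℤ)) 0 = insert (-(p : ℤ)) (Finset.Ioo (-(p : ℤ)) 0) := by
    rw [← Finset.Ioo_insert_left (by omega)]
  have h4 : Finset.Ioo (-(p : ℤ)) p = Finset.Ioo (-(p : ℤ)) 0 ∪ Finset.Ico (0 : ℤ) p := by
    ext t
    rw [mem_union, Finset.mem_Ioo, Finset.mem_Ioo, Finset.mem_Ico]
    omega
  have h5 : Disjoint (Finset.Ioo (-(p : ℤ)) 0) (Finset.Ico (0 : ℤ) p) := by
    rw [Finset.disjoint_left]
    intro t h6 h7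
    rw [Finset.mem_Ioo] at h6
    rw [Finset.mem_Ico] at h7
    omega
  rw [h1, h2, h3, h4, Finset.sum_union h5, Finset.sum_insert (by simp)]
  ring

omit [NeZero p] in
theorem Kc_neg (f : ℤ → ℝ) : Kc p f (-(p : ℤ)) = 0 := by
  unfold Kc
  apply Finset.sum_eq_zero
  intro n hn
  rw [mem_filter, Finset.mem_Ioc, Finset.mem_Ioc] at hn
  omega

/-- second moment of the cyclic correlation -/
theorem corr_sq_le (f : ℤ → ℝ) :
    ∑ t : ZMod p, (∑ x : ZMod p, f (x.val : ℤ) * f ((x + t).val : ℤ)) ^ 2 ≤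
      2 * ∑ t ∈ Finset.Ioo (-(p : ℤ)) p, Kc p f t ^ 2 := by
  have h1 := sum_Ico_split (p := p) (fun t => Kc p f t ^ 2)
  rw [Kc_neg, zero_pow two_ne_zero, zero_add] at h1
  rw [← h1, mul_add, Finset.mul_sum, Finset.mul_sum, ← Finset.sum_add_distrib]
  apply Finset.sum_le_sum
  intro t _
  rw [corr_cyclic]
  nlinarith [sq_nonneg (Kc p f (t.val : ℤ) - Kc p f ((t.val : ℤ) - p))]

/-- fourth moment of the cyclic correlation -/
theorem corr_four_le (f : ℤ → ℝ) :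
    ∑ t : ZMod p, (∑ x : ZMod p, f (x.val : ℤ) * f ((x + t).val : ℤ)) ^ 4 ≤
      8 * ∑ t ∈ Finset.Ioo (-(p : ℤ)) p, Kc p f t ^ 4 := by
  have h1 := sum_Ico_split (p := p) (fun t => Kc p f t ^ 4)
  rw [Kc_neg, zero_pow (by norm_num), zero_add] at h1
  rw [← h1, mul_add, Finset.mul_sum, Finset.mul_sum, ← Finset.sum_add_distrib]
  apply Finset.sum_le_sum
  intro t _
  rw [corr_cyclic]
  generalize Kc p f (t.val : ℤ) = a
  generalize Kc p f ((t.val : ℤ) - p) = b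
  have h2 : (a + b) ^ 2 ≤ 2 * (a ^ 2 + b ^ 2) := by nlinarith [sq_nonneg (a - b)]
  have h3 : (a + b) ^ 4 ≤ (2 * (a ^ 2 + b ^ 2)) ^ 2 := by
    calc (a + b) ^ 4 = ((a + b) ^ 2) ^ 2 := by ring
      _ ≤ _ := pow_le_pow_left₀ (sq_nonneg _) h2 2
  nlinarith [sq_nonneg (a ^ 2 - b ^ 2)]

end bridge

/-- `nu` on `ZMod p` -/
noncomputable def nuP (z0 z p : ℕ) {k : ℕ} (a b : Fin k → ℤ) (x : ZMod p) : ℝ :=
  nu z0 z a b (x.val : ℤ)

theorem nuP_nonneg (z0 z p : ℕ) {k : ℕ} (a b : Fin k → ℤ) (x : ZMod p) :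
    0 ≤ nuP z0 z p a b x := nu_nonneg _ _ _ _ _

/-- transfer of S3 to `ZMod p` -/
theorem trans3 (h3 : S3Stmt) : ∀ (k : ℕ) (ε : ℝ), 0 < ε → ∃ s zs : ℕ, ∀ z0 : ℕ, zs ≤ z0 →
    ∀ B : ℕ, ∃ z1 : ℕ, ∀ z : ℕ, z1 ≤ z → ∀ a b : Fin k → ℤ, (∀ j, |a j| ≤ (z : ℤ) ^ B ∧
      |b j| ≤ (z : ℤ) ^ B ∧ ∀ q ∈ PP z0 z, ¬ ((q : ℤ) ∣ a j)) →
    ∀ (p : ℕ) [NeZero p], z ^ s ≤ p → p ≤ z ^ B →
      meanR (fun t : ZMod p => ‖mean (fun x : ZMod p => ((nuP z0 z p a b x - 1 : ℝ) : ℂ) *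
        ((nuP z0 z p a b (x + t) - 1 : ℝ) : ℂ))‖ ^ 2) ≤ ε ∧
      meanR (fun t : ZMod p => ‖mean (fun x : ZMod p => ((nuP z0 z p a b x : ℝ) : ℂ) *
        ((nuP z0 z p a b (x + t) : ℝ) : ℂ))‖ ^ 4) ≤ 32 := by
  intro k ε hε
  obtain ⟨s, zs, h⟩ := h3 k (ε / 2) (by positivity)
  refine ⟨s, zs, fun z0 hz0 B => ?_⟩
  obtain ⟨z1, h1⟩ := h z0 hz0 B
  refine ⟨z1 + 1, fun z hz a b hab p _ hp1 hp2 => ?_⟩
  have hz1 : (1 : ℤ) ≤ (z : ℤ) ^ B := by
    exact_mod_cast Nat.one_le_pow B z (by omega)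
  obtain ⟨h4, h5⟩ := h1 z (by omega) a b hab (-1) p (by simpa using hz1) hp1 hp2
  have hp0 : (0 : ℝ) < p := castR_pos
  have key : ∀ f : ℤ → ℝ, ∀ t : ZMod p, ‖mean (fun x : ZMod p => ((f (x.val : ℤ) : ℝ) : ℂ) *
      ((f ((x + t).val : ℤ) : ℝ) : ℂ))‖ =
      |∑ x : ZMod p, f (x.val : ℤ) * f ((x + t).val : ℤ)| / p := by
    intro f t
    have e : mean (fun x : ZMod p => ((f (x.val : ℤ) : ℝ) : ℂ) * ((f ((x + t).val : ℤ) : ℝ) : ℂ)) =
        (((∑ x : ZMod p, f (x.val : ℤ) * f ((x + t).val : ℤ)) / p : ℝ) : ℂ) := by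
      unfold mean
      push_cast
      rfl
    rw [e, Complex.norm_real, Real.norm_eq_abs, abs_div, abs_of_pos hp0]
  constructor
  · have e2 : ∀ t : ZMod p, ‖mean (fun x : ZMod p => ((nuP z0 z p a b x - 1 : ℝ) : ℂ) *
        ((nuP z0 z p a b (x + t) - 1 : ℝ) : ℂ))‖ ^ 2 =
        (∑ x : ZMod p, (nu z0 z a b (x.val : ℤ) - 1) * (nu z0 z a b ((x + t).val : ℤ) - 1)) ^ 2 /
          p ^ 2 := by
      intro t
      have := key (fun n => nu z0 z a b n - 1) t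
      unfold nuP
      rw [this, div_pow, sq_abs]
    simp only [e2]
    unfold meanR
    rw [← Finset.sum_div, div_div]
    rw [div_le_iff₀ (by positivity)]
    refine (corr_sq_le (p := p) (fun n => nu z0 z a b n - 1)).trans ?_
    calc _ ≤ 2 * (ε / 2 * (p : ℝ) ^ 3) := mul_le_mul_of_nonneg_left h4 (by norm_num)
      _ = ε * (p ^ 2 * p) := by ring
  · have e2 : ∀ t : ZMod p, ‖mean (fun x : ZMod p => ((nuP z0 z p a b x : ℝ) : ℂ) *
        ((nuP z0 z p a b (x + t) : ℝ) : ℂ))‖ ^ 4 =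
        (∑ x : ZMod p, (nu z0 z a b (x.val : ℤ)) * (nu z0 z a b ((x + t).val : ℤ))) ^ 4 /
          p ^ 4 := by
      intro t
      have := key (fun n => nu z0 z a b n) t
      unfold nuP
      rw [this, div_pow, Even.pow_abs (by decide)]
    simp only [e2]
    unfold meanR
    rw [← Finset.sum_div, div_div]
    rw [div_le_iff₀ (by positivity)]
    refine (corr_four_le (p := p) (fun n => nu z0 z a b n)).trans ?_
    calc _ ≤ 8 * (4 * (p : ℝ) ^ 5) := mul_le_mul_of_nonneg_left h5 (by norm_num)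
      _ = 32 * (p ^ 4 * p) := by ring

/-- transfer of S4 to `ZMod p` -/
theorem trans4 (h4 : S4Stmt) : ∀ (k : ℕ) (ε : ℝ), 0 < ε → ∃ s zs : ℕ, ∀ z0 : ℕ, zs ≤ z0 →
    ∀ B : ℕ, ∃ z1 : ℕ, ∀ z : ℕ, z1 ≤ z → ∀ a b : Fin k → ℤ, (∀ j, |a j| ≤ (z : ℤ) ^ B ∧
      |b j| ≤ (z : ℤ) ^ B ∧ ∀ q ∈ PP z0 z, ¬ ((q : ℤ) ∣ a j)) →
    ∀ (p : ℕ) [NeZero p], p ≤ z ^ B → z ^ s ≤ p → ∀ ζ : ZMod p,
      ‖mean (fun x : ZMod p => ((nuP z0 z p a b x - 1 : ℝ) : ℂ) * ch (ζ * x))‖ ≤ ε ∧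
      ∀ H : ℕ, z ^ s ≤ H → H < p →
      ‖mean (fun x : ZMod p => (if 1 ≤ x.val ∧ x.val ≤ H then
        ((nuP z0 z p a b x - 1 : ℝ) : ℂ) * ch (ζ * x) else 0))‖ ≤ ε := by
  intro k ε hε
  obtain ⟨s, zs, h⟩ := h4 k ε hε
  refine ⟨s, zs, fun z0 hz0 B => ?_⟩
  obtain ⟨z1, h1⟩ := h z0 hz0 B
  refine ⟨z1 + 1, fun z hz a b hab p _ hp2 hp1 ζ => ?_⟩
  have hz1 : (1 : ℤ) ≤ (z : ℤ) ^ B := by
    exact_mod_cast Nat.one_le_pow B z (by omega)
  have hp0 : (0 : ℝ) < p := castR_pos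
  constructor
  · have h5 := h1 z (by omega) a b hab (-1) p (by simpa using hz1) hp1 hp2 ((ζ.val : ℝ) / p)
    rw [sum_Ioc_range] at h5
    have e : ∑ x : ZMod p, ((nuP z0 z p a b x - 1 : ℝ) : ℂ) * ch (ζ * x) =
        ∑ n ∈ Finset.range p, ((nu z0 z a b (n : ℤ) - 1 : ℝ) : ℂ) *
          ee ((ζ.val : ℝ) / p * ((n : ℤ) : ℝ)) := by
      rw [← sum_zmod_val (p := p) (fun n => ((nu z0 z a b (n : ℤ) - 1 : ℝ) : ℂ) *
          ee ((ζ.val : ℝ) / p * ((n : ℤ) : ℝ)))]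
      apply Finset.sum_congr rfl
      intro x _
      rw [ch_mul_eq]
      unfold nuP
      push_cast
      rfl
    unfold mean
    rw [e, norm_div, Complex.norm_natCast, div_le_iff₀ hp0]
    exact h5
  · intro H hH1 hH2
    have h5 := h1 z (by omega) a b hab 0 H (by simp)
      hH1 (by omega) ((ζ.val : ℝ) / p)
    rw [sum_Ioc_int] at h5
    have e : ∑ x : ZMod p, (if 1 ≤ x.val ∧ x.val ≤ H then
        ((nuP z0 z p a b x - 1 : ℝ) : ℂ) * ch (ζ * x) else 0) =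
        ∑ n ∈ Finset.Icc 1 H, ((nu z0 z a b (n : ℤ) - 1 : ℝ) : ℂ) *
          ee ((ζ.val : ℝ) / p * ((n : ℤ) : ℝ)) := by
      rw [← sum_zmod_Icc (p := p) (fun n => ((nu z0 z a b (n : ℤ) - 1 : ℝ) : ℂ) *
          ee ((ζ.val : ℝ) / p * ((n : ℤ) : ℝ))) hH2]
      apply Finset.sum_congr rfl
      intro x _
      rw [ch_mul_eq]
      unfold nuP
      push_cast
      rfl
    unfold mean
    rw [e, norm_div, Complex.norm_natCast, div_le_iff₀ hp0]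
    refine h5.trans ?_
    apply mul_le_mul_of_nonneg_left _ hε.le
    exact_mod_cast hH2.le

end Pool.Agent.Lib.TwinAll.A81
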