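import Mathlib
import Pool.Agent.Lib.TwinAll.Stmts
import Pool.Agent.Lib.TwinAll.Key81

/-!
THEOREM A (MP_c6d112_nt): the numbers with a large smooth part are few (from S2).
-/

set_option autoImplicit false

namespace Pool.Agent.Lib.TwinAll.A81

open Finset

/-- a sum over a residue class is a sum over an interval -/
theorem sum_class_le (F : ℤ → ℝ) (hF : ∀ n, 0 ≤ F n) (u c : ℤ) (H d : ℕ) (hd : 0 < d) :
    ∑ n ∈ (Finset.Ioc u (u + H)).filter (fun n => (d : ℤ) ∣ n - c), F n ≤
      ∑ t ∈ Finset.Ioc ((u - c) / d) ((u - c) / d + ((H / d + 1 : ℕ) : ℤ)), F ((d : ℤ) * t + c) := by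
  have hd' : (0 : ℤ) < d := by exact_mod_cast hd
  obtain ⟨v, hv⟩ : ∃ v : ℤ, v = (u - c) / d := ⟨_, rfl⟩
  obtain ⟨h, hh⟩ : ∃ h : ℕ, h = H / d := ⟨_, rfl⟩
  rw [← hv, ← hh]
  have h1 : (d : ℤ) * v ≤ u - c := by rw [hv]; exact Int.mul_ediv_self_le hd'.ne'
  have h2 : u - c < (d : ℤ) * v + d := by
    have := Int.lt_ediv_add_one_mul_self (u - c) hd'
    rw [← hv] at this
    linarith
  have h3 : H < d * (h + 1) := by rw [hh]; exact Nat.lt_mul_div_succ H hd
  have h3' : (H : ℤ) < (d : ℤ) * (h + 1) := by exact_mod_cast h3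
  have inj : Set.InjOn (fun t : ℤ => (d : ℤ) * t + c)
      (Finset.Ioc v (v + ((h + 1 : ℕ) : ℤ)) : Set ℤ) := by
    intro x _ y _ hxy
    have : (d : ℤ) * x = (d : ℤ) * y := by simpa using hxy
    exact mul_left_cancel₀ hd'.ne' this
  rw [← Finset.sum_image (f := F) inj]
  apply Finset.sum_le_sum_of_subset_of_nonneg
  · intro n hn
    rw [mem_filter, Finset.mem_Ioc] at hn
    obtain ⟨⟨n1, n2⟩, t, ht⟩ := hn
    rw [mem_image]
    refine ⟨t, ?_, by rw [← ht]; ring⟩
    rw [Finset.mem_Ioc]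
    push_cast
    constructor
    · have : (d : ℤ) * v < d * t := by rw [← ht]; linarith
      exact lt_of_mul_lt_mul_left this hd'.le
    · have : (d : ℤ) * t < (d : ℤ) * (v + (h + 1) + 1) := by
        rw [← ht]
        have e : (d : ℤ) * (v + (h + 1) + 1) = (d * v + d) + d * (h + 1) := by ring
        rw [e]
        linarith
      have := lt_of_mul_lt_mul_left this hd'.le
      linarith
  · intro n _ _
    exact hF n

/-- bounded smooth part from the absence of large prime power divisors -/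
theorem sm_of_pow {z0 M x : ℕ} (P : ℕ → ℕ) (hz : 2 ≤ z0)
    (hP : ∀ p, p.Prime → p ≤ z0 → ∀ e : ℕ, M < p ^ e → P p ∣ p ^ e)
    (h : ∀ p, p.Prime → p ≤ z0 → ¬ (P p ∣ x)) : Sm z0 (M ^ z0) x := by
  have hx : x ≠ 0 := by
    rintro rfl
    exact h 2 Nat.prime_two hz (dvd_zero _)
  have hle : ∀ p, p.Prime → p ≤ z0 → p ^ x.factorization p ≤ M := by
    intro p hp hpz
    by_contra hcon
    push Not at hcon
    exact h p hp hpz ((hP p hp hpz _ hcon).trans (Nat.ordProj_dvd x p))
  have hM : 1 ≤ M := (Nat.one_le_pow _ _ (by norm_num)).trans (hle 2 Nat.prime_two hz)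
  refine ⟨∏ p ∈ x.primeFactors.filter (fun p => p ≤ z0), p ^ x.factorization p,
    ∏ p ∈ x.primeFactors.filter (fun p => ¬ p ≤ z0), p ^ x.factorization p, ?_, ?_, ?_, ?_⟩
  · rw [Finset.prod_filter_mul_prod_filter_not]
    conv_lhs => rw [← Nat.prod_factorization_pow_eq_self hx]
    rfl
  · apply Nat.one_le_iff_ne_zero.2
    rw [Finset.prod_ne_zero_iff]
    intro p hp
    rw [mem_filter] at hp
    exact pow_ne_zero _ (Nat.prime_of_mem_primeFactors hp.1).ne_zero
  · have h1 : (x.primeFactors.filter (fun p => p ≤ z0)).card ≤ z0 := by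
      calc (x.primeFactors.filter (fun p => p ≤ z0)).card ≤ (Finset.Icc 1 z0).card := by
            apply Finset.card_le_card
            intro p hp
            rw [mem_filter] at hp
            rw [Finset.mem_Icc]
            exact ⟨(Nat.prime_of_mem_primeFactors hp.1).one_le, hp.2⟩
        _ = z0 := by simp
    calc _ ≤ M ^ (x.primeFactors.filter (fun p => p ≤ z0)).card := by
          apply Finset.prod_le_pow_card
          intro p hp
          rw [mem_filter] at hp
          exact hle p (Nat.prime_of_mem_primeFactors hp.1) hp.2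
      _ ≤ M ^ z0 := Nat.pow_le_pow_right hM h1
  · intro p hp hpd
    obtain ⟨q, hq, hqd⟩ := (hp.prime.dvd_finsetProd_iff _).1 hpd
    rw [mem_filter] at hq
    have h1 : p ∣ q := hp.dvd_of_dvd_pow hqd
    have h2 := (Nat.prime_dvd_prime_iff_eq hp (Nat.prime_of_mem_primeFactors hq.1)).1 h1
    rw [h2]
    omega

/-- the least power of `p` above `M` -/
theorem exists_pow (M z0 p : ℕ) (hM : 1 ≤ M) (hp : p.Prime) (hpz : p ≤ z0) :
    ∃ e : ℕ, M < p ^ e ∧ p ^ e ≤ z0 * M ∧ ∀ f : ℕ, M < p ^ f → e ≤ f := by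
  classical
  have hex : ∃ e : ℕ, M < p ^ e := ⟨M, Nat.lt_pow_self hp.one_lt⟩
  refine ⟨Nat.find hex, Nat.find_spec hex, ?_, fun f hf => Nat.find_min' hex hf⟩
  obtain ⟨e, he⟩ : ∃ e, e = Nat.find hex := ⟨_, rfl⟩
  rw [← he]
  rcases Nat.eq_zero_or_pos e with h0 | h0
  · rw [h0, pow_zero]
    exact Nat.mul_pos (hp.pos.trans_le hpz) hM
  · have h1 : ¬ M < p ^ (e - 1) := Nat.find_min hex (by rw [← he]; omega)
    have h2 : p ^ e = p * p ^ (e - 1) := by
      conv_lhs => rw [show e = (e - 1) + 1 by omega, pow_succ]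
      ring
    rw [h2]
    exact Nat.mul_le_mul hpz (by omega)

theorem sum_biUnion_le81 {ι α : Type*} [DecidableEq ι] [DecidableEq α] (s : Finset ι)
    (t : ι → Finset α) (f : α → ℝ) (hf : ∀ x, 0 ≤ f x) :
    ∑ x ∈ s.biUnion t, f x ≤ ∑ i ∈ s, ∑ x ∈ t i, f x := by
  induction s using Finset.induction_on with
  | empty => simp
  | insert i s hi ih =>
    rw [Finset.biUnion_insert, Finset.sum_insert hi]
    have h1 := Finset.sum_union_inter (s₁ := t i) (s₂ := s.biUnion t) (f := f)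
    have h2 : 0 ≤ ∑ x ∈ t i ∩ s.biUnion t, f x := Finset.sum_nonneg (fun x _ => hf x)
    linarith

/-- divisibility by `P` of the values of a form confines `n` to a class modulo a large divisor -/
theorem dvd_class {P : ℕ} (hP : 0 < P) {a m : ℤ} (h : (P : ℤ) ∣ a * m) :
    ((P / Nat.gcd P a.natAbs : ℕ) : ℤ) ∣ m := by
  have h1 : P ∣ a.natAbs * m.natAbs := by
    rw [← Int.natAbs_mul]
    exact Int.natCast_dvd.1 h
  have hg : 0 < Nat.gcd P a.natAbs := Nat.gcd_pos_of_pos_left _ hP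
  have h5 : Nat.Coprime (P / Nat.gcd P a.natAbs) (a.natAbs / Nat.gcd P a.natAbs) :=
    Nat.coprime_div_gcd_div_gcd hg
  have h7 : Nat.gcd P a.natAbs * (P / Nat.gcd P a.natAbs) = P :=
    Nat.mul_div_cancel' (Nat.gcd_dvd_left _ _)
  have h8 : Nat.gcd P a.natAbs * (a.natAbs / Nat.gcd P a.natAbs) = a.natAbs :=
    Nat.mul_div_cancel' (Nat.gcd_dvd_right _ _)
  have h9 : Nat.gcd P a.natAbs * (P / Nat.gcd P a.natAbs) ∣
      Nat.gcd P a.natAbs * ((a.natAbs / Nat.gcd P a.natAbs) * m.natAbs) := by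
    rw [h7, ← mul_assoc, h8]; exact h1
  have h6 := (Nat.mul_dvd_mul_iff_left hg).1 h9
  exact Int.natCast_dvd.2 (h5.dvd_of_dvd_mul_left h6)

/-- mass of a residue class modulo `d'` -/
theorem mass_class_le {k : ℕ} {z0 z s : ℕ}
    (hS2 : ∀ a b : Fin k → ℤ, (∀ j, ∀ q ∈ PP z0 z, ¬ ((q : ℤ) ∣ a j)) →
      ∀ (u : ℤ) (H : ℕ), z ^ s ≤ H →
      |(∑ n ∈ Finset.Ioc u (u + H), nu z0 z a b n) - H| ≤ 1 * H)
    (a b : Fin k → ℤ) (ha : ∀ j, ∀ q ∈ PP z0 z, ¬ ((q : ℤ) ∣ a j)) (u c : ℤ) (H d : ℕ)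
    (hd : 0 < d) (hdP : ∀ q ∈ PP z0 z, ¬ (q ∣ d)) (hH : z ^ s * d ≤ H) :
    ∑ n ∈ (Finset.Ioc u (u + H)).filter (fun n => (d : ℤ) ∣ n - c), nu z0 z a b n ≤
      2 * (H / d + 1) := by
  have h1 := sum_class_le (nu z0 z a b) (nu_nonneg z0 z a b) u c H d hd
  have hdP' : ∀ q ∈ PP z0 z, ¬ ((q : ℤ) ∣ (d : ℤ)) := fun q hq hqd =>
    hdP q hq (Int.natCast_dvd_natCast.1 hqd)
  have h2 : z ^ s ≤ H / d + 1 := by
    have : z ^ s ≤ H / d := (Nat.le_div_iff_mul_le hd).2 hH
    omega
  have h3 := hS2 (fun j => a j * d) (fun j => a j * c + b j) (fun j q hq hqd => by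
    have hp : Prime (q : ℤ) := Nat.prime_iff_prime_int.1 (mem_PP.1 hq).2.2
    rcases hp.dvd_or_dvd hqd with h | h
    · exact ha j q hq h
    · exact hdP' q hq h) ((u - c) / d) (H / d + 1) h2
  have h4 : ∑ t ∈ Finset.Ioc ((u - c) / d) ((u - c) / d + ((H / d + 1 : ℕ) : ℤ)),
      nu z0 z a b ((d : ℤ) * t + c) =
      ∑ t ∈ Finset.Ioc ((u - c) / d) ((u - c) / d + ((H / d + 1 : ℕ) : ℤ)),
      nu z0 z (fun j => a j * d) (fun j => a j * c + b j) t := by
    apply Finset.sum_congr rfl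
    intro t _
    exact nu_affine a b hdP' c t
  rw [h4] at h1
  have h5 := (abs_le.1 h3).2
  have h6 : ((H / d + 1 : ℕ) : ℝ) ≤ (H : ℝ) / d + 1 := by
    push_cast
    have : ((H / d : ℕ) : ℝ) ≤ (H : ℝ) / d := Nat.cast_div_le
    linarith
  linarith

open Classical in
/-- The numbers `n` for which a form `a j * n + b j` has a large smooth part are few. -/
theorem exc (hS : S2Stmt) : ∀ (k R : ℕ) (ε : ℝ), 0 < ε → ∃ s zs : ℕ, ∀ z0 : ℕ, zs ≤ z0 →
    ∃ C1 z1 : ℕ, ∀ z : ℕ, z1 ≤ z →
    ∀ a b : Fin k → ℤ, (∀ j, a j ≠ 0 ∧ |a j| ≤ R ∧ ∀ q ∈ PP z0 z, ¬ ((q : ℤ) ∣ a j)) →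
    ∀ (u : ℤ) (H : ℕ), z ^ s ≤ H →
      ∑ n ∈ (Finset.Ioc u (u + H)).filter (fun n => ∃ j, ¬ Sm z0 C1 (a j * n + b j).natAbs),
        nu z0 z a b n ≤ ε * H := by
  intro k R ε hε
  obtain ⟨s, zs, h1⟩ := hS k 1 one_pos
  refine ⟨s + 1, zs + 2, fun z0 hz0 => ?_⟩
  obtain ⟨z1, h2⟩ := h1 z0 (by omega)
  obtain ⟨M, hM⟩ : ∃ M : ℕ, (4 * k * (R + 1) * (z0 + 1) / ε + 1 : ℝ) ≤ M := exists_nat_ge _
  have hMpos : (0 : ℝ) < M := by
    have : (0 : ℝ) ≤ 4 * k * (R + 1) * (z0 + 1) / ε := by positivity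
    linarith
  have hM1 : 1 ≤ M := by
    have : 0 < M := by exact_mod_cast hMpos
    omega
  refine ⟨M ^ z0, z1 + z0 * M, fun z hz a b hab u H hH => ?_⟩
  have hz1 : z1 ≤ z := by omega
  have hzM : z0 * M ≤ z := by omega
  have hz00 : 2 ≤ z0 := by omega
  have hzpos : 0 < z := by
    have : 0 < z0 * M := Nat.mul_pos (by omega) (by omega)
    omega
  choose! e he1 he2 he3 using fun p (hp : p.Prime ∧ p ≤ z0) => exists_pow M z0 p hM1 hp.1 hp.2
  -- the bad set is covered
  set Q : Finset ℕ := (Finset.Icc 1 z0).filter Nat.Prime with hQ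
  have hcov : (Finset.Ioc u (u + H)).filter
      (fun n => ∃ j, ¬ Sm z0 (M ^ z0) (a j * n + b j).natAbs) ⊆
      (univ ×ˢ Q : Finset (Fin k × ℕ)).biUnion (fun jp =>
        (Finset.Ioc u (u + H)).filter (fun n : ℤ => ((jp.2 ^ e jp.2 : ℕ) : ℤ) ∣ a jp.1 * n + b jp.1)) := by
    intro n hn
    rw [mem_filter] at hn
    obtain ⟨hn1, j, hj⟩ := hn
    by_contra hcon
    apply hj
    apply sm_of_pow (fun p => p ^ e p) hz00
    · intro p hp hpz f hf
      exact pow_dvd_pow p (he3 p ⟨hp, hpz⟩ f hf)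
    · intro p hp hpz hd
      apply hcon
      rw [mem_biUnion]
      refine ⟨(j, p), ?_, ?_⟩
      · rw [mem_product]
        refine ⟨mem_univ _, ?_⟩
        rw [hQ, mem_filter, Finset.mem_Icc]
        exact ⟨⟨hp.one_le, hpz⟩, hp⟩
      · rw [mem_filter]
        exact ⟨hn1, Int.natCast_dvd.2 hd⟩
  have hnn := nu_nonneg z0 z a b
  calc _ ≤ ∑ n ∈ (univ ×ˢ Q : Finset (Fin k × ℕ)).biUnion (fun jp =>
        (Finset.Ioc u (u + H)).filter
          (fun n : ℤ => ((jp.2 ^ e jp.2 : ℕ) : ℤ) ∣ a jp.1 * n + b jp.1)), nu z0 z a b n :=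
        Finset.sum_le_sum_of_subset_of_nonneg hcov (fun n _ _ => hnn n)
    _ ≤ ∑ jp ∈ (univ ×ˢ Q : Finset (Fin k × ℕ)), ∑ n ∈ (Finset.Ioc u (u + H)).filter
          (fun n : ℤ => ((jp.2 ^ e jp.2 : ℕ) : ℤ) ∣ a jp.1 * n + b jp.1), nu z0 z a b n :=
        sum_biUnion_le81 _ _ _ hnn
    _ ≤ ∑ jp ∈ (univ ×ˢ Q : Finset (Fin k × ℕ)), (4 * (R + 1) / M * H : ℝ) := by
        apply Finset.sum_le_sum
        rintro ⟨j, p⟩ hjp
        rw [mem_product, hQ, mem_filter, Finset.mem_Icc] at hjp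
        obtain ⟨_, ⟨_, hpz⟩, hp⟩ := hjp
        simp only
        rcases ((Finset.Ioc u (u + H)).filter
          (fun n : ℤ => ((p ^ e p : ℕ) : ℤ) ∣ a j * n + b j)).eq_empty_or_nonempty with h0 | h0
        · rw [h0, Finset.sum_empty]
          positivity
        · obtain ⟨c, hc⟩ := h0
          rw [mem_filter] at hc
          obtain ⟨P, hPdef⟩ : ∃ P : ℕ, P = p ^ e p := ⟨_, rfl⟩
          have hP0 : 0 < P := by rw [hPdef]; exact pow_pos hp.pos _
          have hPM : M < P := by rw [hPdef]; exact he1 p ⟨hp, hpz⟩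
          have hPz : P ≤ z0 * M := by rw [hPdef]; exact he2 p ⟨hp, hpz⟩
          rw [← hPdef] at hc ⊢
          obtain ⟨g, hg⟩ : ∃ g : ℕ, g = Nat.gcd P (a j).natAbs := ⟨_, rfl⟩
          have hg0 : 0 < g := by rw [hg]; exact Nat.gcd_pos_of_pos_left _ hP0
          obtain ⟨d, hd⟩ : ∃ d : ℕ, d = P / g := ⟨_, rfl⟩
          have hdg : g * d = P := by
            rw [hd]
            exact Nat.mul_div_cancel' (by rw [hg]; exact Nat.gcd_dvd_left _ _)
          have hd0 : 0 < d := by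
            rcases Nat.eq_zero_or_pos d with h | h
            · rw [h, mul_zero] at hdg; omega
            · exact h
          have hdP : d ∣ P := Dvd.intro_left _ hdg
          have hgR : g ≤ R := by
            have h1 : g ≤ (a j).natAbs := by
              rw [hg]
              exact Nat.gcd_le_right _ (Int.natAbs_pos.2 (hab j).1)
            have h2 : ((a j).natAbs : ℤ) ≤ R := by
              rw [Int.natCast_natAbs]; exact (hab j).2.1
            have h3 : (a j).natAbs ≤ R := by exact_mod_cast h2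
            omega
          have hdz : d ≤ z := (Nat.le_of_dvd hP0 hdP).trans (by omega)
          have hzd : z ^ s * d ≤ H := by
            calc z ^ s * d ≤ z ^ s * z := Nat.mul_le_mul_left _ hdz
              _ = z ^ (s + 1) := (pow_succ z s).symm
              _ ≤ H := hH
          have hmass := mass_class_le (s := s) (h2 z hz1) a b (fun j => (hab j).2.2) u c H d hd0
            (fun q hq hqd => by
              obtain ⟨q1, _, q3⟩ := mem_PP.1 hq
              have h3 : q ∣ p ^ e p := by rw [← hPdef]; exact hqd.trans hdP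
              have h4 := (Nat.prime_dvd_prime_iff_eq q3 hp).1 (q3.dvd_of_dvd_pow h3)
              omega) hzd
          have hsub : (Finset.Ioc u (u + H)).filter (fun n : ℤ => (P : ℤ) ∣ a j * n + b j) ⊆
              (Finset.Ioc u (u + H)).filter (fun n : ℤ => (d : ℤ) ∣ n - c) := by
            intro n hn
            rw [mem_filter] at hn ⊢
            refine ⟨hn.1, ?_⟩
            rw [hd, hg]
            apply dvd_class hP0 (a := a j)
            have := dvd_sub hn.2 hc.2
            rwa [show a j * n + b j - (a j * c + b j) = a j * (n - c) by ring] at this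
          have hH1 : d ≤ H := by
            have : 1 * d ≤ z ^ s * d := Nat.mul_le_mul_right _ (Nat.one_le_pow _ _ hzpos)
            omega
          have hdR : (0 : ℝ) < d := by exact_mod_cast hd0
          have hHd : (1 : ℝ) ≤ (H : ℝ) / d := by
            rw [le_div_iff₀ hdR, one_mul]
            exact_mod_cast hH1
          have hinv : (H : ℝ) / d ≤ (R + 1) / M * H := by
            have h3 : (M : ℝ) ≤ (R + 1) * d := by
              have h4 : P ≤ R * d := by rw [← hdg]; exact Nat.mul_le_mul_right _ hgR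
              have h5 : M ≤ (R + 1) * d := by
                have : (R + 1) * d = R * d + d := by ring
                omega
              exact_mod_cast h5
            rw [div_mul_eq_mul_div, div_le_div_iff₀ hdR hMpos]
            have hH0 : (0 : ℝ) ≤ H := by positivity
            nlinarith [mul_le_mul_of_nonneg_left h3 hH0]
          calc _ ≤ ∑ n ∈ (Finset.Ioc u (u + H)).filter (fun n : ℤ => (d : ℤ) ∣ n - c),
                nu z0 z a b n :=
                Finset.sum_le_sum_of_subset_of_nonneg hsub (fun n _ _ => hnn n)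
            _ ≤ 2 * (H / d + 1) := hmass
            _ ≤ 4 * (H / d) := by linarith
            _ ≤ 4 * ((R + 1) / M * H) := by linarith
            _ = 4 * (R + 1) / M * H := by ring
    _ ≤ ε * H := by
        rw [Finset.sum_const, nsmul_eq_mul, Finset.card_product, Finset.card_univ, Fintype.card_fin]
        have hQc : Q.card ≤ z0 + 1 := by
          calc Q.card ≤ (Finset.Icc 1 z0).card := by rw [hQ]; exact Finset.card_filter_le _ _
            _ = z0 := by simp
            _ ≤ z0 + 1 := by omega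
        have hQc' : (Q.card : ℝ) ≤ z0 + 1 := by exact_mod_cast hQc
        have h3 : 4 * k * (R + 1) * (z0 + 1) / ε ≤ (M : ℝ) := by linarith
        rw [div_le_iff₀ hε] at h3
        have hH0 : (0 : ℝ) ≤ H := by positivity
        push_cast
        calc (k : ℝ) * Q.card * (4 * (R + 1) / M * H)
            ≤ (k : ℝ) * (z0 + 1) * (4 * (R + 1) / M * H) := by
              apply mul_le_mul_of_nonneg_right _ (by positivity)
              exact mul_le_mul_of_nonneg_left hQc' (by positivity)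
          _ = (4 * k * (R + 1) * (z0 + 1)) / M * H := by ring
          _ ≤ ε * H := by
              apply mul_le_mul_of_nonneg_right _ hH0
              rw [div_le_iff₀ hMpos]
              linarith

end Pool.Agent.Lib.TwinAll.A81
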