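import Mathlib
import Pool.Agent.Lib.TwinAll.Defs
import Pool.Agent.Lib.TwinAll.Four73
import Pool.Agent.Lib.TwinAll.Stmts

/-!
THEOREM A (MP_c6d112_nt), step (a) of the assembly: the averages of `A * b` over the bad set.
-/

set_option autoImplicit false

namespace Pool.Agent.Lib.TwinAll

open Finset

namespace FA

section group

variable {p : ℕ} [NeZero p]

/-- real convolution -/
noncomputable def cvR (f b : ZMod p → ℝ) (x : ZMod p) : ℝ := meanR (fun h => f (x - h) * b h)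

theorem conv_eq (f b : ZMod p → ℝ) (x : ZMod p) :
    conv (fun x => (f x : ℂ)) b x = ((cvR f b x : ℝ) : ℂ) := by
  unfold cvR conv
  rw [ofReal_meanR]
  congr 1
  funext y
  push_cast
  rfl

theorem cvR_nonneg (f b : ZMod p → ℝ) (hf : ∀ x, 0 ≤ f x) (hb : ∀ x, 0 ≤ b x) (x : ZMod p) :
    0 ≤ cvR f b x := meanR_nonneg _ fun h => mul_nonneg (hf _) (hb h)

theorem cvR_add (f g b : ZMod p → ℝ) (x : ZMod p) :
    cvR (fun x => f x + g x) b x = cvR f b x + cvR g b x := by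
  unfold cvR
  rw [← meanR_add]
  congr 1
  funext h
  ring

theorem cvR_mono (f g b : ZMod p → ℝ) (h : ∀ x, f x ≤ g x) (hb : ∀ x, 0 ≤ b x) (x : ZMod p) :
    cvR f b x ≤ cvR g b x :=
  meanR_mono _ _ fun y => mul_le_mul_of_nonneg_right (h _) (hb y)

/-- data of a function below `ν` after the energy increment -/
structure AData (ν A : ZMod p → ℝ) (K K' : ℕ) (b c b' c' : ZMod p → ℝ) (r φ D0 : ℝ) : Prop where
  nn : ∀ x, 0 ≤ A x
  le : ∀ x, A x ≤ ν x
  ker : Kernel K b c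
  ker' : Kernel K' b' c'
  r0 : 0 ≤ r
  close : meanR (fun x => ‖conv (fun x => (A x : ℂ)) b x - conv (fun x => (A x : ℂ)) b' x‖ ^ 2)
    ≤ r ^ 2
  small : ∀ ξ, ‖ft (fun x => (A x : ℂ) - conv (fun x => (A x : ℂ)) b' x) ξ‖ ≤ φ
  two : ∀ x, ‖conv (fun x => (A x : ℂ)) b x‖ ≤ 2
  two' : ∀ x, ‖conv (fun x => (A x : ℂ)) b' x‖ ≤ 2
  mass : meanR ν ≤ 2
  corr : meanR (fun t => ‖mean (fun x => (ν x : ℂ) * (ν (x + t) : ℂ))‖ ^ 4) ≤ D0

theorem AData.nu_nonneg {ν A : ZMod p → ℝ} {K K' : ℕ} {b c b' c' : ZMod p → ℝ} {r φ D0 : ℝ}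
    (h : AData ν A K K' b c b' c' r φ D0) (x : ZMod p) : 0 ≤ ν x := (h.nn x).trans (h.le x)

theorem AData.phi_nonneg {ν A : ZMod p → ℝ} {K K' : ℕ} {b c b' c' : ZMod p → ℝ} {r φ D0 : ℝ}
    (h : AData ν A K K' b c b' c' r φ D0) : 0 ≤ φ := (norm_nonneg _).trans (h.small 0)

theorem AData.D0_nonneg {ν A : ZMod p → ℝ} {K K' : ℕ} {b c b' c' : ZMod p → ℝ} {r φ D0 : ℝ}
    (h : AData ν A K K' b c b' c' r φ D0) : 0 ≤ D0 :=
  (meanR_nonneg _ fun _ => by positivity).trans h.corr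

theorem AData.ft_le {ν A : ZMod p → ℝ} {K K' : ℕ} {b c b' c' : ZMod p → ℝ} {r φ D0 : ℝ}
    (h : AData ν A K K' b c b' c' r φ D0) (ξ : ZMod p) :
    ‖ft (fun x => (A x : ℂ)) ξ‖ ≤ 2 := by
  refine (norm_ft_le _ _).trans (le_trans ?_ h.mass)
  refine meanR_mono _ _ fun x => ?_
  rw [Complex.norm_real, Real.norm_eq_abs, abs_of_nonneg (h.nn x)]
  exact h.le x

/-- Cauchy-Schwarz: mean of the norm -/
theorem meanR_norm_le (f : ZMod p → ℂ) (r : ℝ) (hr : 0 ≤ r)
    (h : meanR (fun x => ‖f x‖ ^ 2) ≤ r ^ 2) : meanR (fun x => ‖f x‖) ≤ r := by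
  have h1 := mean_cs (fun _ : ZMod p => (1 : ℝ)) (fun _ => zero_le_one) f
  simp only [one_mul, meanR_const] at h1
  exact abs_le_of_sq_le_sq' (h1.trans h) hr |>.2

/-- the correlations of a function bounded by `ν + 2` -/
theorem corr_le (ν : ZMod p → ℝ) (hν : ∀ x, 0 ≤ ν x) (hm : meanR ν ≤ 2) (D0 : ℝ)
    (hD0 : meanR (fun t => ‖mean (fun x => (ν x : ℂ) * (ν (x + t) : ℂ))‖ ^ 4) ≤ D0)
    (u : ZMod p → ℂ) (hu : ∀ x, ‖u x‖ ≤ ν x + 2) :
    meanR (fun t => ‖mean (fun x => u x * (starRingEnd ℂ) (u (x + t)))‖ ^ 4) ≤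
      8 * D0 + 165888 := by
  have h1 : ∀ t, ‖mean (fun x => u x * (starRingEnd ℂ) (u (x + t)))‖ ^ 4 ≤
      8 * ‖mean (fun x => (ν x : ℂ) * (ν (x + t) : ℂ))‖ ^ 4 + 165888 := by
    intro t
    have e1 : ‖mean (fun x => u x * (starRingEnd ℂ) (u (x + t)))‖ ≤
        ‖mean (fun x => (ν x : ℂ) * (ν (x + t) : ℂ))‖ + 12 := by
      have e2 : ‖mean (fun x => u x * (starRingEnd ℂ) (u (x + t)))‖ ≤
          meanR (fun x => ν x * ν (x + t) + (2 * ν x + (2 * ν (x + t) + 4))) := by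
        refine (norm_mean_le _).trans (meanR_mono _ _ fun x => ?_)
        rw [norm_mul, RCLike.norm_conj]
        have e3 := mul_le_mul (hu x) (hu (x + t)) (norm_nonneg _)
          (by linarith [hν x] : (0 : ℝ) ≤ ν x + 2)
        refine e3.trans (le_of_eq ?_)
        ring
      have e4 : meanR (fun x => ν (x + t)) = meanR ν := by
        unfold meanR
        rw [← Equiv.sum_comp (Equiv.addRight t) ν]
        rfl
      have e5 : meanR (fun x => ν x * ν (x + t)) ≤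
          ‖mean (fun x => (ν x : ℂ) * (ν (x + t) : ℂ))‖ := by
        have e6 : mean (fun x => (ν x : ℂ) * (ν (x + t) : ℂ)) =
            ((meanR (fun x => ν x * ν (x + t)) : ℝ) : ℂ) := by
          rw [ofReal_meanR]
          congr 1
          funext x
          push_cast
          rfl
        rw [e6, Complex.norm_real]
        exact Real.le_norm_self _
      have e7 : meanR (fun x => ν x * ν (x + t) + (2 * ν x + (2 * ν (x + t) + 4))) =
          meanR (fun x => ν x * ν (x + t)) + (2 * meanR ν + (2 * meanR ν + 4)) := by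
        rw [meanR_add, meanR_add, meanR_add, meanR_mul_left, meanR_mul_left, meanR_const, e4]
      rw [e7] at e2
      linarith
    have e8 : ‖mean (fun x => u x * (starRingEnd ℂ) (u (x + t)))‖ ^ 4 ≤
        (‖mean (fun x => (ν x : ℂ) * (ν (x + t) : ℂ))‖ + 12) ^ 4 :=
      pow_le_pow_left₀ (norm_nonneg _) e1 4
    refine e8.trans ?_
    obtain ⟨a, ha⟩ : ∃ a : ℝ, a = ‖mean (fun x => (ν x : ℂ) * (ν (x + t) : ℂ))‖ := ⟨_, rfl⟩
    rw [← ha]
    nlinarith [sq_nonneg (a ^ 2 - 144), sq_nonneg (a - 12), sq_nonneg (a + 12),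
      mul_nonneg (sq_nonneg (a - 12)) (sq_nonneg (a + 12)), sq_nonneg ((a - 12) * (a - 12)),
      mul_nonneg (sq_nonneg (a - 12)) (sq_nonneg a), sq_nonneg ((a - 12) * a)]
  refine (meanR_mono _ _ h1).trans ?_
  rw [meanR_add, meanR_mul_left, meanR_const]
  linarith

theorem AData.corr_u {ν A : ZMod p → ℝ} {K K' : ℕ} {b c b' c' : ZMod p → ℝ} {r φ D0 : ℝ}
    (h : AData ν A K K' b c b' c' r φ D0) (x : ZMod p) :
    ‖(A x : ℂ) - conv (fun x => (A x : ℂ)) b' x‖ ≤ ν x + 2 := by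
  refine (norm_sub_le _ _).trans (add_le_add ?_ (h.two' x))
  rw [Complex.norm_real, Real.norm_eq_abs, abs_of_nonneg (h.nn x)]
  exact h.le x

/-- translation of a convolution -/
theorem AData.shift {ν A : ZMod p → ℝ} {K K' : ℕ} {b c b' c' : ZMod p → ℝ} {r φ D0 : ℝ}
    (h : AData ν A K K' b c b' c' r φ D0) (x y : ZMod p) :
    ‖conv (fun x => (A x : ℂ)) b (x - y) - conv (fun x => (A x : ℂ)) b x‖ ≤
      2 * ∑ ξ ∈ univ.filter (fun ξ => c ξ ≠ 0), ‖ch (ξ * y) - 1‖ := by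
  rw [h.ker.conv_expand, h.ker.conv_expand, ← sum_sub_distrib]
  refine (norm_sum_le _ _).trans ?_
  rw [mul_sum, sum_filter]
  refine sum_le_sum fun ξ _ => ?_
  have h1 : ft (fun x => (A x : ℂ)) ξ * (c ξ : ℂ) * ch (ξ * (x - y)) -
      ft (fun x => (A x : ℂ)) ξ * (c ξ : ℂ) * ch (ξ * x) =
      -(ft (fun x => (A x : ℂ)) ξ * (c ξ : ℂ) * ch (ξ * (x - y)) * (ch (ξ * y) - 1)) := by
    have h2 : ch (ξ * x) = ch (ξ * (x - y)) * ch (ξ * y) := by
      rw [← ch_add]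
      congr 1
      ring
    rw [h2]
    ring
  rw [h1, norm_neg, norm_mul, norm_mul, norm_mul, norm_ch, mul_one, Complex.norm_real,
    Real.norm_eq_abs, abs_of_nonneg (h.ker.coeff ξ).1]
  by_cases hc : c ξ = 0
  · rw [if_neg (not_not.2 hc), hc, mul_zero, zero_mul]
  · rw [if_pos hc]
    have h3 := h.ft_le ξ
    have h4 := (h.ker.coeff ξ).2
    have h5 := (h.ker.coeff ξ).1
    have h6 : ‖ft (fun x => (A x : ℂ)) ξ‖ * c ξ ≤ 2 := by
      have := norm_nonneg (ft (fun x => (A x : ℂ)) ξ)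
      nlinarith
    exact mul_le_mul_of_nonneg_right h6 (norm_nonneg _)

theorem kernel_zero_le {K : ℕ} {b c : ZMod p → ℝ} (h : Kernel K b c) : b 0 ≤ K := by
  have h1 : (b 0 : ℂ) = ((∑ ζ, c ζ : ℝ) : ℂ) := by
    rw [h.expand 0]
    push_cast
    refine sum_congr rfl fun ζ _ => ?_
    rw [mul_zero, ch_zero, mul_one]
  have h2 : b 0 = ∑ ζ, c ζ := by exact_mod_cast h1
  have h3 : ∑ ζ, c ζ ≤ ∑ ζ, if c ζ ≠ 0 then (1 : ℝ) else 0 := by
    refine sum_le_sum fun ζ _ => ?_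
    by_cases hc : c ζ = 0
    · rw [if_neg (not_not.2 hc), hc]
    · rw [if_pos hc]
      exact (h.coeff ζ).2
  rw [h2]
  refine h3.trans ?_
  rw [← sum_filter, sum_const, nsmul_eq_mul, mul_one]
  exact_mod_cast h.supp

end group

/-- step (a) -/
theorem stepA (h1 : H1Stmt) {p : ℕ} [Fact p.Prime] (hp2 : p ≠ 2) {ν A : ZMod p → ℝ} {K K' : ℕ}
    {b c b' c' : ZMod p → ℝ} {r φ D0 : ℝ} (hA : AData ν A K K' b c b' c' r φ D0)
    {D νD b'' c'' w : ZMod p → ℝ} {K'' : ℕ} (hb : Kernel K'' b'' c'') (hνD : ∀ x, 0 ≤ νD x)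
    (hD0 : ∀ U, 0 ≤ D U) (hD : ∀ U, D U ≤ νD U * b'' U)
    (hmass : meanR (fun U => νD U * b'' U) ≤ 2) {aD : ℝ}
    (haD : meanR (fun t => ‖mean (fun x => ((νD x - 1 : ℝ) : ℂ) *
      ((νD (x + t) - 1 : ℝ) : ℂ))‖ ^ 2) ≤ aD)
    (hw : ∀ x, 0 ≤ w x ∧ w x ≤ 1) (α δ : ZMod p) (hα : α ≠ 0)
    (hzero : ∀ x U, A x * D U * w (α * U + 2 * x + δ) = 0) {η : ℝ}
    (hη : ∀ ξ, c ξ ≠ 0 → meanR (fun U => D U * ‖ch (ξ * ((α * U + δ) / 2)) - 1‖) ≤ η) :
    meanR D * meanR (fun x => cvR A b x * w (2 * x)) ≤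
      √(2 * K'' * (φ ^ 2 + (aD * (8 * D0 + 165888)) ^ ((1 : ℝ) / 4))) + 2 * r + 2 * K * η := by
  have hp := Fact.out (p := p.Prime)
  have h20 : (2 : ZMod p) ≠ 0 := by
    intro h
    have h2 : ((2 : ℕ) : ZMod p) = 0 := by exact_mod_cast h
    rw [ZMod.natCast_eq_zero_iff] at h2
    exact hp2 ((Nat.prime_dvd_prime_iff_eq hp Nat.prime_two).1 h2)
  have hmD : meanR D ≤ 2 := (meanR_mono _ _ hD).trans hmass
  have hη0 : ∃ ξ, c ξ ≠ 0 := ⟨0, by rw [hA.ker.zero]; exact one_ne_zero⟩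
  have hη1 : 0 ≤ η := by
    obtain ⟨ξ, hξ⟩ := hη0
    exact (meanR_nonneg _ fun U => mul_nonneg (hD0 U) (norm_nonneg _)).trans (hη ξ hξ)
  obtain ⟨u, hu⟩ : ∃ u : ZMod p → ℂ, u = fun x => (A x : ℂ) - conv (fun x => (A x : ℂ)) b' x :=
    ⟨_, rfl⟩
  -- von Neumann
  obtain ⟨T1, hT1⟩ : ∃ T1 : ℂ, T1 = mean (fun U => mean (fun x =>
    (D U : ℂ) * u x * (w (α * U + 2 * x + δ) : ℂ))) := ⟨_, rfl⟩
  have k1 : ‖T1‖ ≤ √(2 * K'' * (φ ^ 2 + (aD * (8 * D0 + 165888)) ^ ((1 : ℝ) / 4))) := by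
    have e0 := h1 p (fun U => (D U : ℂ)) u (fun x => (w x : ℂ)) νD b'' c'' α 2 δ φ aD
      (8 * D0 + 165888) hα h20 hb.nonneg hb.expand (fun ζ => (hb.coeff ζ).1) hνD (fun U => by
        rw [Complex.norm_real, Real.norm_eq_abs, abs_of_nonneg (hD0 U)]
        exact hD U) (fun x => by
        rw [Complex.norm_real, Real.norm_eq_abs, abs_of_nonneg (hw x).1]
        exact (hw x).2) (fun ξ => by
        rw [hu]
        exact hA.small ξ) haD (corr_le ν hA.nu_nonneg hA.mass D0 hA.corr u (fun x => by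
        rw [hu]
        exact hA.corr_u x))
    rw [← hT1] at e0
    have haD0 : 0 ≤ aD := (meanR_nonneg _ fun _ => by positivity).trans haD
    have hD00 := hA.D0_nonneg
    have e1 : meanR (fun x => νD x * b'' x) * b'' 0 ≤ 2 * K'' :=
      mul_le_mul hmass (kernel_zero_le hb) (hb.nonneg 0) (by norm_num)
    have e2 : 0 ≤ φ ^ 2 + (aD * (8 * D0 + 165888)) ^ ((1 : ℝ) / 4) := by positivity
    have e3 := e0.trans (mul_le_mul_of_nonneg_right e1 e2)
    exact Real.le_sqrt_of_sq_le e3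
  -- replacement of `A` by `A * b'`
  obtain ⟨T2, hT2⟩ : ∃ T2 : ℂ, T2 = mean (fun U => mean (fun x =>
    (D U : ℂ) * conv (fun x => (A x : ℂ)) b' x * (w (α * U + 2 * x + δ) : ℂ))) := ⟨_, rfl⟩
  have k2 : T2 = -T1 := by
    have e1 : T1 + T2 = 0 := by
      rw [hT1, hT2, ← mean_add]
      have e2 : (fun U => mean (fun x => (D U : ℂ) * u x * (w (α * U + 2 * x + δ) : ℂ)) +
          mean (fun x => (D U : ℂ) * conv (fun x => (A x : ℂ)) b' x *
            (w (α * U + 2 * x + δ) : ℂ))) = fun _ => 0 := by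
        funext U
        rw [← mean_add]
        have e3 : (fun x => (D U : ℂ) * u x * (w (α * U + 2 * x + δ) : ℂ) +
            (D U : ℂ) * conv (fun x => (A x : ℂ)) b' x * (w (α * U + 2 * x + δ) : ℂ)) =
            fun _ => 0 := by
          funext x
          have e4 : ((A x * D U * w (α * U + 2 * x + δ) : ℝ) : ℂ) = 0 := by
            rw [hzero x U, Complex.ofReal_zero]
          rw [hu]
          push_cast at e4
          linear_combination e4
        rw [e3, mean_const]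
      rw [e2, mean_const]
    linear_combination e1
  -- replacement of `b'` by `b`
  obtain ⟨T3, hT3⟩ : ∃ T3 : ℂ, T3 = mean (fun U => mean (fun x =>
    (D U : ℂ) * conv (fun x => (A x : ℂ)) b x * (w (α * U + 2 * x + δ) : ℂ))) := ⟨_, rfl⟩
  have k3 : ‖T3 - T2‖ ≤ 2 * r := by
    rw [hT3, hT2, ← mean_sub]
    refine (norm_mean_le _).trans ?_
    have e1 : ∀ U, ‖mean (fun x => (D U : ℂ) * conv (fun x => (A x : ℂ)) b x *
        (w (α * U + 2 * x + δ) : ℂ)) - mean (fun x => (D U : ℂ) *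
        conv (fun x => (A x : ℂ)) b' x * (w (α * U + 2 * x + δ) : ℂ))‖ ≤ D U * r := by
      intro U
      rw [← mean_sub]
      refine (norm_mean_le _).trans ?_
      have e2 := meanR_norm_le _ r hA.r0 hA.close
      refine le_trans ?_ (mul_le_mul_of_nonneg_left e2 (hD0 U))
      rw [← meanR_mul_left]
      refine meanR_mono _ _ fun x => ?_
      have e3 : (D U : ℂ) * conv (fun x => (A x : ℂ)) b x * (w (α * U + 2 * x + δ) : ℂ) -
          (D U : ℂ) * conv (fun x => (A x : ℂ)) b' x * (w (α * U + 2 * x + δ) : ℂ) =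
          (D U : ℂ) * (conv (fun x => (A x : ℂ)) b x - conv (fun x => (A x : ℂ)) b' x) *
            (w (α * U + 2 * x + δ) : ℂ) := by ring
      rw [e3, norm_mul, norm_mul, Complex.norm_real, Complex.norm_real, Real.norm_eq_abs,
        Real.norm_eq_abs, abs_of_nonneg (hD0 U), abs_of_nonneg (hw _).1]
      exact mul_le_of_le_one_right (mul_nonneg (hD0 U) (norm_nonneg _)) (hw _).2
    refine (meanR_mono _ _ e1).trans ?_
    rw [meanR_mul_right]
    exact mul_le_mul_of_nonneg_right hmD hA.r0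
  -- removal of the translation
  obtain ⟨T4, hT4⟩ : ∃ T4 : ℂ, T4 = mean (fun U => mean (fun x =>
    (D U : ℂ) * conv (fun x => (A x : ℂ)) b x * (w (2 * x) : ℂ))) := ⟨_, rfl⟩
  have k4 : ‖T3 - T4‖ ≤ 2 * K * η := by
    rw [hT3, hT4, ← mean_sub]
    refine (norm_mean_le _).trans ?_
    have e1 : ∀ U, ‖mean (fun x => (D U : ℂ) * conv (fun x => (A x : ℂ)) b x *
        (w (α * U + 2 * x + δ) : ℂ)) - mean (fun x => (D U : ℂ) *
        conv (fun x => (A x : ℂ)) b x * (w (2 * x) : ℂ))‖ ≤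
        ∑ ξ ∈ univ.filter (fun ξ => c ξ ≠ 0),
          2 * (D U * ‖ch (ξ * ((α * U + δ) / 2)) - 1‖) := by
      intro U
      have e2 : mean (fun x => (D U : ℂ) * conv (fun x => (A x : ℂ)) b x *
          (w (α * U + 2 * x + δ) : ℂ)) = mean (fun x => (D U : ℂ) *
          conv (fun x => (A x : ℂ)) b (x - (α * U + δ) / 2) * (w (2 * x) : ℂ)) := by
        rw [← mean_shift (fun x => (D U : ℂ) *
          conv (fun x => (A x : ℂ)) b (x - (α * U + δ) / 2) * (w (2 * x) : ℂ))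
          ((α * U + δ) / 2)]
        congr 1
        funext x
        have e3 : x + (α * U + δ) / 2 - (α * U + δ) / 2 = x := by ring
        have e4 : 2 * (x + (α * U + δ) / 2) = α * U + 2 * x + δ := by
          rw [mul_add, mul_div_cancel₀ _ h20]
          ring
        rw [e3, e4]
      rw [e2, ← mean_sub]
      refine (norm_mean_le _).trans ?_
      rw [← meanR_const (p := p) (∑ ξ ∈ univ.filter (fun ξ => c ξ ≠ 0),
          2 * (D U * ‖ch (ξ * ((α * U + δ) / 2)) - 1‖))]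
      refine meanR_mono _ _ fun x => ?_
      have e3 : (D U : ℂ) * conv (fun x => (A x : ℂ)) b (x - (α * U + δ) / 2) *
          (w (2 * x) : ℂ) - (D U : ℂ) * conv (fun x => (A x : ℂ)) b x * (w (2 * x) : ℂ) =
          (D U : ℂ) * (conv (fun x => (A x : ℂ)) b (x - (α * U + δ) / 2) -
            conv (fun x => (A x : ℂ)) b x) * (w (2 * x) : ℂ) := by ring
      rw [e3, norm_mul, norm_mul, Complex.norm_real, Complex.norm_real, Real.norm_eq_abs,
        Real.norm_eq_abs, abs_of_nonneg (hD0 U), abs_of_nonneg (hw _).1]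
      have e5 := mul_le_mul_of_nonneg_left (hA.shift x ((α * U + δ) / 2)) (hD0 U)
      have e6 : D U * (2 * ∑ ξ ∈ univ.filter (fun ξ => c ξ ≠ 0),
          ‖ch (ξ * ((α * U + δ) / 2)) - 1‖) = ∑ ξ ∈ univ.filter (fun ξ => c ξ ≠ 0),
          2 * (D U * ‖ch (ξ * ((α * U + δ) / 2)) - 1‖) := by
        rw [mul_sum, mul_sum]
        refine sum_congr rfl fun ξ _ => ?_
        ring
      rw [e6] at e5
      refine le_trans ?_ e5
      exact mul_le_of_le_one_right (mul_nonneg (hD0 U) (norm_nonneg _)) (hw _).2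
    refine (meanR_mono _ _ e1).trans ?_
    rw [meanR_sum]
    have e7 : ∀ ξ ∈ univ.filter (fun ξ => c ξ ≠ 0),
        meanR (fun U => 2 * (D U * ‖ch (ξ * ((α * U + δ) / 2)) - 1‖)) ≤ 2 * η := by
      intro ξ hξ
      rw [meanR_mul_left]
      exact mul_le_mul_of_nonneg_left (hη ξ (mem_filter.1 hξ).2) (by norm_num)
    refine (sum_le_sum e7).trans ?_
    rw [sum_const, nsmul_eq_mul]
    have e8 : (((univ.filter (fun ζ => c ζ ≠ 0)).card : ℕ) : ℝ) ≤ K := by
      exact_mod_cast hA.ker.supp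
    have e9 := mul_le_mul_of_nonneg_right e8 (by positivity : (0 : ℝ) ≤ 2 * η)
    linarith
  -- conclusion
  have k5 : T4 = ((meanR D * meanR (fun x => cvR A b x * w (2 * x)) : ℝ) : ℂ) := by
    rw [hT4, Complex.ofReal_mul, ofReal_meanR, ofReal_meanR, ← mean_mul_right]
    congr 1
    funext U
    rw [← mean_mul_left]
    congr 1
    funext x
    rw [conv_eq]
    push_cast
    ring
  have k6 : meanR D * meanR (fun x => cvR A b x * w (2 * x)) ≤ ‖T4‖ := by
    rw [k5, Complex.norm_real]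
    exact Real.le_norm_self _
  have k7 : ‖T4‖ ≤ ‖T1‖ + ‖T3 - T2‖ + ‖T3 - T4‖ := by
    have e1 : T4 = -T1 + (T3 - T2) - (T3 - T4) := by
      rw [← k2]
      ring
    calc ‖T4‖ = ‖-T1 + (T3 - T2) - (T3 - T4)‖ := by rw [← e1]
      _ ≤ ‖-T1 + (T3 - T2)‖ + ‖T3 - T4‖ := norm_sub_le _ _
      _ ≤ ‖-T1‖ + ‖T3 - T2‖ + ‖T3 - T4‖ := by
          have := norm_add_le (-T1) (T3 - T2)
          linarith
      _ = _ := by rw [norm_neg]
  linarith

end FA

end Pool.Agent.Lib.TwinAll
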