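import Mathlib
import Pool.Agent.Lib.TwinAll.Stmts
import Pool.Agent.Lib.TwinAll.Basic94
import Pool.Agent.Lib.TwinAll.Key81

/-!
THEOREM A (MP_c6d112_nt): LEMMA L for the three forms `L U + c j` (detection of a residue class
modulo `L` by characters).
-/

set_option autoImplicit false

namespace Pool.Agent.Lib.TwinAll.A81

open Finset

theorem nu_equiv {z0 z k : ℕ} (σ : Equiv.Perm (Fin k)) (a b : Fin k → ℤ) (n : ℤ) :
    nu z0 z (fun j => a (σ j)) (fun j => b (σ j)) n = nu z0 z a b n := by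
  apply nu_congr
  · exact σ.forall_congr_left (p := fun j => Rough z0 z (a (σ j) * n + b (σ j)))  |>.trans
      (by simp)
  · apply VV_congr
    intro q _
    apply om_congr
    intro m
    constructor
    · rintro ⟨j, hj⟩
      exact ⟨σ j, hj⟩
    · rintro ⟨j, hj⟩
      exact ⟨σ.symm j, by simpa using hj⟩

/-- the three forms `L U + c j` in terms of `y = L U + c i` -/
theorem nu_three {z0 z L : ℕ} (hL : ∀ q ∈ PP z0 z, ¬ ((q : ℤ) ∣ (L : ℤ))) (c : Fin 3 → ℤ)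
    (i : Fin 3) (U : ℤ) :
    nu z0 z (fun _ : Fin 3 => (L : ℤ)) c U =
      nu z0 z (![1, 1, 1] : Fin 3 → ℤ) ![0, c (i + 1) - c i, c (i + 2) - c i]
        ((L : ℤ) * U + c i) := by
  rw [nu_affine _ _ hL (c i) U, ← nu_equiv (Equiv.addLeft i) (fun _ : Fin 3 => (L : ℤ)) c U]
  congr 1
  · funext j
    fin_cases j <;> simp
  · funext j
    fin_cases j <;> simp

theorem ee_nat_mul (a : ℕ) (x : ℝ) : ee (a * x) = ee x ^ a := by
  induction a with
  | zero => simp [ee_zero]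
  | succ a ih => rw [pow_succ, ← ih, ← ee_add]; congr 1; push_cast; ring

theorem ee_eq_one {x : ℝ} (h : ee x = 1) : ∃ n : ℤ, x = n := by
  unfold ee at h
  obtain ⟨n, hn⟩ := Complex.exp_eq_one_iff.1 h
  refine ⟨n, ?_⟩
  have h1 : (2 * (Real.pi : ℂ) * Complex.I) * (x : ℂ) = (2 * (Real.pi : ℂ) * Complex.I) * (n : ℂ) := by
    linear_combination hn
  have h2 := mul_left_cancel₀ Complex.two_pi_I_ne_zero h1
  exact_mod_cast h2

/-- orthogonality: detection of divisibility by `L` -/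
theorem sum_ee_div {L : ℕ} (hL : 0 < L) (m : ℤ) :
    ∑ a ∈ Finset.range L, ee ((a : ℝ) * (m / L)) = if (L : ℤ) ∣ m then (L : ℂ) else 0 := by
  have hL' : (L : ℝ) ≠ 0 := by exact_mod_cast hL.ne'
  simp only [ee_nat_mul]
  split_ifs with h
  · obtain ⟨t, rfl⟩ := h
    have h1 : ee ((((L : ℤ) * t : ℤ) : ℝ) / L) = 1 := by
      rw [show (((L : ℤ) * t : ℤ) : ℝ) / L = ((t : ℤ) : ℝ) by push_cast; field_simp]
      exact ee_int t
    rw [h1]
    simp
  · have h1 : ee ((m : ℝ) / L) ≠ 1 := by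
      intro h1
      obtain ⟨n, hn⟩ := ee_eq_one h1
      apply h
      refine ⟨n, ?_⟩
      rw [div_eq_iff hL'] at hn
      have : (m : ℝ) = (((L : ℤ) * n : ℤ) : ℝ) := by rw [hn]; push_cast; ring
      exact_mod_cast this
    have h2 : ee ((m : ℝ) / L) ^ L = 1 := by
      rw [← ee_nat_mul, mul_div_cancel₀ _ hL']
      exact ee_int m
    have h3 := geom_sum_mul (ee ((m : ℝ) / L)) L
    rw [h2, sub_self] at h3
    exact (mul_eq_zero.1 h3).resolve_right (sub_ne_zero.2 h1)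

/-- exponential sums over a residue class modulo `L` -/
theorem class_exp_le {L : ℕ} (hL : 0 < L) (c : ℤ) (N : ℕ) (F : ℕ → ℂ) (E : ℝ)
    (hF : ∀ θ : ℝ, ‖∑ y ∈ Finset.Icc 1 N, F y * ee (θ * y)‖ ≤ E) (θ : ℝ) :
    ‖∑ y ∈ (Finset.Icc 1 N).filter (fun y : ℕ => (L : ℤ) ∣ (y : ℤ) - c),
      F y * ee (θ * (((y : ℤ) - c : ℤ) / L))‖ ≤ E := by
  have hL' : (L : ℝ) ≠ 0 := by exact_mod_cast hL.ne'
  have hLc : (L : ℂ) ≠ 0 := by exact_mod_cast hL.ne'
  have h1 : ∑ y ∈ (Finset.Icc 1 N).filter (fun y : ℕ => (L : ℤ) ∣ (y : ℤ) - c),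
      F y * ee (θ * (((y : ℤ) - c : ℤ) / L)) = (L : ℂ)⁻¹ * ∑ a ∈ Finset.range L,
        ee (-((θ + a) / L * c)) * ∑ y ∈ Finset.Icc 1 N, F y * ee ((θ + a) / L * y) := by
    rw [Finset.sum_filter, Finset.mul_sum]
    have h2 : ∀ y ∈ Finset.Icc 1 N, (if (L : ℤ) ∣ (y : ℤ) - c then
        F y * ee (θ * (((y : ℤ) - c : ℤ) / L)) else 0) =
        ∑ a ∈ Finset.range L, (L : ℂ)⁻¹ * (ee (-((θ + a) / L * c)) *
          (F y * ee ((θ + a) / L * y))) := by
      intro y _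
      have h3 := sum_ee_div hL ((y : ℤ) - c)
      have h4 : ∀ a ∈ Finset.range L, (L : ℂ)⁻¹ * (ee (-((θ + a) / L * c)) *
          (F y * ee ((θ + a) / L * y))) = (L : ℂ)⁻¹ * (F y * ee (θ * (((y : ℤ) - c : ℤ) / L))) *
          ee ((a : ℝ) * (((y : ℤ) - c : ℤ) / L)) := by
        intro a _
        have h5 : ee (-((θ + a) / L * c)) * ee ((θ + a) / L * y) =
            ee (θ * (((y : ℤ) - c : ℤ) / L)) * ee ((a : ℝ) * (((y : ℤ) - c : ℤ) / L)) := by
          rw [← ee_add, ← ee_add]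
          congr 1
          push_cast
          ring
        calc _ = (L : ℂ)⁻¹ * F y * (ee (-((θ + a) / L * c)) * ee ((θ + a) / L * y)) := by ring
          _ = _ := by rw [h5]; ring
      rw [Finset.sum_congr rfl h4, ← Finset.mul_sum, h3]
      split_ifs with h
      · field_simp
      · rw [mul_zero]
    rw [Finset.sum_congr rfl h2, Finset.sum_comm]
    apply Finset.sum_congr rfl
    intro a _
    rw [Finset.mul_sum, Finset.mul_sum]
  rw [h1, norm_mul, norm_inv, Complex.norm_natCast]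
  have h6 : ‖∑ a ∈ Finset.range L, ee (-((θ + a) / L * c)) *
      ∑ y ∈ Finset.Icc 1 N, F y * ee ((θ + a) / L * y)‖ ≤ L * E := by
    calc _ ≤ ∑ a ∈ Finset.range L, ‖ee (-((θ + a) / L * c)) *
          ∑ y ∈ Finset.Icc 1 N, F y * ee ((θ + a) / L * y)‖ := norm_sum_le _ _
      _ ≤ ∑ a ∈ Finset.range L, E := by
          apply Finset.sum_le_sum
          intro a _
          rw [norm_mul, norm_ee, one_mul]
          exact hF _
      _ = L * E := by rw [Finset.sum_const, Finset.card_range, nsmul_eq_mul]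
  have hLpos : (0 : ℝ) < L := by exact_mod_cast hL
  calc (L : ℝ)⁻¹ * _ ≤ (L : ℝ)⁻¹ * (L * E) := mul_le_mul_of_nonneg_left h6 (by positivity)
    _ = E := by field_simp

/-- LEMMA L for the forms `L U + c j` -/
theorem lamD (hL : LamStmt) : ∀ (R : ℕ) (ε : ℝ), 0 < ε → ∃ Bs zs : ℕ, ∀ z0 : ℕ, zs ≤ z0 →
    ∀ B : ℕ, ∃ z1 : ℕ, ∀ z : ℕ, z1 ≤ z →
    ∀ (L : ℕ) (c : Fin 3 → ℤ), 0 < L → L ≤ R → (∀ j, |c j| < L) → Function.Injective c →
    ∀ H : ℕ, z ^ Bs ≤ H → H ≤ z ^ B → ∀ (i : Fin 3) (θ : ℝ),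
      ‖∑ U ∈ Finset.Icc 1 H, ((nu z0 z (fun _ : Fin 3 => (L : ℤ)) c (U : ℤ) : ℝ) : ℂ) *
        (lam ((L : ℤ) * U + c i).toNat : ℂ) * ee (θ * U)‖ ≤ ε * H := by
  intro R ε hε
  obtain ⟨Bs, zs, h1⟩ := hL (2 * R) (ε / (4 * (R + 1))) (by positivity)
  refine ⟨Bs + 4, zs + R + 3, fun z0 hz0 B => ?_⟩
  obtain ⟨z1, h2⟩ := h1 z0 (by omega) (B + 1)
  obtain ⟨M, hM⟩ := exists_nat_ge (2 / ε)
  refine ⟨z1 + z0 + 2 * R + M + 1, fun z hz L c hL0 hLR hc hinj H hH1 hH2 i θ => ?_⟩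
  have hLP : ∀ q ∈ PP z0 z, ¬ ((q : ℤ) ∣ (L : ℤ)) := fun q hq hd => by
    have h3 := Nat.le_of_dvd hL0 (Int.natCast_dvd_natCast.1 hd)
    have h4 := (mem_PP.1 hq).1
    omega
  have hz1 : 1 ≤ z := by omega
  have hH0 : 1 ≤ H := (Nat.one_le_pow _ _ hz1).trans hH1
  have hLpos : (0 : ℤ) < L := by exact_mod_cast hL0
  have hHpos : (1 : ℤ) ≤ H := by exact_mod_cast hH0
  obtain ⟨N, hN⟩ : ∃ N : ℕ, (N : ℤ) = (L : ℤ) * H + c i := by
    refine ⟨((L : ℤ) * H + c i).toNat, ?_⟩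
    have h3 := (abs_lt.1 (hc i)).1
    have h4 : (L : ℤ) * 1 ≤ L * H := mul_le_mul_of_nonneg_left hHpos hLpos.le
    omega
  have hNH : H ≤ N := by
    have h3 := (abs_lt.1 (hc i)).1
    have h4 : (1 : ℤ) * (H - 1) ≤ L * (H - 1) :=
      mul_le_mul_of_nonneg_right (by omega) (by omega)
    have h5 : (L : ℤ) * (H - 1) = L * H - L := by ring
    have : (H : ℤ) ≤ N := by rw [hN]; omega
    exact_mod_cast this
  have hN2 : N ≤ 2 * (R * H) := by
    have h3 := (abs_lt.1 (hc i)).2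
    have h4 : (L : ℤ) * 1 ≤ L * H := mul_le_mul_of_nonneg_left hHpos hLpos.le
    have h5 : (L : ℤ) * H ≤ R * H := mul_le_mul_of_nonneg_right (by exact_mod_cast hLR) (by omega)
    have : (N : ℤ) ≤ 2 * (R * H) := by rw [hN]; omega
    exact_mod_cast this
  have hzpow : z ^ (Bs + 4) = z ^ Bs * z ^ 4 := pow_add z Bs 4
  have hB1 : z ^ Bs ≤ N := by
    have : z ^ Bs * 1 ≤ z ^ Bs * z ^ 4 := Nat.mul_le_mul_left _ (Nat.one_le_pow _ _ hz1)
    omega
  have hB2 : N ≤ z ^ (B + 1) := by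
    have h3 : 2 * R * H ≤ z * z ^ B := Nat.mul_le_mul (by omega) hH2
    have h4 : z ^ (B + 1) = z * z ^ B := by ring
    have h5 : 2 * (R * H) = 2 * R * H := by ring
    omega
  have hi1 : i + 1 ≠ i := by fin_cases i <;> decide
  have hi2 : i + 2 ≠ i := by fin_cases i <;> decide
  have hi3 : i + 1 ≠ i + 2 := by fin_cases i <;> decide
  have hbd : ∀ j, |c j - c i| ≤ ((2 * R : ℕ) : ℤ) := by
    intro j
    have h3 := abs_lt.1 (hc i)
    have h4 := abs_lt.1 (hc j)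
    have h5 : (L : ℤ) ≤ R := by exact_mod_cast hLR
    rw [abs_le]
    push_cast
    constructor <;> omega
  have h3 := h2 z (by omega) ![c (i + 1) - c i, c (i + 2) - c i] (by
      intro j
      fin_cases j
      · exact ⟨sub_ne_zero.2 (hinj.ne hi1), hbd _⟩
      · exact ⟨sub_ne_zero.2 (hinj.ne hi2), hbd _⟩) (by
      intro h
      exact hi3 (hinj (by simpa using h))) N hB1 hB2
  -- the function on `y`
  set F : ℕ → ℂ := fun y => ((nu z0 z (![1, 1, 1] : Fin 3 → ℤ)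
    ![0, c (i + 1) - c i, c (i + 2) - c i] (y : ℤ) : ℝ) : ℂ) * (lam y : ℂ) with hFdef
  have hF : ∀ θ : ℝ, ‖∑ y ∈ Finset.Icc 1 N, F y * ee (θ * y)‖ ≤ ε / (4 * (R + 1)) * N := h3
  have h4 := class_exp_le hL0 (c i) N F _ hF θ
  set T := (Finset.Icc 1 N).filter (fun y : ℕ => (L : ℤ) ∣ (y : ℤ) - c i) with hT
  have h5 : ∑ U ∈ Finset.Icc 1 H, ((nu z0 z (fun _ : Fin 3 => (L : ℤ)) c (U : ℤ) : ℝ) : ℂ) *
        (lam ((L : ℤ) * U + c i).toNat : ℂ) * ee (θ * U) =
      ∑ y ∈ T.filter (fun y : ℕ => c i < y), F y * ee (θ * (((y : ℤ) - c i : ℤ) / L)) := by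
    have hpos : ∀ U ∈ Finset.Icc 1 H, (((L : ℤ) * U + c i).toNat : ℤ) = (L : ℤ) * U + c i := by
      intro U hU
      rw [Finset.mem_Icc] at hU
      apply Int.toNat_of_nonneg
      have a1 := (abs_lt.1 (hc i)).1
      have a2 : (L : ℤ) * 1 ≤ L * U :=
        mul_le_mul_of_nonneg_left (by exact_mod_cast hU.1) hLpos.le
      omega
    refine Finset.sum_bij (fun U _ => ((L : ℤ) * U + c i).toNat) ?_ ?_ ?_ ?_
    · intro U hU
      have e := hpos U hU
      rw [Finset.mem_Icc] at hU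
      have a1 := (abs_lt.1 (hc i)).1
      have a2 : (L : ℤ) * 1 ≤ L * U :=
        mul_le_mul_of_nonneg_left (by exact_mod_cast hU.1) hLpos.le
      have a3 : (L : ℤ) * U ≤ L * H :=
        mul_le_mul_of_nonneg_left (by exact_mod_cast hU.2) hLpos.le
      rw [mem_filter, hT, mem_filter, Finset.mem_Icc]
      refine ⟨⟨⟨by omega, by omega⟩, ?_⟩, ?_⟩
      · rw [e]
        exact ⟨U, by ring⟩
      · rw [e]; omega
    · intro U hU V hV h
      have e1 := hpos U hU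
      have e2 := hpos V hV
      rw [h, e2] at e1
      have a4 : (L : ℤ) * U = L * V := by linarith
      have := mul_left_cancel₀ hLpos.ne' a4
      exact_mod_cast this
    · intro y hy
      rw [mem_filter, hT, mem_filter, Finset.mem_Icc] at hy
      obtain ⟨⟨⟨y1, y2⟩, t, ht⟩, y3⟩ := hy
      have a5 : (0 : ℤ) < L * t := by omega
      have a6 : 0 < t := by
        by_contra hcon
        push Not at hcon
        nlinarith
      have a7 : (L : ℤ) * t ≤ L * H := by omega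
      have a8 : t ≤ H := le_of_mul_le_mul_left a7 hLpos
      refine ⟨t.toNat, ?_, ?_⟩
      · rw [Finset.mem_Icc]; omega
      · rw [Int.toNat_of_nonneg a6.le]
        omega
    · intro U hU
      have e := hpos U hU
      have e2 : (((((((L : ℤ) * U + c i).toNat : ℕ) : ℤ) - c i : ℤ) : ℝ) / L) = U := by
        rw [e]
        push_cast
        field_simp
        ring
      rw [hFdef]
      simp only
      rw [e2, e, nu_three hLP c i U]
  have h6 : ‖∑ y ∈ T.filter (fun y : ℕ => ¬ c i < y), F y * ee (θ * (((y : ℤ) - c i : ℤ) / L))‖ ≤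
      (z : ℝ) ^ 3 := by
    have hsub : T.filter (fun y : ℕ => ¬ c i < y) ⊆ {(c i).toNat} := by
      intro y hy
      rw [mem_filter, hT, mem_filter, Finset.mem_Icc] at hy
      obtain ⟨⟨⟨y1, y2⟩, t, ht⟩, y3⟩ := hy
      have a1 := (abs_lt.1 (hc i)).2
      have a2 : -(L : ℤ) < L * t := by omega
      have a3 : (L : ℤ) * t ≤ 0 := by omega
      have a4 : t = 0 := by nlinarith
      rw [a4, mul_zero] at ht
      rw [mem_singleton]
      omega
    have hone : ∀ j, ∀ q ∈ PP z0 z, ¬ ((q : ℤ) ∣ (![1, 1, 1] : Fin 3 → ℤ) j) := by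
      intro j
      fin_cases j <;> exact not_dvd_one
    have hterm : ∀ y : ℕ, ‖F y * ee (θ * (((y : ℤ) - c i : ℤ) / L))‖ ≤ (z : ℝ) ^ 3 := by
      intro y
      rw [norm_mul, norm_ee, mul_one, hFdef]
      simp only
      rw [norm_mul, norm_lam, mul_one, Complex.norm_real, Real.norm_eq_abs,
        abs_of_nonneg (nu_nonneg _ _ _ _ _)]
      exact (nu_le (by omega) _ _ hone _).trans (VV_inv_le (by omega) (by omega) _ _ hone)
    calc _ ≤ ∑ y ∈ T.filter (fun y : ℕ => ¬ c i < y),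
          ‖F y * ee (θ * (((y : ℤ) - c i : ℤ) / L))‖ := norm_sum_le _ _
      _ ≤ ∑ y ∈ ({(c i).toNat} : Finset ℕ), ‖F y * ee (θ * (((y : ℤ) - c i : ℤ) / L))‖ :=
          Finset.sum_le_sum_of_subset_of_nonneg hsub (fun _ _ _ => norm_nonneg _)
      _ ≤ (z : ℝ) ^ 3 := by
          rw [Finset.sum_singleton]
          exact hterm _
  have h7 := Finset.sum_filter_add_sum_filter_not T (fun y : ℕ => c i < y)
    (fun y => F y * ee (θ * (((y : ℤ) - c i : ℤ) / L)))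
  rw [h5, eq_sub_of_add_eq h7]
  refine (norm_sub_le _ _).trans ?_
  have h8 : ε / (4 * (R + 1)) * N ≤ ε / 2 * H := by
    have h9 : (N : ℝ) ≤ 2 * ((R + 1) * H) := by
      have h10 : (N : ℝ) ≤ 2 * (R * H) := by exact_mod_cast hN2
      have h11 : (0 : ℝ) ≤ H := by positivity
      nlinarith
    calc ε / (4 * (R + 1)) * N ≤ ε / (4 * (R + 1)) * (2 * ((R + 1) * H)) :=
          mul_le_mul_of_nonneg_left h9 (by positivity)
      _ = ε / 2 * H := by field_simp; ring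
  have h12 : (z : ℝ) ^ 3 ≤ ε / 2 * H := by
    have h13 : z ^ 4 ≤ H := by
      have : 1 * z ^ 4 ≤ z ^ Bs * z ^ 4 := Nat.mul_le_mul_right _ (Nat.one_le_pow _ _ hz1)
      omega
    have h14 : ((z : ℝ)) ^ 4 ≤ H := by exact_mod_cast h13
    have h15 : 2 / ε ≤ z := hM.trans (by exact_mod_cast (by omega : M ≤ z))
    rw [div_le_iff₀ hε] at h15
    have h16 : (0 : ℝ) ≤ (z : ℝ) ^ 3 := by positivity
    nlinarith [mul_le_mul_of_nonneg_right h15 h16]
  linarith

end Pool.Agent.Lib.TwinAll.A81
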