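import Mathlib
import Pool.Agent.Lib.TwinAll.Stmts
import Pool.Agent.Lib.TwinAll.Basic94
import Pool.Agent.Lib.TwinAll.Key81
import Pool.Agent.Lib.TwinAll.Exc81
import Pool.Agent.Lib.TwinAll.LamD81
import Pool.Agent.Lib.TwinAll.Four73
import Pool.Agent.Lib.TwinAll.FA73

/-!
THEOREM A (MP_c6d112_nt), step (b) of the assembly: the balance.
-/

set_option autoImplicit false

namespace Pool.Agent.Lib.TwinAll.FB82

open Finset FA

/-! ### part 1: abstract balance -/

section abs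

variable {p : ℕ} [NeZero p]

/-- indicator of the residues with representative in `[1, H]` -/
noncomputable def ind (H : ℕ) (x : ZMod p) : ℝ := if 1 ≤ x.val ∧ x.val ≤ H then 1 else 0

omit [NeZero p] in
theorem ind_nonneg (H : ℕ) (x : ZMod p) : 0 ≤ ind H x := by
  unfold ind; split_ifs <;> norm_num

omit [NeZero p] in
theorem ind_le_one (H : ℕ) (x : ZMod p) : ind H x ≤ 1 := by
  unfold ind; split_ifs <;> norm_num

/-- the character at a residue far from zero -/
theorem norm_ch_sub_one_ge (h : ZMod p) (k : ℕ) (hk : k ≤ h.val) (hk' : h.val + k ≤ p) :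
    4 * (k : ℝ) / p ≤ ‖ch h - 1‖ := by
  have hp : (0 : ℝ) < p := castR_pos
  have h1 : ch h = Complex.exp (Complex.I * ((2 * Real.pi * (h.val / p) : ℝ) : ℂ)) := by
    unfold ch
    rw [ZMod.stdAddChar_apply, ZMod.toCircle_apply]
    congr 1
    push_cast
    ring
  rw [h1, Complex.norm_exp_I_mul_ofReal_sub_one, Real.norm_eq_abs]
  have e1 : 2 * Real.pi * ((h.val : ℝ) / p) / 2 = Real.pi * (h.val / p) := by ring
  rw [e1]
  refine le_trans ?_ (le_abs_self _)
  have hv0 : (0 : ℝ) ≤ (h.val : ℝ) / p := by positivity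
  have hkr : (k : ℝ) ≤ h.val := by exact_mod_cast hk
  have hkr' : (h.val : ℝ) + k ≤ p := by exact_mod_cast hk'
  have hjordan : ∀ t : ℝ, 0 ≤ t → t ≤ 1 / 2 → 2 * t ≤ Real.sin (Real.pi * t) := by
    intro t h0 h2
    have h3 := Real.mul_le_sin (x := Real.pi * t) (by positivity) (by
      have := Real.pi_pos; nlinarith)
    have h4 : 2 / Real.pi * (Real.pi * t) = 2 * t := by
      have := Real.pi_ne_zero
      field_simp
    rwa [h4] at h3
  by_cases hc : (h.val : ℝ) / p ≤ 1 / 2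
  · have h3 := hjordan _ hv0 hc
    have h4 : (k : ℝ) / p ≤ (h.val : ℝ) / p := div_le_div_of_nonneg_right hkr hp.le
    have h5 : 4 * (k : ℝ) / p = 4 * ((k : ℝ) / p) := by ring
    rw [h5]
    linarith
  · push Not at hc
    have hv1 : (h.val : ℝ) / p ≤ 1 := by
      rw [div_le_one hp]
      exact_mod_cast (ZMod.val_lt h).le
    have h3 := hjordan (1 - (h.val : ℝ) / p) (by linarith) (by linarith)
    have h4 : Real.sin (Real.pi * (1 - (h.val : ℝ) / p)) = Real.sin (Real.pi * ((h.val : ℝ) / p)) := by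
      rw [mul_sub, mul_one, Real.sin_pi_sub]
    rw [h4] at h3
    have h6 : (k : ℝ) / p ≤ 1 - (h.val : ℝ) / p := by
      rw [div_le_iff₀ hp, sub_mul, div_mul_cancel₀ _ hp.ne']
      linarith
    have h5 : 4 * (k : ℝ) / p = 4 * ((k : ℝ) / p) := by ring
    rw [h5]
    linarith

/-- far away residues -/
theorem far {M k : ℕ} (hM : 5 * M < p) (x h : ZMod p) (hx1 : k ≤ x.val)
    (hx2 : x.val ≤ M) (hkM : k ≤ M) (hxh : ¬ (1 ≤ (x - h).val ∧ (x - h).val ≤ 2 * M)) :
    k ≤ h.val ∧ h.val + k ≤ p := by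
  obtain ⟨y, hy⟩ : ∃ y, y = x - h := ⟨_, rfl⟩
  rw [← hy] at hxh
  have hh : h = x - y := by rw [hy]; ring
  have hylt := ZMod.val_lt y
  by_cases hc : y.val ≤ x.val
  · have h1 : h.val = x.val - y.val := by rw [hh]; exact ZMod.val_sub hc
    have h2 : y.val = 0 := by omega
    omega
  · push Not at hc
    have h1 : (y - x).val = y.val - x.val := ZMod.val_sub hc.le
    have h2 : h = -(y - x) := by rw [hh]; ring
    have h3 : (y - x).val ≠ 0 := by omega
    have h4 : h.val = p - (y - x).val := by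
      rw [h2]
      rw [ZMod.neg_val, if_neg]
      intro h0
      apply h3
      rw [h0, ZMod.val_zero]
    omega

/-- the mass of the convolution is close to 1 -/
theorem cvR_ind_ge {K : ℕ} {b c : ZMod p → ℝ} (hb : Kernel K b c) {ε2 : ℝ}
    (hb1 : meanR (fun x => b x * ‖ch x - 1‖ ^ 2) ≤ ε2) {M k : ℕ} (hM : 5 * M < p)
    (hk : 0 < k) (hkM : k ≤ M) (x : ZMod p) (hx1 : k ≤ x.val) (hx2 : x.val ≤ M) :
    1 - ε2 * (p / (4 * k)) ^ 2 ≤ cvR (ind (2 * M)) b x := by
  have hp : (0 : ℝ) < p := castR_pos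
  have hkr : (0 : ℝ) < k := by exact_mod_cast hk
  have h1 : ∀ h : ZMod p, b h - (b h * ‖ch h - 1‖ ^ 2) * (p / (4 * k)) ^ 2 ≤
      ind (2 * M) (x - h) * b h := by
    intro h
    have hb0 := hb.nonneg h
    unfold ind
    split_ifs with hc
    · have : 0 ≤ (b h * ‖ch h - 1‖ ^ 2) * (p / (4 * k)) ^ 2 := by positivity
      linarith
    · obtain ⟨h2, h3⟩ := far hM x h hx1 hx2 hkM hc
      have h4 := norm_ch_sub_one_ge h k h2 h3
      have h5 : 1 ≤ ‖ch h - 1‖ ^ 2 * ((p : ℝ) / (4 * k)) ^ 2 := by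
        rw [← mul_pow]
        apply one_le_pow₀
        have h6 := mul_le_mul_of_nonneg_right h4 (by positivity : (0 : ℝ) ≤ (p : ℝ) / (4 * k))
        have h7 : 4 * (k : ℝ) / p * ((p : ℝ) / (4 * k)) = 1 := by field_simp
        rw [h7] at h6
        exact h6
      have h8 : b h * 1 ≤ b h * (‖ch h - 1‖ ^ 2 * ((p : ℝ) / (4 * k)) ^ 2) :=
        mul_le_mul_of_nonneg_left h5 hb0
      have h9 : b h * (‖ch h - 1‖ ^ 2 * ((p : ℝ) / (4 * k)) ^ 2) =
        (b h * ‖ch h - 1‖ ^ 2) * ((p : ℝ) / (4 * k)) ^ 2 := by ring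
      rw [zero_mul]
      linarith
  have h2 := meanR_mono _ _ h1
  rw [meanR_sub, meanR_mul_right, hb.meanR_eq] at h2
  have h3 : meanR (fun x => b x * ‖ch x - 1‖ ^ 2) * ((p : ℝ) / (4 * k)) ^ 2 ≤
      ε2 * ((p : ℝ) / (4 * k)) ^ 2 := mul_le_mul_of_nonneg_right hb1 (by positivity)
  unfold cvR
  linarith

/-- difference of convolutions from Fourier coefficients -/
theorem cvR_close {K : ℕ} {b c : ZMod p → ℝ} (hb : Kernel K b c) (f g : ZMod p → ℝ) {η : ℝ}
    (hη : ∀ ξ, ‖ft (fun x => ((f x - g x : ℝ) : ℂ)) ξ‖ ≤ η) (x : ZMod p) :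
    |cvR f b x - cvR g b x| ≤ K * η := by
  have h0 : 0 ≤ η := (norm_nonneg _).trans (hη 0)
  have h1 : ((cvR f b x - cvR g b x : ℝ) : ℂ) = conv (fun x => ((f x - g x : ℝ) : ℂ)) b x := by
    rw [conv_eq (fun x => f x - g x) b x]
    congr 1
    unfold cvR
    rw [← meanR_sub]
    congr 1
    funext h
    ring
  have h2 : |cvR f b x - cvR g b x| = ‖((cvR f b x - cvR g b x : ℝ) : ℂ)‖ := by
    rw [Complex.norm_real, Real.norm_eq_abs]
  rw [h2, h1, hb.conv_expand]
  refine (norm_sum_le _ _).trans ?_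
  calc ∑ ξ, ‖ft (fun x => ((f x - g x : ℝ) : ℂ)) ξ * (c ξ : ℂ) * ch (ξ * x)‖ ≤
      ∑ ξ, if c ξ ≠ 0 then η else 0 := by
        apply Finset.sum_le_sum
        intro ξ _
        rw [norm_mul, norm_mul, norm_ch, mul_one, Complex.norm_real, Real.norm_eq_abs,
          abs_of_nonneg (hb.coeff ξ).1]
        by_cases hc : c ξ = 0
        · rw [if_neg (not_not.2 hc), hc, mul_zero]
        · rw [if_pos hc]
          calc ‖ft (fun x => ((f x - g x : ℝ) : ℂ)) ξ‖ * c ξ ≤ η * 1 :=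
                mul_le_mul (hη ξ) (hb.coeff ξ).2 (hb.coeff ξ).1 h0
            _ = η := mul_one _
    _ = ((univ.filter (fun ζ => c ζ ≠ 0)).card : ℝ) * η := by
        rw [← Finset.sum_filter, Finset.sum_const, nsmul_eq_mul]
    _ ≤ K * η := mul_le_mul_of_nonneg_right (by exact_mod_cast hb.supp) h0

/-- mass of a convolution -/
theorem meanR_cvR {K : ℕ} {b c : ZMod p → ℝ} (hb : Kernel K b c) (e : ZMod p → ℝ) :
    meanR (fun x => cvR e b x) = meanR e := by
  unfold cvR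
  have h1 : meanR (fun x => meanR (fun h => e (x - h) * b h)) =
      meanR (fun h => meanR (fun x => e (x - h) * b h)) := by
    unfold meanR
    rw [← Finset.sum_div, ← Finset.sum_div, Finset.sum_comm]
  rw [h1]
  have h2 : (fun h => meanR (fun x => e (x - h) * b h)) = fun h => meanR e * b h := by
    funext h
    rw [meanR_mul_right]
    congr 1
    unfold meanR
    rw [← Equiv.sum_comp (Equiv.subRight h) e]
    rfl
  rw [h2, meanR_mul_left, hb.meanR_eq, mul_one]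

/-- **abstract balance** -/
theorem balance {K : ℕ} {b c : ZMod p → ℝ} (hb : Kernel K b c) {ε2 : ℝ}
    (hb1 : meanR (fun x => b x * ‖ch x - 1‖ ^ 2) ≤ ε2) {M k : ℕ} (hM : 5 * M < p)
    (hk : 0 < k) (hkM : k ≤ M) (T g e v : ZMod p → ℝ) (hT : ∀ x, g x - e x ≤ T x)
    (he : ∀ x, 0 ≤ e x) {η : ℝ}
    (hη : ∀ ξ, ‖ft (fun x => ((g x - (1 / 2) * ind (2 * M) x : ℝ) : ℂ)) ξ‖ ≤ η)
    (hv : ∀ x, 0 ≤ v x ∧ v x ≤ 1) (hvI : ∀ x, v x ≠ 0 → x.val ≤ M) :
    (1 / 2) * meanR v - ((1 / 2) * (k / p) + (1 / 2) * (ε2 * (p / (4 * k)) ^ 2) + K * η + meanR e) ≤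
      meanR (fun x => cvR T b x * v x) := by
  have hp : (0 : ℝ) < p := castR_pos
  have hkr : (0 : ℝ) < k := by exact_mod_cast hk
  have h0 : 0 ≤ η := (norm_nonneg _).trans (hη 0)
  have hε2 : 0 ≤ ε2 := (meanR_nonneg _ fun x =>
    mul_nonneg (hb.nonneg x) (sq_nonneg _)).trans hb1
  have hKη : 0 ≤ (K : ℝ) * η := by positivity
  have hE : 0 ≤ ε2 * ((p : ℝ) / (4 * k)) ^ 2 := by positivity
  have key : ∀ x : ZMod p, (1 / 2) * v x - ((1 / 2) * (if x.val < k then (1 : ℝ) else 0) +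
      (1 / 2) * (ε2 * (p / (4 * k)) ^ 2) + K * η + cvR e b x) ≤ cvR T b x * v x := by
    intro x
    have hec : 0 ≤ cvR e b x := cvR_nonneg e b he hb.nonneg x
    have h1 : cvR g b x - cvR e b x ≤ cvR T b x := by
      have h2 : cvR g b x - cvR e b x = cvR (fun x => g x - e x) b x := by
        unfold cvR
        rw [← meanR_sub]
        congr 1
        funext h
        ring
      rw [h2]
      exact cvR_mono _ _ _ hT hb.nonneg x
    have h2 := (abs_le.1 (cvR_close hb g (fun x => (1 / 2) * ind (2 * M) x) hη x)).1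
    have h3 : cvR (fun x => (1 / 2) * ind (2 * M) x) b x = (1 / 2) * cvR (ind (2 * M)) b x := by
      unfold cvR
      rw [← meanR_mul_left]
      congr 1
      funext h
      ring
    rw [h3] at h2
    have h4 : 0 ≤ cvR (ind (2 * M)) b x :=
      cvR_nonneg _ _ (fun x => ind_nonneg _ _) hb.nonneg x
    obtain ⟨v0, v1⟩ := hv x
    have h5 : (cvR g b x - cvR e b x) * v x ≤ cvR T b x * v x :=
      mul_le_mul_of_nonneg_right h1 v0
    refine le_trans ?_ h5
    have h6 : cvR e b x * v x ≤ cvR e b x := mul_le_of_le_one_right hec v1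
    have h7 : K * η * v x ≤ K * η := mul_le_of_le_one_right hKη v1
    have h8 : ((1 / 2) * cvR (ind (2 * M)) b x - K * η) * v x ≤ cvR g b x * v x :=
      mul_le_mul_of_nonneg_right (by linarith) v0
    have h9 : (1 / 2) * v x - ((1 / 2) * (if x.val < k then (1 : ℝ) else 0) +
        (1 / 2) * (ε2 * (p / (4 * k)) ^ 2)) ≤ (1 / 2) * cvR (ind (2 * M)) b x * v x := by
      by_cases hv0 : v x = 0
      · rw [hv0]
        have : (0 : ℝ) ≤ if x.val < k then (1 : ℝ) else 0 := by split_ifs <;> norm_num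
        simp only [mul_zero]
        linarith
      · by_cases hxk : x.val < k
        · rw [if_pos hxk]
          have : 0 ≤ (1 / 2) * cvR (ind (2 * M)) b x * v x := by positivity
          linarith
        · rw [if_neg hxk]
          push Not at hxk
          have h10 := cvR_ind_ge hb hb1 hM hk hkM x hxk (hvI x hv0)
          have h11 : (1 / 2) * (1 - ε2 * (p / (4 * k)) ^ 2) * v x ≤
              (1 / 2) * cvR (ind (2 * M)) b x * v x := by
            apply mul_le_mul_of_nonneg_right _ v0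
            linarith
          have h12 : (1 / 2) * (ε2 * (p / (4 * k)) ^ 2) * v x ≤
              (1 / 2) * (ε2 * (p / (4 * k)) ^ 2) := mul_le_of_le_one_right (by positivity) v1
          linarith
    have e1 : (cvR g b x - cvR e b x) * v x = cvR g b x * v x - cvR e b x * v x := by ring
    have e2 : ((1 / 2) * cvR (ind (2 * M)) b x - K * η) * v x =
      (1 / 2) * cvR (ind (2 * M)) b x * v x - K * η * v x := by ring
    rw [e1]
    rw [e2] at h8
    linarith
  have h1 := meanR_mono _ _ key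
  rw [meanR_sub, meanR_add, meanR_add, meanR_add, meanR_mul_left, meanR_mul_left, meanR_const,
    meanR_const, meanR_cvR hb] at h1
  have h2 : meanR (fun x : ZMod p => if x.val < k then (1 : ℝ) else 0) ≤ k / p := by
    unfold meanR
    apply div_le_div_of_nonneg_right _ hp.le
    rw [Finset.sum_boole]
    have h3 : (univ.filter (fun x : ZMod p => x.val < k)).card ≤ (Finset.range k).card := by
      apply Finset.card_le_card_of_injOn (fun x => x.val)
      · intro x hx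
        simp only [Finset.coe_filter, Finset.mem_univ, true_and, Set.mem_ofPred_eq] at hx
        simp only [Finset.coe_range, Set.mem_Iio]
        exact hx
      · intro x _ y _ hxy
        exact ZMod.val_injective p hxy
    rw [Finset.card_range] at h3
    exact_mod_cast h3
  linarith

/-! ### part 2: bridge to sums over intervals -/

theorem ch_eq_ee (ξ x : ZMod p) : ch (-(ξ * x)) = ee (-(ξ.val : ℝ) / p * x.val) := by
  have h1 : -(ξ * x) = ((-((ξ.val : ℤ) * (x.val : ℤ)) : ℤ) : ZMod p) := by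
    push_cast
    rw [ZMod.natCast_zmod_val, ZMod.natCast_zmod_val]
  unfold ch ee
  rw [ZMod.stdAddChar_apply, h1, ZMod.toCircle_intCast]
  congr 1
  push_cast
  ring

theorem sum_val_eq {E : Type*} [AddCommMonoid E] (H : ℕ) (hH : H < p) (f : ℕ → E) :
    ∑ x : ZMod p, (if 1 ≤ x.val ∧ x.val ≤ H then f x.val else 0) = ∑ n ∈ Finset.Icc 1 H, f n := by
  rw [← Finset.sum_filter]
  refine Finset.sum_bij (fun x _ => x.val) ?_ ?_ ?_ ?_
  · intro x hx
    rw [Finset.mem_filter] at hx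
    rw [Finset.mem_Icc]
    exact hx.2
  · intro x _ y _ hxy
    exact ZMod.val_injective p hxy
  · intro n hn
    rw [Finset.mem_Icc] at hn
    have hv : ((n : ℕ) : ZMod p).val = n := ZMod.val_natCast_of_lt (by omega)
    exact ⟨(n : ZMod p), by rw [Finset.mem_filter, hv]; exact ⟨Finset.mem_univ _, hn⟩, hv⟩
  · intro x _; rfl

theorem ft_ind (H : ℕ) (hH : H < p) (f : ℕ → ℂ) (ξ : ZMod p) :
    ft (fun x => if 1 ≤ x.val ∧ x.val ≤ H then f x.val else 0) ξ =
      (∑ n ∈ Finset.Icc 1 H, f n * ee (-(ξ.val : ℝ) / p * n)) / p := by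
  unfold ft mean
  congr 1
  rw [← sum_val_eq H hH (fun n => f n * ee (-(ξ.val : ℝ) / p * n))]
  apply Finset.sum_congr rfl
  intro x _
  simp only [ch_eq_ee]
  split_ifs
  · rfl
  · rw [zero_mul]

/-! ### part 3: the functions -/

/-- the majorant on `ZMod p` -/
noncomputable def nuP (z0 z : ℕ) (x : ZMod p) : ℝ :=
  nu z0 z (![1, 1, 1] : Fin 3 → ℤ) ![0, 1, 2] (x.val : ℤ)

/-- bounded smooth parts of `n, n+1, n+2` -/
def Sm3 (z0 C1 n : ℕ) : Prop := A81.Sm z0 C1 n ∧ A81.Sm z0 C1 (n + 1) ∧ A81.Sm z0 C1 (n + 2)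

open Classical in
noncomputable def Af (z0 z C1 M : ℕ) (τ : ℝ) (x : ZMod p) : ℝ :=
  if (1 ≤ x.val ∧ x.val ≤ 2 * M) ∧ Sm3 z0 C1 x.val ∧ lam x.val = -τ ∧ lam (x.val + 1) = -τ
  then nuP z0 z x else 0

open Classical in
noncomputable def Bf (z0 z C1 M : ℕ) (τ : ℝ) (x : ZMod p) : ℝ :=
  if (1 ≤ x.val ∧ x.val ≤ 2 * M) ∧ Sm3 z0 C1 x.val ∧ lam (x.val + 1) = -τ ∧ lam (x.val + 2) = -τ
  then nuP z0 z x else 0

open Classical in
noncomputable def Cf (z0 z C1 M : ℕ) (τ : ℝ) (x : ZMod p) : ℝ :=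
  if (1 ≤ x.val ∧ x.val ≤ 2 * M) ∧ Sm3 z0 C1 x.val ∧ lam x.val = τ ∧ lam (x.val + 2) = τ
  then nuP z0 z x else 0

/-- `ν 1_I [λ(x+1) = -τ]` -/
noncomputable def gf (z0 z M : ℕ) (τ : ℝ) (x : ZMod p) : ℝ :=
  if 1 ≤ x.val ∧ x.val ≤ 2 * M then nuP z0 z x * ((1 - τ * lam (x.val + 1)) / 2) else 0

open Classical in
/-- exceptional part -/
noncomputable def ef (z0 z C1 M : ℕ) (x : ZMod p) : ℝ :=
  if (1 ≤ x.val ∧ x.val ≤ 2 * M) ∧ ¬ Sm3 z0 C1 x.val then nuP z0 z x else 0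

omit [NeZero p] in
theorem nuP_nonneg (z0 z : ℕ) (x : ZMod p) : 0 ≤ nuP z0 z x := A81.nu_nonneg _ _ _ _ _

omit [NeZero p] in
theorem ef_nonneg (z0 z C1 M : ℕ) (x : ZMod p) : 0 ≤ ef z0 z C1 M x := by
  unfold ef
  split_ifs
  · exact nuP_nonneg _ _ _
  · exact le_rfl

omit [NeZero p] in
theorem Af_nonneg (z0 z C1 M : ℕ) (τ : ℝ) (x : ZMod p) : 0 ≤ Af z0 z C1 M τ x := by
  unfold Af
  split_ifs
  · exact nuP_nonneg _ _ _
  · exact le_rfl

omit [NeZero p] in
theorem Bf_nonneg (z0 z C1 M : ℕ) (τ : ℝ) (x : ZMod p) : 0 ≤ Bf z0 z C1 M τ x := by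
  unfold Bf
  split_ifs
  · exact nuP_nonneg _ _ _
  · exact le_rfl

omit [NeZero p] in
theorem Cf_nonneg (z0 z C1 M : ℕ) (τ : ℝ) (x : ZMod p) : 0 ≤ Cf z0 z C1 M τ x := by
  unfold Cf
  split_ifs
  · exact nuP_nonneg _ _ _
  · exact le_rfl

omit [NeZero p] in
theorem Af_le (z0 z C1 M : ℕ) (τ : ℝ) (x : ZMod p) : Af z0 z C1 M τ x ≤ nuP z0 z x := by
  unfold Af
  split_ifs
  · exact le_rfl
  · exact nuP_nonneg _ _ _

omit [NeZero p] in
theorem Bf_le (z0 z C1 M : ℕ) (τ : ℝ) (x : ZMod p) : Bf z0 z C1 M τ x ≤ nuP z0 z x := by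
  unfold Bf
  split_ifs
  · exact le_rfl
  · exact nuP_nonneg _ _ _

omit [NeZero p] in
theorem Cf_le (z0 z C1 M : ℕ) (τ : ℝ) (x : ZMod p) : Cf z0 z C1 M τ x ≤ nuP z0 z x := by
  unfold Cf
  split_ifs
  · exact le_rfl
  · exact nuP_nonneg _ _ _

omit [NeZero p] in
/-- pointwise form of the key lemma -/
theorem gf_le (z0 z C1 M : ℕ) {τ : ℝ} (hτ : τ = 1 ∨ τ = -1) (x : ZMod p) :
    gf z0 z M τ x - ef z0 z C1 M x ≤
      Af z0 z C1 M τ x + Bf z0 z C1 M τ x + Cf z0 z C1 M τ x := by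
  have hA := Af_nonneg z0 z C1 M τ x
  have hB := Bf_nonneg z0 z C1 M τ x
  have hC := Cf_nonneg z0 z C1 M τ x
  have hν := nuP_nonneg z0 z x
  have hττ : τ * τ = 1 := by rcases hτ with h | h <;> rw [h] <;> norm_num
  by_cases hI : 1 ≤ x.val ∧ x.val ≤ 2 * M
  · by_cases hS : Sm3 z0 C1 x.val
    · rcases A81.lam_eq_tau hτ (x.val + 1) with h1 | h1
      · have h2 : gf z0 z M τ x = 0 := by
          unfold gf
          rw [if_pos hI, h1, hττ]
          norm_num
        rw [h2]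
        linarith [ef_nonneg z0 z C1 M x]
      · have h2 : gf z0 z M τ x = nuP z0 z x := by
          unfold gf
          rw [if_pos hI, h1]
          have : (1 - τ * -τ) / 2 = 1 := by rw [mul_neg, hττ]; norm_num
          rw [this, mul_one]
        rw [h2]
        have he := ef_nonneg z0 z C1 M x
        rcases A81.lam_eq_tau hτ x.val with h3 | h3
        · rcases A81.lam_eq_tau hτ (x.val + 2) with h4 | h4
          · have h5 : Cf z0 z C1 M τ x = nuP z0 z x := by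
              unfold Cf
              rw [if_pos ⟨hI, hS, h3, h4⟩]
            linarith
          · have h5 : Bf z0 z C1 M τ x = nuP z0 z x := by
              unfold Bf
              rw [if_pos ⟨hI, hS, h1, h4⟩]
            linarith
        · have h5 : Af z0 z C1 M τ x = nuP z0 z x := by
            unfold Af
            rw [if_pos ⟨hI, hS, h3, h1⟩]
          linarith
    · have h1 : ef z0 z C1 M x = nuP z0 z x := by
        unfold ef
        rw [if_pos ⟨hI, hS⟩]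
      have h2 : gf z0 z M τ x ≤ nuP z0 z x := by
        unfold gf
        rw [if_pos hI]
        apply mul_le_of_le_one_right hν
        rcases A81.lam_eq_tau hτ (x.val + 1) with h1 | h1
        · rw [h1, hττ]; norm_num
        · rw [h1, mul_neg, hττ]; norm_num
      linarith
  · have h1 : gf z0 z M τ x = 0 := by
      unfold gf
      rw [if_neg hI]
    rw [h1]
    linarith [ef_nonneg z0 z C1 M x]

end abs

/-! ### part 4: Fourier coefficients -/

theorem nu_shift {z0 z : ℕ} (n : ℤ) :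
    nu z0 z (![1, 1, 1] : Fin 3 → ℤ) ![0, 1, 2] n =
      nu z0 z (![1, 1, 1] : Fin 3 → ℤ) ![0, 1, -1] (n + 1) := by
  have h1 := A81.nu_three (z0 := z0) (z := z) (L := 1) (fun q hq hd => by
    have h1 : (q : ℤ) = 1 := Int.eq_one_of_dvd_one (by positivity) (by exact_mod_cast hd)
    have h2 : q = 1 := by exact_mod_cast h1
    exact (PP_prime hq).one_lt.ne' h2) (![0, 1, 2] : Fin 3 → ℤ) 1 n
  have h2 : (fun _ : Fin 3 => ((1 : ℕ) : ℤ)) = (![1, 1, 1] : Fin 3 → ℤ) := by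
    funext j; fin_cases j <;> rfl
  rw [h2] at h1
  rw [h1]
  congr 1
  simp

open Classical in
theorem FBft (h2 : S2Stmt) (h4 : S4Stmt) (hL : LamStmt) (ε : ℝ) (hε : 0 < ε) :
    ∃ s zs : ℕ, ∀ z0 : ℕ, zs ≤ z0 → ∃ C10 : ℕ, ∀ B : ℕ, ∃ z1 : ℕ, ∀ z : ℕ, z1 ≤ z →
    ∀ (M p : ℕ) [NeZero p], z ^ s ≤ M → M ≤ z ^ B → 5 * M < p → ∀ τ : ℝ, (τ = 1 ∨ τ = -1) →
      (∀ ξ : ZMod p, ‖ft (fun x : ZMod p =>
        ((gf z0 z M τ x - (1 / 2) * ind (2 * M) x : ℝ) : ℂ)) ξ‖ ≤ ε) ∧
      ∀ C1 : ℕ, C10 ≤ C1 → meanR (fun x : ZMod p => ef z0 z C1 M x) ≤ ε := by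
  obtain ⟨s4, zs4, h4⟩ := h4 3 ε hε
  obtain ⟨sL, zsL, hL⟩ := hL 1 (ε / 4) (by linarith)
  obtain ⟨sE, zsE, hE⟩ := A81.exc h2 3 1 ε hε
  refine ⟨s4 + sL + sE + 4, zs4 + zsL + zsE + 4, fun z0 hz0 => ?_⟩
  obtain ⟨C10, zE, hE⟩ := hE z0 (by omega)
  refine ⟨C10, fun B => ?_⟩
  obtain ⟨z4, h4⟩ := h4 z0 (by omega) (B + 2)
  obtain ⟨zL, hL⟩ := hL z0 (by omega) (B + 2)
  obtain ⟨n0, hn0⟩ := exists_nat_ge (4 / ε)
  refine ⟨z4 + zL + zE + n0 + z0 + 4, fun z hz M p hp hsM hMB hMp τ hτ => ?_⟩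
  have hzpos : 0 < z := by omega
  have hpow : ∀ i, i ≤ s4 + sL + sE + 4 → z ^ i ≤ M := fun i hi =>
    (Nat.pow_le_pow_right hzpos hi).trans hsM
  have hpr : (0 : ℝ) < p := castR_pos
  have hzB : M ≤ z ^ B := hMB
  have h2M : 2 * M + 1 ≤ z ^ (B + 2) := by
    have e1 : z ^ (B + 2) = z ^ B * z ^ 2 := pow_add _ _ _
    have e2 : 4 ≤ z ^ 2 := by
      have : 2 ≤ z := by omega
      nlinarith
    have e3 : 1 ≤ z ^ B := Nat.one_le_pow _ _ hzpos
    rw [e1]
    nlinarith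
  have hone : ∀ j : Fin 3, (![1, 1, 1] : Fin 3 → ℤ) j = 1 := by
    intro j; fin_cases j <;> rfl
  have hndvd : ∀ j : Fin 3, ∀ q ∈ PP z0 z, ¬ ((q : ℤ) ∣ (![1, 1, 1] : Fin 3 → ℤ) j) := by
    intro j q hq
    rw [hone j]
    exact not_dvd_one q hq
  constructor
  · intro ξ
    -- S4
    have a1 : ‖∑ n ∈ Finset.Icc 1 (2 * M),
        ((nu z0 z (![1, 1, 1] : Fin 3 → ℤ) ![0, 1, 2] (n : ℤ) - 1 : ℝ) : ℂ) *
          ee (-(ξ.val : ℝ) / p * n)‖ ≤ ε * (2 * M) := by
      have h5 := h4 z (by omega) ![1, 1, 1] ![0, 1, 2] (fun j => ⟨?_, ?_, hndvd j⟩) 0 (2 * M)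
        (by simp) ((hpow s4 (by omega)).trans (by omega)) (by omega) (-(ξ.val : ℝ) / p)
      · rw [sum_Ioc_int] at h5
        simp only [Int.cast_natCast] at h5
        rw [show ((2 * M : ℕ) : ℝ) = 2 * (M : ℝ) by push_cast; ring] at h5
        exact h5
      · rw [hone j]
        have : (1 : ℤ) ≤ (z : ℤ) ^ (B + 2) := by
          have : (1 : ℤ) ≤ z := by exact_mod_cast hzpos
          exact one_le_pow₀ this
        simpa using this
      · have e1 : (2 : ℤ) ≤ (z : ℤ) ^ (B + 2) := by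
          have e2 : (2 : ℤ) ≤ z := by exact_mod_cast (by omega : 2 ≤ z)
          calc (2 : ℤ) ≤ z := e2
            _ ≤ (z : ℤ) ^ (B + 2) := le_self_pow₀ (by linarith) (by omega)
        fin_cases j
        · simp
        · simp only [Fin.mk_one, Fin.isValue, Matrix.cons_val_one, Matrix.cons_val_zero, abs_one]
          linarith
        · simp only [Fin.reduceFinMk, Matrix.cons_val]
          rw [abs_two]
          exact e1
    -- Lam
    have a2 : ‖∑ n ∈ Finset.Icc 1 (2 * M),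
        ((nu z0 z (![1, 1, 1] : Fin 3 → ℤ) ![0, 1, 2] (n : ℤ) : ℝ) : ℂ) * (lam (n + 1) : ℂ) *
          ee (-(ξ.val : ℝ) / p * n)‖ ≤ ε * (2 * M) := by
      obtain ⟨θ, hθ⟩ : ∃ θ : ℝ, θ = -(ξ.val : ℝ) / p := ⟨_, rfl⟩
      rw [← hθ]
      have h5 := hL z (by omega) ![1, -1] (fun j => by fin_cases j <;> simp)
        (by simp) (2 * M + 1) ((hpow sL (by omega)).trans (by omega)) h2M θ
      simp only [Matrix.cons_val_zero, Matrix.cons_val_one] at h5
      have e1 : ∑ y ∈ Finset.Icc 1 (2 * M + 1),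
          ((nu z0 z (![1, 1, 1] : Fin 3 → ℤ) ![0, 1, -1] (y : ℤ) : ℝ) : ℂ) * (lam y : ℂ) *
            ee (θ * y) =
          ((nu z0 z (![1, 1, 1] : Fin 3 → ℤ) ![0, 1, -1] (1 : ℤ) : ℝ) : ℂ) * (lam 1 : ℂ) *
            ee (θ * 1) + ee θ * ∑ n ∈ Finset.Icc 1 (2 * M),
          ((nu z0 z (![1, 1, 1] : Fin 3 → ℤ) ![0, 1, 2] (n : ℤ) : ℝ) : ℂ) * (lam (n + 1) : ℂ) *
            ee (θ * n) := by
        have e2 : Finset.Icc 1 (2 * M + 1) = insert 1 ((Finset.Icc 1 (2 * M)).image (· + 1)) := by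
          ext y
          simp only [Finset.mem_Icc, Finset.mem_insert, Finset.mem_image]
          constructor
          · rintro ⟨b1, b2⟩
            by_cases hy : y = 1
            · left; exact hy
            · right; exact ⟨y - 1, ⟨by omega, by omega⟩, by omega⟩
          · rintro (b1 | ⟨y', ⟨b1, b2⟩, b3⟩)
            · omega
            · omega
        rw [e2, Finset.sum_insert, Finset.sum_image, Finset.mul_sum]
        · congr 1
          · push_cast; rfl
          · apply Finset.sum_congr rfl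
            intro n _
            rw [nu_shift]
            push_cast
            have e3 : θ * ((n : ℝ) + 1) = θ * n + θ := by ring
            rw [e3, ee_add]
            ring
        · intro a _ b _ h
          simpa using h
        · simp only [Finset.mem_image, Finset.mem_Icc, not_exists, not_and]
          intro y hy h
          omega
      have e4 : ‖((nu z0 z (![1, 1, 1] : Fin 3 → ℤ) ![0, 1, -1] (1 : ℤ) : ℝ) : ℂ) *
          (lam 1 : ℂ) * ee (θ * 1)‖ ≤ (z : ℝ) ^ 3 := by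
        rw [norm_mul, norm_mul, norm_ee, norm_lam, mul_one, mul_one, Complex.norm_real,
          Real.norm_eq_abs, abs_of_nonneg (A81.nu_nonneg _ _ _ _ _)]
        exact (nu_le (by omega) _ _ hndvd _).trans (VV_inv_le (by omega) (by omega) _ _ hndvd)
      have e5 : ‖ee θ * ∑ n ∈ Finset.Icc 1 (2 * M),
          ((nu z0 z (![1, 1, 1] : Fin 3 → ℤ) ![0, 1, 2] (n : ℤ) : ℝ) : ℂ) * (lam (n + 1) : ℂ) *
            ee (θ * n)‖ ≤ ε / 4 * ((2 * M + 1 : ℕ) : ℝ) + (z : ℝ) ^ 3 := by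
        obtain ⟨S, hS⟩ : ∃ S : ℂ, S = ee θ * ∑ n ∈ Finset.Icc 1 (2 * M),
          ((nu z0 z (![1, 1, 1] : Fin 3 → ℤ) ![0, 1, 2] (n : ℤ) : ℝ) : ℂ) * (lam (n + 1) : ℂ) *
            ee (θ * n) := ⟨_, rfl⟩
        obtain ⟨F, hF⟩ : ∃ F : ℂ, F = ((nu z0 z (![1, 1, 1] : Fin 3 → ℤ) ![0, 1, -1] (1 : ℤ) : ℝ) : ℂ) *
          (lam 1 : ℂ) * ee (θ * 1) := ⟨_, rfl⟩
        rw [e1, ← hS, ← hF] at h5
        rw [← hF] at e4
        rw [← hS]
        calc ‖S‖ = ‖(F + S) - F‖ := by rw [add_sub_cancel_left]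
          _ ≤ ‖F + S‖ + ‖F‖ := norm_sub_le _ _
          _ ≤ _ := add_le_add h5 e4
      rw [norm_mul, norm_ee, one_mul] at e5
      refine e5.trans ?_
      have e6 : (z : ℝ) ^ 4 ≤ M := by exact_mod_cast hpow 4 (by omega)
      have e7 : (4 : ℝ) / ε ≤ z := hn0.trans (by exact_mod_cast (by omega : n0 ≤ z))
      have hzr : (0 : ℝ) < z := by exact_mod_cast hzpos
      have e8 : (z : ℝ) ^ 3 ≤ ε / 4 * M := by
        rw [div_le_iff₀ hε] at e7
        have e9 : (z : ℝ) ^ 3 * 4 ≤ (z : ℝ) ^ 3 * (z * ε) :=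
          mul_le_mul_of_nonneg_left e7 (by positivity)
        have e10 : (z : ℝ) ^ 3 * (z * ε) = (z : ℝ) ^ 4 * ε := by ring
        rw [e10] at e9
        nlinarith
      have e11 : (1 : ℝ) ≤ M := by
        have : 1 ≤ M := (Nat.one_le_pow _ _ hzpos).trans (hpow 1 (by omega))
        exact_mod_cast this
      push_cast
      nlinarith
    obtain ⟨F, hF⟩ : ∃ F : ℕ → ℂ, F = fun n : ℕ => (1 / 2 : ℂ) *
        ((nu z0 z (![1, 1, 1] : Fin 3 → ℤ) ![0, 1, 2] (n : ℤ) - 1 : ℝ) : ℂ)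
            - (τ / 2 : ℂ) * (((nu z0 z (![1, 1, 1] : Fin 3 → ℤ) ![0, 1, 2] (n : ℤ) : ℝ) : ℂ) *
              (lam (n + 1) : ℂ)) := ⟨_, rfl⟩
    have a3 : (fun x : ZMod p => ((gf z0 z M τ x - (1 / 2) * ind (2 * M) x : ℝ) : ℂ)) =
        fun x : ZMod p => if 1 ≤ x.val ∧ x.val ≤ 2 * M then F x.val else 0 := by
      funext x
      unfold gf ind nuP
      rw [hF]
      split_ifs
      · push_cast
        ring
      · simp
    rw [a3, ft_ind (2 * M) (by omega) F ξ, norm_div, Complex.norm_natCast, div_le_iff₀ hpr, hF]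
    have a4 : ∑ n ∈ Finset.Icc 1 (2 * M), ((1 / 2 : ℂ) *
        ((nu z0 z (![1, 1, 1] : Fin 3 → ℤ) ![0, 1, 2] (n : ℤ) - 1 : ℝ) : ℂ)
            - (τ / 2 : ℂ) * (((nu z0 z (![1, 1, 1] : Fin 3 → ℤ) ![0, 1, 2] (n : ℤ) : ℝ) : ℂ) *
              (lam (n + 1) : ℂ))) * ee (-(ξ.val : ℝ) / p * n) =
        (1 / 2 : ℂ) * ∑ n ∈ Finset.Icc 1 (2 * M),
        ((nu z0 z (![1, 1, 1] : Fin 3 → ℤ) ![0, 1, 2] (n : ℤ) - 1 : ℝ) : ℂ) *
          ee (-(ξ.val : ℝ) / p * n) - (τ / 2 : ℂ) * ∑ n ∈ Finset.Icc 1 (2 * M),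
        ((nu z0 z (![1, 1, 1] : Fin 3 → ℤ) ![0, 1, 2] (n : ℤ) : ℝ) : ℂ) * (lam (n + 1) : ℂ) *
          ee (-(ξ.val : ℝ) / p * n) := by
      rw [Finset.mul_sum, Finset.mul_sum, ← Finset.sum_sub_distrib]
      apply Finset.sum_congr rfl
      intro n _
      ring
    rw [a4]
    refine (norm_sub_le _ _).trans ?_
    rw [norm_mul, norm_mul]
    have b1 : ‖(1 / 2 : ℂ)‖ = 1 / 2 := by norm_num
    have b2 : ‖(τ / 2 : ℂ)‖ = 1 / 2 := by
      rcases hτ with h | h <;> rw [h] <;> norm_num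
    rw [b1, b2]
    have b3 : ε * (2 * M) ≤ ε * p := by
      apply mul_le_mul_of_nonneg_left _ hε.le
      have : 2 * M ≤ p := by omega
      exact_mod_cast this
    linarith
  · intro C1 hC1
    have h5 := hE z (by omega) ![1, 1, 1] ![0, 1, 2] (fun j => by
      refine ⟨by rw [hone j]; norm_num, by rw [hone j]; norm_num, hndvd j⟩) 0 (2 * M)
      ((hpow sE (by omega)).trans (by omega))
    rw [Finset.sum_filter, sum_Ioc_int] at h5
    have h6 : meanR (fun x : ZMod p => ef z0 z C1 M x) =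
        (∑ n ∈ Finset.Icc 1 (2 * M), (if ¬ Sm3 z0 C1 n then
          nu z0 z (![1, 1, 1] : Fin 3 → ℤ) ![0, 1, 2] (n : ℤ) else 0)) / p := by
      unfold meanR
      congr 1
      rw [← sum_val_eq (p := p) (2 * M) (by omega)]
      apply Finset.sum_congr rfl
      intro x _
      unfold ef nuP
      simp only []
      by_cases c1 : 1 ≤ x.val ∧ x.val ≤ 2 * M
      · by_cases c2 : Sm3 z0 C1 x.val
        · simp [c1, c2]
        · simp [c1, c2]
      · simp [c1]
    rw [h6, div_le_iff₀ hpr]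
    have h7 : ∑ n ∈ Finset.Icc 1 (2 * M), (if ¬ Sm3 z0 C1 n then
          nu z0 z (![1, 1, 1] : Fin 3 → ℤ) ![0, 1, 2] (n : ℤ) else 0) ≤
        ε * ((2 * M : ℕ) : ℝ) := by
      refine le_trans ?_ h5
      apply Finset.sum_le_sum
      intro n _
      by_cases c2 : Sm3 z0 C1 n
      · rw [if_neg (not_not.2 c2)]
        split_ifs
        · exact A81.nu_nonneg _ _ _ _ _
        · exact le_rfl
      · rw [if_pos c2, if_pos]
        by_contra hcon
        push Not at hcon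
        apply c2
        have d0 := hcon 0
        have d1 := hcon 1
        have d2 := hcon 2
        have mono : ∀ m : ℕ, A81.Sm z0 C10 m → A81.Sm z0 C1 m := by
          rintro m ⟨d, ρ, r1, r2, r3, r4⟩
          exact ⟨d, ρ, r1, r2, r3.trans hC1, r4⟩
        refine ⟨mono _ ?_, mono _ ?_, mono _ ?_⟩
        · have : ((![1, 1, 1] : Fin 3 → ℤ) 0 * (n : ℤ) + (![0, 1, 2] : Fin 3 → ℤ) 0).natAbs = n := by
            simp
          rwa [this] at d0
        · have : ((![1, 1, 1] : Fin 3 → ℤ) 1 * (n : ℤ) + (![0, 1, 2] : Fin 3 → ℤ) 1).natAbs =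
              n + 1 := by
            simp only [Matrix.cons_val_one, Matrix.cons_val_zero]
            omega
          rwa [this] at d1
        · have : ((![1, 1, 1] : Fin 3 → ℤ) 2 * (n : ℤ) + (![0, 1, 2] : Fin 3 → ℤ) 2).natAbs =
              n + 2 := by
            simp only [Matrix.cons_val]
            omega
          rwa [this] at d2
    refine h7.trans ?_
    apply mul_le_mul_of_nonneg_left _ hε.le
    have : 2 * M ≤ p := by omega
    exact_mod_cast this

end Pool.Agent.Lib.TwinAll.FB82
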