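import Mathlib
import Pool.Agent.Lib.TwinAll.Defs
import Pool.Agent.Lib.TwinAll.Stmts
import Pool.Agent.Lib.TwinAll.Key81
import Pool.Agent.Lib.TwinAll.Trans81
import Pool.Agent.Lib.TwinAll.FA73

/-!
THEOREM A (MP_c6d112_nt): statements of the assembly (FD, FB, MAIN).
-/

set_option autoImplicit false

namespace Pool.Agent.Lib.TwinAll

open Finset A81 FA

/-- FD: the auxiliary good numbers in a Bohr cell at `0` (`e = 0`) or at `-2` (`e = 2`). -/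
def FDStmt : Prop :=
  ∀ (K : ℕ) (η : ℝ), 0 < η → ∃ G : ℕ, ∀ a : ℝ, 0 < a → ∃ Bs zs : ℕ, ∀ z0 : ℕ, zs ≤ z0 →
    ∃ C1 : ℕ, ∀ B : ℕ, ∃ z1 : ℕ, ∀ z : ℕ, z1 ≤ z → ∀ (p : ℕ) [Fact p.Prime],
    z ^ Bs ≤ p → p ≤ z ^ B → ∀ S : Finset (ZMod p), S.card ≤ K → ∀ τ : ℝ, (τ = 1 ∨ τ = -1) →
    ∀ e : ℕ, (e = 0 ∨ e = 2) →
    ∃ (D νD b'' c'' : ZMod p → ℝ) (α δ : ZMod p) (g : ZMod p → ℕ), Kernel G b'' c'' ∧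
      (∀ x, 0 ≤ νD x) ∧ (∀ x, 0 ≤ D x ∧ D x ≤ νD x * b'' x) ∧
      meanR (fun t => ‖mean (fun x => ((νD x - 1 : ℝ) : ℂ) *
        ((νD (x + t) - 1 : ℝ) : ℂ))‖ ^ 2) ≤ a ∧
      meanR (fun x => νD x * b'' x) ≤ 2 ∧ 1 / 50 ≤ meanR D ∧ α ≠ 0 ∧
      (∀ U, D U ≠ 0 → 20 * g U ≤ p ∧ ((g U + e : ℕ) : ZMod p) = 2 * (α * U + δ) ∧
        ∀ C N : ℕ, C1 + B + 1 ≤ C → N ≤ p → Good τ C N (g U)) ∧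
      ∀ ξ ∈ S, meanR (fun U => D U * ‖ch (ξ * (α * U + δ)) - 1‖) ≤ η

/-- FB: the balance of the three functions. -/
def FBStmt : Prop :=
  ∀ s : ℝ, 0 < s → ∃ εb : ℝ, 0 < εb ∧ ∀ K : ℕ, ∃ Bs zs : ℕ, ∀ z0 : ℕ, zs ≤ z0 →
    ∃ C1 : ℕ, ∀ B : ℕ, ∃ z1 : ℕ, ∀ z : ℕ, z1 ≤ z → ∀ (p : ℕ) [Fact p.Prime] (M : ℕ),
    z ^ Bs ≤ p → p ≤ z ^ B → 5 * M < p → p ≤ 10 * M →
    ∀ b c : ZMod p → ℝ, Kernel K b c → meanR (fun x => b x * ‖ch x - 1‖ ^ 2) ≤ εb →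
    ∀ τ : ℝ, (τ = 1 ∨ τ = -1) → ∀ T w : ZMod p → ℝ, (∀ x, 0 ≤ T x) →
    (∀ x : ZMod p, 1 ≤ x.val → x.val ≤ 2 * M → lam (x.val + 1) = -τ → Sm z0 C1 x.val →
      Sm z0 C1 (x.val + 1) → Sm z0 C1 (x.val + 2) →
      nuP z0 z p (![1, 1, 1] : Fin 3 → ℤ) ![0, 1, 2] x ≤ T x) →
    (∀ x, 0 ≤ w x ∧ w x ≤ 1) → (∀ x : ZMod p, w (2 * x) ≠ 0 → 1 ≤ x.val ∧ x.val ≤ M) →
    1 / 2 * meanR (fun x => w (2 * x)) - s ≤ meanR (fun x => cvR T b x * w (2 * x))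

open Classical in
/-- MAIN: THEOREM A. -/
def MainStmt : Prop :=
  ∀ ε : ℝ, 0 < ε → ∀ τ : ℝ, (τ = 1 ∨ τ = -1) → ∃ C : ℕ, ∀ N : ℕ, C ≤ N →
    (((Finset.Icc 1 N).filter (fun n => Even n ∧ ¬ ∃ a b : ℕ, a + b = n ∧ Good τ C N a ∧
      Good τ C N b)).card : ℝ) ≤ ε * N

end Pool.Agent.Lib.TwinAll
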