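import Mathlib
import Pool.Agent.Lib.TwinAll.FB82
import Pool.Agent.Lib.TwinAll.StmtsF73

/-!
THEOREM A (MP_c6d112_nt), step (b) of the assembly: `FBStmt`.
-/

set_option autoImplicit false

namespace Pool.Agent.Lib.TwinAll

open Finset FA

theorem FB (h2 : S2Stmt) (h4 : S4Stmt) (hL : LamStmt) : FBStmt := by
  intro s hs
  obtain ⟨Q, hQ⟩ := exists_nat_ge (1 / s)
  have hQpos : (0 : ℝ) < Q := lt_of_lt_of_le (by positivity) hQ
  have hQ0 : 0 < Q := by exact_mod_cast hQpos
  refine ⟨s / (100 * Q ^ 2), by positivity, fun K => ?_⟩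
  obtain ⟨ε, hε, hε1, hε2⟩ : ∃ ε : ℝ, 0 < ε ∧ ε ≤ s / 4 ∧ K * ε ≤ s / 4 := by
    refine ⟨s / (4 * (K + 1)), by positivity, ?_, ?_⟩
    · rw [div_le_div_iff₀ (by positivity) (by norm_num)]
      have : (0 : ℝ) ≤ K := Nat.cast_nonneg K
      nlinarith
    · rw [mul_div_assoc', div_le_div_iff₀ (by positivity) (by norm_num)]
      have : (0 : ℝ) ≤ K := Nat.cast_nonneg K
      nlinarith
  obtain ⟨s', zs, h⟩ := FB82.FBft h2 h4 hL ε hε
  refine ⟨s' + 2, zs, fun z0 hz0 => ?_⟩
  obtain ⟨C10, h⟩ := h z0 hz0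
  refine ⟨C10, fun B => ?_⟩
  obtain ⟨z1, h⟩ := h B
  refine ⟨z1 + 10 * Q + 10, fun z hz p hp M hzp hpB h5 h10 b c hb hb1 τ hτ T w hT0 hT hw hwI => ?_⟩
  have hpp := hp.out
  have hpr : (0 : ℝ) < p := FA_cast_pos p hpp
  have hzpos : 0 < z := by omega
  have hM1 : z ^ (s' + 1) ≤ M := by
    have e1 : z ^ (s' + 2) = z ^ (s' + 1) * z := pow_succ _ _
    have e2 : z ^ (s' + 1) * 10 ≤ z ^ (s' + 1) * z := Nat.mul_le_mul_left _ (by omega)
    omega
  have hMs : z ^ s' ≤ M := (Nat.pow_le_pow_right hzpos (by omega)).trans hM1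
  have hMQ : Q ≤ M := by
    have e1 : z ≤ z ^ (s' + 1) := Nat.le_self_pow (by omega) z
    omega
  obtain ⟨hft, hef⟩ := h z (by omega) M p hMs (by omega) h5 τ hτ
  have hef := hef C10 le_rfl
  obtain ⟨k, hk⟩ : ∃ k, k = M / Q := ⟨_, rfl⟩
  have hk0 : 0 < k := by rw [hk]; exact Nat.div_pos hMQ hQ0
  have hkM : k ≤ M := by rw [hk]; exact Nat.div_le_self _ _
  have hMk : M ≤ 2 * Q * k := by
    have e1 := Nat.div_add_mod M Q
    have e2 := Nat.mod_lt M hQ0
    rw [← hk] at e1
    have e3 : Q ≤ Q * k := Nat.le_mul_of_pos_right _ hk0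
    nlinarith
  have hkQ : k * Q ≤ M := by rw [hk]; exact Nat.div_mul_le_self _ _
  have hbal := FB82.balance hb hb1 h5 hk0 hkM T (fun x => FB82.gf z0 z M τ x)
    (fun x => FB82.ef z0 z C10 M x) (fun x => w (2 * x)) (by
      intro x
      have hν := FB82.nuP_nonneg z0 z x
      have hττ : τ * τ = 1 := by rcases hτ with h | h <;> rw [h] <;> norm_num
      have he := FB82.ef_nonneg z0 z C10 M x
      have hTx := hT0 x
      by_cases hI : 1 ≤ x.val ∧ x.val ≤ 2 * M
      · by_cases hS : FB82.Sm3 z0 C10 x.val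
        · rcases A81.lam_eq_tau hτ (x.val + 1) with h1 | h1
          · have h2 : FB82.gf z0 z M τ x = 0 := by
              unfold FB82.gf
              rw [if_pos hI, h1, hττ]
              norm_num
            simp only [h2]
            linarith
          · have h2 : FB82.gf z0 z M τ x = FB82.nuP z0 z x := by
              unfold FB82.gf
              rw [if_pos hI, h1]
              have : (1 - τ * -τ) / 2 = 1 := by rw [mul_neg, hττ]; norm_num
              rw [this, mul_one]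
            have h3 : FB82.nuP z0 z x ≤ T x := hT x hI.1 hI.2 h1 hS.1 hS.2.1 hS.2.2
            simp only [h2]
            linarith
        · have h1 : FB82.ef z0 z C10 M x = FB82.nuP z0 z x := by
            unfold FB82.ef
            rw [if_pos ⟨hI, hS⟩]
          have h2 : FB82.gf z0 z M τ x ≤ FB82.nuP z0 z x := by
            unfold FB82.gf
            rw [if_pos hI]
            apply mul_le_of_le_one_right hν
            rcases A81.lam_eq_tau hτ (x.val + 1) with h1 | h1
            · rw [h1, hττ]; norm_num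
            · rw [h1, mul_neg, hττ]; norm_num
          simp only [h1]
          linarith
      · have h1 : FB82.gf z0 z M τ x = 0 := by
          unfold FB82.gf
          rw [if_neg hI]
        simp only [h1]
        linarith)
    (fun x => FB82.ef_nonneg z0 z C10 M x) (η := ε) hft (fun x => hw (2 * x))
    (fun x hx => (hwI x hx).2)
  refine le_trans ?_ hbal
  have hkr : (0 : ℝ) < k := by exact_mod_cast hk0
  have hMr : (0 : ℝ) < M := by
    have : 0 < M := by omega
    exact_mod_cast this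
  have c1 : (k : ℝ) / p ≤ s / 5 := by
    rw [div_le_iff₀ hpr]
    have e1 : (k : ℝ) * Q ≤ M := by exact_mod_cast hkQ
    have e2 : 5 * (M : ℝ) ≤ p := by exact_mod_cast h5.le
    have e3 : 1 ≤ s * Q := by
      rw [div_le_iff₀ hs] at hQ
      linarith [mul_comm (Q : ℝ) s]
    have e4 : (k : ℝ) * 1 ≤ k * (s * Q) := mul_le_mul_of_nonneg_left e3 hkr.le
    have e5 : (k : ℝ) * (s * Q) = s * (k * Q) := by ring
    have e6 : s * ((k : ℝ) * Q) ≤ s * M := mul_le_mul_of_nonneg_left e1 hs.le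
    nlinarith
  have c2 : (p : ℝ) / (4 * k) ≤ 5 * Q := by
    rw [div_le_iff₀ (by positivity)]
    have e1 : (M : ℝ) ≤ 2 * Q * k := by exact_mod_cast hMk
    have e2 : (p : ℝ) ≤ 10 * M := by exact_mod_cast h10
    nlinarith
  have c3 : s / (100 * (Q : ℝ) ^ 2) * ((p : ℝ) / (4 * k)) ^ 2 ≤ s / 4 := by
    have e1 : ((p : ℝ) / (4 * k)) ^ 2 ≤ (5 * Q) ^ 2 := pow_le_pow_left₀ (by positivity) c2 2
    calc s / (100 * (Q : ℝ) ^ 2) * ((p : ℝ) / (4 * k)) ^ 2 ≤
        s / (100 * (Q : ℝ) ^ 2) * (5 * Q) ^ 2 := mul_le_mul_of_nonneg_left e1 (by positivity)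
      _ = s / 4 := by field_simp; ring
  linarith
where
  FA_cast_pos (p : ℕ) (hp : p.Prime) : (0 : ℝ) < p := by exact_mod_cast hp.pos

end Pool.Agent.Lib.TwinAll
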