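import Pool.Agent.Lib.TwinAll.H1_8

/-!
THEOREM A (MP_c6d112_nt): module H2, product Fejér kernels on `ZMod p`.
-/

set_option autoImplicit false

namespace Pool.Agent.Lib.TwinAll

open Finset

namespace H2M

open H1M

variable {p : ℕ} [NeZero p]

/-- `b` is the trigonometric polynomial with real coefficients `c` -/
def Rep (b c : ZMod p → ℝ) : Prop :=
  ∀ x, (b x : ℂ) = ∑ ξ, (c ξ : ℂ) * (ch (ξ * x))

theorem Rep.coeff {b c : ZMod p → ℝ} (h : Rep b c) (η : ZMod p) :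
    (∑ x, (b x : ℂ) * (ch (-(η * x)))) = (p : ℂ) * (c η : ℂ) := by
  have h1 : ∀ x, (b x : ℂ) * (ch (-(η * x))) =
      ∑ ξ, (c ξ : ℂ) * (ch (x * (ξ - η))) := by
    intro x
    rw [h x, Finset.sum_mul]
    refine Finset.sum_congr rfl fun ξ _ => ?_
    rw [mul_assoc, ← ch_add]
    congr 2
    ring_nf
  simp_rw [h1]
  rw [Finset.sum_comm]
  simp_rw [← Finset.mul_sum, sum_ch]
  rw [Finset.sum_eq_single η]
  · rw [sub_self, if_pos rfl]; ring
  · intro y _ hy
    rw [if_neg (sub_ne_zero.2 hy), mul_zero]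
  · intro h; exact absurd (Finset.mem_univ η) h

theorem Rep.sum {b c : ZMod p → ℝ} (h : Rep b c) : ∑ x, b x = p * c 0 := by
  have h1 := h.coeff 0
  simp only [zero_mul, neg_zero, ch_zero, mul_one] at h1
  exact_mod_cast h1

theorem Rep.mul {b c b' c' : ZMod p → ℝ} (h : Rep b c) (h' : Rep b' c') :
    Rep (fun x => b x * b' x) (fun η => ∑ ξ, c ξ * c' (η - ξ)) := by
  intro x
  push_cast
  rw [h x, h' x, Finset.sum_mul_sum]
  simp_rw [Finset.sum_mul]
  rw [Finset.sum_comm (s := univ) (t := univ) (f := fun η ξ =>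
    (c ξ : ℂ) * (c' (η - ξ) : ℂ) * (ch (η * x)))]
  refine Finset.sum_congr rfl fun ξ _ => ?_
  rw [← Equiv.sum_comp (Equiv.addLeft ξ) (fun η =>
    (c ξ : ℂ) * (c' (η - ξ) : ℂ) * (ch (η * x)))]
  refine Finset.sum_congr rfl fun η _ => ?_
  simp only [Equiv.coe_addLeft, add_sub_cancel_left]
  rw [add_mul, ch_add]
  ring

theorem Rep.smul {b c : ZMod p → ℝ} (h : Rep b c) (r : ℝ) :
    Rep (fun x => r * b x) (fun ξ => r * c ξ) := by
  intro x
  push_cast
  rw [h x, Finset.mul_sum]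
  exact Finset.sum_congr rfl fun ξ _ => by ring

/-- Dirichlet sum -/
noncomputable def dir (K : ℕ) (y : ZMod p) : ℂ :=
  ∑ j ∈ range (K + 1), (ch ((j : ZMod p) * y))

/-- Fejér kernel -/
noncomputable def fej (K : ℕ) (y : ZMod p) : ℝ := ‖dir K y‖ ^ 2 / ((K : ℝ) + 1)

/-- coefficients of `x ↦ fej K (s x)` -/
noncomputable def fejc (K : ℕ) (s ξ : ZMod p) : ℝ :=
  ∑ i ∈ range (K + 1), ∑ j ∈ range (K + 1),
    if ((i : ZMod p) - j) * s = ξ then 1 / ((K : ℝ) + 1) else 0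

theorem fej_nonneg (K : ℕ) (y : ZMod p) : 0 ≤ fej K y := by unfold fej; positivity

omit [NeZero p] in
theorem fejc_nonneg (K : ℕ) (s ξ : ZMod p) : 0 ≤ fejc K s ξ := by
  unfold fejc
  refine Finset.sum_nonneg fun i _ => Finset.sum_nonneg fun j _ => ?_
  split_ifs <;> positivity

omit [NeZero p] in
theorem fejc_zero (K : ℕ) (s : ZMod p) : 1 ≤ fejc K s 0 := by
  unfold fejc
  have h1 : ∀ i ∈ range (K + 1), 1 / ((K : ℝ) + 1) ≤ ∑ j ∈ range (K + 1),
      if ((i : ZMod p) - j) * s = 0 then 1 / ((K : ℝ) + 1) else 0 := by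
    intro i hi
    calc 1 / ((K : ℝ) + 1) = if ((i : ZMod p) - i) * s = 0 then 1 / ((K : ℝ) + 1) else 0 := by
          rw [sub_self, zero_mul, if_pos rfl]
      _ ≤ _ := by
          refine Finset.single_le_sum (f := fun j : ℕ =>
            if ((i : ZMod p) - j) * s = 0 then 1 / ((K : ℝ) + 1) else 0) ?_ hi
          intro j _
          split_ifs <;> positivity
  calc (1 : ℝ) = ∑ _i ∈ range (K + 1), 1 / ((K : ℝ) + 1) := by
        rw [Finset.sum_const, card_range, nsmul_eq_mul]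
        have : (K : ℝ) + 1 ≠ 0 := by positivity
        push_cast
        field_simp
    _ ≤ _ := Finset.sum_le_sum h1

theorem rep_fej (K : ℕ) (s : ZMod p) : Rep (fun x => fej K (s * x)) (fejc K s) := by
  intro x
  unfold fej fejc dir
  have h0 : (K : ℂ) + 1 ≠ 0 := by exact_mod_cast Nat.succ_ne_zero K
  have h1 : ((‖∑ j ∈ range (K + 1), (ch ((j : ZMod p) * (s * x)))‖ ^ 2 : ℝ) : ℂ) =
      ∑ i ∈ range (K + 1), ∑ j ∈ range (K + 1),
        (ch ((((i : ZMod p) - (j : ZMod p)) * s) * x)) := by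
    rw [← Complex.normSq_eq_norm_sq, ← Complex.mul_conj, map_sum, Finset.sum_mul_sum]
    refine Finset.sum_congr rfl fun i _ => Finset.sum_congr rfl fun j _ => ?_
    rw [conj_ch, ← ch_add]
    congr 1
    ring_nf
  have h2 : ∑ ξ : ZMod p, ((∑ i ∈ range (K + 1), ∑ j ∈ range (K + 1),
      if ((i : ZMod p) - (j : ZMod p)) * s = ξ then 1 / ((K : ℝ) + 1) else 0 : ℝ) : ℂ) *
        (ch (ξ * x)) = ∑ i ∈ range (K + 1), ∑ j ∈ range (K + 1),
        (ch ((((i : ZMod p) - (j : ZMod p)) * s) * x)) / ((K : ℂ) + 1) := by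
    push_cast
    simp_rw [Finset.sum_mul]
    rw [Finset.sum_comm]
    refine Finset.sum_congr rfl fun i _ => ?_
    rw [Finset.sum_comm]
    refine Finset.sum_congr rfl fun j _ => ?_
    rw [Finset.sum_eq_single (((i : ZMod p) - j) * s)]
    · rw [if_pos rfl]; push_cast; ring
    · intro ξ _ hξ
      rw [if_neg (Ne.symm hξ)]; simp
    · intro h; exact absurd (Finset.mem_univ _) h
  rw [h2]
  push_cast at h1 ⊢
  rw [h1, Finset.sum_div]
  exact Finset.sum_congr rfl fun i _ => Finset.sum_div _ _ _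

theorem fej_mul_le (K : ℕ) (y : ZMod p) :
    fej K y * (1 - (ch y).re) ≤ 2 / ((K : ℝ) + 1) := by
  have hK : (0 : ℝ) < (K : ℝ) + 1 := by positivity
  have h1 : dir K y * (1 - (ch y)) = 1 - (ch (((K + 1 : ℕ) : ZMod p) * y)) := by
    have h2 : ∀ j : ℕ, (ch ((j : ZMod p) * y)) = (ch y) ^ j := by
      intro j
      unfold ch; rw [← nsmul_eq_mul, AddChar.map_nsmul_eq_pow]
    unfold dir
    simp_rw [h2]
    have := geom_sum_mul_neg (ch y) (K + 1)
    exact this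
  have h3 : ‖dir K y‖ ^ 2 * (2 * (1 - (ch y).re)) ≤ 4 := by
    have h4 : ‖(1 : ℂ) - (ch y)‖ ^ 2 = 2 * (1 - (ch y).re) := by
      rw [← Complex.normSq_eq_norm_sq, Complex.normSq_sub, Complex.normSq_one,
        Complex.normSq_eq_norm_sq, norm_ch]
      simp
      ring
    rw [← h4, ← mul_pow, ← norm_mul, h1]
    have h5 : ‖(1 : ℂ) - (ch (((K + 1 : ℕ) : ZMod p) * y))‖ ≤ 2 := by
      refine (norm_sub_le _ _).trans ?_
      rw [norm_one, norm_ch]; norm_num
    calc ‖(1 : ℂ) - (ch (((K + 1 : ℕ) : ZMod p) * y))‖ ^ 2 ≤ 2 ^ 2 :=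
          pow_le_pow_left₀ (norm_nonneg _) h5 2
      _ = 4 := by norm_num
  unfold fej
  rw [div_mul_eq_mul_div, div_le_div_iff_of_pos_right hK]
  linarith

theorem fej_le (K : ℕ) (y : ZMod p) : fej K y ≤ (K : ℝ) + 1 := by
  have hK : (0 : ℝ) < (K : ℝ) + 1 := by positivity
  unfold fej
  rw [div_le_iff₀ hK, ← pow_two]
  refine pow_le_pow_left₀ (norm_nonneg _) ?_ 2
  unfold dir
  refine (norm_sum_le _ _).trans ?_
  simp_rw [norm_ch]
  simp

omit [NeZero p] in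
/-- support of the coefficients of one factor -/
theorem fejc_support (K : ℕ) (s ξ : ZMod p) (h : fejc K s ξ ≠ 0) :
    ∃ k ∈ Finset.Icc (-(K : ℤ)) K, ξ = (k : ZMod p) * s := by
  unfold fejc at h
  obtain ⟨i, hi, h1⟩ := Finset.exists_ne_zero_of_sum_ne_zero h
  obtain ⟨j, hj, h2⟩ := Finset.exists_ne_zero_of_sum_ne_zero h1
  rw [Finset.mem_range] at hi hj
  refine ⟨(i : ℤ) - j, ?_, ?_⟩
  · rw [Finset.mem_Icc]; omega
  · by_contra hcon
    apply h2
    rw [if_neg]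
    intro h3
    apply hcon
    rw [← h3]; push_cast; ring

/-- product kernel -/
noncomputable def pk (K : ℕ) (S : Finset (ZMod p)) (x : ZMod p) : ℝ := ∏ s ∈ S, fej K (s * x)

theorem pk_nonneg (K : ℕ) (S : Finset (ZMod p)) (x : ZMod p) : 0 ≤ pk K S x :=
  Finset.prod_nonneg fun _ _ => fej_nonneg _ _

theorem pk_le (K : ℕ) (S : Finset (ZMod p)) (x : ZMod p) : pk K S x ≤ ((K : ℝ) + 1) ^ S.card := by
  unfold pk
  calc ∏ s ∈ S, fej K (s * x) ≤ ∏ _s ∈ S, ((K : ℝ) + 1) :=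
        Finset.prod_le_prod (fun _ _ => fej_nonneg _ _) fun _ _ => fej_le _ _
    _ = _ := by rw [Finset.prod_const]

theorem rep_one : Rep (fun _ : ZMod p => (1 : ℝ)) (fun ξ => if ξ = 0 then 1 else 0) := by
  intro x
  rw [Finset.sum_eq_single 0]
  · simp [ch_zero]
  · intro b _ hb; simp [hb]
  · intro h; exact absurd (Finset.mem_univ _) h

/-- the product kernel is a positive definite trigonometric polynomial -/
theorem pk_rep (K : ℕ) (S : Finset (ZMod p)) :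
    ∃ (c : ZMod p → ℝ) (T : Finset (ZMod p)), Rep (pk K S) c ∧ (∀ ξ, 0 ≤ c ξ) ∧ 1 ≤ c 0 ∧
      (∀ ξ, c ξ ≠ 0 → ξ ∈ T) ∧ T.card ≤ (2 * K + 1) ^ S.card := by
  classical
  induction S using Finset.induction_on with
  | empty =>
    refine ⟨fun ξ => if ξ = 0 then 1 else 0, {0}, ?_, ?_, ?_, ?_, ?_⟩
    · have : pk K (∅ : Finset (ZMod p)) = fun _ => 1 := by
        funext x; simp [pk]
      rw [this]; exact rep_one
    · intro ξ; dsimp only; split_ifs <;> norm_num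
    · simp
    · intro ξ h
      by_contra hcon
      rw [Finset.mem_singleton] at hcon
      exact h (if_neg hcon)
    · simp
  | insert s S hs ih =>
    obtain ⟨c, T, h1, h2, h3, h4, h5⟩ := ih
    have e1 : pk K (insert s S) = fun x => fej K (s * x) * pk K S x := by
      funext x; unfold pk; rw [Finset.prod_insert hs]
    refine ⟨fun η => ∑ ξ, fejc K s ξ * c (η - ξ),
      (Finset.Icc (-(K : ℤ)) K ×ˢ T).image (fun q => (q.1 : ZMod p) * s + q.2), ?_, ?_, ?_, ?_, ?_⟩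
    · rw [e1]; exact (rep_fej K s).mul h1
    · intro η
      exact Finset.sum_nonneg fun ξ _ => mul_nonneg (fejc_nonneg _ _ _) (h2 _)
    · calc (1 : ℝ) ≤ fejc K s 0 * c (0 - 0) := by
            rw [sub_zero]; exact one_le_mul_of_one_le_of_one_le (fejc_zero K s) h3
        _ ≤ _ := Finset.single_le_sum (f := fun ξ => fejc K s ξ * c (0 - ξ))
            (fun ξ _ => mul_nonneg (fejc_nonneg _ _ _) (h2 _)) (Finset.mem_univ 0)
    · intro η hη
      obtain ⟨ξ, _, hξ⟩ := Finset.exists_ne_zero_of_sum_ne_zero hη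
      obtain ⟨k, hk, hk2⟩ := fejc_support K s ξ (left_ne_zero_of_mul hξ)
      rw [Finset.mem_image]
      refine ⟨(k, η - ξ), ?_, ?_⟩
      · rw [Finset.mem_product]; exact ⟨hk, h4 _ (right_ne_zero_of_mul hξ)⟩
      · rw [← hk2]; ring
    · refine Finset.card_image_le.trans ?_
      rw [Finset.card_product, Finset.card_insert_of_notMem hs, pow_succ, mul_comm]
      refine Nat.mul_le_mul h5 ?_
      rw [Int.card_Icc]
      omega

theorem sum_pk_erase_le (K : ℕ) (S : Finset (ZMod p)) (s : ZMod p) (hs : s ∈ S) :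
    ∑ x, pk K (S.erase s) x ≤ ∑ x, pk K S x := by
  classical
  obtain ⟨c, T, h1, h2, h3, h4, h5⟩ := pk_rep K (S.erase s)
  have e1 : pk K S = fun x => fej K (s * x) * pk K (S.erase s) x := by
    funext x
    unfold pk
    rw [Finset.mul_prod_erase S (fun s => fej K (s * x)) hs]
  have h6 := ((rep_fej K s).mul h1).sum
  rw [e1, h6, h1.sum]
  refine mul_le_mul_of_nonneg_left ?_ (Nat.cast_nonneg _)
  calc c 0 ≤ fejc K s 0 * c (0 - 0) := by
        rw [sub_zero]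
        exact le_mul_of_one_le_left (h2 0) (fejc_zero K s)
    _ ≤ _ := Finset.single_le_sum (f := fun ξ => fejc K s ξ * c (0 - ξ))
        (fun ξ _ => mul_nonneg (fejc_nonneg _ _ _) (h2 _)) (Finset.mem_univ 0)

/-- concentration of the product kernel on the Bohr set of `S` -/
theorem sum_pk_mul_le (K : ℕ) (S : Finset (ZMod p)) (s : ZMod p) (hs : s ∈ S) :
    ∑ x, pk K S x * (1 - (ch (s * x)).re) ≤ 2 / ((K : ℝ) + 1) * ∑ x, pk K S x := by
  classical
  have hK : (0 : ℝ) ≤ 2 / ((K : ℝ) + 1) := by positivity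
  refine le_trans ?_ (mul_le_mul_of_nonneg_left (sum_pk_erase_le K S s hs) hK)
  rw [Finset.mul_sum]
  refine Finset.sum_le_sum fun x _ => ?_
  have e1 : pk K S x = pk K (S.erase s) x * fej K (s * x) := by
    unfold pk
    rw [Finset.prod_erase_mul S (fun s => fej K (s * x)) hs]
  rw [e1, mul_assoc, mul_comm]
  exact mul_le_mul_of_nonneg_right (fej_mul_le K (s * x)) (pk_nonneg _ _ _)

/-- normalised product kernel: existence with all properties -/
theorem exists_kernel (K : ℕ) (S : Finset (ZMod p)) :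
    ∃ (b c : ZMod p → ℝ) (T : Finset (ZMod p)), Rep b c ∧ (∀ x, 0 ≤ b x) ∧ (∀ ξ, 0 ≤ c ξ) ∧
      c 0 = 1 ∧ (∀ ξ, c ξ ≤ 1) ∧ (∀ x, b x ≤ ((K : ℝ) + 1) ^ S.card) ∧
      (∀ ξ, c ξ ≠ 0 → ξ ∈ T) ∧ T.card ≤ (2 * K + 1) ^ S.card ∧
      ∑ x, b x = p ∧
      (∀ s ∈ S, ∑ x, b x * (1 - (ch (s * x)).re) ≤ 2 / ((K : ℝ) + 1) * p) ∧
      (∀ s ∈ S, 1 - c s ≤ 2 / ((K : ℝ) + 1)) := by
  have hp : (0 : ℝ) < p := by exact_mod_cast NeZero.pos p
  obtain ⟨c, T, h1, h2, h3, h4, h5⟩ := pk_rep K S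
  have hc0 : 0 < c 0 := lt_of_lt_of_le one_pos h3
  have hinv : (c 0)⁻¹ ≤ 1 := inv_le_one_of_one_le₀ h3
  have hrep := h1.smul (c 0)⁻¹
  have hsum : ∑ x, pk K S x = p * c 0 := h1.sum
  have hb0 : ∀ x, 0 ≤ (c 0)⁻¹ * pk K S x := fun x =>
    mul_nonneg (inv_nonneg.2 hc0.le) (pk_nonneg _ _ _)
  have hsum1 : ∑ x, (c 0)⁻¹ * pk K S x = p := by
    rw [← Finset.mul_sum, hsum, mul_comm, mul_assoc, mul_inv_cancel₀ hc0.ne', mul_one]
  have hre : ∀ ξ, ∑ x, ((c 0)⁻¹ * pk K S x) * (ch (ξ * x)).re =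
      p * ((c 0)⁻¹ * c ξ) := by
    intro ξ
    have h6 := congrArg Complex.re (hrep.coeff ξ)
    rw [Complex.re_sum] at h6
    have h7 : ∀ x, (((c 0)⁻¹ * pk K S x : ℝ) * (ch (-(ξ * x)))).re =
        ((c 0)⁻¹ * pk K S x) * (ch (ξ * x)).re := by
      intro x
      rw [← conj_ch, Complex.re_ofReal_mul, Complex.conj_re]
    simp_rw [h7] at h6
    rw [h6]
    norm_cast
  have hconc : ∀ s ∈ S, ∑ x, ((c 0)⁻¹ * pk K S x) * (1 - (ch (s * x)).re) ≤
      2 / ((K : ℝ) + 1) * p := by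
    intro s hs
    have h8 := mul_le_mul_of_nonneg_left (sum_pk_mul_le K S s hs) (inv_nonneg.2 hc0.le)
    rw [Finset.mul_sum] at h8
    calc _ = ∑ x, (c 0)⁻¹ * (pk K S x * (1 - (ch (s * x)).re)) :=
          Finset.sum_congr rfl fun x _ => by ring
      _ ≤ _ := h8
      _ = 2 / ((K : ℝ) + 1) * p := by
          rw [hsum]; field_simp
  refine ⟨fun x => (c 0)⁻¹ * pk K S x, fun ξ => (c 0)⁻¹ * c ξ, T, hrep, hb0, ?_, ?_, ?_, ?_, ?_,
    h5, hsum1, hconc, ?_⟩
  · intro ξ; exact mul_nonneg (inv_nonneg.2 hc0.le) (h2 _)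
  · exact inv_mul_cancel₀ hc0.ne'
  · intro ξ
    have h9 : (p : ℝ) * ((c 0)⁻¹ * c ξ) ≤ p * 1 := by
      rw [← hre ξ, mul_one, ← hsum1]
      refine Finset.sum_le_sum fun x _ => ?_
      have h10 : (ch (ξ * x)).re ≤ 1 := by
        refine (Complex.re_le_norm _).trans ?_
        rw [norm_ch]
      calc _ ≤ (c 0)⁻¹ * pk K S x * 1 := mul_le_mul_of_nonneg_left h10 (hb0 x)
        _ = _ := mul_one _
    exact le_of_mul_le_mul_left h9 hp
  · intro x
    calc (c 0)⁻¹ * pk K S x ≤ 1 * pk K S x := mul_le_mul_of_nonneg_right hinv (pk_nonneg _ _ _)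
      _ ≤ _ := by rw [one_mul]; exact pk_le _ _ _
  · intro ξ h
    exact h4 ξ (right_ne_zero_of_mul h)
  · intro s hs
    have h11 := hconc s hs
    have h12 : ∑ x, ((c 0)⁻¹ * pk K S x) * (1 - (ch (s * x)).re) =
        p * (1 - (c 0)⁻¹ * c s) := by
      simp_rw [mul_sub, Finset.sum_sub_distrib]
      rw [hre s]
      simp_rw [mul_one]
      rw [hsum1]
    rw [h12, mul_comm] at h11
    exact le_of_mul_le_mul_right h11 hp

theorem Rep.symm {b c : ZMod p → ℝ} (h : Rep b c) (ζ : ZMod p) : c (-ζ) = c ζ := by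
  have hp : (p : ℂ) ≠ 0 := by exact_mod_cast (NeZero.ne p)
  have h1 := h.coeff ζ
  have h2 := h.coeff (-ζ)
  have h3 : (starRingEnd ℂ) (∑ x, (b x : ℂ) * (ch (-(ζ * x)))) =
      ∑ x, (b x : ℂ) * (ch (-(-ζ * x))) := by
    rw [map_sum]
    refine Finset.sum_congr rfl fun x _ => ?_
    rw [map_mul (starRingEnd ℂ), Complex.conj_ofReal, conj_ch]
    congr 2
    ring
  rw [h1, h2, map_mul (starRingEnd ℂ), Complex.conj_natCast, Complex.conj_ofReal] at h3
  have h4 := mul_left_cancel₀ hp h3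
  exact_mod_cast h4.symm

theorem norm_ch_sub_one_sq (x : ZMod p) : ‖ch x - 1‖ ^ 2 = 2 * (1 - (ch x).re) := by
  rw [norm_sub_rev, ← Complex.normSq_eq_norm_sq, Complex.normSq_sub, Complex.normSq_one,
    Complex.normSq_eq_norm_sq, norm_ch]
  simp
  ring

end H2M

open H1M H2M in
theorem H2 : H2Stmt := by
  intro J η hη
  obtain ⟨K, hK⟩ := exists_nat_gt (4 / η)
  have hK0 : (0 : ℝ) < K := lt_trans (by positivity) hK
  refine ⟨(2 * K + 1) ^ J, ?_⟩
  intro p _ S hS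
  have hp : (0 : ℝ) < p := by exact_mod_cast NeZero.pos p
  obtain ⟨b, c, T, h1, h2, h3, h4, h5, h6, h7, h8, h9, h10, h11⟩ := exists_kernel K S
  refine ⟨b, c, ⟨h2, h1, fun ζ => ⟨h3 ζ, h5 ζ⟩, h4, h1.symm, ?_⟩, ?_⟩
  · calc (Finset.univ.filter (fun ζ => c ζ ≠ 0)).card ≤ T.card := by
          refine Finset.card_le_card fun ζ hζ => ?_
          rw [Finset.mem_filter] at hζ
          exact h7 ζ hζ.2
      _ ≤ (2 * K + 1) ^ S.card := h8
      _ ≤ (2 * K + 1) ^ J := Nat.pow_le_pow_right (by omega) hS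
  · intro ξ hξ
    have h12 := h10 ξ hξ
    unfold meanR
    rw [div_le_iff₀ hp]
    have h13 : ∑ x, b x * ‖ch (ξ * x) - 1‖ ^ 2 = 2 * ∑ x, b x * (1 - (ch (ξ * x)).re) := by
      rw [Finset.mul_sum]
      refine Finset.sum_congr rfl fun x _ => ?_
      rw [norm_ch_sub_one_sq]; ring
    rw [h13]
    have h14 : 2 * (2 / ((K : ℝ) + 1)) ≤ η := by
      rw [div_lt_iff₀ hη] at hK
      rw [← mul_div_assoc, div_le_iff₀ (by positivity)]
      nlinarith
    calc 2 * ∑ x, b x * (1 - (ch (ξ * x)).re) ≤ 2 * (2 / ((K : ℝ) + 1) * p) := by linarith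
      _ = 2 * (2 / ((K : ℝ) + 1)) * p := by ring
      _ ≤ η * p := mul_le_mul_of_nonneg_right h14 hp.le

end Pool.Agent.Lib.TwinAll
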