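import Mathlib
import Pool.Agent.Lib.TwinAll.Defs
import Pool.Agent.Lib.TwinAll.Four73
import Pool.Agent.Lib.TwinAll.Stmts

/-!
THEOREM A (MP_c6d112_nt), module H3: energy increment with kernels.
-/

set_option autoImplicit false

namespace Pool.Agent.Lib.TwinAll

open Finset

/-- the hypotheses of `H3Stmt` -/
structure HypH3 {p : ℕ} [NeZero p] (ε0 : ℝ) (ν : ZMod p → ℝ) (A : Fin 3 → ZMod p → ℝ) : Prop where
  hft : ∀ ξ, ξ ≠ 0 → ‖ft (fun x => (ν x : ℂ)) ξ‖ ≤ ε0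
  hmean : |meanR ν - 1| ≤ ε0
  le : ∀ j x, 0 ≤ A j x ∧ A j x ≤ ν x

section group

variable {p : ℕ} [NeZero p]

theorem HypH3.mono {ε0 ε1 : ℝ} {ν : ZMod p → ℝ} {A : Fin 3 → ZMod p → ℝ} (h : HypH3 ε0 ν A)
    (hε : ε0 ≤ ε1) : HypH3 ε1 ν A :=
  ⟨fun ξ hξ => (h.hft ξ hξ).trans hε, h.hmean.trans hε, h.le⟩

theorem HypH3.nu_nonneg {ε0 : ℝ} {ν : ZMod p → ℝ} {A : Fin 3 → ZMod p → ℝ} (h : HypH3 ε0 ν A)
    (x : ZMod p) : 0 ≤ ν x := (h.le 0 x).1.trans (h.le 0 x).2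

theorem HypH3.mean_le {ε0 : ℝ} {ν : ZMod p → ℝ} {A : Fin 3 → ZMod p → ℝ} (h : HypH3 ε0 ν A) :
    meanR ν ≤ 1 + ε0 := by
  have := (abs_le.1 h.hmean).2
  linarith

theorem HypH3.eps_nonneg {ε0 : ℝ} {ν : ZMod p → ℝ} {A : Fin 3 → ZMod p → ℝ} (h : HypH3 ε0 ν A) :
    0 ≤ ε0 := (abs_nonneg _).trans h.hmean

/-- all Fourier coefficients of `ν` -/
theorem HypH3.ft_le {ε0 : ℝ} {ν : ZMod p → ℝ} {A : Fin 3 → ZMod p → ℝ} (h : HypH3 ε0 ν A)
    (ξ : ZMod p) : ‖ft (fun x => (ν x : ℂ)) ξ‖ ≤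
      (if ξ = 0 then 1 else 0) + ε0 := by
  by_cases h0 : ξ = 0
  · rw [if_pos h0, h0, ft_zero_eq, ← ofReal_meanR, Complex.norm_real, Real.norm_eq_abs,
      abs_of_nonneg (meanR_nonneg _ h.nu_nonneg)]
    exact h.mean_le
  · rw [if_neg h0, zero_add]
    exact h.hft ξ h0

theorem HypH3.ftA_le {ε0 : ℝ} {ν : ZMod p → ℝ} {A : Fin 3 → ZMod p → ℝ} (h : HypH3 ε0 ν A)
    (h1 : ε0 ≤ 1) (j : Fin 3) (ξ : ZMod p) :
    ‖ft (fun x => (A j x : ℂ)) ξ‖ ≤ 2 := by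
  refine (norm_ft_le _ _).trans ?_
  have h2 : meanR (fun x => ‖(A j x : ℂ)‖) ≤ meanR ν := by
    refine meanR_mono _ _ fun x => ?_
    rw [Complex.norm_real, Real.norm_eq_abs, abs_of_nonneg (h.le j x).1]
    exact (h.le j x).2
  have := h.mean_le
  linarith

/-- convolutions with a kernel of bounded complexity are bounded by 2 -/
theorem HypH3.conv_le {ε0 : ℝ} {ν : ZMod p → ℝ} {A : Fin 3 → ZMod p → ℝ} (h : HypH3 ε0 ν A)
    {K : ℕ} {b c : ZMod p → ℝ} (hb : Kernel K b c) (hK : ε0 * (K + 1) ≤ 1) (j : Fin 3)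
    (x : ZMod p) : ‖conv (fun x => (A j x : ℂ)) b x‖ ≤ 2 := by
  have h1 : ‖conv (fun x => (A j x : ℂ)) b x‖ ≤ meanR (fun y => ν (x - y) * b y) := by
    unfold conv
    refine (norm_mean_le _).trans (meanR_mono _ _ fun y => ?_)
    rw [norm_mul, Complex.norm_real, Complex.norm_real, Real.norm_eq_abs, Real.norm_eq_abs,
      abs_of_nonneg (h.le j _).1, abs_of_nonneg (hb.nonneg y)]
    exact mul_le_mul_of_nonneg_right (h.le j _).2 (hb.nonneg y)
  have h2 : ((meanR (fun y => ν (x - y) * b y) : ℝ) : ℂ) = conv (fun x => (ν x : ℂ)) b x := by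
    rw [ofReal_meanR]
    unfold conv
    congr 1
    funext y
    push_cast
    rfl
  have h3 : meanR (fun y => ν (x - y) * b y) ≤ ‖conv (fun x => (ν x : ℂ)) b x‖ := by
    rw [← h2, Complex.norm_real]
    exact Real.le_norm_self _
  have h4 : ‖conv (fun x => (ν x : ℂ)) b x‖ ≤ ∑ ξ, ((if ξ = 0 then 1 else 0) +
      if c ξ ≠ 0 then ε0 else 0) := by
    rw [hb.conv_expand]
    refine (norm_sum_le _ _).trans (sum_le_sum fun ξ _ => ?_)
    rw [norm_mul, norm_mul, norm_ch, mul_one, Complex.norm_real, Real.norm_eq_abs,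
      abs_of_nonneg (hb.coeff ξ).1]
    by_cases hc : c ξ = 0
    · rw [hc, mul_zero, if_neg (not_not.2 rfl), add_zero]
      split_ifs <;> norm_num
    · rw [if_pos hc]
      calc ‖ft (fun x => (ν x : ℂ)) ξ‖ * c ξ
          ≤ ((if ξ = 0 then 1 else 0) + ε0) * 1 := by
            refine mul_le_mul (h.ft_le ξ) (hb.coeff ξ).2 (hb.coeff ξ).1 ?_
            have := h.eps_nonneg
            split_ifs <;> linarith
        _ = _ := mul_one _
  have h5 : ∑ ξ, ((if ξ = 0 then (1 : ℝ) else 0) + if c ξ ≠ 0 then ε0 else 0) ≤ 1 + K * ε0 := by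
    rw [sum_add_distrib, sum_ite_eq' univ (0 : ZMod p) (fun _ => (1 : ℝ)), if_pos (mem_univ _),
      ← sum_filter, sum_const, nsmul_eq_mul]
    have h6 : (((univ.filter (fun ζ => c ζ ≠ 0)).card : ℕ) : ℝ) ≤ K := by exact_mod_cast hb.supp
    have h7 := mul_le_mul_of_nonneg_right h6 h.eps_nonneg
    linarith
  have h6 := h.eps_nonneg
  nlinarith

/-- the large spectrum of a function below `ν` -/
theorem HypH3.spec {ε0 : ℝ} {ν : ZMod p → ℝ} {A : Fin 3 → ZMod p → ℝ} (h : HypH3 ε0 ν A)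
    (τ : ℝ) (hτ : 0 < τ) (h1 : ε0 ≤ 1) (h2 : ε0 ≤ τ ^ 2 / 4) (j : Fin 3) :
    ((univ.filter (fun ξ => τ < ‖ft (fun x => (A j x : ℂ)) ξ‖)).card : ℝ)
      ≤ 8 / τ ^ 2 := by
  classical
  obtain ⟨T, hT⟩ : ∃ T : Finset (ZMod p), T = univ.filter (fun ξ =>
    τ < ‖ft (fun x => (A j x : ℂ)) ξ‖) := ⟨_, rfl⟩
  rw [← hT]
  have hTm : ∀ ξ ∈ T, τ < ‖ft (fun x => (A j x : ℂ)) ξ‖ := fun ξ hξ => by
    rw [hT, mem_filter] at hξ
    exact hξ.2
  obtain ⟨n, hn⟩ : ∃ n : ℝ, n = (T.card : ℝ) := ⟨_, rfl⟩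
  have hn0 : 0 ≤ n := by rw [hn]; exact Nat.cast_nonneg _
  rw [← hn]
  -- unimodular coefficients
  obtain ⟨a, ha⟩ : ∃ a : ZMod p → ℂ, a = ft (fun x => (A j x : ℂ)) :=
    ⟨_, rfl⟩
  rw [← ha] at hTm
  obtain ⟨s, hs⟩ : ∃ s : ZMod p → ℂ, s = fun ξ => (starRingEnd ℂ) (a ξ) / ‖a ξ‖ := ⟨_, rfl⟩
  have hs1 : ∀ ξ ∈ T, ‖s ξ‖ = 1 := fun ξ hξ => by
    have : 0 < ‖a ξ‖ := hτ.trans (hTm ξ hξ)
    rw [hs]
    simp only
    rw [norm_div, RCLike.norm_conj, Complex.norm_real, norm_norm]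
    exact div_self this.ne'
  have hs2 : ∀ ξ ∈ T, s ξ * a ξ = (‖a ξ‖ : ℂ) := fun ξ hξ => by
    have h3 : 0 < ‖a ξ‖ := hτ.trans (hTm ξ hξ)
    have h4 : ((‖a ξ‖ : ℝ) : ℂ) ≠ 0 := Complex.ofReal_ne_zero.2 h3.ne'
    rw [hs]
    simp only
    rw [div_mul_eq_mul_div, ← Complex.normSq_eq_conj_mul_self, Complex.normSq_eq_norm_sq]
    field_simp
    push_cast
    ring
  obtain ⟨g, hg⟩ : ∃ g : ZMod p → ℂ, g = fun x => ∑ ξ ∈ T, s ξ * ch (-(ξ * x)) := ⟨_, rfl⟩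
  -- lower bound for the correlation
  have k1 : (n * τ) ≤ meanR (fun x => ν x * ‖g x‖) := by
    have e1 : mean (fun x => (A j x : ℂ) * g x) = ((∑ ξ ∈ T, ‖a ξ‖ : ℝ) : ℂ) := by
      have e2 : (fun x => (A j x : ℂ) * g x) = fun x =>
          ∑ ξ ∈ T, s ξ * ((A j x : ℂ) * ch (-(ξ * x))) := by
        funext x
        rw [hg]
        simp only
        rw [mul_sum]
        refine sum_congr rfl fun ξ _ => ?_
        ring
      rw [e2, mean_sum, Complex.ofReal_sum]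
      refine sum_congr rfl fun ξ hξ => ?_
      rw [mean_mul_left, ← hs2 ξ hξ, ha]
      rfl
    have e3 : n * τ ≤ ∑ ξ ∈ T, ‖a ξ‖ := by
      rw [hn, ← nsmul_eq_mul, ← sum_const]
      exact sum_le_sum fun ξ hξ => (hTm ξ hξ).le
    have e4 : ∑ ξ ∈ T, ‖a ξ‖ = ‖mean (fun x => (A j x : ℂ) * g x)‖ := by
      rw [e1, Complex.norm_real, Real.norm_eq_abs, abs_of_nonneg]
      exact sum_nonneg fun ξ _ => norm_nonneg _
    rw [e4] at e3
    refine e3.trans ((norm_mean_le _).trans (meanR_mono _ _ fun x => ?_))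
    rw [norm_mul, Complex.norm_real, Real.norm_eq_abs, abs_of_nonneg (h.le j x).1]
    exact mul_le_mul_of_nonneg_right (h.le j x).2 (norm_nonneg _)
  -- upper bound
  have k2 : meanR (fun x => ν x * ‖g x‖ ^ 2) ≤ n + n ^ 2 * ε0 := by
    have e1 : ((meanR (fun x => ν x * ‖g x‖ ^ 2) : ℝ) : ℂ) =
        ∑ ξ ∈ T, ∑ ξ' ∈ T, s ξ * (starRingEnd ℂ) (s ξ') *
          ft (fun x => (ν x : ℂ)) (ξ - ξ') := by
      rw [ofReal_meanR]
      have e2 : (fun x => ((ν x * ‖g x‖ ^ 2 : ℝ) : ℂ)) = fun x =>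
          ∑ ξ ∈ T, ∑ ξ' ∈ T, s ξ * (starRingEnd ℂ) (s ξ') *
            ((ν x : ℂ) * ch (-((ξ - ξ') * x))) := by
        funext x
        have e3 : ((‖g x‖ ^ 2 : ℝ) : ℂ) = g x * (starRingEnd ℂ) (g x) := by
          rw [Complex.mul_conj, Complex.normSq_eq_norm_sq]
        rw [Complex.ofReal_mul, e3, hg]
        simp only
        rw [map_sum, sum_mul_sum, mul_sum]
        refine sum_congr rfl fun ξ _ => ?_
        rw [mul_sum]
        refine sum_congr rfl fun ξ' _ => ?_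
        have e4 : ch (-((ξ - ξ') * x)) = ch (-(ξ * x)) * ch (ξ' * x) := by
          rw [← ch_add]
          congr 1
          ring
        rw [map_mul, conj_ch, neg_neg, e4]
        ring
      rw [e2, mean_sum]
      refine sum_congr rfl fun ξ _ => ?_
      rw [mean_sum]
      refine sum_congr rfl fun ξ' _ => ?_
      rw [mean_mul_left]
      rfl
    have e5 : meanR (fun x => ν x * ‖g x‖ ^ 2) ≤
        ‖((meanR (fun x => ν x * ‖g x‖ ^ 2) : ℝ) : ℂ)‖ := by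
      rw [Complex.norm_real]
      exact Real.le_norm_self _
    rw [e1] at e5
    refine e5.trans ?_
    have e6 : ∀ ξ ∈ T, ‖∑ ξ' ∈ T, s ξ * (starRingEnd ℂ) (s ξ') *
        ft (fun x => (ν x : ℂ)) (ξ - ξ')‖ ≤ 1 + n * ε0 := by
      intro ξ hξ
      refine (norm_sum_le _ _).trans ?_
      have e7 : ∀ ξ' ∈ T, ‖s ξ * (starRingEnd ℂ) (s ξ') *
          ft (fun x => (ν x : ℂ)) (ξ - ξ')‖ ≤
          (if ξ = ξ' then 1 else 0) + ε0 := by
        intro ξ' hξ'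
        rw [norm_mul, norm_mul, RCLike.norm_conj, hs1 ξ hξ, hs1 ξ' hξ', one_mul, one_mul]
        have := h.ft_le (ξ - ξ')
        simpa only [sub_eq_zero] using this
      refine (sum_le_sum e7).trans ?_
      rw [sum_add_distrib, sum_ite_eq T ξ (fun _ => (1 : ℝ)), if_pos hξ, sum_const, nsmul_eq_mul,
        ← hn]
    refine (norm_sum_le _ _).trans ((sum_le_sum e6).trans ?_)
    rw [sum_const, nsmul_eq_mul, ← hn]
    linarith [sq n]
  have k3 := mean_cs ν h.nu_nonneg g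
  have k4 : (n * τ) ^ 2 ≤ meanR (fun x => ν x * ‖g x‖) ^ 2 :=
    pow_le_pow_left₀ (by positivity) k1 2
  have k5 : meanR ν * meanR (fun x => ν x * ‖g x‖ ^ 2) ≤ 2 * (n + n ^ 2 * ε0) := by
    refine mul_le_mul (h.mean_le.trans (by linarith)) k2 (meanR_nonneg _ fun x =>
      mul_nonneg (h.nu_nonneg x) (by positivity)) (by norm_num)
  have k6 : (n * τ) ^ 2 ≤ 2 * n + n ^ 2 * τ ^ 2 / 2 := by
    have : n ^ 2 * ε0 ≤ n ^ 2 * (τ ^ 2 / 4) := mul_le_mul_of_nonneg_left h2 (by positivity)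
    linarith
  rw [le_div_iff₀ (by positivity)]
  rcases hn0.eq_or_lt with h0 | h0
  · rw [← h0]
    norm_num
  · have k7 : n * (n * τ ^ 2) ≤ n * 4 := by nlinarith
    have := le_of_mul_le_mul_left k7 h0
    linarith

/-- energy -/
noncomputable def en (A : Fin 3 → ZMod p → ℝ) (c : ZMod p → ℝ) : ℝ :=
  ∑ j, ∑ ξ, ‖ft (fun x => (A j x : ℂ)) ξ‖ ^ 2 * c ξ ^ 2

theorem en_nonneg (A : Fin 3 → ZMod p → ℝ) (c : ZMod p → ℝ) : 0 ≤ en A c :=
  sum_nonneg fun j _ => sum_nonneg fun ξ _ => by positivity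

theorem HypH3.en_le {ε0 : ℝ} {ν : ZMod p → ℝ} {A : Fin 3 → ZMod p → ℝ} (h : HypH3 ε0 ν A)
    {K : ℕ} {b c : ZMod p → ℝ} (hb : Kernel K b c) (hK : ε0 * (K + 1) ≤ 1) : en A c ≤ 12 := by
  unfold en
  have h1 : ∀ j ∈ (univ : Finset (Fin 3)),
      ∑ ξ, ‖ft (fun x => (A j x : ℂ)) ξ‖ ^ 2 * c ξ ^ 2 ≤ 4 := by
    intro j _
    have h2 := parseval (conv (fun x => (A j x : ℂ)) b)
    have h3 : meanR (fun x => ‖conv (fun x => (A j x : ℂ)) b x‖ ^ 2) ≤ 4 := by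
      rw [← meanR_const (p := p) 4]
      refine meanR_mono _ _ fun x => ?_
      have := h.conv_le hb hK j x
      nlinarith [norm_nonneg (conv (fun x => (A j x : ℂ)) b x)]
    rw [h2] at h3
    refine le_trans (le_of_eq ?_) h3
    refine sum_congr rfl fun ξ _ => ?_
    rw [hb.ft_conv, norm_mul, mul_pow, Complex.norm_real, Real.norm_eq_abs, sq_abs]
  refine (sum_le_sum h1).trans (le_of_eq ?_)
  norm_num

/-- the `L^2` distance of two convolutions -/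
theorem diff_conv {K K' : ℕ} {b c b' c' : ZMod p → ℝ} (hb : Kernel K b c)
    (hb' : Kernel K' b' c') (f : ZMod p → ℂ) :
    meanR (fun x => ‖conv f b x - conv f b' x‖ ^ 2) = ∑ ξ, ‖ft f ξ‖ ^ 2 * (c ξ - c' ξ) ^ 2 := by
  rw [parseval (fun x => conv f b x - conv f b' x)]
  refine sum_congr rfl fun ξ _ => ?_
  rw [ft_sub, hb.ft_conv, hb'.ft_conv, ← mul_sub, norm_mul, mul_pow, ← Complex.ofReal_sub,
    Complex.norm_real, Real.norm_eq_abs, sq_abs]

/-- energy increment -/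
theorem HypH3.incr {ε0 : ℝ} {ν : ZMod p → ℝ} {A : Fin 3 → ZMod p → ℝ} (h : HypH3 ε0 ν A)
    (h1 : ε0 ≤ 1) {K K' : ℕ} {b c b' c' : ZMod p → ℝ} (hb : Kernel K b c)
    (hb' : Kernel K' b' c') (η : ℝ) (hη : 0 ≤ η) (hc : ∀ ξ, c ξ ≠ 0 → 2 * (1 - c' ξ) ≤ η)
    (j : Fin 3) :
    meanR (fun x => ‖conv (fun x => (A j x : ℂ)) b x - conv (fun x => (A j x : ℂ)) b' x‖ ^ 2) ≤
      en A c' - en A c + 12 * K * η := by
  have k0 : ∀ (i : Fin 3) (ξ : ZMod p),
      ‖ft (fun x => (A i x : ℂ)) ξ‖ ^ 2 * (c ξ - c' ξ) ^ 2 ≤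
      ‖ft (fun x => (A i x : ℂ)) ξ‖ ^ 2 * c' ξ ^ 2 -
        ‖ft (fun x => (A i x : ℂ)) ξ‖ ^ 2 * c ξ ^ 2 +
        if c ξ ≠ 0 then 4 * η else 0 := by
    intro i ξ
    have e1 := (hb.coeff ξ).1
    have e2 := (hb.coeff ξ).2
    have e3 := (hb'.coeff ξ).1
    have e4 := (hb'.coeff ξ).2
    have e5 := h.ftA_le h1 i ξ
    have e6 := norm_nonneg (ft (fun x => (A i x : ℂ)) ξ)
    have e7 : ‖ft (fun x => (A i x : ℂ)) ξ‖ ^ 2 ≤ 4 := by nlinarith
    have e8 : 0 ≤ ‖ft (fun x => (A i x : ℂ)) ξ‖ ^ 2 := by positivity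
    by_cases h0 : c ξ = 0
    · rw [if_neg (by simpa using h0), h0]
      nlinarith
    · rw [if_pos h0]
      have e9 := hc ξ h0
      have e10 : (c ξ - c' ξ) ^ 2 ≤ c' ξ ^ 2 - c ξ ^ 2 + η := by nlinarith
      have e11 := mul_le_mul_of_nonneg_left e10 e8
      nlinarith
  have k1 : ∀ i : Fin 3, ∑ ξ, ‖ft (fun x => (A i x : ℂ)) ξ‖ ^ 2 *
      (c ξ - c' ξ) ^ 2 ≤
      ∑ ξ, ‖ft (fun x => (A i x : ℂ)) ξ‖ ^ 2 * c' ξ ^ 2 -
        ∑ ξ, ‖ft (fun x => (A i x : ℂ)) ξ‖ ^ 2 * c ξ ^ 2 +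
        4 * K * η := by
    intro i
    refine (sum_le_sum fun ξ _ => k0 i ξ).trans ?_
    rw [sum_add_distrib, sum_sub_distrib, ← sum_filter, sum_const, nsmul_eq_mul]
    have h6 : (((univ.filter (fun ζ => c ζ ≠ 0)).card : ℕ) : ℝ) ≤ K := by exact_mod_cast hb.supp
    have h7 := mul_le_mul_of_nonneg_right h6 (by positivity : (0 : ℝ) ≤ 4 * η)
    linarith
  rw [diff_conv hb hb']
  have k2 : ∑ ξ, ‖ft (fun x => (A j x : ℂ)) ξ‖ ^ 2 * (c ξ - c' ξ) ^ 2 ≤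
      ∑ i : Fin 3, ∑ ξ, ‖ft (fun x => (A i x : ℂ)) ξ‖ ^ 2 *
        (c ξ - c' ξ) ^ 2 :=
    single_le_sum (f := fun i : Fin 3 => ∑ ξ,
      ‖ft (fun x => (A i x : ℂ)) ξ‖ ^ 2 * (c ξ - c' ξ) ^ 2)
      (fun i _ => sum_nonneg fun ξ _ => by positivity) (mem_univ j)
  refine k2.trans ((sum_le_sum fun i _ => k1 i).trans (le_of_eq ?_))
  unfold en
  rw [sum_add_distrib, sum_sub_distrib, sum_const, card_univ, Fintype.card_fin, nsmul_eq_mul]
  push_cast
  ring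

end group

/-- the conclusion of `H3Stmt` -/
def ConcH3 {p : ℕ} [NeZero p] (ε : ℝ) (Φ : ℕ → ℝ) (Kmax : ℕ) (A : Fin 3 → ZMod p → ℝ) : Prop :=
  ∃ (K : ℕ) (b c b' c' : ZMod p → ℝ), K ≤ Kmax ∧ Kernel K b c ∧ Kernel Kmax b' c' ∧
    meanR (fun x => b x * ‖ch x - 1‖ ^ 2) ≤ ε ∧
    (∀ j, meanR (fun x => ‖conv (fun x => (A j x : ℂ)) b x -
      conv (fun x => (A j x : ℂ)) b' x‖ ^ 2) ≤ ε ^ 2) ∧
    (∀ j ξ, ‖ft (fun x => (A j x : ℂ) - conv (fun x => (A j x : ℂ)) b' x) ξ‖ ≤ Φ K) ∧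
    (∀ j x, ‖conv (fun x => (A j x : ℂ)) b x‖ ≤ 2 ∧ ‖conv (fun x => (A j x : ℂ)) b' x‖ ≤ 2)

theorem ConcH3.mono {p : ℕ} [NeZero p] {ε : ℝ} {Φ : ℕ → ℝ} {K K' : ℕ}
    {A : Fin 3 → ZMod p → ℝ} (h : ConcH3 ε Φ K A) (hK : K ≤ K') : ConcH3 ε Φ K' A := by
  obtain ⟨k, b, c, b', c', h1, h2, h3, h4⟩ := h
  exact ⟨k, b, c, b', c', h1.trans hK, h2, h3.mono hK, h4⟩

theorem H3 (h2 : H2Stmt) : H3Stmt := by
  classical
  intro ε hε Φ hΦ
  choose KH hKH using h2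
  -- parameters of one step
  obtain ⟨η, hη⟩ : ∃ η : ℕ → ℝ, η = fun K => min (min (Φ K) ε) (ε ^ 2 / (24 * (K + 1))) :=
    ⟨_, rfl⟩
  have hη0 : ∀ K, 0 < η K := fun K => by
    rw [hη]
    have := hΦ K
    simp only [lt_min_iff]
    exact ⟨⟨this, hε⟩, by positivity⟩
  obtain ⟨J, hJ⟩ : ∃ J : ℕ → ℕ, J = fun K => 1 + K + 3 * ⌈8 / Φ K ^ 2⌉₊ := ⟨_, rfl⟩
  obtain ⟨κ, hκ0, hκ1⟩ : ∃ κ : ℕ → ℕ, κ 0 = KH 1 ε hε ∧
      ∀ i, κ (i + 1) = max (κ i) (KH (J (κ i)) (η (κ i)) (hη0 _)) :=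
    ⟨fun i => Nat.rec (KH 1 ε hε) (fun _ k => max k (KH (J k) (η k) (hη0 _))) i, rfl,
      fun i => rfl⟩
  -- the main claim
  have claim : ∀ m : ℕ, ∃ ε0 : ℝ, 0 < ε0 ∧ ε0 * (κ m + 1) ≤ 1 ∧ ∀ (p : ℕ) [NeZero p]
      (ν : ZMod p → ℝ) (A : Fin 3 → ZMod p → ℝ), HypH3 ε0 ν A →
      ConcH3 ε Φ (κ m) A ∨ ∃ b c : ZMod p → ℝ, Kernel (κ m) b c ∧
        meanR (fun x => b x * ‖ch x - 1‖ ^ 2) ≤ ε ∧ m * (ε ^ 2 / 2) ≤ en A c := by
    intro m
    induction m with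
    | zero =>
      refine ⟨1 / (κ 0 + 1), by positivity, by
        rw [one_div, inv_mul_cancel₀ (by positivity)], fun p _ ν A hA => Or.inr ?_⟩
      obtain ⟨b, c, hb, hb2⟩ := hKH 1 ε hε p {1} (by simp)
      refine ⟨b, c, by rw [hκ0]; exact hb, ?_, ?_⟩
      · have := hb2 1 (mem_singleton_self _)
        simpa only [one_mul] using this
      · rw [Nat.cast_zero, zero_mul]
        exact en_nonneg _ _
    | succ m ih =>
      obtain ⟨ε0, hε0, hε1, hA0⟩ := ih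
      obtain ⟨K, hK⟩ : ∃ K, K = κ m := ⟨_, rfl⟩
      obtain ⟨ε2, hε2⟩ : ∃ ε2 : ℝ, ε2 = min (min ε0 (1 / (κ (m + 1) + 1)))
        (Φ K ^ 2 / 4) := ⟨_, rfl⟩
      have hΦK := hΦ K
      have e1 : ε2 ≤ ε0 := by
        rw [hε2]
        exact (min_le_left _ _).trans (min_le_left _ _)
      have e2 : ε2 ≤ 1 / (κ (m + 1) + 1) := by
        rw [hε2]
        exact (min_le_left _ _).trans (min_le_right _ _)
      have e3 : ε2 ≤ Φ K ^ 2 / 4 := by
        rw [hε2]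
        exact min_le_right _ _
      have e0 : 0 < ε2 := by
        rw [hε2]
        simp only [lt_min_iff]
        exact ⟨⟨hε0, by positivity⟩, by positivity⟩
      have e4 : ε2 * (κ (m + 1) + 1) ≤ 1 := by
        rwa [le_div_iff₀ (by positivity)] at e2
      have e5 : ε2 ≤ 1 := by
        refine e2.trans ?_
        rw [div_le_one (by positivity)]
        have : (0 : ℝ) ≤ κ (m + 1) := Nat.cast_nonneg _
        linarith
      have hκm : κ m ≤ κ (m + 1) := by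
        rw [hκ1]
        exact le_max_left _ _
      have e6 : ε2 * (K + 1) ≤ 1 := by
        have : (K : ℝ) ≤ κ (m + 1) := by
          rw [hK]
          exact_mod_cast hκm
        nlinarith
      refine ⟨ε2, e0, e4, fun p _ ν A hA => ?_⟩
      rcases hA0 p ν A (hA.mono e1) with hl | ⟨b, c, hb, hb1, hb2⟩
      · exact Or.inl (hl.mono hκm)
      · rw [← hK] at hb
        -- the set of frequencies of the next kernel
        obtain ⟨Sp, hSp⟩ : ∃ Sp : Fin 3 → Finset (ZMod p), Sp = fun j => univ.filter (fun ξ =>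
          Φ K < ‖ft (fun x => (A j x : ℂ)) ξ‖) := ⟨_, rfl⟩
        obtain ⟨S, hS⟩ : ∃ S : Finset (ZMod p), S = insert 1 (univ.filter (fun ζ => c ζ ≠ 0) ∪
          univ.biUnion Sp) := ⟨_, rfl⟩
        have hScard : S.card ≤ J K := by
          have f1 : ∀ j, (Sp j).card ≤ ⌈8 / Φ K ^ 2⌉₊ := by
            intro j
            have f2 := hA.spec (Φ K) hΦK e5 e3 j
            have f3 := f2.trans (Nat.le_ceil _)
            rw [hSp]
            exact_mod_cast f3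
          have f4 : (univ.biUnion Sp).card ≤ 3 * ⌈8 / Φ K ^ 2⌉₊ := by
            refine card_biUnion_le.trans ((sum_le_sum fun j _ => f1 j).trans ?_)
            rw [sum_const, card_univ, Fintype.card_fin, smul_eq_mul]
          have f5 := hb.supp
          rw [hS, hJ]
          refine (card_insert_le _ _).trans ?_
          have f6 := card_union_le (univ.filter (fun ζ => c ζ ≠ 0)) (univ.biUnion Sp)
          simp only
          omega
        obtain ⟨b', c', hb', hb3⟩ := hKH (J K) (η K) (hη0 K) p S hScard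
        have hb4 : Kernel (κ (m + 1)) b' c' := hb'.mono (by
          rw [hκ1, ← hK]
          exact le_max_right _ _)
        have hc' : ∀ ξ ∈ S, 2 * (1 - c' ξ) ≤ η K := fun ξ hξ => by
          rw [← hb'.meanR_norm_sq]
          exact hb3 ξ hξ
        have g1 : η K ≤ Φ K := by
          rw [hη]
          exact (min_le_left _ _).trans (min_le_left _ _)
        have g2 : η K ≤ ε := by
          rw [hη]
          exact (min_le_left _ _).trans (min_le_right _ _)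
        have g3 : η K ≤ ε ^ 2 / (24 * (K + 1)) := by
          rw [hη]
          exact min_le_right _ _
        have g4 : 12 * K * η K ≤ ε ^ 2 / 2 := by
          rw [le_div_iff₀ (by positivity)] at g3
          nlinarith [hη0 K, (Nat.cast_nonneg K : (0 : ℝ) ≤ K)]
        have hsupp : ∀ ξ, c ξ ≠ 0 → 2 * (1 - c' ξ) ≤ η K := fun ξ hξ => hc' ξ (by
          rw [hS, mem_insert, mem_union, mem_filter]
          exact Or.inr (Or.inl ⟨mem_univ _, hξ⟩))
        have hinc := fun j => hA.incr e5 hb hb4 (η K) (hη0 K).le hsupp j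
        by_cases hE : en A c' - en A c ≤ ε ^ 2 / 2
        · refine Or.inl ⟨K, b, c, b', c', by rw [hK]; exact hκm, hb, hb4, hb1, fun j => ?_,
            fun j ξ => ?_, fun j x => ⟨hA.conv_le hb e6 j x, hA.conv_le hb4 e4 j x⟩⟩
          · have := hinc j
            linarith
          · rw [ft_sub, hb4.ft_conv]
            have q1 : ft (fun x => (A j x : ℂ)) ξ - ft (fun x => (A j x : ℂ)) ξ * (c' ξ : ℂ) =
                ft (fun x => (A j x : ℂ)) ξ * ((1 - c' ξ : ℝ) : ℂ) := by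
              push_cast
              ring
            have q2 := (hb4.coeff ξ).1
            have q3 := (hb4.coeff ξ).2
            rw [q1, norm_mul, Complex.norm_real, Real.norm_eq_abs, abs_of_nonneg (by linarith)]
            by_cases hξ : ξ ∈ S
            · have q4 := hc' ξ hξ
              have q5 := hA.ftA_le e5 j ξ
              have q6 := norm_nonneg (ft (fun x => (A j x : ℂ)) ξ)
              nlinarith
            · have q4 : ‖ft (fun x => (A j x : ℂ)) ξ‖ ≤ Φ K := by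
                by_contra hcon
                rw [not_le] at hcon
                apply hξ
                rw [hS, mem_insert, mem_union, mem_biUnion]
                refine Or.inr (Or.inr ⟨j, mem_univ _, ?_⟩)
                rw [hSp]
                exact mem_filter.2 ⟨mem_univ _, hcon⟩
              have q6 := norm_nonneg (ft (fun x => (A j x : ℂ)) ξ)
              nlinarith
        · refine Or.inr ⟨b', c', hb4, ?_, ?_⟩
          · have := hb3 1 (by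
              rw [hS]
              exact mem_insert_self _ _)
            simp only [one_mul] at this
            linarith
          · rw [not_le] at hE
            push_cast
            linarith
  -- conclusion
  obtain ⟨m, hm⟩ := exists_nat_gt (24 / ε ^ 2)
  obtain ⟨ε0, hε0, hε1, hA0⟩ := claim m
  refine ⟨κ m, ε0, hε0, fun p _ ν A h1 h2 h3 => ?_⟩
  have hA : HypH3 ε0 ν A := ⟨h1, h2, h3⟩
  rcases hA0 p ν A hA with hl | ⟨b, c, hb, -, hb2⟩
  · exact hl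
  · exfalso
    have k1 := hA.en_le hb hε1
    rw [div_lt_iff₀ (by positivity)] at hm
    linarith

end Pool.Agent.Lib.TwinAll
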