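import Mathlib
import Pool.Agent.Lib.TwinAll.Defs
import Pool.Agent.Lib.TwinAll.Four73
import Pool.Agent.Lib.TwinAll.Stmts

/-!
THEOREM A (MP_c6d112_nt), module H4: three numbers with dividing differences and quotients in a
Bohr set.
-/

set_option autoImplicit false

namespace Pool.Agent.Lib.TwinAll

open Finset

/-- one dimensional simultaneous approximation for unit complex numbers -/
theorem exists_pow_near (ρ : ℝ) (hρ : 0 < ρ) : ∃ N : ℕ, 0 < N ∧ ∀ θ : ℝ,
    ∃ t : ℕ, 0 < t ∧ t ≤ N ∧ ‖Complex.exp (Complex.I * θ) ^ t - 1‖ ≤ ρ := by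
  obtain ⟨N, hN⟩ := exists_nat_gt (2 * Real.pi / ρ)
  have hN0 : 0 < N := by
    have : (0 : ℝ) < N := lt_trans (by positivity) hN
    exact_mod_cast this
  refine ⟨N, hN0, fun θ => ?_⟩
  obtain ⟨j, k, hk0, hkN, h⟩ := Real.exists_int_int_abs_mul_sub_le (θ / (2 * Real.pi)) hN0
  obtain ⟨t, rfl⟩ : ∃ t : ℕ, k = t := ⟨k.toNat, by omega⟩
  refine ⟨t, by exact_mod_cast hk0, by exact_mod_cast hkN, ?_⟩
  have h1 : Complex.exp (Complex.I * θ) ^ t =
      Complex.exp (Complex.I * ((t * θ - 2 * Real.pi * j : ℝ) : ℂ)) := by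
    rw [← Complex.exp_nat_mul]
    have h2 : Complex.I * ((t * θ - 2 * Real.pi * j : ℝ) : ℂ) =
        (t : ℂ) * (Complex.I * θ) - (j : ℂ) * (2 * Real.pi * Complex.I) := by
      push_cast
      ring
    rw [h2, Complex.exp_sub, Complex.exp_int_mul_two_pi_mul_I, div_one]
  rw [h1]
  refine Real.norm_exp_I_mul_ofReal_sub_one_le.trans ?_
  rw [Real.norm_eq_abs]
  have hpi : 0 < 2 * Real.pi := by positivity
  have h3 : (t : ℝ) * θ - 2 * Real.pi * j =
      2 * Real.pi * (((t : ℤ) : ℝ) * (θ / (2 * Real.pi)) - j) := by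
    field_simp
    push_cast
    ring
  rw [h3, abs_mul, abs_of_pos hpi]
  calc 2 * Real.pi * |((t : ℤ) : ℝ) * (θ / (2 * Real.pi)) - j|
      ≤ 2 * Real.pi * (1 / ((N : ℝ) + 1)) := mul_le_mul_of_nonneg_left h hpi.le
    _ ≤ ρ := by
        rw [mul_one_div, div_le_iff₀ (by positivity)]
        rw [div_lt_iff₀ hρ] at hN
        nlinarith

section group

variable {p : ℕ} [NeZero p]

theorem exists_exp (x : ZMod p) : ∃ θ : ℝ, ch x = Complex.exp (Complex.I * θ) := by
  have h := norm_ch x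
  refine ⟨Complex.arg (ch x), ?_⟩
  have h2 := Complex.norm_mul_exp_arg_mul_I (ch x)
  rw [h, Complex.ofReal_one, one_mul] at h2
  rw [mul_comm Complex.I]
  exact h2.symm

theorem norm_ch_add_sub_one (x y : ZMod p) : ‖ch (x + y) - 1‖ ≤ ‖ch x - 1‖ + ‖ch y - 1‖ := by
  have h : ch (x + y) - 1 = ch x * (ch y - 1) + (ch x - 1) := by
    rw [ch_add]
    ring
  rw [h]
  refine (norm_add_le _ _).trans ?_
  rw [norm_mul, norm_ch, one_mul, add_comm]

theorem norm_ch_nat_mul_sub_one (n : ℕ) (x : ZMod p) :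
    ‖ch ((n : ZMod p) * x) - 1‖ ≤ n * ‖ch x - 1‖ := by
  induction n with
  | zero => simp [ch_zero]
  | succ n ih =>
    have h : ((n + 1 : ℕ) : ZMod p) * x = (n : ZMod p) * x + x := by
      push_cast
      ring
    rw [h]
    refine (norm_ch_add_sub_one _ _).trans ?_
    push_cast
    linarith

end group

/-- simultaneous approximation in a Bohr set -/
theorem exists_bohr (K : ℕ) : ∀ ρ : ℝ, 0 < ρ → ∃ T : ℕ, 0 < T ∧ ∀ (p : ℕ) [NeZero p]
    (S : Finset (ZMod p)), S.card ≤ K → ∃ t : ℕ, 0 < t ∧ t ≤ T ∧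
      ∀ ξ ∈ S, ‖ch (ξ * (t : ZMod p)) - 1‖ ≤ ρ := by
  classical
  induction K with
  | zero =>
    intro ρ hρ
    refine ⟨1, one_pos, fun p _ S hS => ⟨1, one_pos, le_rfl, fun ξ hξ => ?_⟩⟩
    rw [Nat.le_zero, card_eq_zero] at hS
    rw [hS] at hξ
    exact absurd hξ (notMem_empty _)
  | succ K ih =>
    intro ρ hρ
    obtain ⟨N, hN, h1⟩ := exists_pow_near ρ hρ
    obtain ⟨T, hT, h2⟩ := ih (ρ / N) (by positivity)
    refine ⟨T * N, by positivity, fun p _ S hS => ?_⟩
    rcases S.eq_empty_or_nonempty with h0 | ⟨ξ0, hξ0⟩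
    · exact ⟨1, one_pos, Nat.one_le_iff_ne_zero.2 (by positivity), fun ξ hξ => by
        rw [h0] at hξ
        exact absurd hξ (notMem_empty _)⟩
    · obtain ⟨t, ht0, htT, ht⟩ := h2 p (S.erase ξ0) (by
        rw [card_erase_of_mem hξ0]
        omega)
      obtain ⟨θ, hθ⟩ := exists_exp (ξ0 * (t : ZMod p))
      obtain ⟨s, hs0, hsN, hs⟩ := h1 θ
      rw [← hθ, ← ch_nat_mul] at hs
      have e : ∀ ξ : ZMod p, ξ * ((t * s : ℕ) : ZMod p) = (s : ZMod p) * (ξ * (t : ZMod p)) := by
        intro ξ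
        push_cast
        ring
      refine ⟨t * s, by positivity, Nat.mul_le_mul htT hsN, fun ξ hξ => ?_⟩
      rw [e]
      by_cases h : ξ = ξ0
      · rw [h]
        exact hs
      · refine (norm_ch_nat_mul_sub_one _ _).trans ?_
        have h3 := ht ξ (mem_erase.2 ⟨h, hξ⟩)
        have hs1 : (s : ℝ) ≤ N := by exact_mod_cast hsN
        have hN1 : (0 : ℝ) < N := by exact_mod_cast hN
        calc (s : ℝ) * ‖ch (ξ * (t : ZMod p)) - 1‖ ≤ N * (ρ / N) :=
              mul_le_mul hs1 h3 (norm_nonneg _) hN1.le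
          _ = ρ := by field_simp

/-- chains with dividing differences and quotients in a Bohr set -/
theorem exists_chain (K n : ℕ) : ∀ ρ : ℝ, 0 < ρ → ∃ R : ℕ, ∀ (p : ℕ) [NeZero p]
    (S : Finset (ZMod p)), S.card ≤ K → ∃ r : ℕ → ℕ, (∀ i, 0 < r i ∧ r i ≤ R) ∧
      ∀ i j : ℕ, i < j → j < n → r j < r i ∧ (r i - r j) ∣ r j ∧
        ∀ ξ ∈ S, ‖ch (ξ * ((r j / (r i - r j) : ℕ) : ZMod p)) - 1‖ ≤ ρ := by
  classical
  induction n with
  | zero =>
    intro ρ hρ
    exact ⟨1, fun p _ S _ => ⟨fun _ => 1, fun _ => ⟨one_pos, le_rfl⟩, fun i j _ hj =>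
      absurd hj (Nat.not_lt_zero _)⟩⟩
  | succ n ih =>
    intro ρ hρ
    obtain ⟨R, hR⟩ := ih (ρ / 2) (by positivity)
    -- the product of all numbers up to `R`
    obtain ⟨D, hD⟩ : ∃ D : ℕ, D = R.factorial := ⟨_, rfl⟩
    have hD0 : 0 < D := by
      rw [hD]
      exact Nat.factorial_pos _
    have hD1 : (0 : ℝ) < D := by exact_mod_cast hD0
    obtain ⟨T, hT, hT2⟩ := exists_bohr K (ρ / (2 * D)) (by positivity)
    refine ⟨D * T + R, fun p _ S hS => ?_⟩
    obtain ⟨r, hr, hr2⟩ := hR p S hS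
    obtain ⟨t, ht0, htT, ht⟩ := hT2 p S hS
    have hdvd : ∀ d : ℕ, 0 < d → d ≤ R → d ∣ D := fun d h0 h1 => by
      rw [hD]
      exact Nat.dvd_factorial h0 h1
    have hM : D * t ≤ D * T := Nat.mul_le_mul_left _ htT
    have hM0 : 0 < D * t := by positivity
    -- the quotient of `D t` by a small number is in the Bohr set
    have hq : ∀ d : ℕ, 0 < d → d ≤ R → ∀ ξ ∈ S,
        ‖ch (ξ * ((D * t / d : ℕ) : ZMod p)) - 1‖ ≤ ρ / 2 := by
      intro d h0 h1 ξ hξ
      obtain ⟨e, he⟩ := hdvd d h0 h1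
      have h2 : D * t / d = e * t := by
        rw [he, mul_assoc, Nat.mul_div_cancel_left _ h0]
      have h3 : ξ * ((e * t : ℕ) : ZMod p) = (e : ZMod p) * (ξ * (t : ZMod p)) := by
        push_cast
        ring
      rw [h2, h3]
      refine (norm_ch_nat_mul_sub_one _ _).trans ?_
      have h4 : e ≤ D := by
        rw [he]
        exact Nat.le_mul_of_pos_left _ h0
      have h5 : (e : ℝ) ≤ D := by exact_mod_cast h4
      calc (e : ℝ) * ‖ch (ξ * (t : ZMod p)) - 1‖ ≤ D * (ρ / (2 * D)) :=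
            mul_le_mul h5 (ht ξ hξ) (norm_nonneg _) hD1.le
        _ = ρ / 2 := by field_simp
    refine ⟨fun i => if i < n then D * t + r i else D * t, fun i => ?_, fun i j hij hj => ?_⟩
    · have := hr i
      simp only
      split_ifs
      · constructor <;> omega
      · constructor <;> omega
    · have hi : i < n := by omega
      simp only
      rw [if_pos hi]
      by_cases hjn : j < n
      · rw [if_pos hjn]
        obtain ⟨h1, h2, h3⟩ := hr2 i j hij hjn
        have h4 : D * t + r i - (D * t + r j) = r i - r j := by omega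
        have h5 : 0 < r i - r j := by omega
        have h6 : r i - r j ≤ R := by
          have := (hr i).2
          omega
        have h7 : (r i - r j) ∣ D * t := (hdvd _ h5 h6).mul_right _
        rw [h4]
        refine ⟨by omega, dvd_add h7 h2, fun ξ hξ => ?_⟩
        rw [Nat.add_div_of_dvd_right h7, Nat.cast_add, mul_add]
        refine (norm_ch_add_sub_one _ _).trans ?_
        have := hq _ h5 h6 ξ hξ
        have := h3 ξ hξ
        linarith
      · rw [if_neg hjn]
        obtain ⟨h1, h2⟩ := hr i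
        have h4 : D * t + r i - D * t = r i := by omega
        rw [h4]
        refine ⟨by omega, (hdvd _ h1 h2).mul_right _, fun ξ hξ => ?_⟩
        have := hq _ h1 h2 ξ hξ
        linarith

/-- `R(3,3) = 6` -/
theorem ramsey_six (f : Fin 6 → Fin 6 → Bool) : ∃ i j k : Fin 6, i < j ∧ j < k ∧
    f i j = f i k ∧ f i j = f j k := by
  -- five edges at `0`: three of the same colour
  have key : ∀ a b c : Fin 6, 0 < a → a < b → b < c → f 0 a = f 0 b → f 0 b = f 0 c →
      ∃ i j k : Fin 6, i < j ∧ j < k ∧ f i j = f i k ∧ f i j = f j k := by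
    intro a b c ha hab hbc h1 h2
    by_cases h3 : f a b = f 0 a
    · exact ⟨0, a, b, ha, hab, h1, h3.symm⟩
    · by_cases h4 : f b c = f 0 a
      · exact ⟨0, b, c, ha.trans hab, hbc, h2, by rw [h4, h1]⟩
      · by_cases h5 : f a c = f 0 a
        · exact ⟨0, a, c, ha, hab.trans hbc, h1.trans h2, h5.symm⟩
        · refine ⟨a, b, c, hab, hbc, ?_, ?_⟩
          · revert h3 h4 h5
            cases f a b <;> cases f b c <;> cases f a c <;> cases f 0 a <;> simp
          · revert h3 h4 h5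
            cases f a b <;> cases f b c <;> cases f a c <;> cases f 0 a <;> simp
  by_contra hcon
  have k' : ∀ a b c : Fin 6, 0 < a → a < b → b < c → ¬ (f 0 a = f 0 b ∧ f 0 b = f 0 c) :=
    fun a b c ha hab hbc h => hcon (key a b c ha hab hbc h.1 h.2)
  have h123 := k' 1 2 3 (by decide) (by decide) (by decide)
  have h124 := k' 1 2 4 (by decide) (by decide) (by decide)
  have h125 := k' 1 2 5 (by decide) (by decide) (by decide)
  have h134 := k' 1 3 4 (by decide) (by decide) (by decide)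
  have h135 := k' 1 3 5 (by decide) (by decide) (by decide)
  have h145 := k' 1 4 5 (by decide) (by decide) (by decide)
  have h234 := k' 2 3 4 (by decide) (by decide) (by decide)
  have h235 := k' 2 3 5 (by decide) (by decide) (by decide)
  have h245 := k' 2 4 5 (by decide) (by decide) (by decide)
  have h345 := k' 3 4 5 (by decide) (by decide) (by decide)
  revert h123 h124 h125 h134 h135 h145 h234 h235 h245 h345
  cases f 0 1 <;> cases f 0 2 <;> cases f 0 3 <;> cases f 0 4 <;> cases f 0 5 <;> simp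

theorem H4 : H4Stmt := by
  intro K ρ hρ
  obtain ⟨R, hR⟩ := exists_chain K 6 ρ hρ
  refine ⟨R, fun p _ S hS => ?_⟩
  obtain ⟨r, hr, hr2⟩ := hR p S hS
  obtain ⟨i, j, k, hij, hjk, h1, h2⟩ := ramsey_six (fun a b =>
    decide (ArithmeticFunction.cardFactors (r a - r b) % 2 = 0))
  have hi6 := i.isLt
  have hj6 := j.isLt
  have hk6 := k.isLt
  have hij' : (i : ℕ) < j := hij
  have hjk' : (j : ℕ) < k := hjk
  simp only [decide_eq_decide] at h1 h2
  refine ⟨![r i, r j, r k], ArithmeticFunction.cardFactors (r i - r j) % 2, (hr k).1,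
    (hr2 j k hjk' hk6).1, (hr2 i j hij' hj6).1, (hr i).2, fun a b hab => ?_⟩
  have hA := hr2 i j hij' hj6
  have hB := hr2 j k hjk' hk6
  have hC := hr2 i k (hij'.trans hjk') hk6
  fin_cases a <;> fin_cases b <;> first
    | exact absurd hab (by decide)
    | skip
  · exact ⟨hA.2.1, rfl, hA.2.2⟩
  · refine ⟨hC.2.1, ?_, hC.2.2⟩
    show ArithmeticFunction.cardFactors (r i - r k) % 2 = _
    omega
  · refine ⟨hB.2.1, ?_, hB.2.2⟩
    show ArithmeticFunction.cardFactors (r j - r k) % 2 = _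
    omega

end Pool.Agent.Lib.TwinAll
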