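import Mathlib
import Pool.Agent.Lib.TwinAll.Defs
import Pool.Agent.Lib.TwinAll.Stmts
import Pool.Agent.Lib.TwinAll.Basic94
import Pool.Agent.Lib.MP_d5700b_nt.PNTAP

/-!
THEOREM A (MP_c6d112_nt), helper94: Chebyshev bounds in dyadic blocks, summation over blocks.
-/

set_option autoImplicit false

namespace Pool.Agent.Lib.TwinAll

open Finset Filter Topology

/-- the prime counting function as a cardinality -/
noncomputable def piN (x : ℕ) : ℝ := (((Finset.range (x + 1)).filter Nat.Prime).card : ℝ)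

theorem piN_tendsto : Tendsto (fun x : ℕ => piN x * Real.log x / x) atTop (𝓝 1) := by
  have h := Pool.Agent.Lib.MP_d5700b_nt.PNTM.pnt_ap 1 one_pos 0 (Nat.coprime_one_right 0)
  have h1 : (1 : ℝ) / (Nat.totient 1 : ℝ) = 1 := by simp
  rw [h1] at h
  refine h.congr (fun x => ?_)
  unfold piN
  congr 4
  apply Finset.filter_congr
  intro p _
  simp [Nat.modEq_one]

theorem card_PP (x y : ℕ) (h : x ≤ y) : ((PP x y).card : ℝ) = piN y - piN x := by
  unfold piN
  have h1 : (Finset.range (y + 1)).filter Nat.Prime =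
      ((Finset.range (x + 1)).filter Nat.Prime) ∪ PP x y := by
    ext q
    simp only [mem_PP, Finset.mem_union, Finset.mem_filter, Finset.mem_range]
    constructor
    · rintro ⟨ha, hb⟩
      rcases le_or_gt q x with h2 | h2
      · exact Or.inl ⟨by omega, hb⟩
      · exact Or.inr ⟨⟨h2, by omega⟩, hb⟩
    · rintro (⟨ha, hb⟩ | ⟨⟨ha, hb⟩, hc⟩)
      · exact ⟨by omega, hb⟩
      · exact ⟨by omega, hc⟩
  have h2 : Disjoint ((Finset.range (x + 1)).filter Nat.Prime) (PP x y) := by
    rw [Finset.disjoint_left]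
    intro q hq hq'
    rw [Finset.mem_filter, Finset.mem_range] at hq
    have := PP_lt hq'
    omega
  rw [h1, Finset.card_union_of_disjoint h2]
  push_cast
  ring

/-- upper bound for the number of primes up to `y` -/
theorem card_PP_le : ∃ P0 : ℕ, ∀ y : ℕ, P0 ≤ y → ∀ x : ℕ, x ≤ y →
    ((PP x y).card : ℝ) ≤ 2 * (y / Real.log y) := by
  have h := piN_tendsto.eventually_lt_const (show (1 : ℝ) < 2 by norm_num)
  obtain ⟨P0, hP0⟩ := (h.and (eventually_ge_atTop 3)).exists_forall_of_atTop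
  refine ⟨P0, fun y hy x hx => ?_⟩
  obtain ⟨h1, h2⟩ := hP0 y hy
  have hy0 : (0 : ℝ) < y := by exact_mod_cast (by omega : 0 < y)
  have hlog : 0 < Real.log y := Real.log_pos (by exact_mod_cast (by omega : 1 < y))
  have h3 : piN y * Real.log y ≤ 2 * y := by
    have := (div_lt_iff₀ hy0).1 h1
    linarith
  have h4 : ((PP x y).card : ℝ) ≤ piN y := by
    rw [card_PP x y hx]
    have : 0 ≤ piN x := by unfold piN; positivity
    linarith
  refine h4.trans ?_
  rw [← mul_div_assoc, le_div_iff₀ hlog]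
  exact h3

/-- lower bound for the sum of `1/p` over a dyadic block -/
theorem SS_dyadic : ∃ P0 : ℕ, 3 ≤ P0 ∧ ∀ P : ℕ, P0 ≤ P →
    1 / (4 * Real.log P) ≤ SS P (2 * P) := by
  have h1 := piN_tendsto.eventually_lt_const (show (1 : ℝ) < 11 / 10 by norm_num)
  have h2 := piN_tendsto.eventually_const_lt (show (9 / 10 : ℝ) < 1 by norm_num)
  obtain ⟨P1, hP1⟩ := (h1.and h2).exists_forall_of_atTop
  have h3 : ∀ᶠ x : ℕ in atTop, (7 : ℝ) ≤ Real.log x :=
    (Real.tendsto_log_atTop.comp tendsto_natCast_atTop_atTop).eventually_ge_atTop 7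
  obtain ⟨P2, hP2⟩ := h3.exists_forall_of_atTop
  refine ⟨max 3 (max P1 P2), le_max_left _ _, fun P hP => ?_⟩
  have hP3 : 3 ≤ P := (le_max_left _ _).trans hP
  have hPP1 : P1 ≤ P := ((le_max_left _ _).trans (le_max_right _ _)).trans hP
  have hPP2 : P2 ≤ P := ((le_max_right _ _).trans (le_max_right _ _)).trans hP
  have hP0 : (0 : ℝ) < P := by exact_mod_cast (by omega : 0 < P)
  have hl7 := hP2 P hPP2
  obtain ⟨a1, -⟩ := hP1 P hPP1
  obtain ⟨-, a2⟩ := hP1 (2 * P) (by omega)
  rw [div_lt_iff₀ hP0] at a1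
  rw [lt_div_iff₀ (by push_cast; positivity)] at a2
  have hlog2 : Real.log ((2 * P : ℕ) : ℝ) = Real.log 2 + Real.log P := by
    push_cast
    rw [Real.log_mul (by norm_num) hP0.ne']
  have hl2 : Real.log 2 < 7 / 10 := by
    have := Real.log_two_lt_d9
    linarith
  set l := Real.log (P : ℝ) with hl
  rw [hlog2] at a2
  push_cast at a2
  have hpi1 : 0 ≤ piN (2 * P) := by unfold piN; positivity
  have b1 : Real.log 2 + l ≤ 11 / 10 * l := by linarith
  have b2 : 9 / 10 * (2 * (P : ℝ)) < piN (2 * P) * (11 / 10 * l) :=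
    lt_of_lt_of_le a2 (mul_le_mul_of_nonneg_left b1 hpi1)
  have b3 : (P : ℝ) / 2 ≤ (piN (2 * P) - piN P) * l := by nlinarith
  have b4 : ((PP P (2 * P)).card : ℝ) = piN (2 * P) - piN P := card_PP P (2 * P) (by omega)
  have b5 : ((PP P (2 * P)).card : ℝ) * (1 / (2 * P)) ≤ SS P (2 * P) := by
    unfold SS
    rw [← nsmul_eq_mul]
    refine Finset.card_nsmul_le_sum _ _ _ (fun p hp => ?_)
    have h5 : p ≤ 2 * P := PP_le hp
    have h6 : (0 : ℝ) < p := by exact_mod_cast (PP_prime hp).pos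
    refine one_div_le_one_div_of_le h6 ?_
    exact_mod_cast h5
  refine le_trans ?_ b5
  rw [b4]
  have hl0 : 0 < l := by linarith
  rw [div_le_iff₀ (by positivity)]
  have : (piN (2 * P) - piN P) * (1 / (2 * P)) * (4 * l) =
      ((piN (2 * P) - piN P) * l) * (2 / P) := by
    field_simp; ring
  rw [this]
  calc (1 : ℝ) = (P : ℝ) / 2 * (2 / P) := by field_simp
    _ ≤ _ := mul_le_mul_of_nonneg_right b3 (by positivity)

/-- summation over dyadic blocks -/
theorem sum_blocks (P0 : ℕ) (hP0 : 3 ≤ P0)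
    (hS : ∀ P : ℕ, P0 ≤ P → 1 / (4 * Real.log P) ≤ SS P (2 * P))
    (G : ℕ → ℂ) (K : ℝ) (hK : 0 ≤ K) (Y : ℕ)
    (hG : ∀ P W : ℕ, P0 ≤ P → P ≤ W → W ≤ 2 * P → W ≤ Y →
      ‖∑ p ∈ PP P W, G p‖ ≤ K / Real.log P) :
    ∀ (n P : ℕ), P0 ≤ P → Y - P ≤ n →
      ‖∑ p ∈ PP P Y, G p‖ ≤ 4 * K * SS P Y + K / Real.log P := by
  intro n
  induction n with
  | zero =>
    intro P hP hn
    have h1 : PP P Y = ∅ := by
      ext q
      rw [mem_PP]
      constructor
      · rintro ⟨⟨a, b⟩, -⟩; omega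
      · intro h; simp at h
    rw [h1, Finset.sum_empty, norm_zero]
    have hlog : 0 ≤ Real.log (P : ℝ) := Real.log_natCast_nonneg P
    have := SS_nonneg P Y
    positivity
  | succ n ih =>
    intro P hP hn
    have hlog : 0 ≤ Real.log (P : ℝ) := Real.log_natCast_nonneg P
    have hlogp : 0 < Real.log (P : ℝ) :=
      Real.log_pos (by exact_mod_cast (by omega : 1 < P))
    rcases le_or_gt Y (2 * P) with h | h
    · rcases le_or_gt P Y with h' | h'
      · refine (hG P Y hP h' h le_rfl).trans ?_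
        have := SS_nonneg P Y
        have h2 : 0 ≤ 4 * K * SS P Y := by positivity
        linarith
      · exact ih P hP (by omega)
    · rw [sum_PP_split (by omega : P ≤ 2 * P) h.le]
      refine (norm_add_le _ _).trans ?_
      have h1 := hG P (2 * P) hP (by omega) le_rfl h.le
      have h2 := ih (2 * P) (by omega) (by omega)
      rw [SS_add (by omega : P ≤ 2 * P) h.le]
      have h3 : K / Real.log ((2 * P : ℕ) : ℝ) ≤ K / Real.log P := by
        refine div_le_div_of_nonneg_left hK hlogp ?_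
        refine Real.log_le_log (by exact_mod_cast (by omega : 0 < P)) ?_
        exact_mod_cast (by omega : P ≤ 2 * P)
      have h4 : K / Real.log P ≤ 4 * K * SS P (2 * P) := by
        have h5 := mul_le_mul_of_nonneg_left (hS P hP) (by positivity : 0 ≤ 4 * K)
        refine le_trans (le_of_eq ?_) h5
        field_simp
      linarith

end Pool.Agent.Lib.TwinAll
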