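import Mathlib
import Pool.Agent.Lib.TwinAll.Defs
import Pool.Agent.Lib.TwinAll.Stmts
import Pool.Agent.Lib.TwinAll.Basic94

/-!
THEOREM A (MP_c6d112_nt), helper94: L2 (dispersion over the prime `p`), one dyadic block.
-/

set_option autoImplicit false

namespace Pool.Agent.Lib.TwinAll

open Finset

/-- weight of `m` alone -/
noncomputable def n1 (z0 z : ℕ) (m : ℤ) : ℝ := nu z0 z (![1] : Fin 1 → ℤ) ![0] m

/-- weight of the triple -/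
noncomputable def n3 (z0 z : ℕ) (γ : Fin 2 → ℤ) (n : ℤ) : ℝ :=
  nu z0 z (![1, 1, 1] : Fin 3 → ℤ) ![0, γ 0, γ 1] n

/-- weight of the system of five forms -/
noncomputable def n5 (z0 z : ℕ) (γ : Fin 2 → ℤ) (p p' : ℕ) (m : ℤ) : ℝ :=
  nu z0 z (![1, (p : ℤ), p, p', p'] : Fin 5 → ℤ) ![0, γ 0, γ 1, γ 0, γ 1] m

noncomputable def V1 (z0 z : ℕ) : ℝ := VV z0 z (![1] : Fin 1 → ℤ) ![0]

noncomputable def V3 (z0 z : ℕ) (γ : Fin 2 → ℤ) : ℝ :=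
  VV z0 z (![1, 1, 1] : Fin 3 → ℤ) ![0, γ 0, γ 1]

noncomputable def V5 (z0 z : ℕ) (γ : Fin 2 → ℤ) (p p' : ℕ) : ℝ :=
  VV z0 z (![1, (p : ℤ), p, p', p'] : Fin 5 → ℤ) ![0, γ 0, γ 1, γ 0, γ 1]

/-- the correlation constant -/
noncomputable def kap (z0 z : ℕ) (γ : Fin 2 → ℤ) (p p' : ℕ) : ℝ :=
  V1 z0 z * V5 z0 z γ p p' / V3 z0 z γ ^ 2

theorem a1_ok {z0 z : ℕ} : ∀ j : Fin 1, ∀ q ∈ PP z0 z, ¬ ((q : ℤ) ∣ (![1] : Fin 1 → ℤ) j) := by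
  intro j q hq
  fin_cases j
  exact not_dvd_one q hq

theorem a3_ok {z0 z : ℕ} :
    ∀ j : Fin 3, ∀ q ∈ PP z0 z, ¬ ((q : ℤ) ∣ (![1, 1, 1] : Fin 3 → ℤ) j) := by
  intro j q hq
  fin_cases j <;> exact not_dvd_one q hq

theorem a5_ok {z0 z p p' : ℕ} (hp : p.Prime) (hp' : p'.Prime) (h : z < p) (h' : z < p') :
    ∀ j : Fin 5, ∀ q ∈ PP z0 z, ¬ ((q : ℤ) ∣ (![1, (p : ℤ), p, p', p'] : Fin 5 → ℤ) j) := by
  have h1 := not_dvd_of_coprime (coprime_of_gt (z0 := z0) hp h)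
  have h2 := not_dvd_of_coprime (coprime_of_gt (z0 := z0) hp' h')
  intro j q hq
  fin_cases j
  · exact not_dvd_one q hq
  · exact h1 q hq
  · exact h1 q hq
  · exact h2 q hq
  · exact h2 q hq

theorem V1_pos {z0 z : ℕ} (h : 5 ≤ z0) : 0 < V1 z0 z :=
  VV_pos (by omega) _ _ a1_ok

theorem V3_pos {z0 z : ℕ} (h : 5 ≤ z0) (γ : Fin 2 → ℤ) : 0 < V3 z0 z γ :=
  VV_pos (by omega) _ _ a3_ok

theorem V5_pos {z0 z : ℕ} (h : 5 ≤ z0) (γ : Fin 2 → ℤ) {p p' : ℕ} (hp : p.Prime)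
    (hp' : p'.Prime) (h1 : z < p) (h2 : z < p') : 0 < V5 z0 z γ p p' :=
  VV_pos (by omega) _ _ (a5_ok hp hp' h1 h2)

theorem kap_pos {z0 z : ℕ} (h : 5 ≤ z0) (γ : Fin 2 → ℤ) {p p' : ℕ} (hp : p.Prime)
    (hp' : p'.Prime) (h1 : z < p) (h2 : z < p') : 0 < kap z0 z γ p p' := by
  unfold kap
  have a := V1_pos (z := z) h
  have b := V3_pos (z := z) h γ
  have c := V5_pos h γ hp hp' h1 h2
  positivity

theorem n1_nonneg {z0 z : ℕ} (h : 5 ≤ z0) (m : ℤ) : 0 ≤ n1 z0 z m :=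
  nu_nonneg (by omega) _ _ a1_ok m

theorem n3_nonneg {z0 z : ℕ} (h : 5 ≤ z0) (γ : Fin 2 → ℤ) (m : ℤ) : 0 ≤ n3 z0 z γ m :=
  nu_nonneg (by omega) _ _ a3_ok m

theorem n1_le {z0 z : ℕ} (h : 5 ≤ z0) (hz : z0 ≤ z) (m : ℤ) : n1 z0 z m ≤ (z : ℝ) ^ 3 := by
  have h1 := (nu_le (by omega) _ _ a1_ok m).trans
    (VV_inv_le (z0 := z0) (z := z) (k := 1) (by omega) hz ![1] ![0] a1_ok)
  refine h1.trans ?_
  have hz1 : (1 : ℝ) ≤ z := by exact_mod_cast (by omega : 1 ≤ z)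
  exact pow_le_pow_right₀ hz1 (by norm_num)

theorem n3_le {z0 z : ℕ} (h : 5 ≤ z0) (hz : z0 ≤ z) (γ : Fin 2 → ℤ) (m : ℤ) :
    n3 z0 z γ m ≤ (z : ℝ) ^ 3 :=
  (nu_le (by omega) _ _ a3_ok m).trans (VV_inv_le (by omega) hz _ _ a3_ok)

open Classical in
theorem n1_eq (z0 z : ℕ) (m : ℤ) :
    n1 z0 z m = if Rough z0 z m then (V1 z0 z)⁻¹ else 0 := by
  unfold n1 nu V1
  have h : (∀ j : Fin 1, Rough z0 z ((![1] : Fin 1 → ℤ) j * m + (![0] : Fin 1 → ℤ) j)) ↔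
      Rough z0 z m := by
    simp
  by_cases hr : Rough z0 z m
  · rw [if_pos (h.2 hr), if_pos hr]
  · rw [if_neg (fun h3 => hr (h.1 h3)), if_neg hr]

open Classical in
theorem n3_eq {z0 z : ℕ} (γ : Fin 2 → ℤ) {p : ℤ} (hp : ∀ q ∈ PP z0 z, IsCoprime p (q : ℤ))
    (m : ℤ) :
    n3 z0 z γ (p * m) = if Rough z0 z m ∧ (Rough z0 z (p * m + γ 0) ∧ Rough z0 z (p * m + γ 1))
      then (V3 z0 z γ)⁻¹ else 0 := by
  unfold n3 nu V3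
  have h : (∀ j : Fin 3, Rough z0 z ((![1, 1, 1] : Fin 3 → ℤ) j * (p * m) +
      (![0, γ 0, γ 1] : Fin 3 → ℤ) j)) ↔
      (Rough z0 z m ∧ (Rough z0 z (p * m + γ 0) ∧ Rough z0 z (p * m + γ 1))) := by
    rw [Fin.forall_fin_succ, Fin.forall_fin_two]
    rw [← rough_mul_iff hp m]
    simp
  by_cases hr : (Rough z0 z m ∧ (Rough z0 z (p * m + γ 0) ∧ Rough z0 z (p * m + γ 1)))
  · rw [if_pos (h.2 hr), if_pos hr]
  · rw [if_neg (fun h3 => hr (h.1 h3)), if_neg hr]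

open Classical in
theorem n5_eq (z0 z : ℕ) (γ : Fin 2 → ℤ) (p p' : ℕ) (m : ℤ) :
    n5 z0 z γ p p' m = if Rough z0 z m ∧ (Rough z0 z (p * m + γ 0) ∧ Rough z0 z (p * m + γ 1)) ∧
      (Rough z0 z (p' * m + γ 0) ∧ Rough z0 z (p' * m + γ 1))
      then (V5 z0 z γ p p')⁻¹ else 0 := by
  unfold n5 nu V5
  have h : (∀ j : Fin 5, Rough z0 z ((![1, (p : ℤ), p, p', p'] : Fin 5 → ℤ) j * m +
      (![0, γ 0, γ 1, γ 0, γ 1] : Fin 5 → ℤ) j)) ↔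
      (Rough z0 z m ∧ (Rough z0 z (p * m + γ 0) ∧ Rough z0 z (p * m + γ 1)) ∧
      (Rough z0 z (p' * m + γ 0) ∧ Rough z0 z (p' * m + γ 1))) := by
    simp only [Fin.forall_fin_succ]
    simp [and_assoc]
  by_cases hr : (Rough z0 z m ∧ (Rough z0 z (p * m + γ 0) ∧ Rough z0 z (p * m + γ 1)) ∧
      (Rough z0 z (p' * m + γ 0) ∧ Rough z0 z (p' * m + γ 1)))
  · rw [if_pos (h.2 hr), if_pos hr]
  · rw [if_neg (fun h3 => hr (h.1 h3)), if_neg hr]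

theorem id1 {z0 z : ℕ} (h : 5 ≤ z0) (γ : Fin 2 → ℤ) {p p' : ℕ} (hp : p.Prime)
    (hp' : p'.Prime) (h1 : z < p) (h2 : z < p') (m : ℤ) :
    V1 z0 z * n3 z0 z γ (p * m) * n3 z0 z γ (p' * m) =
      kap z0 z γ p p' * n5 z0 z γ p p' m := by
  have a := V1_pos (z := z) h
  have b := V3_pos (z := z) h γ
  have c := V5_pos h γ hp hp' h1 h2
  have X := n3_eq γ (coprime_of_gt (z0 := z0) hp h1) m
  have X' := n3_eq γ (coprime_of_gt (z0 := z0) hp' h2) m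
  have Y := n5_eq z0 z γ p p' m
  unfold kap
  by_cases r0 : Rough z0 z m
  · by_cases r1 : (Rough z0 z (p * m + γ 0) ∧ Rough z0 z (p * m + γ 1))
    · by_cases r2 : (Rough z0 z (p' * m + γ 0) ∧ Rough z0 z (p' * m + γ 1))
      · rw [if_pos ⟨r0, r1⟩] at X
        rw [if_pos ⟨r0, r2⟩] at X'
        rw [if_pos ⟨r0, r1, r2⟩] at Y
        rw [X, X', Y]
        field_simp
      · rw [if_neg (fun t => r2 t.2)] at X'
        rw [if_neg (fun t => r2 t.2.2)] at Y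
        rw [X', Y]; simp
    · rw [if_neg (fun t => r1 t.2)] at X
      rw [if_neg (fun t => r1 t.2.1)] at Y
      rw [X, Y]; simp
  · rw [if_neg (fun t => r0 t.1)] at X
    rw [if_neg (fun t => r0 t.1)] at Y
    rw [X, Y]; simp

theorem id2 {z0 z : ℕ} (h : 5 ≤ z0) (γ : Fin 2 → ℤ) {p : ℕ} (hp : p.Prime)
    (h1 : z < p) (m : ℤ) :
    V1 z0 z * n3 z0 z γ (p * m) * n1 z0 z m = n3 z0 z γ (p * m) := by
  have a := V1_pos (z := z) h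
  rw [n3_eq γ (coprime_of_gt hp h1), n1_eq]
  by_cases r0 : Rough z0 z m
  · rw [if_pos r0]
    field_simp
  · rw [if_neg (fun t => r0 t.1), if_neg r0]; simp

theorem id3 {z0 z : ℕ} (h : 5 ≤ z0) (m : ℤ) :
    V1 z0 z * n1 z0 z m * n1 z0 z m = n1 z0 z m := by
  have a := V1_pos (z := z) h
  rw [n1_eq]
  by_cases r0 : Rough z0 z m
  · rw [if_pos r0]
    field_simp
  · rw [if_neg r0]; simp

theorem n3_zero_of {z0 z : ℕ} (γ : Fin 2 → ℤ) {p : ℕ} (hp : p.Prime)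
    (h1 : z < p) {m : ℤ} (hm : n1 z0 z m = 0) (h : 5 ≤ z0) : n3 z0 z γ (p * m) = 0 := by
  rw [← id2 h γ hp h1 m, hm, mul_zero]

/-- the expansion of the product of two differences -/
theorem expand_eq {z0 z : ℕ} (h : 5 ≤ z0) (γ : Fin 2 → ℤ) {p p' : ℕ} (hp : p.Prime)
    (hp' : p'.Prime) (h1 : z < p) (h2 : z < p') (m : ℤ) :
    V1 z0 z * (n3 z0 z γ (p * m) - n1 z0 z m) * (n3 z0 z γ (p' * m) - n1 z0 z m) =
      kap z0 z γ p p' * (n5 z0 z γ p p' m - 1) - (n3 z0 z γ (p * m) - 1) -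
        (n3 z0 z γ (p' * m) - 1) + (n1 z0 z m - 1) + (kap z0 z γ p p' - 1) := by
  have e1 := id1 h γ hp hp' h1 h2 m
  have e2 := id2 h γ hp h1 m
  have e3 := id2 h γ hp' h2 m
  have e4 := id3 (z := z) h m
  linear_combination e1 - e2 - e3 + e4

/-- uniform exponential sum bound for the systems of `k` forms -/
def Ex (k : ℕ) (ε : ℝ) (s z0 B z : ℕ) : Prop :=
  ∀ a b : Fin k → ℤ, (∀ j, |a j| ≤ (z : ℤ) ^ B ∧ |b j| ≤ (z : ℤ) ^ B ∧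
      ∀ q ∈ PP z0 z, ¬ ((q : ℤ) ∣ a j)) →
    ∀ H : ℕ, z ^ s ≤ H → H ≤ z ^ B → ∀ θ : ℝ,
      ‖∑ m ∈ Finset.Icc 1 H, ((nu z0 z a b (m : ℤ) - 1 : ℝ) : ℂ) * ee (θ * m)‖ ≤ ε * H

theorem ex_of_S4 (hS4 : S4Stmt) (k : ℕ) (ε : ℝ) (hε : 0 < ε) :
    ∃ s zs : ℕ, ∀ z0 : ℕ, zs ≤ z0 → ∀ B : ℕ, ∃ z1 : ℕ, ∀ z : ℕ, z1 ≤ z → Ex k ε s z0 B z := by
  obtain ⟨s, zs, h⟩ := hS4 k ε hε
  refine ⟨s, zs, fun z0 hz0 B => ?_⟩
  obtain ⟨z1, h1⟩ := h z0 hz0 B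
  refine ⟨z1, fun z hz a b hab H hH1 hH2 θ => ?_⟩
  have h2 := h1 z hz a b hab 0 H (by simp) hH1 hH2 θ
  rw [sum_Ioc_int] at h2
  simpa using h2

/-- off-diagonal terms -/
theorem off_diag {z0 z : ℕ} (h : 5 ≤ z0) (γ : Fin 2 → ℤ) {p p' : ℕ} (hp : p.Prime)
    (hp' : p'.Prime) (h1 : z < p) (h2 : z < p') {ε : ℝ} (hε : 0 ≤ ε) {s B : ℕ} (hz : 1 ≤ z)
    (hpB : p ≤ z ^ B) (hpB' : p' ≤ z ^ B) (hγ : ∀ j, |γ j| ≤ (z : ℤ) ^ B)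
    (e1 : Ex 1 ε s z0 B z) (e3 : Ex 3 ε s z0 B z) (e5 : Ex 5 ε s z0 B z)
    (H : ℕ) (hH1 : z ^ s ≤ H) (hH2 : H ≤ z ^ B) (φ : ℝ) :
    ‖∑ m ∈ Finset.Icc 1 H, ((V1 z0 z * (n3 z0 z γ ((p : ℤ) * m) - n1 z0 z m) *
        (n3 z0 z γ ((p' : ℤ) * m) - n1 z0 z m) : ℝ) : ℂ) * ee (φ * m)‖ ≤
      ((1 + ε) * |kap z0 z γ p p' - 1| + 4 * ε) * H := by
  have hzB : (1 : ℤ) ≤ (z : ℤ) ^ B := one_le_pow₀ (by exact_mod_cast hz)
  have hpB1 : ((p : ℤ)) ≤ (z : ℤ) ^ B := by exact_mod_cast hpB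
  have hpB2 : ((p' : ℤ)) ≤ (z : ℤ) ^ B := by exact_mod_cast hpB'
  have hκ := kap_pos h γ hp hp' h1 h2
  -- the five sums
  have f5 := e5 (![1, (p : ℤ), p, p', p']) (![0, γ 0, γ 1, γ 0, γ 1]) (by
    intro j
    refine ⟨?_, ?_, a5_ok hp hp' h1 h2 j⟩
    · fin_cases j <;> simp <;> linarith
    · fin_cases j
      · simp
      · exact hγ 0
      · exact hγ 1
      · exact hγ 0
      · exact hγ 1) H hH1 hH2 φ
  have f3 : ∀ r : ℕ, r.Prime → z < r → r ≤ z ^ B →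
      ‖∑ m ∈ Finset.Icc 1 H, ((n3 z0 z γ ((r : ℤ) * m) - 1 : ℝ) : ℂ) * ee (φ * m)‖ ≤ ε * H := by
    intro r hr hzr hrB
    have hrB1 : ((r : ℤ)) ≤ (z : ℤ) ^ B := by exact_mod_cast hrB
    have g := e3 (fun j => (r : ℤ) * (![1, 1, 1] : Fin 3 → ℤ) j) (![0, γ 0, γ 1]) (by
      intro j
      refine ⟨?_, ?_, ?_⟩
      · fin_cases j <;> simp <;> linarith
      · fin_cases j
        · simp
        · exact hγ 0
        · exact hγ 1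
      · intro q hq
        have hh := not_dvd_of_coprime (coprime_of_gt (z0 := z0) hr hzr) q hq
        fin_cases j <;> simpa using hh) H hH1 hH2 φ
    refine le_trans (le_of_eq ?_) g
    congr 1
    refine Finset.sum_congr rfl (fun m _ => ?_)
    rw [nu_smul z0 z _ _ (r : ℤ) (coprime_of_gt hr hzr)]
    rfl
  have f1 := e1 (![1]) (![0]) (by
    intro j
    refine ⟨?_, ?_, a1_ok j⟩
    · fin_cases j; simp; linarith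
    · fin_cases j; simp) H hH1 hH2 φ
  have f0 : ‖∑ m ∈ Finset.Icc 1 H, ee (φ * m)‖ ≤ H := by
    refine (norm_sum_le _ _).trans ?_
    simp [norm_ee]
  have key : ∑ m ∈ Finset.Icc 1 H, ((V1 z0 z * (n3 z0 z γ ((p : ℤ) * m) - n1 z0 z m) *
        (n3 z0 z γ ((p' : ℤ) * m) - n1 z0 z m) : ℝ) : ℂ) * ee (φ * m) =
      (kap z0 z γ p p' : ℂ) * (∑ m ∈ Finset.Icc 1 H,
        ((n5 z0 z γ p p' (m : ℤ) - 1 : ℝ) : ℂ) * ee (φ * m)) -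
      (∑ m ∈ Finset.Icc 1 H, ((n3 z0 z γ ((p : ℤ) * m) - 1 : ℝ) : ℂ) * ee (φ * m)) -
      (∑ m ∈ Finset.Icc 1 H, ((n3 z0 z γ ((p' : ℤ) * m) - 1 : ℝ) : ℂ) * ee (φ * m)) +
      (∑ m ∈ Finset.Icc 1 H, ((n1 z0 z (m : ℤ) - 1 : ℝ) : ℂ) * ee (φ * m)) +
      ((kap z0 z γ p p' - 1 : ℝ) : ℂ) * ∑ m ∈ Finset.Icc 1 H, ee (φ * m) := by
    rw [Finset.mul_sum, Finset.mul_sum, ← Finset.sum_sub_distrib, ← Finset.sum_sub_distrib,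
      ← Finset.sum_add_distrib, ← Finset.sum_add_distrib]
    refine Finset.sum_congr rfl (fun m _ => ?_)
    rw [expand_eq h γ hp hp' h1 h2 (m : ℤ)]
    push_cast
    ring
  rw [key]
  have hH0 : (0 : ℝ) ≤ H := Nat.cast_nonneg H
  have g5 : ‖(kap z0 z γ p p' : ℂ) * (∑ m ∈ Finset.Icc 1 H,
        ((n5 z0 z γ p p' (m : ℤ) - 1 : ℝ) : ℂ) * ee (φ * m))‖ ≤
        kap z0 z γ p p' * (ε * H) := by
    rw [norm_mul, Complex.norm_real, Real.norm_eq_abs, abs_of_pos hκ]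
    exact mul_le_mul_of_nonneg_left f5 hκ.le
  have g0 : ‖((kap z0 z γ p p' - 1 : ℝ) : ℂ) * ∑ m ∈ Finset.Icc 1 H, ee (φ * m)‖ ≤
      |kap z0 z γ p p' - 1| * H := by
    rw [norm_mul, Complex.norm_real, Real.norm_eq_abs]
    exact mul_le_mul_of_nonneg_left f0 (abs_nonneg _)
  have g3 := f3 p hp h1 hpB
  have g3' := f3 p' hp' h2 hpB'
  have hk1 : kap z0 z γ p p' ≤ |kap z0 z γ p p' - 1| + 1 := by
    have := le_abs_self (kap z0 z γ p p' - 1)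
    linarith
  refine (norm_add_le _ _).trans ?_
  have t1 := (norm_add_le ((kap z0 z γ p p' : ℂ) * (∑ m ∈ Finset.Icc 1 H,
        ((n5 z0 z γ p p' (m : ℤ) - 1 : ℝ) : ℂ) * ee (φ * m)) -
      (∑ m ∈ Finset.Icc 1 H, ((n3 z0 z γ ((p : ℤ) * m) - 1 : ℝ) : ℂ) * ee (φ * m)) -
      (∑ m ∈ Finset.Icc 1 H, ((n3 z0 z γ ((p' : ℤ) * m) - 1 : ℝ) : ℂ) * ee (φ * m)))
      (∑ m ∈ Finset.Icc 1 H, ((n1 z0 z (m : ℤ) - 1 : ℝ) : ℂ) * ee (φ * m)))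
  have t2 := norm_sub_le ((kap z0 z γ p p' : ℂ) * (∑ m ∈ Finset.Icc 1 H,
        ((n5 z0 z γ p p' (m : ℤ) - 1 : ℝ) : ℂ) * ee (φ * m)) -
      (∑ m ∈ Finset.Icc 1 H, ((n3 z0 z γ ((p : ℤ) * m) - 1 : ℝ) : ℂ) * ee (φ * m)))
      (∑ m ∈ Finset.Icc 1 H, ((n3 z0 z γ ((p' : ℤ) * m) - 1 : ℝ) : ℂ) * ee (φ * m))
  have t3 := norm_sub_le ((kap z0 z γ p p' : ℂ) * (∑ m ∈ Finset.Icc 1 H,
        ((n5 z0 z γ p p' (m : ℤ) - 1 : ℝ) : ℂ) * ee (φ * m)))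
      (∑ m ∈ Finset.Icc 1 H, ((n3 z0 z γ ((p : ℤ) * m) - 1 : ℝ) : ℂ) * ee (φ * m))
  have f1' : ‖∑ m ∈ Finset.Icc 1 H, ((n1 z0 z (m : ℤ) - 1 : ℝ) : ℂ) * ee (φ * m)‖ ≤ ε * H := f1
  have t4 : kap z0 z γ p p' * (ε * H) ≤ (|kap z0 z γ p p' - 1| + 1) * (ε * H) :=
    mul_le_mul_of_nonneg_right hk1 (by positivity)
  calc _ ≤ (kap z0 z γ p p' * (ε * H) + ε * H + ε * H + ε * H) +
        |kap z0 z γ p p' - 1| * H := by linarith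
    _ ≤ ((|kap z0 z γ p p' - 1| + 1) * (ε * H) + ε * H + ε * H + ε * H) +
        |kap z0 z γ p p' - 1| * H := by linarith
    _ = _ := by ring

end Pool.Agent.Lib.TwinAll
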