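import Mathlib
import Pool.Agent.Lib.TwinAll.Defs
import Pool.Agent.Lib.TwinAll.Stmts
import Pool.Agent.Lib.TwinAll.Basic94
import Pool.Agent.Lib.TwinAll.L2b_94

/-!
THEOREM A (MP_c6d112_nt), helper94: L2, the estimate of one dyadic block.
-/

set_option autoImplicit false

namespace Pool.Agent.Lib.TwinAll

open Finset

/-- expansion of the weighted second moment -/
theorem second_moment (Qs : Finset ℕ) (M : ℕ) (V : ℝ) (hV : 0 ≤ V) (g : ℕ → ℕ → ℝ) (θ : ℝ) :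
    ∑ m ∈ Finset.Icc 1 M, V * ‖∑ p ∈ Qs, (g p m : ℂ) * ee (θ * ((p : ℝ) * m))‖ ^ 2 ≤
      ∑ p ∈ Qs, ∑ p' ∈ Qs, ‖∑ m ∈ Finset.Icc 1 M,
        ((V * g p m * g p' m : ℝ) : ℂ) * ee ((θ * ((p : ℝ) - p')) * m)‖ := by
  have h1 : ((∑ m ∈ Finset.Icc 1 M,
      V * ‖∑ p ∈ Qs, (g p m : ℂ) * ee (θ * ((p : ℝ) * m))‖ ^ 2 : ℝ) : ℂ) =
      ∑ p ∈ Qs, ∑ p' ∈ Qs, ∑ m ∈ Finset.Icc 1 M,
        ((V * g p m * g p' m : ℝ) : ℂ) * ee ((θ * ((p : ℝ) - p')) * m) := by
    have h2 : ∀ m ∈ Finset.Icc 1 M,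
        ((V * ‖∑ p ∈ Qs, (g p m : ℂ) * ee (θ * ((p : ℝ) * m))‖ ^ 2 : ℝ) : ℂ) =
        ∑ p ∈ Qs, ∑ p' ∈ Qs,
          ((V * g p m * g p' m : ℝ) : ℂ) * ee ((θ * ((p : ℝ) - p')) * m) := by
      intro m _
      have h3 : ((‖∑ p ∈ Qs, (g p m : ℂ) * ee (θ * ((p : ℝ) * m))‖ ^ 2 : ℝ) : ℂ) =
          (∑ p ∈ Qs, (g p m : ℂ) * ee (θ * ((p : ℝ) * m))) *
          (starRingEnd ℂ) (∑ p ∈ Qs, (g p m : ℂ) * ee (θ * ((p : ℝ) * m))) := by
        rw [Complex.mul_conj, Complex.normSq_eq_norm_sq]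
      rw [Complex.ofReal_mul, h3, map_sum, Finset.sum_mul_sum, Finset.mul_sum]
      refine Finset.sum_congr rfl (fun p _ => ?_)
      rw [Finset.mul_sum]
      refine Finset.sum_congr rfl (fun p' _ => ?_)
      rw [map_mul, Complex.conj_ofReal, ← ee_neg]
      have h4 : ee ((θ * ((p : ℝ) - p')) * m) = ee (θ * ((p : ℝ) * m)) *
          ee (-(θ * ((p' : ℝ) * m))) := by
        rw [← ee_add]; congr 1; ring
      rw [h4]
      push_cast
      ring
    rw [Complex.ofReal_sum, Finset.sum_congr rfl h2, Finset.sum_comm]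
    refine Finset.sum_congr rfl (fun p _ => ?_)
    rw [Finset.sum_comm]
  have h5 : 0 ≤ ∑ m ∈ Finset.Icc 1 M,
      V * ‖∑ p ∈ Qs, (g p m : ℂ) * ee (θ * ((p : ℝ) * m))‖ ^ 2 :=
    Finset.sum_nonneg (fun m _ => by positivity)
  rw [← Complex.norm_of_nonneg h5, h1]
  refine (norm_sum_le _ _).trans (Finset.sum_le_sum (fun p _ => norm_sum_le _ _))

theorem block {z0 z : ℕ} (h : 5 ≤ z0) (hz : z0 ≤ z) (γ : Fin 2 → ℤ) {ε ε5 : ℝ}
    (hε : 0 < ε) (hε1 : ε ≤ 1) (h5 : 0 < ε5) {s B : ℕ} (hγ : ∀ j, |γ j| ≤ (z : ℤ) ^ B)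
    (e1 : Ex 1 ε s z0 B z) (e3 : Ex 3 ε s z0 B z) (e5 : Ex 5 ε s z0 B z)
    (P W N : ℕ) (hzP : z ≤ P) (hPW : P ≤ W) (hW : W ≤ 2 * P) (hWB : W ≤ z ^ B)
    (hN : N ≤ z ^ B) (hNs : z ^ s ≤ N / W)
    (hS5 : ∑ p ∈ PP z (2 * P), ∑ p' ∈ (PP z (2 * P)).erase p, |kap z0 z γ p p' - 1| ≤
      ε5 * (((2 * P : ℕ) : ℝ) / Real.log ((2 * P : ℕ) : ℝ)) ^ 2)
    (hcard : ((PP P W).card : ℝ) ≤ 2 * (((2 * P : ℕ) : ℝ) / Real.log ((2 * P : ℕ) : ℝ)))
    (hdiag : 2 * (z : ℝ) ^ 6 ≤ ε5 * (((2 * P : ℕ) : ℝ) / Real.log ((2 * P : ℕ) : ℝ)))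
    (θ : ℝ) :
    ‖∑ p ∈ PP P W, ∑ m ∈ Finset.Icc 1 (N / p),
        ((n3 z0 z γ ((p : ℤ) * m) - n1 z0 z (m : ℤ) : ℝ) : ℂ) * (lam m : ℂ) *
          ee (θ * ((p : ℝ) * m))‖ ≤
      Real.sqrt (8 * (3 * ε5 + 16 * ε)) * N / Real.log P := by
  set Qs := PP P W with hQs
  set M := N / P with hM
  set L : ℝ := ((2 * P : ℕ) : ℝ) / Real.log ((2 * P : ℕ) : ℝ) with hL
  set g : ℕ → ℕ → ℝ := fun p m => if m ≤ N / p then
    (n3 z0 z γ ((p : ℤ) * m) - n1 z0 z (m : ℤ)) else 0 with hg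
  have hz1 : 1 ≤ z := by omega
  have hP0 : 0 < P := by omega
  have hP2 : 2 ≤ P := by omega
  have hprime : ∀ p ∈ Qs, p.Prime := fun p hp => PP_prime hp
  have hgt : ∀ p ∈ Qs, P < p := fun p hp => PP_lt hp
  have hle : ∀ p ∈ Qs, p ≤ W := fun p hp => PP_le hp
  have hzlt : ∀ p ∈ Qs, z < p := fun p hp => lt_of_le_of_lt hzP (hgt p hp)
  have hlogP : 0 < Real.log (P : ℝ) := Real.log_pos (by exact_mod_cast hP2)
  have hlog2P : Real.log (P : ℝ) ≤ Real.log ((2 * P : ℕ) : ℝ) := by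
    refine Real.log_le_log (by exact_mod_cast hP0) ?_
    exact_mod_cast (by omega : P ≤ 2 * P)
  have hlogy : 0 < Real.log ((2 * P : ℕ) : ℝ) := lt_of_lt_of_le hlogP hlog2P
  have hL0 : 0 ≤ L := by rw [hL]; positivity
  have hV1 := V1_pos (z := z) h
  have hV1' : V1 z0 z ≤ 1 := VV_le_one z0 z _ _
  have hNp : ∀ p ∈ Qs, N / p ≤ M := fun p hp => Nat.div_le_div_left (hgt p hp).le hP0
  -- rewrite the sum
  have hS : ∑ p ∈ Qs, ∑ m ∈ Finset.Icc 1 (N / p),
        ((n3 z0 z γ ((p : ℤ) * m) - n1 z0 z (m : ℤ) : ℝ) : ℂ) * (lam m : ℂ) *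
          ee (θ * ((p : ℝ) * m)) =
      ∑ m ∈ Finset.Icc 1 M, (lam m : ℂ) *
        (∑ p ∈ Qs, (g p m : ℂ) * ee (θ * ((p : ℝ) * m))) := by
    have h1 : ∀ p ∈ Qs, ∑ m ∈ Finset.Icc 1 (N / p),
        ((n3 z0 z γ ((p : ℤ) * m) - n1 z0 z (m : ℤ) : ℝ) : ℂ) * (lam m : ℂ) *
          ee (θ * ((p : ℝ) * m)) =
        ∑ m ∈ Finset.Icc 1 M, (g p m : ℂ) * (lam m : ℂ) * ee (θ * ((p : ℝ) * m)) := by
      intro p hp
      have hsub : Finset.Icc 1 (N / p) ⊆ Finset.Icc 1 M :=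
        Finset.Icc_subset_Icc_right (hNp p hp)
      rw [← Finset.sum_subset hsub]
      · refine Finset.sum_congr rfl (fun m hm => ?_)
        rw [Finset.mem_Icc] at hm
        simp only [hg, if_pos hm.2]
      · intro m hm hm'
        rw [Finset.mem_Icc] at hm hm'
        have : ¬ (m ≤ N / p) := fun t => hm' ⟨hm.1, t⟩
        simp only [hg, if_neg this]
        simp
    rw [Finset.sum_congr rfl h1, Finset.sum_comm]
    refine Finset.sum_congr rfl (fun m _ => ?_)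
    rw [Finset.mul_sum]
    refine Finset.sum_congr rfl (fun p _ => ?_)
    ring
  rw [hS]
  set F : ℕ → ℂ := fun m => ∑ p ∈ Qs, (g p m : ℂ) * ee (θ * ((p : ℝ) * m)) with hF
  have hS1 : ‖∑ m ∈ Finset.Icc 1 M, (lam m : ℂ) *
        (∑ p ∈ Qs, (g p m : ℂ) * ee (θ * ((p : ℝ) * m)))‖ ≤ ∑ m ∈ Finset.Icc 1 M, ‖F m‖ := by
    refine (norm_sum_le _ _).trans (Finset.sum_le_sum (fun m _ => ?_))
    rw [norm_mul, norm_lam, one_mul]
  -- Cauchy-Schwarz
  have hCS : (∑ m ∈ Finset.Icc 1 M, ‖F m‖) ^ 2 ≤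
      (∑ m ∈ Finset.Icc 1 M, n1 z0 z (m : ℤ)) *
      (∑ m ∈ Finset.Icc 1 M, V1 z0 z * ‖F m‖ ^ 2) := by
    refine Finset.sum_sq_le_sum_mul_sum_of_sq_le_mul _ (fun m _ => n1_nonneg h _)
      (fun m _ => by positivity) (fun m _ => ?_)
    by_cases hr : n1 z0 z (m : ℤ) = 0
    · have hF0 : F m = 0 := by
        simp only [hF]
        refine Finset.sum_eq_zero (fun p hp => ?_)
        have : g p m = 0 := by
          simp only [hg]
          split_ifs
          · rw [n3_zero_of γ (hprime p hp) (hzlt p hp) hr h, hr, sub_zero]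
          · rfl
        rw [this]; simp
      rw [hF0, hr]; simp
    · have h6 : V1 z0 z * n1 z0 z (m : ℤ) = 1 := by
        have := id3 (z := z) h (m : ℤ)
        have h7 : (V1 z0 z * n1 z0 z (m : ℤ)) * n1 z0 z (m : ℤ) = 1 * n1 z0 z (m : ℤ) := by
          rw [this, one_mul]
        exact mul_right_cancel₀ hr h7
      refine le_of_eq ?_
      calc ‖F m‖ ^ 2 = (V1 z0 z * n1 z0 z (m : ℤ)) * ‖F m‖ ^ 2 := by rw [h6, one_mul]
        _ = _ := by ring
  -- first factor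
  have hWpos : 0 < W := by omega
  have hMs : z ^ s ≤ M := hNs.trans (Nat.div_le_div_left hPW hP0)
  have hMB : M ≤ z ^ B := (Nat.div_le_self _ _).trans hN
  have hn1 : ∑ m ∈ Finset.Icc 1 M, n1 z0 z (m : ℤ) ≤ 2 * M := by
    have h8 := e1 (![1]) (![0]) (by
      intro j
      have hzB : (1 : ℤ) ≤ (z : ℤ) ^ B := one_le_pow₀ (by exact_mod_cast hz1)
      refine ⟨?_, ?_, a1_ok j⟩
      · fin_cases j; simp; linarith
      · fin_cases j; simp) M hMs hMB 0
    have h9 : ∑ m ∈ Finset.Icc 1 M, ((nu z0 z (![1] : Fin 1 → ℤ) ![0] (m : ℤ) - 1 : ℝ) : ℂ) *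
        ee (0 * m) = ((∑ m ∈ Finset.Icc 1 M, (n1 z0 z (m : ℤ) - 1) : ℝ) : ℂ) := by
      rw [Complex.ofReal_sum]
      refine Finset.sum_congr rfl (fun m _ => ?_)
      rw [zero_mul, ee_zero, mul_one]
      rfl
    rw [h9, Complex.norm_real, Real.norm_eq_abs] at h8
    have h10 := (abs_le.1 h8).2
    rw [Finset.sum_sub_distrib] at h10
    simp at h10
    have hM0 : (0 : ℝ) ≤ M := Nat.cast_nonneg M
    nlinarith
  -- second factor
  have hT : ∑ m ∈ Finset.Icc 1 M, V1 z0 z * ‖F m‖ ^ 2 ≤ M * L ^ 2 * (3 * ε5 + 16 * ε) := by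
    refine (second_moment Qs M (V1 z0 z) hV1.le g θ).trans ?_
    have hM0 : (0 : ℝ) ≤ M := Nat.cast_nonneg M
    -- termwise
    have hterm : ∀ p ∈ Qs, ∑ p' ∈ Qs, ‖∑ m ∈ Finset.Icc 1 M,
        ((V1 z0 z * g p m * g p' m : ℝ) : ℂ) * ee ((θ * ((p : ℝ) - p')) * m)‖ ≤
        (∑ p' ∈ Qs.erase p, ((1 + ε) * |kap z0 z γ p p' - 1| + 4 * ε) * M) +
          M * (z : ℝ) ^ 6 := by
      intro p hp
      rw [← Finset.sum_erase_add _ _ hp]
      refine add_le_add (Finset.sum_le_sum (fun p' hp' => ?_)) ?_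
      · have hne : p' ≠ p := Finset.ne_of_mem_erase hp'
        have hp'' : p' ∈ Qs := Finset.mem_of_mem_erase hp'
        set H := min (N / p) (N / p') with hH
        have hHM : H ≤ M := (min_le_left _ _).trans (hNp p hp)
        have hres : ∑ m ∈ Finset.Icc 1 M,
            ((V1 z0 z * g p m * g p' m : ℝ) : ℂ) * ee ((θ * ((p : ℝ) - p')) * m) =
            ∑ m ∈ Finset.Icc 1 H,
            ((V1 z0 z * (n3 z0 z γ ((p : ℤ) * m) - n1 z0 z m) *
              (n3 z0 z γ ((p' : ℤ) * m) - n1 z0 z m) : ℝ) : ℂ) *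
              ee ((θ * ((p : ℝ) - p')) * m) := by
          symm
          have hsub : Finset.Icc 1 H ⊆ Finset.Icc 1 M := Finset.Icc_subset_Icc_right hHM
          rw [← Finset.sum_subset hsub]
          · refine Finset.sum_congr rfl (fun m hm => ?_)
            rw [Finset.mem_Icc] at hm
            have a1 : m ≤ N / p := hm.2.trans (min_le_left _ _)
            have a2 : m ≤ N / p' := hm.2.trans (min_le_right _ _)
            simp only [hg, if_pos a1, if_pos a2]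
          · intro m hm hm'
            rw [Finset.mem_Icc] at hm hm'
            have h11 : ¬ (m ≤ N / p ∧ m ≤ N / p') := fun t => hm' ⟨hm.1, le_min t.1 t.2⟩
            by_cases a1 : m ≤ N / p
            · have a2 : ¬ (m ≤ N / p') := fun t => h11 ⟨a1, t⟩
              simp only [hg, if_neg a2]; simp
            · simp only [hg, if_neg a1]; simp
        rw [hres]
        have hHs : z ^ s ≤ H := by
          refine le_min (hNs.trans ?_) (hNs.trans ?_)
          · exact Nat.div_le_div_left (hle p hp) (hprime p hp).pos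
          · exact Nat.div_le_div_left (hle p' hp'') (hprime p' hp'').pos
        have hod := off_diag h γ (hprime p hp) (hprime p' hp'') (hzlt p hp) (hzlt p' hp'')
          hε.le hz1 ((hle p hp).trans hWB) ((hle p' hp'').trans hWB) hγ e1 e3 e5 H hHs
          (hHM.trans hMB) (θ * ((p : ℝ) - p'))
        refine hod.trans ?_
        have hHM' : (H : ℝ) ≤ M := by exact_mod_cast hHM
        exact mul_le_mul_of_nonneg_left hHM' (by positivity)
      · refine (norm_sum_le _ _).trans ?_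
        have hz0' : (0 : ℝ) ≤ (z : ℝ) := Nat.cast_nonneg z
        have : ∀ m ∈ Finset.Icc 1 M, ‖((V1 z0 z * g p m * g p m : ℝ) : ℂ) *
            ee ((θ * ((p : ℝ) - p)) * m)‖ ≤ (z : ℝ) ^ 6 := by
          intro m _
          rw [norm_mul, norm_ee, mul_one, Complex.norm_real, Real.norm_eq_abs, abs_mul, abs_mul,
            abs_of_pos hV1]
          have hgb : |g p m| ≤ (z : ℝ) ^ 3 := by
            simp only [hg]
            split_ifs
            · rw [abs_le]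
              have b1 := n1_nonneg (z := z) h (m : ℤ)
              have b2 := n3_nonneg (z := z) h γ ((p : ℤ) * m)
              have b3 := n1_le h hz (m : ℤ)
              have b4 := n3_le h hz γ ((p : ℤ) * m)
              constructor <;> linarith
            · rw [abs_zero]; positivity
          have hz3 : (0 : ℝ) ≤ (z : ℝ) ^ 3 := by positivity
          calc V1 z0 z * |g p m| * |g p m| ≤ 1 * (z : ℝ) ^ 3 * (z : ℝ) ^ 3 := by
                gcongr
            _ = (z : ℝ) ^ 6 := by ring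
        refine (Finset.sum_le_sum this).trans ?_
        simp
    refine (Finset.sum_le_sum hterm).trans ?_
    rw [Finset.sum_add_distrib]
    have hsum1 : ∑ p ∈ Qs, ∑ p' ∈ Qs.erase p, ((1 + ε) * |kap z0 z γ p p' - 1| + 4 * ε) * M ≤
        ((1 + ε) * (ε5 * L ^ 2) + 4 * ε * (2 * L) ^ 2) * M := by
      have hsplit : ∑ p ∈ Qs, ∑ p' ∈ Qs.erase p,
          ((1 + ε) * |kap z0 z γ p p' - 1| + 4 * ε) * M =
          ((1 + ε) * (∑ p ∈ Qs, ∑ p' ∈ Qs.erase p, |kap z0 z γ p p' - 1|) +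
            ∑ p ∈ Qs, ∑ _p' ∈ Qs.erase p, 4 * ε) * M := by
        rw [Finset.mul_sum, ← Finset.sum_add_distrib, Finset.sum_mul]
        refine Finset.sum_congr rfl (fun p _ => ?_)
        rw [Finset.mul_sum, ← Finset.sum_add_distrib, Finset.sum_mul]
      rw [hsplit]
      refine mul_le_mul_of_nonneg_right (add_le_add ?_ ?_) hM0
      · refine mul_le_mul_of_nonneg_left ?_ (by positivity)
        refine le_trans ?_ hS5
        have hsub : Qs ⊆ PP z (2 * P) := by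
          intro p hp
          rw [mem_PP]
          exact ⟨⟨hzlt p hp, (hle p hp).trans hW⟩, hprime p hp⟩
        calc ∑ p ∈ Qs, ∑ p' ∈ Qs.erase p, |kap z0 z γ p p' - 1|
            ≤ ∑ p ∈ Qs, ∑ p' ∈ (PP z (2 * P)).erase p, |kap z0 z γ p p' - 1| :=
              Finset.sum_le_sum (fun p _ => Finset.sum_le_sum_of_subset_of_nonneg
                (Finset.erase_subset_erase p hsub) (fun _ _ _ => abs_nonneg _))
          _ ≤ _ := Finset.sum_le_sum_of_subset_of_nonneg hsub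
                (fun p _ _ => Finset.sum_nonneg (fun _ _ => abs_nonneg _))
      · have hc : ∀ p ∈ Qs, ∑ _p' ∈ Qs.erase p, 4 * ε ≤ 4 * ε * (2 * L) := by
          intro p hp
          rw [Finset.sum_const, nsmul_eq_mul, mul_comm]
          refine mul_le_mul_of_nonneg_left ?_ (by positivity)
          refine le_trans ?_ hcard
          exact_mod_cast Finset.card_le_card (Finset.erase_subset p Qs)
        refine (Finset.sum_le_sum hc).trans ?_
        rw [Finset.sum_const, nsmul_eq_mul]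
        calc (Qs.card : ℝ) * (4 * ε * (2 * L)) ≤ (2 * L) * (4 * ε * (2 * L)) :=
              mul_le_mul_of_nonneg_right hcard (by positivity)
          _ = _ := by ring
    have hsum2 : ∑ _p ∈ Qs, (M : ℝ) * (z : ℝ) ^ 6 ≤ M * (ε5 * L ^ 2) := by
      rw [Finset.sum_const, nsmul_eq_mul]
      calc (Qs.card : ℝ) * ((M : ℝ) * (z : ℝ) ^ 6) ≤ (2 * L) * ((M : ℝ) * (z : ℝ) ^ 6) :=
            mul_le_mul_of_nonneg_right hcard (by positivity)
        _ = M * L * (2 * (z : ℝ) ^ 6) := by ring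
        _ ≤ M * L * (ε5 * L) := mul_le_mul_of_nonneg_left hdiag (by positivity)
        _ = _ := by ring
    have hfin : ((1 + ε) * (ε5 * L ^ 2) + 4 * ε * (2 * L) ^ 2) * M + M * (ε5 * L ^ 2) ≤
        M * L ^ 2 * (3 * ε5 + 16 * ε) := by
      have : ((1 + ε) * (ε5 * L ^ 2) + 4 * ε * (2 * L) ^ 2) * M + M * (ε5 * L ^ 2) =
        M * L ^ 2 * ((2 + ε) * ε5 + 16 * ε) := by ring
      rw [this]
      refine mul_le_mul_of_nonneg_left ?_ (by positivity)
      nlinarith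
    linarith
  -- conclusion
  have hE : 0 ≤ 3 * ε5 + 16 * ε := by positivity
  have hM0 : (0 : ℝ) ≤ M := Nat.cast_nonneg M
  have hML : (M : ℝ) * L ≤ 2 * N / Real.log ((2 * P : ℕ) : ℝ) := by
    rw [hL, ← mul_div_assoc]
    refine div_le_div_of_nonneg_right ?_ hlogy.le
    have h12 : (M : ℝ) * P ≤ N := by exact_mod_cast Nat.div_mul_le_self N P
    push_cast
    linarith
  have hsq : (∑ m ∈ Finset.Icc 1 M, ‖F m‖) ^ 2 ≤
      (Real.sqrt (8 * (3 * ε5 + 16 * ε)) * N / Real.log P) ^ 2 := by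
    have h13 : (∑ m ∈ Finset.Icc 1 M, ‖F m‖) ^ 2 ≤
        (2 * M) * (M * L ^ 2 * (3 * ε5 + 16 * ε)) := by
      refine hCS.trans (mul_le_mul hn1 hT ?_ (by positivity))
      exact Finset.sum_nonneg (fun m _ => by positivity)
    have h14 : (2 * (M : ℝ)) * (M * L ^ 2 * (3 * ε5 + 16 * ε)) =
        2 * (3 * ε5 + 16 * ε) * ((M : ℝ) * L) ^ 2 := by ring
    have h15 : ((M : ℝ) * L) ^ 2 ≤ (2 * N / Real.log P) ^ 2 := by
      refine pow_le_pow_left₀ (by positivity) (hML.trans ?_) 2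
      exact div_le_div_of_nonneg_left (by positivity) hlogP hlog2P
    have h16 : (Real.sqrt (8 * (3 * ε5 + 16 * ε)) * N / Real.log P) ^ 2 =
        2 * (3 * ε5 + 16 * ε) * (2 * N / Real.log P) ^ 2 := by
      rw [div_pow, mul_pow, Real.sq_sqrt (by positivity)]
      ring
    rw [h16]
    refine h13.trans ?_
    rw [h14]
    exact mul_le_mul_of_nonneg_left h15 (by positivity)
  have h17 := abs_le_of_sq_le_sq hsq (by positivity)
  exact hS1.trans ((le_abs_self _).trans h17)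

end Pool.Agent.Lib.TwinAll
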