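import Mathlib
import Pool.Agent.Lib.TwinAll.Defs
import Pool.Agent.Lib.TwinAll.Stmts
import Pool.Agent.Lib.TwinAll.Basic94
import Pool.Agent.Lib.TwinAll.L2a_94
import Pool.Agent.Lib.TwinAll.L2b_94
import Pool.Agent.Lib.TwinAll.L2c_94

/-!
THEOREM A (MP_c6d112_nt), helper94: L2, dispersion over the prime `p`.
-/

set_option autoImplicit false

namespace Pool.Agent.Lib.TwinAll

open Finset

theorem Ex.mono {k : ℕ} {ε : ℝ} {s s' z0 B z : ℕ} (h : Ex k ε s z0 B z) (hs : s ≤ s')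
    (hz : 1 ≤ z) : Ex k ε s' z0 B z := by
  intro a b hab H hH1 hH2 θ
  exact h a b hab H ((Nat.pow_le_pow_right hz hs).trans hH1) hH2 θ

theorem L2 (hS4 : S4Stmt) (hS5 : S5Stmt) : L2Stmt := by
  intro R ε hε
  obtain ⟨E, hE⟩ : ∃ E : ℝ, E = ε ^ 2 / 128 := ⟨_, rfl⟩
  have hE0 : 0 < E := by rw [hE]; positivity
  obtain ⟨e4, he4⟩ : ∃ e4 : ℝ, e4 = min 1 (E / 32) := ⟨_, rfl⟩
  have he40 : 0 < e4 := by rw [he4]; exact lt_min one_pos (by positivity)
  have he41 : e4 ≤ 1 := by rw [he4]; exact min_le_left _ _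
  have he4E : 16 * e4 ≤ E / 2 := by
    have : e4 ≤ E / 32 := by rw [he4]; exact min_le_right _ _
    linarith
  obtain ⟨e5, he5⟩ : ∃ e5 : ℝ, e5 = E / 6 := ⟨_, rfl⟩
  have he50 : 0 < e5 := by rw [he5]; positivity
  obtain ⟨s1, zs1, h1⟩ := ex_of_S4 hS4 1 e4 he40
  obtain ⟨s3, zs3, h3⟩ := ex_of_S4 hS4 3 e4 he40
  obtain ⟨s5, zs5, h5⟩ := ex_of_S4 hS4 5 e4 he40
  obtain ⟨sS, hsS⟩ := hS5 R
  refine ⟨max (max s1 s3) (max s5 (max sS 14)), fun c c' hc hcc' => ?_⟩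
  simp only [max_le_iff] at hc
  obtain ⟨⟨hs1, hs3⟩, hs5, hsSc, h14⟩ := hc
  obtain ⟨zsS, hzsS⟩ := hsS (c' + 1) e5 he50
  refine ⟨max 5 (max (max zs1 zs3) (max zs5 zsS)), fun z0 hz0 B => ?_⟩
  simp only [max_le_iff] at hz0
  obtain ⟨hz05, ⟨hzs1, hzs3⟩, hzs5, hzsS'⟩ := hz0
  obtain ⟨B', hB'⟩ : ∃ B', B' = max B (c' + 1) := ⟨_, rfl⟩
  obtain ⟨w1, hw1⟩ := h1 z0 hzs1 B'
  obtain ⟨w3, hw3⟩ := h3 z0 hzs3 B'
  obtain ⟨w5, hw5⟩ := h5 z0 hzs5 B'
  obtain ⟨wS, hwS⟩ := hzsS z0 hzsS'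
  obtain ⟨P1, hP1⟩ := card_PP_le
  obtain ⟨P2, -, hP2⟩ := SS_dyadic
  refine ⟨max (max (max w1 w3) (max w5 wS)) (max (max P1 P2) (max (max R z0)
    (max 3 (Nat.ceil (4 / e5))))), fun z hz γ hγ hγ' N hN1 hN2 θ => ?_⟩
  simp only [max_le_iff] at hz
  obtain ⟨⟨⟨zw1, zw3⟩, zw5, zwS⟩, ⟨zP1, zP2⟩, ⟨zR, zz0⟩, z3, zc⟩ := hz
  have hz1 : 1 ≤ z := by omega
  have hzc : z ≤ z ^ c := by
    calc z = z ^ 1 := (pow_one z).symm
      _ ≤ z ^ c := Nat.pow_le_pow_right hz1 (by omega)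
  have g1 : Ex 1 e4 c z0 B' z := (hw1 z zw1).mono hs1 hz1
  have g3 : Ex 3 e4 c z0 B' z := (hw3 z zw3).mono hs3 hz1
  have g5 : Ex 5 e4 c z0 B' z := (hw5 z zw5).mono hs5 hz1
  have hcB1 : c' + 1 ≤ B' := by rw [hB']; exact le_max_right B (c' + 1)
  have hB1 : 1 ≤ B' := by omega
  have hγB : ∀ j, |γ j| ≤ (z : ℤ) ^ B' := by
    intro j
    have h1 := (hγ j).2
    have h2 : (z : ℤ) ^ 1 ≤ (z : ℤ) ^ B' :=
      pow_le_pow_right₀ (by exact_mod_cast hz1) hB1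
    have h3 : (R : ℤ) ≤ z := by exact_mod_cast zR
    rw [pow_one] at h2
    linarith
  have hcB : c' ≤ B' := by omega
  have hBB : B ≤ B' := by rw [hB']; exact le_max_left _ _
  -- one block
  have hblock : ∀ P W : ℕ, z ^ c ≤ P → P ≤ W → W ≤ 2 * P → W ≤ z ^ c' →
      ‖∑ p ∈ PP P W, ∑ m ∈ Finset.Icc 1 (N / p),
        ((n3 z0 z γ ((p : ℤ) * m) - n1 z0 z (m : ℤ) : ℝ) : ℂ) * (lam m : ℂ) *
          ee (θ * ((p : ℝ) * m))‖ ≤ (ε / 4 * N) / Real.log P := by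
    intro P W hP hPW hW hWc
    have hzP : z ≤ P := hzc.trans hP
    have hy1 : z ^ sS ≤ 2 * P :=
      (Nat.pow_le_pow_right hz1 hsSc).trans (hP.trans (by omega))
    have hy2 : 2 * P ≤ z ^ (c' + 1) := by
      calc 2 * P ≤ z * z ^ c' := Nat.mul_le_mul (by omega) (hPW.trans hWc)
        _ = z ^ (c' + 1) := by ring
    have hS := hwS z zwS γ hγ hγ' (2 * P) hy1 hy2
    have hcard : ((PP P W).card : ℝ) ≤ 2 * (((2 * P : ℕ) : ℝ) / Real.log ((2 * P : ℕ) : ℝ)) := by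
      refine le_trans ?_ (hP1 (2 * P) (by omega) P (by omega))
      exact_mod_cast Finset.card_le_card (PP_mono hW)
    have hzR : (4 : ℝ) / e5 ≤ z := (Nat.le_ceil _).trans (by exact_mod_cast zc)
    have hz4 : (4 : ℝ) ≤ e5 * z := by
      rw [div_le_iff₀ he50] at hzR
      linarith
    have hz0R : (0 : ℝ) < z := by exact_mod_cast (by omega : 0 < z)
    have hdiag : 2 * (z : ℝ) ^ 6 ≤
        e5 * (((2 * P : ℕ) : ℝ) / Real.log ((2 * P : ℕ) : ℝ)) := by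
      have hy14 : ((z : ℝ) ^ 7) ^ 2 ≤ ((2 * P : ℕ) : ℝ) := by
        have : z ^ 14 ≤ 2 * P :=
          (Nat.pow_le_pow_right hz1 h14).trans (hP.trans (by omega))
        calc ((z : ℝ) ^ 7) ^ 2 = ((z ^ 14 : ℕ) : ℝ) := by push_cast; ring
          _ ≤ _ := by exact_mod_cast this
      set y : ℝ := ((2 * P : ℕ) : ℝ) with hy
      have hypos : 0 < y := lt_of_lt_of_le (by positivity) hy14
      have hy3 : 1 < y := by
        rw [hy]; exact_mod_cast (by omega : 1 < 2 * P)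
      have hsq : (z : ℝ) ^ 7 ≤ Real.sqrt y := Real.le_sqrt_of_sq_le hy14
      have hlog : Real.log y ≤ 2 * Real.sqrt y := by
        have h1 := Real.log_le_sub_one_of_pos (Real.sqrt_pos.2 hypos)
        rw [Real.log_sqrt hypos.le] at h1
        linarith
      have hlogpos : 0 < Real.log y := Real.log_pos hy3
      have hdiv : Real.sqrt y / 2 ≤ y / Real.log y := by
        rw [div_le_div_iff₀ (by norm_num) hlogpos]
        have h2 : Real.sqrt y * Real.sqrt y = y := Real.mul_self_sqrt hypos.le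
        calc Real.sqrt y * Real.log y ≤ Real.sqrt y * (2 * Real.sqrt y) :=
              mul_le_mul_of_nonneg_left hlog (Real.sqrt_nonneg y)
          _ = y * 2 := by rw [mul_left_comm, h2, mul_comm]
      calc 2 * (z : ℝ) ^ 6 = 4 * (z : ℝ) ^ 6 / 2 := by ring
        _ ≤ (e5 * z) * (z : ℝ) ^ 6 / 2 := by
            have := mul_le_mul_of_nonneg_right hz4 (by positivity : (0 : ℝ) ≤ (z : ℝ) ^ 6)
            linarith
        _ = e5 * ((z : ℝ) ^ 7 / 2) := by ring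
        _ ≤ e5 * (y / Real.log y) := by
            refine mul_le_mul_of_nonneg_left ?_ he50.le
            refine le_trans ?_ hdiv
            linarith
    have hNW : z ^ c ≤ N / W := by
      have hW0 : 0 < W := by omega
      calc z ^ c ≤ z ^ (3 * c') := Nat.pow_le_pow_right hz1 (by omega)
        _ = z ^ (4 * c') / z ^ c' := by
            rw [Nat.pow_div (by omega) (by omega)]
            congr 1; omega
        _ ≤ N / z ^ c' := Nat.div_le_div_right hN1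
        _ ≤ N / W := Nat.div_le_div_left hWc hW0
    have hb := block hz05 zz0 γ he40 he41 he50 hγB g1 g3 g5 P W N hzP hPW hW
      (hWc.trans (Nat.pow_le_pow_right hz1 hcB)) (hN2.trans (Nat.pow_le_pow_right hz1 hBB))
      hNW hS hcard hdiag θ
    refine hb.trans ?_
    have hlogP : 0 ≤ Real.log (P : ℝ) := Real.log_natCast_nonneg P
    refine div_le_div_of_nonneg_right ?_ hlogP
    refine mul_le_mul_of_nonneg_right ?_ (Nat.cast_nonneg N)
    have : 8 * (3 * e5 + 16 * e4) ≤ (ε / 4) ^ 2 := by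
      have h1 : 8 * (3 * e5 + 16 * e4) ≤ 8 * E := by rw [he5]; linarith
      refine h1.trans (le_of_eq ?_)
      rw [hE]; ring
    calc Real.sqrt (8 * (3 * e5 + 16 * e4)) ≤ Real.sqrt ((ε / 4) ^ 2) := Real.sqrt_le_sqrt this
      _ = ε / 4 := Real.sqrt_sq (by positivity)
  have hzc3 : 3 ≤ z ^ c := z3.trans hzc
  have hfin := sum_blocks (z ^ c) hzc3 (fun P hP => hP2 P (zP2.trans (hzc.trans hP)))
    (fun p => ∑ m ∈ Finset.Icc 1 (N / p),
        ((n3 z0 z γ ((p : ℤ) * m) - n1 z0 z (m : ℤ) : ℝ) : ℂ) * (lam m : ℂ) *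
          ee (θ * ((p : ℝ) * m))) (ε / 4 * N) (by positivity) (z ^ c') hblock
    (z ^ c' - z ^ c) (z ^ c) le_rfl le_rfl
  refine hfin.trans ?_
  have hlog1 : 1 ≤ Real.log ((z ^ c : ℕ) : ℝ) := by
    rw [Real.le_log_iff_exp_le (by exact_mod_cast (by omega : 0 < z ^ c))]
    have h1 := Real.exp_one_lt_d9
    have h2 : (3 : ℝ) ≤ ((z ^ c : ℕ) : ℝ) := by exact_mod_cast hzc3
    linarith
  have hN0 : (0 : ℝ) ≤ ε / 4 * N := by positivity
  have h1 : (ε / 4 * N) / Real.log ((z ^ c : ℕ) : ℝ) ≤ ε / 4 * N := div_le_self hN0 hlog1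
  have hSS := SS_nonneg (z ^ c) (z ^ c')
  have h2 : 4 * (ε / 4 * N) * SS (z ^ c) (z ^ c') + ε / 4 * N ≤
      ε * (1 + SS (z ^ c) (z ^ c')) * N := by
    have : 0 ≤ ε * N := by positivity
    nlinarith
  linarith

end Pool.Agent.Lib.TwinAll
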