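import Mathlib
import Pool.Agent.Lib.TwinAll.L3c88
import Pool.Agent.Lib.TwinAll.Stmts

/-!
THEOREM A (MP_c6d112_nt), module L3: minor arcs.
-/

set_option autoImplicit false

namespace Pool.Agent.Lib.TwinAll.M88

open Pool.Agent.Lib.TwinAll

open Finset

lemma SS_nonneg (x y : ℕ) : 0 ≤ SS x y := by
  unfold SS
  exact Finset.sum_nonneg (fun p _ => by positivity)

lemma log_div_small (K ε : ℝ) (hε : 0 < ε) : ∃ z1 : ℕ, ∀ z : ℕ, z1 ≤ z →
    K * (Real.log z / z) ≤ ε := by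
  have h1 : Filter.Tendsto (fun z : ℕ => K * (Real.log z / z)) Filter.atTop (nhds 0) := by
    have h2 : Filter.Tendsto (fun x : ℝ => Real.log x / x) Filter.atTop (nhds 0) :=
      Real.isLittleO_log_id_atTop.tendsto_div_nhds_zero
    have h3 := (h2.comp tendsto_natCast_atTop_atTop).const_mul K
    rw [mul_zero] at h3
    exact h3
  have h4 := h1.eventually_lt_const hε
  rw [Filter.eventually_atTop] at h4
  obtain ⟨z1, hz1⟩ := h4
  exact ⟨z1, fun z hz => (hz1 z hz).le⟩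

/-- one block, linear form -/
lemma block_lin {S a π y N κ V : ℝ} (hS : 0 ≤ S) (ha : 0 ≤ a) (hπ : 0 ≤ π) (hπy : π ≤ y)
    (hy : 0 < y) (hN : 0 ≤ N) (hκ : 0 ≤ κ) (hV : 0 ≤ V)
    (h : S ^ 2 ≤ (2 * N / y) * (N / y) * (a ^ 2 * π ^ 2 + 2 * π + 2 * V ^ 2 * κ * y ^ 2)) :
    S ≤ N * (3 / 2 * a * (π / y) + 2 / Real.sqrt y + 2 * Real.sqrt κ * V) := by
  have h1 : 0 ≤ N * (3 / 2 * a * (π / y) + 2 / Real.sqrt y + 2 * Real.sqrt κ * V) := by
    positivity
  apply (pow_le_pow_iff_left₀ hS h1 two_ne_zero).1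
  refine h.trans ?_
  have hsy : 0 < Real.sqrt y := Real.sqrt_pos.2 hy
  have hsy2 : Real.sqrt y ^ 2 = y := Real.sq_sqrt hy.le
  have hsk2 : Real.sqrt κ ^ 2 = κ := Real.sq_sqrt hκ
  have hsk : 0 ≤ Real.sqrt κ := Real.sqrt_nonneg _
  obtain ⟨x1, hx1⟩ : ∃ x1, x1 = 3 / 2 * a * (π / y) := ⟨_, rfl⟩
  obtain ⟨x2, hx2⟩ : ∃ x2, x2 = 2 / Real.sqrt y := ⟨_, rfl⟩
  obtain ⟨x3, hx3⟩ : ∃ x3, x3 = 2 * Real.sqrt κ * V := ⟨_, rfl⟩
  have h01 : 0 ≤ x1 := by rw [hx1]; positivity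
  have h02 : 0 ≤ x2 := by rw [hx2]; positivity
  have h03 : 0 ≤ x3 := by rw [hx3]; positivity
  rw [← hx1, ← hx2, ← hx3]
  have h2 : (N * (x1 + x2 + x3)) ^ 2 ≥ N ^ 2 * (x1 ^ 2 + x2 ^ 2 + x3 ^ 2) := by
    have : 0 ≤ N ^ 2 * (2 * (x1 * x2) + 2 * (x1 * x3) + 2 * (x2 * x3)) := by positivity
    nlinarith
  refine le_trans ?_ h2
  have e1 : (2 * N / y) * (N / y) * (a ^ 2 * π ^ 2) ≤ N ^ 2 * x1 ^ 2 := by
    rw [hx1]
    have : (2 * N / y) * (N / y) * (a ^ 2 * π ^ 2) = 2 * (N ^ 2 * (a * (π / y)) ^ 2) := by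
      field_simp
    rw [this]
    have h5 : 0 ≤ N ^ 2 * (a * (π / y)) ^ 2 := by positivity
    nlinarith
  have e2 : (2 * N / y) * (N / y) * (2 * π) ≤ N ^ 2 * x2 ^ 2 := by
    have h5 : N ^ 2 * x2 ^ 2 = 4 * N ^ 2 * y / y ^ 2 := by
      rw [hx2, div_pow, hsy2]; field_simp; norm_num
    have h6 : (2 * N / y) * (N / y) * (2 * π) = 4 * N ^ 2 * π / y ^ 2 := by
      field_simp; ring
    rw [h5, h6]
    gcongr
  have e3 : (2 * N / y) * (N / y) * (2 * V ^ 2 * κ * y ^ 2) ≤ N ^ 2 * x3 ^ 2 := by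
    have h5 : N ^ 2 * x3 ^ 2 = 4 * N ^ 2 * κ * V ^ 2 := by
      rw [hx3]
      calc N ^ 2 * (2 * Real.sqrt κ * V) ^ 2 = 4 * N ^ 2 * Real.sqrt κ ^ 2 * V ^ 2 := by ring
        _ = _ := by rw [hsk2]
    rw [h5]
    apply le_of_eq
    field_simp
    ring
  calc (2 * N / y) * (N / y) * (a ^ 2 * π ^ 2 + 2 * π + 2 * V ^ 2 * κ * y ^ 2)
      = (2 * N / y) * (N / y) * (a ^ 2 * π ^ 2) + (2 * N / y) * (N / y) * (2 * π) +
        (2 * N / y) * (N / y) * (2 * V ^ 2 * κ * y ^ 2) := by ring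
    _ ≤ N ^ 2 * x1 ^ 2 + N ^ 2 * x2 ^ 2 + N ^ 2 * x3 ^ 2 := by linarith
    _ = _ := by ring

end Pool.Agent.Lib.TwinAll.M88

namespace Pool.Agent.Lib.TwinAll

open Finset M88

theorem L3 (h3 : S3Stmt) (h4 : S4Stmt) : L3Stmt := by
  classical
  intro ε hε
  obtain ⟨a, ha⟩ : ∃ a : ℝ, a = min ε 1 / 12 := ⟨_, rfl⟩
  have ha0 : 0 < a := by rw [ha]; positivity
  have ha1 : a ≤ 1 / 12 := by
    rw [ha]; have := min_le_right ε 1; linarith
  have haε : a ≤ ε / 12 := by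
    rw [ha]; have := min_le_left ε 1; linarith
  obtain ⟨K0, hK0⟩ : ∃ K0 : ℝ, K0 = 1 / a ^ 2 := ⟨_, rfl⟩
  have hK00 : 0 < K0 := by rw [hK0]; positivity
  have hcoef : a ^ 2 / 2 + 1 / (2 * K0) = a ^ 2 := by
    rw [hK0]; field_simp; norm_num
  have hε1 : a ^ 2 / 2 ≤ 1 := by nlinarith
  obtain ⟨s4, zs4, H4⟩ := h4 1 (a ^ 2 / 2) (by positivity)
  obtain ⟨s3, zs3, H3⟩ := h3 1 1 one_pos
  refine ⟨s3 + s4 + 2, ?_⟩
  intro c c' hc hcc'
  refine ⟨max zs3 zs4, ?_⟩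
  intro z0 hz0
  obtain ⟨C, hC0, hC⟩ := V1_log z0
  obtain ⟨C1, hC1⟩ : ∃ C1 : ℝ, C1 = (2 * (c' : ℝ) + 1) * C := ⟨_, rfl⟩
  have hC10 : 0 < C1 := by rw [hC1]; positivity
  obtain ⟨κ, hκ⟩ : ∃ κ : ℝ, κ = (ε / (8 * C1)) ^ 2 := ⟨_, rfl⟩
  have hκ0 : 0 < κ := by rw [hκ]; positivity
  have hsκ : Real.sqrt κ = ε / (8 * C1) := by
    rw [hκ]; exact Real.sqrt_sq (by positivity)
  obtain ⟨l, hl⟩ : ∃ l : ℝ, l = max 1 (8 / κ) := ⟨_, rfl⟩
  have hl1 : 1 ≤ l := by rw [hl]; exact le_max_left _ _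
  have hl2 : 8 / κ ≤ l := by rw [hl]; exact le_max_right _ _
  have hl0 : 0 < l := by linarith
  obtain ⟨η, hη⟩ : ∃ η : ℝ, η = κ / (4 * l) := ⟨_, rfl⟩
  have hη0 : 0 < η := by rw [hη]; positivity
  have hκsum : 2 * η * l + 4 / l ^ 3 ≤ κ := by
    have e1 : 2 * η * l = κ / 2 := by rw [hη]; field_simp; norm_num
    have e2 : 4 / l ^ 3 ≤ κ / 2 := by
      rw [div_le_iff₀ (by positivity)]
      rw [div_le_iff₀ hκ0] at hl2
      have e3 : l ≤ l ^ 3 := by nlinarith [mul_pos hl0 hl0]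
      nlinarith
    linarith
  obtain ⟨L, hL⟩ : ∃ L : ℕ, L = ⌈2 / η⌉₊ := ⟨_, rfl⟩
  have hL1 : 1 ≤ L := by rw [hL]; exact Nat.ceil_pos.2 (by positivity)
  have hL2 : 2 / η ≤ L := by rw [hL]; exact Nat.le_ceil _
  refine ⟨L, ⌈K0 / η⌉₊, ?_⟩
  intro B
  obtain ⟨z14, H4'⟩ := H4 z0 (le_trans (le_max_right _ _) hz0) B
  obtain ⟨z13, H3'⟩ := H3 z0 (le_trans (le_max_left _ _) hz0) c'
  obtain ⟨zl, hzl⟩ := log_div_small (4 * (2 * (c' : ℝ) + 1)) (ε / 4) (by positivity)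
  refine ⟨z14 + z13 + zl + z0 + 3 + ⌈2 / η⌉₊ + (⌈3 * K0 * L⌉₊ + 1), ?_⟩
  intro z hz N hN1 hN2 θ
  by_cases hmaj : ∃ q : ℕ, 1 ≤ q ∧ q ≤ L ∧ ∃ a : ℤ, |θ - (a : ℝ) / q| ≤ K0 / (η * N)
  · left
    obtain ⟨q, hq1, hq2, b, hb⟩ := hmaj
    refine ⟨q, hq1, hq2, b, hb.trans ?_⟩
    rw [← div_div]
    exact div_le_div_of_nonneg_right (Nat.le_ceil _) (by positivity)
  right
  have hz3 : 3 ≤ z := by omega
  have hz0z : z0 ≤ z := by omega
  have hzR : (3 : ℝ) ≤ z := by exact_mod_cast hz3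
  have hzpos : 0 < z := by omega
  have hlogz : 1 ≤ Real.log z := by
    have h1 : Real.exp 1 ≤ z := by
      have := Real.exp_one_lt_d9
      linarith
    calc (1 : ℝ) = Real.log (Real.exp 1) := (Real.log_exp 1).symm
      _ ≤ Real.log z := Real.log_le_log (Real.exp_pos 1) h1
  have hc2 : 2 ≤ c := by omega
  have hN0 : 1 ≤ N := le_trans (Nat.one_le_pow _ _ hzpos) hN1
  have hV0 := V1_pos z0 z
  -- the blocks
  obtain ⟨P, hPdef⟩ : ∃ P : ℕ → Finset ℕ, ∀ i, P i = (PP (z ^ c) (z ^ c')).filter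
    (fun p => Nat.log 2 (p - 1) = i) := ⟨_, fun i => rfl⟩
  obtain ⟨I, hI⟩ : ∃ I, I = Nat.log 2 (z ^ c') + 1 := ⟨_, rfl⟩
  obtain ⟨F, hF⟩ : ∃ F : ℕ → ℂ, ∀ p, F p = ∑ m ∈ Finset.Icc 1 (N / p),
    (nu1 z0 z m : ℂ) * (lam m : ℂ) * ee (θ * ((p : ℝ) * m)) := ⟨_, fun p => rfl⟩
  have hmaps : ∀ p ∈ PP (z ^ c) (z ^ c'), Nat.log 2 (p - 1) ∈ Finset.range I := by
    intro p hp
    rw [mem_PP] at hp
    rw [Finset.mem_range, hI]
    exact Nat.lt_succ_of_le (Nat.log_mono_right (by omega))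
  have hfib : ∑ p ∈ PP (z ^ c) (z ^ c'), F p = ∑ i ∈ Finset.range I, ∑ p ∈ P i, F p := by
    rw [← Finset.sum_fiberwise_of_maps_to hmaps]
    apply Finset.sum_congr rfl
    intro i _
    rw [hPdef]
  have hfibS : SS (z ^ c) (z ^ c') = ∑ i ∈ Finset.range I, ∑ p ∈ P i, (1 : ℝ) / p := by
    unfold SS
    rw [← Finset.sum_fiberwise_of_maps_to hmaps]
    apply Finset.sum_congr rfl
    intro i _
    rw [hPdef]
  have hPmem : ∀ i, ∀ p ∈ P i, p.Prime ∧ z < p ∧ 2 ^ i < p ∧ p ≤ 2 * 2 ^ i ∧ z ^ c < p ∧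
      p ≤ z ^ c' := by
    intro i p hp
    rw [hPdef, Finset.mem_filter, mem_PP] at hp
    obtain ⟨⟨⟨h1, h2⟩, h5⟩, h6⟩ := hp
    have h7 := h5.two_le
    have h8 : 2 ^ Nat.log 2 (p - 1) ≤ p - 1 := Nat.pow_log_le_self 2 (by omega)
    have h9 : p - 1 < 2 ^ (Nat.log 2 (p - 1) + 1) := Nat.lt_pow_succ_log_self (by norm_num) _
    rw [h6] at h8 h9
    rw [pow_succ] at h9
    have h10 : z ≤ z ^ c := Nat.le_self_pow (by omega) z
    refine ⟨h5, by omega, by omega, by omega, h1, h2⟩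
  have hlin : ∀ i ∈ Finset.range I, ‖∑ p ∈ P i, F p‖ ≤
      N * (3 * a * (∑ p ∈ P i, (1 : ℝ) / p) + 4 / z + 2 * Real.sqrt κ * V1 z0 z) := by
    intro i _
    rcases Finset.eq_empty_or_nonempty (P i) with hemp | ⟨p0, hp0⟩
    · rw [hemp, Finset.sum_empty, Finset.sum_empty, norm_zero]
      positivity
    obtain ⟨y, hy⟩ : ∃ y, y = 2 ^ i := ⟨_, rfl⟩
    have hy1 : 1 ≤ y := by rw [hy]; exact Nat.one_le_two_pow
    have hyR : (0 : ℝ) < y := by exact_mod_cast hy1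
    have hPm : ∀ p ∈ P i, p.Prime ∧ z < p ∧ y < p ∧ p ≤ 2 * y ∧ z ^ c < p ∧ p ≤ z ^ c' := by
      intro p hp
      rw [hy]
      exact hPmem i p hp
    have h00 := hPm p0 hp0
    have hy2 : z ^ c < 2 * y := by omega
    have hyc' : y < z ^ c' := by omega
    have hyc : z ^ (c - 1) ≤ y := by
      have h1 : z ^ c = z ^ (c - 1) * z := by
        rw [← pow_succ]; congr 1; omega
      have h2 : z ^ (c - 1) * 2 ≤ z ^ (c - 1) * z := Nat.mul_le_mul_left _ (by omega)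
      omega
    -- the exponential sums
    have hexp : ∀ H : ℕ, N / (2 * y) ≤ H → H ≤ N / y → ∀ α : ℝ,
        ‖∑ m ∈ Finset.Icc 1 H, ((nu1 z0 z m - 1 : ℝ) : ℂ) * ee (α * m)‖ ≤ (a ^ 2 / 2) * H := by
      intro H hH1 hH2 α
      have h1 : z ^ s4 ≤ H := by
        refine le_trans ?_ hH1
        rw [Nat.le_div_iff_mul_le (by omega)]
        calc z ^ s4 * (2 * y) ≤ z ^ s4 * (z * z ^ c') := by
              apply Nat.mul_le_mul_left
              exact Nat.mul_le_mul (by omega) hyc'.le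
          _ = z ^ (s4 + 1 + c') := by ring
          _ ≤ z ^ (4 * c') := Nat.pow_le_pow_right hzpos (by omega)
          _ ≤ N := hN1
      have h2 : H ≤ z ^ B := hH2.trans ((Nat.div_le_self _ _).trans hN2)
      have h5 := H4' z (by omega) (![1] : Fin 1 → ℤ) ![0] (by
        intro j
        have hj : j = 0 := Subsingleton.elim _ _
        subst hj
        have h6 : (1 : ℤ) ≤ (z : ℤ) ^ B := by
          exact_mod_cast Nat.one_le_pow B z hzpos
        refine ⟨by simpa using h6, by simp, ?_⟩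
        intro q hq h7
        have h8 : (q : ℤ) ∣ 1 := by simpa using h7
        have h9 : q ∣ 1 := by exact_mod_cast h8
        have h10 := (mem_PP.1 hq).2.one_lt
        have h11 := Nat.dvd_one.1 h9
        omega) 0 H (by simp) h1 h2 α
      have h6 := sum_Icc_cast H (fun n : ℤ => ((nu1 z0 z n - 1 : ℝ) : ℂ) * ee (α * n))
      have h7 : ∑ m ∈ Finset.Icc 1 H, ((nu1 z0 z m - 1 : ℝ) : ℂ) * ee (α * m) =
          ∑ m ∈ Finset.Icc 1 H, ((nu1 z0 z ((m : ℕ) : ℤ) - 1 : ℝ) : ℂ) *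
            ee (α * (((m : ℕ) : ℤ) : ℝ)) := by
        apply Finset.sum_congr rfl
        intro m _
        rw [Int.cast_natCast]
      rw [h7, h6]
      exact h5
    -- fourth moments
    have hfour : ∑ t ∈ Finset.Ioo (-(y : ℤ)) y,
        (∑ n ∈ (Finset.Ioc (y : ℤ) (y + y)).filter (fun n => n + t ∈ Finset.Ioc (y : ℤ) (y + y)),
          nu1 z0 z n * nu1 z0 z (n + t)) ^ 4 ≤ 4 * (y : ℝ) ^ 5 := by
      have h5 := (H3' z (by omega) (![1] : Fin 1 → ℤ) ![0] (by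
        intro j
        have hj : j = 0 := Subsingleton.elim _ _
        subst hj
        have h6 : (1 : ℤ) ≤ (z : ℤ) ^ c' := by
          exact_mod_cast Nat.one_le_pow c' z hzpos
        refine ⟨by simpa using h6, by simp, ?_⟩
        intro q hq h7
        have h8 : (q : ℤ) ∣ 1 := by simpa using h7
        have h9 : q ∣ 1 := by exact_mod_cast h8
        have h10 := (mem_PP.1 hq).2.one_lt
        have h11 := Nat.dvd_one.1 h9
        omega) (y : ℤ) y (by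
          rw [abs_of_nonneg (by positivity)]
          exact_mod_cast hyc'.le) (le_trans (Nat.pow_le_pow_right hzpos (by omega)) hyc)
          hyc'.le).2
      exact h5
    have hzη : 2 / η ≤ z := by
      refine (Nat.le_ceil _).trans ?_
      exact_mod_cast (by omega : ⌈2 / η⌉₊ ≤ z)
    have hzy : z ≤ y := le_trans (Nat.le_self_pow (by omega) z) hyc
    have hzyR : (z : ℝ) ≤ y := by exact_mod_cast hzy
    have hηy : 2 ≤ η * y := by
      rw [div_le_iff₀ hη0] at hzη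
      nlinarith
    have hNR : (1 : ℝ) ≤ N := by exact_mod_cast hN0
    have hNpos : (0 : ℝ) < N := by linarith
    have hsmall : (2 * (y : ℝ) + 1) * (K0 * y / N) * L < 1 := by
      have h1 : (y : ℝ) ≤ (z : ℝ) ^ c' := by exact_mod_cast hyc'.le
      have h2 : ((z : ℝ) ^ c') ^ 4 ≤ N := by
        rw [← pow_mul, mul_comm c' 4]
        exact_mod_cast hN1
      have h5 : 3 * K0 * L < z := by
        have h6 : 3 * K0 * L ≤ (⌈3 * K0 * L⌉₊ : ℝ) := Nat.le_ceil _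
        have h7 : (⌈3 * K0 * L⌉₊ : ℝ) < z := by
          exact_mod_cast (by omega : ⌈3 * K0 * L⌉₊ < z)
        linarith
      have hy1R : (1 : ℝ) ≤ y := by exact_mod_cast hy1
      have hLR : (0 : ℝ) < L := by exact_mod_cast hL1
      have h6 : (2 * (y : ℝ) + 1) * (K0 * y / N) * L = ((2 * (y : ℝ) + 1) * y * K0 * L) / N := by
        field_simp
      rw [h6, div_lt_one hNpos]
      refine lt_of_lt_of_le ?_ h2
      have h7 : (2 * (y : ℝ) + 1) * y * K0 * L ≤ 3 * K0 * L * (y : ℝ) ^ 2 := by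
        have : 0 ≤ K0 * L * y := by positivity
        nlinarith
      have h8 : 3 * K0 * L * (y : ℝ) ^ 2 < z * (y : ℝ) ^ 2 := by
        apply mul_lt_mul_of_pos_right h5 (by positivity)
      have h9 : (z : ℝ) * (y : ℝ) ^ 2 ≤ (y : ℝ) * (y : ℝ) ^ 2 :=
        mul_le_mul_of_nonneg_right hzyR (by positivity)
      have h10 : (y : ℝ) * (y : ℝ) ^ 2 ≤ (y : ℝ) ^ 4 := by
        have : (0 : ℝ) ≤ (y : ℝ) ^ 3 := by positivity
        nlinarith
      have h11 : (y : ℝ) ^ 4 ≤ ((z : ℝ) ^ c') ^ 4 := pow_le_pow_left₀ hyR.le h1 4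
      linarith
    have hb := block_main z0 z N y L (P i) θ (a ^ 2 / 2) K0 η l hy1 hN0 (by positivity) hε1 hK00
      hη0 hl0 hL1 hL2 (fun p hp => ⟨(hPm p hp).1, (hPm p hp).2.1, (hPm p hp).2.2.1,
        (hPm p hp).2.2.2.1⟩) hexp hfour hηy hsmall hmaj
    have hcard : ((P i).card : ℝ) ≤ y := by
      have h1 : P i ⊆ Finset.Ioc y (2 * y) := by
        intro p hp
        rw [Finset.mem_Ioc]
        exact ⟨(hPm p hp).2.2.1, (hPm p hp).2.2.2.1⟩
      have h2 := Finset.card_le_card h1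
      rw [Nat.card_Ioc] at h2
      exact_mod_cast (by omega : (P i).card ≤ y)
    rw [hcoef] at hb
    have hb2 : ‖∑ p ∈ P i, F p‖ ^ 2 ≤ (2 * N / y) * ((N : ℝ) / y) *
        (a ^ 2 * ((P i).card : ℝ) ^ 2 + 2 * (P i).card + 2 * (V1 z0 z) ^ 2 * κ * (y : ℝ) ^ 2) := by
      have h1 : ∑ p ∈ P i, F p = ∑ p ∈ P i, ∑ m ∈ Finset.Icc 1 (N / p),
          (nu1 z0 z m : ℂ) * (lam m : ℂ) * ee (θ * ((p : ℝ) * m)) :=
        Finset.sum_congr rfl (fun p _ => hF p)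
      rw [h1]
      refine hb.trans ?_
      apply mul_le_mul_of_nonneg_left _ (by positivity)
      have h2 : 2 * (V1 z0 z) ^ 2 * (2 * η * l + 4 / l ^ 3) * (y : ℝ) ^ 2 ≤
          2 * (V1 z0 z) ^ 2 * κ * (y : ℝ) ^ 2 := by
        apply mul_le_mul_of_nonneg_right _ (by positivity)
        exact mul_le_mul_of_nonneg_left hκsum (by positivity)
      linarith
    have hb3 := block_lin (norm_nonneg _) ha0.le (by positivity) hcard hyR hNpos.le hκ0.le hV0.le hb2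
    refine hb3.trans ?_
    apply mul_le_mul_of_nonneg_left _ hNpos.le
    have e1 : ((P i).card : ℝ) / y ≤ 2 * ∑ p ∈ P i, (1 : ℝ) / p := by
      rw [Finset.mul_sum, ← nsmul_one, ← Finset.sum_const, Finset.sum_div]
      apply Finset.sum_le_sum
      intro p hp
      have h1 := (hPm p hp).2.2.2.1
      have h2 : (p : ℝ) ≤ 2 * y := by exact_mod_cast h1
      have h5 : (0 : ℝ) < p := by exact_mod_cast (hPm p hp).1.pos
      rw [mul_one_div, div_le_div_iff₀ hyR h5]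
      linarith
    have e2 : 2 / Real.sqrt y ≤ 4 / z := by
      have h1 : (z : ℝ) / 2 ≤ Real.sqrt y := by
        apply Real.le_sqrt_of_sq_le
        have h2 : z ^ 2 ≤ 2 * y := le_trans (Nat.pow_le_pow_right hzpos hc2) hy2.le
        have h5 : (z : ℝ) ^ 2 ≤ 2 * y := by exact_mod_cast h2
        nlinarith
      have hz0' : (0 : ℝ) < z := by linarith
      have hs0 : 0 < Real.sqrt y := Real.sqrt_pos.2 hyR
      rw [div_le_div_iff₀ hs0 hz0']
      linarith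
    have e3 : 3 / 2 * a * (((P i).card : ℝ) / y) ≤ 3 * a * ∑ p ∈ P i, (1 : ℝ) / p := by
      calc 3 / 2 * a * (((P i).card : ℝ) / y) ≤ 3 / 2 * a * (2 * ∑ p ∈ P i, (1 : ℝ) / p) :=
            mul_le_mul_of_nonneg_left e1 (by positivity)
        _ = _ := by ring
    linarith
  have hNR : (1 : ℝ) ≤ N := by exact_mod_cast hN0
  have hgoal : ‖∑ p ∈ PP (z ^ c) (z ^ c'), F p‖ ≤ ε * (1 + SS (z ^ c) (z ^ c')) * N := by
    rw [hfib]
    refine (norm_sum_le _ _).trans ((Finset.sum_le_sum hlin).trans ?_)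
    rw [← Finset.mul_sum]
    have h1 : ∑ i ∈ Finset.range I, (3 * a * (∑ p ∈ P i, (1 : ℝ) / p) + 4 / z +
        2 * Real.sqrt κ * V1 z0 z) = 3 * a * SS (z ^ c) (z ^ c') + I * (4 / z) +
        I * (2 * Real.sqrt κ * V1 z0 z) := by
      rw [Finset.sum_add_distrib, Finset.sum_add_distrib, ← Finset.mul_sum, ← hfibS,
        Finset.sum_const, Finset.sum_const, Finset.card_range, nsmul_eq_mul, nsmul_eq_mul]
    rw [h1]
    have hIlog : (I : ℝ) ≤ (2 * c' + 1) * Real.log z := by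
      have h2 : ((Nat.log 2 (z ^ c') : ℕ) : ℝ) * Real.log 2 ≤ c' * Real.log z := by
        have h5 : (2 : ℝ) ^ (Nat.log 2 (z ^ c')) ≤ (z : ℝ) ^ c' := by
          exact_mod_cast Nat.pow_log_le_self 2 (by positivity)
        have h6 := Real.log_le_log (by positivity) h5
        rw [Real.log_pow, Real.log_pow] at h6
        exact h6
      have h5 : (1 : ℝ) / 2 ≤ Real.log 2 := by
        have := Real.log_two_gt_d9
        linarith
      have h6 : ((Nat.log 2 (z ^ c') : ℕ) : ℝ) * (1 / 2) ≤ c' * Real.log z :=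
        le_trans (mul_le_mul_of_nonneg_left h5 (by positivity)) h2
      rw [hI]
      push_cast
      linarith
    have hSS := SS_nonneg (z ^ c) (z ^ c')
    have g1 : 3 * a * SS (z ^ c) (z ^ c') ≤ ε / 4 * SS (z ^ c) (z ^ c') := by
      apply mul_le_mul_of_nonneg_right _ hSS
      linarith
    have g2 : (I : ℝ) * (4 / z) ≤ ε / 4 := by
      refine le_trans ?_ (hzl z (by omega))
      have h2 := mul_le_mul_of_nonneg_right hIlog (by positivity : (0 : ℝ) ≤ 4 / z)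
      refine h2.trans (le_of_eq ?_)
      ring
    have g3 : (I : ℝ) * (2 * Real.sqrt κ * V1 z0 z) ≤ ε / 4 := by
      have h2 := hC z (by omega) hz0z
      rw [hsκ]
      calc (I : ℝ) * (2 * (ε / (8 * C1)) * V1 z0 z) ≤
            ((2 * c' + 1) * Real.log z) * (2 * (ε / (8 * C1)) * V1 z0 z) :=
              mul_le_mul_of_nonneg_right hIlog (by positivity)
        _ = (2 * (ε / (8 * C1))) * ((2 * c' + 1) * (V1 z0 z * Real.log z)) := by ring
        _ ≤ (2 * (ε / (8 * C1))) * ((2 * c' + 1) * C) := by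
              apply mul_le_mul_of_nonneg_left _ (by positivity)
              exact mul_le_mul_of_nonneg_left h2 (by positivity)
        _ = ε / 4 := by
              rw [← hC1]
              field_simp
              norm_num
    have hN' : (0 : ℝ) ≤ N := by positivity
    calc (N : ℝ) * (3 * a * SS (z ^ c) (z ^ c') + I * (4 / z) + I * (2 * Real.sqrt κ * V1 z0 z))
        ≤ N * (ε * (1 + SS (z ^ c) (z ^ c'))) := by
          apply mul_le_mul_of_nonneg_left _ hN'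
          nlinarith
      _ = _ := by ring
  have hfin : ∑ p ∈ PP (z ^ c) (z ^ c'), F p = ∑ p ∈ PP (z ^ c) (z ^ c'),
      ∑ m ∈ Finset.Icc 1 (N / p),
        ((nu z0 z (![1] : Fin 1 → ℤ) ![0] (m : ℤ) : ℝ) : ℂ) * (lam m : ℂ) *
          ee (θ * ((p : ℝ) * m)) := by
    apply Finset.sum_congr rfl
    intro p _
    rw [hF]
    rfl
  rw [← hfin]
  exact hgoal

end Pool.Agent.Lib.TwinAll
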