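import Mathlib
import Pool.Agent.Lib.TwinAll.Stmts
import Pool.Agent.Lib.TwinAll.Aff81
import Pool.Agent.Lib.TwinAll.S4x69

/-!
THEOREM A (MP_c6d112_nt): LEMMA L from L1, L2, L3, L4.
-/

set_option autoImplicit false

namespace Pool.Agent.Lib.TwinAll

open A81

open Finset

theorem lam_prime_mul69 {p m : ℕ} (hp : p.Prime) (hm : m ≠ 0) : lam (p * m) = -lam m := by
  unfold lam
  rw [ArithmeticFunction.cardFactors_mul hp.ne_zero hm,
    ArithmeticFunction.cardFactors_apply_prime hp, pow_add, pow_one, neg_one_mul]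

theorem abs_lam69 (m : ℕ) : |lam m| = 1 := by
  unfold lam
  rw [abs_pow, abs_neg, abs_one, one_pow]

/-- interchange: a sum weighted by the number of prime divisors in `P` -/
theorem sum_divisor_count69 (P : Finset ℕ) (hP : ∀ p ∈ P, p ≠ 0) (N : ℕ) (w : ℕ → ℂ) :
    ∑ y ∈ Finset.Icc 1 N, w y * ((P.filter (fun p => p ∣ y)).card : ℂ) =
      ∑ p ∈ P, ∑ m ∈ Finset.Icc 1 (N / p), w (p * m) := by
  have h1 : ∀ y ∈ Finset.Icc 1 N, w y * ((P.filter (fun p => p ∣ y)).card : ℂ) =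
      ∑ p ∈ P, if p ∣ y then w y else 0 := by
    intro y _
    rw [← Finset.sum_filter, Finset.sum_const, nsmul_eq_mul, mul_comm]
  rw [Finset.sum_congr rfl h1, Finset.sum_comm]
  apply Finset.sum_congr rfl
  intro p hp
  have hp0 : 0 < p := Nat.pos_of_ne_zero (hP p hp)
  rw [← Finset.sum_filter]
  symm
  apply Finset.sum_nbij' (fun m => p * m) (fun y => y / p)
  · intro m hm
    rw [Finset.mem_Icc] at hm
    rw [Finset.mem_filter, Finset.mem_Icc]
    refine ⟨⟨Nat.mul_pos hp0 hm.1, ?_⟩, Dvd.intro _ rfl⟩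
    calc p * m ≤ p * (N / p) := Nat.mul_le_mul_left _ hm.2
      _ ≤ N := Nat.mul_div_le N p
  · intro y hy
    rw [Finset.mem_filter, Finset.mem_Icc] at hy
    rw [Finset.mem_Icc]
    obtain ⟨m, rfl⟩ := hy.2
    rw [Nat.mul_div_cancel_left _ hp0]
    constructor
    · rcases Nat.eq_zero_or_pos m with rfl | h
      · simp at hy
      · exact h
    · rw [Nat.le_div_iff_mul_le hp0, mul_comm]
      exact hy.1.2
  · intro m _
    exact Nat.mul_div_cancel_left _ hp0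
  · intro y hy
    rw [Finset.mem_filter] at hy
    exact Nat.mul_div_cancel' hy.2
  · intro m _
    rfl

theorem Lam (h1 : L1Stmt) (h2 : L2Stmt) (h3 : L3Stmt) (h4 : L4Stmt) : LamStmt := by
  intro R ε hε
  obtain ⟨s1, κ1, zs1, H1⟩ := h1 R (ε / 5) (by positivity)
  obtain ⟨s2, H2⟩ := h2 R (ε / 5) (by positivity)
  obtain ⟨s3, H3⟩ := h3 (ε / 5) (by positivity)
  obtain ⟨s4, κ4, zs4, H4⟩ := h4 (ε / 5) (by positivity)
  set c : ℕ := s1 + s2 + s3 + s4 + 1 with hc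
  set c' : ℕ := (κ1 + κ4 + 2) * c with hc'
  have hcc' : c < c' := by
    rw [hc']
    have : 0 < c := by omega
    nlinarith
  have hκ1 : κ1 * c ≤ c' := by
    rw [hc']; exact Nat.mul_le_mul_right _ (by omega)
  have hκ4 : κ4 * c ≤ c' := by
    rw [hc']; exact Nat.mul_le_mul_right _ (by omega)
  obtain ⟨zs2, H2⟩ := H2 c c' (by omega) hcc'
  obtain ⟨zs3, H3⟩ := H3 c c' (by omega) hcc'
  refine ⟨4 * c', max (max zs1 zs2) (max zs3 zs4), fun z0 hz0 B => ?_⟩
  have hz01 : zs1 ≤ z0 := le_trans (le_trans (le_max_left _ _) (le_max_left _ _)) hz0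
  have hz02 : zs2 ≤ z0 := le_trans (le_trans (le_max_right _ _) (le_max_left _ _)) hz0
  have hz03 : zs3 ≤ z0 := le_trans (le_trans (le_max_left _ _) (le_max_right _ _)) hz0
  have hz04 : zs4 ≤ z0 := le_trans (le_trans (le_max_right _ _) (le_max_right _ _)) hz0
  obtain ⟨Q, T, H3⟩ := H3 z0 hz03
  obtain ⟨z1, H1⟩ := H1 z0 hz01 c c' (by omega) hκ1 B
  obtain ⟨z2, H2⟩ := H2 z0 hz02 B
  obtain ⟨z3, H3⟩ := H3 B
  obtain ⟨z4, H4⟩ := H4 z0 hz04 c c' (by omega) hκ4 Q T B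
  refine ⟨max (max z1 z2) (max z3 z4), fun z hz γ hγ hγ01 N hN1 hN2 θ => ?_⟩
  have hz1 : z1 ≤ z := le_trans (le_trans (le_max_left _ _) (le_max_left _ _)) hz
  have hz2 : z2 ≤ z := le_trans (le_trans (le_max_right _ _) (le_max_left _ _)) hz
  have hz3 : z3 ≤ z := le_trans (le_trans (le_max_left _ _) (le_max_right _ _)) hz
  have hz4 : z4 ≤ z := le_trans (le_trans (le_max_right _ _) (le_max_right _ _)) hz
  obtain ⟨hS1, H1⟩ := H1 z hz1
  have G1 := H1 2 ![0, γ 0, γ 1] (le_refl 2) rfl (by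
    intro j
    fin_cases j
    · simp
    · exact (hγ 0).2
    · exact (hγ 1).2) (by
    intro i j hij
    fin_cases i <;> fin_cases j <;> first
      | rfl
      | (exfalso; simp at hij; first
          | exact (hγ 0).1 hij
          | exact (hγ 0).1 hij.symm
          | exact (hγ 1).1 hij
          | exact (hγ 1).1 hij.symm
          | exact hγ01 hij
          | exact hγ01 hij.symm)) N hN1 hN2
  have G2 := H2 z hz2 γ hγ hγ01 N hN1 hN2 θ
  set P := PP (z ^ c) (z ^ c') with hP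
  set S := SS (z ^ c) (z ^ c') with hS
  have G34 : ‖∑ p ∈ P, ∑ m ∈ Finset.Icc 1 (N / p),
        ((nu z0 z (![1] : Fin 1 → ℤ) ![0] (m : ℤ) : ℝ) : ℂ) * (lam m : ℂ) *
          ee (θ * ((p : ℝ) * m))‖ ≤ ε / 5 * (1 + S) * N := by
    rcases H3 z hz3 N hN1 hN2 θ with ⟨q, hq1, hqQ, a, ha⟩ | h
    · exact H4 z hz4 N hN1 hN2 q a θ hq1 hqQ ha
    · exact h
  have hone : (fun _ : Fin 3 => (1 : ℤ)) = ![1, 1, 1] := by
    funext j; fin_cases j <;> rfl
  have G1' : ∑ y ∈ Finset.Icc 1 N, nu z0 z (![1, 1, 1] : Fin 3 → ℤ) ![0, γ 0, γ 1] (y : ℤ) *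
        |1 - ((P.filter (fun p => p ∣ y)).card : ℝ) / S| ≤ ε / 5 * N := by
    rw [← hone]; exact G1
  clear G1 H1 H2 H3 H4
  set n3 : ℤ → ℝ := nu z0 z (![1, 1, 1] : Fin 3 → ℤ) ![0, γ 0, γ 1] with hn3
  set n1 : ℤ → ℝ := nu z0 z (![1] : Fin 1 → ℤ) ![0] with hn1
  set w : ℕ → ℂ := fun y => ((n3 (y : ℤ) : ℝ) : ℂ) * (lam y : ℂ) * ee (θ * y) with hw
  have hS0 : (0 : ℝ) < S := by linarith
  -- step 1
  have E1 : ‖∑ y ∈ Finset.Icc 1 N, w y - (∑ y ∈ Finset.Icc 1 N, w y *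
      ((P.filter (fun p => p ∣ y)).card : ℂ)) / (S : ℂ)‖ ≤ ε / 5 * N := by
    rw [Finset.sum_div, ← Finset.sum_sub_distrib]
    refine le_trans (norm_sum_le _ _) (le_trans (Finset.sum_le_sum ?_) G1')
    intro y _
    have e1 : w y - w y * ((P.filter (fun p => p ∣ y)).card : ℂ) / (S : ℂ) =
        w y * (((1 - ((P.filter (fun p => p ∣ y)).card : ℝ) / S : ℝ)) : ℂ) := by
      push_cast; ring
    rw [e1, norm_mul, Complex.norm_real, Real.norm_eq_abs]
    apply mul_le_mul_of_nonneg_right _ (abs_nonneg _)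
    rw [hw]
    simp only
    rw [norm_mul, norm_mul, ee_norm69, mul_one, Complex.norm_real, Complex.norm_real,
      Real.norm_eq_abs, Real.norm_eq_abs, abs_lam69, mul_one]
    exact le_of_eq (abs_of_nonneg (by
      rw [hn3]
      unfold nu
      split_ifs
      · apply inv_nonneg.2
        unfold VV
        apply Finset.prod_nonneg
        intro q hq
        have h0 : 0 < q := (mem_PP.1 hq).2.2.pos
        have h5 := om_le_self (![1, 1, 1] : Fin 3 → ℤ) ![0, γ 0, γ 1] q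
        rw [sub_nonneg, div_le_one (by exact_mod_cast h0)]
        exact_mod_cast h5
      · exact le_refl 0))
  -- step 2
  have E2 : ∑ y ∈ Finset.Icc 1 N, w y * ((P.filter (fun p => p ∣ y)).card : ℂ) =
      -(∑ p ∈ P, ∑ m ∈ Finset.Icc 1 (N / p),
        ((n3 ((p : ℤ) * m) - n1 (m : ℤ) : ℝ) : ℂ) * (lam m : ℂ) * ee (θ * ((p : ℝ) * m)) +
        ∑ p ∈ P, ∑ m ∈ Finset.Icc 1 (N / p),
        ((n1 (m : ℤ) : ℝ) : ℂ) * (lam m : ℂ) * ee (θ * ((p : ℝ) * m))) := by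
    rw [sum_divisor_count69 P (fun p hp => (mem_PP.1 (hP ▸ hp)).2.2.ne_zero) N w,
      ← Finset.sum_add_distrib, ← Finset.sum_neg_distrib]
    apply Finset.sum_congr rfl
    intro p hp
    rw [← Finset.sum_add_distrib, ← Finset.sum_neg_distrib]
    apply Finset.sum_congr rfl
    intro m hm
    rw [Finset.mem_Icc] at hm
    have hpp : p.Prime := (mem_PP.1 (hP ▸ hp)).2.2
    rw [hw]
    simp only
    rw [lam_prime_mul69 hpp (by omega)]
    push_cast
    ring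
  have E3 : ‖∑ y ∈ Finset.Icc 1 N, w y * ((P.filter (fun p => p ∣ y)).card : ℂ)‖ ≤
      2 * (ε / 5 * (1 + S) * N) := by
    rw [E2, norm_neg]
    refine le_trans (norm_add_le _ _) ?_
    have := add_le_add G2 G34
    linarith
  have E4 : ‖(∑ y ∈ Finset.Icc 1 N, w y * ((P.filter (fun p => p ∣ y)).card : ℂ)) / (S : ℂ)‖ ≤
      4 * (ε / 5) * N := by
    rw [norm_div, Complex.norm_real, Real.norm_eq_abs, abs_of_pos hS0, div_le_iff₀ hS0]
    refine le_trans E3 ?_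
    have h6 : 0 ≤ ε / 5 * (N : ℝ) := by positivity
    nlinarith
  calc ‖∑ y ∈ Finset.Icc 1 N, w y‖
      = ‖(∑ y ∈ Finset.Icc 1 N, w y - (∑ y ∈ Finset.Icc 1 N, w y *
        ((P.filter (fun p => p ∣ y)).card : ℂ)) / (S : ℂ)) +
        (∑ y ∈ Finset.Icc 1 N, w y * ((P.filter (fun p => p ∣ y)).card : ℂ)) / (S : ℂ)‖ := by
        congr 1; ring
    _ ≤ ε / 5 * N + 4 * (ε / 5) * N := le_trans (norm_add_le _ _) (add_le_add E1 E4)
    _ = ε * N := by ring

end Pool.Agent.Lib.TwinAll
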