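import Pool.Agent.Lib.TwinAll.L4c64
import Pool.Agent.Lib.TwinAll.Lam69

/-!
THEOREM A (MP_c6d112_nt), module L4: major arcs.
-/

set_option autoImplicit false

open Filter Topology

namespace Pool.Agent.Lib.TwinAll

open Finset

theorem l4_sum_int (H : ℕ) (f : ℤ → ℝ) :
    ∑ n ∈ Finset.Ioc (0 : ℤ) (0 + (H : ℤ)), f n = ∑ m ∈ Finset.Icc 1 H, f (m : ℤ) := by
  symm
  refine Finset.sum_bij (fun m _ => (m : ℤ)) ?_ ?_ ?_ ?_
  · intro m hm
    rw [Finset.mem_Icc] at hm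
    rw [Finset.mem_Ioc]
    omega
  · intro m _ m' _ h
    exact_mod_cast h
  · intro n hn
    rw [Finset.mem_Ioc] at hn
    exact ⟨n.toNat, by rw [Finset.mem_Icc]; omega, by omega⟩
  · intro m _
    rfl

/-- multiplication by a prime above `z` does not change roughness -/
theorem l4_nu_mul {z0 z p : ℕ} (hp : p.Prime) (hz : z < p) (m : ℕ) :
    nu z0 z (![1] : Fin 1 → ℤ) ![0] ((p * m : ℕ) : ℤ) = nu z0 z (![1] : Fin 1 → ℤ) ![0] (m : ℤ) := by
  have h1 : Rough z0 z ((p * m : ℕ) : ℤ) ↔ Rough z0 z (m : ℤ) := by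
    unfold Rough
    refine forall₂_congr fun q hq => ?_
    rw [pp_mem64] at hq
    have h2 : ¬ q ∣ p := by
      intro h
      have := (Nat.prime_dvd_prime_iff_eq hq.2 hp).1 h
      omega
    rw [Int.natCast_dvd_natCast, Int.natCast_dvd_natCast, hq.2.dvd_mul]
    simp [h2]
  unfold nu
  have h3 : ∀ n : ℤ, (∀ j : Fin 1, Rough z0 z ((![1] : Fin 1 → ℤ) j * n + (![0] : Fin 1 → ℤ) j)) ↔
      Rough z0 z n := by
    intro n
    constructor
    · intro h
      have := h 0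
      simpa using this
    · intro h j
      fin_cases j
      simpa using h
  by_cases h : Rough z0 z (m : ℤ)
  · rw [if_pos ((h3 _).2 (h1.2 h)), if_pos ((h3 _).2 h)]
  · rw [if_neg (fun h4 => h (h1.1 ((h3 _).1 h4))), if_neg (fun h4 => h ((h3 _).1 h4))]

theorem l4_XX (P : Finset ℕ) (hP : ∀ p ∈ P, 0 < p) {N Y0 Y1 : ℕ} (hPP : P = PP Y0 Y1) (θ : ℝ)
    (g : ℕ → ℂ) (w : ℕ) (hw : 0 < w) :
    ∑ m ∈ Finset.Icc 1 N, g m * Gf N Y0 Y1 θ w m =
      ∑ p ∈ P, ∑ m ∈ Finset.Icc 1 (N / p / w), g m * ee (θ * ((p : ℝ) * ((w * m : ℕ) : ℝ))) := by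
  rw [l4_swap P hP N w hw, hPP]
  refine Finset.sum_congr rfl fun m _ => ?_
  rw [Gf, Finset.mul_sum]

/-- Module L4. -/
theorem L4 (hL1 : L1Stmt) (hS2 : S2Stmt) : L4Stmt := by
  intro ε hε
  obtain ⟨sL, κL, zsL, HL⟩ := hL1 1 (ε / 2) (by positivity)
  obtain ⟨s2, zs2, H2⟩ := hS2 1 1 one_pos
  obtain ⟨δ, hδ⟩ : ∃ δ, δ = min ε 1 / 64 := ⟨_, rfl⟩
  have hδ0 : 0 < δ := by rw [hδ]; exact div_pos (lt_min hε one_pos) (by norm_num)
  have hδε : 64 * δ ≤ ε := by rw [hδ]; linarith [min_le_left ε 1]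
  have hδ1 : 64 * δ ≤ 1 := by rw [hδ]; linarith [min_le_right ε 1]
  obtain ⟨c1, hc1⟩ : ∃ c1, c1 = sL + 1 := ⟨_, rfl⟩
  obtain ⟨c1', hc1'⟩ : ∃ c1', c1' = κL * c1 + c1 := ⟨_, rfl⟩
  obtain ⟨s0, hs0⟩ := exists_nat_gt (((c1' : ℝ) + 1) / δ)
  refine ⟨s0 + 4 * c1' + s2 + 1, 1, max zsL zs2, fun z0 hz0 c c' hc hcc' Q T B => ?_⟩
  rw [one_mul] at hcc'
  obtain ⟨zL, HL⟩ := HL z0 (le_trans (le_max_left _ _) hz0) c1 c1' (by omega)
    (by rw [hc1']; omega) B
  obtain ⟨z2, H2⟩ := H2 z0 (le_trans (le_max_right _ _) hz0)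
  obtain ⟨yp, hyp⟩ := l4_pc
  obtain ⟨ye, hye⟩ := l4_expsum Q T (δ / 3) (by positivity)
  have hlogev : ∀ᶠ z : ℕ in atTop, 28 / δ ≤ Real.log z :=
    (Real.tendsto_log_atTop.comp tendsto_natCast_atTop_atTop).eventually_ge_atTop _
  have hTev : ∀ᶠ z : ℕ in atTop, 2 * Real.pi * T / δ ≤ (z : ℝ) :=
    (tendsto_natCast_atTop_atTop (R := ℝ)).eventually_ge_atTop _
  obtain ⟨z3, hz3⟩ := Filter.eventually_atTop.1 (hlogev.and hTev)
  refine ⟨zL + z2 + yp + ye + z3 + Q + 2, fun z hz N hN1 hN2 q b θ hq1 hqQ hθ => ?_⟩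
  obtain ⟨hS1, HL⟩ := HL z (by omega)
  have H2 := H2 z (by omega)
  obtain ⟨hlogz, hTz⟩ := hz3 z (by omega)
  -- basic sizes
  have hz1 : 1 ≤ z := by omega
  have hz2' : 2 ≤ z := by omega
  have hzr : (1 : ℝ) < z := by
    have : 1 < z := by omega
    exact_mod_cast this
  have hzpow : ∀ a b : ℕ, a ≤ b → z ^ a ≤ z ^ b := fun a b h => Nat.pow_le_pow_right hz1 h
  have hlogz0 : 0 < Real.log z := Real.log_pos hzr
  have hzc : z ≤ z ^ c := by
    calc z = z ^ 1 := (pow_one z).symm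
      _ ≤ z ^ c := hzpow _ _ (by omega)
  obtain ⟨Y0, hY0⟩ : ∃ Y0, Y0 = z ^ c := ⟨_, rfl⟩
  obtain ⟨Y1, hY1⟩ : ∃ Y1, Y1 = z ^ c' := ⟨_, rfl⟩
  have hY01 : Y0 ≤ Y1 := by rw [hY0, hY1]; exact hzpow _ _ hcc'
  have hzY0 : z ≤ Y0 := by rw [hY0]; exact hzc
  have hY0pos : 0 < Y0 := by omega
  have hY1pos : 0 < Y1 := by omega
  have hlogY0 : Real.log Y0 = c * Real.log z := by
    rw [hY0]; push_cast; rw [Real.log_pow]
  have hc1r : (1 : ℝ) ≤ c := by
    have : 1 ≤ c := by omega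
    exact_mod_cast this
  have h28 : (28 : ℝ) / δ ≤ Real.log Y0 := by
    rw [hlogY0]
    nlinarith
  have hlogY01 : 1 ≤ Real.log Y0 := by
    refine le_trans ?_ h28
    rw [le_div_iff₀ hδ0]
    linarith
  have hlogY00 : 0 < Real.log Y0 := by linarith
  have hN : 0 < N := lt_of_lt_of_le (Nat.pow_pos hz1) hN1
  have hNr : (0 : ℝ) < N := by exact_mod_cast hN
  rw [← hY0, ← hY1]
  set n1 : ℕ → ℝ := fun m => nu z0 z (![1] : Fin 1 → ℤ) ![0] (m : ℤ) with hn1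
  have hn1nn : ∀ m, 0 ≤ n1 m := fun m => A81.nu_nonneg _ _ _ _ _
  have hmean : ∀ M : ℕ, z ^ s2 ≤ M → ∑ m ∈ Finset.Icc 1 M, n1 m ≤ 2 * M := by
    intro M hM
    have h1 := H2 (![1] : Fin 1 → ℤ) ![0] (by
      intro j q' hq' h
      rw [pp_mem64] at hq'
      fin_cases j
      have h2 : (q' : ℤ) ∣ 1 := by simpa using h
      have h3 : q' ∣ 1 := by exact_mod_cast h2
      have := Nat.dvd_one.1 h3
      have := hq'.2.two_le
      omega) 0 M hM
    rw [l4_sum_int] at h1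
    have h2 := (abs_le.1 h1).2
    rw [hn1]
    linarith
  set g : ℕ → ℂ := fun m => (n1 m : ℂ) * (lam m : ℂ) with hg
  have hgn : ∀ m, ‖g m‖ = n1 m := by
    intro m
    rw [hg]
    simp only
    rw [norm_mul, Complex.norm_real, Complex.norm_real, Real.norm_eq_abs, Real.norm_eq_abs,
      abs_lam69, mul_one, abs_of_nonneg (hn1nn m)]
  obtain ⟨P, hP⟩ : ∃ P, P = PP Y0 Y1 := ⟨_, rfl⟩
  obtain ⟨P1, hP1⟩ : ∃ P1, P1 = PP (z ^ c1) (z ^ c1') := ⟨_, rfl⟩
  obtain ⟨S, hS⟩ : ∃ S, S = SS Y0 Y1 := ⟨_, rfl⟩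
  obtain ⟨S1, hS1'⟩ : ∃ S1, S1 = SS (z ^ c1) (z ^ c1') := ⟨_, rfl⟩
  rw [← hS1'] at hS1
  have hS0 : 0 ≤ S := by
    rw [hS, SS]
    exact Finset.sum_nonneg fun p _ => by positivity
  have hPpos : ∀ p ∈ P, 0 < p := fun p hp => by
    rw [hP, pp_mem64] at hp
    exact hp.2.pos
  have hP1pos : ∀ p ∈ P1, 0 < p := fun p hp => by
    rw [hP1, pp_mem64] at hp
    exact hp.2.pos
  have hP1z : ∀ p ∈ P1, z < p ∧ p.Prime ∧ p ≤ z ^ c1' := fun p hp => by
    rw [hP1, pp_mem64] at hp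
    refine ⟨lt_of_le_of_lt ?_ hp.1.1, hp.2, hp.1.2⟩
    calc z = z ^ 1 := (pow_one z).symm
      _ ≤ z ^ c1 := hzpow _ _ (by omega)
  rw [← hP, ← hS]
  set XX : ℕ → ℂ := fun w => ∑ m ∈ Finset.Icc 1 N, g m * Gf N Y0 Y1 θ w m with hXX
  have hXXeq : ∀ w, 0 < w → XX w = ∑ p ∈ P, ∑ m ∈ Finset.Icc 1 (N / p / w),
      g m * ee (θ * ((p : ℝ) * ((w * m : ℕ) : ℝ))) := fun w hw =>
    l4_XX P hPpos hP θ g w hw
  have hX : ∑ p ∈ P, ∑ m ∈ Finset.Icc 1 (N / p), (n1 m : ℂ) * (lam m : ℂ) *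
      ee (θ * ((p : ℝ) * m)) = XX 1 := by
    rw [hXXeq 1 one_pos]
    refine Finset.sum_congr rfl fun p _ => ?_
    rw [Nat.div_one]
    refine Finset.sum_congr rfl fun m _ => ?_
    rw [one_mul]
  change ‖∑ p ∈ P, ∑ m ∈ Finset.Icc 1 (N / p), (n1 m : ℂ) * (lam m : ℂ) *
      ee (θ * ((p : ℝ) * m))‖ ≤ _
  -- step 1: Turan-Kubilius
  have hTK : ∀ p ∈ P, ‖(S1 : ℂ) * ∑ m ∈ Finset.Icc 1 (N / p), g m * ee (θ * ((p : ℝ) * m)) +
      ∑ w ∈ P1, ∑ m ∈ Finset.Icc 1 (N / p / w),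
        g m * ee (θ * ((p : ℝ) * ((w * m : ℕ) : ℝ)))‖ ≤ S1 * (ε / 2 * (N / p)) := by
    intro p hp
    have hp' := hp
    rw [hP, pp_mem64] at hp'
    have hpp : 0 < p := hp'.2.pos
    have hNp1 : z ^ (4 * c1') ≤ N / p := by
      rw [Nat.le_div_iff_mul_le hpp]
      calc z ^ (4 * c1') * p ≤ z ^ (4 * c1') * z ^ c' := by
            refine Nat.mul_le_mul_left _ ?_
            rw [← hY1]
            exact hp'.1.2
        _ = z ^ (4 * c1' + c') := (pow_add _ _ _).symm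
        _ ≤ z ^ (4 * c') := hzpow _ _ (by omega)
        _ ≤ N := hN1
    have h1 := HL 0 ![0] (by omega) rfl (by
      intro j
      fin_cases j
      simp) (by
      intro i j _
      exact Subsingleton.elim (α := Fin 1) i j) (N / p) hNp1 ((Nat.div_le_self _ _).trans hN2)
    rw [← hP1, ← hS1'] at h1
    have h1' : ∑ y ∈ Finset.Icc 1 (N / p), n1 y *
        |1 - ((P1.filter (fun w => w ∣ y)).card : ℝ) / S1| ≤ ε / 2 * ((N / p : ℕ) : ℝ) := by
      refine le_of_eq_of_le ?_ h1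
      refine Finset.sum_congr rfl fun y _ => ?_
      congr 1
      rw [hn1]
      simp only
      congr 1
      funext j
      fin_cases j
      rfl
    have h2 := sum_divisor_count69 P1 (fun w hw => (hP1pos w hw).ne') (N / p)
      (fun y => g y * ee (θ * ((p : ℝ) * y)))
    have h3 : ∑ w ∈ P1, ∑ m ∈ Finset.Icc 1 (N / p / w), g (w * m) *
        ee (θ * ((p : ℝ) * ((w * m : ℕ) : ℝ))) = -∑ w ∈ P1, ∑ m ∈ Finset.Icc 1 (N / p / w),
        g m * ee (θ * ((p : ℝ) * ((w * m : ℕ) : ℝ))) := by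
      rw [← Finset.sum_neg_distrib]
      refine Finset.sum_congr rfl fun w hw => ?_
      rw [← Finset.sum_neg_distrib]
      refine Finset.sum_congr rfl fun m hm => ?_
      rw [Finset.mem_Icc] at hm
      obtain ⟨hw1, hw2, -⟩ := hP1z w hw
      have h4 : g (w * m) = -g m := by
        rw [hg]
        simp only
        rw [hn1]
        simp only
        rw [l4_nu_mul hw2 hw1, lam_prime_mul69 hw2 (by omega)]
        push_cast
        ring
      rw [h4, neg_mul]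
    have h4 : ∑ w ∈ P1, ∑ m ∈ Finset.Icc 1 (N / p / w),
        g m * ee (θ * ((p : ℝ) * ((w * m : ℕ) : ℝ))) = -∑ y ∈ Finset.Icc 1 (N / p),
        g y * ee (θ * ((p : ℝ) * y)) * ((P1.filter (fun w => w ∣ y)).card : ℂ) := by
      rw [h2, h3, neg_neg]
    rw [h4, ← sub_eq_add_neg, Finset.mul_sum, ← Finset.sum_sub_distrib]
    refine (norm_sum_le _ _).trans ?_
    have hS1pos : 0 < S1 := by linarith
    have h5 : ∀ y ∈ Finset.Icc 1 (N / p), ‖(S1 : ℂ) * (g y * ee (θ * ((p : ℝ) * y))) -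
        g y * ee (θ * ((p : ℝ) * y)) * ((P1.filter (fun w => w ∣ y)).card : ℂ)‖ ≤
        S1 * (n1 y * |1 - ((P1.filter (fun w => w ∣ y)).card : ℝ) / S1|) := by
      intro y _
      have h6 : (S1 : ℂ) * (g y * ee (θ * ((p : ℝ) * y))) -
          g y * ee (θ * ((p : ℝ) * y)) * ((P1.filter (fun w => w ∣ y)).card : ℂ) =
          g y * ee (θ * ((p : ℝ) * y)) *
            ((S1 * (1 - ((P1.filter (fun w => w ∣ y)).card : ℝ) / S1) : ℝ) : ℂ) := by
        have h7 : S1 * (1 - ((P1.filter (fun w => w ∣ y)).card : ℝ) / S1) =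
            S1 - ((P1.filter (fun w => w ∣ y)).card : ℝ) := by
          field_simp
        rw [h7]
        push_cast
        ring
      rw [h6, norm_mul, norm_mul, hgn, ee_norm69, mul_one, Complex.norm_real, Real.norm_eq_abs,
        abs_mul, abs_of_pos hS1pos]
      refine le_of_eq ?_
      ring
    refine (Finset.sum_le_sum h5).trans ?_
    rw [← Finset.mul_sum]
    refine mul_le_mul_of_nonneg_left (h1'.trans ?_) hS1pos.le
    exact mul_le_mul_of_nonneg_left Nat.cast_div_le (by positivity)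
  have hstep1 : ‖(S1 : ℂ) * XX 1 + ∑ w ∈ P1, XX w‖ ≤ S1 * (ε / 2 * (S * N)) := by
    have h1 : (S1 : ℂ) * XX 1 + ∑ w ∈ P1, XX w = ∑ p ∈ P,
        ((S1 : ℂ) * ∑ m ∈ Finset.Icc 1 (N / p), g m * ee (θ * ((p : ℝ) * m)) +
        ∑ w ∈ P1, ∑ m ∈ Finset.Icc 1 (N / p / w),
          g m * ee (θ * ((p : ℝ) * ((w * m : ℕ) : ℝ)))) := by
      have e1 : ∑ w ∈ P1, XX w = ∑ p ∈ P, ∑ w ∈ P1, ∑ m ∈ Finset.Icc 1 (N / p / w),
          g m * ee (θ * ((p : ℝ) * ((w * m : ℕ) : ℝ))) := by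
        refine (Finset.sum_congr rfl fun w hw => hXXeq w (hP1pos w hw)).trans ?_
        exact Finset.sum_comm
      have e2 : XX 1 = ∑ p ∈ P, ∑ m ∈ Finset.Icc 1 (N / p), g m * ee (θ * ((p : ℝ) * m)) :=
        hX.symm
      rw [e1, e2, Finset.mul_sum, ← Finset.sum_add_distrib]
    rw [h1]
    refine (norm_sum_le _ _).trans ((Finset.sum_le_sum hTK).trans (le_of_eq ?_))
    rw [← Finset.mul_sum, ← Finset.mul_sum]
    congr 2
    rw [hS, SS, ← hP, Finset.sum_mul]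
    exact Finset.sum_congr rfl fun p _ => by ring
  -- step 2: comparison
  obtain ⟨E, hE⟩ : ∃ E, E = 33 * δ * (1 + S) := ⟨_, rfl⟩
  have hcomp : ∀ w ∈ P1, ‖XX w - XX 1 / w‖ ≤ (N : ℝ) / w * E := by
    intro w hw
    obtain ⟨hw1, hw2, hw3⟩ := hP1z w hw
    have hwpos : 0 < w := hw2.pos
    have hwr : (0 : ℝ) < w := by exact_mod_cast hwpos
    have hwY1 : z ^ (s2 + 1) ≤ N / (w * Y1) := by
      rw [Nat.le_div_iff_mul_le (Nat.mul_pos hwpos hY1pos)]
      calc z ^ (s2 + 1) * (w * Y1) ≤ z ^ (s2 + 1) * (z ^ c1' * z ^ c') := by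
            rw [hY1]
            exact Nat.mul_le_mul_left _ (Nat.mul_le_mul_right _ hw3)
        _ = z ^ (s2 + 1 + (c1' + c')) := by rw [← pow_add, ← pow_add]
        _ ≤ z ^ (4 * c') := hzpow _ _ (by omega)
        _ ≤ N := hN1
    have hlam1 : Real.log (2 * w) / Real.log Y0 ≤ δ := by
      rw [div_le_iff₀ hlogY00, hlogY0]
      have h1 : Real.log (2 * w) ≤ (c1' + 1) * Real.log z := by
        have h2 : (2 * w : ℝ) ≤ (z : ℝ) ^ (c1' + 1) := by
          have : 2 * w ≤ z ^ (c1' + 1) := by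
            rw [pow_succ, mul_comm]
            exact Nat.mul_le_mul hw3 hz2'
          exact_mod_cast this
        have h3 := Real.log_le_log (by positivity) h2
        rw [Real.log_pow] at h3
        push_cast at h3
        exact h3
      have h4 : (c1' : ℝ) + 1 ≤ δ * c := by
        have h5 : ((c1' : ℝ) + 1) / δ ≤ c := by
          refine hs0.le.trans ?_
          have : s0 ≤ c := by omega
          exact_mod_cast this
        rw [div_le_iff₀ hδ0] at h5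
        linarith
      calc Real.log (2 * w) ≤ (c1' + 1) * Real.log z := h1
        _ ≤ (δ * c) * Real.log z := mul_le_mul_of_nonneg_right h4 hlogz0.le
        _ = δ * (c * Real.log z) := by ring
    have hwq : Nat.Coprime w q := by
      rw [Nat.Prime.coprime_iff_not_dvd hw2]
      intro h
      have := Nat.le_of_dvd (by omega) h
      omega
    have h1 := l4_core (N := N) (Y0 := Y0) (Y1 := Y1) (w := w) (q := q) (b := b) (θ := θ)
      (T := T) (ε := δ / 3) n1 hn1nn hN hq1 hlogY01 hY01 (Nat.cast_nonneg T) (by positivity)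
      (by linarith) (fun Y hY b' β hβ => hye Y (by omega) q hq1 hqQ b' β hβ)
      (fun Y hY => hyp Y (by omega)) hθ hwpos hwq (hlam1.trans (by linarith))
      (le_trans (Nat.one_le_pow _ _ hz1) hwY1)
      (fun M hM => hmean M (le_trans (le_trans (hzpow _ _ (by omega)) hwY1) hM))
    rw [← hS] at h1
    have h2 : XX w - XX 1 / w = ∑ m ∈ Finset.Icc 1 N,
        g m * (Gf N Y0 Y1 θ w m - Gf N Y0 Y1 θ 1 m / w) := by
      rw [hXX]
      simp only
      rw [Finset.sum_div, ← Finset.sum_sub_distrib]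
      exact Finset.sum_congr rfl fun m _ => by ring
    rw [h2]
    refine (norm_sum_le _ _).trans ?_
    have h3 : ∀ m ∈ Finset.Icc 1 N, ‖g m * (Gf N Y0 Y1 θ w m - Gf N Y0 Y1 θ 1 m / w)‖ =
        n1 m * ‖Gf N Y0 Y1 θ w m - Gf N Y0 Y1 θ 1 m / w‖ := fun m _ => by
      rw [norm_mul, hgn]
    rw [Finset.sum_congr rfl h3]
    refine h1.trans ?_
    refine mul_le_mul_of_nonneg_left ?_ (by positivity)
    have e1 : 28 / Real.log Y0 ≤ δ := by
      rw [div_le_iff₀ hlogY00]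
      rw [div_le_iff₀ hδ0] at h28
      linarith
    have e2 : 2 * Real.pi * T / Y0 ≤ δ := by
      have h5 : 2 * Real.pi * T / δ ≤ (Y0 : ℝ) := hTz.trans (by exact_mod_cast hzY0)
      rw [div_le_iff₀ hδ0] at h5
      rw [div_le_iff₀ (by exact_mod_cast hY0pos)]
      linarith
    have e3 : Real.log (2 * w) / Real.log Y0 + 2 * Real.pi * T / Y0 + 3 * (δ / 3) ≤ 3 * δ := by
      linarith
    rw [hE]
    have e4 : 8 * (Real.log (2 * w) / Real.log Y0 + 2 * Real.pi * T / Y0 + 3 * (δ / 3)) *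
        (1 + S) ≤ 8 * (3 * δ) * (1 + S) := by
      refine mul_le_mul_of_nonneg_right ?_ (by linarith)
      linarith
    have e5 : 0 ≤ δ * S := mul_nonneg hδ0.le hS0
    nlinarith
  have hstep2 : ‖∑ w ∈ P1, XX w - (S1 : ℂ) * XX 1‖ ≤ S1 * (N * E) := by
    have h1 : ∑ w ∈ P1, XX w - (S1 : ℂ) * XX 1 = ∑ w ∈ P1, (XX w - XX 1 / w) := by
      rw [Finset.sum_sub_distrib, hS1', SS, ← hP1]
      push_cast
      rw [Finset.sum_mul]
      congr 1
      exact Finset.sum_congr rfl fun w _ => by ring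
    rw [h1]
    refine (norm_sum_le _ _).trans ((Finset.sum_le_sum hcomp).trans (le_of_eq ?_))
    rw [hS1', SS, ← hP1, Finset.sum_mul]
    exact Finset.sum_congr rfl fun w _ => by ring
  -- conclusion
  have hS1pos : 0 < S1 := by linarith
  have h1 : (2 * S1 : ℂ) * XX 1 = ((S1 : ℂ) * XX 1 + ∑ w ∈ P1, XX w) -
      (∑ w ∈ P1, XX w - (S1 : ℂ) * XX 1) := by ring
  have h2 : 2 * S1 * ‖XX 1‖ ≤ S1 * (ε / 2 * (S * N)) + S1 * (N * E) := by
    have h3 : ‖(2 * S1 : ℂ) * XX 1‖ = 2 * S1 * ‖XX 1‖ := by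
      rw [norm_mul, norm_mul, Complex.norm_real, Real.norm_eq_abs, abs_of_pos hS1pos]
      norm_num
    rw [← h3, h1]
    exact (norm_sub_le _ _).trans (add_le_add hstep1 hstep2)
  rw [hX]
  have h3 : S1 * (2 * ‖XX 1‖) ≤ S1 * (2 * (ε * (1 + S) * N)) := by
    have h4 : S1 * (ε / 2 * (S * N)) + S1 * (N * E) = S1 * (ε / 2 * (S * N) + N * E) := by ring
    have h5 : ε / 2 * (S * N) + N * E ≤ 2 * (ε * (1 + S) * N) := by
      rw [hE]
      have h6 : 33 * δ * (1 + S) ≤ ε * (1 + S) := by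
        refine mul_le_mul_of_nonneg_right ?_ (by linarith)
        linarith
      have h7 : N * (33 * δ * (1 + S)) ≤ N * (ε * (1 + S)) := mul_le_mul_of_nonneg_left h6 hNr.le
      have h8 : 0 ≤ ε * N := by positivity
      have h9 : 0 ≤ ε * (S * N) := by positivity
      nlinarith
    calc S1 * (2 * ‖XX 1‖) = 2 * S1 * ‖XX 1‖ := by ring
      _ ≤ S1 * (ε / 2 * (S * N) + N * E) := by rw [← h4]; exact h2
      _ ≤ _ := mul_le_mul_of_nonneg_left h5 hS1pos.le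
  have h4 := le_of_mul_le_mul_left h3 hS1pos
  linarith

end Pool.Agent.Lib.TwinAll
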