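import Mathlib
import Pool.Agent.Lib.TwinAll.Defs
import Pool.Agent.Lib.TwinAll.Four73
import Pool.Agent.Lib.TwinAll.Stmts
import Pool.Agent.Lib.TwinAll.FA73

/-!
THEOREM A (MP_c6d112_nt), step (c) of the assembly: the square of `C * b` over the bad set.
-/

set_option autoImplicit false

namespace Pool.Agent.Lib.TwinAll

open Finset

namespace FA

section group

variable {p : ℕ} [NeZero p]

theorem ft_twist (u : ZMod p → ℂ) (ζ ξ : ZMod p) :
    ft (fun x => u x * ch (ζ * x)) ξ = ft u (ξ - ζ) := by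
  unfold ft
  congr 1
  funext x
  rw [mul_assoc, ← ch_add]
  congr 2
  ring

theorem corr_twist (u : ZMod p → ℂ) (ζ t : ZMod p) :
    ‖mean (fun x => (u x * ch (ζ * x)) * (starRingEnd ℂ) (u (x + t) * ch (ζ * (x + t))))‖ =
      ‖mean (fun x => u x * (starRingEnd ℂ) (u (x + t)))‖ := by
  have h1 : (fun x => (u x * ch (ζ * x)) * (starRingEnd ℂ) (u (x + t) * ch (ζ * (x + t)))) =
      fun x => u x * (starRingEnd ℂ) (u (x + t)) * ch (-(ζ * t)) := by
    funext x
    have h2 : ch (-(ζ * t)) = ch (ζ * x) * ch (-(ζ * (x + t))) := by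
      rw [← ch_add]
      congr 1
      ring
    rw [map_mul, conj_ch, h2]
    ring
  rw [h1, mean_mul_right, norm_mul, norm_ch, mul_one]

/-- the bilinear form of step (c) -/
noncomputable def Qf (b3 w : ZMod p → ℝ) (f g : ZMod p → ℂ) : ℂ :=
  mean (fun k => mean (fun m => f (m - k) * g (m + k) * (b3 k : ℂ) * (w (2 * m) : ℂ)))

theorem Qf_sub (b3 w : ZMod p → ℝ) (f f' g g' : ZMod p → ℂ) :
    Qf b3 w f g - Qf b3 w f' g' = Qf b3 w (fun x => f x - f' x) g +
      Qf b3 w f' (fun x => g x - g' x) := by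
  unfold Qf
  rw [← mean_sub, ← mean_add]
  congr 1
  funext k
  rw [← mean_sub, ← mean_add]
  congr 1
  funext m
  ring

theorem meanR_shift (f : ZMod p → ℝ) (t : ZMod p) : meanR (fun x => f (x + t)) = meanR f := by
  unfold meanR
  rw [← Equiv.sum_comp (Equiv.addRight t) f]
  rfl

theorem meanR_shift_sub (f : ZMod p → ℝ) (t : ZMod p) : meanR (fun x => f (x - t)) = meanR f := by
  unfold meanR
  rw [← Equiv.sum_comp (Equiv.subRight t) f]
  rfl

/-- trivial bound, first argument -/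
theorem Qf_le_left {K3 : ℕ} {b3 c3 w : ZMod p → ℝ} (hb3 : Kernel K3 b3 c3)
    (hw : ∀ x, 0 ≤ w x ∧ w x ≤ 1) (f g : ZMod p → ℂ) (r : ℝ) (hf : meanR (fun x => ‖f x‖) ≤ r)
    (hg : ∀ x, ‖g x‖ ≤ 2) : ‖Qf b3 w f g‖ ≤ 2 * r := by
  unfold Qf
  refine (norm_mean_le _).trans ?_
  have h1 : ∀ k, ‖mean (fun m => f (m - k) * g (m + k) * (b3 k : ℂ) * (w (2 * m) : ℂ))‖ ≤
      b3 k * (2 * r) := by
    intro k
    refine (norm_mean_le _).trans ?_
    have h2 : meanR (fun m => b3 k * (2 * ‖f (m - k)‖)) ≤ b3 k * (2 * r) := by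
      rw [meanR_mul_left, meanR_mul_left, meanR_shift_sub (fun x => ‖f x‖) k]
      exact mul_le_mul_of_nonneg_left (by linarith) (hb3.nonneg k)
    refine (meanR_mono _ _ fun m => ?_).trans h2
    rw [norm_mul, norm_mul, norm_mul, Complex.norm_real, Complex.norm_real, Real.norm_eq_abs,
      Real.norm_eq_abs, abs_of_nonneg (hb3.nonneg k), abs_of_nonneg (hw _).1]
    have h3 : ‖f (m - k)‖ * ‖g (m + k)‖ ≤ ‖f (m - k)‖ * 2 :=
      mul_le_mul_of_nonneg_left (hg _) (norm_nonneg _)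
    have h4 := mul_le_mul_of_nonneg_right h3 (hb3.nonneg k)
    have h5 : 0 ≤ ‖f (m - k)‖ * ‖g (m + k)‖ * b3 k :=
      mul_nonneg (mul_nonneg (norm_nonneg _) (norm_nonneg _)) (hb3.nonneg k)
    have h6 := mul_le_of_le_one_right h5 (hw (2 * m)).2
    linarith
  refine (meanR_mono _ _ h1).trans (le_of_eq ?_)
  rw [meanR_mul_right, hb3.meanR_eq, one_mul]

/-- trivial bound, second argument -/
theorem Qf_le_right {K3 : ℕ} {b3 c3 w : ZMod p → ℝ} (hb3 : Kernel K3 b3 c3)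
    (hw : ∀ x, 0 ≤ w x ∧ w x ≤ 1) (f g : ZMod p → ℂ) (r : ℝ) (hg : meanR (fun x => ‖g x‖) ≤ r)
    (hf : ∀ x, ‖f x‖ ≤ 2) : ‖Qf b3 w f g‖ ≤ 2 * r := by
  unfold Qf
  refine (norm_mean_le _).trans ?_
  have h1 : ∀ k, ‖mean (fun m => f (m - k) * g (m + k) * (b3 k : ℂ) * (w (2 * m) : ℂ))‖ ≤
      b3 k * (2 * r) := by
    intro k
    refine (norm_mean_le _).trans ?_
    have h2 : meanR (fun m => b3 k * (2 * ‖g (m + k)‖)) ≤ b3 k * (2 * r) := by
      rw [meanR_mul_left, meanR_mul_left, meanR_shift (fun x => ‖g x‖) k]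
      exact mul_le_mul_of_nonneg_left (by linarith) (hb3.nonneg k)
    refine (meanR_mono _ _ fun m => ?_).trans h2
    rw [norm_mul, norm_mul, norm_mul, Complex.norm_real, Complex.norm_real, Real.norm_eq_abs,
      Real.norm_eq_abs, abs_of_nonneg (hb3.nonneg k), abs_of_nonneg (hw _).1]
    have h3 : ‖f (m - k)‖ * ‖g (m + k)‖ ≤ 2 * ‖g (m + k)‖ :=
      mul_le_mul_of_nonneg_right (hf _) (norm_nonneg _)
    have h4 := mul_le_mul_of_nonneg_right h3 (hb3.nonneg k)
    have h5 : 0 ≤ ‖f (m - k)‖ * ‖g (m + k)‖ * b3 k :=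
      mul_nonneg (mul_nonneg (norm_nonneg _) (norm_nonneg _)) (hb3.nonneg k)
    have h6 := mul_le_of_le_one_right h5 (hw (2 * m)).2
    linarith
  refine (meanR_mono _ _ h1).trans (le_of_eq ?_)
  rw [meanR_mul_right, hb3.meanR_eq, one_mul]

theorem sum_c_le {K : ℕ} {b c : ZMod p → ℝ} (h : Kernel K b c) : ∑ ζ, c ζ ≤ K := by
  have h3 : ∑ ζ, c ζ ≤ ∑ ζ, if c ζ ≠ 0 then (1 : ℝ) else 0 := by
    refine sum_le_sum fun ζ _ => ?_
    by_cases hc : c ζ = 0
    · rw [if_neg (not_not.2 hc), hc]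
    · rw [if_pos hc]
      exact (h.coeff ζ).2
  refine h3.trans ?_
  rw [← sum_filter, sum_const, nsmul_eq_mul, mul_one]
  exact_mod_cast h.supp

end group

section prime

variable {p : ℕ} [Fact p.Prime]

theorem two_ne (hp2 : p ≠ 2) : (2 : ZMod p) ≠ 0 := by
  intro h
  have hp := Fact.out (p := p.Prime)
  have h2 : ((2 : ℕ) : ZMod p) = 0 := by exact_mod_cast h
  rw [ZMod.natCast_eq_zero_iff] at h2
  exact hp2 ((Nat.prime_dvd_prime_iff_eq hp Nat.prime_two).1 h2)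

/-- the bilinear form in the variables `x = m - k`, `y = m + k` -/
theorem Qf_expand (hp2 : p ≠ 2) {K3 : ℕ} {b3 c3 : ZMod p → ℝ} (hb3 : Kernel K3 b3 c3)
    (w : ZMod p → ℝ) (f g : ZMod p → ℂ) :
    Qf b3 w f g = ∑ ζ, (c3 ζ : ℂ) * mean (fun x => mean (fun y =>
      (f x * ch (-(ζ / 2) * x)) * (g y * ch (ζ / 2 * y)) * (w (x + y) : ℂ))) := by
  have h20 := two_ne hp2
  have h1 : Qf b3 w f g = ∑ ζ, (c3 ζ : ℂ) * mean (fun k => mean (fun m =>
      f (m - k) * g (m + k) * ch (ζ * k) * (w (2 * m) : ℂ))) := by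
    unfold Qf
    have h2 : ∀ ζ, (c3 ζ : ℂ) * mean (fun k => mean (fun m =>
        f (m - k) * g (m + k) * ch (ζ * k) * (w (2 * m) : ℂ))) =
        mean (fun k => mean (fun m => (c3 ζ : ℂ) *
        (f (m - k) * g (m + k) * ch (ζ * k) * (w (2 * m) : ℂ)))) := by
      intro ζ
      rw [← mean_mul_left]
      congr 1
      funext k
      rw [← mean_mul_left]
    simp only [h2]
    rw [← mean_sum]
    congr 1
    funext k
    rw [← mean_sum]
    congr 1
    funext m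
    rw [hb3.expand k, mul_sum, sum_mul]
    refine sum_congr rfl fun ζ _ => ?_
    ring
  rw [h1]
  refine sum_congr rfl fun ζ _ => ?_
  congr 1
  -- substitution
  have h2 : ∀ k, mean (fun m => f (m - k) * g (m + k) * ch (ζ * k) * (w (2 * m) : ℂ)) =
      mean (fun x => f x * g (x + 2 * k) * ch (ζ * k) * (w (x + (x + 2 * k)) : ℂ)) := by
    intro k
    rw [← mean_shift (fun m => f (m - k) * g (m + k) * ch (ζ * k) * (w (2 * m) : ℂ)) k]
    congr 1
    funext x
    have e1 : x + k - k = x := by ring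
    have e2 : x + k + k = x + 2 * k := by ring
    have e3 : 2 * (x + k) = x + (x + 2 * k) := by ring
    rw [e1, e2, e3]
  simp only [h2]
  rw [mean_comm]
  congr 1
  funext x
  have h3 : mean (fun y => (f x * ch (-(ζ / 2) * x)) * (g y * ch (ζ / 2 * y)) *
      (w (x + y) : ℂ)) = mean (fun k => (f x * ch (-(ζ / 2) * x)) *
      (g (x + 2 * k) * ch (ζ / 2 * (x + 2 * k))) * (w (x + (x + 2 * k)) : ℂ)) := by
    unfold mean
    congr 1
    have e : Function.Bijective (fun k : ZMod p => x + 2 * k) := by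
      refine ⟨fun a b hab => ?_, fun y => ⟨(y - x) / 2, ?_⟩⟩
      · simp only [add_right_inj] at hab
        exact mul_left_cancel₀ h20 hab
      · simp only
        rw [mul_div_cancel₀ _ h20]
        ring
    exact (e.sum_comp (fun y => (f x * ch (-(ζ / 2) * x)) * (g y * ch (ζ / 2 * y)) *
      (w (x + y) : ℂ))).symm
  rw [h3]
  congr 1
  funext k
  have h4 : ch (-(ζ / 2) * x) * ch (ζ / 2 * (x + 2 * k)) = ch (ζ * k) := by
    rw [← ch_add]
    congr 1
    field_simp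
    ring
  rw [← h4]
  ring

/-- step (c) -/
theorem stepC (h1 : H1Stmt) (hp2 : p ≠ 2) {ν C : ZMod p → ℝ} {K K' : ℕ}
    {b c b' c' : ZMod p → ℝ} {r φ D0 : ℝ} (hC : AData ν C K K' b c b' c' r φ D0)
    {b3 c3 w : ZMod p → ℝ} {K3 : ℕ} (hb3 : Kernel K3 b3 c3) {aN : ℝ}
    (haN : meanR (fun t => ‖mean (fun x => ((ν x - 1 : ℝ) : ℂ) *
      ((ν (x + t) - 1 : ℝ) : ℂ))‖ ^ 2) ≤ aN)
    (hw : ∀ x, 0 ≤ w x ∧ w x ≤ 1) (hzero : ∀ m k, C (m - k) * C (m + k) * w (2 * m) = 0)
    {η3 : ℝ} (hη : ∀ ξ, c ξ ≠ 0 → meanR (fun k => b3 k * ‖ch (ξ * k) - 1‖ ^ 2) ≤ η3) :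
    meanR (fun m => cvR C b m ^ 2 * w (2 * m)) ≤
      K3 * (√(2 * (φ ^ 2 + (aN * (8 * D0 + 165888)) ^ ((1 : ℝ) / 4))) + 2 * φ) + 4 * r +
        8 * K * √η3 := by
  have h20 := two_ne hp2
  have hφ := hC.phi_nonneg
  have haN0 : 0 ≤ aN := (meanR_nonneg _ fun _ => by positivity).trans haN
  have hD00 := hC.D0_nonneg
  have hr0 := hC.r0
  obtain ⟨u, hu⟩ : ∃ u : ZMod p → ℂ, u = fun x => (C x : ℂ) - conv (fun x => (C x : ℂ)) b' x :=
    ⟨_, rfl⟩
  have hcorr := corr_le ν hC.nu_nonneg hC.mass D0 hC.corr u (fun x => by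
    rw [hu]
    exact hC.corr_u x)
  have husm : ∀ ξ, ‖ft u ξ‖ ≤ φ := fun ξ => by
    rw [hu]
    exact hC.small ξ
  -- the trivial kernel
  have hone : ∀ x : ZMod p, (((fun _ => 1 : ZMod p → ℝ) x : ℝ) : ℂ) =
      ∑ ζ, (((fun ζ => if ζ = 0 then 1 else 0 : ZMod p → ℝ) ζ : ℝ) : ℂ) * ch (ζ * x) := by
    intro x
    have e1 : ∀ ζ : ZMod p, (((if ζ = 0 then 1 else 0 : ℝ) : ℝ) : ℂ) * ch (ζ * x) =
        if ζ = 0 then ch (ζ * x) else 0 := by
      intro ζ
      split_ifs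
      · rw [Complex.ofReal_one, one_mul]
      · rw [Complex.ofReal_zero, zero_mul]
    simp only [e1]
    rw [sum_ite_eq' univ (0 : ZMod p) (fun ζ => ch (ζ * x)), if_pos (mem_univ _), zero_mul,
      ch_zero, Complex.ofReal_one]
  have hcone : ∀ ζ : ZMod p, 0 ≤ (fun ζ => if ζ = 0 then 1 else 0 : ZMod p → ℝ) ζ := by
    intro ζ
    simp only
    split_ifs <;> norm_num
  -- first replacement
  have k1 : ‖Qf b3 w u (fun x => (C x : ℂ))‖ ≤
      K3 * √(2 * (φ ^ 2 + (aN * (8 * D0 + 165888)) ^ ((1 : ℝ) / 4))) := by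
    rw [Qf_expand hp2 hb3]
    refine (norm_sum_le _ _).trans ?_
    refine le_trans ?_ (mul_le_mul_of_nonneg_right (sum_c_le hb3) (Real.sqrt_nonneg _))
    rw [sum_mul]
    refine sum_le_sum fun ζ _ => ?_
    rw [norm_mul, Complex.norm_real, Real.norm_eq_abs, abs_of_nonneg (hb3.coeff ζ).1]
    refine mul_le_mul_of_nonneg_left ?_ (hb3.coeff ζ).1
    rw [mean_comm]
    have e0 := h1 p (fun y => (C y : ℂ) * ch (ζ / 2 * y)) (fun x => u x * ch (-(ζ / 2) * x))
      (fun x => (w x : ℂ)) ν (fun _ => 1) (fun ζ => if ζ = 0 then 1 else 0) 1 1 0 φ aN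
      (8 * D0 + 165888) one_ne_zero one_ne_zero (fun _ => zero_le_one) hone hcone hC.nu_nonneg
      (fun x => by
        rw [norm_mul, norm_ch, mul_one, mul_one, Complex.norm_real, Real.norm_eq_abs,
          abs_of_nonneg (hC.nn x)]
        exact hC.le x) (fun x => by
        rw [Complex.norm_real, Real.norm_eq_abs, abs_of_nonneg (hw x).1]
        exact (hw x).2) (fun ξ => by
        rw [ft_twist]
        exact husm _) haN (by
        simp only [corr_twist]
        exact hcorr)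
    have e1 : mean (fun y => mean (fun x => (u x * ch (-(ζ / 2) * x)) *
        ((C y : ℂ) * ch (ζ / 2 * y)) * (w (x + y) : ℂ))) =
        mean (fun x => mean (fun y => ((C x : ℂ) * ch (ζ / 2 * x)) *
        (u y * ch (-(ζ / 2) * y)) * (w (1 * x + 1 * y + 0) : ℂ))) := by
      congr 1
      funext x
      congr 1
      funext y
      rw [one_mul, one_mul, add_zero, add_comm x y]
      ring
    rw [e1]
    refine Real.le_sqrt_of_sq_le (e0.trans ?_)
    have e2 : 0 ≤ φ ^ 2 + (aN * (8 * D0 + 165888)) ^ ((1 : ℝ) / 4) := by positivity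
    refine mul_le_mul_of_nonneg_right ?_ e2
    simp only [mul_one]
    exact hC.mass
  -- second replacement
  have k2 : ‖Qf b3 w (conv (fun x => (C x : ℂ)) b') u‖ ≤ K3 * (2 * φ) := by
    rw [Qf_expand hp2 hb3]
    refine (norm_sum_le _ _).trans ?_
    refine le_trans ?_ (mul_le_mul_of_nonneg_right (sum_c_le hb3)
      (by positivity : (0 : ℝ) ≤ 2 * φ))
    rw [sum_mul]
    refine sum_le_sum fun ζ _ => ?_
    rw [norm_mul, Complex.norm_real, Real.norm_eq_abs, abs_of_nonneg (hb3.coeff ζ).1]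
    refine mul_le_mul_of_nonneg_left ?_ (hb3.coeff ζ).1
    have e0 := h1 p (fun x => (1 / 2 : ℂ) * (conv (fun x => (C x : ℂ)) b' x *
      ch (-(ζ / 2) * x))) (fun y => u y * ch (ζ / 2 * y))
      (fun x => (w x : ℂ)) (fun _ => 1) (fun _ => 1) (fun ζ => if ζ = 0 then 1 else 0) 1 1 0 φ 0
      (8 * D0 + 165888) one_ne_zero one_ne_zero (fun _ => zero_le_one) hone hcone
      (fun _ => zero_le_one) (fun x => by
        rw [norm_mul, norm_mul, norm_ch, mul_one, mul_one]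
        have := hC.two' x
        have e : ‖(1 / 2 : ℂ)‖ = 1 / 2 := by norm_num
        rw [e]
        linarith) (fun x => by
        rw [Complex.norm_real, Real.norm_eq_abs, abs_of_nonneg (hw x).1]
        exact (hw x).2) (fun ξ => by
        rw [ft_twist]
        exact husm _) (by
        have e : (fun t : ZMod p => ‖mean (fun x : ZMod p => ((1 - 1 : ℝ) : ℂ) *
            ((1 - 1 : ℝ) : ℂ))‖ ^ 2) = fun _ => 0 := by
          funext t
          simp [mean]
        rw [e, meanR_const]) (by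
        simp only [corr_twist]
        exact hcorr)
    have e1 : mean (fun x => mean (fun y => (conv (fun x => (C x : ℂ)) b' x *
        ch (-(ζ / 2) * x)) * (u y * ch (ζ / 2 * y)) * (w (x + y) : ℂ))) =
        2 * mean (fun x => mean (fun y => ((1 / 2 : ℂ) * (conv (fun x => (C x : ℂ)) b' x *
        ch (-(ζ / 2) * x))) * (u y * ch (ζ / 2 * y)) * (w (1 * x + 1 * y + 0) : ℂ))) := by
      rw [← mean_mul_left]
      congr 1
      funext x
      rw [← mean_mul_left]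
      congr 1
      funext y
      rw [one_mul, one_mul, add_zero]
      ring
    rw [e1, norm_mul]
    have e2 : ‖(2 : ℂ)‖ = 2 := by norm_num
    rw [e2]
    refine mul_le_mul_of_nonneg_left ?_ (by norm_num)
    refine abs_le_of_sq_le_sq' (e0.trans (le_of_eq ?_)) hφ |>.2
    simp only [mul_one]
    rw [meanR_const, zero_mul, Real.zero_rpow (by norm_num)]
    ring
  have hC2 := meanR_norm_le _ r hr0 hC.close
  have k3 : ‖Qf b3 w (fun x => conv (fun x => (C x : ℂ)) b x -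
      conv (fun x => (C x : ℂ)) b' x) (conv (fun x => (C x : ℂ)) b)‖ ≤ 2 * r :=
    Qf_le_left hb3 hw _ _ r hC2 hC.two
  have k4 : ‖Qf b3 w (conv (fun x => (C x : ℂ)) b') (fun x => conv (fun x => (C x : ℂ)) b x -
      conv (fun x => (C x : ℂ)) b' x)‖ ≤ 2 * r :=
    Qf_le_right hb3 hw _ _ r hC2 hC.two'
  -- the zero
  have k5 : Qf b3 w (fun x => (C x : ℂ)) (fun x => (C x : ℂ)) = 0 := by
    unfold Qf
    have e1 : (fun k => mean (fun m => (C (m - k) : ℂ) * (C (m + k) : ℂ) * (b3 k : ℂ) *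
        (w (2 * m) : ℂ))) = fun _ => 0 := by
      funext k
      have e2 : (fun m => (C (m - k) : ℂ) * (C (m + k) : ℂ) * (b3 k : ℂ) *
          (w (2 * m) : ℂ)) = fun _ => 0 := by
        funext m
        have e3 : ((C (m - k) * C (m + k) * w (2 * m) : ℝ) : ℂ) = 0 := by
          rw [hzero m k, Complex.ofReal_zero]
        push_cast at e3
        linear_combination (b3 k : ℂ) * e3
      rw [e2, mean_const]
    rw [e1, mean_const]
  have k6 := Qf_sub b3 w (fun x => (C x : ℂ)) (conv (fun x => (C x : ℂ)) b')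
    (fun x => (C x : ℂ)) (conv (fun x => (C x : ℂ)) b')
  rw [k5, ← hu] at k6
  have k7 := Qf_sub b3 w (conv (fun x => (C x : ℂ)) b) (conv (fun x => (C x : ℂ)) b')
    (conv (fun x => (C x : ℂ)) b) (conv (fun x => (C x : ℂ)) b')
  -- removal of the translations
  obtain ⟨T, hT⟩ : ∃ T : ℂ, T = mean (fun k => mean (fun m => conv (fun x => (C x : ℂ)) b m *
    conv (fun x => (C x : ℂ)) b m * (b3 k : ℂ) * (w (2 * m) : ℂ))) := ⟨_, rfl⟩
  have k8 : ‖T - Qf b3 w (conv (fun x => (C x : ℂ)) b) (conv (fun x => (C x : ℂ)) b)‖ ≤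
      8 * K * √η3 := by
    rw [hT]
    unfold Qf
    rw [← mean_sub]
    refine (norm_mean_le _).trans ?_
    have e1 : ∀ k, ‖mean (fun m => conv (fun x => (C x : ℂ)) b m *
        conv (fun x => (C x : ℂ)) b m * (b3 k : ℂ) * (w (2 * m) : ℂ)) -
        mean (fun m => conv (fun x => (C x : ℂ)) b (m - k) *
        conv (fun x => (C x : ℂ)) b (m + k) * (b3 k : ℂ) * (w (2 * m) : ℂ))‖ ≤
        ∑ ξ ∈ univ.filter (fun ξ => c ξ ≠ 0), 8 * (b3 k * ‖ch (ξ * k) - 1‖) := by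
      intro k
      rw [← mean_sub]
      refine (norm_mean_le _).trans ?_
      rw [← meanR_const (p := p) (∑ ξ ∈ univ.filter (fun ξ => c ξ ≠ 0),
        8 * (b3 k * ‖ch (ξ * k) - 1‖))]
      refine meanR_mono _ _ fun m => ?_
      have e2 : conv (fun x => (C x : ℂ)) b m * conv (fun x => (C x : ℂ)) b m * (b3 k : ℂ) *
          (w (2 * m) : ℂ) - conv (fun x => (C x : ℂ)) b (m - k) *
          conv (fun x => (C x : ℂ)) b (m + k) * (b3 k : ℂ) * (w (2 * m) : ℂ) =
          -((conv (fun x => (C x : ℂ)) b (m - k) - conv (fun x => (C x : ℂ)) b m) *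
            conv (fun x => (C x : ℂ)) b (m + k) +
            conv (fun x => (C x : ℂ)) b m * (conv (fun x => (C x : ℂ)) b (m + k) -
            conv (fun x => (C x : ℂ)) b m)) * (b3 k : ℂ) * (w (2 * m) : ℂ) := by ring
      rw [e2, norm_mul, norm_mul, norm_neg, Complex.norm_real, Complex.norm_real,
        Real.norm_eq_abs, Real.norm_eq_abs, abs_of_nonneg (hb3.nonneg k),
        abs_of_nonneg (hw _).1]
      have e3 := hC.shift m k
      have e4 := hC.shift m (-k)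
      rw [sub_neg_eq_add] at e4
      have e5 : ∀ ξ : ZMod p, ‖ch (ξ * -k) - 1‖ = ‖ch (ξ * k) - 1‖ := by
        intro ξ
        have f : ch (ξ * -k) - 1 = (starRingEnd ℂ) (ch (ξ * k) - 1) := by
          rw [map_sub, map_one, conj_ch, mul_neg]
        rw [f, RCLike.norm_conj]
      simp only [e5] at e4
      obtain ⟨s0, hs0⟩ : ∃ s : ℝ, s = ∑ ξ ∈ univ.filter (fun ξ => c ξ ≠ 0),
        ‖ch (ξ * k) - 1‖ := ⟨_, rfl⟩
      rw [← hs0] at e3 e4
      have e6 : ‖(conv (fun x => (C x : ℂ)) b (m - k) - conv (fun x => (C x : ℂ)) b m) *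
            conv (fun x => (C x : ℂ)) b (m + k) +
            conv (fun x => (C x : ℂ)) b m * (conv (fun x => (C x : ℂ)) b (m + k) -
            conv (fun x => (C x : ℂ)) b m)‖ ≤ 8 * s0 := by
        refine (norm_add_le _ _).trans ?_
        rw [norm_mul, norm_mul]
        have f1 := mul_le_mul e3 (hC.two (m + k)) (norm_nonneg _)
          ((norm_nonneg _).trans e3)
        have f2 := mul_le_mul (hC.two m) e4 (norm_nonneg _) (by norm_num)
        linarith
      have e7 : ∑ ξ ∈ univ.filter (fun ξ => c ξ ≠ 0), 8 * (b3 k * ‖ch (ξ * k) - 1‖) =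
          8 * s0 * b3 k := by
        rw [hs0, mul_sum, sum_mul]
        refine sum_congr rfl fun ξ _ => ?_
        ring
      rw [e7]
      have e8 := mul_le_mul_of_nonneg_right e6 (hb3.nonneg k)
      refine le_trans ?_ e8
      exact mul_le_of_le_one_right (mul_nonneg (norm_nonneg _) (hb3.nonneg k)) (hw _).2
    refine (meanR_mono _ _ e1).trans ?_
    rw [meanR_sum]
    have e7 : ∀ ξ ∈ univ.filter (fun ξ => c ξ ≠ 0),
        meanR (fun k => 8 * (b3 k * ‖ch (ξ * k) - 1‖)) ≤ 8 * √η3 := by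
      intro ξ hξ
      rw [meanR_mul_left]
      refine mul_le_mul_of_nonneg_left ?_ (by norm_num)
      have e8 := mean_cs b3 hb3.nonneg (fun k => ch (ξ * k) - 1)
      rw [hb3.meanR_eq, one_mul] at e8
      exact Real.le_sqrt_of_sq_le (e8.trans (hη ξ (mem_filter.1 hξ).2))
    refine (sum_le_sum e7).trans ?_
    rw [sum_const, nsmul_eq_mul]
    have e8 : (((univ.filter (fun ζ => c ζ ≠ 0)).card : ℕ) : ℝ) ≤ K := by
      exact_mod_cast hC.ker.supp
    have e9 := mul_le_mul_of_nonneg_right e8 (by positivity : (0 : ℝ) ≤ 8 * √η3)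
    linarith
  -- conclusion
  have k9 : T = ((meanR (fun m => cvR C b m ^ 2 * w (2 * m)) : ℝ) : ℂ) := by
    rw [hT, ofReal_meanR]
    have e1 : ∀ k, mean (fun m => conv (fun x => (C x : ℂ)) b m *
        conv (fun x => (C x : ℂ)) b m * (b3 k : ℂ) * (w (2 * m) : ℂ)) =
        (b3 k : ℂ) * mean (fun m => ((cvR C b m ^ 2 * w (2 * m) : ℝ) : ℂ)) := by
      intro k
      rw [← mean_mul_left]
      congr 1
      funext m
      rw [conv_eq]
      push_cast
      ring
    simp only [e1]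
    rw [mean_mul_right, ← ofReal_meanR b3, hb3.meanR_eq, Complex.ofReal_one, one_mul]
  have k10 : meanR (fun m => cvR C b m ^ 2 * w (2 * m)) ≤ ‖T‖ := by
    rw [k9, Complex.norm_real]
    exact Real.le_norm_self _
  obtain ⟨Q1, hQ1⟩ : ∃ Q : ℂ, Q = Qf b3 w (conv (fun x => (C x : ℂ)) b)
    (conv (fun x => (C x : ℂ)) b) := ⟨_, rfl⟩
  obtain ⟨Q2, hQ2⟩ : ∃ Q : ℂ, Q = Qf b3 w (conv (fun x => (C x : ℂ)) b')
    (conv (fun x => (C x : ℂ)) b') := ⟨_, rfl⟩
  obtain ⟨E1, hE1⟩ : ∃ Q : ℂ, Q = Qf b3 w u (fun x => (C x : ℂ)) := ⟨_, rfl⟩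
  obtain ⟨E2, hE2⟩ : ∃ Q : ℂ, Q = Qf b3 w (conv (fun x => (C x : ℂ)) b') u := ⟨_, rfl⟩
  obtain ⟨E3, hE3⟩ : ∃ Q : ℂ, Q = Qf b3 w (fun x => conv (fun x => (C x : ℂ)) b x -
      conv (fun x => (C x : ℂ)) b' x) (conv (fun x => (C x : ℂ)) b) := ⟨_, rfl⟩
  obtain ⟨E4, hE4⟩ : ∃ Q : ℂ, Q = Qf b3 w (conv (fun x => (C x : ℂ)) b')
      (fun x => conv (fun x => (C x : ℂ)) b x - conv (fun x => (C x : ℂ)) b' x) := ⟨_, rfl⟩
  rw [← hE1] at k1 k6
  rw [← hE2] at k2 k6
  rw [← hE3] at k3 k7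
  rw [← hE4] at k4 k7
  rw [← hQ1] at k7 k8
  rw [← hQ2] at k6 k7
  have k11 : T = (T - Q1) + ((E3 + E4) - (E1 + E2)) := by
    have : Q2 = -(E1 + E2) := by linear_combination -k6
    have e2 : Q1 = Q2 + (E3 + E4) := by linear_combination k7
    rw [e2, this]
    ring
  have k12 : ‖T‖ ≤ ‖T - Q1‖ + ((‖E3‖ + ‖E4‖) + (‖E1‖ + ‖E2‖)) := by
    calc ‖T‖ = ‖(T - Q1) + ((E3 + E4) - (E1 + E2))‖ := by rw [← k11]
      _ ≤ ‖T - Q1‖ + ‖(E3 + E4) - (E1 + E2)‖ := norm_add_le _ _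
      _ ≤ ‖T - Q1‖ + (‖E3 + E4‖ + ‖E1 + E2‖) := by
          have := norm_sub_le (E3 + E4) (E1 + E2)
          linarith
      _ ≤ _ := by
          have e1 := norm_add_le E3 E4
          have e2 := norm_add_le E1 E2
          linarith
  linarith

end prime

end FA

end Pool.Agent.Lib.TwinAll
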