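import Mathlib
import Pool.Agent.Lib.TwinAll.Defs
import Pool.Agent.Lib.TwinAll.Four73
import Pool.Agent.Lib.TwinAll.Stmts
import Pool.Agent.Lib.TwinAll.FA73
import Pool.Agent.Lib.TwinAll.FC73

/-!
THEOREM A (MP_c6d112_nt), steps (a), (b), (c) together: the bad set is small.
-/

set_option autoImplicit false

namespace Pool.Agent.Lib.TwinAll

open Finset

namespace FA

/-- step (a) with argument `w (2 * (x + (α * U + δ)))` -/
theorem stepA' (h1 : H1Stmt) {p : ℕ} [Fact p.Prime] (hp2 : p ≠ 2) {ν A : ZMod p → ℝ} {K K' : ℕ}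
    {b c b' c' : ZMod p → ℝ} {r φ D0 : ℝ} (hA : AData ν A K K' b c b' c' r φ D0)
    {D νD b'' c'' w : ZMod p → ℝ} {K'' : ℕ} (hb : Kernel K'' b'' c'') (hνD : ∀ x, 0 ≤ νD x)
    (hD0 : ∀ U, 0 ≤ D U) (hD : ∀ U, D U ≤ νD U * b'' U)
    (hmass : meanR (fun U => νD U * b'' U) ≤ 2) {aD : ℝ}
    (haD : meanR (fun t => ‖mean (fun x => ((νD x - 1 : ℝ) : ℂ) *
      ((νD (x + t) - 1 : ℝ) : ℂ))‖ ^ 2) ≤ aD)
    (hw : ∀ x, 0 ≤ w x ∧ w x ≤ 1) (α δ : ZMod p) (hα : α ≠ 0)
    (hzero : ∀ x U, A x * D U * w (2 * (x + (α * U + δ))) = 0) {η : ℝ}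
    (hη : ∀ ξ, c ξ ≠ 0 → meanR (fun U => D U * ‖ch (ξ * (α * U + δ)) - 1‖) ≤ η) :
    meanR D * meanR (fun x => cvR A b x * w (2 * x)) ≤
      √(2 * K'' * (φ ^ 2 + (aD * (8 * D0 + 165888)) ^ ((1 : ℝ) / 4))) + 2 * r + 2 * K * η := by
  have h20 := two_ne hp2
  refine stepA h1 hp2 hA hb hνD hD0 hD hmass haD hw (2 * α) (2 * δ) (mul_ne_zero h20 hα)
    (fun x U => ?_) (fun ξ hξ => ?_)
  · have e : 2 * α * U + 2 * x + 2 * δ = 2 * (x + (α * U + δ)) := by ring
    rw [e]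
    exact hzero x U
  · have e : ∀ U : ZMod p, (2 * α * U + 2 * δ) / 2 = α * U + δ := by
      intro U
      have : 2 * α * U + 2 * δ = (α * U + δ) * 2 := by ring
      rw [this, mul_div_cancel_right₀ _ h20]
    simp only [e]
    exact hη ξ hξ

section group

variable {p : ℕ} [NeZero p]

/-- the end of the argument -/
theorem finish {A B C b e w : ZMod p → ℝ} {s s' s'' : ℝ} (hw : ∀ x, 0 ≤ w x ∧ w x ≤ 1)
    (he : ∀ x, 0 ≤ e x)
    (hA : meanR (fun x => cvR A b x * w (2 * x)) ≤ s)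
    (hB : meanR (fun x => cvR B b x * w (2 * x)) ≤ s)
    (hC : meanR (fun x => cvR C b x ^ 2 * w (2 * x)) ≤ s')
    (hbal : ∀ x, w (2 * x) ≠ 0 → 1 / 2 - e x ≤ cvR A b x + cvR B b x + cvR C b x)
    (hE : meanR e ≤ s'') :
    meanR (fun x => w (2 * x)) ≤ 2 * (s'' + 2 * s + √s') := by
  have h1 : meanR (fun x => w (2 * x)) * (1 / 2) ≤ meanR e +
      (meanR (fun x => cvR A b x * w (2 * x)) + (meanR (fun x => cvR B b x * w (2 * x)) +
        meanR (fun x => w (2 * x) * |cvR C b x|))) := by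
    rw [← meanR_mul_right, ← meanR_add, ← meanR_add, ← meanR_add]
    refine meanR_mono _ _ fun x => ?_
    have e0 := (hw (2 * x)).1
    have e1 := (hw (2 * x)).2
    have e2 := he x
    have e3 := le_abs_self (cvR C b x)
    by_cases h0 : w (2 * x) = 0
    · rw [h0]
      simp only [mul_zero, zero_mul, add_zero]
      exact e2
    · have e4 := mul_le_mul_of_nonneg_left (hbal x h0) e0
      have e5 := mul_le_mul_of_nonneg_left e3 e0
      have e6 := mul_le_of_le_one_left e2 e1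
      nlinarith
  have h2 : meanR (fun x => w (2 * x) * |cvR C b x|) ≤ √s' := by
    have h3 := mean_cs (fun x => w (2 * x)) (fun x => (hw _).1) (fun x => ((cvR C b x : ℝ) : ℂ))
    simp only [Complex.norm_real, Real.norm_eq_abs, sq_abs] at h3
    refine Real.le_sqrt_of_sq_le (h3.trans ?_)
    have h4 : meanR (fun x => w (2 * x)) ≤ 1 := by
      rw [← meanR_const (p := p) 1]
      exact meanR_mono _ _ fun x => (hw _).2
    have h5 : meanR (fun x => w (2 * x) * cvR C b x ^ 2) ≤ s' := by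
      refine le_trans (le_of_eq ?_) hC
      congr 1
      funext x
      ring
    have h6 : 0 ≤ meanR (fun x => w (2 * x) * cvR C b x ^ 2) :=
      meanR_nonneg _ fun x => mul_nonneg (hw _).1 (sq_nonneg _)
    have h7 : 0 ≤ meanR (fun x => w (2 * x)) := meanR_nonneg _ fun x => (hw _).1
    nlinarith
  linarith

end group

end FA

end Pool.Agent.Lib.TwinAll
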