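import Mathlib
import Pool.Agent.Lib.TwinAll.Defs
import Pool.Agent.Lib.TwinAll.Four73
import Pool.Agent.Lib.TwinAll.Stmts
import Pool.Agent.Lib.TwinAll.Key81
import Pool.Agent.Lib.TwinAll.Trans81
import Pool.Agent.Lib.TwinAll.FA73
import Pool.Agent.Lib.TwinAll.FC73
import Pool.Agent.Lib.TwinAll.FA2x73
import Pool.Agent.Lib.TwinAll.StmtsF73

/-!
THEOREM A (MP_c6d112_nt), final assembly, first part: the functions `A`, `B`, `C`, the bad set and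
the zero relations.
-/

set_option autoImplicit false

namespace Pool.Agent.Lib.TwinAll

open Finset A81 FA

namespace Main

open Classical in
/-- `nu` restricted to `[1, 2M]` and to a property -/
noncomputable def fP (z0 z M : ℕ) (Q : ℕ → Prop) {p : ℕ} (x : ZMod p) : ℝ :=
  if 1 ≤ x.val ∧ x.val ≤ 2 * M ∧ Q x.val then
    nuP z0 z p (![1, 1, 1] : Fin 3 → ℤ) ![0, 1, 2] x else 0

theorem fP_nonneg (z0 z M : ℕ) (Q : ℕ → Prop) {p : ℕ} (x : ZMod p) : 0 ≤ fP z0 z M Q x := by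
  unfold fP
  split_ifs
  · exact nuP_nonneg _ _ _ _ _ _
  · exact le_rfl

theorem fP_le (z0 z M : ℕ) (Q : ℕ → Prop) {p : ℕ} (x : ZMod p) :
    fP z0 z M Q x ≤ nuP z0 z p (![1, 1, 1] : Fin 3 → ℤ) ![0, 1, 2] x := by
  unfold fP
  split_ifs
  · exact le_rfl
  · exact nuP_nonneg _ _ _ _ _ _

theorem fP_eq {z0 z M : ℕ} {Q : ℕ → Prop} {p : ℕ} {x : ZMod p} (h1 : 1 ≤ x.val)
    (h2 : x.val ≤ 2 * M) (h3 : Q x.val) :
    fP z0 z M Q x = nuP z0 z p (![1, 1, 1] : Fin 3 → ℤ) ![0, 1, 2] x := by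
  unfold fP
  rw [if_pos ⟨h1, h2, h3⟩]

theorem of_fP_ne {z0 z M : ℕ} {Q : ℕ → Prop} {p : ℕ} {x : ZMod p} (h : fP z0 z M Q x ≠ 0) :
    1 ≤ x.val ∧ x.val ≤ 2 * M ∧ Q x.val ∧ Rough z0 z ((x.val : ℕ) : ℤ) ∧
      Rough z0 z ((x.val + 1 : ℕ) : ℤ) ∧ Rough z0 z ((x.val + 2 : ℕ) : ℤ) := by
  unfold fP at h
  split_ifs at h with h1
  · have h2 := fun j => rough_of_nu_ne_zero h j
    refine ⟨h1.1, h1.2.1, h1.2.2, ?_, ?_, ?_⟩
    · simpa using h2 0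
    · simpa using h2 1
    · simpa using h2 2
  · exact absurd rfl h

/-- the properties of the three functions -/
def QA (z0 C1 : ℕ) (τ : ℝ) (n : ℕ) : Prop :=
  lam n = -τ ∧ lam (n + 1) = -τ ∧ Sm z0 C1 n ∧ Sm z0 C1 (n + 1) ∧ Sm z0 C1 (n + 2)

def QB (z0 C1 : ℕ) (τ : ℝ) (n : ℕ) : Prop :=
  lam (n + 1) = -τ ∧ lam (n + 2) = -τ ∧ Sm z0 C1 n ∧ Sm z0 C1 (n + 1) ∧ Sm z0 C1 (n + 2)

def QC (z0 C1 : ℕ) (τ : ℝ) (n : ℕ) : Prop :=
  lam n = τ ∧ lam (n + 2) = τ ∧ Sm z0 C1 n ∧ Sm z0 C1 (n + 1) ∧ Sm z0 C1 (n + 2)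

/-- parameters -/
structure Par (z0 z C1 B C N M p : ℕ) : Prop where
  z2 : 2 ≤ z
  pz : p ≤ z ^ B
  Np : N ≤ p
  C : 2 * C1 + B + 1 ≤ C
  M5 : 5 * M < p
  p40 : 40 ≤ p

theorem Par.lt {z0 z C1 B C N M p : ℕ} (h : Par z0 z C1 B C N M p) {n : ℕ} (hn : n ≤ p) :
    n < z ^ (B + 1) := by
  have h1 := h.pz
  have h2 := h.z2
  have h3 := h.p40
  have h4 : 0 < z ^ B := by omega
  rw [pow_succ]
  have : z ^ B * 2 ≤ z ^ B * z := Nat.mul_le_mul_left _ h2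
  omega

theorem good_A {z0 z C1 B C N M p : ℕ} (h : Par z0 z C1 B C N M p) {τ : ℝ} {x : ZMod p}
    (hx : fP z0 z M (QA z0 C1 τ) x ≠ 0) : Good τ C N (2 * x.val) := by
  obtain ⟨h1, h2, ⟨l0, l1, s0, s1, s2⟩, r0, r1, r2⟩ := of_fP_ne hx
  have hM := h.M5
  have hC := h.C
  exact good_two_mul (E := B + 1) (by omega) s0 s1 r0 r1 h.z2 (h.lt (by omega)) (h.lt h.Np)
    (by omega) l0 l1

theorem good_B {z0 z C1 B C N M p : ℕ} (h : Par z0 z C1 B C N M p) {τ : ℝ} {x : ZMod p}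
    (hx : fP z0 z M (QB z0 C1 τ) x ≠ 0) : Good τ C N (2 * x.val + 2) := by
  obtain ⟨h1, h2, ⟨l1, l2, s0, s1, s2⟩, r0, r1, r2⟩ := of_fP_ne hx
  have hM := h.M5
  have hC := h.C
  have hp := h.p40
  exact good_two_mul_add (E := B + 1) s1 s2 r1 r2 h.z2 (h.lt (by omega)) (h.lt h.Np)
    (by omega) l1 l2

theorem good_C {z0 z C1 B C N M p : ℕ} (h : Par z0 z C1 B C N M p) {τ : ℝ} {x : ZMod p}
    (hx : fP z0 z M (QC z0 C1 τ) x ≠ 0) : Good τ C N x.val := by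
  obtain ⟨h1, h2, ⟨l0, l2, s0, s1, s2⟩, r0, r1, r2⟩ := of_fP_ne hx
  have hM := h.M5
  have hC := h.C
  have hp := h.p40
  exact good_self (E := B + 1) (by omega) s0 s2 r0 r2 h.z2 (h.lt (by omega)) (h.lt h.Np)
    (by omega) l0 l2

/-- the sum dominates `nu` where `lam (x + 1) = -τ` -/
theorem sum_ge {z0 z C1 M p : ℕ} {τ : ℝ} (hτ : τ = 1 ∨ τ = -1) (x : ZMod p) (h1 : 1 ≤ x.val)
    (h2 : x.val ≤ 2 * M) (hl : lam (x.val + 1) = -τ) (s0 : Sm z0 C1 x.val)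
    (s1 : Sm z0 C1 (x.val + 1)) (s2 : Sm z0 C1 (x.val + 2)) :
    nuP z0 z p (![1, 1, 1] : Fin 3 → ℤ) ![0, 1, 2] x ≤
      fP z0 z M (QA z0 C1 τ) x + (fP z0 z M (QB z0 C1 τ) x + fP z0 z M (QC z0 C1 τ) x) := by
  have a0 := fP_nonneg z0 z M (QA z0 C1 τ) x
  have b0 := fP_nonneg z0 z M (QB z0 C1 τ) x
  have c0 := fP_nonneg z0 z M (QC z0 C1 τ) x
  rcases key_cases hτ x.val with h | h | ⟨h, h'⟩
  · rw [fP_eq (Q := QA z0 C1 τ) h1 h2 ⟨h, hl, s0, s1, s2⟩]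
    linarith
  · rw [fP_eq (Q := QB z0 C1 τ) h1 h2 ⟨hl, h, s0, s1, s2⟩]
    linarith
  · rw [fP_eq (Q := QC z0 C1 τ) h1 h2 ⟨h, h', s0, s1, s2⟩]
    linarith

/-- bad numbers -/
def Bad (M : ℕ) (τ : ℝ) (C N m : ℕ) : Prop :=
  1 ≤ m ∧ m ≤ M ∧ ¬ ∃ a b : ℕ, a + b = 2 * m ∧ Good τ C N a ∧ Good τ C N b

open Classical in
/-- the indicator function of the bad set at `y / 2` -/
noncomputable def wB (M : ℕ) (τ : ℝ) (C N : ℕ) {p : ℕ} [Fact p.Prime] (y : ZMod p) : ℝ :=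
  if Bad M τ C N (y / 2).val then 1 else 0

theorem wB_mem (M : ℕ) (τ : ℝ) (C N : ℕ) {p : ℕ} [Fact p.Prime] (y : ZMod p) :
    0 ≤ wB M τ C N y ∧ wB M τ C N y ≤ 1 := by
  unfold wB
  split_ifs <;> norm_num

theorem of_wB_ne {M : ℕ} {τ : ℝ} {C N : ℕ} {p : ℕ} [Fact p.Prime] (hp2 : p ≠ 2) {m : ZMod p}
    (h : wB M τ C N (2 * m) ≠ 0) : Bad M τ C N m.val := by
  unfold wB at h
  split_ifs at h with h1
  · rwa [mul_comm, mul_div_cancel_right₀ _ (two_ne hp2)] at h1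
  · exact absurd rfl h

/-- equality of natural numbers from an equality modulo `p` -/
theorem nat_eq {p a b : ℕ} (h : (a : ZMod p) = (b : ZMod p)) (ha : a < p) (hb : b < p) :
    a = b := by
  rw [ZMod.natCast_eq_natCast_iff] at h
  rw [Nat.ModEq, Nat.mod_eq_of_lt ha, Nat.mod_eq_of_lt hb] at h
  exact h

theorem zero_A {z0 z C1 B C N M p : ℕ} [Fact p.Prime] (h : Par z0 z C1 B C N M p) {τ : ℝ}
    {α δ : ZMod p} {D : ZMod p → ℝ} {g : ZMod p → ℕ}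
    (hD : ∀ U, D U ≠ 0 → 20 * g U ≤ p ∧ ((g U + 0 : ℕ) : ZMod p) = 2 * (α * U + δ) ∧
      Good τ C N (g U)) (x U : ZMod p) :
    fP z0 z M (QA z0 C1 τ) x * D U * wB M τ C N (2 * (x + (α * U + δ))) = 0 := by
  have hp2 : p ≠ 2 := by
    have := h.p40
    omega
  by_contra hcon
  have h1 : fP z0 z M (QA z0 C1 τ) x ≠ 0 := fun h0 => hcon (by rw [h0]; ring)
  have h2 : D U ≠ 0 := fun h0 => hcon (by rw [h0]; ring)
  have h3 : wB M τ C N (2 * (x + (α * U + δ))) ≠ 0 := fun h0 => hcon (by rw [h0]; ring)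
  obtain ⟨hg1, hg2, hg3⟩ := hD U h2
  obtain ⟨k1, k2, k3⟩ := of_wB_ne hp2 h3
  have hx := (of_fP_ne h1).2.1
  have hM := h.M5
  have hp := h.p40
  apply k3
  refine ⟨2 * x.val, g U, ?_, good_A h h1, hg3⟩
  symm
  refine nat_eq (p := p) ?_ (by omega) (by omega)
  push_cast at hg2 ⊢
  have e1 : ((x.val : ℕ) : ZMod p) = x := ZMod.natCast_zmod_val x
  have e2 : (((x + (α * U + δ)).val : ℕ) : ZMod p) = x + (α * U + δ) := ZMod.natCast_zmod_val _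
  rw [e1, e2]
  linear_combination -hg2

theorem zero_B {z0 z C1 B C N M p : ℕ} [Fact p.Prime] (h : Par z0 z C1 B C N M p) {τ : ℝ}
    {α δ : ZMod p} {D : ZMod p → ℝ} {g : ZMod p → ℕ}
    (hD : ∀ U, D U ≠ 0 → 20 * g U ≤ p ∧ ((g U + 2 : ℕ) : ZMod p) = 2 * (α * U + δ) ∧
      Good τ C N (g U)) (x U : ZMod p) :
    fP z0 z M (QB z0 C1 τ) x * D U * wB M τ C N (2 * (x + (α * U + δ))) = 0 := by
  have hp2 : p ≠ 2 := by
    have := h.p40
    omega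
  by_contra hcon
  have h1 : fP z0 z M (QB z0 C1 τ) x ≠ 0 := fun h0 => hcon (by rw [h0]; ring)
  have h2 : D U ≠ 0 := fun h0 => hcon (by rw [h0]; ring)
  have h3 : wB M τ C N (2 * (x + (α * U + δ))) ≠ 0 := fun h0 => hcon (by rw [h0]; ring)
  obtain ⟨hg1, hg2, hg3⟩ := hD U h2
  obtain ⟨k1, k2, k3⟩ := of_wB_ne hp2 h3
  have hx := (of_fP_ne h1).2.1
  have hM := h.M5
  have hp := h.p40
  apply k3
  refine ⟨2 * x.val + 2, g U, ?_, good_B h h1, hg3⟩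
  symm
  refine nat_eq (p := p) ?_ (by omega) (by omega)
  push_cast at hg2 ⊢
  have e1 : ((x.val : ℕ) : ZMod p) = x := ZMod.natCast_zmod_val x
  have e2 : (((x + (α * U + δ)).val : ℕ) : ZMod p) = x + (α * U + δ) := ZMod.natCast_zmod_val _
  rw [e1, e2]
  linear_combination -hg2

theorem zero_C {z0 z C1 B C N M p : ℕ} [Fact p.Prime] (h : Par z0 z C1 B C N M p) {τ : ℝ}
    (m k : ZMod p) :
    fP z0 z M (QC z0 C1 τ) (m - k) * fP z0 z M (QC z0 C1 τ) (m + k) *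
      wB M τ C N (2 * m) = 0 := by
  have hp2 : p ≠ 2 := by
    have := h.p40
    omega
  by_contra hcon
  have h1 : fP z0 z M (QC z0 C1 τ) (m - k) ≠ 0 := fun h0 => hcon (by rw [h0]; ring)
  have h2 : fP z0 z M (QC z0 C1 τ) (m + k) ≠ 0 := fun h0 => hcon (by rw [h0]; ring)
  have h3 : wB M τ C N (2 * m) ≠ 0 := fun h0 => hcon (by rw [h0]; ring)
  obtain ⟨k1, k2, k3⟩ := of_wB_ne hp2 h3
  have hx := (of_fP_ne h1).2.1
  have hy := (of_fP_ne h2).2.1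
  have hM := h.M5
  have hp := h.p40
  apply k3
  refine ⟨(m - k).val, (m + k).val, ?_, good_C h h1, good_C h h2⟩
  symm
  refine nat_eq (p := p) ?_ (by omega) (by omega)
  push_cast
  have e1 : (((m - k).val : ℕ) : ZMod p) = m - k := ZMod.natCast_zmod_val _
  have e2 : (((m + k).val : ℕ) : ZMod p) = m + k := ZMod.natCast_zmod_val _
  have e3 : ((m.val : ℕ) : ZMod p) = m := ZMod.natCast_zmod_val _
  rw [e1, e2, e3]
  ring

open Classical in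
/-- the density of the bad set -/
theorem card_bad {M : ℕ} {τ : ℝ} {C N : ℕ} {p : ℕ} [Fact p.Prime] (hp2 : p ≠ 2) (hM : M < p) :
    meanR (fun x : ZMod p => wB M τ C N (2 * x)) =
      (((Finset.Icc 1 M).filter (fun m => Bad M τ C N m)).card : ℝ) / p := by
  unfold meanR
  congr 1
  have h1 : ∀ x : ZMod p, wB M τ C N (2 * x) = if Bad M τ C N x.val then 1 else 0 := by
    intro x
    unfold wB
    rw [mul_comm, mul_div_cancel_right₀ _ (two_ne hp2)]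
  simp only [h1]
  rw [sum_zmod_val (fun n => if Bad M τ C N n then (1 : ℝ) else 0), ← sum_filter, sum_const,
    nsmul_eq_mul, mul_one]
  congr 2
  ext n
  rw [mem_filter, mem_filter, Finset.mem_range, Finset.mem_Icc]
  unfold Bad
  constructor
  · rintro ⟨h1, h2, h3, h4⟩
    exact ⟨⟨h2, h3⟩, h2, h3, h4⟩
  · rintro ⟨⟨h1, h2⟩, h3⟩
    exact ⟨by omega, h3⟩

section group

variable {p : ℕ} [NeZero p]

/-- the end of the argument, balance in the mean -/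
theorem finish' {A B C b w : ZMod p → ℝ} {s s' s'' : ℝ} (hw : ∀ x, 0 ≤ w x ∧ w x ≤ 1)
    (hA : meanR (fun x => cvR A b x * w (2 * x)) ≤ s)
    (hB : meanR (fun x => cvR B b x * w (2 * x)) ≤ s)
    (hC : meanR (fun x => cvR C b x ^ 2 * w (2 * x)) ≤ s')
    (hbal : 1 / 2 * meanR (fun x => w (2 * x)) - s'' ≤
      meanR (fun x => cvR (fun x => A x + (B x + C x)) b x * w (2 * x))) :
    meanR (fun x => w (2 * x)) ≤ 2 * (s'' + 2 * s + √s') := by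
  have h1 : meanR (fun x => cvR (fun x => A x + (B x + C x)) b x * w (2 * x)) ≤
      meanR (fun x => cvR A b x * w (2 * x)) + (meanR (fun x => cvR B b x * w (2 * x)) +
        meanR (fun x => w (2 * x) * |cvR C b x|)) := by
    rw [← meanR_add, ← meanR_add]
    refine meanR_mono _ _ fun x => ?_
    rw [cvR_add, cvR_add]
    have e0 := (hw (2 * x)).1
    have e3 := le_abs_self (cvR C b x)
    have e5 := mul_le_mul_of_nonneg_left e3 e0
    nlinarith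
  have h2 : meanR (fun x => w (2 * x) * |cvR C b x|) ≤ √s' := by
    have h3 := mean_cs (fun x => w (2 * x)) (fun x => (hw _).1) (fun x => ((cvR C b x : ℝ) : ℂ))
    simp only [Complex.norm_real, Real.norm_eq_abs, sq_abs] at h3
    refine Real.le_sqrt_of_sq_le (h3.trans ?_)
    have h4 : meanR (fun x => w (2 * x)) ≤ 1 := by
      rw [← meanR_const (p := p) 1]
      exact meanR_mono _ _ fun x => (hw _).2
    have h5 : meanR (fun x => w (2 * x) * cvR C b x ^ 2) ≤ s' := by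
      refine le_trans (le_of_eq ?_) hC
      congr 1
      funext x
      ring
    have h6 : 0 ≤ meanR (fun x => w (2 * x) * cvR C b x ^ 2) :=
      meanR_nonneg _ fun x => mul_nonneg (hw _).1 (sq_nonneg _)
    have h7 : 0 ≤ meanR (fun x => w (2 * x)) := meanR_nonneg _ fun x => (hw _).1
    nlinarith
  linarith

end group

end Main

end Pool.Agent.Lib.TwinAll
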