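import Mathlib
import Pool.Agent.Lib.TwinAll.MainA73

/-!
THEOREM A (MP_c6d112_nt), final assembly, second part: the density of the bad set from the data,
and bookkeeping of the order of constants.
-/

set_option autoImplicit false

namespace Pool.Agent.Lib.TwinAll

open Finset A81 FA

namespace Main

/-- conclusion of `FDStmt` -/
def FDConc (G : ℕ) (η a : ℝ) (C1 B p : ℕ) [Fact p.Prime] (S : Finset (ZMod p)) (τ : ℝ)
    (e : ℕ) : Prop :=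
  ∃ (D νD b'' c'' : ZMod p → ℝ) (α δ : ZMod p) (g : ZMod p → ℕ), Kernel G b'' c'' ∧
      (∀ x, 0 ≤ νD x) ∧ (∀ x, 0 ≤ D x ∧ D x ≤ νD x * b'' x) ∧
      meanR (fun t => ‖mean (fun x => ((νD x - 1 : ℝ) : ℂ) *
        ((νD (x + t) - 1 : ℝ) : ℂ))‖ ^ 2) ≤ a ∧
      meanR (fun x => νD x * b'' x) ≤ 2 ∧ 1 / 50 ≤ meanR D ∧ α ≠ 0 ∧
      (∀ U, D U ≠ 0 → 20 * g U ≤ p ∧ ((g U + e : ℕ) : ZMod p) = 2 * (α * U + δ) ∧
        ∀ C N : ℕ, C1 + B + 1 ≤ C → N ≤ p → Good τ C N (g U)) ∧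
      ∀ ξ ∈ S, meanR (fun U => D U * ‖ch (ξ * (α * U + δ)) - 1‖) ≤ η

theorem FDConc.mono {G : ℕ} {η a : ℝ} {C1 C1' B p : ℕ} [Fact p.Prime] {S : Finset (ZMod p)}
    {τ : ℝ} {e : ℕ} (h : FDConc G η a C1 B p S τ e) (hC : C1 ≤ C1') :
    FDConc G η a C1' B p S τ e := by
  obtain ⟨D, νD, b'', c'', α, δ, g, h1, h2, h3, h4, h5, h6, h7, h8, h9⟩ := h
  exact ⟨D, νD, b'', c'', α, δ, g, h1, h2, h3, h4, h5, h6, h7, fun U hU =>
    ⟨(h8 U hU).1, (h8 U hU).2.1, fun C N hC' hN => (h8 U hU).2.2 C N (by omega) hN⟩, h9⟩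

/-- the bound of step (a) -/
theorem useA (h1 : H1Stmt) {z0 z C1 B C N M p : ℕ} [Fact p.Prime] (hP : Par z0 z C1 B C N M p)
    {τ : ℝ} {Q : ℕ → Prop} {e : ℕ}
    (hzero : ∀ (α δ : ZMod p) (D : ZMod p → ℝ) (g : ZMod p → ℕ),
      (∀ U, D U ≠ 0 → 20 * g U ≤ p ∧ ((g U + e : ℕ) : ZMod p) = 2 * (α * U + δ) ∧
        Good τ C N (g U)) → ∀ x U : ZMod p,
        fP z0 z M Q x * D U * wB M τ C N (2 * (x + (α * U + δ))) = 0)
    {ν : ZMod p → ℝ} {K K' : ℕ} {b c b' c' : ZMod p → ℝ} {r φ D0 : ℝ}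
    (hA : AData ν (fP z0 z M Q) K K' b c b' c' r φ D0) {G : ℕ} {η a : ℝ}
    (hD : FDConc G η a C1 B p (univ.filter (fun ξ => c ξ ≠ 0)) τ e) :
    meanR (fun x : ZMod p => cvR (fP z0 z M Q) b x * wB M τ C N (2 * x)) ≤
      50 * (√(2 * G * (φ ^ 2 + (a * (8 * D0 + 165888)) ^ ((1 : ℝ) / 4))) + 2 * r +
        2 * K * η) := by
  obtain ⟨D, νD, b'', c'', α, δ, g, k1, k2, k3, k4, k5, k6, k7, k8, k9⟩ := hD
  have hp2 : p ≠ 2 := by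
    have := hP.p40
    omega
  have hC := hP.C
  have k := stepA' h1 hp2 hA k1 k2 (fun U => (k3 U).1) (fun U => (k3 U).2) k5 k4
    (wB_mem M τ C N) α δ k7 (hzero α δ D g (fun U hU => ⟨(k8 U hU).1, (k8 U hU).2.1,
      (k8 U hU).2.2 C N (by omega) hP.Np⟩)) (η := η)
    (fun ξ hξ => k9 ξ (mem_filter.2 ⟨mem_univ _, hξ⟩))
  have h0 : 0 ≤ meanR (fun x : ZMod p => cvR (fP z0 z M Q) b x * wB M τ C N (2 * x)) :=
    meanR_nonneg _ fun x => mul_nonneg (cvR_nonneg _ _ (fun x => hA.nn x) hA.ker.nonneg x)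
      (wB_mem M τ C N _).1
  nlinarith

/-- the density of the bad set -/
theorem core (h1 : H1Stmt) {z0 z C1 B C N M p : ℕ} [Fact p.Prime] (hP : Par z0 z C1 B C N M p)
    {τ : ℝ} {ν : ZMod p → ℝ} {K K' : ℕ} {b c b' c' : ZMod p → ℝ} {r φ D0 : ℝ}
    (hA : AData ν (fP z0 z M (QA z0 C1 τ)) K K' b c b' c' r φ D0)
    (hB : AData ν (fP z0 z M (QB z0 C1 τ)) K K' b c b' c' r φ D0)
    (hC : AData ν (fP z0 z M (QC z0 C1 τ)) K K' b c b' c' r φ D0)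
    {G : ℕ} {η a : ℝ}
    (hDA : FDConc G η a C1 B p (univ.filter (fun ξ => c ξ ≠ 0)) τ 0)
    (hDB : FDConc G η a C1 B p (univ.filter (fun ξ => c ξ ≠ 0)) τ 2)
    (haN : meanR (fun t => ‖mean (fun x => ((ν x - 1 : ℝ) : ℂ) *
      ((ν (x + t) - 1 : ℝ) : ℂ))‖ ^ 2) ≤ a)
    {b3 c3 : ZMod p → ℝ} {K3 : ℕ} (hb3 : Kernel K3 b3 c3) {η3 : ℝ}
    (hη3 : ∀ ξ, c ξ ≠ 0 → meanR (fun k => b3 k * ‖ch (ξ * k) - 1‖ ^ 2) ≤ η3) {s'' : ℝ}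
    (hbal : 1 / 2 * meanR (fun x : ZMod p => wB M τ C N (2 * x)) - s'' ≤
      meanR (fun x : ZMod p => cvR (fun x => fP z0 z M (QA z0 C1 τ) x + (fP z0 z M (QB z0 C1 τ) x +
        fP z0 z M (QC z0 C1 τ) x)) b x * wB M τ C N (2 * x))) {s s' : ℝ}
    (hs : 50 * (√(2 * G * (φ ^ 2 + (a * (8 * D0 + 165888)) ^ ((1 : ℝ) / 4))) + 2 * r +
        2 * K * η) ≤ s)
    (hs' : K3 * (√(2 * (φ ^ 2 + (a * (8 * D0 + 165888)) ^ ((1 : ℝ) / 4))) + 2 * φ) + 4 * r +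
        8 * K * √η3 ≤ s') :
    meanR (fun x : ZMod p => wB M τ C N (2 * x)) ≤ 2 * (s'' + 2 * s + √s') := by
  have hp2 : p ≠ 2 := by
    have := hP.p40
    omega
  refine finish' (wB_mem M τ C N) ((useA h1 hP ?_ hA hDA).trans hs)
    ((useA h1 hP ?_ hB hDB).trans hs)
    ((stepC h1 hp2 hC hb3 haN (wB_mem M τ C N) (zero_C hP) hη3).trans hs') hbal
  · intro α δ D g hD x U
    exact zero_A hP hD x U
  · intro α δ D g hD x U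
    exact zero_B hP hD x U

/-- order of constants -/
def Ev (P : ℕ → ℕ → ℕ → ℕ → ℕ → Prop) : Prop :=
  ∃ Bs zs : ℕ, ∀ z0, zs ≤ z0 → ∃ C0, ∀ C1, C0 ≤ C1 → ∀ B, ∃ z1, ∀ z, z1 ≤ z → ∀ p,
    z ^ Bs ≤ p → p ≤ z ^ B → P z0 C1 B z p

theorem Ev.and {P Q : ℕ → ℕ → ℕ → ℕ → ℕ → Prop} (hP : Ev P) (hQ : Ev Q) :
    Ev (fun z0 C1 B z p => P z0 C1 B z p ∧ Q z0 C1 B z p) := by
  obtain ⟨Bs, zs, h⟩ := hP
  obtain ⟨Bs', zs', h'⟩ := hQ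
  refine ⟨max Bs Bs', max zs zs', fun z0 hz0 => ?_⟩
  obtain ⟨C0, hC⟩ := h z0 ((le_max_left _ _).trans hz0)
  obtain ⟨C0', hC'⟩ := h' z0 ((le_max_right _ _).trans hz0)
  refine ⟨max C0 C0', fun C1 hC1 B => ?_⟩
  obtain ⟨z1, hz1⟩ := hC C1 ((le_max_left _ _).trans hC1) B
  obtain ⟨z1', hz1'⟩ := hC' C1 ((le_max_right _ _).trans hC1) B
  refine ⟨max 1 (max z1 z1'), fun z hz p hp1 hp2 => ?_⟩
  have e1 : 1 ≤ z := (le_max_left _ _).trans hz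
  have e2 : z1 ≤ z := ((le_max_left _ _).trans (le_max_right _ _)).trans hz
  have e3 : z1' ≤ z := ((le_max_right _ _).trans (le_max_right _ _)).trans hz
  exact ⟨hz1 z e2 p ((Nat.pow_le_pow_right e1 (le_max_left _ _)).trans hp1) hp2,
    hz1' z e3 p ((Nat.pow_le_pow_right e1 (le_max_right _ _)).trans hp1) hp2⟩

theorem Ev.mono {P Q : ℕ → ℕ → ℕ → ℕ → ℕ → Prop} (hP : Ev P)
    (h : ∀ z0 C1 B z p, P z0 C1 B z p → Q z0 C1 B z p) : Ev Q := by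
  obtain ⟨Bs, zs, h1⟩ := hP
  refine ⟨Bs, zs, fun z0 hz0 => ?_⟩
  obtain ⟨C0, hC⟩ := h1 z0 hz0
  refine ⟨C0, fun C1 hC1 B => ?_⟩
  obtain ⟨z1, hz1⟩ := hC C1 hC1 B
  exact ⟨z1, fun z hz p hp1 hp2 => h _ _ _ _ _ (hz1 z hz p hp1 hp2)⟩

theorem Ev.all_le (P : ℕ → ℕ → ℕ → ℕ → ℕ → ℕ → Prop) (n : ℕ) (h : ∀ K ≤ n, Ev (P K)) :
    Ev (fun z0 C1 B z p => ∀ K ≤ n, P K z0 C1 B z p) := by
  induction n with
  | zero =>
    refine (h 0 le_rfl).mono fun z0 C1 B z p hP K hK => ?_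
    rw [Nat.le_zero] at hK
    rw [hK]
    exact hP
  | succ n ih =>
    refine ((ih fun K hK => h K (by omega)).and (h (n + 1) le_rfl)).mono
      fun z0 C1 B z p hP K hK => ?_
    rcases Nat.lt_or_ge K (n + 1) with h1 | h1
    · exact hP.1 K (by omega)
    · have : K = n + 1 := by omega
      rw [this]
      exact hP.2

/-- choice of `p` and `z` -/
theorem exists_pz (B0 Z M : ℕ) (hB : 1 ≤ B0) (hZ : 2 ≤ Z) (hM : Z ^ B0 ≤ M) : ∃ p z : ℕ,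
    p.Prime ∧ 5 * M < p ∧ p ≤ 10 * M ∧ Z ≤ z ∧ z ^ B0 ≤ p ∧ p ≤ z ^ (2 * B0) := by
  have hM0 : 0 < M := lt_of_lt_of_le (by positivity) hM
  obtain ⟨p, hp, hp1, hp2⟩ := Nat.exists_prime_lt_and_le_two_mul (5 * M) (by omega)
  obtain ⟨z, hz⟩ : ∃ z, z = Nat.findGreatest (fun z => z ^ B0 ≤ p) p := ⟨_, rfl⟩
  have hZB : Z ≤ Z ^ B0 := Nat.le_self_pow (by omega) Z
  have hZz : Z ≤ z := by
    rw [hz]
    exact Nat.le_findGreatest (by omega) (by omega)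
  have hzp : z ^ B0 ≤ p := by
    have h0 : (fun z => z ^ B0 ≤ p) (Nat.findGreatest (fun z => z ^ B0 ≤ p) p) :=
      Nat.findGreatest_spec (P := fun z => z ^ B0 ≤ p) (m := Z) (by omega) (by
        show Z ^ B0 ≤ p
        omega)
    rw [hz]
    exact h0
  have hpz : p < (z + 1) ^ B0 := by
    by_contra hcon
    push Not at hcon
    have h1 : z + 1 ≤ (z + 1) ^ B0 := Nat.le_self_pow (by omega) _
    have h2 : z + 1 ≤ Nat.findGreatest (fun z => z ^ B0 ≤ p) p :=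
      Nat.le_findGreatest (by omega) hcon
    omega
  refine ⟨p, z, hp, hp1, by omega, hZz, hzp, ?_⟩
  have h1 : z + 1 ≤ z ^ 2 := by nlinarith
  calc p ≤ (z + 1) ^ B0 := hpz.le
    _ ≤ (z ^ 2) ^ B0 := Nat.pow_le_pow_left h1 B0
    _ = z ^ (2 * B0) := by rw [← pow_mul]

end Main

end Pool.Agent.Lib.TwinAll
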