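import Mathlib
import Pool.Agent.Lib.TwinAll.MainB73

/-!
THEOREM A (MP_c6d112_nt), final assembly, third part: choice of constants.
-/

set_option autoImplicit false

namespace Pool.Agent.Lib.TwinAll

open Finset A81 FA

namespace Main

theorem Sm.mono {z0 C1 C1' x : ℕ} (h : Sm z0 C1 x) (hC : C1 ≤ C1') : Sm z0 C1' x := by
  obtain ⟨d, ρ, h1, h2, h3, h4⟩ := h
  exact ⟨d, ρ, h1, h2, h3.trans hC, h4⟩

/-- the three forms -/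
theorem forms_ok {z0 z B : ℕ} (hz : 2 ≤ z) (j : Fin 3) :
    |(![1, 1, 1] : Fin 3 → ℤ) j| ≤ (z : ℤ) ^ (B + 1) ∧
      |(![0, 1, 2] : Fin 3 → ℤ) j| ≤ (z : ℤ) ^ (B + 1) ∧
      ∀ q ∈ PP z0 z, ¬ ((q : ℤ) ∣ (![1, 1, 1] : Fin 3 → ℤ) j) := by
  have h1 : (2 : ℤ) ≤ (z : ℤ) ^ (B + 1) := by
    have e1 : (2 : ℤ) ≤ z := by exact_mod_cast hz
    calc (2 : ℤ) ≤ z := e1
      _ ≤ (z : ℤ) ^ (B + 1) := le_self_pow₀ (by linarith) (by omega)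
  have h2 : ∀ q ∈ PP z0 z, ¬ ((q : ℤ) ∣ 1) := by
    intro q hq h
    have h3 : q.Prime := (Finset.mem_filter.1 hq).2
    have h4 : q ∣ 1 := by exact_mod_cast h
    exact h3.one_lt.ne' (Nat.dvd_one.1 h4)
  fin_cases j
  · refine ⟨?_, ?_, h2⟩
    · show |(1 : ℤ)| ≤ _
      rw [abs_one]
      linarith
    · show |(0 : ℤ)| ≤ _
      rw [abs_zero]
      linarith
  · refine ⟨?_, ?_, h2⟩
    · show |(1 : ℤ)| ≤ _
      rw [abs_one]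
      linarith
    · show |(1 : ℤ)| ≤ _
      rw [abs_one]
      linarith
  · refine ⟨?_, ?_, h2⟩
    · show |(1 : ℤ)| ≤ _
      rw [abs_one]
      linarith
    · show |(2 : ℤ)| ≤ _
      rw [abs_of_pos (by norm_num : (0 : ℤ) < 2)]
      exact h1

/-- `nu_{x, x+1, x+2}` on `ZMod p` -/
noncomputable def nu3 (z0 z p : ℕ) (x : ZMod p) : ℝ :=
  nuP z0 z p (![1, 1, 1] : Fin 3 → ℤ) ![0, 1, 2] x

theorem ev3 (hS3 : S3Stmt) (a : ℝ) (ha : 0 < a) : Ev (fun z0 _ _ z p => ∀ _ : Fact p.Prime,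
    meanR (fun t : ZMod p => ‖mean (fun x : ZMod p => ((nu3 z0 z p x - 1 : ℝ) : ℂ) *
      ((nu3 z0 z p (x + t) - 1 : ℝ) : ℂ))‖ ^ 2) ≤ a ∧
    meanR (fun t : ZMod p => ‖mean (fun x : ZMod p => ((nu3 z0 z p x : ℝ) : ℂ) *
      ((nu3 z0 z p (x + t) : ℝ) : ℂ))‖ ^ 4) ≤ 32) := by
  obtain ⟨s, zs, h⟩ := trans3 hS3 3 a ha
  refine ⟨s, zs, fun z0 hz0 => ⟨0, fun C1 _ B => ?_⟩⟩
  obtain ⟨z1, hz1⟩ := h z0 hz0 (B + 1)
  refine ⟨max z1 2, fun z hz p hp1 hp2 hp => ?_⟩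
  have hz2 : 2 ≤ z := (le_max_right _ _).trans hz
  exact hz1 z ((le_max_left _ _).trans hz) _ _ (forms_ok hz2) p hp1
    (hp2.trans (Nat.pow_le_pow_right (by omega) (by omega)))

theorem ev4 (hS4 : S4Stmt) (e : ℝ) (he : 0 < e) : Ev (fun z0 _ _ z p => ∀ _ : Fact p.Prime,
    ∀ ζ : ZMod p, ‖mean (fun x : ZMod p => ((nu3 z0 z p x - 1 : ℝ) : ℂ) * ch (ζ * x))‖ ≤ e) := by
  obtain ⟨s, zs, h⟩ := trans4 hS4 3 e he
  refine ⟨s, zs, fun z0 hz0 => ⟨0, fun C1 _ B => ?_⟩⟩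
  obtain ⟨z1, hz1⟩ := h z0 hz0 (B + 1)
  refine ⟨max z1 2, fun z hz p hp1 hp2 hp ζ => ?_⟩
  have hz2 : 2 ≤ z := (le_max_right _ _).trans hz
  exact (hz1 z ((le_max_left _ _).trans hz) _ _ (forms_ok hz2) p
    (hp2.trans (Nat.pow_le_pow_right (by omega) (by omega))) hp1 ζ).1

/-- conclusion of `FBStmt` -/
def FBConc (s εb : ℝ) (K z0 C1 z p : ℕ) [Fact p.Prime] : Prop :=
  ∀ M : ℕ, 5 * M < p → p ≤ 10 * M →
    ∀ b c : ZMod p → ℝ, Kernel K b c → meanR (fun x => b x * ‖ch x - 1‖ ^ 2) ≤ εb →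
    ∀ τ : ℝ, (τ = 1 ∨ τ = -1) → ∀ T w : ZMod p → ℝ, (∀ x, 0 ≤ T x) →
    (∀ x : ZMod p, 1 ≤ x.val → x.val ≤ 2 * M → lam (x.val + 1) = -τ → Sm z0 C1 x.val →
      Sm z0 C1 (x.val + 1) → Sm z0 C1 (x.val + 2) → nu3 z0 z p x ≤ T x) →
    (∀ x, 0 ≤ w x ∧ w x ≤ 1) → (∀ x : ZMod p, w (2 * x) ≠ 0 → 1 ≤ x.val ∧ x.val ≤ M) →
    1 / 2 * meanR (fun x => w (2 * x)) - s ≤ meanR (fun x => cvR T b x * w (2 * x))

theorem evB (hFB : FBStmt) (s : ℝ) (hs : 0 < s) : ∃ εb : ℝ, 0 < εb ∧ ∀ K : ℕ,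
    Ev (fun z0 C1 _ z p => ∀ _ : Fact p.Prime, FBConc s εb K z0 C1 z p) := by
  obtain ⟨εb, hεb, h⟩ := hFB s hs
  refine ⟨εb, hεb, fun K => ?_⟩
  obtain ⟨Bs, zs, h1⟩ := h K
  refine ⟨Bs, zs, fun z0 hz0 => ?_⟩
  obtain ⟨C0, hC0⟩ := h1 z0 hz0
  refine ⟨C0, fun C1 hC1 B => ?_⟩
  obtain ⟨z1, hz1⟩ := hC0 B
  refine ⟨z1, fun z hz p hp1 hp2 hp M hM1 hM2 b c hb hb2 τ hτ T w hT hT2 hw hw2 => ?_⟩
  exact hz1 z hz p M hp1 hp2 hM1 hM2 b c hb hb2 τ hτ T w hT (fun x e1 e2 e3 e4 e5 e6 =>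
    hT2 x e1 e2 e3 (Sm.mono e4 hC1) (Sm.mono e5 hC1) (Sm.mono e6 hC1)) hw hw2

theorem evD (hFD : FDStmt) (K : ℕ) (η : ℝ) (hη : 0 < η) : ∃ G : ℕ, ∀ a : ℝ, 0 < a →
    Ev (fun _ C1 B _ p => ∀ _ : Fact p.Prime, ∀ S : Finset (ZMod p), S.card ≤ K →
      ∀ τ : ℝ, (τ = 1 ∨ τ = -1) → ∀ e : ℕ, (e = 0 ∨ e = 2) → FDConc G η a C1 B p S τ e) := by
  obtain ⟨G, h⟩ := hFD K η hη
  refine ⟨G, fun a ha => ?_⟩
  obtain ⟨Bs, zs, h1⟩ := h a ha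
  refine ⟨Bs, zs, fun z0 hz0 => ?_⟩
  obtain ⟨C0, hC0⟩ := h1 z0 hz0
  refine ⟨C0, fun C1 hC1 B => ?_⟩
  obtain ⟨z1, hz1⟩ := hC0 B
  refine ⟨z1, fun z hz p hp1 hp2 hp S hS τ hτ e he => ?_⟩
  have h2 : FDConc G η a C0 B p S τ e := hz1 z hz p hp1 hp2 S hS τ hτ e he
  exact h2.mono hC1

/-- the Fourier coefficients of `nu` -/
theorem ft_nu {z0 z p : ℕ} [NeZero p] {e : ℝ}
    (h : ∀ ζ : ZMod p, ‖mean (fun x : ZMod p => ((nu3 z0 z p x - 1 : ℝ) : ℂ) * ch (ζ * x))‖ ≤ e) :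
    (∀ ξ : ZMod p, ξ ≠ 0 → ‖ft (fun x => ((nu3 z0 z p x : ℝ) : ℂ)) ξ‖ ≤ e) ∧
      |meanR (nu3 z0 z p) - 1| ≤ e := by
  constructor
  · intro ξ hξ
    have h1 := h (-ξ)
    have h2 : ft (fun x => ((nu3 z0 z p x : ℝ) : ℂ)) ξ =
        mean (fun x : ZMod p => ((nu3 z0 z p x - 1 : ℝ) : ℂ) * ch (-ξ * x)) := by
      have h3 : mean (fun x : ZMod p => ch (-ξ * x)) = 0 := by
        rw [mean_ch, if_neg (neg_ne_zero.2 hξ)]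
      unfold ft
      rw [← sub_zero (mean (fun x => ((nu3 z0 z p x : ℝ) : ℂ) * ch (-(ξ * x)))), ← h3, ← mean_sub]
      congr 1
      funext x
      rw [← neg_mul]
      push_cast
      ring
    rw [h2]
    exact h1
  · have h1 := h 0
    have h2 : mean (fun x : ZMod p => ((nu3 z0 z p x - 1 : ℝ) : ℂ) * ch (0 * x)) =
        ((meanR (nu3 z0 z p) - 1 : ℝ) : ℂ) := by
      have h3 : (fun x : ZMod p => ((nu3 z0 z p x - 1 : ℝ) : ℂ) * ch (0 * x)) =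
          fun x => ((nu3 z0 z p x - 1 : ℝ) : ℂ) := by
        funext x
        rw [zero_mul, ch_zero, mul_one]
      rw [h3, ← ofReal_meanR, meanR_sub, meanR_const]
    rw [h2, Complex.norm_real, Real.norm_eq_abs] at h1
    exact h1

/-- the constants of step (a) -/
theorem numA {t Φ m G K r η : ℝ} (ht : 0 < t) (hG : 0 ≤ G) (hK : 0 ≤ K)
    (hΦ : Φ ≤ t / (2 * (G + 1))) (hm0 : 0 ≤ m) (hm : m ≤ Φ) (hr : r ≤ t / 2)
    (hη : η = t / (2 * (K + 1))) :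
    √(2 * G * (Φ ^ 2 + m ^ 2)) + 2 * r + 2 * K * η ≤ 3 * t := by
  have hΦ0 : 0 ≤ Φ := hm0.trans hm
  have h1 : √(2 * G * (Φ ^ 2 + m ^ 2)) ≤ t := by
    rw [Real.sqrt_le_left ht.le]
    have h2 : m ^ 2 ≤ Φ ^ 2 := pow_le_pow_left₀ hm0 hm 2
    have h3 : Φ * (2 * (G + 1)) ≤ t := by
      rwa [le_div_iff₀ (by positivity)] at hΦ
    have h4 : (Φ * (2 * (G + 1))) ^ 2 ≤ t ^ 2 := pow_le_pow_left₀ (by positivity) h3 2
    nlinarith [sq_nonneg Φ, mul_nonneg hG (sq_nonneg Φ), mul_nonneg (mul_nonneg hG hG)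
      (sq_nonneg Φ)]
  have h5 : 2 * K * η ≤ t := by
    rw [hη, ← mul_div_assoc, div_le_iff₀ (by positivity)]
    nlinarith
  linarith

/-- the constants of step (c) -/
theorem numC {t Φ m K3 K r : ℝ} (ht : 0 < t) (hK3 : 0 ≤ K3) (hK : 0 ≤ K)
    (hΦ : Φ ≤ t / (4 * (K3 + 1))) (hm0 : 0 ≤ m) (hm : m ≤ Φ) (hr : r ≤ t / 4) :
    K3 * (√(2 * (Φ ^ 2 + m ^ 2)) + 2 * Φ) + 4 * r + 8 * K * √((t / (8 * (K + 1))) ^ 2) ≤
      3 * t := by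
  have hΦ0 : 0 ≤ Φ := hm0.trans hm
  have h1 : √(2 * (Φ ^ 2 + m ^ 2)) ≤ 2 * Φ := by
    rw [Real.sqrt_le_left (by positivity)]
    have h2 : m ^ 2 ≤ Φ ^ 2 := pow_le_pow_left₀ hm0 hm 2
    nlinarith
  have h3 : Φ * (4 * (K3 + 1)) ≤ t := by
    rwa [le_div_iff₀ (by positivity)] at hΦ
  have h4 : K3 * (√(2 * (Φ ^ 2 + m ^ 2)) + 2 * Φ) ≤ t := by
    have h5 : K3 * (√(2 * (Φ ^ 2 + m ^ 2)) + 2 * Φ) ≤ K3 * (2 * Φ + 2 * Φ) :=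
      mul_le_mul_of_nonneg_left (by linarith) hK3
    nlinarith
  have h6 : 8 * K * √((t / (8 * (K + 1))) ^ 2) ≤ t := by
    rw [Real.sqrt_sq (by positivity), ← mul_div_assoc, div_le_iff₀ (by positivity)]
    nlinarith
  linarith

/-- the count -/
theorem count_bad {N M C : ℕ} {τ : ℝ} (hM : M = N / 2) (F : Finset ℕ)
    (hF : ∀ n ∈ F, 1 ≤ n ∧ n ≤ N ∧ Even n ∧ ¬ ∃ a b : ℕ, a + b = n ∧ Good τ C N a ∧
      Good τ C N b) (F' : Finset ℕ) (hF' : ∀ m, Bad M τ C N m → m ∈ F') :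
    F.card ≤ F'.card := by
  refine Finset.card_le_card_of_injOn (fun n => n / 2) (fun n hn => ?_) (fun n hn n' hn' h => ?_)
  · obtain ⟨h1, h2, ⟨k, hk⟩, h4⟩ := hF n hn
    show n / 2 ∈ F'
    apply hF'
    have e : 2 * (n / 2) = n := by omega
    refine ⟨by omega, by omega, ?_⟩
    rw [e]
    exact h4
  · obtain ⟨-, -, ⟨k, hk⟩, -⟩ := hF n hn
    obtain ⟨-, -, ⟨k', hk'⟩, -⟩ := hF n' hn'
    simp only at h
    omega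

end Main

open Main in
theorem MainThm (h1 : H1Stmt) (h2 : H2Stmt) (h3 : H3Stmt) (hS3 : S3Stmt) (hS4 : S4Stmt)
    (hFD : FDStmt) (hFB : FBStmt) : MainStmt := by
  classical
  intro ε hε τ hτ
  obtain ⟨β, hβ⟩ : ∃ β : ℝ, β = ε / 5 := ⟨_, rfl⟩
  have hβ0 : 0 < β := by rw [hβ]; positivity
  obtain ⟨t, ht⟩ : ∃ t : ℝ, t = β / 2400 := ⟨_, rfl⟩
  have ht0 : 0 < t := by rw [ht]; positivity
  obtain ⟨t', ht'⟩ : ∃ t' : ℝ, t' = β ^ 2 / 192 := ⟨_, rfl⟩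
  have ht'0 : 0 < t' := by rw [ht']; positivity
  obtain ⟨εb, hεb, hFB'⟩ := evB hFB (β / 8) (by positivity)
  have hηA : ∀ K : ℕ, 0 < t / (2 * ((K : ℝ) + 1)) := fun K => by positivity
  choose G hG using fun K : ℕ => evD hFD K (t / (2 * ((K : ℝ) + 1))) (hηA K)
  have hη3 : ∀ K : ℕ, 0 < (t' / (8 * ((K : ℝ) + 1))) ^ 2 := fun K => by positivity
  choose K3 hK3 using fun K : ℕ => h2 K ((t' / (8 * ((K : ℝ) + 1))) ^ 2) (hη3 K)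
  obtain ⟨Φ, hΦ⟩ : ∃ Φ : ℕ → ℝ, Φ = fun K => min (t / (2 * ((G K : ℝ) + 1)))
    (t' / (4 * ((K3 K : ℝ) + 1))) := ⟨_, rfl⟩
  have hΦ0 : ∀ K, 0 < Φ K := fun K => by
    rw [hΦ]
    exact lt_min (by positivity) (by positivity)
  have hΦ1 : ∀ K, Φ K ≤ t / (2 * ((G K : ℝ) + 1)) := fun K => by
    rw [hΦ]
    exact min_le_left _ _
  have hΦ2 : ∀ K, Φ K ≤ t' / (4 * ((K3 K : ℝ) + 1)) := fun K => by
    rw [hΦ]
    exact min_le_right _ _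
  obtain ⟨ε3, hε3⟩ : ∃ ε3 : ℝ, ε3 = min (min εb (t / 2)) (t' / 4) := ⟨_, rfl⟩
  have hε30 : 0 < ε3 := by
    rw [hε3]
    exact lt_min (lt_min hεb (by positivity)) (by positivity)
  have hε31 : ε3 ≤ εb := by
    rw [hε3]
    exact (min_le_left _ _).trans (min_le_left _ _)
  have hε32 : ε3 ≤ t / 2 := by
    rw [hε3]
    exact (min_le_left _ _).trans (min_le_right _ _)
  have hε33 : ε3 ≤ t' / 4 := by
    rw [hε3]
    exact min_le_right _ _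
  obtain ⟨Kmax, ε0, hε0, hH⟩ := h3 ε3 hε30 Φ hΦ0
  obtain ⟨K0, -, hK0⟩ := Finset.exists_min_image (Finset.range (Kmax + 1)) Φ
    ⟨0, Finset.mem_range.2 (by omega)⟩
  obtain ⟨m, hm⟩ : ∃ m : ℝ, m = Φ K0 := ⟨_, rfl⟩
  have hm0 : 0 < m := by rw [hm]; exact hΦ0 K0
  obtain ⟨a, ha⟩ : ∃ a : ℝ, a = m ^ 8 / 166144 := ⟨_, rfl⟩
  have ha0 : 0 < a := by rw [ha]; positivity
  have ham : (a * (8 * 32 + 165888)) ^ ((1 : ℝ) / 4) = m ^ 2 := by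
    have e1 : a * (8 * 32 + 165888) = (m ^ 2) ^ (4 : ℝ) := by
      rw [ha, show ((4 : ℝ)) = ((4 : ℕ) : ℝ) by norm_num, Real.rpow_natCast]
      ring
    rw [e1, ← Real.rpow_mul (by positivity)]
    norm_num
  obtain ⟨ε1, hε1⟩ : ∃ ε1 : ℝ, ε1 = min ε0 1 := ⟨_, rfl⟩
  have hε10 : 0 < ε1 := by
    rw [hε1]
    exact lt_min hε0 one_pos
  have hE := (((ev3 hS3 a ha0).and (ev4 hS4 ε1 hε10)).and (hFB' Kmax)).and
    (Ev.all_le _ Kmax (fun K _ => hG K a ha0))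
  obtain ⟨Bs, zs, hE1⟩ := hE
  obtain ⟨C1, hE2⟩ := hE1 zs le_rfl
  obtain ⟨B0, hB0⟩ : ∃ B0, B0 = Bs + 1 := ⟨_, rfl⟩
  obtain ⟨z1, hE3⟩ := hE2 C1 le_rfl (2 * B0)
  obtain ⟨Z, hZ⟩ : ∃ Z, Z = max z1 2 := ⟨_, rfl⟩
  obtain ⟨C, hC⟩ : ∃ C, C = 2 * C1 + 2 * B0 + 1 + 4 * Z ^ B0 + 100 := ⟨_, rfl⟩
  refine ⟨C, fun N hN => ?_⟩
  obtain ⟨M, hM⟩ : ∃ M, M = N / 2 := ⟨_, rfl⟩
  have hZ2 : 2 ≤ Z := by rw [hZ]; exact le_max_right _ _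
  obtain ⟨p, z, hp, hp1, hp2, hz1, hz2, hz3⟩ := exists_pz B0 Z M (by omega) hZ2 (by omega)
  have hpF : Fact p.Prime := ⟨hp⟩
  have hzz1 : z1 ≤ z := by
    have : z1 ≤ Z := by rw [hZ]; exact le_max_left _ _
    omega
  have hz20 : 2 ≤ z := hZ2.trans hz1
  have hzBs : z ^ Bs ≤ p := (Nat.pow_le_pow_right (by omega) (by omega)).trans hz2
  obtain ⟨⟨⟨⟨hc1, hc2⟩, hf⟩, hbal⟩, hfd⟩ := (fun x => x) (show
    (((meanR (fun t : ZMod p => ‖mean (fun x : ZMod p => ((nu3 zs z p x - 1 : ℝ) : ℂ) *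
      ((nu3 zs z p (x + t) - 1 : ℝ) : ℂ))‖ ^ 2) ≤ a ∧
    meanR (fun t : ZMod p => ‖mean (fun x : ZMod p => ((nu3 zs z p x : ℝ) : ℂ) *
      ((nu3 zs z p (x + t) : ℝ) : ℂ))‖ ^ 4) ≤ 32) ∧
    (∀ ζ : ZMod p, ‖mean (fun x : ZMod p => ((nu3 zs z p x - 1 : ℝ) : ℂ) *
      ch (ζ * x))‖ ≤ ε1)) ∧ FBConc (β / 8) εb Kmax zs C1 z p) ∧
    (∀ K ≤ Kmax, ∀ S : Finset (ZMod p), S.card ≤ K →
      ∀ τ : ℝ, (τ = 1 ∨ τ = -1) → ∀ e : ℕ, (e = 0 ∨ e = 2) →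
        FDConc (G K) (t / (2 * ((K : ℝ) + 1))) a C1 (2 * B0) p S τ e) from by
    obtain ⟨⟨⟨q1, q2⟩, q3⟩, q4⟩ := hE3 z hzz1 p hzBs hz3
    exact ⟨⟨⟨q1 ⟨hp⟩, q2 ⟨hp⟩⟩, q3 ⟨hp⟩⟩, fun K hK => q4 K hK ⟨hp⟩⟩)
  obtain ⟨hf1, hf2⟩ := ft_nu hf
  have hε1a : ε1 ≤ ε0 := by rw [hε1]; exact min_le_left _ _
  have hε1b : ε1 ≤ 1 := by rw [hε1]; exact min_le_right _ _
  have hmass : meanR (nu3 zs z p) ≤ 2 := by
    have := (abs_le.1 hf2).2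
    linarith
  have hP : Par zs z C1 (2 * B0) C N M p :=
    { z2 := hz20, pz := hz3, Np := by omega, C := by omega, M5 := hp1, p40 := by omega }
  have hpne : p ≠ 2 := by
    have := hP.p40
    omega
  -- the three functions
  obtain ⟨AA, hAA⟩ : ∃ AA : Fin 3 → ZMod p → ℝ, AA = ![fP zs z M (QA zs C1 τ),
    fP zs z M (QB zs C1 τ), fP zs z M (QC zs C1 τ)] := ⟨_, rfl⟩
  have hA0 : AA 0 = fP zs z M (QA zs C1 τ) := by rw [hAA]; rfl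
  have hA1 : AA 1 = fP zs z M (QB zs C1 τ) := by rw [hAA]; rfl
  have hA2 : AA 2 = fP zs z M (QC zs C1 τ) := by rw [hAA]; rfl
  have hAAn : ∀ j x, 0 ≤ AA j x ∧ AA j x ≤ nu3 zs z p x := by
    intro j x
    fin_cases j
    · show 0 ≤ AA 0 x ∧ AA 0 x ≤ nu3 zs z p x
      rw [hA0]
      exact ⟨fP_nonneg _ _ _ _ _, fP_le _ _ _ _ _⟩
    · show 0 ≤ AA 1 x ∧ AA 1 x ≤ nu3 zs z p x
      rw [hA1]
      exact ⟨fP_nonneg _ _ _ _ _, fP_le _ _ _ _ _⟩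
    · show 0 ≤ AA 2 x ∧ AA 2 x ≤ nu3 zs z p x
      rw [hA2]
      exact ⟨fP_nonneg _ _ _ _ _, fP_le _ _ _ _ _⟩
  obtain ⟨K, b, c, b', c', hK, hb, hb', hbt, hcl, hsm, htw⟩ := hH p (nu3 zs z p) AA
    (fun ξ hξ => (hf1 ξ hξ).trans hε1a) (hf2.trans hε1a) hAAn
  have hdat : ∀ j, AData (nu3 zs z p) (AA j) K Kmax b c b' c' ε3 (Φ K) 32 := fun j =>
    { nn := fun x => (hAAn j x).1, le := fun x => (hAAn j x).2, ker := hb, ker' := hb',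
      r0 := hε30.le, close := hcl j, small := hsm j, two := fun x => (htw j x).1,
      two' := fun x => (htw j x).2, mass := hmass, corr := hc2 }
  have hScard : (univ.filter (fun ξ => c ξ ≠ 0)).card ≤ K := hb.supp
  obtain ⟨b3, c3, hb3, hb3'⟩ := hK3 K p (univ.filter (fun ξ => c ξ ≠ 0)) hScard
  have hmK : m ≤ Φ K := by
    rw [hm]
    exact hK0 K (Finset.mem_range.2 (by omega))
  have hGn : (0 : ℝ) ≤ G K := Nat.cast_nonneg _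
  have hKn : (0 : ℝ) ≤ K := Nat.cast_nonneg _
  have hK3n : (0 : ℝ) ≤ K3 K := Nat.cast_nonneg _
  have hfinal := core h1 (C := C) (N := N) (M := M) (s := β / 16) (s' := β ^ 2 / 64) hP
    (by rw [← hA0]; exact hdat 0) (by rw [← hA1]; exact hdat 1) (by rw [← hA2]; exact hdat 2)
    (hfd K hK _ hScard τ hτ 0 (Or.inl rfl)) (hfd K hK _ hScard τ hτ 2 (Or.inr rfl)) hc1 hb3
    (fun ξ hξ => hb3' ξ (mem_filter.2 ⟨mem_univ _, hξ⟩)) (s'' := β / 8)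
    (hbal M hp1 hp2 b c (hb.mono hK) (hbt.trans hε31) τ hτ _ (wB M τ C N)
      (fun x => add_nonneg (fP_nonneg _ _ _ _ _) (add_nonneg (fP_nonneg _ _ _ _ _)
        (fP_nonneg _ _ _ _ _)))
      (fun x e1 e2 e3 e4 e5 e6 => sum_ge hτ x e1 e2 e3 e4 e5 e6) (wB_mem M τ C N)
      (fun x hx => by
        have := of_wB_ne hpne hx
        exact ⟨this.1, this.2.1⟩))
    (by
      rw [ham]
      have := numA ht0 hGn hKn (hΦ1 K) hm0.le hmK hε32 rfl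
      linarith)
    (by
      rw [ham]
      have := numC ht'0 hK3n hKn (hΦ2 K) hm0.le hmK hε33
      linarith)
  have hsq : √(β ^ 2 / 64) = β / 8 := by
    rw [show β ^ 2 / 64 = (β / 8) ^ 2 by ring, Real.sqrt_sq (by positivity)]
  rw [hsq] at hfinal
  rw [card_bad hpne (by omega)] at hfinal
  have hp0 : (0 : ℝ) < p := by exact_mod_cast hp.pos
  have hcard := count_bad (τ := τ) (C := C) hM
    ((Finset.Icc 1 N).filter (fun n => Even n ∧ ¬ ∃ a b : ℕ, a + b = n ∧ Good τ C N a ∧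
      Good τ C N b)) (fun n hn => by
        obtain ⟨q1, q2, q3⟩ := mem_filter.1 hn
        rw [Finset.mem_Icc] at q1
        exact ⟨q1.1, q1.2, q2, q3⟩)
    ((Finset.Icc 1 M).filter (fun m => Bad M τ C N m)) (fun m hm =>
      mem_filter.2 ⟨Finset.mem_Icc.2 ⟨hm.1, hm.2.1⟩, hm⟩)
  have hcard' : (((Finset.Icc 1 N).filter (fun n => Even n ∧ ¬ ∃ a b : ℕ, a + b = n ∧
      Good τ C N a ∧ Good τ C N b)).card : ℝ) ≤
      ((Finset.Icc 1 M).filter (fun m => Bad M τ C N m)).card := by exact_mod_cast hcard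
  have hb1 : (((Finset.Icc 1 M).filter (fun m => Bad M τ C N m)).card : ℝ) ≤ β * p := by
    rw [div_le_iff₀ hp0] at hfinal
    refine hfinal.trans ?_
    refine mul_le_mul_of_nonneg_right ?_ hp0.le
    linarith
  have hpN : (p : ℝ) ≤ 5 * N := by
    have : p ≤ 5 * N := by omega
    exact_mod_cast this
  have hlast : β * p ≤ ε * N := by
    rw [hβ]
    have := mul_le_mul_of_nonneg_left hpN (by positivity : (0 : ℝ) ≤ ε / 5)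
    linarith
  exact (hcard'.trans hb1).trans hlast

end Pool.Agent.Lib.TwinAll
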