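import Mathlib
import Pool.Agent.Lib.TwinAll.H1_8
import Pool.Agent.Lib.TwinAll.H2_8
import Pool.Agent.Lib.TwinAll.H3x73
import Pool.Agent.Lib.TwinAll.H4x73
import Pool.Agent.Lib.TwinAll.S3_49
import Pool.Agent.Lib.TwinAll.S4x69
import Pool.Agent.Lib.TwinAll.Corr98
import Pool.Agent.Lib.TwinAll.L125
import Pool.Agent.Lib.TwinAll.L2_94
import Pool.Agent.Lib.TwinAll.L3_88
import Pool.Agent.Lib.TwinAll.L4_64
import Pool.Agent.Lib.TwinAll.Lam69
import Pool.Agent.Lib.TwinAll.FD81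
import Pool.Agent.Lib.TwinAll.FBx82
import Pool.Agent.Lib.TwinAll.Main73

/-!
THEOREM A (MP_c6d112_nt): everything from the two mean value statements S2 and S2b.
-/

set_option autoImplicit false

namespace Pool.Agent.Lib.TwinAll

/-- LEMMA L from S2 and S2b -/
theorem lam_of_S2 (hS2 : S2Stmt) (hS2b : S2bStmt) : LamStmt := by
  have h3 : S3Stmt := S3 hS2
  have h4 : S4Stmt := S4 h3
  have h5 : S5Stmt := S5 hS2b
  have hL1 : L1Stmt := L1 hS2
  exact Lam hL1 (L2 h4 h5) (L3 h3 h4) (L4 hL1 hS2)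

/-- THEOREM A from S2 and S2b -/
theorem main_of_S2 (hS2 : S2Stmt) (hS2b : S2bStmt) : MainStmt := by
  have h3 : S3Stmt := S3 hS2
  have h4 : S4Stmt := S4 h3
  have hL : LamStmt := lam_of_S2 hS2 hS2b
  exact MainThm H1 H2 (H3 H2) h3 h4 (FD H2 H4 hS2 h3 h4 hL) (FB hS2 h4 hL)

end Pool.Agent.Lib.TwinAll
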