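import Mathlib
import Pool.Agent.Lib.TwinAll.Stmts
import Pool.Agent.Lib.TwinAll.Four73
import Pool.Agent.Lib.TwinAll.Key81

/-!
THEOREM A (MP_c6d112_nt): the abstract part of the construction of the `D` functions.
-/

set_option autoImplicit false

namespace Pool.Agent.Lib.TwinAll.A81

open Finset

section group

variable {p : ℕ} [NeZero p]

/-- multiplication by a kernel keeps small Fourier coefficients small -/
theorem kernel_mean {K : ℕ} {b c : ZMod p → ℝ} (h : Kernel K b c) (F : ZMod p → ℂ) (ε : ℝ)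
    (hF : ∀ ζ : ZMod p, ‖mean (fun x => F x * ch (ζ * x))‖ ≤ ε) (ζ : ZMod p) :
    ‖mean (fun x => F x * (b x : ℂ) * ch (ζ * x))‖ ≤ K * ε := by
  have hε : 0 ≤ ε := (norm_nonneg _).trans (hF 0)
  have e : mean (fun x => F x * (b x : ℂ) * ch (ζ * x)) =
      ∑ ξ, (c ξ : ℂ) * mean (fun x => F x * ch ((ξ + ζ) * x)) := by
    have e1 : (fun x => F x * (b x : ℂ) * ch (ζ * x)) =
        fun x => ∑ ξ, (c ξ : ℂ) * (F x * ch ((ξ + ζ) * x)) := by
      funext x
      rw [h.expand x, mul_sum, sum_mul]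
      refine sum_congr rfl fun ξ _ => ?_
      rw [add_mul, ch_add]
      ring
    rw [e1, mean_sum]
    refine sum_congr rfl fun ξ _ => ?_
    rw [mean_mul_left]
  rw [e]
  calc ‖∑ ξ, (c ξ : ℂ) * mean (fun x => F x * ch ((ξ + ζ) * x))‖
      ≤ ∑ ξ, ‖(c ξ : ℂ) * mean (fun x => F x * ch ((ξ + ζ) * x))‖ := norm_sum_le _ _
    _ ≤ ∑ ξ, (if c ξ ≠ 0 then ε else 0) := by
        refine sum_le_sum fun ξ _ => ?_
        split_ifs with h0
        · rw [norm_mul, Complex.norm_real, Real.norm_eq_abs, abs_of_nonneg (h.coeff ξ).1]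
          calc c ξ * _ ≤ 1 * ε := mul_le_mul (h.coeff ξ).2 (hF _) (norm_nonneg _) zero_le_one
            _ = ε := one_mul _
        · rw [not_not] at h0
          rw [h0]
          simp
    _ = ((univ.filter (fun ξ => c ξ ≠ 0)).card : ℝ) * ε := by
        rw [← sum_filter, sum_const, nsmul_eq_mul]
    _ ≤ K * ε := mul_le_mul_of_nonneg_right (by exact_mod_cast h.supp) hε

/-- a kernel is bounded by the number of its frequencies -/
theorem kernel_le {K : ℕ} {b c : ZMod p → ℝ} (h : Kernel K b c) (x : ZMod p) : b x ≤ K := by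
  have e : b x = ‖(b x : ℂ)‖ := by
    rw [Complex.norm_real, Real.norm_eq_abs, abs_of_nonneg (h.nonneg x)]
  rw [e, h.expand x]
  calc ‖∑ ξ, (c ξ : ℂ) * ch (ξ * x)‖ ≤ ∑ ξ, ‖(c ξ : ℂ) * ch (ξ * x)‖ := norm_sum_le _ _
    _ ≤ ∑ ξ, (if c ξ ≠ 0 then (1 : ℝ) else 0) := by
        refine sum_le_sum fun ξ _ => ?_
        split_ifs with h0
        · rw [norm_mul, norm_ch, mul_one, Complex.norm_real, Real.norm_eq_abs,
            abs_of_nonneg (h.coeff ξ).1]
          exact (h.coeff ξ).2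
        · rw [not_not] at h0
          rw [h0]
          simp
    _ = ((univ.filter (fun ξ => c ξ ≠ 0)).card : ℝ) := by
        rw [← sum_filter, sum_const, nsmul_eq_mul, mul_one]
    _ ≤ K := by exact_mod_cast h.supp

theorem kernel_symm {K : ℕ} {b c : ZMod p → ℝ} (h : Kernel K b c) (x : ZMod p) : b (-x) = b x := by
  have e : ((b (-x) : ℝ) : ℂ) = ((b x : ℝ) : ℂ) := by
    rw [h.expand (-x), h.expand x, ← Equiv.sum_comp (Equiv.neg (ZMod p))]
    refine sum_congr rfl fun ξ _ => ?_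
    simp only [Equiv.neg_apply]
    rw [h.symm, neg_mul_neg]
  exact_mod_cast e

theorem meanR_neg (f : ZMod p → ℝ) : meanR (fun x => f (-x)) = meanR f := by
  unfold meanR
  rw [← Equiv.sum_comp (Equiv.neg (ZMod p)) f]
  rfl

/-- the real mean of a function with weight, as real part -/
theorem abs_meanR_le (F : ZMod p → ℝ) (ε : ℝ) (h : ‖mean (fun x => (F x : ℂ))‖ ≤ ε) :
    |meanR F| ≤ ε := by
  rw [← ofReal_meanR, Complex.norm_real, Real.norm_eq_abs] at h
  exact h

/-- the distance of `ch x` to `1` -/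
theorem norm_ch_sub_one_ge {H : ℕ} (x : ZMod p) (h1 : H ≤ x.val) (h2 : x.val + H ≤ p) :
    4 * (H : ℝ) / p ≤ ‖ch x - 1‖ := by
  have hp0 : (0 : ℝ) < p := castR_pos
  have e : ch x = Complex.exp (Complex.I * ((2 * Real.pi * (x.val : ℝ) / p : ℝ) : ℂ)) := by
    have h3 : x = (((x.val : ℕ) : ℤ) : ZMod p) := by
      push_cast
      rw [ZMod.natCast_zmod_val]
    unfold ch
    conv_lhs => rw [h3]
    rw [ZMod.stdAddChar_coe]
    congr 1
    push_cast
    ring
  rw [e, Complex.norm_exp_I_mul_ofReal_sub_one, Real.norm_eq_abs]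
  have h4 : 2 * Real.pi * (x.val : ℝ) / p / 2 = Real.pi * ((x.val : ℝ) / p) := by ring
  rw [h4]
  obtain ⟨v, hv⟩ : ∃ v : ℝ, v = (x.val : ℝ) / p := ⟨_, rfl⟩
  rw [← hv]
  have hv1 : (H : ℝ) / p ≤ v := by
    rw [hv]
    exact div_le_div_of_nonneg_right (by exact_mod_cast h1) hp0.le
  have hv2 : v + (H : ℝ) / p ≤ 1 := by
    rw [hv, ← add_div, div_le_one hp0]
    exact_mod_cast h2
  have hH0 : (0 : ℝ) ≤ (H : ℝ) / p := by positivity
  have hpi := Real.pi_pos
  have key : 2 * ((H : ℝ) / p) ≤ Real.sin (Real.pi * v) := by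
    rcases le_total v (1 / 2) with h | h
    · have h5 := Real.mul_le_sin (x := Real.pi * v) (mul_nonneg hpi.le (hH0.trans hv1)) (by nlinarith)
      have h6 : 2 / Real.pi * (Real.pi * v) = 2 * v := by field_simp
      rw [h6] at h5
      linarith
    · have h5 := Real.mul_le_sin (x := Real.pi * (1 - v)) (by
        apply mul_nonneg hpi.le; linarith) (by nlinarith)
      have h6 : 2 / Real.pi * (Real.pi * (1 - v)) = 2 * (1 - v) := by field_simp
      have h7 : Real.sin (Real.pi * (1 - v)) = Real.sin (Real.pi * v) := by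
        rw [show Real.pi * (1 - v) = Real.pi - Real.pi * v by ring, Real.sin_pi_sub]
      rw [h6, h7] at h5
      linarith
  calc 4 * (H : ℝ) / p = 2 * (2 * ((H : ℝ) / p)) := by ring
    _ ≤ 2 * Real.sin (Real.pi * v) := by linarith
    _ ≤ |2 * Real.sin (Real.pi * v)| := le_abs_self _

/-- mass of a concentrated kernel on the positive side -/
theorem kernel_half {K H : ℕ} {b c : ZMod p → ℝ} (h : Kernel K b c) (hH0 : 0 < H)
    (η : ℝ) (hη : meanR (fun x => b x * ‖ch x - 1‖ ^ 2) ≤ η) :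
    1 - K / p - η * (p / (4 * H)) ^ 2 ≤
      2 * meanR (fun x => if 1 ≤ x.val ∧ x.val ≤ H then b x else 0) := by
  have hp0 : (0 : ℝ) < p := castR_pos
  have hHr : (0 : ℝ) < H := by exact_mod_cast hH0
  obtain ⟨f1, hf1⟩ : ∃ f1 : ZMod p → ℝ, f1 = fun x => if 1 ≤ x.val ∧ x.val ≤ H then b x else 0 :=
    ⟨_, rfl⟩
  obtain ⟨f0, hf0⟩ : ∃ f0 : ZMod p → ℝ, f0 = fun x => if x = 0 then b x else 0 := ⟨_, rfl⟩
  -- pointwise bound
  have hpt : ∀ x : ZMod p, b x ≤ (f0 x + (f1 x + f1 (-x))) +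
      (p / (4 * H)) ^ 2 * (b x * ‖ch x - 1‖ ^ 2) := by
    intro x
    have hb := h.nonneg x
    have hb' := h.nonneg (-x)
    have g0 : 0 ≤ f0 x := by rw [hf0]; simp only; split_ifs <;> simp [hb]
    have g1 : 0 ≤ f1 x := by rw [hf1]; simp only; split_ifs <;> simp [hb]
    have g2 : 0 ≤ f1 (-x) := by rw [hf1]; simp only; split_ifs <;> simp [hb']
    have g3 : 0 ≤ (p / (4 * H : ℝ)) ^ 2 * (b x * ‖ch x - 1‖ ^ 2) := by positivity
    by_cases hx0 : x = 0
    · have : f0 x = b x := by rw [hf0]; simp [hx0]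
      linarith
    have hv0 : 0 < x.val := by
      rcases Nat.eq_zero_or_pos x.val with h0 | h0
      · exact absurd ((ZMod.val_eq_zero x).1 h0) hx0
      · exact h0
    have hvp := ZMod.val_lt x
    by_cases hx1 : x.val ≤ H
    · have : f1 x = b x := by rw [hf1]; simp only; rw [if_pos ⟨hv0, hx1⟩]
      linarith
    by_cases hx2 : p ≤ x.val + H
    · have hneg : (-x).val = p - x.val := by
        have : NeZero x := ⟨hx0⟩
        exact ZMod.val_neg_of_ne_zero x
      have : f1 (-x) = b x := by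
        rw [hf1]
        simp only
        rw [hneg, if_pos (by omega), kernel_symm h]
      linarith
    have h5 := norm_ch_sub_one_ge (H := H) x (by omega) (by omega)
    have h6 : 1 ≤ (p / (4 * H : ℝ)) ^ 2 * ‖ch x - 1‖ ^ 2 := by
      rw [← mul_pow]
      have h7 : 1 ≤ (p / (4 * H : ℝ)) * ‖ch x - 1‖ := by
        calc (1 : ℝ) = (p / (4 * H : ℝ)) * (4 * (H : ℝ) / p) := by field_simp
          _ ≤ _ := mul_le_mul_of_nonneg_left h5 (by positivity)
      exact one_le_pow₀ h7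
    have h8 := mul_le_mul_of_nonneg_left h6 hb
    nlinarith
  have h1 := meanR_mono _ _ hpt
  rw [h.meanR_eq, meanR_add, meanR_add, meanR_add, meanR_neg, meanR_mul_left] at h1
  have h2 : meanR f0 ≤ K / p := by
    unfold meanR
    apply div_le_div_of_nonneg_right _ hp0.le
    rw [hf0]
    simp only [sum_ite_eq', mem_univ, if_true]
    exact kernel_le h 0
  have h3 : (p / (4 * H : ℝ)) ^ 2 * meanR (fun x => b x * ‖ch x - 1‖ ^ 2) ≤
      η * (p / (4 * H)) ^ 2 := by
    rw [mul_comm η]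
    exact mul_le_mul_of_nonneg_left hη (by positivity)
  rw [← hf1]
  linarith

/-- the pair argument and the concentration estimate, abstractly -/
theorem fd_core {G H : ℕ} {b c : ZMod p → ℝ} (hb : Kernel G b c) (ν : ZMod p → ℝ)
    (hν : ∀ x, 0 ≤ ν x) (l : Fin 3 → ZMod p → ℝ) (hl : ∀ i x, l i x = 1 ∨ l i x = -1)
    (exc : ZMod p → Prop) [DecidablePred exc] (σ : ℝ) (hσ : σ = 1 ∨ σ = -1) (ε η : ℝ)
    (hε : G * ε ≤ 1 / 50)
    (h1 : ∀ ζ : ZMod p, ‖mean (fun x => (if 1 ≤ x.val ∧ x.val ≤ H then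
      ((ν x - 1 : ℝ) : ℂ) * ch (ζ * x) else 0))‖ ≤ ε)
    (h1' : ‖mean (fun x => ((ν x - 1 : ℝ) : ℂ) * (b x : ℂ))‖ ≤ G * ε)
    (h2 : ∀ i, ∀ ζ : ZMod p, ‖mean (fun x => (if 1 ≤ x.val ∧ x.val ≤ H then
      ((ν x : ℝ) : ℂ) * (l i x : ℂ) * ch (ζ * x) else 0))‖ ≤ ε)
    (h3 : meanR (fun x => if (1 ≤ x.val ∧ x.val ≤ H) ∧ exc x then ν x else 0) ≤ ε)
    (h4 : 12 / 25 ≤ meanR (fun x => if 1 ≤ x.val ∧ x.val ≤ H then b x else 0)) :
    ∃ i j : Fin 3, i < j ∧ ∃ D : ZMod p → ℝ,
      (∀ x, D x = if (1 ≤ x.val ∧ x.val ≤ H) ∧ (l i x = σ ∧ l j x = σ) ∧ ¬ exc x then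
        ν x * b x else 0) ∧
      (∀ x, 0 ≤ D x ∧ D x ≤ ν x * b x) ∧ 1 / 50 ≤ meanR D ∧
      meanR (fun x => ν x * b x) ≤ 2 ∧
      ∀ ζ : ZMod p, meanR (fun x => b x * ‖ch (ζ * x) - 1‖ ^ 2) ≤ η →
        meanR (fun x => D x * ‖ch (ζ * x) - 1‖) ^ 2 ≤ 2 * (η + 4 * (G * ε)) := by
  obtain ⟨w, hw⟩ : ∃ w : ZMod p → ℝ, w = fun x => if 1 ≤ x.val ∧ x.val ≤ H then ν x * b x else 0 :=
    ⟨_, rfl⟩
  have hw0 : ∀ x, 0 ≤ w x := by
    intro x
    rw [hw]
    simp only
    split_ifs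
    · exact mul_nonneg (hν x) (hb.nonneg x)
    · exact le_rfl
  have hwle : ∀ x, w x ≤ ν x * b x := by
    intro x
    rw [hw]
    simp only
    split_ifs
    · exact le_rfl
    · exact mul_nonneg (hν x) (hb.nonneg x)
  have hGε : 0 ≤ G * ε := by
    have : 0 ≤ ε := (norm_nonneg _).trans (h1 0)
    positivity
  -- (A)
  have hA := kernel_mean hb (fun x => if 1 ≤ x.val ∧ x.val ≤ H then ((ν x - 1 : ℝ) : ℂ) else 0) ε
    (fun ζ => by
      have := h1 ζ
      simpa only [ite_mul, zero_mul] using this)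
  -- (B)
  have hB : ∀ i, |meanR (fun x => w x * l i x)| ≤ G * ε := by
    intro i
    have h5 := kernel_mean hb (fun x => if 1 ≤ x.val ∧ x.val ≤ H then
      ((ν x : ℝ) : ℂ) * (l i x : ℂ) else 0) ε (fun ζ => by
        have := h2 i ζ
        simpa only [ite_mul, zero_mul] using this) 0
    apply abs_meanR_le
    refine le_trans (le_of_eq ?_) h5
    congr 2
    funext x
    rw [hw, zero_mul, ch_zero, mul_one]
    simp only
    split_ifs
    · push_cast; ring
    · simp
  -- (C)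
  have hC0 : |meanR (fun x => if 1 ≤ x.val ∧ x.val ≤ H then (ν x - 1) * b x else 0)| ≤ G * ε := by
    apply abs_meanR_le
    refine le_trans (le_of_eq ?_) (hA 0)
    congr 2
    funext x
    rw [zero_mul, ch_zero, mul_one]
    split_ifs
    · push_cast; ring
    · simp
  have hC : 12 / 25 - G * ε ≤ meanR w := by
    have e : w = fun x => (if 1 ≤ x.val ∧ x.val ≤ H then b x else 0) +
        (if 1 ≤ x.val ∧ x.val ≤ H then (ν x - 1) * b x else 0) := by
      rw [hw]
      funext x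
      split_ifs
      · ring
      · ring
    rw [e, meanR_add]
    linarith [(abs_le.1 hC0).1]
  -- (F)
  have hF : meanR (fun x => ν x * b x) ≤ 1 + G * ε := by
    have e : (fun x => ν x * b x) = fun x => b x + (ν x - 1) * b x := by
      funext x; ring
    have h5 : |meanR (fun x => (ν x - 1) * b x)| ≤ G * ε := by
      apply abs_meanR_le
      refine le_trans (le_of_eq ?_) h1'
      congr 2
      funext x
      push_cast
      ring
    rw [e, meanR_add, hb.meanR_eq]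
    linarith [(abs_le.1 h5).2]
  have hw2 : meanR w ≤ 1 + G * ε := (meanR_mono _ _ hwle).trans hF
  -- (D)
  obtain ⟨e, he⟩ : ∃ e : Fin 3 → ZMod p → ℝ, e = fun i x => (1 + σ * l i x) / 2 := ⟨_, rfl⟩
  have he1 : ∀ i x, (l i x = σ ∧ e i x = 1) ∨ (l i x ≠ σ ∧ e i x = 0) := by
    intro i x
    have hex : e i x = (1 + σ * l i x) / 2 := by rw [he]
    rw [hex]
    rcases hσ with rfl | rfl <;> rcases hl i x with h | h <;> rw [h] <;> norm_num
  have hD : 6 / 25 - 2 * (G * ε) ≤ meanR (fun x => w x * (e 0 x * e 1 x)) +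
      (meanR (fun x => w x * (e 0 x * e 2 x)) + meanR (fun x => w x * (e 1 x * e 2 x))) := by
    rw [← meanR_add, ← meanR_add]
    have h5 : ∀ x, w x * (1 / 2) + ((σ / 2) * (w x * l 0 x) + ((σ / 2) * (w x * l 1 x) +
        (σ / 2) * (w x * l 2 x))) ≤
        w x * (e 0 x * e 1 x) + (w x * (e 0 x * e 2 x) + w x * (e 1 x * e 2 x)) := by
      intro x
      have h6 : e 0 x + e 1 x + e 2 x - 1 ≤ e 0 x * e 1 x + (e 0 x * e 2 x + e 1 x * e 2 x) := by
        rcases he1 0 x with ⟨_, h⟩ | ⟨_, h⟩ <;> rcases he1 1 x with ⟨_, h'⟩ | ⟨_, h'⟩ <;>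
          rcases he1 2 x with ⟨_, h''⟩ | ⟨_, h''⟩ <;> rw [h, h', h''] <;> norm_num
      have h7 := mul_le_mul_of_nonneg_left h6 (hw0 x)
      have h8 : w x * (e 0 x + e 1 x + e 2 x - 1) = w x * (1 / 2) + ((σ / 2) * (w x * l 0 x) +
          ((σ / 2) * (w x * l 1 x) + (σ / 2) * (w x * l 2 x))) := by
        rw [he]
        ring
      rw [h8] at h7
      refine h7.trans (le_of_eq ?_)
      ring
    refine le_trans ?_ (meanR_mono _ _ h5)
    rw [meanR_add, meanR_add, meanR_add, meanR_mul_right, meanR_mul_left, meanR_mul_left,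
      meanR_mul_left]
    have b0 := abs_le.1 (hB 0)
    have b1 := abs_le.1 (hB 1)
    have b2 := abs_le.1 (hB 2)
    rcases hσ with rfl | rfl
    · linarith [b0.1, b1.1, b2.1]
    · linarith [b0.2, b1.2, b2.2]
  have hpair : ∃ i j : Fin 3, i < j ∧ 2 / 25 - 2 / 3 * (G * ε) ≤
      meanR (fun x => w x * (e i x * e j x)) := by
    by_contra hcon
    push Not at hcon
    have c1 := hcon 0 1 (by decide)
    have c2 := hcon 0 2 (by decide)
    have c3 := hcon 1 2 (by decide)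
    linarith
  obtain ⟨i, j, hij, hP⟩ := hpair
  refine ⟨i, j, hij, fun x => if (1 ≤ x.val ∧ x.val ≤ H) ∧ (l i x = σ ∧ l j x = σ) ∧ ¬ exc x then
        ν x * b x else 0, fun x => rfl, ?_, ?_, ?_, ?_⟩
  · intro x
    have h5 := mul_nonneg (hν x) (hb.nonneg x)
    simp only
    split_ifs
    · exact ⟨h5, le_rfl⟩
    · exact ⟨le_rfl, h5⟩
  · have h5 : ∀ x, w x * (e i x * e j x) ≤
        (if (1 ≤ x.val ∧ x.val ≤ H) ∧ (l i x = σ ∧ l j x = σ) ∧ ¬ exc x then ν x * b x else 0) +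
        G * (if (1 ≤ x.val ∧ x.val ≤ H) ∧ exc x then ν x else 0) := by
      intro x
      have h6 := mul_nonneg (hν x) (hb.nonneg x)
      have h7 : 0 ≤ (G : ℝ) * (if (1 ≤ x.val ∧ x.val ≤ H) ∧ exc x then ν x else 0) := by
        split_ifs
        · exact mul_nonneg (Nat.cast_nonneg _) (hν x)
        · simp
      have h8 : 0 ≤ (if (1 ≤ x.val ∧ x.val ≤ H) ∧ (l i x = σ ∧ l j x = σ) ∧ ¬ exc x then
          ν x * b x else 0) := by
        split_ifs
        · exact h6
        · exact le_rfl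
      rw [hw]
      simp only
      by_cases hJ : 1 ≤ x.val ∧ x.val ≤ H
      · rw [if_pos hJ]
        rcases he1 i x with ⟨hi1, hi2⟩ | ⟨hi1, hi2⟩
        · rcases he1 j x with ⟨hj1, hj2⟩ | ⟨hj1, hj2⟩
          · rw [hi2, hj2]
            by_cases hx : exc x
            · rw [if_neg (by tauto), if_pos ⟨hJ, hx⟩]
              have := mul_le_mul_of_nonneg_left (kernel_le hb x) (hν x)
              linarith
            · rw [if_pos ⟨hJ, ⟨hi1, hj1⟩, hx⟩, if_neg (by tauto)]
              simp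
          · rw [hj2]; simp only [mul_zero]; linarith
        · rw [hi2]; simp only [zero_mul, mul_zero]; linarith
      · rw [if_neg hJ, zero_mul]
        linarith
    have h9 := meanR_mono _ _ h5
    rw [meanR_add, meanR_mul_left] at h9
    have h10 : (G : ℝ) * meanR (fun x => if (1 ≤ x.val ∧ x.val ≤ H) ∧ exc x then ν x else 0) ≤
        G * ε := mul_le_mul_of_nonneg_left h3 (Nat.cast_nonneg _)
    linarith
  · linarith
  · intro ζ hζ
    have h5 : ∀ x, (if (1 ≤ x.val ∧ x.val ≤ H) ∧ (l i x = σ ∧ l j x = σ) ∧ ¬ exc x then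
        ν x * b x else 0) * ‖ch (ζ * x) - 1‖ ≤ w x * ‖ch (ζ * x) - 1‖ := by
      intro x
      apply mul_le_mul_of_nonneg_right _ (norm_nonneg _)
      rw [hw]
      simp only
      by_cases hJ : 1 ≤ x.val ∧ x.val ≤ H
      · rw [if_pos hJ]
        split_ifs
        · exact le_rfl
        · exact mul_nonneg (hν x) (hb.nonneg x)
      · rw [if_neg hJ, if_neg (by tauto)]
    have h6 := meanR_mono _ _ h5
    have h7 : 0 ≤ meanR (fun x => (if (1 ≤ x.val ∧ x.val ≤ H) ∧ (l i x = σ ∧ l j x = σ) ∧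
        ¬ exc x then ν x * b x else 0) * ‖ch (ζ * x) - 1‖) := by
      apply meanR_nonneg
      intro x
      apply mul_nonneg _ (norm_nonneg _)
      split_ifs
      · exact mul_nonneg (hν x) (hb.nonneg x)
      · exact le_rfl
    have h8 := mean_cs w hw0 (fun x => ch (ζ * x) - 1)
    have hsq : ∀ x : ZMod p, ((‖ch (ζ * x) - 1‖ ^ 2 : ℝ) : ℂ) = 2 - ch (ζ * x) - ch (-ζ * x) := by
      intro x
      rw [← Complex.normSq_eq_norm_sq, Complex.normSq_eq_conj_mul_self, map_sub, map_one, conj_ch]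
      have := ch_neg_mul_self (ζ * x)
      rw [neg_mul]
      linear_combination this
    have h9 : meanR (fun x => w x * ‖ch (ζ * x) - 1‖ ^ 2) ≤ η + 4 * (G * ε) := by
      have e1 : (fun x => w x * ‖ch (ζ * x) - 1‖ ^ 2) = fun x =>
          (if 1 ≤ x.val ∧ x.val ≤ H then b x * ‖ch (ζ * x) - 1‖ ^ 2 else 0) +
          (if 1 ≤ x.val ∧ x.val ≤ H then (ν x - 1) * b x * ‖ch (ζ * x) - 1‖ ^ 2 else 0) := by
        funext x
        rw [hw]
        simp only
        split_ifs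
        · ring
        · ring
      rw [e1, meanR_add]
      have e2 : meanR (fun x => if 1 ≤ x.val ∧ x.val ≤ H then b x * ‖ch (ζ * x) - 1‖ ^ 2 else 0) ≤
          η := by
        refine le_trans (meanR_mono _ _ fun x => ?_) hζ
        have := mul_nonneg (hb.nonneg x) (sq_nonneg ‖ch (ζ * x) - 1‖)
        split_ifs
        · exact le_rfl
        · exact this
      have e3 : |meanR (fun x => if 1 ≤ x.val ∧ x.val ≤ H then
          (ν x - 1) * b x * ‖ch (ζ * x) - 1‖ ^ 2 else 0)| ≤ 4 * (G * ε) := by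
        apply abs_meanR_le
        have e4 : (fun x : ZMod p => (((if 1 ≤ x.val ∧ x.val ≤ H then
            (ν x - 1) * b x * ‖ch (ζ * x) - 1‖ ^ 2 else 0) : ℝ) : ℂ)) = fun x =>
            2 * ((if 1 ≤ x.val ∧ x.val ≤ H then ((ν x - 1 : ℝ) : ℂ) else 0) * (b x : ℂ) *
              ch (0 * x)) -
            (if 1 ≤ x.val ∧ x.val ≤ H then ((ν x - 1 : ℝ) : ℂ) else 0) * (b x : ℂ) * ch (ζ * x) -
            (if 1 ≤ x.val ∧ x.val ≤ H then ((ν x - 1 : ℝ) : ℂ) else 0) * (b x : ℂ) *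
              ch (-ζ * x) := by
          funext x
          rw [zero_mul, ch_zero, mul_one]
          split_ifs
          · rw [Complex.ofReal_mul, hsq x]
            push_cast
            ring
          · simp
        rw [e4, mean_sub, mean_sub, mean_mul_left]
        calc _ ≤ ‖(2 : ℂ) * mean (fun x => (if 1 ≤ x.val ∧ x.val ≤ H then
              ((ν x - 1 : ℝ) : ℂ) else 0) * (b x : ℂ) * ch (0 * x))‖ +
              ‖mean (fun x => (if 1 ≤ x.val ∧ x.val ≤ H then ((ν x - 1 : ℝ) : ℂ) else 0) *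
                (b x : ℂ) * ch (ζ * x))‖ +
              ‖mean (fun x => (if 1 ≤ x.val ∧ x.val ≤ H then ((ν x - 1 : ℝ) : ℂ) else 0) *
                (b x : ℂ) * ch (-ζ * x))‖ :=
              (norm_sub_le _ _).trans (add_le_add (norm_sub_le _ _) le_rfl)
          _ ≤ 2 * (G * ε) + G * ε + G * ε := by
              refine add_le_add (add_le_add ?_ (hA ζ)) (hA (-ζ))
              rw [norm_mul, Complex.norm_ofNat]
              exact mul_le_mul_of_nonneg_left (hA 0) (by norm_num)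
          _ = 4 * (G * ε) := by ring
      linarith [(abs_le.1 e3).2]
    have h10 : 0 ≤ meanR (fun x => w x * ‖ch (ζ * x) - 1‖ ^ 2) :=
      meanR_nonneg _ fun x => mul_nonneg (hw0 x) (sq_nonneg _)
    have h11 : 0 ≤ meanR w := meanR_nonneg _ hw0
    calc _ ≤ meanR (fun x => w x * ‖ch (ζ * x) - 1‖) ^ 2 := pow_le_pow_left₀ h7 h6 2
      _ ≤ meanR w * meanR (fun x => w x * ‖ch (ζ * x) - 1‖ ^ 2) := h8
      _ ≤ 2 * (η + 4 * (G * ε)) := by
          apply mul_le_mul (by linarith) h9 h10 (by norm_num)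

end group

end Pool.Agent.Lib.TwinAll.A81
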