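import Mathlib
import Pool.Agent.Lib.TwinAll.StmtsF73
import Pool.Agent.Lib.TwinAll.H4x73
import Pool.Agent.Lib.TwinAll.LamD81
import Pool.Agent.Lib.TwinAll.Exc81
import Pool.Agent.Lib.TwinAll.FDa81

/-!
THEOREM A (MP_c6d112_nt): the `D` functions (FD).
-/

set_option autoImplicit false

namespace Pool.Agent.Lib.TwinAll.A81

open Finset

/-- elementary facts on the three numbers -/
structure RData (r : Fin 3 → ℕ) (R : ℕ) (cc : ℕ) : Prop where
  pos : 0 < r 2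
  lt1 : r 2 < r 1
  lt0 : r 1 < r 0
  le : r 0 ≤ R
  dvd : ∀ i j : Fin 3, i < j → (r i - r j) ∣ r j
  om : ∀ i j : Fin 3, i < j → ArithmeticFunction.cardFactors (r i - r j) % 2 = cc

/-- the modulus `L` -/
def LL (r : Fin 3 → ℕ) : ℕ := 2 * r 0 * ((r 0 - r 1) * (r 0 - r 2) * (r 1 - r 2))

theorem RData.strict {r : Fin 3 → ℕ} {R cc : ℕ} (h : RData r R cc) :
    ∀ i j : Fin 3, i < j → r j < r i := by
  have h1 := h.lt1
  have h0 := h.lt0
  intro i j hij
  fin_cases i <;> fin_cases j <;> simp_all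
  all_goals omega

theorem RData.four {r : Fin 3 → ℕ} {R cc : ℕ} (h : RData r R cc) : 4 * r 0 ≤ LL r := by
  have h1 := h.lt1
  have h0 := h.lt0
  unfold LL
  have h2 : 1 * 2 * 1 ≤ (r 0 - r 1) * (r 0 - r 2) * (r 1 - r 2) :=
    Nat.mul_le_mul (Nat.mul_le_mul (by omega) (by omega)) (by omega)
  calc 4 * r 0 = 2 * r 0 * 2 := by ring
    _ ≤ _ := Nat.mul_le_mul_left _ (by omega)

theorem RData.le_pow {r : Fin 3 → ℕ} {R cc : ℕ} (h : RData r R cc) : LL r ≤ 2 * R ^ 4 := by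
  have h1 := h.lt1
  have h0 := h.lt0
  have hR := h.le
  unfold LL
  calc _ ≤ 2 * R * (R * R * R) := by
        apply Nat.mul_le_mul (Nat.mul_le_mul_left _ hR)
        exact Nat.mul_le_mul (Nat.mul_le_mul (by omega) (by omega)) (by omega)
    _ = 2 * R ^ 4 := by ring

theorem RData.two_mul_dvd {r : Fin 3 → ℕ} {R cc : ℕ} (_h : RData r R cc) :
    ∀ i j : Fin 3, i < j → 2 * (r i - r j) ∣ LL r := by
  intro i j hij
  unfold LL
  fin_cases i <;> fin_cases j <;> simp_all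
  · exact ⟨r 0 * ((r 0 - r 2) * (r 1 - r 2)), by ring⟩
  · exact ⟨r 0 * ((r 0 - r 1) * (r 1 - r 2)), by ring⟩
  · exact ⟨r 0 * ((r 0 - r 1) * (r 0 - r 2)), by ring⟩

theorem RData.r_le {r : Fin 3 → ℕ} {R cc : ℕ} (h : RData r R cc) (i : Fin 3) : r i ≤ r 0 := by
  have h1 := h.lt1
  have h0 := h.lt0
  fin_cases i <;> simp <;> omega

theorem RData.r_pos {r : Fin 3 → ℕ} {R cc : ℕ} (h : RData r R cc) (i : Fin 3) : 0 < r i := by
  have h1 := h.lt1
  have h0 := h.lt0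
  have h2 := h.pos
  fin_cases i <;> simp <;> omega

/-- the sign vector -/
def cvec (e : ℕ) (r : Fin 3 → ℕ) (j : Fin 3) : ℤ := if e = 0 then 2 * (r j : ℤ) else -(2 * (r j : ℤ))

theorem RData.cvec_lt {r : Fin 3 → ℕ} {R cc : ℕ} (h : RData r R cc) (e : ℕ) (j : Fin 3) :
    |cvec e r j| < LL r := by
  have h4 := h.four
  have h5 := h.r_le j
  have h6 := h.r_pos 0
  unfold cvec
  rw [abs_lt]
  split_ifs <;> constructor <;> omega

theorem RData.cvec_inj {r : Fin 3 → ℕ} {R cc : ℕ} (h : RData r R cc) (e : ℕ) :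
    Function.Injective (cvec e r) := by
  intro i j hij
  have h1 : r i = r j := by
    unfold cvec at hij
    split_ifs at hij <;> omega
  rcases lt_trichotomy i j with h2 | h2 | h2
  · have := h.strict i j h2; omega
  · exact h2
  · have := h.strict j i h2; omega

theorem RData.q_pos {r : Fin 3 → ℕ} {R cc : ℕ} (h : RData r R cc) {i j : Fin 3} (hij : i < j) :
    0 < LL r / (2 * (r i - r j)) := by
  have h1 := h.strict i j hij
  have h2 := h.four
  have h3 := h.r_pos 0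
  exact Nat.div_pos (Nat.le_of_dvd (by omega) (h.two_mul_dvd i j hij)) (by omega)

/-- exponential sums over `1 ≤ x.val ≤ H` -/
theorem mean_Icc {p H : ℕ} [NeZero p] (hH : H < p) (F : ℕ → ℂ) (ζ : ZMod p) (ε : ℝ) (hε : 0 ≤ ε)
    (h : ‖∑ n ∈ Finset.Icc 1 H, F n * ee ((ζ.val : ℝ) / p * n)‖ ≤ ε * H) :
    ‖mean (fun x : ZMod p => if 1 ≤ x.val ∧ x.val ≤ H then F x.val * ch (ζ * x) else 0)‖ ≤ ε := by
  have hp0 : (0 : ℝ) < p := castR_pos
  have e : ∑ x : ZMod p, (if 1 ≤ x.val ∧ x.val ≤ H then F x.val * ch (ζ * x) else 0) =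
      ∑ n ∈ Finset.Icc 1 H, F n * ee ((ζ.val : ℝ) / p * n) := by
    rw [← sum_zmod_Icc (p := p) (fun n => F n * ee ((ζ.val : ℝ) / p * n)) hH]
    apply Finset.sum_congr rfl
    intro x _
    rw [ch_mul_eq]
  unfold mean
  rw [e, norm_div, Complex.norm_natCast, div_le_iff₀ hp0]
  refine h.trans ?_
  apply mul_le_mul_of_nonneg_left _ hε
  exact_mod_cast hH.le

/-- the exceptional mass on `ZMod p` -/
theorem exc_mean {p H : ℕ} [NeZero p] (hH : H < p) (f : ℤ → ℝ) (P : ℤ → Prop) [DecidablePred P]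
    [∀ x : ZMod p, Decidable ((1 ≤ x.val ∧ x.val ≤ H) ∧ P (x.val : ℤ))] (ε : ℝ) (hε : 0 ≤ ε)
    (h : ∑ n ∈ (Finset.Ioc (0 : ℤ) (0 + H)).filter P, f n ≤ ε * H) :
    meanR (fun x : ZMod p => if (1 ≤ x.val ∧ x.val ≤ H) ∧ P (x.val : ℤ) then f (x.val : ℤ)
      else 0) ≤ ε := by
  have hp0 : (0 : ℝ) < p := castR_pos
  rw [Finset.sum_filter, sum_Ioc_int] at h
  have e : ∑ x : ZMod p, (if (1 ≤ x.val ∧ x.val ≤ H) ∧ P (x.val : ℤ) then f (x.val : ℤ) else 0) =
      ∑ n ∈ Finset.Icc 1 H, (if P (n : ℤ) then f (n : ℤ) else 0) := by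
    rw [← sum_zmod_Icc (p := p) (fun n => if P (n : ℤ) then f (n : ℤ) else 0) hH]
    apply Finset.sum_congr rfl
    intro x _
    by_cases h1 : 1 ≤ x.val ∧ x.val ≤ H
    · by_cases h2 : P (x.val : ℤ)
      · rw [if_pos ⟨h1, h2⟩, if_pos h1, if_pos h2]
      · rw [if_neg (fun h3 => h2 h3.2), if_pos h1, if_neg h2]
    · rw [if_neg (fun h3 => h1 h3.1), if_neg h1]
  unfold meanR
  rw [e, div_le_iff₀ hp0]
  refine h.trans ?_
  apply mul_le_mul_of_nonneg_left _ hε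
  exact_mod_cast hH.le

end Pool.Agent.Lib.TwinAll.A81

namespace Pool.Agent.Lib.TwinAll

open Finset A81

theorem FD (h2 : H2Stmt) (h4 : H4Stmt) (hS2 : S2Stmt) (hS3 : S3Stmt) (hS4 : S4Stmt)
    (hL : LamStmt) : FDStmt := by
  classical
  intro K η hη
  obtain ⟨R, hR⟩ := h4 K (η / 8) (by positivity)
  obtain ⟨Lm, hLm⟩ : ∃ Lm : ℕ, Lm = 2 * R ^ 4 := ⟨_, rfl⟩
  obtain ⟨η2, hη2⟩ : ∃ η2 : ℝ, η2 = min (η ^ 2 / 16) ((1 : ℝ) / (50 * (20 * ((Lm : ℝ) + 1)) ^ 2)) := ⟨_, rfl⟩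
  have hη2pos : 0 < η2 := by rw [hη2]; positivity
  have hη2a : η2 ≤ η ^ 2 / 16 := by rw [hη2]; exact min_le_left _ _
  have hη2b : η2 ≤ (1 : ℝ) / (50 * (20 * ((Lm : ℝ) + 1)) ^ 2) := by rw [hη2]; exact min_le_right _ _
  obtain ⟨G, hG⟩ := h2 (3 * K + 1) η2 hη2pos
  refine ⟨G, fun a ha => ?_⟩
  obtain ⟨ε, hε⟩ : ∃ ε : ℝ, ε = min ((1 : ℝ) / (50 * ((G : ℝ) + 1)))
    (η ^ 2 / (64 * ((G : ℝ) + 1))) := ⟨_, rfl⟩
  have hεpos : 0 < ε := by rw [hε]; positivity
  have hGε1 : G * ε ≤ 1 / 50 := by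
    calc G * ε ≤ (G + 1 : ℝ) * (1 / (50 * (G + 1))) :=
          mul_le_mul (by linarith) (by rw [hε]; exact min_le_left _ _) hεpos.le (by positivity)
      _ = 1 / 50 := by field_simp
  have hGε2 : 4 * (G * ε) ≤ η ^ 2 / 16 := by
    have : G * ε ≤ (G + 1 : ℝ) * (η ^ 2 / (64 * (G + 1))) :=
          mul_le_mul (by linarith) (by rw [hε]; exact min_le_right _ _) hεpos.le (by positivity)
    have e : (G + 1 : ℝ) * (η ^ 2 / (64 * (G + 1))) = η ^ 2 / 64 := by field_simp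
    rw [e] at this
    linarith
  obtain ⟨s1, zs1, t1⟩ := trans3 hS3 3 a ha
  obtain ⟨s2, zs2, t2⟩ := trans4 hS4 3 ε hεpos
  obtain ⟨s3, zs3, t3⟩ := lamD hL Lm ε hεpos
  obtain ⟨s4, zs4, t4⟩ := exc hS2 3 Lm ε hεpos
  refine ⟨s1 + s2 + s3 + s4 + 1, zs1 + zs2 + zs3 + zs4 + Lm + 3, fun z0 hz0 => ?_⟩
  obtain ⟨C1, z4, u4⟩ := t4 z0 (by omega)
  refine ⟨C1, fun B => ?_⟩
  obtain ⟨z1, u1⟩ := t1 z0 (by omega) B
  obtain ⟨z2, u2⟩ := t2 z0 (by omega) B
  obtain ⟨z3, u3⟩ := t3 z0 (by omega) B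
  refine ⟨z1 + z2 + z3 + z4 + 100 * (Lm + 1) + 50 * G + 80 * R + 3,
    fun z hz p _ hp1 hp2 S hS τ hτ e he => ?_⟩
  -- the three numbers
  obtain ⟨r, cc, r1, r2, r3, r4, r5⟩ := hR p S hS
  have hr : RData r R cc := ⟨r1, r2, r3, r4, fun i j hij => (r5 i j hij).1,
    fun i j hij => (r5 i j hij).2.1⟩
  obtain ⟨L, hLdef⟩ : ∃ L, L = LL r := ⟨_, rfl⟩
  have hL4 : 4 * r 0 ≤ L := by rw [hLdef]; exact hr.four
  have hr0 : 0 < r 0 := hr.r_pos 0
  have hL0 : 0 < L := by omega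
  have hLLm : L ≤ Lm := by rw [hLdef, hLm]; exact hr.le_pow
  -- the kernel
  obtain ⟨S2, hS2def⟩ : ∃ S2 : Finset (ZMod p), S2 = insert 1
    (((univ : Finset (Fin 3 × Fin 3)).filter (fun ij => ij.1 < ij.2)).biUnion (fun ij =>
      S.image (fun ξ => ξ * ((LL r / (2 * (r ij.1 - r ij.2)) : ℕ) : ZMod p)))) := ⟨_, rfl⟩
  have hS2card : S2.card ≤ 3 * K + 1 := by
    rw [hS2def]
    refine (Finset.card_insert_le _ _).trans ?_
    have h3 : ((univ : Finset (Fin 3 × Fin 3)).filter (fun ij => ij.1 < ij.2)).card = 3 := by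
      decide
    have h5 := Finset.card_biUnion_le_card_mul
      ((univ : Finset (Fin 3 × Fin 3)).filter (fun ij => ij.1 < ij.2))
      (fun ij => S.image (fun ξ => ξ * ((LL r / (2 * (r ij.1 - r ij.2)) : ℕ) : ZMod p))) K
      (fun ij _ => Finset.card_image_le.trans hS)
    rw [h3] at h5
    omega
  obtain ⟨b, c, hbc, hconc⟩ := hG p S2 hS2card
  have hconc1 : meanR (fun x : ZMod p => b x * ‖ch x - 1‖ ^ 2) ≤ η2 := by
    have := hconc 1 (by rw [hS2def]; exact mem_insert_self _ _)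
    simpa only [one_mul] using this
  -- sizes
  have hzpos : 0 < z := by omega
  have hzs : ∀ s, s + 1 ≤ s1 + s2 + s3 + s4 + 1 → z ^ s * z ≤ p := by
    intro s hs
    calc z ^ s * z = z ^ (s + 1) := (pow_succ z s).symm
      _ ≤ z ^ (s1 + s2 + s3 + s4 + 1) := Nat.pow_le_pow_right hzpos hs
      _ ≤ p := hp1
  have hzp : z ≤ p := by
    have := hzs 0 (by omega)
    rwa [pow_zero, one_mul] at this
  have hzB : z ≤ z ^ B := hzp.trans hp2
  obtain ⟨H, hHdef⟩ : ∃ H, H = p / (40 * L) := ⟨_, rfl⟩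
  have h40 : 0 < 40 * L := by omega
  have hHs : ∀ s, s + 1 ≤ s1 + s2 + s3 + s4 + 1 → z ^ s ≤ H := by
    intro s hs
    rw [hHdef, Nat.le_div_iff_mul_le h40]
    calc z ^ s * (40 * L) ≤ z ^ s * z := Nat.mul_le_mul_left _ (by omega)
      _ ≤ p := hzs s hs
  have hH1 : 40 * L * H ≤ p := by rw [hHdef]; exact Nat.mul_div_le p (40 * L)
  have hH2 : p < 40 * L * (H + 1) := by rw [hHdef]; exact Nat.lt_mul_div_succ p h40
  have hHpos : 0 < H := by
    have := hHs 0 (by omega)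
    rw [pow_zero] at this
    omega
  have hHp : H < p := by
    have : 2 * H ≤ 40 * L * H := Nat.mul_le_mul_right _ (by omega)
    omega
  have hp80 : 80 * L ≤ p := by omega
  have hLP : ∀ q ∈ PP z0 z, ¬ ((q : ℤ) ∣ (L : ℤ)) := fun q hq hd => by
    have h3 := Nat.le_of_dvd hL0 (Int.natCast_dvd_natCast.1 hd)
    have h5 := (A81.mem_PP.1 hq).1
    omega
  have hcv : ∀ j, |cvec e r j| < (L : ℤ) := by rw [hLdef]; exact hr.cvec_lt e
  have hab : ∀ j : Fin 3, |(fun _ : Fin 3 => (L : ℤ)) j| ≤ (z : ℤ) ^ B ∧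
      |cvec e r j| ≤ (z : ℤ) ^ B ∧ ∀ q ∈ PP z0 z, ¬ ((q : ℤ) ∣ (fun _ : Fin 3 => (L : ℤ)) j) := by
    intro j
    have h3 : (L : ℤ) ≤ (z : ℤ) ^ B := by exact_mod_cast (by omega : L ≤ z ^ B)
    refine ⟨?_, ?_, hLP⟩
    · simp only
      rw [abs_of_nonneg (by positivity)]
      exact h3
    · exact (hcv j).le.trans h3
  -- the weight
  obtain ⟨ν, hνdef⟩ : ∃ ν : ZMod p → ℝ, ν = nuP z0 z p (fun _ : Fin 3 => (L : ℤ)) (cvec e r) :=
    ⟨_, rfl⟩
  have hν : ∀ x, 0 ≤ ν x := fun x => by rw [hνdef]; exact nuP_nonneg _ _ _ _ _ _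
  obtain ⟨l, hl⟩ : ∃ l : Fin 3 → ZMod p → ℝ,
      l = fun i x => lam ((L : ℤ) * x.val + cvec e r i).toNat := ⟨_, rfl⟩
  obtain ⟨σ, hσdef⟩ : ∃ σ : ℝ, σ = τ * (-1) ^ cc := ⟨_, rfl⟩
  have hσ : σ = 1 ∨ σ = -1 := by
    rw [hσdef]
    rcases hτ with rfl | rfl <;> rcases neg_one_pow_eq_or ℝ cc with h | h <;> rw [h] <;> norm_num
  have e1 := (u1 z (by omega) (fun _ : Fin 3 => (L : ℤ)) (cvec e r) hab p
    (by
      have := hzs s1 (by omega)
      exact (Nat.le_mul_of_pos_right _ hzpos).trans this) hp2).1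
  have e2 := u2 z (by omega) (fun _ : Fin 3 => (L : ℤ)) (cvec e r) hab p hp2
    (by
      have := hzs s2 (by omega)
      exact (Nat.le_mul_of_pos_right _ hzpos).trans this)
  have e3 : ∀ i, ∀ ζ : ZMod p, ‖mean (fun x => (if 1 ≤ x.val ∧ x.val ≤ H then
      ((ν x : ℝ) : ℂ) * (l i x : ℂ) * ch (ζ * x) else 0))‖ ≤ ε := by
    intro i ζ
    have h3 := u3 z (by omega) L (cvec e r) hL0 hLLm hcv (hr.cvec_inj e) H (hHs s3 (by omega))
      (hHp.le.trans hp2) i ((ζ.val : ℝ) / p)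
    have h5 := mean_Icc hHp (fun n : ℕ => ((nu z0 z (fun _ : Fin 3 => (L : ℤ)) (cvec e r)
      (n : ℤ) : ℝ) : ℂ) * (lam ((L : ℤ) * n + cvec e r i).toNat : ℂ)) ζ ε hεpos.le h3
    rw [hνdef, hl]
    exact h5
  have e4 : meanR (fun x : ZMod p => if (1 ≤ x.val ∧ x.val ≤ H) ∧
      (∃ j : Fin 3, ¬ Sm z0 C1 ((L : ℤ) * (x.val : ℤ) + cvec e r j).natAbs) then ν x else 0) ≤
      ε := by
    have h3 := u4 z (by omega) (fun _ : Fin 3 => (L : ℤ)) (cvec e r) (fun j => by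
      refine ⟨(by omega : (L : ℤ) ≠ 0), ?_, hLP⟩
      rw [abs_of_nonneg (by positivity)]
      exact_mod_cast hLLm) 0 H (hHs s4 (by omega))
    have h5 := exc_mean hHp _ _ ε hεpos.le h3
    rw [hνdef]
    exact h5
  have e5 : (12 : ℝ) / 25 ≤ meanR (fun x : ZMod p => if 1 ≤ x.val ∧ x.val ≤ H then b x else 0) := by
    have h3 := kernel_half hbc hHpos η2 hconc1
    have hpr : (0 : ℝ) < p := castR_pos
    have hHr : (0 : ℝ) < H := by exact_mod_cast hHpos
    have h5 : (G : ℝ) / p ≤ 1 / 50 := by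
      rw [div_le_div_iff₀ hpr (by norm_num)]
      have : G * 50 ≤ 1 * p := by omega
      exact_mod_cast this
    have h6 : (p : ℝ) / (4 * H) ≤ 20 * (Lm + 1) := by
      rw [div_le_iff₀ (by positivity)]
      have h7 : p ≤ 20 * (Lm + 1) * (4 * H) := by
        have a1 : 40 * L * (H + 1) ≤ 40 * L * (2 * H) := Nat.mul_le_mul_left _ (by omega)
        have a2 : 40 * L * (2 * H) = 20 * L * (4 * H) := by ring
        have a3 : 20 * L * (4 * H) ≤ 20 * (Lm + 1) * (4 * H) :=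
          Nat.mul_le_mul_right _ (by omega)
        omega
      exact_mod_cast h7
    have h8 : η2 * ((p : ℝ) / (4 * H)) ^ 2 ≤ 1 / 50 := by
      calc η2 * ((p : ℝ) / (4 * H)) ^ 2 ≤
            (1 : ℝ) / (50 * (20 * ((Lm : ℝ) + 1)) ^ 2) * (20 * (Lm + 1)) ^ 2 :=
            mul_le_mul hη2b (pow_le_pow_left₀ (by positivity) h6 2) (by positivity) (by positivity)
        _ = 1 / 50 := by field_simp
    linarith
  have e6 : ‖mean (fun x => ((ν x - 1 : ℝ) : ℂ) * (b x : ℂ))‖ ≤ G * ε := by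
    have h3 := kernel_mean hbc (fun x => ((ν x - 1 : ℝ) : ℂ)) ε (fun ζ => by
      rw [hνdef]; exact (e2 ζ).1) 0
    simpa only [zero_mul, ch_zero, mul_one] using h3
  obtain ⟨i, j, hij, D, hD1, hD2, hD3, hD4, hD5⟩ := fd_core (H := H) hbc ν hν l
    (fun i x => by rw [hl]; exact lam_eq _)
    (fun x : ZMod p => ∃ j : Fin 3, ¬ Sm z0 C1 ((L : ℤ) * (x.val : ℤ) + cvec e r j).natAbs) σ hσ ε η2
    hGε1 (fun ζ => by
      have h3 := (e2 ζ).2 H (hHs s2 (by omega)) hHp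
      rw [hνdef]; exact h3) e6 e3 e4 e5
  -- the data
  obtain ⟨d, hd⟩ : ∃ d, d = r i - r j := ⟨_, rfl⟩
  have hrij := hr.strict i j hij
  have hd0 : 0 < d := by omega
  obtain ⟨q, hq⟩ : ∃ q, q = LL r / (2 * (r i - r j)) := ⟨_, rfl⟩
  have hq0 : 0 < q := by rw [hq]; exact hr.q_pos hij
  have hqL : L = 2 * d * q := by
    rw [hq, hLdef, hd, Nat.mul_div_cancel' (hr.two_mul_dvd i j hij)]
  obtain ⟨m, hm⟩ : ∃ m, m = r j / (r i - r j) := ⟨_, rfl⟩
  have hmj : r j = d * m := by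
    rw [hm, hd, Nat.mul_div_cancel' (hr.dvd i j hij)]
  have hm0 : 0 < m := by
    rcases Nat.eq_zero_or_pos m with h | h
    · have := hr.r_pos j
      rw [hmj, h, mul_zero] at this
      omega
    · exact h
  have hmi : r i = d * (m + 1) := by
    have : d * (m + 1) = d * m + d := by ring
    omega
  have hlamd : lam d = (-1) ^ cc := by
    rw [lam_eq_iff]
    have h3 := hr.om i j hij
    rw [← hd] at h3
    unfold Nat.ModEq
    omega
  refine ⟨D, ν, b, c, (q : ZMod p), (if e = 0 then (m : ZMod p) else -(m : ZMod p)),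
    fun x => if e = 0 then 2 * q * x.val + 2 * m else 2 * q * x.val - 2 * (m + 1), hbc, hν, hD2,
    ?_, hD4, hD3, ?_, ?_, ?_⟩
  · rw [hνdef]; exact e1
  · intro h0
    have h3 : p ∣ q := (ZMod.natCast_eq_zero_iff q p).1 h0
    have h5 := Nat.le_of_dvd hq0 h3
    have h6 : 1 * q ≤ 2 * d * q := Nat.mul_le_mul_right _ (by omega)
    omega
  · intro U hU
    have hDU := hD1 U
    by_cases hcond : (1 ≤ U.val ∧ U.val ≤ H) ∧ (l i U = σ ∧ l j U = σ) ∧
        ¬ ∃ j : Fin 3, ¬ Sm z0 C1 ((L : ℤ) * (U.val : ℤ) + cvec e r j).natAbs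
    swap
    · rw [if_neg hcond] at hDU
      exact absurd hDU hU
    rw [if_pos hcond] at hDU
    obtain ⟨⟨hv1, hv2⟩, ⟨hli, hlj⟩, hexc⟩ := hcond
    push Not at hexc
    have hνU : nu z0 z (fun _ : Fin 3 => (L : ℤ)) (cvec e r) (U.val : ℤ) ≠ 0 := by
      intro h0
      apply hU
      rw [hDU, hνdef]
      unfold nuP
      rw [h0, zero_mul]
    have hrough := rough_of_nu_ne_zero hνU
    rw [hl] at hli hlj
    simp only at hli hlj
    have hUc : ((U.val : ℕ) : ZMod p) = U := ZMod.natCast_zmod_val U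
    beta_reduce
    obtain ⟨v, hv⟩ : ∃ v, v = U.val := ⟨_, rfl⟩
    rw [← hv] at hv1 hv2 hexc hrough hli hlj hUc ⊢
    have hσd : σ = τ * lam d := by rw [hlamd, hσdef]
    have hri := hr.r_le i
    have hrj := hr.r_pos j
    have hLv : L * v = 2 * d * q * v := by rw [← hqL]
    have hLv1 : L * 1 ≤ L * v := Nat.mul_le_mul_left _ hv1
    have hLvH : 40 * (L * v) ≤ p := by
      calc 40 * (L * v) = 40 * L * v := by ring
        _ ≤ 40 * L * H := Nat.mul_le_mul_left _ hv2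
        _ ≤ p := hH1
    have hpz : p < z ^ (B + 1) := by
      have a1 : z ^ (B + 1) = z ^ B * z := pow_succ z B
      have a2 : z ^ B * 2 ≤ z ^ B * z := Nat.mul_le_mul_left _ (by omega)
      omega
    rcases he with rfl | rfl
    · -- `e = 0`
      have hcvk : ∀ k, (L : ℤ) * (v : ℤ) + cvec 0 r k = ((L * v + 2 * r k : ℕ) : ℤ) := by
        intro k
        unfold cvec
        rw [if_pos rfl]
        push_cast
        ring
      simp only [hcvk, Int.natAbs_natCast, Int.toNat_natCast] at hexc hrough hli hlj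
      have hy : d * (2 * q * v + 2 * m) = L * v + 2 * r j := by
        rw [hLv, hmj]; ring
      have hy' : d * (2 * q * v + 2 * m + 2) = L * v + 2 * r i := by
        rw [hLv, hmi]; ring
      simp only [if_true]
      refine ⟨?_, ?_, ?_⟩
      · have a1 : 1 * (2 * q * v + 2 * m) ≤ d * (2 * q * v + 2 * m) :=
          Nat.mul_le_mul_right _ hd0
        have a2 := hr.r_le j
        omega
      · push_cast
        rw [hUc]
        ring
      · intro C N hC hN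
        exact good_quot hd0 (by omega) hy hy' (hexc j) (hexc i) (hrough j) (hrough i) (by omega)
          (E := B + 1) (by omega) (by omega) (by omega) (by rw [hlj, hσd]) (by rw [hli, hσd])
    · -- `e = 2`
      have hle : ∀ k, 2 * r k ≤ L * v := by
        intro k
        have := hr.r_le k
        omega
      have hcvk : ∀ k, (L : ℤ) * (v : ℤ) + cvec 2 r k = ((L * v - 2 * r k : ℕ) : ℤ) := by
        intro k
        unfold cvec
        rw [if_neg (by norm_num)]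
        rw [Nat.cast_sub (hle k)]
        push_cast
        ring
      simp only [hcvk, Int.natAbs_natCast, Int.toNat_natCast] at hexc hrough hli hlj
      have hy : d * (2 * q * v - 2 * (m + 1)) = L * v - 2 * r i := by
        rw [Nat.mul_sub, hLv, hmi]
        congr 1 <;> ring
      have hgpos : 0 < 2 * q * v - 2 * (m + 1) := by
        rcases Nat.eq_zero_or_pos (2 * q * v - 2 * (m + 1)) with h | h
        · rw [h, mul_zero] at hy
          omega
        · exact h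
      have hy2 : 2 * q * v - 2 * (m + 1) + 2 = 2 * q * v - 2 * m := by omega
      have hy' : d * (2 * q * v - 2 * (m + 1) + 2) = L * v - 2 * r j := by
        rw [hy2, Nat.mul_sub, hLv, hmj]
        congr 1 <;> ring
      simp only [if_neg (show ¬ (2 = 0) by norm_num)]
      refine ⟨?_, ?_, ?_⟩
      · have a1 : 1 * (2 * q * v - 2 * (m + 1)) ≤ d * (2 * q * v - 2 * (m + 1)) :=
          Nat.mul_le_mul_right _ hd0
        omega
      · rw [hy2, Nat.cast_sub (by omega)]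
        push_cast
        rw [hUc]
        ring
      · intro C N hC hN
        exact good_quot hd0 hgpos hy hy' (hexc i) (hexc j) (hrough i) (hrough j) (by omega)
          (E := B + 1) (by omega) (by omega) (by omega) (by rw [hli, hσd]) (by rw [hlj, hσd])
  · intro ξ hξ
    obtain ⟨δ, hδ⟩ : ∃ δ : ZMod p, δ = if e = 0 then (m : ZMod p) else -(m : ZMod p) := ⟨_, rfl⟩
    rw [← hδ]
    have hδ8 : ‖ch (ξ * δ) - 1‖ ≤ η / 8 := by
      have h3 := (r5 i j hij).2.2 ξ hξ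
      rw [← hm] at h3
      rw [hδ]
      split_ifs
      · exact h3
      · have h5 : ch (ξ * -(m : ZMod p)) - 1 = (starRingEnd ℂ) (ch (ξ * (m : ZMod p)) - 1) := by
          rw [map_sub, map_one, conj_ch, mul_neg]
        rw [h5, RCLike.norm_conj]
        exact h3
    have hmem : ξ * (q : ZMod p) ∈ S2 := by
      rw [hS2def]
      apply mem_insert_of_mem
      rw [mem_biUnion]
      refine ⟨(i, j), ?_, ?_⟩
      · rw [mem_filter]
        exact ⟨mem_univ _, hij⟩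
      · rw [mem_image]
        exact ⟨ξ, hξ, by rw [hq]⟩
    have h3 := hD5 (ξ * (q : ZMod p)) (hconc _ hmem)
    have h5 : ∀ x : ZMod p, D x * ‖ch (ξ * ((q : ZMod p) * x + δ)) - 1‖ ≤
        D x * ‖ch (ξ * (q : ZMod p) * x) - 1‖ + η / 8 * D x := by
      intro x
      have h6 := norm_ch_add_sub_one (ξ * (q : ZMod p) * x) (ξ * δ)
      rw [show ξ * ((q : ZMod p) * x + δ) = ξ * (q : ZMod p) * x + ξ * δ by ring]
      have h7 := mul_le_mul_of_nonneg_left (h6.trans (add_le_add_right hδ8 _)) (hD2 x).1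
      linarith
    refine (meanR_mono _ _ h5).trans ?_
    rw [meanR_add, meanR_mul_left]
    have h8 : meanR D ≤ 2 := (meanR_mono _ _ fun x => (hD2 x).2).trans hD4
    have h9 : meanR (fun x => D x * ‖ch (ξ * (q : ZMod p) * x) - 1‖) ≤ η / 2 := by
      by_contra hcon
      push Not at hcon
      have h10 : (η / 2) ^ 2 < meanR (fun x => D x * ‖ch (ξ * (q : ZMod p) * x) - 1‖) ^ 2 :=
        pow_lt_pow_left₀ hcon (by positivity) two_ne_zero
      nlinarith
    have h11 : η / 8 * meanR D ≤ η / 8 * 2 := mul_le_mul_of_nonneg_left h8 (by positivity)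
    linarith

end Pool.Agent.Lib.TwinAll
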