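import Mathlib
import Pool.Agent.Lib.TwinAll.StmtsF73

/-!
THEOREM A (MP_c6d112_nt), version with the number of representations: statements FD2 and MAIN2.
-/

set_option autoImplicit false

namespace Pool.Agent.Lib.TwinAll

open Finset A81 FA

/-- upper bound for the normalised indicator functions of three forms -/
def VV2Stmt : Prop :=
  ∃ zs : ℕ, ∀ z0 : ℕ, zs ≤ z0 → ∃ C2 : ℝ, 0 < C2 ∧ ∀ z : ℕ, 2 ≤ z → ∀ a b : Fin 3 → ℤ,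
    (∀ j, ∀ q ∈ PP z0 z, ¬ ((q : ℤ) ∣ a j)) → ∀ n : ℤ, nu z0 z a b n ≤ C2 * Real.log z ^ 3

/-- FD2: `FDStmt` with an upper bound for `νD`. -/
def FDStmt2 : Prop :=
  ∀ (K : ℕ) (η : ℝ), 0 < η → ∃ G : ℕ, ∀ a : ℝ, 0 < a → ∃ Bs zs : ℕ, ∀ z0 : ℕ, zs ≤ z0 →
    ∃ (C1 : ℕ) (C2 : ℝ), ∀ B : ℕ, ∃ z1 : ℕ, ∀ z : ℕ, z1 ≤ z → ∀ (p : ℕ) [Fact p.Prime],
    z ^ Bs ≤ p → p ≤ z ^ B → ∀ S : Finset (ZMod p), S.card ≤ K → ∀ τ : ℝ, (τ = 1 ∨ τ = -1) →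
    ∀ e : ℕ, (e = 0 ∨ e = 2) →
    ∃ (D νD b'' c'' : ZMod p → ℝ) (α δ : ZMod p) (g : ZMod p → ℕ), Kernel G b'' c'' ∧
      (∀ x, 0 ≤ νD x ∧ νD x ≤ C2 * Real.log z ^ 3) ∧ (∀ x, 0 ≤ D x ∧ D x ≤ νD x * b'' x) ∧
      meanR (fun t => ‖mean (fun x => ((νD x - 1 : ℝ) : ℂ) *
        ((νD (x + t) - 1 : ℝ) : ℂ))‖ ^ 2) ≤ a ∧
      meanR (fun x => νD x * b'' x) ≤ 2 ∧ 1 / 50 ≤ meanR D ∧ α ≠ 0 ∧
      (∀ U, D U ≠ 0 → 20 * g U ≤ p ∧ ((g U + e : ℕ) : ZMod p) = 2 * (α * U + δ) ∧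
        ∀ C N : ℕ, C1 + B + 1 ≤ C → N ≤ p → Good τ C N (g U)) ∧
      ∀ ξ ∈ S, meanR (fun U => D U * ‖ch (ξ * (α * U + δ)) - 1‖) ≤ η

open Classical in
/-- the number of representations of `n` as a sum of two good numbers -/
noncomputable def reps (τ : ℝ) (C N n : ℕ) : ℕ :=
  ((Finset.range (n + 1)).filter (fun a => Good τ C N a ∧ Good τ C N (n - a))).card

open Classical in
/-- MAIN2: THEOREM A with the number of representations (`0 < C` excludes the quotient by `0`). -/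
def MainStmt2 : Prop :=
  ∀ ε : ℝ, 0 < ε → ∀ τ : ℝ, (τ = 1 ∨ τ = -1) → ∃ C : ℕ, 0 < C ∧ ∀ N : ℕ, C ≤ N →
    (((Finset.Icc 1 N).filter (fun n => Even n ∧
      (reps τ C N n : ℝ) < N / (C * Real.log N ^ 6))).card : ℝ) ≤ ε * N

end Pool.Agent.Lib.TwinAll
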