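import Mathlib
import Pool.Agent.Lib.TwinAll.StmtsG73
import Pool.Agent.Lib.TwinAll.S5x82

/-!
THEOREM A (MP_c6d112_nt): VV2, an upper bound for the normalised indicator functions.
-/

set_option autoImplicit false

namespace Pool.Agent.Lib.TwinAll.A81

open Finset

theorem inv_one_sub_le {t : ℝ} (h0 : 0 ≤ t) (h1 : t ≤ 1 / 2) :
    (1 - t)⁻¹ ≤ (1 + t) * (1 + 2 * t ^ 2) := by
  have h2 : 0 < 1 - t := by linarith
  rw [inv_le_iff_one_le_mul₀ h2]
  have h3 : t ^ 2 ≤ 1 / 4 := by nlinarith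
  nlinarith [mul_nonneg h0 h0, mul_nonneg (sq_nonneg t) (sub_nonneg.2 h3)]

theorem sq_prod_le (z0 z : ℕ) (h0 : 1 ≤ z0) (hz : z0 ≤ z) :
    ∏ q ∈ PP z0 z, (1 + 18 / (q : ℝ) ^ 2) ≤ Real.exp 18 := by
  calc ∏ q ∈ PP z0 z, (1 + 18 / (q : ℝ) ^ 2) ≤ ∏ q ∈ PP z0 z, Real.exp (18 * ((q : ℝ) ^ 2)⁻¹) := by
        apply Finset.prod_le_prod
        · intro q _; positivity
        · intro q _
          have := Real.add_one_le_exp (18 * ((q : ℝ) ^ 2)⁻¹)
          rw [div_eq_mul_inv]
          linarith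
    _ = Real.exp (18 * ∑ q ∈ PP z0 z, ((q : ℝ) ^ 2)⁻¹) := by
        rw [← Real.exp_sum, ← Finset.mul_sum]
    _ ≤ Real.exp 18 := by
        apply Real.exp_le_exp.2
        have h1 : ∑ q ∈ PP z0 z, ((q : ℝ) ^ 2)⁻¹ ≤ ∑ q ∈ Finset.Ioc z0 z, ((q : ℝ) ^ 2)⁻¹ :=
          Finset.sum_le_sum_of_subset_of_nonneg (Finset.filter_subset _ _)
            (fun _ _ _ => by positivity)
        have h2 := sum_Ioc_inv_sq_le_sub (α := ℝ) (k := z0) (n := z) (by omega) hz
        have h3 : (z0 : ℝ)⁻¹ ≤ 1 := inv_le_one_of_one_le₀ (by exact_mod_cast h0)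
        have h4 : (0 : ℝ) ≤ (z : ℝ)⁻¹ := by positivity
        linarith

end Pool.Agent.Lib.TwinAll.A81

namespace Pool.Agent.Lib.TwinAll

open Finset A81

theorem VV2 : VV2Stmt := by
  obtain ⟨K, hK, hKb⟩ := prod_le82 3
  refine ⟨12, fun z0 hz0 => ⟨K * Real.exp 18 + 8, by positivity, fun z hz a b hab n => ?_⟩⟩
  have hlog2 : (1 / 2 : ℝ) ≤ Real.log 2 := by
    have := Real.log_two_gt_d9
    linarith
  have hlogz : Real.log 2 ≤ Real.log z :=
    Real.log_le_log (by norm_num) (by exact_mod_cast hz)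
  have hl3 : (1 / 8 : ℝ) ≤ Real.log z ^ 3 := by
    have : (1 / 2 : ℝ) ^ 3 ≤ Real.log z ^ 3 := pow_le_pow_left₀ (by norm_num) (by linarith) 3
    norm_num at this ⊢
    linarith
  have hnu : nu z0 z a b n ≤ (VV z0 z a b)⁻¹ := by
    unfold nu
    split_ifs
    · exact le_rfl
    · exact inv_nonneg.2 (VV_nonneg _ _ _ _)
  refine hnu.trans ?_
  rcases le_total z0 z with h | h
  · calc (VV z0 z a b)⁻¹ ≤ ∏ q ∈ PP z0 z, ((1 + (3 : ℕ) / (q : ℝ)) * (1 + 18 / (q : ℝ) ^ 2)) := by
          unfold VV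
          rw [← Finset.prod_inv_distrib]
          apply Finset.prod_le_prod
          · intro q hq
            have hq1 := (A81.mem_PP.1 hq)
            have hq0 : (0 : ℝ) < q := by exact_mod_cast hq1.2.2.pos
            have h1 : (om a b q : ℝ) ≤ q := by exact_mod_cast om_le_self _ _ q
            rw [inv_nonneg, sub_nonneg, div_le_one hq0]
            exact h1
          · intro q hq
            have hq1 := (A81.mem_PP.1 hq)
            have hq0 : (0 : ℝ) < q := by exact_mod_cast hq1.2.2.pos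
            have hq12 : (12 : ℝ) ≤ q := by
              have : 12 ≤ q := by omega
              exact_mod_cast this
            have h1 : (om a b q : ℝ) ≤ 3 := by
              exact_mod_cast A81.om_le hq1.2.2 (fun j => hab j q hq)
            have h2 : (om a b q : ℝ) / q ≤ 3 / q := div_le_div_of_nonneg_right h1 hq0.le
            have h3 : (3 : ℝ) / q ≤ 1 / 2 := by
              rw [div_le_div_iff₀ hq0 (by norm_num)]
              linarith
            have h4 := inv_one_sub_le (t := 3 / (q : ℝ)) (by positivity) h3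
            have h5 : (1 - (om a b q : ℝ) / q)⁻¹ ≤ (1 - 3 / (q : ℝ))⁻¹ :=
              inv_anti₀ (by linarith) (by linarith)
            refine (h5.trans h4).trans (le_of_eq ?_)
            push_cast
            rw [div_pow]
            ring
      _ = (∏ q ∈ PP z0 z, (1 + ((3 : ℕ) : ℝ) / (q : ℝ))) * ∏ q ∈ PP z0 z, (1 + 18 / (q : ℝ) ^ 2) :=
          Finset.prod_mul_distrib
      _ ≤ (K * Real.log z ^ 3) * Real.exp 18 :=
          mul_le_mul (hKb z0 z (by omega) h) (sq_prod_le z0 z (by omega) h)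
            (Finset.prod_nonneg fun q _ => by positivity) (by positivity)
      _ ≤ (K * Real.exp 18 + 8) * Real.log z ^ 3 := by nlinarith
  · have hP : PP z0 z = ∅ := by
      unfold PP
      rw [Finset.Ioc_eq_empty_of_le h]
      rfl
    have h1 : VV z0 z a b = 1 := by
      unfold VV
      rw [hP, Finset.prod_empty]
    rw [h1, inv_one]
    have h2 : 0 < K * Real.exp 18 := by positivity
    nlinarith

end Pool.Agent.Lib.TwinAll
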