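import Mathlib
import Pool.Agent.Lib.TwinAll.FA2x73

/-!
THEOREM A (MP_c6d112_nt), steps (a) and (c) with an error term in place of the zero relation.
-/

set_option autoImplicit false

namespace Pool.Agent.Lib.TwinAll

open Finset

namespace FA

/-- step (a) -/
theorem stepA2 (h1 : H1Stmt) {p : ℕ} [Fact p.Prime] (hp2 : p ≠ 2) {ν A : ZMod p → ℝ} {K K' : ℕ}
    {b c b' c' : ZMod p → ℝ} {r φ D0 : ℝ} (hA : AData ν A K K' b c b' c' r φ D0)
    {D νD b'' c'' w : ZMod p → ℝ} {K'' : ℕ} (hb : Kernel K'' b'' c'') (hνD : ∀ x, 0 ≤ νD x)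
    (hD0 : ∀ U, 0 ≤ D U) (hD : ∀ U, D U ≤ νD U * b'' U)
    (hmass : meanR (fun U => νD U * b'' U) ≤ 2) {aD : ℝ}
    (haD : meanR (fun t => ‖mean (fun x => ((νD x - 1 : ℝ) : ℂ) *
      ((νD (x + t) - 1 : ℝ) : ℂ))‖ ^ 2) ≤ aD)
    (hw : ∀ x, 0 ≤ w x ∧ w x ≤ 1) (α δ : ZMod p) (hα : α ≠ 0)
    {θ : ℝ} (hzero : ‖mean (fun U => mean (fun x => ((A x * D U * w (α * U + 2 * x + δ) : ℝ) :
      ℂ)))‖ ≤ θ) {η : ℝ}
    (hη : ∀ ξ, c ξ ≠ 0 → meanR (fun U => D U * ‖ch (ξ * ((α * U + δ) / 2)) - 1‖) ≤ η) :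
    meanR D * meanR (fun x => cvR A b x * w (2 * x)) ≤
      √(2 * K'' * (φ ^ 2 + (aD * (8 * D0 + 165888)) ^ ((1 : ℝ) / 4))) + 2 * r + 2 * K * η +
        θ := by
  have hp := Fact.out (p := p.Prime)
  have h20 : (2 : ZMod p) ≠ 0 := by
    intro h
    have h2 : ((2 : ℕ) : ZMod p) = 0 := by exact_mod_cast h
    rw [ZMod.natCast_eq_zero_iff] at h2
    exact hp2 ((Nat.prime_dvd_prime_iff_eq hp Nat.prime_two).1 h2)
  have hmD : meanR D ≤ 2 := (meanR_mono _ _ hD).trans hmass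
  have hη0 : ∃ ξ, c ξ ≠ 0 := ⟨0, by rw [hA.ker.zero]; exact one_ne_zero⟩
  have hη1 : 0 ≤ η := by
    obtain ⟨ξ, hξ⟩ := hη0
    exact (meanR_nonneg _ fun U => mul_nonneg (hD0 U) (norm_nonneg _)).trans (hη ξ hξ)
  obtain ⟨u, hu⟩ : ∃ u : ZMod p → ℂ, u = fun x => (A x : ℂ) - conv (fun x => (A x : ℂ)) b' x :=
    ⟨_, rfl⟩
  -- von Neumann
  obtain ⟨T1, hT1⟩ : ∃ T1 : ℂ, T1 = mean (fun U => mean (fun x =>
    (D U : ℂ) * u x * (w (α * U + 2 * x + δ) : ℂ))) := ⟨_, rfl⟩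
  have k1 : ‖T1‖ ≤ √(2 * K'' * (φ ^ 2 + (aD * (8 * D0 + 165888)) ^ ((1 : ℝ) / 4))) := by
    have e0 := h1 p (fun U => (D U : ℂ)) u (fun x => (w x : ℂ)) νD b'' c'' α 2 δ φ aD
      (8 * D0 + 165888) hα h20 hb.nonneg hb.expand (fun ζ => (hb.coeff ζ).1) hνD (fun U => by
        rw [Complex.norm_real, Real.norm_eq_abs, abs_of_nonneg (hD0 U)]
        exact hD U) (fun x => by
        rw [Complex.norm_real, Real.norm_eq_abs, abs_of_nonneg (hw x).1]
        exact (hw x).2) (fun ξ => by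
        rw [hu]
        exact hA.small ξ) haD (corr_le ν hA.nu_nonneg hA.mass D0 hA.corr u (fun x => by
        rw [hu]
        exact hA.corr_u x))
    rw [← hT1] at e0
    have haD0 : 0 ≤ aD := (meanR_nonneg _ fun _ => by positivity).trans haD
    have hD00 := hA.D0_nonneg
    have e1 : meanR (fun x => νD x * b'' x) * b'' 0 ≤ 2 * K'' :=
      mul_le_mul hmass (kernel_zero_le hb) (hb.nonneg 0) (by norm_num)
    have e2 : 0 ≤ φ ^ 2 + (aD * (8 * D0 + 165888)) ^ ((1 : ℝ) / 4) := by positivity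
    have e3 := e0.trans (mul_le_mul_of_nonneg_right e1 e2)
    exact Real.le_sqrt_of_sq_le e3
  -- replacement of `A` by `A * b'`
  obtain ⟨T2, hT2⟩ : ∃ T2 : ℂ, T2 = mean (fun U => mean (fun x =>
    (D U : ℂ) * conv (fun x => (A x : ℂ)) b' x * (w (α * U + 2 * x + δ) : ℂ))) := ⟨_, rfl⟩
  obtain ⟨T0, hT0⟩ : ∃ T0 : ℂ, T0 = mean (fun U => mean (fun x =>
    ((A x * D U * w (α * U + 2 * x + δ) : ℝ) : ℂ))) := ⟨_, rfl⟩
  rw [← hT0] at hzero
  have k2 : T2 = T0 - T1 := by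
    have e1 : T1 + T2 = T0 := by
      rw [hT1, hT2, hT0, ← mean_add]
      congr 1
      funext U
      rw [← mean_add]
      congr 1
      funext x
      rw [hu]
      push_cast
      ring
    linear_combination e1
  -- replacement of `b'` by `b`
  obtain ⟨T3, hT3⟩ : ∃ T3 : ℂ, T3 = mean (fun U => mean (fun x =>
    (D U : ℂ) * conv (fun x => (A x : ℂ)) b x * (w (α * U + 2 * x + δ) : ℂ))) := ⟨_, rfl⟩
  have k3 : ‖T3 - T2‖ ≤ 2 * r := by
    rw [hT3, hT2, ← mean_sub]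
    refine (norm_mean_le _).trans ?_
    have e1 : ∀ U, ‖mean (fun x => (D U : ℂ) * conv (fun x => (A x : ℂ)) b x *
        (w (α * U + 2 * x + δ) : ℂ)) - mean (fun x => (D U : ℂ) *
        conv (fun x => (A x : ℂ)) b' x * (w (α * U + 2 * x + δ) : ℂ))‖ ≤ D U * r := by
      intro U
      rw [← mean_sub]
      refine (norm_mean_le _).trans ?_
      have e2 := meanR_norm_le _ r hA.r0 hA.close
      refine le_trans ?_ (mul_le_mul_of_nonneg_left e2 (hD0 U))
      rw [← meanR_mul_left]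
      refine meanR_mono _ _ fun x => ?_
      have e3 : (D U : ℂ) * conv (fun x => (A x : ℂ)) b x * (w (α * U + 2 * x + δ) : ℂ) -
          (D U : ℂ) * conv (fun x => (A x : ℂ)) b' x * (w (α * U + 2 * x + δ) : ℂ) =
          (D U : ℂ) * (conv (fun x => (A x : ℂ)) b x - conv (fun x => (A x : ℂ)) b' x) *
            (w (α * U + 2 * x + δ) : ℂ) := by ring
      rw [e3, norm_mul, norm_mul, Complex.norm_real, Complex.norm_real, Real.norm_eq_abs,
        Real.norm_eq_abs, abs_of_nonneg (hD0 U), abs_of_nonneg (hw _).1]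
      exact mul_le_of_le_one_right (mul_nonneg (hD0 U) (norm_nonneg _)) (hw _).2
    refine (meanR_mono _ _ e1).trans ?_
    rw [meanR_mul_right]
    exact mul_le_mul_of_nonneg_right hmD hA.r0
  -- removal of the translation
  obtain ⟨T4, hT4⟩ : ∃ T4 : ℂ, T4 = mean (fun U => mean (fun x =>
    (D U : ℂ) * conv (fun x => (A x : ℂ)) b x * (w (2 * x) : ℂ))) := ⟨_, rfl⟩
  have k4 : ‖T3 - T4‖ ≤ 2 * K * η := by
    rw [hT3, hT4, ← mean_sub]
    refine (norm_mean_le _).trans ?_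
    have e1 : ∀ U, ‖mean (fun x => (D U : ℂ) * conv (fun x => (A x : ℂ)) b x *
        (w (α * U + 2 * x + δ) : ℂ)) - mean (fun x => (D U : ℂ) *
        conv (fun x => (A x : ℂ)) b x * (w (2 * x) : ℂ))‖ ≤
        ∑ ξ ∈ univ.filter (fun ξ => c ξ ≠ 0),
          2 * (D U * ‖ch (ξ * ((α * U + δ) / 2)) - 1‖) := by
      intro U
      have e2 : mean (fun x => (D U : ℂ) * conv (fun x => (A x : ℂ)) b x *
          (w (α * U + 2 * x + δ) : ℂ)) = mean (fun x => (D U : ℂ) *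
          conv (fun x => (A x : ℂ)) b (x - (α * U + δ) / 2) * (w (2 * x) : ℂ)) := by
        rw [← mean_shift (fun x => (D U : ℂ) *
          conv (fun x => (A x : ℂ)) b (x - (α * U + δ) / 2) * (w (2 * x) : ℂ))
          ((α * U + δ) / 2)]
        congr 1
        funext x
        have e3 : x + (α * U + δ) / 2 - (α * U + δ) / 2 = x := by ring
        have e4 : 2 * (x + (α * U + δ) / 2) = α * U + 2 * x + δ := by
          rw [mul_add, mul_div_cancel₀ _ h20]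
          ring
        rw [e3, e4]
      rw [e2, ← mean_sub]
      refine (norm_mean_le _).trans ?_
      rw [← meanR_const (p := p) (∑ ξ ∈ univ.filter (fun ξ => c ξ ≠ 0),
          2 * (D U * ‖ch (ξ * ((α * U + δ) / 2)) - 1‖))]
      refine meanR_mono _ _ fun x => ?_
      have e3 : (D U : ℂ) * conv (fun x => (A x : ℂ)) b (x - (α * U + δ) / 2) *
          (w (2 * x) : ℂ) - (D U : ℂ) * conv (fun x => (A x : ℂ)) b x * (w (2 * x) : ℂ) =
          (D U : ℂ) * (conv (fun x => (A x : ℂ)) b (x - (α * U + δ) / 2) -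
            conv (fun x => (A x : ℂ)) b x) * (w (2 * x) : ℂ) := by ring
      rw [e3, norm_mul, norm_mul, Complex.norm_real, Complex.norm_real, Real.norm_eq_abs,
        Real.norm_eq_abs, abs_of_nonneg (hD0 U), abs_of_nonneg (hw _).1]
      have e5 := mul_le_mul_of_nonneg_left (hA.shift x ((α * U + δ) / 2)) (hD0 U)
      have e6 : D U * (2 * ∑ ξ ∈ univ.filter (fun ξ => c ξ ≠ 0),
          ‖ch (ξ * ((α * U + δ) / 2)) - 1‖) = ∑ ξ ∈ univ.filter (fun ξ => c ξ ≠ 0),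
          2 * (D U * ‖ch (ξ * ((α * U + δ) / 2)) - 1‖) := by
        rw [mul_sum, mul_sum]
        refine sum_congr rfl fun ξ _ => ?_
        ring
      rw [e6] at e5
      refine le_trans ?_ e5
      exact mul_le_of_le_one_right (mul_nonneg (hD0 U) (norm_nonneg _)) (hw _).2
    refine (meanR_mono _ _ e1).trans ?_
    rw [meanR_sum]
    have e7 : ∀ ξ ∈ univ.filter (fun ξ => c ξ ≠ 0),
        meanR (fun U => 2 * (D U * ‖ch (ξ * ((α * U + δ) / 2)) - 1‖)) ≤ 2 * η := by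
      intro ξ hξ
      rw [meanR_mul_left]
      exact mul_le_mul_of_nonneg_left (hη ξ (mem_filter.1 hξ).2) (by norm_num)
    refine (sum_le_sum e7).trans ?_
    rw [sum_const, nsmul_eq_mul]
    have e8 : (((univ.filter (fun ζ => c ζ ≠ 0)).card : ℕ) : ℝ) ≤ K := by
      exact_mod_cast hA.ker.supp
    have e9 := mul_le_mul_of_nonneg_right e8 (by positivity : (0 : ℝ) ≤ 2 * η)
    linarith
  -- conclusion
  have k5 : T4 = ((meanR D * meanR (fun x => cvR A b x * w (2 * x)) : ℝ) : ℂ) := by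
    rw [hT4, Complex.ofReal_mul, ofReal_meanR, ofReal_meanR, ← mean_mul_right]
    congr 1
    funext U
    rw [← mean_mul_left]
    congr 1
    funext x
    rw [conv_eq]
    push_cast
    ring
  have k6 : meanR D * meanR (fun x => cvR A b x * w (2 * x)) ≤ ‖T4‖ := by
    rw [k5, Complex.norm_real]
    exact Real.le_norm_self _
  have k7 : ‖T4‖ ≤ ‖T1‖ + ‖T3 - T2‖ + ‖T3 - T4‖ + ‖T0‖ := by
    have e1 : T4 = T0 - T1 + (T3 - T2) - (T3 - T4) := by
      rw [← k2]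
      ring
    calc ‖T4‖ = ‖T0 - T1 + (T3 - T2) - (T3 - T4)‖ := by rw [← e1]
      _ ≤ ‖T0 - T1 + (T3 - T2)‖ + ‖T3 - T4‖ := norm_sub_le _ _
      _ ≤ ‖T0 - T1‖ + ‖T3 - T2‖ + ‖T3 - T4‖ := by
          have := norm_add_le (T0 - T1) (T3 - T2)
          linarith
      _ ≤ _ := by
          have := norm_sub_le T0 T1
          linarith
  linarith

/-- step (a) with argument `w (2 * (x + (α * U + δ)))` -/
theorem stepA2' (h1 : H1Stmt) {p : ℕ} [Fact p.Prime] (hp2 : p ≠ 2) {ν A : ZMod p → ℝ} {K K' : ℕ}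
    {b c b' c' : ZMod p → ℝ} {r φ D0 : ℝ} (hA : AData ν A K K' b c b' c' r φ D0)
    {D νD b'' c'' w : ZMod p → ℝ} {K'' : ℕ} (hb : Kernel K'' b'' c'') (hνD : ∀ x, 0 ≤ νD x)
    (hD0 : ∀ U, 0 ≤ D U) (hD : ∀ U, D U ≤ νD U * b'' U)
    (hmass : meanR (fun U => νD U * b'' U) ≤ 2) {aD : ℝ}
    (haD : meanR (fun t => ‖mean (fun x => ((νD x - 1 : ℝ) : ℂ) *
      ((νD (x + t) - 1 : ℝ) : ℂ))‖ ^ 2) ≤ aD)
    (hw : ∀ x, 0 ≤ w x ∧ w x ≤ 1) (α δ : ZMod p) (hα : α ≠ 0)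
    {θ : ℝ} (hzero : ‖mean (fun U => mean (fun x =>
      ((A x * D U * w (2 * (x + (α * U + δ))) : ℝ) : ℂ)))‖ ≤ θ) {η : ℝ}
    (hη : ∀ ξ, c ξ ≠ 0 → meanR (fun U => D U * ‖ch (ξ * (α * U + δ)) - 1‖) ≤ η) :
    meanR D * meanR (fun x => cvR A b x * w (2 * x)) ≤
      √(2 * K'' * (φ ^ 2 + (aD * (8 * D0 + 165888)) ^ ((1 : ℝ) / 4))) + 2 * r + 2 * K * η +
        θ := by
  have h20 := two_ne hp2
  refine stepA2 h1 hp2 hA hb hνD hD0 hD hmass haD hw (2 * α) (2 * δ) (mul_ne_zero h20 hα)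
    ?_ (fun ξ hξ => ?_)
  · refine le_trans (le_of_eq ?_) hzero
    congr 2
    funext U
    congr 1
    funext x
    have e : 2 * α * U + 2 * x + 2 * δ = 2 * (x + (α * U + δ)) := by ring
    rw [e]
  · have e : ∀ U : ZMod p, (2 * α * U + 2 * δ) / 2 = α * U + δ := by
      intro U
      have : 2 * α * U + 2 * δ = (α * U + δ) * 2 := by ring
      rw [this, mul_div_cancel_right₀ _ h20]
    simp only [e]
    exact hη ξ hξ

/-- step (c) -/
theorem stepC2 {p : ℕ} [Fact p.Prime] (h1 : H1Stmt) (hp2 : p ≠ 2) {ν C : ZMod p → ℝ} {K K' : ℕ}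
    {b c b' c' : ZMod p → ℝ} {r φ D0 : ℝ} (hC : AData ν C K K' b c b' c' r φ D0)
    {b3 c3 w : ZMod p → ℝ} {K3 : ℕ} (hb3 : Kernel K3 b3 c3) {aN : ℝ}
    (haN : meanR (fun t => ‖mean (fun x => ((ν x - 1 : ℝ) : ℂ) *
      ((ν (x + t) - 1 : ℝ) : ℂ))‖ ^ 2) ≤ aN)
    (hw : ∀ x, 0 ≤ w x ∧ w x ≤ 1) {θ : ℝ}
    (hzero : ‖Qf b3 w (fun x => (C x : ℂ)) (fun x => (C x : ℂ))‖ ≤ θ)
    {η3 : ℝ} (hη : ∀ ξ, c ξ ≠ 0 → meanR (fun k => b3 k * ‖ch (ξ * k) - 1‖ ^ 2) ≤ η3) :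
    meanR (fun m => cvR C b m ^ 2 * w (2 * m)) ≤
      K3 * (√(2 * (φ ^ 2 + (aN * (8 * D0 + 165888)) ^ ((1 : ℝ) / 4))) + 2 * φ) + 4 * r +
        8 * K * √η3 + θ := by
  have h20 := two_ne hp2
  have hφ := hC.phi_nonneg
  have haN0 : 0 ≤ aN := (meanR_nonneg _ fun _ => by positivity).trans haN
  have hD00 := hC.D0_nonneg
  have hr0 := hC.r0
  obtain ⟨u, hu⟩ : ∃ u : ZMod p → ℂ, u = fun x => (C x : ℂ) - conv (fun x => (C x : ℂ)) b' x :=
    ⟨_, rfl⟩
  have hcorr := corr_le ν hC.nu_nonneg hC.mass D0 hC.corr u (fun x => by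
    rw [hu]
    exact hC.corr_u x)
  have husm : ∀ ξ, ‖ft u ξ‖ ≤ φ := fun ξ => by
    rw [hu]
    exact hC.small ξ
  -- the trivial kernel
  have hone : ∀ x : ZMod p, (((fun _ => 1 : ZMod p → ℝ) x : ℝ) : ℂ) =
      ∑ ζ, (((fun ζ => if ζ = 0 then 1 else 0 : ZMod p → ℝ) ζ : ℝ) : ℂ) * ch (ζ * x) := by
    intro x
    have e1 : ∀ ζ : ZMod p, (((if ζ = 0 then 1 else 0 : ℝ) : ℝ) : ℂ) * ch (ζ * x) =
        if ζ = 0 then ch (ζ * x) else 0 := by
      intro ζ
      split_ifs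
      · rw [Complex.ofReal_one, one_mul]
      · rw [Complex.ofReal_zero, zero_mul]
    simp only [e1]
    rw [sum_ite_eq' univ (0 : ZMod p) (fun ζ => ch (ζ * x)), if_pos (mem_univ _), zero_mul,
      ch_zero, Complex.ofReal_one]
  have hcone : ∀ ζ : ZMod p, 0 ≤ (fun ζ => if ζ = 0 then 1 else 0 : ZMod p → ℝ) ζ := by
    intro ζ
    simp only
    split_ifs <;> norm_num
  -- first replacement
  have k1 : ‖Qf b3 w u (fun x => (C x : ℂ))‖ ≤
      K3 * √(2 * (φ ^ 2 + (aN * (8 * D0 + 165888)) ^ ((1 : ℝ) / 4))) := by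
    rw [Qf_expand hp2 hb3]
    refine (norm_sum_le _ _).trans ?_
    refine le_trans ?_ (mul_le_mul_of_nonneg_right (sum_c_le hb3) (Real.sqrt_nonneg _))
    rw [sum_mul]
    refine sum_le_sum fun ζ _ => ?_
    rw [norm_mul, Complex.norm_real, Real.norm_eq_abs, abs_of_nonneg (hb3.coeff ζ).1]
    refine mul_le_mul_of_nonneg_left ?_ (hb3.coeff ζ).1
    rw [mean_comm]
    have e0 := h1 p (fun y => (C y : ℂ) * ch (ζ / 2 * y)) (fun x => u x * ch (-(ζ / 2) * x))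
      (fun x => (w x : ℂ)) ν (fun _ => 1) (fun ζ => if ζ = 0 then 1 else 0) 1 1 0 φ aN
      (8 * D0 + 165888) one_ne_zero one_ne_zero (fun _ => zero_le_one) hone hcone hC.nu_nonneg
      (fun x => by
        rw [norm_mul, norm_ch, mul_one, mul_one, Complex.norm_real, Real.norm_eq_abs,
          abs_of_nonneg (hC.nn x)]
        exact hC.le x) (fun x => by
        rw [Complex.norm_real, Real.norm_eq_abs, abs_of_nonneg (hw x).1]
        exact (hw x).2) (fun ξ => by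
        rw [ft_twist]
        exact husm _) haN (by
        simp only [corr_twist]
        exact hcorr)
    have e1 : mean (fun y => mean (fun x => (u x * ch (-(ζ / 2) * x)) *
        ((C y : ℂ) * ch (ζ / 2 * y)) * (w (x + y) : ℂ))) =
        mean (fun x => mean (fun y => ((C x : ℂ) * ch (ζ / 2 * x)) *
        (u y * ch (-(ζ / 2) * y)) * (w (1 * x + 1 * y + 0) : ℂ))) := by
      congr 1
      funext x
      congr 1
      funext y
      rw [one_mul, one_mul, add_zero, add_comm x y]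
      ring
    rw [e1]
    refine Real.le_sqrt_of_sq_le (e0.trans ?_)
    have e2 : 0 ≤ φ ^ 2 + (aN * (8 * D0 + 165888)) ^ ((1 : ℝ) / 4) := by positivity
    refine mul_le_mul_of_nonneg_right ?_ e2
    simp only [mul_one]
    exact hC.mass
  -- second replacement
  have k2 : ‖Qf b3 w (conv (fun x => (C x : ℂ)) b') u‖ ≤ K3 * (2 * φ) := by
    rw [Qf_expand hp2 hb3]
    refine (norm_sum_le _ _).trans ?_
    refine le_trans ?_ (mul_le_mul_of_nonneg_right (sum_c_le hb3)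
      (by positivity : (0 : ℝ) ≤ 2 * φ))
    rw [sum_mul]
    refine sum_le_sum fun ζ _ => ?_
    rw [norm_mul, Complex.norm_real, Real.norm_eq_abs, abs_of_nonneg (hb3.coeff ζ).1]
    refine mul_le_mul_of_nonneg_left ?_ (hb3.coeff ζ).1
    have e0 := h1 p (fun x => (1 / 2 : ℂ) * (conv (fun x => (C x : ℂ)) b' x *
      ch (-(ζ / 2) * x))) (fun y => u y * ch (ζ / 2 * y))
      (fun x => (w x : ℂ)) (fun _ => 1) (fun _ => 1) (fun ζ => if ζ = 0 then 1 else 0) 1 1 0 φ 0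
      (8 * D0 + 165888) one_ne_zero one_ne_zero (fun _ => zero_le_one) hone hcone
      (fun _ => zero_le_one) (fun x => by
        rw [norm_mul, norm_mul, norm_ch, mul_one, mul_one]
        have := hC.two' x
        have e : ‖(1 / 2 : ℂ)‖ = 1 / 2 := by norm_num
        rw [e]
        linarith) (fun x => by
        rw [Complex.norm_real, Real.norm_eq_abs, abs_of_nonneg (hw x).1]
        exact (hw x).2) (fun ξ => by
        rw [ft_twist]
        exact husm _) (by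
        have e : (fun t : ZMod p => ‖mean (fun x : ZMod p => ((1 - 1 : ℝ) : ℂ) *
            ((1 - 1 : ℝ) : ℂ))‖ ^ 2) = fun _ => 0 := by
          funext t
          simp [mean]
        rw [e, meanR_const]) (by
        simp only [corr_twist]
        exact hcorr)
    have e1 : mean (fun x => mean (fun y => (conv (fun x => (C x : ℂ)) b' x *
        ch (-(ζ / 2) * x)) * (u y * ch (ζ / 2 * y)) * (w (x + y) : ℂ))) =
        2 * mean (fun x => mean (fun y => ((1 / 2 : ℂ) * (conv (fun x => (C x : ℂ)) b' x *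
        ch (-(ζ / 2) * x))) * (u y * ch (ζ / 2 * y)) * (w (1 * x + 1 * y + 0) : ℂ))) := by
      rw [← mean_mul_left]
      congr 1
      funext x
      rw [← mean_mul_left]
      congr 1
      funext y
      rw [one_mul, one_mul, add_zero]
      ring
    rw [e1, norm_mul]
    have e2 : ‖(2 : ℂ)‖ = 2 := by norm_num
    rw [e2]
    refine mul_le_mul_of_nonneg_left ?_ (by norm_num)
    refine abs_le_of_sq_le_sq' (e0.trans (le_of_eq ?_)) hφ |>.2
    simp only [mul_one]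
    rw [meanR_const, zero_mul, Real.zero_rpow (by norm_num)]
    ring
  have hC2 := meanR_norm_le _ r hr0 hC.close
  have k3 : ‖Qf b3 w (fun x => conv (fun x => (C x : ℂ)) b x -
      conv (fun x => (C x : ℂ)) b' x) (conv (fun x => (C x : ℂ)) b)‖ ≤ 2 * r :=
    Qf_le_left hb3 hw _ _ r hC2 hC.two
  have k4 : ‖Qf b3 w (conv (fun x => (C x : ℂ)) b') (fun x => conv (fun x => (C x : ℂ)) b x -
      conv (fun x => (C x : ℂ)) b' x)‖ ≤ 2 * r :=
    Qf_le_right hb3 hw _ _ r hC2 hC.two'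
  -- the zero
  obtain ⟨Q0, hQ0⟩ : ∃ Q : ℂ, Q = Qf b3 w (fun x => (C x : ℂ)) (fun x => (C x : ℂ)) := ⟨_, rfl⟩
  rw [← hQ0] at hzero
  have k6 := Qf_sub b3 w (fun x => (C x : ℂ)) (conv (fun x => (C x : ℂ)) b')
    (fun x => (C x : ℂ)) (conv (fun x => (C x : ℂ)) b')
  rw [← hQ0, ← hu] at k6
  have k7 := Qf_sub b3 w (conv (fun x => (C x : ℂ)) b) (conv (fun x => (C x : ℂ)) b')
    (conv (fun x => (C x : ℂ)) b) (conv (fun x => (C x : ℂ)) b')
  -- removal of the translations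
  obtain ⟨T, hT⟩ : ∃ T : ℂ, T = mean (fun k => mean (fun m => conv (fun x => (C x : ℂ)) b m *
    conv (fun x => (C x : ℂ)) b m * (b3 k : ℂ) * (w (2 * m) : ℂ))) := ⟨_, rfl⟩
  have k8 : ‖T - Qf b3 w (conv (fun x => (C x : ℂ)) b) (conv (fun x => (C x : ℂ)) b)‖ ≤
      8 * K * √η3 := by
    rw [hT]
    unfold Qf
    rw [← mean_sub]
    refine (norm_mean_le _).trans ?_
    have e1 : ∀ k, ‖mean (fun m => conv (fun x => (C x : ℂ)) b m *
        conv (fun x => (C x : ℂ)) b m * (b3 k : ℂ) * (w (2 * m) : ℂ)) -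
        mean (fun m => conv (fun x => (C x : ℂ)) b (m - k) *
        conv (fun x => (C x : ℂ)) b (m + k) * (b3 k : ℂ) * (w (2 * m) : ℂ))‖ ≤
        ∑ ξ ∈ univ.filter (fun ξ => c ξ ≠ 0), 8 * (b3 k * ‖ch (ξ * k) - 1‖) := by
      intro k
      rw [← mean_sub]
      refine (norm_mean_le _).trans ?_
      rw [← meanR_const (p := p) (∑ ξ ∈ univ.filter (fun ξ => c ξ ≠ 0),
        8 * (b3 k * ‖ch (ξ * k) - 1‖))]
      refine meanR_mono _ _ fun m => ?_
      have e2 : conv (fun x => (C x : ℂ)) b m * conv (fun x => (C x : ℂ)) b m * (b3 k : ℂ) *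
          (w (2 * m) : ℂ) - conv (fun x => (C x : ℂ)) b (m - k) *
          conv (fun x => (C x : ℂ)) b (m + k) * (b3 k : ℂ) * (w (2 * m) : ℂ) =
          -((conv (fun x => (C x : ℂ)) b (m - k) - conv (fun x => (C x : ℂ)) b m) *
            conv (fun x => (C x : ℂ)) b (m + k) +
            conv (fun x => (C x : ℂ)) b m * (conv (fun x => (C x : ℂ)) b (m + k) -
            conv (fun x => (C x : ℂ)) b m)) * (b3 k : ℂ) * (w (2 * m) : ℂ) := by ring
      rw [e2, norm_mul, norm_mul, norm_neg, Complex.norm_real, Complex.norm_real,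
        Real.norm_eq_abs, Real.norm_eq_abs, abs_of_nonneg (hb3.nonneg k),
        abs_of_nonneg (hw _).1]
      have e3 := hC.shift m k
      have e4 := hC.shift m (-k)
      rw [sub_neg_eq_add] at e4
      have e5 : ∀ ξ : ZMod p, ‖ch (ξ * -k) - 1‖ = ‖ch (ξ * k) - 1‖ := by
        intro ξ
        have f : ch (ξ * -k) - 1 = (starRingEnd ℂ) (ch (ξ * k) - 1) := by
          rw [map_sub, map_one, conj_ch, mul_neg]
        rw [f, RCLike.norm_conj]
      simp only [e5] at e4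
      obtain ⟨s0, hs0⟩ : ∃ s : ℝ, s = ∑ ξ ∈ univ.filter (fun ξ => c ξ ≠ 0),
        ‖ch (ξ * k) - 1‖ := ⟨_, rfl⟩
      rw [← hs0] at e3 e4
      have e6 : ‖(conv (fun x => (C x : ℂ)) b (m - k) - conv (fun x => (C x : ℂ)) b m) *
            conv (fun x => (C x : ℂ)) b (m + k) +
            conv (fun x => (C x : ℂ)) b m * (conv (fun x => (C x : ℂ)) b (m + k) -
            conv (fun x => (C x : ℂ)) b m)‖ ≤ 8 * s0 := by
        refine (norm_add_le _ _).trans ?_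
        rw [norm_mul, norm_mul]
        have f1 := mul_le_mul e3 (hC.two (m + k)) (norm_nonneg _)
          ((norm_nonneg _).trans e3)
        have f2 := mul_le_mul (hC.two m) e4 (norm_nonneg _) (by norm_num)
        linarith
      have e7 : ∑ ξ ∈ univ.filter (fun ξ => c ξ ≠ 0), 8 * (b3 k * ‖ch (ξ * k) - 1‖) =
          8 * s0 * b3 k := by
        rw [hs0, mul_sum, sum_mul]
        refine sum_congr rfl fun ξ _ => ?_
        ring
      rw [e7]
      have e8 := mul_le_mul_of_nonneg_right e6 (hb3.nonneg k)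
      refine le_trans ?_ e8
      exact mul_le_of_le_one_right (mul_nonneg (norm_nonneg _) (hb3.nonneg k)) (hw _).2
    refine (meanR_mono _ _ e1).trans ?_
    rw [meanR_sum]
    have e7 : ∀ ξ ∈ univ.filter (fun ξ => c ξ ≠ 0),
        meanR (fun k => 8 * (b3 k * ‖ch (ξ * k) - 1‖)) ≤ 8 * √η3 := by
      intro ξ hξ
      rw [meanR_mul_left]
      refine mul_le_mul_of_nonneg_left ?_ (by norm_num)
      have e8 := mean_cs b3 hb3.nonneg (fun k => ch (ξ * k) - 1)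
      rw [hb3.meanR_eq, one_mul] at e8
      exact Real.le_sqrt_of_sq_le (e8.trans (hη ξ (mem_filter.1 hξ).2))
    refine (sum_le_sum e7).trans ?_
    rw [sum_const, nsmul_eq_mul]
    have e8 : (((univ.filter (fun ζ => c ζ ≠ 0)).card : ℕ) : ℝ) ≤ K := by
      exact_mod_cast hC.ker.supp
    have e9 := mul_le_mul_of_nonneg_right e8 (by positivity : (0 : ℝ) ≤ 8 * √η3)
    linarith
  -- conclusion
  have k9 : T = ((meanR (fun m => cvR C b m ^ 2 * w (2 * m)) : ℝ) : ℂ) := by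
    rw [hT, ofReal_meanR]
    have e1 : ∀ k, mean (fun m => conv (fun x => (C x : ℂ)) b m *
        conv (fun x => (C x : ℂ)) b m * (b3 k : ℂ) * (w (2 * m) : ℂ)) =
        (b3 k : ℂ) * mean (fun m => ((cvR C b m ^ 2 * w (2 * m) : ℝ) : ℂ)) := by
      intro k
      rw [← mean_mul_left]
      congr 1
      funext m
      rw [conv_eq]
      push_cast
      ring
    simp only [e1]
    rw [mean_mul_right, ← ofReal_meanR b3, hb3.meanR_eq, Complex.ofReal_one, one_mul]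
  have k10 : meanR (fun m => cvR C b m ^ 2 * w (2 * m)) ≤ ‖T‖ := by
    rw [k9, Complex.norm_real]
    exact Real.le_norm_self _
  obtain ⟨Q1, hQ1⟩ : ∃ Q : ℂ, Q = Qf b3 w (conv (fun x => (C x : ℂ)) b)
    (conv (fun x => (C x : ℂ)) b) := ⟨_, rfl⟩
  obtain ⟨Q2, hQ2⟩ : ∃ Q : ℂ, Q = Qf b3 w (conv (fun x => (C x : ℂ)) b')
    (conv (fun x => (C x : ℂ)) b') := ⟨_, rfl⟩
  obtain ⟨E1, hE1⟩ : ∃ Q : ℂ, Q = Qf b3 w u (fun x => (C x : ℂ)) := ⟨_, rfl⟩
  obtain ⟨E2, hE2⟩ : ∃ Q : ℂ, Q = Qf b3 w (conv (fun x => (C x : ℂ)) b') u := ⟨_, rfl⟩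
  obtain ⟨E3, hE3⟩ : ∃ Q : ℂ, Q = Qf b3 w (fun x => conv (fun x => (C x : ℂ)) b x -
      conv (fun x => (C x : ℂ)) b' x) (conv (fun x => (C x : ℂ)) b) := ⟨_, rfl⟩
  obtain ⟨E4, hE4⟩ : ∃ Q : ℂ, Q = Qf b3 w (conv (fun x => (C x : ℂ)) b')
      (fun x => conv (fun x => (C x : ℂ)) b x - conv (fun x => (C x : ℂ)) b' x) := ⟨_, rfl⟩
  rw [← hE1] at k1 k6
  rw [← hE2] at k2 k6
  rw [← hE3] at k3 k7
  rw [← hE4] at k4 k7
  rw [← hQ1] at k7 k8
  rw [← hQ2] at k6 k7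
  have k11 : T = (T - Q1) + ((E3 + E4) - (E1 + E2)) + Q0 := by
    have : Q2 = Q0 - (E1 + E2) := by linear_combination -k6
    have e2 : Q1 = Q2 + (E3 + E4) := by linear_combination k7
    rw [e2, this]
    ring
  have k12 : ‖T‖ ≤ ‖T - Q1‖ + ((‖E3‖ + ‖E4‖) + (‖E1‖ + ‖E2‖)) + ‖Q0‖ := by
    calc ‖T‖ = ‖(T - Q1) + ((E3 + E4) - (E1 + E2)) + Q0‖ := by rw [← k11]
      _ ≤ ‖(T - Q1) + ((E3 + E4) - (E1 + E2))‖ + ‖Q0‖ := norm_add_le _ _
      _ ≤ ‖T - Q1‖ + ‖(E3 + E4) - (E1 + E2)‖ + ‖Q0‖ := by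
          have := norm_add_le (T - Q1) ((E3 + E4) - (E1 + E2))
          linarith
      _ ≤ ‖T - Q1‖ + (‖E3 + E4‖ + ‖E1 + E2‖) + ‖Q0‖ := by
          have := norm_sub_le (E3 + E4) (E1 + E2)
          linarith
      _ ≤ _ := by
          have e1 := norm_add_le E3 E4
          have e2 := norm_add_le E1 E2
          linarith
  linarith

end FA

end Pool.Agent.Lib.TwinAll
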