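import Mathlib
import Pool.Agent.Lib.TwinAll.Main73
import Pool.Agent.Lib.TwinAll.FG73
import Pool.Agent.Lib.TwinAll.StmtsG73

/-!
THEOREM A (MP_c6d112_nt) with the number of representations: counting.
-/

set_option autoImplicit false

namespace Pool.Agent.Lib.TwinAll

open Finset A81 FA

namespace Main

theorem kernel_le {p : ℕ} [NeZero p] {K : ℕ} {b c : ZMod p → ℝ} (h : Kernel K b c)
    (x : ZMod p) : b x ≤ K := by
  have h1 : ‖(b x : ℂ)‖ ≤ ∑ ζ, c ζ := by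
    rw [h.expand x]
    refine (norm_sum_le _ _).trans (sum_le_sum fun ζ _ => ?_)
    rw [norm_mul, norm_ch, mul_one, Complex.norm_real, Real.norm_eq_abs,
      abs_of_nonneg (h.coeff ζ).1]
  rw [Complex.norm_real, Real.norm_eq_abs, abs_of_nonneg (h.nonneg x)] at h1
  exact h1.trans (sum_c_le h)

/-- the mean of a function with small fibres -/
theorem small_mean {p : ℕ} [NeZero p] (F : ZMod p → ZMod p → ℝ) (V T : ℝ)
    (hV : ∀ m U, F m U ≤ V) (hV0 : 0 ≤ V)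
    (hcnt : ∀ m, ((univ.filter (fun U => F m U ≠ 0)).card : ℝ) ≤ T) :
    meanR (fun U => meanR (fun m => F m U)) ≤ V * T / p := by
  have h1 : ∀ m, ∑ U, F m U ≤ V * T := by
    intro m
    have h2 : ∑ U, F m U = ∑ U ∈ univ.filter (fun U => F m U ≠ 0), F m U := by
      rw [sum_filter]
      refine sum_congr rfl fun U _ => ?_
      split_ifs with h
      · rfl
      · exact not_not.1 h
    rw [h2]
    calc ∑ U ∈ univ.filter (fun U => F m U ≠ 0), F m U
        ≤ ∑ _U ∈ univ.filter (fun U => F m U ≠ 0), V := sum_le_sum fun U _ => hV m U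
      _ = ((univ.filter (fun U => F m U ≠ 0)).card : ℝ) * V := by rw [sum_const, nsmul_eq_mul]
      _ ≤ T * V := mul_le_mul_of_nonneg_right (hcnt m) hV0
      _ = V * T := mul_comm _ _
  have hp : (0 : ℝ) < p := castR_pos
  unfold meanR
  rw [← sum_div, sum_comm, div_div, div_le_div_iff₀ (by positivity) hp]
  have h3 : ∑ m, ∑ U, F m U ≤ p * (V * T) := by
    refine (sum_le_sum fun m _ => h1 m).trans ?_
    rw [sum_const, card_univ, ZMod.card, nsmul_eq_mul]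
  nlinarith

/-- numbers with few representations -/
def Bad2 (M : ℕ) (τ : ℝ) (C N : ℕ) (T : ℝ) (m : ℕ) : Prop :=
  1 ≤ m ∧ m ≤ M ∧ (reps τ C N (2 * m) : ℝ) < T

open Classical in
/-- the indicator function of the bad set at `y / 2` -/
noncomputable def w2 (M : ℕ) (τ : ℝ) (C N : ℕ) (T : ℝ) {p : ℕ} [Fact p.Prime]
    (y : ZMod p) : ℝ :=
  if Bad2 M τ C N T (y / 2).val then 1 else 0

theorem w2_mem (M : ℕ) (τ : ℝ) (C N : ℕ) (T : ℝ) {p : ℕ} [Fact p.Prime] (y : ZMod p) :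
    0 ≤ w2 M τ C N T y ∧ w2 M τ C N T y ≤ 1 := by
  unfold w2
  split_ifs <;> norm_num

theorem of_w2_ne {M : ℕ} {τ : ℝ} {C N : ℕ} {T : ℝ} {p : ℕ} [Fact p.Prime] (hp2 : p ≠ 2)
    {m : ZMod p} (h : w2 M τ C N T (2 * m) ≠ 0) : Bad2 M τ C N T m.val := by
  unfold w2 at h
  split_ifs at h with h1
  · rwa [mul_comm, mul_div_cancel_right₀ _ (two_ne hp2)] at h1
  · exact absurd rfl h

open Classical in
/-- the density of the bad set -/
theorem card_bad2 {M : ℕ} {τ : ℝ} {C N : ℕ} {T : ℝ} {p : ℕ} [Fact p.Prime] (hp2 : p ≠ 2)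
    (hM : M < p) :
    meanR (fun x : ZMod p => w2 M τ C N T (2 * x)) =
      (((Finset.Icc 1 M).filter (fun m => Bad2 M τ C N T m)).card : ℝ) / p := by
  unfold meanR
  congr 1
  have h1 : ∀ x : ZMod p, w2 M τ C N T (2 * x) = if Bad2 M τ C N T x.val then 1 else 0 := by
    intro x
    unfold w2
    rw [mul_comm, mul_div_cancel_right₀ _ (two_ne hp2)]
  simp only [h1]
  rw [sum_zmod_val (fun n => if Bad2 M τ C N T n then (1 : ℝ) else 0), ← sum_filter, sum_const,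
    nsmul_eq_mul, mul_one]
  congr 2
  ext n
  rw [mem_filter, mem_filter, Finset.mem_range, Finset.mem_Icc]
  unfold Bad2
  constructor
  · rintro ⟨h1, h2, h3, h4⟩
    exact ⟨⟨h2, h3⟩, h2, h3, h4⟩
  · rintro ⟨⟨h1, h2⟩, h3⟩
    exact ⟨by omega, h3⟩

/-- an injection into the representations -/
theorem card_le_reps {ι : Type*} (s : Finset ι) (g : ι → ℕ) (τ : ℝ) (C N n : ℕ)
    (h : ∀ i ∈ s, g i ≤ n ∧ Good τ C N (g i) ∧ Good τ C N (n - g i))
    (hinj : ∀ i ∈ s, ∀ j ∈ s, g i = g j → i = j) : s.card ≤ reps τ C N n := by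
  classical
  unfold reps
  refine Finset.card_le_card_of_injOn g (fun i hi => ?_) (fun i hi j hj hij => hinj i hi j hj hij)
  obtain ⟨h1, h2, h3⟩ := h i hi
  rw [Finset.mem_coe, mem_filter, Finset.mem_range]
  exact ⟨by omega, h2, h3⟩

/-- the fibres in step (a) -/
theorem fibre_A {z0 z C1 B C N M p : ℕ} [Fact p.Prime] (h : Par z0 z C1 B C N M p) {τ : ℝ}
    {Q : ℕ → Prop} {e : ℕ} (he : e ≤ 2)
    (hQ : ∀ x : ZMod p, fP z0 z M Q x ≠ 0 → Good τ C N (2 * x.val + e))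
    {α δ : ZMod p} (hα : α ≠ 0) {D : ZMod p → ℝ} {g : ZMod p → ℕ}
    (hD : ∀ U, D U ≠ 0 → 20 * g U ≤ p ∧ ((g U + e : ℕ) : ZMod p) = 2 * (α * U + δ) ∧
      Good τ C N (g U)) {T : ℝ} (hT : 0 ≤ T) (m : ZMod p) :
    ((univ.filter (fun U : ZMod p => fP z0 z M Q (m - (α * U + δ)) * D U *
      w2 M τ C N T (2 * m) ≠ 0)).card : ℝ) ≤ T := by
  have hp2 : p ≠ 2 := by
    have := h.p40
    omega
  by_cases hm : w2 M τ C N T (2 * m) = 0
  · have h0 : univ.filter (fun U : ZMod p => fP z0 z M Q (m - (α * U + δ)) * D U *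
        w2 M τ C N T (2 * m) ≠ 0) = ∅ := by
      refine filter_eq_empty_iff.2 fun U _ => ?_
      rw [hm, mul_zero]
      exact fun h => h rfl
    rw [h0, card_empty, Nat.cast_zero]
    exact hT
  · obtain ⟨k1, k2, k3⟩ := of_w2_ne hp2 hm
    have hM := h.M5
    have hp := h.p40
    have key : ∀ U ∈ univ.filter (fun U : ZMod p => fP z0 z M Q (m - (α * U + δ)) * D U *
        w2 M τ C N T (2 * m) ≠ 0), D U ≠ 0 ∧ fP z0 z M Q (m - (α * U + δ)) ≠ 0 ∧
        2 * m.val = 2 * (m - (α * U + δ)).val + e + g U := by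
      intro U hU
      have h1 := (mem_filter.1 hU).2
      have h2 : fP z0 z M Q (m - (α * U + δ)) ≠ 0 := fun h0 => h1 (by rw [h0]; ring)
      have h3 : D U ≠ 0 := fun h0 => h1 (by rw [h0]; ring)
      refine ⟨h3, h2, ?_⟩
      obtain ⟨hg1, hg2, hg3⟩ := hD U h3
      have hx := (of_fP_ne h2).2.1
      refine nat_eq (p := p) ?_ (by omega) (by omega)
      push_cast at hg2 ⊢
      have e1 : ((m.val : ℕ) : ZMod p) = m := ZMod.natCast_zmod_val _
      have e2 : (((m - (α * U + δ)).val : ℕ) : ZMod p) = m - (α * U + δ) :=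
        ZMod.natCast_zmod_val _
      rw [e1, e2]
      linear_combination -hg2
    refine le_trans ?_ k3.le
    have hc := card_le_reps (univ.filter (fun U : ZMod p => fP z0 z M Q (m - (α * U + δ)) *
      D U * w2 M τ C N T (2 * m) ≠ 0)) g τ C N (2 * m.val) (fun U hU => ?_)
      (fun U hU U' hU' hg => ?_)
    · exact_mod_cast hc
    · obtain ⟨h3, h2, h4⟩ := key U hU
      refine ⟨by omega, (hD U h3).2.2, ?_⟩
      have e5 : 2 * m.val - g U = 2 * (m - (α * U + δ)).val + e := by omega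
      rw [e5]
      exact hQ _ h2
    · obtain ⟨h3, -, -⟩ := key U hU
      obtain ⟨h3', -, -⟩ := key U' hU'
      have e1 := (hD U h3).2.1
      have e2 := (hD U' h3').2.1
      rw [hg, e2] at e1
      have e3 := mul_left_cancel₀ (two_ne hp2) e1
      have e4 : α * U = α * U' := by linear_combination -e3
      exact mul_left_cancel₀ hα e4

/-- the fibres in step (c) -/
theorem fibre_C {z0 z C1 B C N M p : ℕ} [Fact p.Prime] (h : Par z0 z C1 B C N M p) {τ : ℝ}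
    {T : ℝ} (hT : 0 ≤ T) (b3 : ZMod p → ℝ) (m : ZMod p) :
    ((univ.filter (fun k : ZMod p => fP z0 z M (QC z0 C1 τ) (m - k) *
      fP z0 z M (QC z0 C1 τ) (m + k) * b3 k * w2 M τ C N T (2 * m) ≠ 0)).card : ℝ) ≤ T := by
  have hp2 : p ≠ 2 := by
    have := h.p40
    omega
  by_cases hm : w2 M τ C N T (2 * m) = 0
  · have h0 : univ.filter (fun k : ZMod p => fP z0 z M (QC z0 C1 τ) (m - k) *
        fP z0 z M (QC z0 C1 τ) (m + k) * b3 k * w2 M τ C N T (2 * m) ≠ 0) = ∅ := by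
      refine filter_eq_empty_iff.2 fun U _ => ?_
      rw [hm, mul_zero]
      exact fun h => h rfl
    rw [h0, card_empty, Nat.cast_zero]
    exact hT
  · obtain ⟨k1, k2, k3⟩ := of_w2_ne hp2 hm
    have hM := h.M5
    have hp := h.p40
    have key : ∀ k ∈ univ.filter (fun k : ZMod p => fP z0 z M (QC z0 C1 τ) (m - k) *
        fP z0 z M (QC z0 C1 τ) (m + k) * b3 k * w2 M τ C N T (2 * m) ≠ 0),
        fP z0 z M (QC z0 C1 τ) (m - k) ≠ 0 ∧ fP z0 z M (QC z0 C1 τ) (m + k) ≠ 0 ∧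
        2 * m.val = (m - k).val + (m + k).val := by
      intro k hk
      have h1 := (mem_filter.1 hk).2
      have h2 : fP z0 z M (QC z0 C1 τ) (m - k) ≠ 0 := fun h0 => h1 (by rw [h0]; ring)
      have h3 : fP z0 z M (QC z0 C1 τ) (m + k) ≠ 0 := fun h0 => h1 (by rw [h0]; ring)
      refine ⟨h2, h3, ?_⟩
      have hx := (of_fP_ne h2).2.1
      have hy := (of_fP_ne h3).2.1
      refine nat_eq (p := p) ?_ (by omega) (by omega)
      push_cast
      have e1 : ((m.val : ℕ) : ZMod p) = m := ZMod.natCast_zmod_val _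
      have e2 : (((m - k).val : ℕ) : ZMod p) = m - k := ZMod.natCast_zmod_val _
      have e3 : (((m + k).val : ℕ) : ZMod p) = m + k := ZMod.natCast_zmod_val _
      rw [e1, e2, e3]
      ring
    refine le_trans ?_ k3.le
    have hc := card_le_reps (univ.filter (fun k : ZMod p => fP z0 z M (QC z0 C1 τ) (m - k) *
        fP z0 z M (QC z0 C1 τ) (m + k) * b3 k * w2 M τ C N T (2 * m) ≠ 0))
      (fun k => (m - k).val) τ C N (2 * m.val) (fun k hk => ?_)
      (fun k hk k' hk' hg => ?_)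
    · exact_mod_cast hc
    · obtain ⟨h2, h3, h4⟩ := key k hk
      refine ⟨by omega, good_C h h2, ?_⟩
      have e5 : 2 * m.val - (m - k).val = (m + k).val := by omega
      rw [e5]
      exact good_C h h3
    · have e1 : m - k = m - k' := ZMod.val_injective p hg
      exact sub_right_injective e1

/-- the mean in step (a) -/
theorem mean_A {z0 z C1 B C N M p : ℕ} [Fact p.Prime] (h : Par z0 z C1 B C N M p) {τ : ℝ}
    {Q : ℕ → Prop} {e : ℕ} (he : e ≤ 2)
    (hQ : ∀ x : ZMod p, fP z0 z M Q x ≠ 0 → Good τ C N (2 * x.val + e))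
    {α δ : ZMod p} (hα : α ≠ 0) {D νD b'' c'' : ZMod p → ℝ} {G : ℕ} (hb : Kernel G b'' c'')
    {V : ℝ} (hV : 0 ≤ V) (hνV : ∀ x : ZMod p, nu3 z0 z p x ≤ V) (hνD : ∀ x, 0 ≤ νD x ∧ νD x ≤ V)
    (hD0 : ∀ x, 0 ≤ D x ∧ D x ≤ νD x * b'' x) {g : ZMod p → ℕ}
    (hD : ∀ U, D U ≠ 0 → 20 * g U ≤ p ∧ ((g U + e : ℕ) : ZMod p) = 2 * (α * U + δ) ∧
      Good τ C N (g U)) {T : ℝ} (hT : 0 ≤ T) :
    ‖mean (fun U => mean (fun x => ((fP z0 z M Q x * D U *
      w2 M τ C N T (2 * (x + (α * U + δ))) : ℝ) : ℂ)))‖ ≤ V ^ 2 * G * T / p := by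
  have h1 : mean (fun U => mean (fun x => ((fP z0 z M Q x * D U *
      w2 M τ C N T (2 * (x + (α * U + δ))) : ℝ) : ℂ))) =
      ((meanR (fun U => meanR (fun m => fP z0 z M Q (m - (α * U + δ)) * D U *
        w2 M τ C N T (2 * m))) : ℝ) : ℂ) := by
    rw [ofReal_meanR]
    congr 1
    funext U
    rw [ofReal_meanR, ← mean_shift (fun m => ((fP z0 z M Q (m - (α * U + δ)) * D U *
        w2 M τ C N T (2 * m) : ℝ) : ℂ)) (α * U + δ)]
    congr 1
    funext x
    rw [add_sub_cancel_right]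
  have h2 : 0 ≤ meanR (fun U => meanR (fun m => fP z0 z M Q (m - (α * U + δ)) * D U *
        w2 M τ C N T (2 * m))) :=
    meanR_nonneg _ fun U => meanR_nonneg _ fun m =>
      mul_nonneg (mul_nonneg (fP_nonneg _ _ _ _ _) (hD0 U).1) (w2_mem _ _ _ _ _ _).1
  rw [h1, Complex.norm_real, Real.norm_eq_abs, abs_of_nonneg h2]
  have hG0 : (0 : ℝ) ≤ G := Nat.cast_nonneg _
  refine small_mean (fun m U => fP z0 z M Q (m - (α * U + δ)) * D U * w2 M τ C N T (2 * m))
    (V ^ 2 * G) T (fun m U => ?_) (by positivity) (fun m => fibre_A h he hQ hα hD hT m)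
  have e1 : fP z0 z M Q (m - (α * U + δ)) ≤ V := (fP_le _ _ _ _ _).trans (hνV _)
  have e2 : D U ≤ V * G := (hD0 U).2.trans (mul_le_mul (hνD U).2 (kernel_le hb U)
    (hb.nonneg U) hV)
  have e3 := mul_le_mul e1 e2 (hD0 U).1 hV
  have e4 : 0 ≤ fP z0 z M Q (m - (α * U + δ)) * D U :=
    mul_nonneg (fP_nonneg _ _ _ _ _) (hD0 U).1
  have e5 := mul_le_of_le_one_right e4 (w2_mem M τ C N T (2 * m)).2
  linarith

/-- the mean in step (c) -/
theorem mean_C {z0 z C1 B C N M p : ℕ} [Fact p.Prime] (h : Par z0 z C1 B C N M p) {τ : ℝ}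
    {b3 c3 : ZMod p → ℝ} {K3 : ℕ} (hb : Kernel K3 b3 c3)
    {V : ℝ} (hV : 0 ≤ V) (hνV : ∀ x : ZMod p, nu3 z0 z p x ≤ V) {T : ℝ} (hT : 0 ≤ T) :
    ‖Qf b3 (w2 M τ C N T) (fun x => ((fP z0 z M (QC z0 C1 τ) x : ℝ) : ℂ))
      (fun x => ((fP z0 z M (QC z0 C1 τ) x : ℝ) : ℂ))‖ ≤ V ^ 2 * K3 * T / p := by
  have h1 : Qf b3 (w2 M τ C N T) (fun x => ((fP z0 z M (QC z0 C1 τ) x : ℝ) : ℂ))
      (fun x => ((fP z0 z M (QC z0 C1 τ) x : ℝ) : ℂ)) =
      ((meanR (fun k => meanR (fun m => fP z0 z M (QC z0 C1 τ) (m - k) *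
        fP z0 z M (QC z0 C1 τ) (m + k) * b3 k * w2 M τ C N T (2 * m))) : ℝ) : ℂ) := by
    unfold Qf
    rw [ofReal_meanR]
    congr 1
    funext k
    rw [ofReal_meanR]
    congr 1
    funext m
    push_cast
    rfl
  have h2 : 0 ≤ meanR (fun k => meanR (fun m => fP z0 z M (QC z0 C1 τ) (m - k) *
        fP z0 z M (QC z0 C1 τ) (m + k) * b3 k * w2 M τ C N T (2 * m))) :=
    meanR_nonneg _ fun k => meanR_nonneg _ fun m =>
      mul_nonneg (mul_nonneg (mul_nonneg (fP_nonneg _ _ _ _ _) (fP_nonneg _ _ _ _ _))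
        (hb.nonneg k)) (w2_mem _ _ _ _ _ _).1
  rw [h1, Complex.norm_real, Real.norm_eq_abs, abs_of_nonneg h2]
  have hG0 : (0 : ℝ) ≤ K3 := Nat.cast_nonneg _
  refine small_mean (fun m k => fP z0 z M (QC z0 C1 τ) (m - k) *
        fP z0 z M (QC z0 C1 τ) (m + k) * b3 k * w2 M τ C N T (2 * m))
    (V ^ 2 * K3) T (fun m k => ?_) (by positivity) (fun m => fibre_C h hT b3 m)
  have e1 : fP z0 z M (QC z0 C1 τ) (m - k) ≤ V := (fP_le _ _ _ _ _).trans (hνV _)
  have e2 : fP z0 z M (QC z0 C1 τ) (m + k) ≤ V := (fP_le _ _ _ _ _).trans (hνV _)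
  have e3 := mul_le_mul e1 e2 (fP_nonneg _ _ _ _ _) hV
  have e4 := mul_le_mul e3 (kernel_le hb k) (hb.nonneg k) (by positivity)
  have e5 : 0 ≤ fP z0 z M (QC z0 C1 τ) (m - k) * fP z0 z M (QC z0 C1 τ) (m + k) * b3 k :=
    mul_nonneg (mul_nonneg (fP_nonneg _ _ _ _ _) (fP_nonneg _ _ _ _ _)) (hb.nonneg k)
  have e6 := mul_le_of_le_one_right e5 (w2_mem M τ C N T (2 * m)).2
  have e7 : V * V * K3 = V ^ 2 * K3 := by ring
  linarith

end Main

end Pool.Agent.Lib.TwinAll
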