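import Mathlib
import Pool.Agent.Lib.TwinAll.MainC73

/-!
THEOREM A (MP_c6d112_nt) with the number of representations: final assembly.
-/

set_option autoImplicit false

namespace Pool.Agent.Lib.TwinAll

open Finset A81 FA

namespace Main

/-- conclusion of `FDStmt2` -/
def FDConc2 (G : ℕ) (η a : ℝ) (C1 B z p : ℕ) [Fact p.Prime] (S : Finset (ZMod p)) (τ : ℝ)
    (e : ℕ) : Prop :=
  ∃ (D νD b'' c'' : ZMod p → ℝ) (α δ : ZMod p) (g : ZMod p → ℕ), Kernel G b'' c'' ∧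
      (∀ x, 0 ≤ νD x ∧ νD x ≤ C1 * Real.log z ^ 3) ∧ (∀ x, 0 ≤ D x ∧ D x ≤ νD x * b'' x) ∧
      meanR (fun t => ‖mean (fun x => ((νD x - 1 : ℝ) : ℂ) *
        ((νD (x + t) - 1 : ℝ) : ℂ))‖ ^ 2) ≤ a ∧
      meanR (fun x => νD x * b'' x) ≤ 2 ∧ 1 / 50 ≤ meanR D ∧ α ≠ 0 ∧
      (∀ U, D U ≠ 0 → 20 * g U ≤ p ∧ ((g U + e : ℕ) : ZMod p) = 2 * (α * U + δ) ∧
        ∀ C N : ℕ, C1 + B + 1 ≤ C → N ≤ p → Good τ C N (g U)) ∧
      ∀ ξ ∈ S, meanR (fun U => D U * ‖ch (ξ * (α * U + δ)) - 1‖) ≤ η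

theorem evD2 (hFD : FDStmt2) (K : ℕ) (η : ℝ) (hη : 0 < η) : ∃ G : ℕ, ∀ a : ℝ, 0 < a →
    Ev (fun _ C1 B z p => ∀ _ : Fact p.Prime, ∀ S : Finset (ZMod p), S.card ≤ K →
      ∀ τ : ℝ, (τ = 1 ∨ τ = -1) → ∀ e : ℕ, (e = 0 ∨ e = 2) →
        FDConc2 G η a C1 B z p S τ e) := by
  obtain ⟨G, h⟩ := hFD K η hη
  refine ⟨G, fun a ha => ?_⟩
  obtain ⟨Bs, zs, h1⟩ := h a ha
  refine ⟨Bs, zs, fun z0 hz0 => ?_⟩
  obtain ⟨C0, C2, hC0⟩ := h1 z0 hz0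
  refine ⟨max C0 ⌈C2⌉₊, fun C1 hC1 B => ?_⟩
  obtain ⟨z1, hz1⟩ := hC0 B
  refine ⟨max z1 1, fun z hz p hp1 hp2 hp S hS τ hτ e he => ?_⟩
  obtain ⟨D, νD, b'', c'', α, δ, g, h1, h2, h3, h4, h5, h6, h7, h8, h9⟩ :=
    hz1 z ((le_max_left _ _).trans hz) p hp1 hp2 S hS τ hτ e he
  have hC01 : C0 ≤ C1 := (le_max_left _ _).trans hC1
  have hC2 : C2 ≤ C1 := by
    refine (Nat.le_ceil C2).trans ?_
    exact_mod_cast (le_max_right _ _).trans hC1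
  have hz1 : 1 ≤ z := (le_max_right _ _).trans hz
  have hlog : 0 ≤ Real.log z := Real.log_nonneg (by exact_mod_cast hz1)
  exact ⟨D, νD, b'', c'', α, δ, g, h1, fun x => ⟨(h2 x).1, (h2 x).2.trans
    (mul_le_mul_of_nonneg_right hC2 (by positivity))⟩, h3, h4, h5, h6, h7, fun U hU =>
    ⟨(h8 U hU).1, (h8 U hU).2.1, fun C N hC' hN => (h8 U hU).2.2 C N (by omega) hN⟩, h9⟩

theorem evV (hV : VV2Stmt) : Ev (fun z0 C1 _ z p => ∀ x : ZMod p,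
    nu3 z0 z p x ≤ C1 * Real.log z ^ 3) := by
  obtain ⟨zs, h⟩ := hV
  refine ⟨0, zs, fun z0 hz0 => ?_⟩
  obtain ⟨C2, hC20, h1⟩ := h z0 hz0
  refine ⟨⌈C2⌉₊, fun C1 hC1 B => ⟨2, fun z hz p _ _ x => ?_⟩⟩
  have hC2 : C2 ≤ C1 := by
    refine (Nat.le_ceil C2).trans ?_
    exact_mod_cast hC1
  have hlog : 0 ≤ Real.log z := Real.log_nonneg (by exact_mod_cast (by omega : 1 ≤ z))
  have h2 := h1 z hz (![1, 1, 1] : Fin 3 → ℤ) ![0, 1, 2]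
    (fun j => (forms_ok (B := 0) (z0 := z0) hz j).2.2) (x.val : ℤ)
  exact h2.trans (mul_le_mul_of_nonneg_right hC2 (by positivity))

/-- the bound of step (a) -/
theorem useA2 (h1 : H1Stmt) {z0 z C1 B C N M p : ℕ} [Fact p.Prime] (hP : Par z0 z C1 B C N M p)
    {τ : ℝ} {Q : ℕ → Prop} {e : ℕ} (he : e ≤ 2)
    (hQ : ∀ x : ZMod p, fP z0 z M Q x ≠ 0 → Good τ C N (2 * x.val + e))
    (hνV : ∀ x : ZMod p, nu3 z0 z p x ≤ C1 * Real.log z ^ 3) {T : ℝ} (hT : 0 ≤ T)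
    {ν : ZMod p → ℝ} {K K' : ℕ} {b c b' c' : ZMod p → ℝ} {r φ D0 : ℝ}
    (hA : AData ν (fP z0 z M Q) K K' b c b' c' r φ D0) {G : ℕ} {η a : ℝ}
    (hD : FDConc2 G η a C1 B z p (univ.filter (fun ξ => c ξ ≠ 0)) τ e) :
    meanR (fun x : ZMod p => cvR (fP z0 z M Q) b x * w2 M τ C N T (2 * x)) ≤
      50 * (√(2 * G * (φ ^ 2 + (a * (8 * D0 + 165888)) ^ ((1 : ℝ) / 4))) + 2 * r +
        2 * K * η + (C1 * Real.log z ^ 3) ^ 2 * G * T / p) := by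
  obtain ⟨D, νD, b'', c'', α, δ, g, k1, k2, k3, k4, k5, k6, k7, k8, k9⟩ := hD
  have hp2 : p ≠ 2 := by
    have := hP.p40
    omega
  have hC := hP.C
  have hz2 := hP.z2
  have hlog : 0 ≤ Real.log z := Real.log_nonneg (by exact_mod_cast (by omega : 1 ≤ z))
  have k8' : ∀ U, D U ≠ 0 → 20 * g U ≤ p ∧ ((g U + e : ℕ) : ZMod p) = 2 * (α * U + δ) ∧
      Good τ C N (g U) := fun U hU => ⟨(k8 U hU).1, (k8 U hU).2.1,
      (k8 U hU).2.2 C N (by omega) hP.Np⟩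
  have k := stepA2' h1 hp2 hA k1 (fun x => (k2 x).1) (fun U => (k3 U).1) (fun U => (k3 U).2) k5 k4
    (w2_mem M τ C N T) α δ k7
    (mean_A hP he hQ k7 k1 (V := C1 * Real.log z ^ 3) (by positivity) hνV k2 k3 k8' hT)
    (η := η) (fun ξ hξ => k9 ξ (mem_filter.2 ⟨mem_univ _, hξ⟩))
  have h0 : 0 ≤ meanR (fun x : ZMod p => cvR (fP z0 z M Q) b x * w2 M τ C N T (2 * x)) :=
    meanR_nonneg _ fun x => mul_nonneg (cvR_nonneg _ _ (fun x => hA.nn x) hA.ker.nonneg x)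
      (w2_mem M τ C N T _).1
  nlinarith

/-- the density of the bad set -/
theorem core2 (h1 : H1Stmt) {z0 z C1 B C N M p : ℕ} [Fact p.Prime] (hP : Par z0 z C1 B C N M p)
    {τ : ℝ} (hνV : ∀ x : ZMod p, nu3 z0 z p x ≤ C1 * Real.log z ^ 3) {T : ℝ} (hT : 0 ≤ T)
    {ν : ZMod p → ℝ} {K K' : ℕ} {b c b' c' : ZMod p → ℝ} {r φ D0 : ℝ}
    (hA : AData ν (fP z0 z M (QA z0 C1 τ)) K K' b c b' c' r φ D0)
    (hB : AData ν (fP z0 z M (QB z0 C1 τ)) K K' b c b' c' r φ D0)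
    (hC : AData ν (fP z0 z M (QC z0 C1 τ)) K K' b c b' c' r φ D0)
    {G : ℕ} {η a : ℝ}
    (hDA : FDConc2 G η a C1 B z p (univ.filter (fun ξ => c ξ ≠ 0)) τ 0)
    (hDB : FDConc2 G η a C1 B z p (univ.filter (fun ξ => c ξ ≠ 0)) τ 2)
    (haN : meanR (fun t => ‖mean (fun x => ((ν x - 1 : ℝ) : ℂ) *
      ((ν (x + t) - 1 : ℝ) : ℂ))‖ ^ 2) ≤ a)
    {b3 c3 : ZMod p → ℝ} {K3 : ℕ} (hb3 : Kernel K3 b3 c3) {η3 : ℝ}
    (hη3 : ∀ ξ, c ξ ≠ 0 → meanR (fun k => b3 k * ‖ch (ξ * k) - 1‖ ^ 2) ≤ η3) {s'' : ℝ}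
    (hbal : 1 / 2 * meanR (fun x : ZMod p => w2 M τ C N T (2 * x)) - s'' ≤
      meanR (fun x : ZMod p => cvR (fun x => fP z0 z M (QA z0 C1 τ) x +
        (fP z0 z M (QB z0 C1 τ) x + fP z0 z M (QC z0 C1 τ) x)) b x * w2 M τ C N T (2 * x)))
    {s s' : ℝ}
    (hs : 50 * (√(2 * G * (φ ^ 2 + (a * (8 * D0 + 165888)) ^ ((1 : ℝ) / 4))) + 2 * r +
        2 * K * η + (C1 * Real.log z ^ 3) ^ 2 * G * T / p) ≤ s)
    (hs' : K3 * (√(2 * (φ ^ 2 + (a * (8 * D0 + 165888)) ^ ((1 : ℝ) / 4))) + 2 * φ) + 4 * r +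
        8 * K * √η3 + (C1 * Real.log z ^ 3) ^ 2 * K3 * T / p ≤ s') :
    meanR (fun x : ZMod p => w2 M τ C N T (2 * x)) ≤ 2 * (s'' + 2 * s + √s') := by
  have hp2 : p ≠ 2 := by
    have := hP.p40
    omega
  have hz2 := hP.z2
  have hlog : 0 ≤ Real.log z := Real.log_nonneg (by exact_mod_cast (by omega : 1 ≤ z))
  refine finish' (w2_mem M τ C N T)
    ((useA2 h1 hP (by omega) (fun x hx => good_A hP hx) hνV hT hA hDA).trans hs)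
    ((useA2 h1 hP (by omega) (fun x hx => good_B hP hx) hνV hT hB hDB).trans hs)
    ((stepC2 h1 hp2 hC hb3 haN (w2_mem M τ C N T)
      (mean_C hP hb3 (V := C1 * Real.log z ^ 3) (by positivity) hνV hT) hη3).trans hs') hbal

/-- the count -/
theorem count_bad2 {N M C : ℕ} {τ T : ℝ} (hM : M = N / 2) (F : Finset ℕ)
    (hF : ∀ n ∈ F, 1 ≤ n ∧ n ≤ N ∧ Even n ∧ (reps τ C N n : ℝ) < T)
    (F' : Finset ℕ) (hF' : ∀ m, Bad2 M τ C N T m → m ∈ F') :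
    F.card ≤ F'.card := by
  refine Finset.card_le_card_of_injOn (fun n => n / 2) (fun n hn => ?_) (fun n hn n' hn' h => ?_)
  · obtain ⟨h1, h2, ⟨k, hk⟩, h4⟩ := hF n hn
    show n / 2 ∈ F'
    apply hF'
    have e : 2 * (n / 2) = n := by omega
    refine ⟨by omega, by omega, ?_⟩
    rw [e]
    exact h4
  · obtain ⟨-, -, ⟨k, hk⟩, -⟩ := hF n hn
    obtain ⟨-, -, ⟨k', hk'⟩, -⟩ := hF n' hn'
    simp only at h
    omega

/-- the size of the error term -/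
theorem err_le {C1 G z p N C : ℕ} {t : ℝ} (ht : 0 < t) (hz : 1 ≤ z) (hzN : z ≤ N) (hN : 3 ≤ N)
    (hNp : N ≤ p) (hC : (C1 : ℝ) ^ 2 * G / t ≤ C) (hC0 : 0 < C) :
    (C1 * Real.log z ^ 3) ^ 2 * G * (N / (C * Real.log N ^ 6)) / p ≤ t := by
  have hN0 : (0 : ℝ) < N := by exact_mod_cast (by omega : 0 < N)
  have hp0 : (0 : ℝ) < p := by exact_mod_cast (by omega : 0 < p)
  have hC0' : (0 : ℝ) < C := by exact_mod_cast hC0
  have hlz : 0 ≤ Real.log z := Real.log_nonneg (by exact_mod_cast hz)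
  have hlN : 0 < Real.log N := Real.log_pos (by exact_mod_cast (by omega : 1 < N))
  have h1 : Real.log z ≤ Real.log N :=
    Real.log_le_log (by exact_mod_cast (by omega : 0 < z)) (by exact_mod_cast hzN)
  have h2 : Real.log z ^ 6 ≤ Real.log N ^ 6 := pow_le_pow_left₀ hlz h1 6
  have h3 : (C1 : ℝ) ^ 2 * G ≤ C * t := by rwa [div_le_iff₀ ht] at hC
  have hNp' : (N : ℝ) ≤ p := by exact_mod_cast hNp
  have e : (C1 * Real.log z ^ 3) ^ 2 * G * (N / (C * Real.log N ^ 6)) / p =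
      ((C1 : ℝ) ^ 2 * G) * (N / p) * (Real.log z ^ 6 / Real.log N ^ 6) / C := by
    field_simp
  rw [e, div_le_iff₀ hC0']
  have e1 : (N : ℝ) / p ≤ 1 := by rwa [div_le_one hp0]
  have e2 : Real.log z ^ 6 / Real.log N ^ 6 ≤ 1 := by rwa [div_le_one (by positivity)]
  have e3 : (C1 : ℝ) ^ 2 * G * (N / p) ≤ (C1 : ℝ) ^ 2 * G :=
    mul_le_of_le_one_right (by positivity) e1
  have e4 : (C1 : ℝ) ^ 2 * G * (N / p) * (Real.log z ^ 6 / Real.log N ^ 6) ≤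
      (C1 : ℝ) ^ 2 * G * (N / p) := mul_le_of_le_one_right (by positivity) e2
  linarith

end Main

open Main in
theorem MainThm2 (h1 : H1Stmt) (h2 : H2Stmt) (h3 : H3Stmt) (hS3 : S3Stmt) (hS4 : S4Stmt)
    (hV : VV2Stmt) (hFD : FDStmt2) (hFB : FBStmt) : MainStmt2 := by
  classical
  intro ε hε τ hτ
  obtain ⟨β, hβ⟩ : ∃ β : ℝ, β = ε / 5 := ⟨_, rfl⟩
  have hβ0 : 0 < β := by rw [hβ]; positivity
  obtain ⟨t, ht⟩ : ∃ t : ℝ, t = β / 3200 := ⟨_, rfl⟩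
  have ht0 : 0 < t := by rw [ht]; positivity
  obtain ⟨t', ht'⟩ : ∃ t' : ℝ, t' = β ^ 2 / 256 := ⟨_, rfl⟩
  have ht'0 : 0 < t' := by rw [ht']; positivity
  obtain ⟨εb, hεb, hFB'⟩ := evB hFB (β / 8) (by positivity)
  have hηA : ∀ K : ℕ, 0 < t / (2 * ((K : ℝ) + 1)) := fun K => by positivity
  choose G hG using fun K : ℕ => evD2 hFD K (t / (2 * ((K : ℝ) + 1))) (hηA K)
  have hη3 : ∀ K : ℕ, 0 < (t' / (8 * ((K : ℝ) + 1))) ^ 2 := fun K => by positivity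
  choose K3 hK3 using fun K : ℕ => h2 K ((t' / (8 * ((K : ℝ) + 1))) ^ 2) (hη3 K)
  obtain ⟨Φ, hΦ⟩ : ∃ Φ : ℕ → ℝ, Φ = fun K => min (t / (2 * ((G K : ℝ) + 1)))
    (t' / (4 * ((K3 K : ℝ) + 1))) := ⟨_, rfl⟩
  have hΦ0 : ∀ K, 0 < Φ K := fun K => by
    rw [hΦ]
    exact lt_min (by positivity) (by positivity)
  have hΦ1 : ∀ K, Φ K ≤ t / (2 * ((G K : ℝ) + 1)) := fun K => by
    rw [hΦ]
    exact min_le_left _ _
  have hΦ2 : ∀ K, Φ K ≤ t' / (4 * ((K3 K : ℝ) + 1)) := fun K => by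
    rw [hΦ]
    exact min_le_right _ _
  obtain ⟨ε3, hε3⟩ : ∃ ε3 : ℝ, ε3 = min (min εb (t / 2)) (t' / 4) := ⟨_, rfl⟩
  have hε30 : 0 < ε3 := by
    rw [hε3]
    exact lt_min (lt_min hεb (by positivity)) (by positivity)
  have hε31 : ε3 ≤ εb := by
    rw [hε3]
    exact (min_le_left _ _).trans (min_le_left _ _)
  have hε32 : ε3 ≤ t / 2 := by
    rw [hε3]
    exact (min_le_left _ _).trans (min_le_right _ _)
  have hε33 : ε3 ≤ t' / 4 := by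
    rw [hε3]
    exact min_le_right _ _
  obtain ⟨Kmax, ε0, hε0, hH⟩ := h3 ε3 hε30 Φ hΦ0
  obtain ⟨K0, -, hK0⟩ := Finset.exists_min_image (Finset.range (Kmax + 1)) Φ
    ⟨0, Finset.mem_range.2 (by omega)⟩
  obtain ⟨m, hm⟩ : ∃ m : ℝ, m = Φ K0 := ⟨_, rfl⟩
  have hm0 : 0 < m := by rw [hm]; exact hΦ0 K0
  obtain ⟨a, ha⟩ : ∃ a : ℝ, a = m ^ 8 / 166144 := ⟨_, rfl⟩
  have ha0 : 0 < a := by rw [ha]; positivity
  have ham : (a * (8 * 32 + 165888)) ^ ((1 : ℝ) / 4) = m ^ 2 := by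
    have e1 : a * (8 * 32 + 165888) = (m ^ 2) ^ (4 : ℝ) := by
      rw [ha, show ((4 : ℝ)) = ((4 : ℕ) : ℝ) by norm_num, Real.rpow_natCast]
      ring
    rw [e1, ← Real.rpow_mul (by positivity)]
    norm_num
  obtain ⟨ε1, hε1⟩ : ∃ ε1 : ℝ, ε1 = min ε0 1 := ⟨_, rfl⟩
  have hε10 : 0 < ε1 := by
    rw [hε1]
    exact lt_min hε0 one_pos
  -- bounds for `G K`, `K3 K`
  obtain ⟨Gm, hGm⟩ : ∃ Gm : ℕ, Gm = ∑ K ∈ Finset.range (Kmax + 1), (G K + K3 K) := ⟨_, rfl⟩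
  have hGle : ∀ K ≤ Kmax, G K + K3 K ≤ Gm := fun K hK => by
    rw [hGm]
    exact Finset.single_le_sum (f := fun K => G K + K3 K) (fun _ _ => Nat.zero_le _)
      (Finset.mem_range.2 (by omega))
  have hE := ((((ev3 hS3 a ha0).and (ev4 hS4 ε1 hε10)).and (hFB' Kmax)).and
    (Ev.all_le _ Kmax (fun K _ => hG K a ha0))).and (evV hV)
  obtain ⟨Bs, zs, hE1⟩ := hE
  obtain ⟨C1, hE2⟩ := hE1 zs le_rfl
  obtain ⟨B0, hB0⟩ : ∃ B0, B0 = Bs + 2 := ⟨_, rfl⟩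
  obtain ⟨z1, hE3⟩ := hE2 C1 le_rfl (2 * B0)
  obtain ⟨Z, hZ⟩ : ∃ Z, Z = max z1 2 := ⟨_, rfl⟩
  obtain ⟨X, hX⟩ : ∃ X : ℕ, X = ⌈(C1 : ℝ) ^ 2 * Gm / min t t'⌉₊ := ⟨_, rfl⟩
  obtain ⟨C, hC⟩ : ∃ C, C = 2 * C1 + 2 * B0 + 1 + 4 * Z ^ B0 + 100 + X := ⟨_, rfl⟩
  have hCX : ∀ s : ℝ, min t t' ≤ s → ∀ g : ℕ, g ≤ Gm → (C1 : ℝ) ^ 2 * g / s ≤ C := by
    intro s hs g hg
    have e0 : 0 < min t t' := lt_min ht0 ht'0
    have e1 : (C1 : ℝ) ^ 2 * g / s ≤ (C1 : ℝ) ^ 2 * Gm / min t t' := by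
      have : (g : ℝ) ≤ Gm := by exact_mod_cast hg
      exact div_le_div₀ (by positivity) (mul_le_mul_of_nonneg_left this (by positivity)) e0 hs
    refine e1.trans ((Nat.le_ceil _).trans ?_)
    rw [← hX]
    exact_mod_cast (by omega : X ≤ C)
  refine ⟨C, by omega, fun N hN => ?_⟩
  obtain ⟨M, hM⟩ : ∃ M, M = N / 2 := ⟨_, rfl⟩
  have hZ2 : 2 ≤ Z := by rw [hZ]; exact le_max_right _ _
  obtain ⟨p, z, hp, hp1, hp2, hz1, hz2, hz3⟩ := exists_pz B0 Z M (by omega) hZ2 (by omega)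
  have hpF : Fact p.Prime := ⟨hp⟩
  have hzz1 : z1 ≤ z := by
    have : z1 ≤ Z := by rw [hZ]; exact le_max_left _ _
    omega
  have hz20 : 2 ≤ z := hZ2.trans hz1
  have hzBs : z ^ Bs ≤ p := (Nat.pow_le_pow_right (by omega) (by omega)).trans hz2
  have hzN : z ≤ N := by
    have e1 : z ^ 2 ≤ z ^ B0 := Nat.pow_le_pow_right (by omega) (by omega)
    have e2 : p ≤ 5 * N := by omega
    have e3 : z ^ 2 ≤ N ^ 2 := by
      calc z ^ 2 ≤ 5 * N := (e1.trans hz2).trans e2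
        _ ≤ N * N := Nat.mul_le_mul_right _ (by omega)
        _ = N ^ 2 := (sq N).symm
    exact (Nat.pow_le_pow_iff_left two_ne_zero).1 e3
  obtain ⟨T, hTdef⟩ : ∃ T : ℝ, T = N / (C * Real.log N ^ 6) := ⟨_, rfl⟩
  have hlN : 0 ≤ Real.log N := Real.log_nonneg (by exact_mod_cast (by omega : 1 ≤ N))
  have hT : 0 ≤ T := by
    rw [hTdef]
    positivity
  obtain ⟨⟨⟨⟨⟨hc1, hc2⟩, hf⟩, hbal⟩, hfd⟩, hνV⟩ := (fun x => x) (show
    ((((meanR (fun t : ZMod p => ‖mean (fun x : ZMod p => ((nu3 zs z p x - 1 : ℝ) : ℂ) *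
      ((nu3 zs z p (x + t) - 1 : ℝ) : ℂ))‖ ^ 2) ≤ a ∧
    meanR (fun t : ZMod p => ‖mean (fun x : ZMod p => ((nu3 zs z p x : ℝ) : ℂ) *
      ((nu3 zs z p (x + t) : ℝ) : ℂ))‖ ^ 4) ≤ 32) ∧
    (∀ ζ : ZMod p, ‖mean (fun x : ZMod p => ((nu3 zs z p x - 1 : ℝ) : ℂ) *
      ch (ζ * x))‖ ≤ ε1)) ∧ FBConc (β / 8) εb Kmax zs C1 z p) ∧
    (∀ K ≤ Kmax, ∀ S : Finset (ZMod p), S.card ≤ K →
      ∀ τ : ℝ, (τ = 1 ∨ τ = -1) → ∀ e : ℕ, (e = 0 ∨ e = 2) →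
        FDConc2 (G K) (t / (2 * ((K : ℝ) + 1))) a C1 (2 * B0) z p S τ e)) ∧
    (∀ x : ZMod p, nu3 zs z p x ≤ C1 * Real.log z ^ 3) from by
    obtain ⟨⟨⟨⟨q1, q2⟩, q3⟩, q4⟩, q5⟩ := hE3 z hzz1 p hzBs hz3
    exact ⟨⟨⟨⟨q1 ⟨hp⟩, q2 ⟨hp⟩⟩, q3 ⟨hp⟩⟩, fun K hK => q4 K hK ⟨hp⟩⟩, q5⟩)
  obtain ⟨hf1, hf2⟩ := ft_nu hf
  have hε1a : ε1 ≤ ε0 := by rw [hε1]; exact min_le_left _ _
  have hε1b : ε1 ≤ 1 := by rw [hε1]; exact min_le_right _ _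
  have hmass : meanR (nu3 zs z p) ≤ 2 := by
    have := (abs_le.1 hf2).2
    linarith
  have hP : Par zs z C1 (2 * B0) C N M p :=
    { z2 := hz20, pz := hz3, Np := by omega, C := by omega, M5 := hp1, p40 := by omega }
  have hpne : p ≠ 2 := by
    have := hP.p40
    omega
  -- the three functions
  obtain ⟨AA, hAA⟩ : ∃ AA : Fin 3 → ZMod p → ℝ, AA = ![fP zs z M (QA zs C1 τ),
    fP zs z M (QB zs C1 τ), fP zs z M (QC zs C1 τ)] := ⟨_, rfl⟩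
  have hA0 : AA 0 = fP zs z M (QA zs C1 τ) := by rw [hAA]; rfl
  have hA1 : AA 1 = fP zs z M (QB zs C1 τ) := by rw [hAA]; rfl
  have hA2 : AA 2 = fP zs z M (QC zs C1 τ) := by rw [hAA]; rfl
  have hAAn : ∀ j x, 0 ≤ AA j x ∧ AA j x ≤ nu3 zs z p x := by
    intro j x
    fin_cases j
    · show 0 ≤ AA 0 x ∧ AA 0 x ≤ nu3 zs z p x
      rw [hA0]
      exact ⟨fP_nonneg _ _ _ _ _, fP_le _ _ _ _ _⟩
    · show 0 ≤ AA 1 x ∧ AA 1 x ≤ nu3 zs z p x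
      rw [hA1]
      exact ⟨fP_nonneg _ _ _ _ _, fP_le _ _ _ _ _⟩
    · show 0 ≤ AA 2 x ∧ AA 2 x ≤ nu3 zs z p x
      rw [hA2]
      exact ⟨fP_nonneg _ _ _ _ _, fP_le _ _ _ _ _⟩
  obtain ⟨K, b, c, b', c', hK, hb, hb', hbt, hcl, hsm, htw⟩ := hH p (nu3 zs z p) AA
    (fun ξ hξ => (hf1 ξ hξ).trans hε1a) (hf2.trans hε1a) hAAn
  have hdat : ∀ j, AData (nu3 zs z p) (AA j) K Kmax b c b' c' ε3 (Φ K) 32 := fun j =>
    { nn := fun x => (hAAn j x).1, le := fun x => (hAAn j x).2, ker := hb, ker' := hb',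
      r0 := hε30.le, close := hcl j, small := hsm j, two := fun x => (htw j x).1,
      two' := fun x => (htw j x).2, mass := hmass, corr := hc2 }
  have hScard : (univ.filter (fun ξ => c ξ ≠ 0)).card ≤ K := hb.supp
  obtain ⟨b3, c3, hb3, hb3'⟩ := hK3 K p (univ.filter (fun ξ => c ξ ≠ 0)) hScard
  have hmK : m ≤ Φ K := by
    rw [hm]
    exact hK0 K (Finset.mem_range.2 (by omega))
  have hGn : (0 : ℝ) ≤ G K := Nat.cast_nonneg _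
  have hKn : (0 : ℝ) ≤ K := Nat.cast_nonneg _
  have hK3n : (0 : ℝ) ≤ K3 K := Nat.cast_nonneg _
  have herr1 := err_le (C1 := C1) (G := G K) (z := z) (p := p) (N := N) (C := C) ht0 (by omega)
    hzN (by omega) (by omega) (hCX t (min_le_left _ _) (G K) (by have := hGle K hK; omega))
    (by omega)
  have herr2 := err_le (C1 := C1) (G := K3 K) (z := z) (p := p) (N := N) (C := C) ht'0
    (by omega) hzN (by omega) (by omega)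
    (hCX t' (min_le_right _ _) (K3 K) (by have := hGle K hK; omega)) (by omega)
  rw [← hTdef] at herr1 herr2
  have hfinal := core2 h1 (C := C) (N := N) (M := M) (s := β / 16) (s' := β ^ 2 / 64) hP hνV hT
    (by rw [← hA0]; exact hdat 0) (by rw [← hA1]; exact hdat 1) (by rw [← hA2]; exact hdat 2)
    (hfd K hK _ hScard τ hτ 0 (Or.inl rfl)) (hfd K hK _ hScard τ hτ 2 (Or.inr rfl)) hc1 hb3
    (fun ξ hξ => hb3' ξ (mem_filter.2 ⟨mem_univ _, hξ⟩)) (s'' := β / 8)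
    (hbal M hp1 hp2 b c (hb.mono hK) (hbt.trans hε31) τ hτ _ (w2 M τ C N T)
      (fun x => add_nonneg (fP_nonneg _ _ _ _ _) (add_nonneg (fP_nonneg _ _ _ _ _)
        (fP_nonneg _ _ _ _ _)))
      (fun x e1 e2 e3 e4 e5 e6 => sum_ge hτ x e1 e2 e3 e4 e5 e6) (w2_mem M τ C N T)
      (fun x hx => by
        have := of_w2_ne hpne hx
        exact ⟨this.1, this.2.1⟩))
    (by
      rw [ham]
      have := numA ht0 hGn hKn (hΦ1 K) hm0.le hmK hε32 rfl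
      linarith)
    (by
      rw [ham]
      have := numC ht'0 hK3n hKn (hΦ2 K) hm0.le hmK hε33
      linarith)
  have hsq : √(β ^ 2 / 64) = β / 8 := by
    rw [show β ^ 2 / 64 = (β / 8) ^ 2 by ring, Real.sqrt_sq (by positivity)]
  rw [hsq] at hfinal
  rw [card_bad2 hpne (by omega)] at hfinal
  have hp0 : (0 : ℝ) < p := by exact_mod_cast hp.pos
  have hcard := count_bad2 (τ := τ) (C := C) (T := T) hM
    ((Finset.Icc 1 N).filter (fun n => Even n ∧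
      (reps τ C N n : ℝ) < N / (C * Real.log N ^ 6))) (fun n hn => by
        obtain ⟨q1, q2, q3⟩ := mem_filter.1 hn
        rw [Finset.mem_Icc] at q1
        rw [hTdef]
        exact ⟨q1.1, q1.2, q2, q3⟩)
    ((Finset.Icc 1 M).filter (fun m => Bad2 M τ C N T m)) (fun m hm =>
      mem_filter.2 ⟨Finset.mem_Icc.2 ⟨hm.1, hm.2.1⟩, hm⟩)
  have hcard' : (((Finset.Icc 1 N).filter (fun n => Even n ∧
      (reps τ C N n : ℝ) < N / (C * Real.log N ^ 6))).card : ℝ) ≤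
      ((Finset.Icc 1 M).filter (fun m => Bad2 M τ C N T m)).card := by exact_mod_cast hcard
  have hb1 : (((Finset.Icc 1 M).filter (fun m => Bad2 M τ C N T m)).card : ℝ) ≤ β * p := by
    rw [div_le_iff₀ hp0] at hfinal
    refine hfinal.trans ?_
    refine mul_le_mul_of_nonneg_right ?_ hp0.le
    linarith
  have hpN : (p : ℝ) ≤ 5 * N := by
    have : p ≤ 5 * N := by omega
    exact_mod_cast this
  have hlast : β * p ≤ ε * N := by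
    rw [hβ]
    have := mul_le_mul_of_nonneg_left hpN (by positivity : (0 : ℝ) ≤ ε / 5)
    linarith
  exact (hcard'.trans hb1).trans hlast

end Pool.Agent.Lib.TwinAll
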