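import Mathlib
import Pool.Agent.Lib.TwinAll.Stmts
import Pool.Agent.Lib.TwinAll.Basic94
import Pool.Agent.Lib.TwinAll.S2core49

/-!
THEOREM A (MP_c6d112_nt): S2b from the general sieve estimate `T49.core`.
-/

set_option autoImplicit false

namespace Pool.Agent.Lib.TwinAll.T49

open Finset

/-- a coprime factor leaves exactly one bad class -/
theorem card_one {q : ℕ} (hq : q.Prime) {d c : ℤ} (hd : ¬ ((q : ℤ) ∣ d)) :
    ((range q).filter (fun r : ℕ => (q : ℤ) ∣ c + d * r)).card = 1 := by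
  have hqp : (0 : ℤ) < q := by exact_mod_cast hq.pos
  have hp : Prime (q : ℤ) := Nat.prime_iff_prime_int.1 hq
  have hcop : IsCoprime (q : ℤ) d := (Prime.coprime_iff_not_dvd hp).2 hd
  obtain ⟨x, y, hxy⟩ := hcop
  rw [Finset.card_eq_one]
  refine ⟨((-(c * y)) % (q : ℤ)).toNat, ?_⟩
  have h0 : 0 ≤ (-(c * y)) % (q : ℤ) := Int.emod_nonneg _ hqp.ne'
  have h1 : (-(c * y)) % (q : ℤ) < q := Int.emod_lt_of_pos _ hqp
  have h2 : ((((-(c * y)) % (q : ℤ)).toNat : ℕ) : ℤ) = (-(c * y)) % (q : ℤ) := Int.toNat_of_nonneg h0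
  have h3 : (q : ℤ) ∣ c + d * ((-(c * y)) % (q : ℤ)) := by
    have h4 := Int.emod_add_mul_ediv (-(c * y)) (q : ℤ)
    have h5 : c + d * ((-(c * y)) % (q : ℤ)) =
        (q : ℤ) * (c * x - d * ((-(c * y)) / (q : ℤ))) := by
      have h6 : (-(c * y)) % (q : ℤ) = -(c * y) - (q : ℤ) * ((-(c * y)) / (q : ℤ)) := by linarith
      rw [h6]
      have h7 : c = c * (x * q + y * d) := by rw [hxy, mul_one]
      linear_combination h7
    rw [h5]
    exact dvd_mul_right _ _
  ext r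
  rw [mem_filter, mem_singleton, mem_range]
  constructor
  · rintro ⟨hr, hr2⟩
    have h4 : (q : ℤ) ∣ d * ((r : ℤ) - (-(c * y)) % (q : ℤ)) := by
      have := dvd_sub hr2 h3
      have h5 : c + d * (r : ℤ) - (c + d * ((-(c * y)) % (q : ℤ))) =
        d * ((r : ℤ) - (-(c * y)) % (q : ℤ)) := by ring
      rwa [h5] at this
    have h5 := (hp.dvd_or_dvd h4).resolve_left hd
    have h6 : |(r : ℤ) - (-(c * y)) % (q : ℤ)| < q := by
      rw [abs_lt]
      constructor <;> omega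
    have h7 := Int.eq_zero_of_abs_lt_dvd h5 h6
    omega
  · intro hr
    subst hr
    refine ⟨by omega, ?_⟩
    rw [h2]
    exact h3

theorem S2balt : S2bStmt := by
  classical
  obtain ⟨s0, zs0, hcore⟩ := core 1 (1 / 2) (by norm_num)
  refine ⟨2 * s0 + 3, max zs0 1, fun z0 hz0 => ⟨max z0 6, ?_⟩⟩
  intro z hz D hD hDz c u H hH
  have hz0' : zs0 ≤ z0 := (le_max_left _ _).trans hz0
  have hk : 1 ≤ z0 := (le_max_right _ _).trans hz0
  have hzz : z0 ≤ z := (le_max_left _ _).trans hz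
  have hz6 : 6 ≤ z := (le_max_right _ _).trans hz
  have hzR : (6 : ℝ) ≤ z := by exact_mod_cast hz6
  have hzpos : (0 : ℝ) < z := by linarith
  have hDp : ∀ q ∈ D, q.Prime := fun q hq => PP_prime (hD hq)
  set d : ℕ := ∏ q ∈ D, q with hd
  have hdpos : 0 < d := Finset.prod_pos (fun q hq => (hDp q hq).pos)
  have hdR : (0 : ℝ) < d := by exact_mod_cast hdpos
  have hdZ : (0 : ℤ) < d := by exact_mod_cast hdpos
  have hdz : (d : ℝ) ≤ z := by exact_mod_cast hDz
  -- a prime outside D does not divide d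
  have hnd : ∀ q ∈ PP z0 z, q ∉ D → ¬ ((q : ℤ) ∣ (d : ℤ)) := by
    intro q hq hqD h
    have h1 : q ∣ d := by exact_mod_cast h
    rw [hd, Prime.dvd_finsetProd_iff (PP_prime hq).prime] at h1
    obtain ⟨r, hr, hqr⟩ := h1
    have := (Nat.prime_dvd_prime_iff_eq (PP_prime hq) (hDp r hr)).1 hqr
    exact hqD (this ▸ hr)
  set A : ℤ := (u - c) / d with hA
  set B : ℤ := (u + H - c) / d with hB
  have hAB : A ≤ B := Int.ediv_le_ediv hdZ (by
    have : (0 : ℤ) ≤ H := Int.natCast_nonneg _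
    linarith)
  set H' : ℕ := (B - A).toNat with hH'
  have hH'Z : ((H' : ℕ) : ℤ) = B - A := Int.toNat_of_nonneg (by omega)
  have hH'R : (H' : ℝ) ≤ H / d + 1 := by
    have h1 : (B : ℤ) * d ≤ u + H - c := Int.ediv_mul_le _ hdZ.ne'
    have h2 : u - c < (A + 1) * d := Int.lt_ediv_add_one_mul_self _ hdZ
    have h3 : ((H' : ℕ) : ℤ) * d ≤ H + d := by
      rw [hH'Z]
      nlinarith
    have h4 : (H' : ℝ) * d ≤ H + d := by exact_mod_cast h3
    have h5 : (H : ℝ) / d + 1 = (H + d) / d := by field_simp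
    rw [h5, le_div_iff₀ hdR]
    exact h4
  set bad : ℕ → ℤ → Prop := fun q m => q ∉ D ∧ (q : ℤ) ∣ c + d * m with hbad
  have hcard : ∀ q ∈ PP z0 z, ((range q).filter (fun r : ℕ => bad q r)).card =
      if q ∈ D then 0 else 1 := by
    intro q hq
    by_cases h : q ∈ D
    · rw [if_pos h, Finset.card_eq_zero, Finset.filter_eq_empty_iff]
      intro r _ hr
      exact hr.1 h
    · rw [if_neg h, ← card_one (c := c) (PP_prime hq) (hnd q hq h)]
      congr 1
      apply Finset.filter_congr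
      intro r _
      exact ⟨fun hr => hr.2, fun hr => ⟨h, hr⟩⟩
  have h1 := (hcore z0 hz0' z hzz bad (by
    intro q _ n m hnm
    have h2 : c + d * n = c + d * m + d * (n - m) := by ring
    simp only [hbad]
    rw [h2]
    have h3 : ((q : ℤ) ∣ c + d * m + d * (n - m)) ↔ ((q : ℤ) ∣ c + d * m) :=
      dvd_add_left (dvd_mul_of_dvd_right hnm _)
    rw [h3]) (by
    intro q hq
    rw [hcard q hq]
    split_ifs <;> norm_num) A H').2
  have hprod : ∏ q ∈ PP z0 z, (1 - ((((range q).filter (fun r : ℕ => bad q r)).card : ℕ) : ℝ) / q) =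
      ∏ q ∈ (PP z0 z) \ D, (1 - 1 / (q : ℝ)) := by
    rw [← Finset.prod_sdiff hD]
    have h3 : ∏ q ∈ D, (1 - ((((range q).filter (fun r : ℕ => bad q r)).card : ℕ) : ℝ) / q) = 1 := by
      apply Finset.prod_eq_one
      intro q hq
      rw [hcard q (hD hq), if_pos hq]
      simp
    rw [h3, mul_one]
    apply Finset.prod_congr rfl
    intro q hq
    rw [mem_sdiff] at hq
    rw [hcard q hq.1, if_neg hq.2]
    simp
  rw [hprod] at h1
  -- the weight
  have ha1 : ∀ j : Fin 1, ∀ q ∈ PP z0 z, ¬ ((q : ℤ) ∣ (![1] : Fin 1 → ℤ) j) := by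
    intro j q hq
    have hj : (![1] : Fin 1 → ℤ) j = 1 := by
      fin_cases j
      rfl
    rw [hj]
    exact not_dvd_one q hq
  have hVp := VV_pos (k := 1) hk (![1] : Fin 1 → ℤ) ![0] ha1
  have hVi := VV_inv_le (k := 1) hk hzz (![1] : Fin 1 → ℤ) ![0] ha1
  have hVge : ∏ q ∈ PP z0 z, (1 - 1 / (q : ℝ)) ≤ VV z0 z (![1] : Fin 1 → ℤ) ![0] := by
    unfold VV
    apply Finset.prod_le_prod
    · intro q hq
      have h2 : (2 : ℝ) ≤ q := by exact_mod_cast (PP_prime hq).two_le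
      rw [sub_nonneg, div_le_one (by linarith)]
      linarith
    · intro q hq
      have h2 : (0 : ℝ) < q := by exact_mod_cast (PP_prime hq).pos
      have h3 : (om (![1] : Fin 1 → ℤ) ![0] q : ℝ) ≤ 1 := by
        exact_mod_cast om_le (![1] : Fin 1 → ℤ) ![0] (PP_prime hq) (fun j => ha1 j q hq)
      have h4 := div_le_div_of_nonneg_right h3 h2.le
      linarith
  set W := VV z0 z (![1] : Fin 1 → ℤ) ![0] with hW
  have hWi : 0 < W⁻¹ := inv_pos.2 hVp
  have hfac : ∀ q ∈ PP z0 z, 0 < 1 - 1 / (q : ℝ) := by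
    intro q hq
    have h2 : (2 : ℝ) ≤ q := by exact_mod_cast (PP_prime hq).two_le
    rw [sub_pos, div_lt_one (by linarith)]
    linarith
  have hPD : 0 < ∏ q ∈ D, (1 - 1 / (q : ℝ)) := Finset.prod_pos (fun q hq => hfac q (hD hq))
  have hratio : W⁻¹ * ∏ q ∈ (PP z0 z) \ D, (1 - 1 / (q : ℝ)) ≤ (∏ q ∈ D, (1 - 1 / (q : ℝ)))⁻¹ := by
    rw [← Finset.prod_sdiff hD] at hVge
    rw [inv_mul_le_iff₀ hVp, ← div_eq_mul_inv, le_div_iff₀ hPD]
    exact hVge
  set G : ℝ := ∏ q ∈ D, (1 / ((q : ℝ) - 1)) with hG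
  have hGd : (∏ q ∈ D, (1 - 1 / (q : ℝ)))⁻¹ = d * G := by
    rw [hG, hd]
    push_cast
    rw [← Finset.prod_mul_distrib, ← Finset.prod_inv_distrib]
    apply Finset.prod_congr rfl
    intro q hq
    have h2 : (2 : ℝ) ≤ q := by exact_mod_cast (hDp q hq).two_le
    have h3 : (q : ℝ) - 1 ≠ 0 := by linarith
    have h4 : (q : ℝ) ≠ 0 := by linarith
    have h5 : 1 - 1 / (q : ℝ) = (q - 1) / q := by field_simp
    rw [h5, inv_div]
    field_simp
  have hGge : 1 / (d : ℝ) ≤ G := by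
    rw [hG, hd]
    push_cast
    rw [one_div, ← Finset.prod_inv_distrib]
    apply Finset.prod_le_prod
    · intro q _
      positivity
    · intro q hq
      have h2 : (2 : ℝ) ≤ q := by exact_mod_cast (hDp q hq).two_le
      rw [one_div]
      exact inv_anti₀ (by linarith) (by linarith)
  have hG0 : 0 < G := lt_of_lt_of_le (by positivity) hGge
  -- the sum
  have hsum : ∑ n ∈ (Ioc u (u + H)).filter (fun n : ℤ => ((d : ℕ) : ℤ) ∣ n - c),
      nu z0 z (![1] : Fin 1 → ℤ) ![0] n ≤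
      W⁻¹ * (((Ioc A (A + H')).filter (fun m => ∀ q ∈ PP z0 z, ¬ bad q m)).card : ℝ) := by
    have h2 : ∀ n : ℤ, nu z0 z (![1] : Fin 1 → ℤ) ![0] n =
        W⁻¹ * (if Rough z0 z n then 1 else 0) := by
      intro n
      have h3 : (∀ j : Fin 1, Rough z0 z ((![1] : Fin 1 → ℤ) j * n + (![0] : Fin 1 → ℤ) j)) ↔
          Rough z0 z n := by
        constructor
        · intro h
          have := h 0
          simpa using this
        · intro h j
          fin_cases j
          simpa using h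
      unfold nu
      by_cases h : Rough z0 z n
      · rw [if_pos (h3.2 h), if_pos h, mul_one]
      · rw [if_neg (fun h' => h (h3.1 h')), if_neg h, mul_zero]
    rw [Finset.sum_congr rfl (fun n _ => h2 n), ← Finset.mul_sum]
    apply mul_le_mul_of_nonneg_left _ hWi.le
    rw [Finset.sum_boole]
    have h3 : (((Ioc u (u + H)).filter (fun n : ℤ => ((d : ℕ) : ℤ) ∣ n - c)).filter
        (fun n => Rough z0 z n)).card ≤
        ((Ioc A (A + H')).filter (fun m => ∀ q ∈ PP z0 z, ¬ bad q m)).card := by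
      apply Finset.card_le_card_of_injOn (fun n => (n - c) / d)
      · intro n hn
        rw [mem_coe, mem_filter, mem_filter, mem_Ioc] at hn
        obtain ⟨⟨⟨hn1, hn2⟩, hn3⟩, hn4⟩ := hn
        obtain ⟨m, hm⟩ := hn3
        have h4 : (n - c) / d = m := by
          rw [hm]
          exact Int.mul_ediv_cancel_left _ hdZ.ne'
        have h5 : n = c + d * m := by linarith
        rw [mem_coe, mem_filter, mem_Ioc]
        simp only
        rw [h4, hH'Z]
        refine ⟨⟨?_, ?_⟩, ?_⟩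
        · rw [hA, Int.ediv_lt_iff_lt_mul hdZ]
          linarith
        · have : m ≤ B := by
            rw [hB, Int.le_ediv_iff_mul_le hdZ]
            linarith
          linarith
        · rintro q hq ⟨_, hq2⟩
          rw [← h5] at hq2
          exact hn4 q hq hq2
      · intro n hn n' hn' h
        rw [mem_coe, mem_filter, mem_filter, mem_Ioc] at hn hn'
        obtain ⟨m, hm⟩ := hn.1.2
        obtain ⟨m', hm'⟩ := hn'.1.2
        simp only at h
        rw [hm, hm', Int.mul_ediv_cancel_left _ hdZ.ne', Int.mul_ediv_cancel_left _ hdZ.ne'] at h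
        rw [h] at hm
        linarith
    exact_mod_cast h3
  refine hsum.trans ?_
  set N : ℝ := (((Ioc A (A + H')).filter (fun m => ∀ q ∈ PP z0 z, ¬ bad q m)).card : ℝ) with hN
  set Q : ℝ := ∏ q ∈ (PP z0 z) \ D, (1 - 1 / (q : ℝ)) with hQ
  have hHR : ((z : ℝ) ^ (2 * s0 + 3)) ≤ H := by exact_mod_cast hH
  have hH0 : (0 : ℝ) ≤ H := Nat.cast_nonneg _
  have hH'0 : (0 : ℝ) ≤ H' := Nat.cast_nonneg _
  have h5 : W⁻¹ * N ≤ 3 / 2 * H' * (d * G) + z * (z : ℝ) ^ (2 * s0) := by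
    have h6 := mul_le_mul_of_nonneg_left h1 hWi.le
    have h7 : W⁻¹ * ((1 + 1 / 2) * (H' * Q) + (z : ℝ) ^ (2 * s0)) =
        3 / 2 * H' * (W⁻¹ * Q) + W⁻¹ * (z : ℝ) ^ (2 * s0) := by ring
    rw [h7] at h6
    refine h6.trans ?_
    rw [pow_one] at hVi
    rw [hGd] at hratio
    have h8 := mul_le_mul_of_nonneg_left hratio (by positivity : (0 : ℝ) ≤ 3 / 2 * H')
    have h9 := mul_le_mul_of_nonneg_right hVi (by positivity : (0 : ℝ) ≤ (z : ℝ) ^ (2 * s0))
    linarith
  have h6 : 3 / 2 * H' * (d * G) ≤ 3 / 2 * H * G + 3 / 2 * d * G := by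
    have h7 : (H' : ℝ) * d ≤ H + d := by
      have := mul_le_mul_of_nonneg_right hH'R hdR.le
      have h8 : ((H : ℝ) / d + 1) * d = H + d := by field_simp
      rwa [h8] at this
    have h9 := mul_le_mul_of_nonneg_right h7 hG0.le
    nlinarith
  have hpow : (z : ℝ) ^ (2 * s0 + 3) = z ^ (2 * s0) * z ^ 3 := pow_add _ _ _
  have hp1 : (1 : ℝ) ≤ (z : ℝ) ^ (2 * s0) := one_le_pow₀ (by linarith)
  have h7 : 6 * (d : ℝ) ≤ H := by
    have h8 : (z : ℝ) * z ≤ z ^ (2 * s0) * z ^ 3 := by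
      have h9 : (z : ℝ) * z ≤ 1 * z ^ 3 := by
        nlinarith [mul_pos hzpos hzpos]
      exact h9.trans (mul_le_mul_of_nonneg_right hp1 (by positivity))
    nlinarith
  have h8 : z * (z : ℝ) ^ (2 * s0) ≤ 1 / 4 * H * G := by
    have h9 : 1 / (z : ℝ) ≤ G := (one_div_le_one_div_of_le hdR hdz).trans hGge
    have h10 : (z : ℝ) ^ (2 * s0) * z ^ 3 * (1 / z) ≤ H * G := by
      have h11 : (z : ℝ) ^ (2 * s0) * z ^ 3 ≤ H := by rw [← hpow]; exact hHR
      exact mul_le_mul h11 h9 (by positivity) hH0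
    have h12 : (z : ℝ) ^ (2 * s0) * z ^ 3 * (1 / z) = z ^ (2 * s0) * z ^ 2 := by
      field_simp
    rw [h12] at h10
    have h13 : z * (z : ℝ) ^ (2 * s0) * 4 ≤ z ^ (2 * s0) * z ^ 2 := by
      have h14 : (0 : ℝ) ≤ (z : ℝ) ^ (2 * s0) * z := by positivity
      nlinarith
    linarith
  have h9 : 3 / 2 * (d : ℝ) * G ≤ 1 / 4 * H * G := by nlinarith
  calc W⁻¹ * N ≤ 3 / 2 * H' * (d * G) + z * (z : ℝ) ^ (2 * s0) := h5
    _ ≤ 3 / 2 * H * G + 3 / 2 * d * G + 1 / 4 * H * G := by linarith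
    _ ≤ 2 * H * G := by linarith

end Pool.Agent.Lib.TwinAll.T49
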