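import Mathlib
import Pool.Agent.Lib.TwinAll.All73
import Pool.Agent.Lib.TwinAll.S2alt49
import Pool.Agent.Lib.TwinAll.S2balt49
import Pool.Agent.Lib.TwinAll.VV81
import Pool.Agent.Lib.TwinAll.FG81
import Pool.Agent.Lib.TwinAll.MainD73

/-!
THEOREM A (MP_c6d112_nt), final form with the number of representations, no open hypothesis.
-/

set_option autoImplicit false

namespace Pool.Agent.Lib.TwinAll

/-- THEOREM A -/
theorem theoremA : MainStmt := main_of_S2 T49.S2alt T49.S2balt

/-- THEOREM A with the number of representations -/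
theorem theoremA2 : MainStmt2 := by
  have hS2 : S2Stmt := T49.S2alt
  have h3 : S3Stmt := S3 hS2
  have h4 : S4Stmt := S4 h3
  have hL : LamStmt := lam_of_S2 hS2 T49.S2balt
  exact MainThm2 H1 H2 (H3 H2) h3 h4 VV2 (FD2 H2 H4 hS2 h3 h4 hL) (FB hS2 h4 hL)

end Pool.Agent.Lib.TwinAll
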