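import Pool.Agent.Lib.TwinAll.W2_64
import Pool.Agent.Lib.TwinAll.S4x69

/-!
THEOREM A (MP_c6d112_nt), module L4, part a: counts of primes, exponential sums over primes on the
major arcs, sums with a weight of bounded mean value.
-/

set_option autoImplicit false

open Filter Topology

namespace Pool.Agent.Lib.TwinAll

open Finset

/-! ### weights of bounded mean value -/

theorem l4_harm (a : ℕ → ℝ) (M0 : ℕ) (hM0 : 1 ≤ M0)
    (hA : ∀ M, M0 ≤ M → ∑ m ∈ Finset.Icc 1 M, a m ≤ 2 * M) (ha : ∀ m, 0 ≤ a m) (M1 : ℕ)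
    (h : M0 ≤ M1) :
    ∑ m ∈ Finset.Ioc M0 M1, a m / m ≤ 2 + 2 * Real.log ((M1 : ℝ) / M0) := by
  have key : ∀ M1, M0 ≤ M1 → ∑ m ∈ Finset.Ioc M0 M1, a m / m ≤
      (∑ m ∈ Finset.Icc 1 M1, a m) / M1 + 2 * (Real.log M1 - Real.log M0) := by
    intro M1 h
    induction M1, h using Nat.le_induction with
    | base =>
      rw [Finset.Ioc_self, Finset.sum_empty, sub_self, mul_zero, add_zero]
      exact div_nonneg (Finset.sum_nonneg fun m _ => ha m) (Nat.cast_nonneg _)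
    | succ M h ih =>
      have hM : (0 : ℝ) < M := by
        have : 1 ≤ M := hM0.trans h
        exact_mod_cast this
      have h1 : ∑ m ∈ Finset.Ioc M0 (M + 1), a m / m =
          ∑ m ∈ Finset.Ioc M0 M, a m / m + a (M + 1) / ((M + 1 : ℕ) : ℝ) := by
        rw [Finset.sum_Ioc_succ_top h]
      have h2 : ∑ m ∈ Finset.Icc 1 (M + 1), a m = ∑ m ∈ Finset.Icc 1 M, a m + a (M + 1) := by
        rw [Finset.sum_Icc_succ_top (by omega)]
      have h3 : 1 / ((M : ℝ) + 1) ≤ Real.log ((M + 1 : ℕ) : ℝ) - Real.log M := by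
        have h4 := Real.one_sub_inv_le_log_of_pos (show (0 : ℝ) < ((M + 1 : ℕ) : ℝ) / M by positivity)
        rw [Real.log_div (by positivity) hM.ne'] at h4
        refine le_trans (le_of_eq ?_) h4
        push_cast
        field_simp
        ring
      have h5 := hA M h
      rw [h1, h2]
      push_cast
      push_cast at h3
      have h6 : (∑ m ∈ Finset.Icc 1 M, a m) / M ≤
          (∑ m ∈ Finset.Icc 1 M, a m) / ((M : ℝ) + 1) + 2 * (1 / ((M : ℝ) + 1)) := by
        rw [div_add' _ _ _ (by positivity), div_le_div_iff₀ hM (by positivity)]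
        have h7 : 2 * (1 / ((M : ℝ) + 1)) * ((M : ℝ) + 1) = 2 := by field_simp
        rw [h7]
        nlinarith
      have h8 : (∑ m ∈ Finset.Icc 1 M, a m + a (M + 1)) / ((M : ℝ) + 1) =
          (∑ m ∈ Finset.Icc 1 M, a m) / ((M : ℝ) + 1) + a (M + 1) / ((M : ℝ) + 1) := add_div _ _ _
      rw [h8]
      linarith
  have hM0r : (0 : ℝ) < M0 := by exact_mod_cast hM0
  have hM1r : (0 : ℝ) < M1 := by exact_mod_cast hM0.trans h
  refine (key M1 h).trans ?_
  rw [Real.log_div hM1r.ne' hM0r.ne']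
  have h1 : (∑ m ∈ Finset.Icc 1 M1, a m) / M1 ≤ 2 := by
    rw [div_le_iff₀ hM1r]
    exact hA M1 h
  linarith

/-! ### counting primes -/

/-- the number of primes up to `Y` -/
noncomputable def pc (Y : ℕ) : ℕ := ((Finset.Ioc 0 Y).filter Nat.Prime).card

/-- `Y / log Y` -/
noncomputable def LL (Y : ℕ) : ℝ := (Y : ℝ) / Real.log Y

theorem l4_pc : ∃ y0 : ℕ, ∀ Y, y0 ≤ Y → (pc Y : ℝ) ≤ 2 * LL Y ∧ LL Y ≤ 2 * pc Y := by
  have h1 := w2_tendsto 1 1 one_pos (Nat.coprime_one_right 1) 1 1 one_pos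
  simp only [Nat.cast_one, div_one, one_mul, Nat.div_one, Nat.totient_one] at h1
  have hpc : ∀ Y, w2f 1 1 Y = pc Y := by
    intro Y
    rw [w2f, pc]
    congr 1
    refine Finset.filter_congr fun p _ => ?_
    simp [Nat.modEq_one]
  simp only [hpc] at h1
  have h2 := h1.eventually (Icc_mem_nhds (show (1 / 2 : ℝ) < 1 by norm_num)
    (show (1 : ℝ) < 2 by norm_num))
  obtain ⟨y0, hy0⟩ := Filter.eventually_atTop.1 (h2.and (eventually_ge_atTop 2))
  refine ⟨y0, fun Y hY => ?_⟩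
  obtain ⟨⟨h3, h4⟩, h5⟩ := hy0 Y hY
  have hYr : (1 : ℝ) < Y := by exact_mod_cast h5
  have hlog : 0 < Real.log Y := Real.log_pos hYr
  have hY0 : (0 : ℝ) < Y := by linarith
  have hpcr : (pc Y : ℝ) = LL Y * (Real.log Y / Y * pc Y) := by
    rw [LL]
    field_simp
  have hLL : 0 < LL Y := div_pos hY0 hlog
  constructor
  · rw [hpcr]
    nlinarith
  · rw [hpcr]
    nlinarith

/-! ### the singular factor and the oscillatory integral -/

/-- reduced residues -/
def RR (q : ℕ) : Finset ℕ := (Finset.range q).filter (fun c => Nat.Coprime c q)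

/-- the average of the characters over the reduced residues -/
noncomputable def rr (q : ℕ) (b : ℤ) : ℂ :=
  (1 / (q.totient : ℂ)) * ∑ c ∈ RR q, ee ((b : ℝ) / q * c)

/-- the oscillatory integral -/
noncomputable def JJ (x : ℝ) : ℂ := ∫ t in (0 : ℝ)..1, ee (x * t)

theorem card_RR (q : ℕ) : (RR q).card = q.totient := by
  rw [RR, Nat.totient_eq_card_coprime]
  congr 1
  refine Finset.filter_congr fun c _ => ?_
  exact Nat.coprime_comm

theorem ee_int64 (n : ℤ) : ee n = 1 := by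
  unfold ee
  rw [Complex.exp_eq_one_iff]
  exact ⟨n, by push_cast; ring⟩

theorem norm_rr (q : ℕ) (hq : 0 < q) (b : ℤ) : ‖rr q b‖ ≤ 1 := by
  have h1 : (0 : ℝ) < q.totient := by exact_mod_cast Nat.totient_pos.2 hq
  rw [rr, norm_mul]
  have h2 : ‖∑ c ∈ RR q, ee ((b : ℝ) / q * c)‖ ≤ q.totient := by
    refine (norm_sum_le _ _).trans ?_
    rw [Finset.sum_congr rfl fun c _ => ee_norm69 _, Finset.sum_const, card_RR, nsmul_eq_mul,
      mul_one]
  have h3 : ‖(1 / (q.totient : ℂ))‖ = 1 / q.totient := by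
    rw [norm_div, norm_one, Complex.norm_natCast]
  rw [h3, one_div, inv_mul_le_iff₀ h1, mul_one]
  exact h2

/-- `ee (b c / q)` depends only on `b c` modulo `q` -/
theorem ee_mod (q : ℕ) (hq : 0 < q) (b : ℤ) (c c' : ℕ) (h : c ≡ c' [MOD q]) :
    ee ((b : ℝ) / q * c) = ee ((b : ℝ) / q * c') := by
  have hqr : (q : ℝ) ≠ 0 := by exact_mod_cast hq.ne'
  obtain ⟨t, ht⟩ := (Nat.modEq_iff_dvd.1 h)
  have h1 : (b : ℝ) / q * c' = (b : ℝ) / q * c + ((b * t : ℤ) : ℝ) := by
    have h2 : (c' : ℝ) - c = q * t := by exact_mod_cast ht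
    have h3 : (c' : ℝ) = c + q * t := by linarith
    rw [h3]
    push_cast
    field_simp
  rw [h1, ee_add69, ee_int64, mul_one]

theorem ee_mod' (q : ℕ) (hq : 0 < q) (b w : ℤ) (c c' : ℕ) (h : (q : ℤ) ∣ w * c - c') :
    ee (((w * b : ℤ) : ℝ) / q * c) = ee ((b : ℝ) / q * c') := by
  have hqr : (q : ℝ) ≠ 0 := by exact_mod_cast hq.ne'
  obtain ⟨t, ht⟩ := h
  have h1 : ((w * b : ℤ) : ℝ) / q * c = (b : ℝ) / q * c' + ((b * t : ℤ) : ℝ) := by
    have h2 : (w : ℝ) * c - c' = q * t := by exact_mod_cast ht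
    have h3 : (c' : ℝ) = w * c - q * t := by linarith
    rw [h3]
    push_cast
    field_simp
    ring
  rw [h1, ee_add69, ee_int64, mul_one]

theorem rr_mul (q : ℕ) (hq : 0 < q) (w : ℕ) (hw : Nat.Coprime w q) (b : ℤ) :
    rr q (w * b) = rr q b := by
  rw [rr, rr]
  congr 1
  have hmaps : ∀ c ∈ RR q, w * c % q ∈ RR q := by
    intro c hc
    rw [RR, Finset.mem_filter, Finset.mem_range] at hc ⊢
    refine ⟨Nat.mod_lt _ hq, ?_⟩
    exact (Nat.ModEq.gcd_eq (Nat.mod_modEq (w * c) q)).trans (Nat.Coprime.mul_left hw hc.2)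
  have hinj : Set.InjOn (fun c => w * c % q) (RR q : Set ℕ) := by
    intro c hc c' hc' h
    rw [Finset.mem_coe, RR, Finset.mem_filter, Finset.mem_range] at hc hc'
    have h1 : w * c ≡ w * c' [MOD q] := h
    have h2 : c ≡ c' [MOD q] := Nat.ModEq.cancel_left_of_coprime (by
      rw [Nat.gcd_comm]; exact hw) h1
    exact Nat.ModEq.eq_of_lt_of_lt h2 hc.1 hc'.1
  refine Finset.sum_nbij (fun c => w * c % q) hmaps hinj ?_ ?_
  · exact Finset.surjOn_of_injOn_of_card_le _ hmaps hinj le_rfl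
  · intro c _
    refine ee_mod' q hq b w c _ ?_
    have h1 := Nat.mod_modEq (w * c) q
    have h2 := Nat.modEq_iff_dvd.1 h1
    push_cast at h2 ⊢
    exact h2

theorem norm_JJ (x : ℝ) : ‖JJ x‖ ≤ 1 := by
  have h := intervalIntegral.norm_integral_le_of_norm_le_const (f := fun t : ℝ => ee (x * t))
    (a := 0) (b := 1) (C := 1) (fun t _ => (ee_norm69 _).le)
  simpa [JJ] using h

theorem JJ_lip (x y : ℝ) : ‖JJ x - JJ y‖ ≤ 2 * Real.pi * |x - y| := by
  rw [JJ, JJ, ← intervalIntegral.integral_sub ((w2_continuous x).intervalIntegrable _ _)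
    ((w2_continuous y).intervalIntegrable _ _)]
  have h := intervalIntegral.norm_integral_le_of_norm_le_const
    (f := fun t : ℝ => ee (x * t) - ee (y * t)) (a := 0) (b := 1)
    (C := 2 * Real.pi * |x - y|) (by
      intro t ht
      rw [Set.uIoc_of_le zero_le_one] at ht
      refine (w2_ee_lip _ _).trans ?_
      have h1 : |x * t - y * t| ≤ |x - y| := by
        rw [← sub_mul, abs_mul, abs_of_pos ht.1]
        exact mul_le_of_le_one_right (abs_nonneg _) ht.2
      exact mul_le_mul_of_nonneg_left h1 (by positivity))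
  simpa using h

/-! ### exponential sums over primes on the major arcs -/

theorem l4_expsum (Q : ℕ) (T ε : ℝ) (hε : 0 < ε) : ∃ y0 : ℕ, ∀ Y, y0 ≤ Y → ∀ q, 1 ≤ q → q ≤ Q →
    ∀ (b : ℤ) (β : ℝ), |β| ≤ T →
      ‖∑ p ∈ (Finset.Ioc 0 Y).filter Nat.Prime, ee ((b : ℝ) / q * p + β * p / Y) -
        (LL Y : ℂ) * rr q b * JJ β‖ ≤ ε * LL Y := by
  -- uniform `y0` for all `q ≤ Q`
  have hW : ∀ᶠ Y : ℕ in atTop, ∀ q ∈ Finset.Icc 1 Q, ∀ c, Nat.Coprime c q → ∀ β : ℝ, |β| ≤ T →
      ‖((Real.log Y / Y : ℝ) : ℂ) * ∑ p ∈ (Finset.Ioc 0 Y).filter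
          (fun p : ℕ => p.Prime ∧ p ≡ c [MOD q]), ee (β * p / Y) -
        (1 / (q.totient : ℂ)) * ∫ t in (0 : ℝ)..1, ee (β * t)‖ ≤ ε / (2 * (Q + 1)) := by
    rw [Filter.eventually_all_finset]
    intro q hq
    rw [Finset.mem_Icc] at hq
    obtain ⟨y0, hy0⟩ := W2 q T (ε / (2 * (Q + 1))) hq.1 (by positivity)
    exact Filter.eventually_atTop.2 ⟨y0, hy0⟩
  have hL : Tendsto (fun Y : ℕ => LL Y) atTop atTop := by
    have h1 : Tendsto (fun x : ℝ => x / Real.log x) atTop atTop := by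
      have h2 := (Real.isLittleO_log_id_atTop).tendsto_div_nhds_zero
      have h3 : Tendsto (fun x : ℝ => (Real.log x / x)⁻¹) atTop atTop := by
        refine Filter.Tendsto.inv_tendsto_nhdsGT_zero ?_
        refine tendsto_nhdsWithin_iff.2 ⟨h2, ?_⟩
        filter_upwards [eventually_gt_atTop 1] with x hx
        exact div_pos (Real.log_pos hx) (lt_trans one_pos hx)
      refine h3.congr fun x => ?_
      rw [inv_div]
    exact h1.comp tendsto_natCast_atTop_atTop
  obtain ⟨y0, hy0⟩ := Filter.eventually_atTop.1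
    (((hW.and (hL.eventually_ge_atTop (2 * Q / ε))).and (eventually_ge_atTop 2)))
  refine ⟨y0, fun Y hY q hq1 hqQ b β hβ => ?_⟩
  obtain ⟨⟨h1, h2⟩, h3⟩ := hy0 Y hY
  have hYr : (1 : ℝ) < Y := by exact_mod_cast h3
  have hlog : 0 < Real.log Y := Real.log_pos hYr
  have hY0 : (0 : ℝ) < Y := by linarith
  have hLL : 0 < LL Y := div_pos hY0 hlog
  have h1q := h1 q (Finset.mem_Icc.2 ⟨hq1, hqQ⟩)
  have hq0 : 0 < q := hq1
  -- the primes which divide `q`
  set P := (Finset.Ioc 0 Y).filter Nat.Prime with hP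
  set F : ℕ → ℂ := fun p => ee ((b : ℝ) / q * p + β * p / Y) with hF
  have hsplit : ∑ p ∈ P, F p = ∑ p ∈ P.filter (fun p => Nat.Coprime p q), F p +
      ∑ p ∈ P.filter (fun p => ¬ Nat.Coprime p q), F p :=
    (Finset.sum_filter_add_sum_filter_not _ _ _).symm
  have hbad : ‖∑ p ∈ P.filter (fun p => ¬ Nat.Coprime p q), F p‖ ≤ Q := by
    refine (norm_sum_le _ _).trans ?_
    rw [Finset.sum_congr rfl fun c _ => ee_norm69 _, Finset.sum_const, nsmul_eq_mul, mul_one]
    have h4 : P.filter (fun p => ¬ Nat.Coprime p q) ⊆ Finset.Icc 1 q := by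
      intro p hp
      rw [Finset.mem_filter, hP, Finset.mem_filter] at hp
      have h5 : p ∣ q := by
        by_contra h
        exact hp.2 ((Nat.Prime.coprime_iff_not_dvd hp.1.2).2 h)
      exact Finset.mem_Icc.2 ⟨hp.1.2.pos, Nat.le_of_dvd hq0 h5⟩
    have h5 := Finset.card_le_card h4
    rw [Nat.card_Icc, Nat.add_sub_cancel] at h5
    exact_mod_cast h5.trans hqQ
  have hgood : ∑ p ∈ P.filter (fun p => Nat.Coprime p q), F p =
      ∑ c ∈ RR q, ee ((b : ℝ) / q * c) * ∑ p ∈ (Finset.Ioc 0 Y).filter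
          (fun p : ℕ => p.Prime ∧ p ≡ c [MOD q]), ee (β * p / Y) := by
    have hmaps : ∀ p ∈ P.filter (fun p => Nat.Coprime p q), p % q ∈ RR q := by
      intro p hp
      rw [Finset.mem_filter] at hp
      rw [RR, Finset.mem_filter, Finset.mem_range]
      exact ⟨Nat.mod_lt _ hq0, (Nat.ModEq.gcd_eq (Nat.mod_modEq p q)).trans hp.2⟩
    rw [← Finset.sum_fiberwise_of_maps_to hmaps]
    refine Finset.sum_congr rfl fun c hc => ?_
    rw [RR, Finset.mem_filter, Finset.mem_range] at hc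
    have hset : (P.filter (fun p => Nat.Coprime p q)).filter (fun p => p % q = c) =
        (Finset.Ioc 0 Y).filter (fun p : ℕ => p.Prime ∧ p ≡ c [MOD q]) := by
      ext p
      simp only [hP, Finset.mem_filter]
      constructor
      · rintro ⟨⟨⟨h5, h6⟩, -⟩, h7⟩
        refine ⟨h5, h6, ?_⟩
        change p % q = c % q
        rw [h7, Nat.mod_eq_of_lt hc.1]
      · rintro ⟨h5, h6, h7⟩
        refine ⟨⟨⟨h5, h6⟩, ?_⟩, ?_⟩
        · exact (Nat.ModEq.gcd_eq h7).trans hc.2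
        · have h8 : p % q = c % q := h7
          rw [h8, Nat.mod_eq_of_lt hc.1]
    rw [hset, Finset.mul_sum]
    refine Finset.sum_congr rfl fun p hp => ?_
    rw [Finset.mem_filter] at hp
    rw [hF]
    simp only
    rw [ee_add69, ee_mod q hq0 b p c hp.2.2]
  have hmain : ‖∑ p ∈ P.filter (fun p => Nat.Coprime p q), F p - (LL Y : ℂ) * rr q b * JJ β‖ ≤
      ε / 2 * LL Y := by
    have h4 : (LL Y : ℂ) * rr q b * JJ β =
        ∑ c ∈ RR q, ee ((b : ℝ) / q * c) * ((LL Y : ℂ) * ((1 / (q.totient : ℂ)) * JJ β)) := by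
      rw [← Finset.sum_mul, rr]
      ring
    rw [hgood, h4, ← Finset.sum_sub_distrib]
    have h5 : ∀ c ∈ RR q, ‖ee ((b : ℝ) / q * c) * ∑ p ∈ (Finset.Ioc 0 Y).filter
          (fun p : ℕ => p.Prime ∧ p ≡ c [MOD q]), ee (β * p / Y) -
        ee ((b : ℝ) / q * c) * ((LL Y : ℂ) * ((1 / (q.totient : ℂ)) * JJ β))‖ ≤
        LL Y * (ε / (2 * (Q + 1))) := by
      intro c hc
      rw [RR, Finset.mem_filter] at hc
      have h6 := h1q c hc.2 β hβ
      have h7 : (LL Y : ℂ) * ((Real.log Y / Y : ℝ) : ℂ) = 1 := by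
        rw [← Complex.ofReal_mul, LL]
        have : (Y : ℝ) / Real.log Y * (Real.log Y / Y) = 1 := by field_simp
        rw [this, Complex.ofReal_one]
      rw [← mul_sub, norm_mul, ee_norm69, one_mul]
      have h8 : ∑ p ∈ (Finset.Ioc 0 Y).filter
          (fun p : ℕ => p.Prime ∧ p ≡ c [MOD q]), ee (β * p / Y) -
          (LL Y : ℂ) * ((1 / (q.totient : ℂ)) * JJ β) =
          (LL Y : ℂ) * (((Real.log Y / Y : ℝ) : ℂ) * ∑ p ∈ (Finset.Ioc 0 Y).filter
            (fun p : ℕ => p.Prime ∧ p ≡ c [MOD q]), ee (β * p / Y) -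
          (1 / (q.totient : ℂ)) * ∫ t in (0 : ℝ)..1, ee (β * t)) := by
        rw [mul_sub, ← mul_assoc (LL Y : ℂ) ((Real.log Y / Y : ℝ) : ℂ), h7, one_mul]
        rfl
      rw [h8, norm_mul, Complex.norm_real, Real.norm_eq_abs, abs_of_pos hLL]
      exact mul_le_mul_of_nonneg_left h6 hLL.le
    refine (norm_sum_le _ _).trans ((Finset.sum_le_sum h5).trans ?_)
    rw [Finset.sum_const, card_RR, nsmul_eq_mul]
    have h6 : (q.totient : ℝ) ≤ Q + 1 := by
      have : q.totient ≤ Q + 1 := (Nat.totient_le q).trans (by omega)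
      exact_mod_cast this
    have hQ : (0 : ℝ) < (Q : ℝ) + 1 := by positivity
    calc (q.totient : ℝ) * (LL Y * (ε / (2 * (Q + 1)))) ≤
        ((Q : ℝ) + 1) * (LL Y * (ε / (2 * (Q + 1)))) := by gcongr
      _ = ε / 2 * LL Y := by field_simp
  have hQL : (Q : ℝ) ≤ ε / 2 * LL Y := by
    have h4 : 2 * (Q : ℝ) / ε ≤ LL Y := h2
    rw [div_le_iff₀ hε] at h4
    linarith
  have hfin : ∑ p ∈ P, F p - (LL Y : ℂ) * rr q b * JJ β =
      (∑ p ∈ P.filter (fun p => Nat.Coprime p q), F p - (LL Y : ℂ) * rr q b * JJ β) +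
      ∑ p ∈ P.filter (fun p => ¬ Nat.Coprime p q), F p := by
    rw [hsplit]
    ring
  rw [hfin]
  refine (norm_add_le _ _).trans ?_
  calc _ ≤ ε / 2 * LL Y + ε / 2 * LL Y := add_le_add hmain (hbad.trans hQL)
    _ = ε * LL Y := by ring

end Pool.Agent.Lib.TwinAll
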