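import Pool.Agent.Lib.TwinAll.L4a64

/-!
THEOREM A (MP_c6d112_nt), module L4, part b: comparison of the exponential sums over the primes
`p ≤ N / m` and `p ≤ N / (w m)`.
-/

set_option autoImplicit false

open Filter Topology

namespace Pool.Agent.Lib.TwinAll

open Finset

/-- the exponential sum over the primes `p` in `(Y0, Y1]` with `p w m ≤ N` -/
noncomputable def Gf (N Y0 Y1 : ℕ) (θ : ℝ) (w m : ℕ) : ℂ :=
  ∑ p ∈ (PP Y0 Y1).filter (fun p => p ≤ N / (w * m)), ee (θ * ((p : ℝ) * ((w * m : ℕ) : ℝ)))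

/-- the exponential sum over all primes `p ≤ Y` -/
noncomputable def Hf (θ : ℝ) (W Y : ℕ) : ℂ :=
  ∑ p ∈ (Finset.Ioc 0 Y).filter Nat.Prime, ee (θ * ((p : ℝ) * (W : ℝ)))

theorem l4_swap {M : Type*} [AddCommMonoid M] (P : Finset ℕ) (hP : ∀ p ∈ P, 0 < p) (N w : ℕ)
    (hw : 0 < w) (f : ℕ → ℕ → M) :
    ∑ p ∈ P, ∑ m ∈ Finset.Icc 1 (N / p / w), f p m =
      ∑ m ∈ Finset.Icc 1 N, ∑ p ∈ P.filter (fun p => p ≤ N / (w * m)), f p m := by
  refine Finset.sum_comm' ?_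
  intro p m
  simp only [Finset.mem_Icc, Finset.mem_filter]
  constructor
  · rintro ⟨hp, hm1, hm2⟩
    have hp0 := hP p hp
    rw [Nat.div_div_eq_div_mul, Nat.le_div_iff_mul_le (Nat.mul_pos hp0 hw)] at hm2
    refine ⟨⟨hp, ?_⟩, hm1, ?_⟩
    · rw [Nat.le_div_iff_mul_le (Nat.mul_pos hw hm1)]
      calc p * (w * m) = m * (p * w) := by ring
        _ ≤ N := hm2
    · refine le_trans ?_ hm2
      exact Nat.le_mul_of_pos_right m (Nat.mul_pos hp0 hw)
  · rintro ⟨⟨hp, h1⟩, hm1, hm2⟩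
    have hp0 := hP p hp
    rw [Nat.le_div_iff_mul_le (Nat.mul_pos hw hm1)] at h1
    refine ⟨hp, hm1, ?_⟩
    rw [Nat.div_div_eq_div_mul, Nat.le_div_iff_mul_le (Nat.mul_pos hp0 hw)]
    calc m * (p * w) = p * (w * m) := by ring
      _ ≤ N := h1

theorem pp_mem64 {x y p : ℕ} : p ∈ PP x y ↔ (x < p ∧ p ≤ y) ∧ p.Prime := by
  rw [PP, Finset.mem_filter, Finset.mem_Ioc]

theorem card_filter_le_pc (Y0 Y1 y : ℕ) :
    ((PP Y0 Y1).filter (fun p => p ≤ y)).card ≤ pc y := by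
  rw [pc]
  refine Finset.card_le_card fun p hp => ?_
  rw [Finset.mem_filter, pp_mem64] at hp
  rw [Finset.mem_filter, Finset.mem_Ioc]
  exact ⟨⟨hp.1.2.pos, hp.2⟩, hp.1.2⟩

theorem card_filter_le_pc' (Y0 Y1 y : ℕ) :
    ((PP Y0 Y1).filter (fun p => p ≤ y)).card ≤ pc Y1 := by
  rw [pc]
  refine Finset.card_le_card fun p hp => ?_
  rw [Finset.mem_filter, pp_mem64] at hp
  rw [Finset.mem_filter, Finset.mem_Ioc]
  exact ⟨⟨hp.1.2.pos, hp.1.1.2⟩, hp.1.2⟩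

theorem norm_Gf (N Y0 Y1 : ℕ) (θ : ℝ) (w m : ℕ) :
    ‖Gf N Y0 Y1 θ w m‖ ≤ (((PP Y0 Y1).filter (fun p => p ≤ N / (w * m))).card : ℝ) := by
  rw [Gf]
  refine (norm_sum_le _ _).trans ?_
  rw [Finset.sum_congr rfl fun c _ => ee_norm69 _, Finset.sum_const, nsmul_eq_mul, mul_one]

theorem Gf_zero {N Y0 Y1 : ℕ} {θ : ℝ} {w m : ℕ} (h : N / (w * m) < Y0) : Gf N Y0 Y1 θ w m = 0 := by
  rw [Gf]
  refine Finset.sum_eq_zero fun p hp => ?_
  rw [Finset.mem_filter, pp_mem64] at hp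
  omega

theorem norm_Hf (θ : ℝ) (W Y : ℕ) : ‖Hf θ W Y‖ ≤ pc Y := by
  rw [Hf, pc]
  refine (norm_sum_le _ _).trans ?_
  rw [Finset.sum_congr rfl fun c _ => ee_norm69 _, Finset.sum_const, nsmul_eq_mul, mul_one]

theorem Gf_eq {N Y0 Y1 : ℕ} {θ : ℝ} {w m : ℕ} (h0 : Y0 ≤ N / (w * m)) (h1 : N / (w * m) ≤ Y1) :
    Gf N Y0 Y1 θ w m = Hf θ (w * m) (N / (w * m)) - Hf θ (w * m) Y0 := by
  have h2 : (PP Y0 Y1).filter (fun p => p ≤ N / (w * m)) =
      (Finset.Ioc Y0 (N / (w * m))).filter Nat.Prime := by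
    ext p
    rw [Finset.mem_filter, pp_mem64, Finset.mem_filter, Finset.mem_Ioc]
    constructor
    · rintro ⟨⟨⟨h3, h4⟩, h5⟩, h6⟩
      exact ⟨⟨h3, h6⟩, h5⟩
    · rintro ⟨⟨h3, h6⟩, h5⟩
      exact ⟨⟨⟨h3, h6.trans h1⟩, h5⟩, h6⟩
  rw [Gf, h2, Hf, Hf, Finset.sum_filter, Finset.sum_filter, Finset.sum_filter, eq_sub_iff_add_eq,
    add_comm]
  exact Finset.sum_Ioc_consecutive _ (Nat.zero_le _) h0

/-- comparison of `y' / log y'` and `(y / w) / log y`, `y' = y / w` -/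
theorem LL_div {Y0 y w : ℕ} (hw : 0 < w) (hY0 : 1 ≤ Real.log Y0) (h : Y0 ≤ y / w) :
    |LL (y / w) - LL y / w| ≤ LL y / w * (Real.log (2 * w) / Real.log Y0) + 1 := by
  have hY0pos : 0 < Y0 := by
    rcases Nat.eq_zero_or_pos Y0 with h0 | h0
    · rw [h0, Nat.cast_zero, Real.log_zero] at hY0
      norm_num at hY0
    · exact h0
  have hy'pos : 0 < y / w := lt_of_lt_of_le hY0pos h
  have hwr : (0 : ℝ) < w := by exact_mod_cast hw
  have hY0r : (0 : ℝ) < Y0 := by exact_mod_cast hY0pos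
  obtain ⟨y', hy'⟩ : ∃ y', y' = y / w := ⟨_, rfl⟩
  rw [← hy'] at h hy'pos ⊢
  have hy'r : (0 : ℝ) < y' := by exact_mod_cast hy'pos
  have e1 : (y' : ℝ) * w ≤ y := by
    have : y' * w ≤ y := by rw [hy']; exact Nat.div_mul_le_self y w
    exact_mod_cast this
  have e2 : (y : ℝ) < w * (y' + 1) := by
    have h1 := Nat.div_add_mod y w
    have h2 := Nat.mod_lt y hw
    have : y < w * (y' + 1) := by rw [hy']; nlinarith
    exact_mod_cast this
  have hyr : (0 : ℝ) < y := by nlinarith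
  have hy'1 : (1 : ℝ) ≤ y' := by exact_mod_cast hy'pos
  have l0 : Real.log Y0 ≤ Real.log y' := Real.log_le_log hY0r (by exact_mod_cast h)
  have e3 : (y' : ℝ) ≤ y / w := by
    rw [le_div_iff₀ hwr]
    exact e1
  have hw1 : (1 : ℝ) ≤ w := by exact_mod_cast hw
  have e4 : (y' : ℝ) ≤ y := by nlinarith
  have l1 : Real.log y' ≤ Real.log y := Real.log_le_log hy'r e4
  have l2 : Real.log y - Real.log y' ≤ Real.log (2 * w) := by
    have h1 : Real.log y ≤ Real.log (2 * w * y') := by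
      refine Real.log_le_log hyr ?_
      nlinarith
    rw [Real.log_mul (by positivity) hy'r.ne'] at h1
    linarith
  have l3 : 0 ≤ Real.log (2 * w) := by linarith
  have p1 : 0 < Real.log y' := by linarith
  have p2 : 0 < Real.log y := by linarith
  have p0 : 0 < Real.log Y0 := by linarith
  rw [LL, LL, abs_le]
  constructor
  · -- lower bound
    have h1 : (y : ℝ) / Real.log y / w - y' / Real.log y' ≤ 1 := by
      have h2 : (y' : ℝ) / Real.log y ≤ y' / Real.log y' :=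
        div_le_div_of_nonneg_left hy'r.le p1 l1
      have h3 : (y : ℝ) / Real.log y / w - y' / Real.log y = (y / w - y') / Real.log y := by
        field_simp
      have h4 : (y : ℝ) / w - y' ≤ 1 := by
        rw [sub_le_iff_le_add, div_le_iff₀ hwr]
        nlinarith
      have h5 : ((y : ℝ) / w - y') / Real.log y ≤ 1 := by
        rw [div_le_one p2]
        linarith
      linarith
    have h6 : 0 ≤ (y : ℝ) / Real.log y / w * (Real.log (2 * w) / Real.log Y0) := by positivity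
    linarith
  · -- upper bound
    have h1 : (y' : ℝ) / Real.log y' ≤ (y / w) / Real.log y' :=
      div_le_div_of_nonneg_right e3 p1.le
    have h2 : ((y : ℝ) / w) / Real.log y' - (y : ℝ) / Real.log y / w =
        (y : ℝ) / Real.log y / w * ((Real.log y - Real.log y') / Real.log y') := by
      field_simp
    have h3 : (Real.log y - Real.log y') / Real.log y' ≤ Real.log (2 * w) / Real.log Y0 :=
      div_le_div₀ l3 l2 p0 l0
    have h4 : 0 ≤ (y : ℝ) / Real.log y / w := by positivity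
    have h5 := mul_le_mul_of_nonneg_left h3 h4
    linarith

section

variable {N Y0 Y1 w q Q : ℕ} {a : ℤ} {θ T ε : ℝ}

/-- the exponential sum for the frequency `θ W` -/
theorem l4_H (hN : 0 < N) (hq : 1 ≤ q) (hY0 : 1 ≤ Y0)
    (hexp : ∀ Y, Y0 ≤ Y → ∀ (b : ℤ) (β : ℝ), |β| ≤ T →
      ‖∑ p ∈ (Finset.Ioc 0 Y).filter Nat.Prime, ee ((b : ℝ) / q * p + β * p / Y) -
        (LL Y : ℂ) * rr q b * JJ β‖ ≤ ε * LL Y)
    (hθ : |θ - (a : ℝ) / q| ≤ T / N) {W Y : ℕ} (hW : W * Y ≤ N) (hY : Y0 ≤ Y) :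
    ‖Hf θ W Y - (LL Y : ℂ) * rr q (W * a) * JJ ((θ - (a : ℝ) / q) * (W * Y : ℕ))‖ ≤ ε * LL Y := by
  have hYr : (Y : ℝ) ≠ 0 := by
    have : 0 < Y := by omega
    exact_mod_cast this.ne'
  have hqr : (q : ℝ) ≠ 0 := by
    have : 0 < q := hq
    exact_mod_cast this.ne'
  have hNr : (0 : ℝ) < N := by exact_mod_cast hN
  have h1 := hexp Y hY (W * a) ((θ - (a : ℝ) / q) * (W * Y : ℕ)) (by
    rw [abs_mul, Nat.abs_cast]
    calc |θ - (a : ℝ) / q| * ((W * Y : ℕ) : ℝ) ≤ (T / N) * N := by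
          refine mul_le_mul hθ (by exact_mod_cast hW) (Nat.cast_nonneg _)
            ((abs_nonneg _).trans hθ)
      _ = T := div_mul_cancel₀ _ hNr.ne')
  refine le_of_eq_of_le ?_ h1
  congr 2
  rw [Hf]
  refine Finset.sum_congr rfl fun p _ => ?_
  congr 1
  push_cast
  field_simp
  ring

/-- the main range -/
theorem l4_main (hN : 0 < N) (hq : 1 ≤ q) (hY0 : 1 ≤ Real.log Y0) (hT : 0 ≤ T) (hε0 : 0 ≤ ε)
    (hε1 : ε ≤ 1)
    (hexp : ∀ Y, Y0 ≤ Y → ∀ (b : ℤ) (β : ℝ), |β| ≤ T →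
      ‖∑ p ∈ (Finset.Ioc 0 Y).filter Nat.Prime, ee ((b : ℝ) / q * p + β * p / Y) -
        (LL Y : ℂ) * rr q b * JJ β‖ ≤ ε * LL Y)
    (hpc : ∀ Y, Y0 ≤ Y → (pc Y : ℝ) ≤ 2 * LL Y)
    (hθ : |θ - (a : ℝ) / q| ≤ T / N) (hw : 0 < w) (hwq : Nat.Coprime w q)
    (hlam : Real.log (2 * w) / Real.log Y0 ≤ 1) {m : ℕ} (hm : 0 < m)
    (h0 : Y0 ≤ N / (w * m)) (h1 : N / (1 * m) ≤ Y1) :
    ‖Gf N Y0 Y1 θ w m - Gf N Y0 Y1 θ 1 m / w‖ ≤
      LL (N / m) / w * (Real.log (2 * w) / Real.log Y0 + 2 * Real.pi * T / Y0 + 3 * ε) +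
        6 * LL Y0 := by
  have hY0pos : 0 < Y0 := by
    rcases Nat.eq_zero_or_pos Y0 with h0 | h0
    · rw [h0, Nat.cast_zero, Real.log_zero] at hY0
      norm_num at hY0
    · exact h0
  have hY0r : (0 : ℝ) < Y0 := by exact_mod_cast hY0pos
  have hwr : (0 : ℝ) < w := by exact_mod_cast hw
  have hw1 : (1 : ℝ) ≤ w := by exact_mod_cast hw
  have hNr : (0 : ℝ) < N := by exact_mod_cast hN
  have hmr : (0 : ℝ) < m := by exact_mod_cast hm
  rw [one_mul] at h1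
  have hdiv : N / (w * m) = N / m / w := by
    rw [Nat.div_div_eq_div_mul, mul_comm]
  obtain ⟨y, hy⟩ : ∃ y, y = N / m := ⟨_, rfl⟩
  rw [← hy] at hdiv h1 ⊢
  obtain ⟨y', hy'⟩ : ∃ y', y' = y / w := ⟨_, rfl⟩
  have hdiv' : N / (w * m) = y' := by rw [hdiv, hy']
  have hyy : y' ≤ y := by rw [hy']; exact Nat.div_le_self y w
  rw [hdiv'] at h0
  have h0y : Y0 ≤ y := h0.trans hyy
  have hdiv1 : N / (1 * m) = y := by rw [one_mul, hy]
  have k1 : 1 * m * y ≤ N := by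
    rw [one_mul, hy]
    exact Nat.mul_div_le N m
  have k2 : w * m * y' ≤ N := by
    rw [← hdiv']
    exact Nat.mul_div_le N (w * m)
  have gw : Gf N Y0 Y1 θ w m = Hf θ (w * m) y' - Hf θ (w * m) Y0 := by
    have := Gf_eq (N := N) (Y0 := Y0) (Y1 := Y1) (θ := θ) (w := w) (m := m)
      (by rw [hdiv']; exact h0) (by rw [hdiv']; exact hyy.trans h1)
    rwa [hdiv'] at this
  have g1 : Gf N Y0 Y1 θ 1 m = Hf θ (1 * m) y - Hf θ (1 * m) Y0 := by
    have := Gf_eq (N := N) (Y0 := Y0) (Y1 := Y1) (θ := θ) (w := 1) (m := m)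
      (by rw [hdiv1]; exact h0y) (by rw [hdiv1]; exact h1)
    rwa [hdiv1] at this
  have Ew := l4_H hN hq hY0pos hexp hθ k2 h0
  have E1 := l4_H hN hq hY0pos hexp hθ k1 h0y
  -- the singular factor
  have hr : rr q (((w * m : ℕ) : ℤ) * a) = rr q (((1 * m : ℕ) : ℤ) * a) := by
    have h2 := rr_mul q hq w hwq (((1 * m : ℕ) : ℤ) * a)
    rw [← h2]
    congr 1
    push_cast
    ring
  rw [hr] at Ew
  have hrn := norm_rr q hq (((1 * m : ℕ) : ℤ) * a)
  generalize rr q (((1 * m : ℕ) : ℤ) * a) = r at Ew E1 hrn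
  obtain ⟨Jw, hJw⟩ : ∃ Jw, Jw = JJ ((θ - (a : ℝ) / q) * (w * m * y' : ℕ)) := ⟨_, rfl⟩
  obtain ⟨J1, hJ1⟩ : ∃ J1, J1 = JJ ((θ - (a : ℝ) / q) * (1 * m * y : ℕ)) := ⟨_, rfl⟩
  rw [← hJw] at Ew
  rw [← hJ1] at E1
  have hJwn : ‖Jw‖ ≤ 1 := by rw [hJw]; exact norm_JJ _
  have hJ : ‖Jw - J1‖ ≤ 2 * Real.pi * T / Y0 := by
    rw [hJw, hJ1]
    refine (JJ_lip _ _).trans ?_
    rw [← mul_sub, abs_mul]
    have hgoal : 2 * Real.pi * T / Y0 = 2 * Real.pi * (T / Y0) := by ring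
    rw [hgoal]
    refine mul_le_mul_of_nonneg_left ?_ (by positivity)
    have k3 : |((w * m * y' : ℕ) : ℝ) - ((1 * m * y : ℕ) : ℝ)| ≤ w * m := by
      have e1 : y' * w ≤ y := by rw [hy']; exact Nat.div_mul_le_self y w
      have e2 : y ≤ w * (y' + 1) := by
        have h1 := Nat.div_add_mod y w
        have h2 := Nat.mod_lt y hw
        rw [hy']; nlinarith
      have e3 : w * m * y' ≤ 1 * m * y := by
        calc w * m * y' = m * (y' * w) := by ring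
          _ ≤ m * y := Nat.mul_le_mul_left m e1
          _ = 1 * m * y := by ring
      have e4 : 1 * m * y ≤ w * m * y' + w * m := by
        calc 1 * m * y = m * y := by ring
          _ ≤ m * (w * (y' + 1)) := Nat.mul_le_mul_left m e2
          _ = w * m * y' + w * m := by ring
      have e3' : ((w * m * y' : ℕ) : ℝ) ≤ ((1 * m * y : ℕ) : ℝ) := by exact_mod_cast e3
      have e4' : ((1 * m * y : ℕ) : ℝ) ≤ ((w * m * y' : ℕ) : ℝ) + w * m := by exact_mod_cast e4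
      rw [abs_le]
      constructor
      · linarith
      · have : (0 : ℝ) ≤ w * m := by positivity
        linarith
    have k4 : (w * m : ℝ) * Y0 ≤ N := by
      have : w * m * Y0 ≤ N := (Nat.mul_le_mul_left _ h0).trans k2
      exact_mod_cast this
    calc |θ - (a : ℝ) / q| * |((w * m * y' : ℕ) : ℝ) - ((1 * m * y : ℕ) : ℝ)|
        ≤ (T / N) * (w * m) := mul_le_mul hθ k3 (abs_nonneg _) ((abs_nonneg _).trans hθ)
      _ ≤ T / Y0 := by
        rw [div_mul_eq_mul_div, div_le_div_iff₀ hNr hY0r]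
        nlinarith
  -- sizes
  have hLL := LL_div hw hY0 (h := by rw [← hy']; exact h0) (y := y)
  rw [← hy'] at hLL
  have hlogy : 0 < Real.log y := by
    have : Real.log Y0 ≤ Real.log y := Real.log_le_log hY0r (by exact_mod_cast h0y)
    linarith
  have hL0 : 0 ≤ LL y / w := by
    rw [LL]
    positivity
  have hLY0 : 1 ≤ LL Y0 := by
    rw [LL, le_div_iff₀ (by linarith), one_mul]
    have := Real.log_le_sub_one_of_pos hY0r
    linarith
  have hLy' : LL y' ≤ 2 * (LL y / w) + 1 := by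
    have h2 := (abs_le.1 hLL).2
    have h3 := mul_le_mul_of_nonneg_left hlam hL0
    linarith
  have hP0w : ‖Hf θ (w * m) Y0‖ ≤ 2 * LL Y0 := (norm_Hf _ _ _).trans (hpc Y0 le_rfl)
  have hP01 : ‖Hf θ (1 * m) Y0‖ ≤ 2 * LL Y0 := (norm_Hf _ _ _).trans (hpc Y0 le_rfl)
  rw [gw, g1]
  have hsplit : Hf θ (w * m) y' - Hf θ (w * m) Y0 - (Hf θ (1 * m) y - Hf θ (1 * m) Y0) / w =
      ((LL y' - LL y / w : ℝ) : ℂ) * r * Jw + ((LL y / w : ℝ) : ℂ) * r * (Jw - J1) +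
      (Hf θ (w * m) y' - (LL y' : ℂ) * r * Jw) -
      (Hf θ (1 * m) y - (LL y : ℂ) * r * J1) / w - Hf θ (w * m) Y0 + Hf θ (1 * m) Y0 / w := by
    push_cast
    ring
  rw [hsplit]
  have hnw : ∀ x : ℂ, ‖x / (w : ℂ)‖ = ‖x‖ / w := fun x => by
    rw [norm_div, Complex.norm_natCast]
  have t1 : ‖((LL y' - LL y / w : ℝ) : ℂ) * r * Jw‖ ≤ |LL y' - LL y / w| := by
    rw [norm_mul, norm_mul, Complex.norm_real, Real.norm_eq_abs]
    calc _ ≤ |LL y' - LL y / w| * 1 * 1 := by gcongr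
      _ = _ := by ring
  have t2 : ‖((LL y / w : ℝ) : ℂ) * r * (Jw - J1)‖ ≤ LL y / w * (2 * Real.pi * T / Y0) := by
    rw [norm_mul, norm_mul, Complex.norm_real, Real.norm_eq_abs, abs_of_nonneg hL0]
    calc _ ≤ LL y / w * 1 * (2 * Real.pi * T / Y0) := by gcongr
      _ = _ := by ring
  have t3 : ‖(Hf θ (1 * m) y - (LL y : ℂ) * r * J1) / w‖ ≤ ε * (LL y / w) := by
    rw [hnw, ← mul_div_assoc]
    exact div_le_div_of_nonneg_right E1 hwr.le
  have t4 : ‖Hf θ (1 * m) Y0 / (w : ℂ)‖ ≤ 2 * LL Y0 := by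
    rw [hnw]
    exact (div_le_self (norm_nonneg _) hw1).trans hP01
  have t5 : ε * LL y' ≤ ε * (2 * (LL y / w)) + 1 := by
    have h2 := mul_le_mul_of_nonneg_left hLy' hε0
    linarith
  calc _ ≤ ‖((LL y' - LL y / w : ℝ) : ℂ) * r * Jw‖ + ‖((LL y / w : ℝ) : ℂ) * r * (Jw - J1)‖ +
        ‖Hf θ (w * m) y' - (LL y' : ℂ) * r * Jw‖ +
        ‖(Hf θ (1 * m) y - (LL y : ℂ) * r * J1) / w‖ + ‖Hf θ (w * m) Y0‖ +
        ‖Hf θ (1 * m) Y0 / (w : ℂ)‖ := by
        refine (norm_add_le _ _).trans (add_le_add_left ?_ _)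
        refine (norm_sub_le _ _).trans (add_le_add_left ?_ _)
        refine (norm_sub_le _ _).trans (add_le_add_left ?_ _)
        refine (norm_add_le _ _).trans (add_le_add_left ?_ _)
        exact norm_add_le _ _
    _ ≤ (LL y / w * (Real.log (2 * w) / Real.log Y0) + 1) + LL y / w * (2 * Real.pi * T / Y0) +
        (ε * (2 * (LL y / w)) + 1) + ε * (LL y / w) + 2 * LL Y0 + 2 * LL Y0 := by
        gcongr
        · exact t1.trans hLL
        · exact Ew.trans t5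
    _ ≤ _ := by
        have : LL y / w * (Real.log (2 * w) / Real.log Y0 + 2 * Real.pi * T / Y0 + 3 * ε) =
          LL y / w * (Real.log (2 * w) / Real.log Y0) + LL y / w * (2 * Real.pi * T / Y0) +
          3 * (ε * (LL y / w)) := by ring
        rw [this]
        linarith

end

end Pool.Agent.Lib.TwinAll
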