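import Pool.Agent.Lib.TwinAll.L4b64

/-!
THEOREM A (MP_c6d112_nt), module L4, part c: the sum over `m`.
-/

set_option autoImplicit false

open Filter Topology

namespace Pool.Agent.Lib.TwinAll

open Finset

theorem l4_s1 (a : ℕ → ℝ) (ha : ∀ m, 0 ≤ a m) (N M : ℕ) (C : ℝ) (hC : 0 ≤ C) :
    ∑ m ∈ Finset.Icc 1 N, a m * (if m ≤ M then C else 0) ≤ C * ∑ m ∈ Finset.Icc 1 M, a m := by
  have h1 : ∀ m ∈ Finset.Icc 1 N, a m * (if m ≤ M then C else 0) =
      if m ≤ M then C * a m else 0 := by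
    intro m _
    split_ifs
    · ring
    · ring
  rw [Finset.sum_congr rfl h1, ← Finset.sum_filter, Finset.mul_sum]
  refine Finset.sum_le_sum_of_subset_of_nonneg ?_ fun m _ _ => mul_nonneg hC (ha m)
  intro m hm
  rw [Finset.mem_filter, Finset.mem_Icc] at hm
  rw [Finset.mem_Icc]
  exact ⟨hm.1.1, hm.2⟩

theorem l4_s2 (a : ℕ → ℝ) (ha : ∀ m, 0 ≤ a m) (N M0 M1 : ℕ) (C : ℝ) (hC : 0 ≤ C) :
    ∑ m ∈ Finset.Icc 1 N, a m * (if M0 < m ∧ m ≤ M1 then C / m else 0) ≤
      C * ∑ m ∈ Finset.Ioc M0 M1, a m / m := by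
  have h1 : ∀ m ∈ Finset.Icc 1 N, a m * (if M0 < m ∧ m ≤ M1 then C / m else 0) =
      if M0 < m ∧ m ≤ M1 then C * (a m / m) else 0 := by
    intro m _
    split_ifs
    · ring
    · ring
  rw [Finset.sum_congr rfl h1, ← Finset.sum_filter, Finset.mul_sum]
  refine Finset.sum_le_sum_of_subset_of_nonneg ?_ fun m _ _ =>
    mul_nonneg hC (div_nonneg (ha m) (Nat.cast_nonneg _))
  intro m hm
  rw [Finset.mem_filter] at hm
  rw [Finset.mem_Ioc]
  exact hm.2

/-- the sum of `a m * LL (N / m)` over `m ≤ M ≤ N / Y0` -/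
theorem l4_s3 (a : ℕ → ℝ) (ha : ∀ m, 0 ≤ a m) (N Y0 Y1 M : ℕ) (hM : M ≤ N) (hMY : M * Y0 ≤ N)
    (hY0 : 0 < Y0)
    (hpc : ∀ Y, Y0 ≤ Y → (pc Y : ℝ) ≤ 2 * LL Y ∧ LL Y ≤ 2 * pc Y) (hlog : 1 ≤ Real.log Y0)
    (hA : ∑ m ∈ Finset.Icc 1 M, a m ≤ 2 * M)
    (hAp : ∀ p ∈ PP Y0 Y1, ∑ m ∈ Finset.Icc 1 (N / p), a m ≤ 2 * ((N / p : ℕ) : ℝ)) :
    ∑ m ∈ Finset.Icc 1 N, a m * (if m ≤ M ∧ N / m ≤ Y1 then LL (N / m) else 0) ≤
      N * (8 / Real.log Y0 + 4 * SS Y0 Y1) := by
  have hY0r : (0 : ℝ) < Y0 := by exact_mod_cast hY0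
  have h1 : ∀ m ∈ Finset.Icc 1 N, a m * (if m ≤ M ∧ N / m ≤ Y1 then LL (N / m) else 0) ≤
      a m * (if m ≤ M then 2 * (pc Y0 : ℝ) else 0) +
      2 * ∑ p ∈ (PP Y0 Y1).filter (fun p => p ≤ N / (1 * m)), a m := by
    intro m hm
    rw [Finset.mem_Icc] at hm
    rw [Finset.sum_const, nsmul_eq_mul]
    by_cases h : m ≤ M ∧ N / m ≤ Y1
    · rw [if_pos h, if_pos h.1]
      have h2 : Y0 ≤ N / m := by
        rw [Nat.le_div_iff_mul_le (by omega)]
        calc Y0 * m ≤ Y0 * M := Nat.mul_le_mul_left _ h.1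
          _ = M * Y0 := mul_comm _ _
          _ ≤ N := hMY
      have h3 := (hpc _ h2).2
      have h4 : pc (N / m) ≤ pc Y0 + ((PP Y0 Y1).filter (fun p => p ≤ N / (1 * m))).card := by
        rw [pc, pc, one_mul]
        refine le_trans (Finset.card_le_card ?_) (Finset.card_union_le _ _)
        intro p hp
        rw [Finset.mem_filter, Finset.mem_Ioc] at hp
        rw [Finset.mem_union, Finset.mem_filter, Finset.mem_Ioc, Finset.mem_filter, pp_mem64]
        by_cases h5 : p ≤ Y0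
        · left
          exact ⟨⟨hp.1.1, h5⟩, hp.2⟩
        · right
          exact ⟨⟨⟨by omega, hp.1.2.trans h.2⟩, hp.2⟩, hp.1.2⟩
      have h4' : (pc (N / m) : ℝ) ≤ pc Y0 +
          (((PP Y0 Y1).filter (fun p => p ≤ N / (1 * m))).card : ℝ) := by exact_mod_cast h4
      have h5 := mul_le_mul_of_nonneg_left (h3.trans (mul_le_mul_of_nonneg_left h4' zero_le_two))
        (ha m)
      refine h5.trans (le_of_eq ?_)
      ring
    · rw [if_neg h, mul_zero]
      have h2 : 0 ≤ a m * (if m ≤ M then 2 * (pc Y0 : ℝ) else 0) := by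
        refine mul_nonneg (ha m) ?_
        split_ifs
        · positivity
        · exact le_rfl
      have h3 : 0 ≤ 2 * ((((PP Y0 Y1).filter (fun p => p ≤ N / (1 * m))).card : ℝ) * a m) := by
        have := ha m
        positivity
      linarith
  refine (Finset.sum_le_sum h1).trans ?_
  rw [Finset.sum_add_distrib, ← Finset.mul_sum]
  have h2 := l4_s1 a ha N M (2 * (pc Y0 : ℝ)) (by positivity)
  have hP : ∀ p ∈ PP Y0 Y1, 0 < p := fun p hp => by
    rw [pp_mem64] at hp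
    exact hp.2.pos
  have h3 := l4_swap (PP Y0 Y1) hP N 1 one_pos (fun _ m => a m)
  rw [← h3]
  have h4 : ∑ p ∈ PP Y0 Y1, ∑ m ∈ Finset.Icc 1 (N / p / 1), a m ≤ 2 * N * SS Y0 Y1 := by
    rw [SS, Finset.mul_sum]
    refine Finset.sum_le_sum fun p hp => ?_
    rw [Nat.div_one]
    refine (hAp p hp).trans ?_
    have h5 : ((N / p : ℕ) : ℝ) ≤ (N : ℝ) / p := Nat.cast_div_le
    have : 2 * (N : ℝ) * (1 / p) = 2 * ((N : ℝ) / p) := by ring
    rw [this]
    exact mul_le_mul_of_nonneg_left h5 zero_le_two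
  have h5 : 2 * (pc Y0 : ℝ) * ∑ m ∈ Finset.Icc 1 M, a m ≤ N * (8 / Real.log Y0) := by
    have h6 := (hpc Y0 le_rfl).1
    have hlog0 : 0 < Real.log Y0 := by linarith
    have h7 : (M : ℝ) * Y0 ≤ N := by exact_mod_cast hMY
    calc 2 * (pc Y0 : ℝ) * ∑ m ∈ Finset.Icc 1 M, a m ≤ 2 * (2 * LL Y0) * (2 * M) := by
          have : 0 ≤ LL Y0 := by rw [LL]; positivity
          have hs0 : 0 ≤ ∑ m ∈ Finset.Icc 1 M, a m := Finset.sum_nonneg fun m _ => ha m
          gcongr
      _ = (M * Y0) * (8 / Real.log Y0) := by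
          rw [LL]
          ring
      _ ≤ N * (8 / Real.log Y0) := by
          have : 0 ≤ 8 / Real.log Y0 := by positivity
          gcongr
  linarith

/-- the total error -/
theorem l4_core {N Y0 Y1 w q : ℕ} {b : ℤ} {θ T ε : ℝ} (a : ℕ → ℝ) (ha : ∀ m, 0 ≤ a m)
    (hN : 0 < N) (hq : 1 ≤ q) (hY0 : 1 ≤ Real.log Y0) (hY01 : Y0 ≤ Y1) (hT : 0 ≤ T) (hε0 : 0 ≤ ε)
    (hε1 : ε ≤ 1)
    (hexp : ∀ Y, Y0 ≤ Y → ∀ (b : ℤ) (β : ℝ), |β| ≤ T →
      ‖∑ p ∈ (Finset.Ioc 0 Y).filter Nat.Prime, ee ((b : ℝ) / q * p + β * p / Y) -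
        (LL Y : ℂ) * rr q b * JJ β‖ ≤ ε * LL Y)
    (hpc : ∀ Y, Y0 ≤ Y → (pc Y : ℝ) ≤ 2 * LL Y ∧ LL Y ≤ 2 * pc Y)
    (hθ : |θ - (b : ℝ) / q| ≤ T / N) (hw : 0 < w) (hwq : Nat.Coprime w q)
    (hlam : Real.log (2 * w) / Real.log Y0 ≤ 1)
    (hN1 : 1 ≤ N / (w * Y1))
    (hA : ∀ M, N / (w * Y1) ≤ M → ∑ m ∈ Finset.Icc 1 M, a m ≤ 2 * M) :
    ∑ m ∈ Finset.Icc 1 N, a m * ‖Gf N Y0 Y1 θ w m - Gf N Y0 Y1 θ 1 m / w‖ ≤
      (N : ℝ) / w * (28 / Real.log Y0 + 8 * (Real.log (2 * w) / Real.log Y0) +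
        8 * (Real.log (2 * w) / Real.log Y0 + 2 * Real.pi * T / Y0 + 3 * ε) *
          (1 + SS Y0 Y1)) := by
  have hY0pos : 0 < Y0 := by
    rcases Nat.eq_zero_or_pos Y0 with h0 | h0
    · rw [h0, Nat.cast_zero, Real.log_zero] at hY0
      norm_num at hY0
    · exact h0
  have hY1pos : 0 < Y1 := lt_of_lt_of_le hY0pos hY01
  have hY0r : (0 : ℝ) < Y0 := by exact_mod_cast hY0pos
  have hY1r : (0 : ℝ) < Y1 := by exact_mod_cast hY1pos
  have hwr : (0 : ℝ) < w := by exact_mod_cast hw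
  have hw1 : (1 : ℝ) ≤ w := by exact_mod_cast hw
  have hNr : (0 : ℝ) < N := by exact_mod_cast hN
  have hlog0 : 0 < Real.log Y0 := by linarith
  have hlog01 : Real.log Y0 ≤ Real.log Y1 := Real.log_le_log hY0r (by exact_mod_cast hY01)
  have hlog1 : 0 < Real.log Y1 := by linarith
  have hSS : 0 ≤ SS Y0 Y1 := by
    rw [SS]
    exact Finset.sum_nonneg fun p _ => by positivity
  obtain ⟨lam', hlam'⟩ : ∃ l, l = Real.log (2 * w) / Real.log Y0 := ⟨_, rfl⟩
  have hlogw : 0 ≤ Real.log (2 * w) := Real.log_nonneg (by linarith)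
  have hlam0 : 0 ≤ lam' := by rw [hlam']; positivity
  obtain ⟨AA, hAA⟩ : ∃ A, A = Real.log (2 * w) / Real.log Y0 + 2 * Real.pi * T / Y0 + 3 * ε :=
    ⟨_, rfl⟩
  have hAA0 : 0 ≤ AA := by rw [hAA]; positivity
  have hL0 : ∀ Y : ℕ, 0 ≤ LL Y := fun Y => by
    rw [LL]
    exact div_nonneg (Nat.cast_nonneg _) (Real.log_natCast_nonneg _)
  -- the order of the ranges
  have o1 : N / (w * Y1) ≤ N / Y1 := Nat.div_le_div_left (Nat.le_mul_of_pos_left _ hw) hY1pos
  have o2 : N / (w * Y1) ≤ N / (w * Y0) :=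
    Nat.div_le_div_left (Nat.mul_le_mul_left _ hY01) (Nat.mul_pos hw hY0pos)
  have o3 : N / (w * Y0) ≤ N / Y0 := Nat.div_le_div_left (Nat.le_mul_of_pos_left _ hw) hY0pos
  -- pointwise bound
  have hpoint : ∀ m ∈ Finset.Icc 1 N,
      ‖Gf N Y0 Y1 θ w m - Gf N Y0 Y1 θ 1 m / w‖ ≤
      (if m ≤ N / Y1 then 2 * LL Y1 / w else 0) +
      (if m ≤ N / (w * Y1) then 2 * LL Y1 else 0) +
      (if N / (w * Y1) < m ∧ m ≤ N / Y1 then (2 * (N / w) / Real.log Y0) / m else 0) +
      (if N / (w * Y0) < m ∧ m ≤ N / Y0 then (2 * (N / w) / Real.log Y0) / m else 0) +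
      ((if m ≤ N / (w * Y0) ∧ N / m ≤ Y1 then LL (N / m) else 0) * (AA / w) +
      (if m ≤ N / (w * Y0) then 6 * LL Y0 else 0)) := by
    intro m hm
    rw [Finset.mem_Icc] at hm
    have hm0 : 0 < m := hm.1
    have hmr : (0 : ℝ) < m := by exact_mod_cast hm0
    have b1 : 0 ≤ (if m ≤ N / Y1 then 2 * LL Y1 / w else 0) := by
      split_ifs
      · exact div_nonneg (mul_nonneg zero_le_two (hL0 _)) hwr.le
      · exact le_rfl
    have b2 : 0 ≤ (if m ≤ N / (w * Y1) then 2 * LL Y1 else 0) := by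
      split_ifs
      · exact mul_nonneg zero_le_two (hL0 _)
      · exact le_rfl
    have b3 : 0 ≤ (if N / (w * Y1) < m ∧ m ≤ N / Y1 then (2 * (N / w) / Real.log Y0) / m
        else 0) := by
      split_ifs
      · positivity
      · exact le_rfl
    have b4 : 0 ≤ (if N / (w * Y0) < m ∧ m ≤ N / Y0 then (2 * (N / w) / Real.log Y0) / m
        else 0) := by
      split_ifs
      · positivity
      · exact le_rfl
    have b5 : 0 ≤ (if m ≤ N / (w * Y0) ∧ N / m ≤ Y1 then LL (N / m) else 0) * (AA / w) := by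
      refine mul_nonneg ?_ (by positivity)
      split_ifs
      · exact hL0 _
      · exact le_rfl
    have b6 : 0 ≤ (if m ≤ N / (w * Y0) then 6 * LL Y0 else 0) := by
      split_ifs
      · exact mul_nonneg (by norm_num) (hL0 _)
      · exact le_rfl
    have hwm : 0 < w * m := Nat.mul_pos hw hm0
    have hnw : ∀ x : ℂ, ‖x / (w : ℂ)‖ = ‖x‖ / w := fun x => by
      rw [norm_div, Complex.norm_natCast]
    -- bound of `LL y`
    have hLLb : ∀ W, 0 < W → Y0 ≤ N / (W * m) → LL (N / (W * m)) ≤ (N / W) / Real.log Y0 / m := by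
      intro W hW h
      have hWr : (0 : ℝ) < W := by exact_mod_cast hW
      have h1 : ((N / (W * m) : ℕ) : ℝ) ≤ (N : ℝ) / ((W * m : ℕ) : ℝ) := Nat.cast_div_le
      push_cast at h1
      have h2 : Real.log Y0 ≤ Real.log ((N / (W * m) : ℕ) : ℝ) :=
        Real.log_le_log hY0r (by exact_mod_cast h)
      rw [LL]
      calc ((N / (W * m) : ℕ) : ℝ) / Real.log ((N / (W * m) : ℕ) : ℝ)
          ≤ (N / (W * m)) / Real.log Y0 := div_le_div₀ (by positivity) h1 hlog0 h2
        _ = (N / W) / Real.log Y0 / m := by field_simp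
    by_cases hy0 : N / m < Y0
    · have g1 : Gf N Y0 Y1 θ 1 m = 0 := Gf_zero (by rwa [one_mul])
      have gw : Gf N Y0 Y1 θ w m = 0 := Gf_zero (by
        refine lt_of_le_of_lt ?_ hy0
        exact Nat.div_le_div_left (Nat.le_mul_of_pos_left _ hw) hm0)
      rw [g1, gw, zero_div, sub_zero, norm_zero]
      linarith
    · have hy0' : Y0 ≤ N / m := not_lt.1 hy0
      by_cases hy1 : N / m ≤ Y1
      · by_cases hyw : N / (w * m) < Y0
        · -- range 4
          have gw : Gf N Y0 Y1 θ w m = 0 := Gf_zero hyw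
          have c1 : m ≤ N / Y0 := by
            rw [Nat.le_div_iff_mul_le hY0pos]
            rw [Nat.le_div_iff_mul_le hm0] at hy0'
            rwa [mul_comm]
          have c2 : N / (w * Y0) < m := by
            rw [Nat.div_lt_iff_lt_mul hwm] at hyw
            rw [Nat.div_lt_iff_lt_mul (Nat.mul_pos hw hY0pos)]
            calc N < Y0 * (w * m) := hyw
              _ = m * (w * Y0) := by ring
          rw [gw, zero_sub, norm_neg, hnw]
          have g1 : ‖Gf N Y0 Y1 θ 1 m‖ ≤ 2 * (N / Real.log Y0 / m) := by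
            refine (norm_Gf _ _ _ _ _ _).trans ?_
            have h1 := card_filter_le_pc Y0 Y1 (N / (1 * m))
            have h1' : (((PP Y0 Y1).filter (fun p => p ≤ N / (1 * m))).card : ℝ) ≤
                pc (N / (1 * m)) := by exact_mod_cast h1
            have h2 := (hpc (N / (1 * m)) (by rwa [one_mul])).1
            have h3 := hLLb 1 one_pos (by rwa [one_mul])
            push_cast at h3
            rw [div_one] at h3
            linarith
          have h2 : ‖Gf N Y0 Y1 θ 1 m‖ / w ≤ (2 * (N / w) / Real.log Y0) / m := by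
            calc ‖Gf N Y0 Y1 θ 1 m‖ / w ≤ (2 * (N / Real.log Y0 / m)) / w :=
                  div_le_div_of_nonneg_right g1 hwr.le
              _ = (2 * (N / w) / Real.log Y0) / m := by field_simp
          have e4 : (if N / (w * Y0) < m ∧ m ≤ N / Y0 then
              (2 * ((N : ℝ) / w) / Real.log Y0) / m else 0) =
              (2 * ((N : ℝ) / w) / Real.log Y0) / m := if_pos ⟨c2, c1⟩
          rw [e4]
          linarith
        · -- main range
          have hyw' : Y0 ≤ N / (w * m) := not_lt.1 hyw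
          have c1 : m ≤ N / (w * Y0) := by
            rw [Nat.le_div_iff_mul_le (Nat.mul_pos hw hY0pos)]
            rw [Nat.le_div_iff_mul_le hwm] at hyw'
            calc m * (w * Y0) = Y0 * (w * m) := by ring
              _ ≤ N := hyw'
          have h1 := l4_main hN hq hY0 hT hε0 hε1 hexp (fun Y hY => (hpc Y hY).1) hθ hw hwq hlam
            hm0 hyw' (by rwa [one_mul] : N / (1 * m) ≤ Y1)
          have e5 : (if m ≤ N / (w * Y0) ∧ N / m ≤ Y1 then LL (N / m) else 0) = LL (N / m) :=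
            if_pos ⟨c1, hy1⟩
          have e6 : (if m ≤ N / (w * Y0) then 6 * LL Y0 else 0) = 6 * LL Y0 := if_pos c1
          rw [e5, e6]
          rw [← hAA] at h1
          have h2 : LL (N / m) / w * AA = LL (N / m) * (AA / w) := by ring
          rw [h2] at h1
          linarith
      · -- `y > Y1`
        have hy1' : Y1 ≤ N / m := (not_le.1 hy1).le
        have c1 : m ≤ N / Y1 := by
          rw [Nat.le_div_iff_mul_le hY1pos]
          rw [Nat.le_div_iff_mul_le hm0] at hy1'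
          rwa [mul_comm]
        have g1 : ‖Gf N Y0 Y1 θ 1 m / (w : ℂ)‖ ≤ 2 * LL Y1 / w := by
          rw [hnw]
          refine div_le_div_of_nonneg_right ?_ hwr.le
          refine (norm_Gf _ _ _ _ _ _).trans ?_
          have h1 := card_filter_le_pc' Y0 Y1 (N / (1 * m))
          have h1' : (((PP Y0 Y1).filter (fun p => p ≤ N / (1 * m))).card : ℝ) ≤
              pc Y1 := by exact_mod_cast h1
          exact h1'.trans (hpc Y1 hY01).1
        have e1 : (if m ≤ N / Y1 then 2 * LL Y1 / (w : ℝ) else 0) = 2 * LL Y1 / w := if_pos c1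
        have gw : ‖Gf N Y0 Y1 θ w m‖ ≤ (if m ≤ N / (w * Y1) then 2 * LL Y1 else 0) +
            (if N / (w * Y1) < m ∧ m ≤ N / Y1 then (2 * (N / w) / Real.log Y0) / m else 0) := by
          by_cases c2 : m ≤ N / (w * Y1)
          · have e2 : (if m ≤ N / (w * Y1) then 2 * LL Y1 else 0) = 2 * LL Y1 := if_pos c2
            rw [e2]
            have h0 : ‖Gf N Y0 Y1 θ w m‖ ≤ 2 * LL Y1 := by
              refine (norm_Gf _ _ _ _ _ _).trans ?_
              have h1 := card_filter_le_pc' Y0 Y1 (N / (w * m))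
              have h1' : (((PP Y0 Y1).filter (fun p => p ≤ N / (w * m))).card : ℝ) ≤
                  pc Y1 := by exact_mod_cast h1
              exact h1'.trans (hpc Y1 hY01).1
            linarith
          · have c3 : N / (w * Y1) < m := not_le.1 c2
            have e2 : (if m ≤ N / (w * Y1) then 2 * LL Y1 else 0) = 0 := if_neg c2
            have e3 : (if N / (w * Y1) < m ∧ m ≤ N / Y1 then
                (2 * ((N : ℝ) / w) / Real.log Y0) / m else 0) =
                (2 * ((N : ℝ) / w) / Real.log Y0) / m := if_pos ⟨c3, c1⟩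
            rw [e2, e3, zero_add]
            by_cases hyw : N / (w * m) < Y0
            · rw [Gf_zero hyw, norm_zero]
              positivity
            · have hyw' : Y0 ≤ N / (w * m) := not_lt.1 hyw
              refine (norm_Gf _ _ _ _ _ _).trans ?_
              have h1 := card_filter_le_pc Y0 Y1 (N / (w * m))
              have h1' : (((PP Y0 Y1).filter (fun p => p ≤ N / (w * m))).card : ℝ) ≤
                  pc (N / (w * m)) := by exact_mod_cast h1
              have h2 := (hpc (N / (w * m)) hyw').1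
              have h3 := hLLb w hw hyw'
              have h4 : (2 * ((N : ℝ) / w) / Real.log Y0) / m =
                  2 * ((N : ℝ) / w / Real.log Y0 / m) := by ring
              rw [h4]
              linarith
        rw [e1]
        have := norm_sub_le (Gf N Y0 Y1 θ w m) (Gf N Y0 Y1 θ 1 m / (w : ℂ))
        linarith
  -- summation
  have hsum : ∑ m ∈ Finset.Icc 1 N, a m * ‖Gf N Y0 Y1 θ w m - Gf N Y0 Y1 θ 1 m / w‖ ≤
      ∑ m ∈ Finset.Icc 1 N, a m * (if m ≤ N / Y1 then 2 * LL Y1 / w else 0) +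
      ∑ m ∈ Finset.Icc 1 N, a m * (if m ≤ N / (w * Y1) then 2 * LL Y1 else 0) +
      ∑ m ∈ Finset.Icc 1 N, a m *
        (if N / (w * Y1) < m ∧ m ≤ N / Y1 then (2 * (N / w) / Real.log Y0) / m else 0) +
      ∑ m ∈ Finset.Icc 1 N, a m *
        (if N / (w * Y0) < m ∧ m ≤ N / Y0 then (2 * (N / w) / Real.log Y0) / m else 0) +
      (∑ m ∈ Finset.Icc 1 N, a m *
        (if m ≤ N / (w * Y0) ∧ N / m ≤ Y1 then LL (N / m) else 0)) * (AA / w) +
      ∑ m ∈ Finset.Icc 1 N, a m * (if m ≤ N / (w * Y0) then 6 * LL Y0 else 0) := by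
    rw [Finset.sum_mul, ← Finset.sum_add_distrib, ← Finset.sum_add_distrib,
      ← Finset.sum_add_distrib, ← Finset.sum_add_distrib, ← Finset.sum_add_distrib]
    refine Finset.sum_le_sum fun m hm => ?_
    refine (mul_le_mul_of_nonneg_left (hpoint m hm) (ha m)).trans (le_of_eq ?_)
    ring
  have dv : ∀ W, ((N / W : ℕ) : ℝ) ≤ (N : ℝ) / W := fun W => Nat.cast_div_le
  -- range 1
  have r1 : ∑ m ∈ Finset.Icc 1 N, a m * (if m ≤ N / Y1 then 2 * LL Y1 / w else 0) ≤
      (N : ℝ) / w * (4 / Real.log Y0) := by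
    refine (l4_s1 a ha N (N / Y1) _ (div_nonneg (mul_nonneg zero_le_two (hL0 _)) hwr.le)).trans ?_
    calc 2 * LL Y1 / w * ∑ m ∈ Finset.Icc 1 (N / Y1), a m
        ≤ 2 * LL Y1 / w * (2 * (N / Y1)) := by
          refine mul_le_mul_of_nonneg_left ?_
            (div_nonneg (mul_nonneg zero_le_two (hL0 _)) hwr.le)
          exact (hA _ o1).trans (mul_le_mul_of_nonneg_left (dv _) zero_le_two)
      _ = (N : ℝ) / w * (4 / Real.log Y1) := by
          rw [LL]
          field_simp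
          ring
      _ ≤ (N : ℝ) / w * (4 / Real.log Y0) := by gcongr
  -- range 2
  have r2 : ∑ m ∈ Finset.Icc 1 N, a m * (if m ≤ N / (w * Y1) then 2 * LL Y1 else 0) ≤
      (N : ℝ) / w * (4 / Real.log Y0) := by
    refine (l4_s1 a ha N (N / (w * Y1)) _ (mul_nonneg zero_le_two (hL0 _))).trans ?_
    calc 2 * LL Y1 * ∑ m ∈ Finset.Icc 1 (N / (w * Y1)), a m
        ≤ 2 * LL Y1 * (2 * (N / (w * Y1))) := by
          refine mul_le_mul_of_nonneg_left ?_ (mul_nonneg zero_le_two (hL0 _))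
          refine (hA _ le_rfl).trans (mul_le_mul_of_nonneg_left ?_ zero_le_two)
          have := dv (w * Y1)
          push_cast at this
          exact this
      _ = (N : ℝ) / w * (4 / Real.log Y1) := by
          rw [LL]
          field_simp
          ring
      _ ≤ (N : ℝ) / w * (4 / Real.log Y0) := by gcongr
  -- harmonic ranges
  have hh : ∀ Y, 0 < Y → Y ≤ Y1 → ∑ m ∈ Finset.Ioc (N / (w * Y)) (N / Y), a m / m ≤
      2 + 2 * Real.log (2 * w) := by
    intro Y hY hYY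
    have hYr : (0 : ℝ) < Y := by exact_mod_cast hY
    have o4 : N / (w * Y1) ≤ N / (w * Y) :=
      Nat.div_le_div_left (Nat.mul_le_mul_left _ hYY) (Nat.mul_pos hw hY)
    have o5 : N / (w * Y) ≤ N / Y := Nat.div_le_div_left (Nat.le_mul_of_pos_left _ hw) hY
    have o6 : 1 ≤ N / (w * Y) := hN1.trans o4
    refine (l4_harm a (N / (w * Y)) o6 (fun M hM => hA M (o4.trans hM)) ha (N / Y) o5).trans ?_
    have h1 : (0 : ℝ) < ((N / (w * Y) : ℕ) : ℝ) := by exact_mod_cast o6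
    have h2 : (0 : ℝ) < ((N / Y : ℕ) : ℝ) := by exact_mod_cast o6.trans o5
    have h3 : ((N / Y : ℕ) : ℝ) / ((N / (w * Y) : ℕ) : ℝ) ≤ 2 * w := by
      rw [div_le_iff₀ h1]
      have h4 : (N : ℝ) ≤ (w * Y) * (2 * ((N / (w * Y) : ℕ) : ℝ)) := by
        have h5 := Nat.div_add_mod N (w * Y)
        have h6 := Nat.mod_lt N (Nat.mul_pos hw hY)
        have h7 : N ≤ (w * Y) * (2 * (N / (w * Y))) := by nlinarith
        exact_mod_cast h7
      have h5 := dv Y
      refine h5.trans ?_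
      rw [div_le_iff₀ hYr]
      refine h4.trans (le_of_eq ?_)
      ring
    have h4 := Real.log_le_log (div_pos h2 h1) h3
    linarith
  have hC : (0 : ℝ) ≤ 2 * (N / w) / Real.log Y0 := by positivity
  have hfin : 2 * ((N : ℝ) / w) / Real.log Y0 * (2 + 2 * Real.log (2 * w)) =
      (N : ℝ) / w * (4 / Real.log Y0 + 4 * lam') := by
    rw [hlam']
    ring
  have r3 : ∑ m ∈ Finset.Icc 1 N, a m *
        (if N / (w * Y1) < m ∧ m ≤ N / Y1 then (2 * (N / w) / Real.log Y0) / m else 0) ≤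
      (N : ℝ) / w * (4 / Real.log Y0 + 4 * lam') := by
    rw [← hfin]
    refine (l4_s2 a ha N (N / (w * Y1)) (N / Y1) _ hC).trans ?_
    exact mul_le_mul_of_nonneg_left (hh Y1 hY1pos le_rfl) hC
  have r4 : ∑ m ∈ Finset.Icc 1 N, a m *
        (if N / (w * Y0) < m ∧ m ≤ N / Y0 then (2 * (N / w) / Real.log Y0) / m else 0) ≤
      (N : ℝ) / w * (4 / Real.log Y0 + 4 * lam') := by
    rw [← hfin]
    refine (l4_s2 a ha N (N / (w * Y0)) (N / Y0) _ hC).trans ?_
    exact mul_le_mul_of_nonneg_left (hh Y0 hY0pos hY01) hC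
  -- main range
  have r5 : ∑ m ∈ Finset.Icc 1 N, a m *
        (if m ≤ N / (w * Y0) ∧ N / m ≤ Y1 then LL (N / m) else 0) ≤
      N * (8 / Real.log Y0 + 4 * SS Y0 Y1) := by
    refine l4_s3 a ha N Y0 Y1 (N / (w * Y0)) (Nat.div_le_self _ _) ?_ hY0pos hpc hY0 (hA _ o2) ?_
    · calc N / (w * Y0) * Y0 ≤ N / (w * Y0) * (w * Y0) :=
          Nat.mul_le_mul_left _ (Nat.le_mul_of_pos_left _ hw)
        _ ≤ N := Nat.div_mul_le_self _ _
    · intro p hp
      rw [pp_mem64] at hp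
      refine hA _ ?_
      refine Nat.div_le_div_left ?_ hp.2.pos
      exact hp.1.2.trans (Nat.le_mul_of_pos_left _ hw)
  have r6 : ∑ m ∈ Finset.Icc 1 N, a m * (if m ≤ N / (w * Y0) then 6 * LL Y0 else 0) ≤
      (N : ℝ) / w * (12 / Real.log Y0) := by
    refine (l4_s1 a ha N (N / (w * Y0)) _ (mul_nonneg (by norm_num) (hL0 _))).trans ?_
    calc 6 * LL Y0 * ∑ m ∈ Finset.Icc 1 (N / (w * Y0)), a m
        ≤ 6 * LL Y0 * (2 * (N / (w * Y0))) := by
          refine mul_le_mul_of_nonneg_left ?_ (mul_nonneg (by norm_num) (hL0 _))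
          refine (hA _ o2).trans (mul_le_mul_of_nonneg_left ?_ zero_le_two)
          have := dv (w * Y0)
          push_cast at this
          exact this
      _ = (N : ℝ) / w * (12 / Real.log Y0) := by
          rw [LL]
          field_simp
          ring
  have r5' := mul_le_mul_of_nonneg_right r5 (by positivity : 0 ≤ AA / w)
  refine hsum.trans ?_
  have h8 : 8 / Real.log Y0 ≤ 8 := by
    rw [div_le_iff₀ hlog0]
    linarith
  have hNw : 0 ≤ (N : ℝ) / w := by positivity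
  have e1 : N * (8 / Real.log Y0 + 4 * SS Y0 Y1) * (AA / w) ≤
      (N : ℝ) / w * (8 * AA * (1 + SS Y0 Y1)) := by
    have h9 : 8 / Real.log Y0 + 4 * SS Y0 Y1 ≤ 8 * (1 + SS Y0 Y1) := by linarith
    calc N * (8 / Real.log Y0 + 4 * SS Y0 Y1) * (AA / w) =
          (N : ℝ) / w * AA * (8 / Real.log Y0 + 4 * SS Y0 Y1) := by ring
      _ ≤ (N : ℝ) / w * AA * (8 * (1 + SS Y0 Y1)) :=
          mul_le_mul_of_nonneg_left h9 (mul_nonneg hNw hAA0)
      _ = _ := by ring
  have e2 : (N : ℝ) / w * (4 / Real.log Y0) + (N : ℝ) / w * (4 / Real.log Y0) +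
      (N : ℝ) / w * (4 / Real.log Y0 + 4 * lam') + (N : ℝ) / w * (4 / Real.log Y0 + 4 * lam') +
      (N : ℝ) / w * (8 * AA * (1 + SS Y0 Y1)) + (N : ℝ) / w * (12 / Real.log Y0) =
      (N : ℝ) / w * (28 / Real.log Y0 + 8 * lam' + 8 * AA * (1 + SS Y0 Y1)) := by
    ring
  rw [← hlam', hlam', ← hAA, ← hlam', ← e2]
  linarith

end Pool.Agent.Lib.TwinAll
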