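import Mathlib

set_option autoImplicit false

/-!
Finite Maynard model, part 1: diagonalisation of the quadratic form of a Selberg type weight on
independent events, and its restriction to the event that no event of a given family occurs.
-/

namespace Pool.Agent.Lib.TwinAll.Mod69

open Finset

variable {α : Type*} [DecidableEq α]

/-- the coefficients of the weight attached to `y` -/
noncomputable def tr (nu : α → ℝ) (P : Finset α) (y : Finset α → ℝ) (d : Finset α) : ℝ :=
  (∏ x ∈ d, (-(1 + nu x))) * ∑ r ∈ (P \ d).powerset, (∏ x ∈ r, nu x) * y (d ∪ r)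

/-- the quadratic form of independent events of probabilities `p x` -/
noncomputable def bf (p : α → ℝ) (P : Finset α) (l m : Finset α → ℝ) : ℝ :=
  ∑ d ∈ P.powerset, ∑ e ∈ P.powerset, l d * m e * ∏ x ∈ d ∪ e, p x

theorem tr_insert_of_subset (nu : α → ℝ) (P : Finset α) (a : α) (ha : a ∉ P)
    (y : Finset α → ℝ) (d : Finset α) (hd : d ⊆ P) :
    tr nu (insert a P) y d = tr nu P (fun r => y r + nu a * y (insert a r)) d := by
  have had : a ∉ d := fun h => ha (hd h)
  have haP : a ∉ P \ d := fun h => ha (Finset.mem_sdiff.1 h).1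
  unfold tr
  rw [Finset.insert_sdiff_of_notMem _ had, Finset.sum_powerset_insert haP, ← Finset.sum_add_distrib]
  congr 1
  refine Finset.sum_congr rfl fun r hr => ?_
  have har : a ∉ r := fun h => haP (Finset.mem_powerset.1 hr h)
  rw [Finset.prod_insert har, Finset.union_insert]
  ring

theorem tr_insert_insert (nu : α → ℝ) (P : Finset α) (a : α) (ha : a ∉ P)
    (y : Finset α → ℝ) (d : Finset α) (hd : d ⊆ P) :
    tr nu (insert a P) y (insert a d) = -(1 + nu a) * tr nu P (fun r => y (insert a r)) d := by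
  have had : a ∉ d := fun h => ha (hd h)
  unfold tr
  have h1 : insert a P \ insert a d = P \ d := by
    ext x
    simp only [Finset.mem_sdiff, Finset.mem_insert, not_or]
    constructor
    · rintro ⟨h | h, h2, h3⟩
      · exact absurd h h2
      · exact ⟨h, h3⟩
    · rintro ⟨h, h3⟩
      exact ⟨Or.inr h, fun h4 => ha (h4 ▸ h), h3⟩
  rw [h1, Finset.prod_insert had, mul_assoc]
  congr 2
  refine Finset.sum_congr rfl fun r _ => ?_
  rw [Finset.insert_union]

theorem bf_congr (p : α → ℝ) (P : Finset α) (l l' m m' : Finset α → ℝ)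
    (hl : ∀ d ⊆ P, l d = l' d) (hm : ∀ d ⊆ P, m d = m' d) : bf p P l m = bf p P l' m' := by
  unfold bf
  refine Finset.sum_congr rfl fun d hd => Finset.sum_congr rfl fun e he => ?_
  rw [hl d (Finset.mem_powerset.1 hd), hm e (Finset.mem_powerset.1 he)]

theorem bf_smul (p : α → ℝ) (P : Finset α) (c c' : ℝ) (l m : Finset α → ℝ) :
    bf p P (fun d => c * l d) (fun d => c' * m d) = c * c' * bf p P l m := by
  unfold bf
  rw [Finset.mul_sum]
  refine Finset.sum_congr rfl fun d _ => ?_
  rw [Finset.mul_sum]
  refine Finset.sum_congr rfl fun e _ => ?_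
  ring

theorem sum_sum_insert (P : Finset α) (a : α) (ha : a ∉ P) (F : Finset α → Finset α → ℝ) :
    ∑ d ∈ (insert a P).powerset, ∑ e ∈ (insert a P).powerset, F d e =
      ∑ d ∈ P.powerset, ∑ e ∈ P.powerset,
        (F d e + F d (insert a e) + F (insert a d) e + F (insert a d) (insert a e)) := by
  rw [Finset.sum_powerset_insert ha, ← Finset.sum_add_distrib]
  refine Finset.sum_congr rfl fun d _ => ?_
  rw [Finset.sum_powerset_insert ha, Finset.sum_powerset_insert ha, ← Finset.sum_add_distrib,
    ← Finset.sum_add_distrib, ← Finset.sum_add_distrib]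
  refine Finset.sum_congr rfl fun e _ => ?_
  ring

theorem bf_insert (p : α → ℝ) (P : Finset α) (a : α) (ha : a ∉ P) (l m : Finset α → ℝ) :
    bf p (insert a P) l m = bf p P l m + p a * bf p P l (fun e => m (insert a e)) +
      p a * bf p P (fun d => l (insert a d)) m +
      p a * bf p P (fun d => l (insert a d)) (fun e => m (insert a e)) := by
  have key : ∀ d ⊆ P, ∀ e ⊆ P, ∏ x ∈ insert a (d ∪ e), p x = p a * ∏ x ∈ d ∪ e, p x := by
    intro d hd e he
    rw [Finset.prod_insert]
    intro h
    rcases Finset.mem_union.1 h with h | h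
    · exact ha (hd h)
    · exact ha (he h)
  unfold bf
  rw [sum_sum_insert P a ha]
  simp only [Finset.mul_sum, ← Finset.sum_add_distrib]
  refine Finset.sum_congr rfl fun d hd => Finset.sum_congr rfl fun e he => ?_
  have hd' := Finset.mem_powerset.1 hd
  have he' := Finset.mem_powerset.1 he
  have h3 : insert a d ∪ insert a e = insert a (d ∪ e) := by
    rw [Finset.insert_union, Finset.union_insert, Finset.insert_idem]
  rw [h3, Finset.union_insert, Finset.insert_union, key d hd' e he']
  ring

/-- Diagonalisation. -/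
theorem bf_tr (nu p : α → ℝ) (P : Finset α) (hp : ∀ x ∈ P, p x * (1 + nu x) = nu x) :
    ∀ y y' : Finset α → ℝ, bf p P (tr nu P y) (tr nu P y') =
      ∑ r ∈ P.powerset, (∏ x ∈ r, nu x) * y r * y' r := by
  induction P using Finset.induction_on with
  | empty =>
    intro y y'
    simp [bf, tr]
  | insert a P ha ih =>
    intro y y'
    have ih' := ih (fun x hx => hp x (Finset.mem_insert_of_mem hx))
    have hpa := hp a (Finset.mem_insert_self a P)
    rw [bf_insert p P a ha]
    rw [bf_congr p P (tr nu (insert a P) y) (tr nu P (fun r => y r + nu a * y (insert a r)))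
        (tr nu (insert a P) y') (tr nu P (fun r => y' r + nu a * y' (insert a r)))
        (fun d hd => tr_insert_of_subset nu P a ha y d hd)
        (fun d hd => tr_insert_of_subset nu P a ha y' d hd),
      bf_congr p P (tr nu (insert a P) y)
        (fun d => 1 * tr nu P (fun r => y r + nu a * y (insert a r)) d)
        (fun e => tr nu (insert a P) y' (insert a e))
        (fun e => -(1 + nu a) * tr nu P (fun r => y' (insert a r)) e)
        (fun d hd => by rw [one_mul]; exact tr_insert_of_subset nu P a ha y d hd)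
        (fun d hd => tr_insert_insert nu P a ha y' d hd),
      bf_congr p P (fun d => tr nu (insert a P) y (insert a d))
        (fun d => -(1 + nu a) * tr nu P (fun r => y (insert a r)) d)
        (tr nu (insert a P) y')
        (fun e => 1 * tr nu P (fun r => y' r + nu a * y' (insert a r)) e)
        (fun d hd => tr_insert_insert nu P a ha y d hd)
        (fun d hd => by rw [one_mul]; exact tr_insert_of_subset nu P a ha y' d hd),
      bf_congr p P (fun d => tr nu (insert a P) y (insert a d))
        (fun d => -(1 + nu a) * tr nu P (fun r => y (insert a r)) d)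
        (fun e => tr nu (insert a P) y' (insert a e))
        (fun e => -(1 + nu a) * tr nu P (fun r => y' (insert a r)) e)
        (fun d hd => tr_insert_insert nu P a ha y d hd)
        (fun d hd => tr_insert_insert nu P a ha y' d hd)]
    rw [bf_smul, bf_smul, bf_smul, ih', ih', ih', ih', Finset.sum_powerset_insert ha]
    rw [Finset.mul_sum, Finset.mul_sum, Finset.mul_sum, Finset.mul_sum, Finset.mul_sum,
      Finset.mul_sum, ← Finset.sum_add_distrib, ← Finset.sum_add_distrib,
      ← Finset.sum_add_distrib, ← Finset.sum_add_distrib]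
    refine Finset.sum_congr rfl fun r hr => ?_
    have har : a ∉ r := fun h => ha (Finset.mem_powerset.1 hr h)
    rw [Finset.prod_insert har]
    linear_combination ((∏ x ∈ r, nu x) * (-(y r) * y' (insert a r) -
      y' r * y (insert a r) + (1 - nu a) * y (insert a r) * y' (insert a r))) * hpa

theorem sum_powerset_union (A B : Finset α) (h : Disjoint A B) (f : Finset α → ℝ) :
    ∑ r ∈ (A ∪ B).powerset, f r = ∑ r ∈ A.powerset, ∑ s ∈ B.powerset, f (r ∪ s) := by
  induction B using Finset.induction_on generalizing f with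
  | empty => simp
  | insert b B hb ih =>
    have hbA : b ∉ A := fun h1 => (Finset.disjoint_left.1 h h1) (Finset.mem_insert_self b B)
    have hAB : Disjoint A B := h.mono_right (Finset.subset_insert b B)
    have hbAB : b ∉ A ∪ B := fun h1 => by
      rcases Finset.mem_union.1 h1 with h1 | h1
      · exact hbA h1
      · exact hb h1
    rw [Finset.union_insert, Finset.sum_powerset_insert hbAB, ih hAB, ih hAB,
      ← Finset.sum_add_distrib]
    refine Finset.sum_congr rfl fun r _ => ?_
    rw [Finset.sum_powerset_insert hb]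
    congr 1
    refine Finset.sum_congr rfl fun s _ => ?_
    rw [Finset.union_insert]

/-- Restriction of the coefficients to a subset of the index set. -/
theorem tr_union (nu : α → ℝ) (P B : Finset α) (h : Disjoint P B) (y : Finset α → ℝ)
    (d : Finset α) (hd : d ⊆ P) :
    tr nu (P ∪ B) y d = tr nu P (fun r => ∑ s ∈ B.powerset, (∏ x ∈ s, nu x) * y (r ∪ s)) d := by
  have hdB : Disjoint d B := h.mono_left hd
  have h1 : (P ∪ B) \ d = (P \ d) ∪ B := by
    rw [Finset.union_sdiff_distrib, Finset.sdiff_eq_self_of_disjoint hdB.symm]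
  have h2 : Disjoint (P \ d) B := h.mono_left Finset.sdiff_subset
  unfold tr
  rw [h1, sum_powerset_union _ _ h2]
  congr 1
  refine Finset.sum_congr rfl fun r hr => ?_
  rw [Finset.mul_sum]
  refine Finset.sum_congr rfl fun s hs => ?_
  have hrs : Disjoint r s := (h2.mono_left (Finset.mem_powerset.1 hr)).mono_right
    (Finset.mem_powerset.1 hs)
  rw [Finset.prod_union hrs, Finset.union_assoc]
  ring

/-- The quadratic form of the weight restricted to divisors without a factor in `B`. -/
theorem bf_tr_union (nu p : α → ℝ) (P B : Finset α) (h : Disjoint P B)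
    (hp : ∀ x ∈ P, p x * (1 + nu x) = nu x) (y : Finset α → ℝ) :
    bf p P (tr nu (P ∪ B) y) (tr nu (P ∪ B) y) =
      ∑ r ∈ P.powerset, (∏ x ∈ r, nu x) * (∑ s ∈ B.powerset, (∏ x ∈ s, nu x) * y (r ∪ s)) ^ 2 := by
  rw [bf_congr p P _ _ _ _ (fun d hd => tr_union nu P B h y d hd)
    (fun d hd => tr_union nu P B h y d hd), bf_tr nu p P hp]
  refine Finset.sum_congr rfl fun r _ => ?_
  ring

variable {κ : Type*} [DecidableEq κ]

/-- slices of a set of pairs -/
def sl (Q : Finset α) (j : κ) (r : Finset (κ × α)) : Finset α := Q.filter (fun q => (j, q) ∈ r)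

theorem sl_subset (Q : Finset α) (j : κ) (r : Finset (κ × α)) : sl Q j r ⊆ Q :=
  Finset.filter_subset _ _

theorem sum_slice (Q : Finset α) (j : κ) (F : Finset α → ℝ) :
    ∑ r ∈ (({j} : Finset κ) ×ˢ Q).powerset, F (sl Q j r) = ∑ a ∈ Q.powerset, F a := by
  refine Finset.sum_bij' (fun r _ => sl Q j r) (fun a _ => ({j} : Finset κ) ×ˢ a) ?_ ?_ ?_ ?_ ?_
  · intro r _
    exact Finset.mem_powerset.2 (sl_subset Q j r)
  · intro a ha
    exact Finset.mem_powerset.2 (Finset.product_subset_product_right (Finset.mem_powerset.1 ha))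
  · intro r hr
    ext ⟨i, q⟩
    have hr' := Finset.mem_powerset.1 hr
    simp only [sl, Finset.mem_product, Finset.mem_singleton, Finset.mem_filter]
    constructor
    · rintro ⟨rfl, _, h⟩
      exact h
    · intro h
      have h1 := hr' h
      rw [Finset.mem_product, Finset.mem_singleton] at h1
      obtain ⟨h2, h3⟩ := h1
      change i = j at h2
      subst h2
      exact ⟨rfl, h3, h⟩
  · intro a ha
    ext q
    simp only [sl, Finset.mem_product, Finset.mem_singleton, Finset.mem_filter, true_and]
    constructor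
    · rintro ⟨_, h⟩
      exact h
    · intro h
      exact ⟨Finset.mem_powerset.1 ha h, h⟩
  · intro r _
    rfl

theorem sl_union_left (Q : Finset α) (i : κ) (T : Finset κ) (hi : i ∉ T)
    (r s : Finset (κ × α)) (hs : s ⊆ T ×ˢ Q) : sl Q i (r ∪ s) = sl Q i r := by
  ext q
  simp only [sl, Finset.mem_filter, Finset.mem_union]
  constructor
  · rintro ⟨h1, h2 | h2⟩
    · exact ⟨h1, h2⟩
    · exact absurd (Finset.mem_product.1 (hs h2)).1 hi
  · rintro ⟨h1, h2⟩
    exact ⟨h1, Or.inl h2⟩

theorem sl_union_right (Q : Finset α) (i : κ) (T : Finset κ) (hi : i ∉ T)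
    (r s : Finset (κ × α)) (hs : s ⊆ T ×ˢ Q) : sl Q i (s ∪ r) = sl Q i r := by
  rw [Finset.union_comm]
  exact sl_union_left Q i T hi r s hs

/-- The product formula. -/
theorem sum_prod_slices (Q : Finset α) (T : Finset κ) (h : κ → Finset α → ℝ) :
    ∑ r ∈ (T ×ˢ Q).powerset, ∏ j ∈ T, h j (sl Q j r) = ∏ j ∈ T, ∑ a ∈ Q.powerset, h j a := by
  induction T using Finset.induction_on with
  | empty => simp
  | insert i T hi ih =>
    have h1 : (insert i T) ×ˢ Q = (({i} : Finset κ) ×ˢ Q) ∪ (T ×ˢ Q) := by
      rw [Finset.insert_eq, Finset.union_product]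
    have h2 : Disjoint (({i} : Finset κ) ×ˢ Q) (T ×ˢ Q) := by
      rw [Finset.disjoint_left]
      rintro ⟨a, q⟩ ha hb
      rw [Finset.mem_product, Finset.mem_singleton] at ha
      rw [Finset.mem_product] at hb
      exact hi (ha.1 ▸ hb.1)
    rw [h1, sum_powerset_union _ _ h2, Finset.prod_insert hi, ← ih, ← sum_slice Q i (h i),
      Finset.sum_mul]
    refine Finset.sum_congr rfl fun r hr => ?_
    rw [Finset.mul_sum]
    refine Finset.sum_congr rfl fun s hs => ?_
    have hr' := Finset.mem_powerset.1 hr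
    have hs' := Finset.mem_powerset.1 hs
    rw [Finset.prod_insert hi, sl_union_left Q i T hi r s hs']
    congr 1
    refine Finset.prod_congr rfl fun j hj => ?_
    have hji : j ∉ ({i} : Finset κ) := fun h3 => hi ((Finset.mem_singleton.1 h3) ▸ hj)
    rw [sl_union_right Q j {i} hji s r hr']

/-- Sums over the elements of `r`, by slices. -/
theorem sum_elems (Q : Finset α) (T : Finset κ) (t : α → ℝ) (r : Finset (κ × α))
    (hr : r ⊆ T ×ˢ Q) : ∑ x ∈ r, t x.2 = ∑ j ∈ T, ∑ q ∈ sl Q j r, t q := by
  have h1 : r = (T ×ˢ Q).filter (fun x => x ∈ r) := by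
    ext x
    rw [Finset.mem_filter]
    exact ⟨fun h => ⟨hr h, h⟩, fun h => h.2⟩
  conv_lhs => rw [h1]
  rw [Finset.sum_filter, Finset.sum_product]
  refine Finset.sum_congr rfl fun j _ => ?_
  unfold sl
  rw [Finset.sum_filter]

theorem prod_elems (Q : Finset α) (T : Finset κ) (t : α → ℝ) (r : Finset (κ × α))
    (hr : r ⊆ T ×ˢ Q) : ∏ x ∈ r, t x.2 = ∏ j ∈ T, ∏ q ∈ sl Q j r, t q := by
  have h1 : r = (T ×ˢ Q).filter (fun x => x ∈ r) := by
    ext x
    rw [Finset.mem_filter]
    exact ⟨fun h => ⟨hr h, h⟩, fun h => h.2⟩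
  conv_lhs => rw [h1]
  rw [Finset.prod_filter, Finset.prod_product]
  refine Finset.prod_congr rfl fun j _ => ?_
  unfold sl
  rw [Finset.prod_filter]

/-- First moment. -/
theorem first_moment (Q : Finset α) (T : Finset κ) (t : α → ℝ) (h : Finset α → ℝ) :
    ∑ r ∈ (T ×ˢ Q).powerset, (∑ x ∈ r, t x.2) * ∏ j ∈ T, h (sl Q j r) =
      T.card * (∑ a ∈ Q.powerset, (∑ q ∈ a, t q) * h a) *
        (∑ a ∈ Q.powerset, h a) ^ (T.card - 1) := by
  have h1 : ∀ r ∈ (T ×ˢ Q).powerset, (∑ x ∈ r, t x.2) * ∏ j ∈ T, h (sl Q j r) =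
      ∑ i ∈ T, ∏ j ∈ T, (if j = i then (∑ q ∈ sl Q j r, t q) * h (sl Q j r) else h (sl Q j r)) := by
    intro r hr
    rw [sum_elems Q T t r (Finset.mem_powerset.1 hr), Finset.sum_mul]
    refine Finset.sum_congr rfl fun i hi => ?_
    rw [← Finset.mul_prod_erase T (fun j => h (sl Q j r)) hi,
      ← Finset.mul_prod_erase T (fun j => if j = i then (∑ q ∈ sl Q j r, t q) * h (sl Q j r)
        else h (sl Q j r)) hi, if_pos rfl, mul_assoc]
    congr 2
    refine Finset.prod_congr rfl fun j hj => ?_
    rw [if_neg (Finset.ne_of_mem_erase hj)]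
  rw [Finset.sum_congr rfl h1, Finset.sum_comm]
  have h2 : ∀ i ∈ T, ∑ r ∈ (T ×ˢ Q).powerset,
      ∏ j ∈ T, (if j = i then (∑ q ∈ sl Q j r, t q) * h (sl Q j r) else h (sl Q j r)) =
      (∑ a ∈ Q.powerset, (∑ q ∈ a, t q) * h a) * (∑ a ∈ Q.powerset, h a) ^ (T.card - 1) := by
    intro i hi
    have h3 := sum_prod_slices Q T (fun j a => if j = i then (∑ q ∈ a, t q) * h a else h a)
    rw [h3, ← Finset.mul_prod_erase T _ hi]
    simp only [if_true]
    congr 1
    rw [← Finset.card_erase_of_mem hi, ← Finset.prod_const]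
    refine Finset.prod_congr rfl fun j hj => ?_
    simp only [if_neg (Finset.ne_of_mem_erase hj)]
  rw [Finset.sum_congr rfl h2, Finset.sum_const, nsmul_eq_mul]
  ring

end Pool.Agent.Lib.TwinAll.Mod69
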