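import Pool.Agent.Lib.TwinAll.Mod69

set_option autoImplicit false

/-!
Finite Maynard model, part 2: lower bound for the sums over the events of one form.
-/

namespace Pool.Agent.Lib.TwinAll.Mod69

open Finset

variable {ι : Type*} [DecidableEq ι]

/-- the truncated product function -/
noncomputable def wy (Q : Finset ι) (t : ι → ℝ) (k : ℕ) (g : Finset ι → ℝ)
    (r : Finset (Fin k × ι)) : ℝ :=
  if ∑ x ∈ r, t x.2 ≤ 1 then ∏ j, g (sl Q j r) else 0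

/-- total mass -/
noncomputable def M0 (Q : Finset ι) (nu : ι → ℝ) (g : Finset ι → ℝ) : ℝ :=
  ∑ a ∈ Q.powerset, (∏ q ∈ a, nu q) * g a ^ 2

noncomputable def M1 (Q : Finset ι) (nu : ι → ℝ) (g : Finset ι → ℝ) : ℝ :=
  ∑ a ∈ Q.powerset, (∏ q ∈ a, nu q) * g a

noncomputable def L1 (Q : Finset ι) (nu t : ι → ℝ) (g : Finset ι → ℝ) : ℝ :=
  ∑ a ∈ Q.powerset, (∑ q ∈ a, t q) * ((∏ q ∈ a, nu q) * g a ^ 2)

/-- the full sum -/
noncomputable def S1 (Q : Finset ι) (nu : ι → ℝ) (k : ℕ) (y : Finset (Fin k × ι) → ℝ) : ℝ :=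
  ∑ r ∈ ((Finset.univ : Finset (Fin k)) ×ˢ Q).powerset, (∏ x ∈ r, nu x.2) * y r ^ 2

/-- the sum for the form `j` -/
noncomputable def S2 (Q : Finset ι) (nu : ι → ℝ) (k : ℕ) (y : Finset (Fin k × ι) → ℝ)
    (j : Fin k) : ℝ :=
  ∑ r ∈ (((Finset.univ : Finset (Fin k)).erase j) ×ˢ Q).powerset, (∏ x ∈ r, nu x.2) *
    (∑ s ∈ (({j} : Finset (Fin k)) ×ˢ Q).powerset, (∏ x ∈ s, nu x.2) * y (r ∪ s)) ^ 2

omit [DecidableEq ι] in
theorem prod_nonneg_of_subset {Q a : Finset ι} {nu : ι → ℝ} (hnu : ∀ q ∈ Q, 0 ≤ nu q)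
    (ha : a ⊆ Q) : 0 ≤ ∏ q ∈ a, nu q := Finset.prod_nonneg fun q hq => hnu q (ha hq)

theorem S1_le (Q : Finset ι) (nu t : ι → ℝ) (hnu : ∀ q ∈ Q, 0 ≤ nu q) (k : ℕ)
    (g : Finset ι → ℝ) : S1 Q nu k (wy Q t k g) ≤ M0 Q nu g ^ k := by
  have h1 := sum_prod_slices Q (Finset.univ : Finset (Fin k))
    (fun _ a => (∏ q ∈ a, nu q) * g a ^ 2)
  have h2 : M0 Q nu g ^ k = ∏ _j : Fin k, ∑ a ∈ Q.powerset, (∏ q ∈ a, nu q) * g a ^ 2 := by
    rw [Finset.prod_const, Finset.card_univ, Fintype.card_fin]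
    rfl
  rw [h2, ← h1]
  unfold S1
  refine Finset.sum_le_sum fun r hr => ?_
  have hr' := Finset.mem_powerset.1 hr
  rw [prod_elems Q Finset.univ nu r hr', Finset.prod_mul_distrib, Finset.prod_pow]
  refine mul_le_mul_of_nonneg_left ?_ ?_
  · unfold wy
    split_ifs
    · exact le_rfl
    · have : 0 ≤ (∏ j : Fin k, g (sl Q j r)) ^ 2 := sq_nonneg _
      simpa using this
  · exact Finset.prod_nonneg fun j _ => prod_nonneg_of_subset hnu (sl_subset Q j r)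

theorem S2_ge (Q : Finset ι) (nu t : ι → ℝ) (hnu : ∀ q ∈ Q, 0 ≤ nu q)
    (ht : ∀ q ∈ Q, 0 ≤ t q) (k : ℕ) (g : Finset ι → ℝ) (hg : ∀ a ⊆ Q, g a ≠ 0 → ∑ q ∈ a, t q ≤ 1 / 2)
    (j : Fin k) :
    M1 Q nu g ^ 2 * (M0 Q nu g ^ (k - 1) - 2 * ((k - 1 : ℕ) * L1 Q nu t g * M0 Q nu g ^ (k - 2))) ≤
      S2 Q nu k (wy Q t k g) j := by
  set T : Finset (Fin k) := (Finset.univ : Finset (Fin k)).erase j with hT
  have hjT : j ∉ T := Finset.notMem_erase j _
  have hcard : T.card = k - 1 := by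
    rw [hT, Finset.card_erase_of_mem (Finset.mem_univ j), Finset.card_univ, Fintype.card_fin]
  have h1 := sum_prod_slices Q T (fun _ a => (∏ q ∈ a, nu q) * g a ^ 2)
  have h2 := first_moment Q T t (fun a => (∏ q ∈ a, nu q) * g a ^ 2)
  have h3 : ∏ _j ∈ T, ∑ a ∈ Q.powerset, (∏ q ∈ a, nu q) * g a ^ 2 = M0 Q nu g ^ (k - 1) := by
    rw [Finset.prod_const, hcard]
    rfl
  have h4 : (T.card : ℝ) * (∑ a ∈ Q.powerset, (∑ q ∈ a, t q) * ((∏ q ∈ a, nu q) * g a ^ 2)) *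
        (∑ a ∈ Q.powerset, (∏ q ∈ a, nu q) * g a ^ 2) ^ (T.card - 1) =
      (k - 1 : ℕ) * L1 Q nu t g * M0 Q nu g ^ (k - 2) := by
    rw [hcard]
    have : k - 1 - 1 = k - 2 := by omega
    rw [this]
    rfl
  have hrhs : M1 Q nu g ^ 2 *
      (M0 Q nu g ^ (k - 1) - 2 * ((k - 1 : ℕ) * L1 Q nu t g * M0 Q nu g ^ (k - 2))) =
      ∑ r ∈ (T ×ˢ Q).powerset, M1 Q nu g ^ 2 * ((1 - 2 * ∑ x ∈ r, t x.2) *
        ∏ i ∈ T, ((∏ q ∈ sl Q i r, nu q) * g (sl Q i r) ^ 2)) := by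
    rw [← Finset.mul_sum, ← h3, ← h1, ← h4, ← h2, Finset.mul_sum, ← Finset.sum_sub_distrib]
    congr 1
    refine Finset.sum_congr rfl fun r _ => ?_
    ring
  rw [hrhs]
  unfold S2
  refine Finset.sum_le_sum fun r hr => ?_
  have hr' := Finset.mem_powerset.1 hr
  have hnn : 0 ≤ ∏ i ∈ T, ((∏ q ∈ sl Q i r, nu q) * g (sl Q i r) ^ 2) :=
    Finset.prod_nonneg fun i _ =>
      mul_nonneg (prod_nonneg_of_subset hnu (sl_subset Q i r)) (sq_nonneg _)
  have hnr : 0 ≤ ∏ x ∈ r, nu x.2 := by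
    refine Finset.prod_nonneg fun x hx => hnu _ ?_
    exact (Finset.mem_product.1 (hr' hx)).2
  by_cases htr : ∑ x ∈ r, t x.2 ≤ 1 / 2
  · -- the inner sum
    have hinner : ∑ s ∈ (({j} : Finset (Fin k)) ×ˢ Q).powerset,
        (∏ x ∈ s, nu x.2) * wy Q t k g (r ∪ s) = (∏ i ∈ T, g (sl Q i r)) * M1 Q nu g := by
      have h5 : ∀ s ∈ (({j} : Finset (Fin k)) ×ˢ Q).powerset,
          (∏ x ∈ s, nu x.2) * wy Q t k g (r ∪ s) =
            (fun a => (∏ i ∈ T, g (sl Q i r)) * ((∏ q ∈ a, nu q) * g a)) (sl Q j s) := by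
        intro s hs
        have hs' := Finset.mem_powerset.1 hs
        have h6 : ∏ x ∈ s, nu x.2 = ∏ q ∈ sl Q j s, nu q := by
          rw [prod_elems Q {j} nu s hs', Finset.prod_singleton]
        have h7 : ∑ x ∈ s, t x.2 = ∑ q ∈ sl Q j s, t q := by
          rw [sum_elems Q {j} t s hs', Finset.sum_singleton]
        have hdis : Disjoint r s := by
          rw [Finset.disjoint_left]
          intro x hx hx'
          have a1 := (Finset.mem_product.1 (hr' hx)).1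
          have a2 := Finset.mem_singleton.1 (Finset.mem_product.1 (hs' hx')).1
          exact hjT (a2 ▸ a1)
        have h8 : ∏ i, g (sl Q i (r ∪ s)) = (∏ i ∈ T, g (sl Q i r)) * g (sl Q j s) := by
          rw [← Finset.mul_prod_erase Finset.univ (fun i => g (sl Q i (r ∪ s)))
            (Finset.mem_univ j), mul_comm]
          rw [sl_union_right Q j T hjT s r hr']
          congr 1
          refine Finset.prod_congr rfl fun i hi => ?_
          have hij : i ∉ ({j} : Finset (Fin k)) := fun h => hjT ((Finset.mem_singleton.1 h) ▸ hi)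
          rw [sl_union_left Q i {j} hij r s hs']
        change (∏ x ∈ s, nu x.2) * wy Q t k g (r ∪ s) =
          (∏ i ∈ T, g (sl Q i r)) * ((∏ q ∈ sl Q j s, nu q) * g (sl Q j s))
        rw [h6]
        unfold wy
        rw [Finset.sum_union hdis, h7, h8]
        by_cases h9 : g (sl Q j s) = 0
        · rw [h9]
          simp
        · have h10 := hg _ (sl_subset Q j s) h9
          rw [if_pos (by linarith)]
          ring
      rw [Finset.sum_congr rfl h5, sum_slice Q j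
        (fun a => (∏ i ∈ T, g (sl Q i r)) * ((∏ q ∈ a, nu q) * g a)), ← Finset.mul_sum]
      rfl
    rw [hinner]
    have h11 : (∏ x ∈ r, nu x.2) * ((∏ i ∈ T, g (sl Q i r)) * M1 Q nu g) ^ 2 =
        M1 Q nu g ^ 2 * ∏ i ∈ T, ((∏ q ∈ sl Q i r, nu q) * g (sl Q i r) ^ 2) := by
      rw [Finset.prod_mul_distrib, Finset.prod_pow, prod_elems Q T nu r hr']
      ring
    rw [h11]
    refine mul_le_mul_of_nonneg_left ?_ (sq_nonneg _)
    have h12 : 0 ≤ ∑ x ∈ r, t x.2 := by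
      refine Finset.sum_nonneg fun x hx => ht _ ?_
      exact (Finset.mem_product.1 (hr' hx)).2
    calc (1 - 2 * ∑ x ∈ r, t x.2) * ∏ i ∈ T, ((∏ q ∈ sl Q i r, nu q) * g (sl Q i r) ^ 2) ≤
        1 * ∏ i ∈ T, ((∏ q ∈ sl Q i r, nu q) * g (sl Q i r) ^ 2) :=
          mul_le_mul_of_nonneg_right (by linarith) hnn
      _ = _ := one_mul _
  · push Not at htr
    refine le_trans ?_ (mul_nonneg hnr (sq_nonneg _))
    refine mul_nonpos_of_nonneg_of_nonpos (sq_nonneg _) ?_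
    exact mul_nonpos_of_nonpos_of_nonneg (by linarith) hnn

/-- Comparison of the sums for one form with the full sum. -/
theorem model_of_moments (Q : Finset ι) (nu t : ι → ℝ) (hnu : ∀ q ∈ Q, 0 ≤ nu q)
    (ht : ∀ q ∈ Q, 0 ≤ t q) (k : ℕ) (hk : 1 ≤ k) (g : Finset ι → ℝ)
    (hg : ∀ a ⊆ Q, g a ≠ 0 → ∑ q ∈ a, t q ≤ 1 / 2)
    (hM0 : 0 < M0 Q nu g) (hL : 4 * k * L1 Q nu t g ≤ M0 Q nu g) (j : Fin k) :
    M1 Q nu g ^ 2 / (2 * M0 Q nu g) * S1 Q nu k (wy Q t k g) ≤ S2 Q nu k (wy Q t k g) j := by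
  have h1 := S1_le Q nu t hnu k g
  have h2 := S2_ge Q nu t hnu ht k g hg j
  refine le_trans ?_ h2
  have h3 : M0 Q nu g ^ k = M0 Q nu g * M0 Q nu g ^ (k - 1) := by
    rw [← pow_succ']
    congr 1
    omega
  have hL0 : 0 ≤ L1 Q nu t g := by
    unfold L1
    refine Finset.sum_nonneg fun a ha => ?_
    have ha' := Finset.mem_powerset.1 ha
    exact mul_nonneg (Finset.sum_nonneg fun q hq => ht q (ha' hq))
      (mul_nonneg (prod_nonneg_of_subset hnu ha') (sq_nonneg _))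
  have hkey : 2 * ((k - 1 : ℕ) * L1 Q nu t g * M0 Q nu g ^ (k - 2)) ≤ M0 Q nu g ^ (k - 1) / 2 := by
    rcases Nat.lt_or_ge k 2 with hk2 | hk2
    · have hk1 : k - 1 = 0 := by omega
      rw [hk1]
      have : 0 < M0 Q nu g ^ 0 := by positivity
      push_cast
      nlinarith
    · have h4 : M0 Q nu g ^ (k - 1) = M0 Q nu g * M0 Q nu g ^ (k - 2) := by
        rw [← pow_succ']
        congr 1
        omega
      have h5 : ((k - 1 : ℕ) : ℝ) ≤ k := by exact_mod_cast Nat.sub_le k 1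
      have h6 : 0 ≤ M0 Q nu g ^ (k - 2) := by positivity
      have h7 : ((k - 1 : ℕ) : ℝ) * L1 Q nu t g ≤ k * L1 Q nu t g :=
        mul_le_mul_of_nonneg_right h5 hL0
      have h8 : 2 * (((k - 1 : ℕ) : ℝ) * L1 Q nu t g) ≤ M0 Q nu g / 2 := by nlinarith
      calc 2 * ((k - 1 : ℕ) * L1 Q nu t g * M0 Q nu g ^ (k - 2)) =
          (2 * (((k - 1 : ℕ) : ℝ) * L1 Q nu t g)) * M0 Q nu g ^ (k - 2) := by ring
        _ ≤ (M0 Q nu g / 2) * M0 Q nu g ^ (k - 2) := mul_le_mul_of_nonneg_right h8 h6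
        _ = M0 Q nu g ^ (k - 1) / 2 := by rw [h4]; ring
  calc M1 Q nu g ^ 2 / (2 * M0 Q nu g) * S1 Q nu k (wy Q t k g) ≤
      M1 Q nu g ^ 2 / (2 * M0 Q nu g) * (M0 Q nu g * M0 Q nu g ^ (k - 1)) := by
        refine mul_le_mul_of_nonneg_left (h1.trans h3.le) ?_
        positivity
    _ = M1 Q nu g ^ 2 * (M0 Q nu g ^ (k - 1) / 2) := by
        field_simp
    _ ≤ _ := mul_le_mul_of_nonneg_left (by linarith) (sq_nonneg _)

end Pool.Agent.Lib.TwinAll.Mod69
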