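import Pool.Agent.Lib.TwinAll.Mod69b

set_option autoImplicit false

/-!
Finite Maynard model, part 3: the choice of the weight on the scales, and the theorem.
-/

namespace Pool.Agent.Lib.TwinAll.Mod69

open Finset

variable {ι : Type*} [DecidableEq ι]

/-- mass of the divisors composed of elements of `S` -/
noncomputable def mass (nu : ι → ℝ) (S : Finset ι) : ℝ := ∏ q ∈ S, (1 + nu q)

omit [DecidableEq ι] in
theorem sum_prod_powerset (nu : ι → ℝ) (S : Finset ι) :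
    ∑ a ∈ S.powerset, ∏ q ∈ a, nu q = mass nu S := (Finset.prod_one_add S).symm

theorem sum_t_prod (nu p t : ι → ℝ) (S : Finset ι) (hp : ∀ q ∈ S, p q * (1 + nu q) = nu q) :
    ∑ a ∈ S.powerset, (∑ q ∈ a, t q) * ∏ q ∈ a, nu q = mass nu S * ∑ q ∈ S, p q * t q := by
  induction S using Finset.induction_on with
  | empty => simp
  | insert b S hb ih =>
    have ih' := ih (fun q hq => hp q (Finset.mem_insert_of_mem hq))
    have hpb := hp b (Finset.mem_insert_self b S)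
    rw [Finset.sum_powerset_insert hb]
    have h1 : ∑ a ∈ S.powerset, (∑ q ∈ insert b a, t q) * ∏ q ∈ insert b a, nu q =
        nu b * (∑ a ∈ S.powerset, (∑ q ∈ a, t q) * ∏ q ∈ a, nu q) +
        nu b * t b * ∑ a ∈ S.powerset, ∏ q ∈ a, nu q := by
      rw [Finset.mul_sum, Finset.mul_sum, ← Finset.sum_add_distrib]
      refine Finset.sum_congr rfl fun a ha => ?_
      have hba : b ∉ a := fun h => hb (Finset.mem_powerset.1 ha h)
      rw [Finset.sum_insert hba, Finset.prod_insert hba]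
      ring
    rw [h1, ih', sum_prod_powerset, Finset.sum_insert hb]
    unfold mass
    rw [Finset.prod_insert hb]
    linear_combination (-(∏ q ∈ S, (1 + nu q)) * t b) * hpb

theorem geom_aux : ∀ (n : ℕ) (e : ℕ → ℝ), (∀ s, 0 ≤ e s) →
    (∀ s, s + 1 < n + 1 → e (s + 1) ≤ 2 / 3 * e s) → ∑ s ∈ range (n + 1), e s ≤ 3 * e 0 := by
  intro n
  induction n with
  | zero =>
    intro e h0 _
    rw [zero_add, Finset.sum_range_one]
    linarith [h0 0]
  | succ n ih =>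
    intro e h0 h1
    rw [Finset.sum_range_succ']
    have h2 := ih (fun s => e (s + 1)) (fun s => h0 _) (fun s hs => h1 (s + 1) (by omega))
    have h3 := h1 0 (by omega)
    simp only [zero_add] at h2 h3
    linarith

theorem sq_aux : ∀ (n : ℕ) (e x : ℕ → ℝ), (∀ s, 0 ≤ e s) →
    (∀ s, s + 1 < n → e (s + 1) ≤ 2 / 3 * e s) → (∀ s, x s = 0 ∨ x s = 1) →
    (∑ s ∈ range n, e s * x s) ^ 2 ≤ 9 * ∑ s ∈ range n, e s ^ 2 * x s := by
  intro n
  induction n with
  | zero =>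
    intro e x _ _ _
    simp
  | succ n ih =>
    intro e x h0 h1 hx
    have hx0 : ∀ s, 0 ≤ x s := fun s => by rcases hx s with h | h <;> rw [h] <;> norm_num
    have hx1 : ∀ s, x s ≤ 1 := fun s => by rcases hx s with h | h <;> rw [h] <;> norm_num
    rcases hx 0 with h | h
    · rw [Finset.sum_range_succ', Finset.sum_range_succ' (fun s => e s ^ 2 * x s), h]
      have := ih (fun s => e (s + 1)) (fun s => x (s + 1)) (fun s => h0 _)
        (fun s hs => h1 (s + 1) (by omega)) (fun s => hx _)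
      simpa using this
    · have h2 := geom_aux n e h0 h1
      have h3 : ∑ s ∈ range (n + 1), e s * x s ≤ ∑ s ∈ range (n + 1), e s := by
        refine Finset.sum_le_sum fun s _ => ?_
        calc e s * x s ≤ e s * 1 := mul_le_mul_of_nonneg_left (hx1 s) (h0 s)
          _ = e s := mul_one _
      have h4 : 0 ≤ ∑ s ∈ range (n + 1), e s * x s :=
        Finset.sum_nonneg fun s _ => mul_nonneg (h0 s) (hx0 s)
      have h5 : e 0 ^ 2 ≤ ∑ s ∈ range (n + 1), e s ^ 2 * x s := by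
        rw [Finset.sum_range_succ', h, mul_one]
        have : 0 ≤ ∑ s ∈ range n, e (s + 1) ^ 2 * x (s + 1) :=
          Finset.sum_nonneg fun s _ => mul_nonneg (sq_nonneg _) (hx0 _)
        linarith
      calc (∑ s ∈ range (n + 1), e s * x s) ^ 2 ≤ (3 * e 0) ^ 2 :=
            pow_le_pow_left₀ h4 (h3.trans h2) 2
        _ = 9 * e 0 ^ 2 := by ring
        _ ≤ _ := by linarith

theorem sum_ind (Q S : Finset ι) (hS : S ⊆ Q) (f : Finset ι → ℝ) :
    ∑ a ∈ Q.powerset, f a * (if a ⊆ S then (1 : ℝ) else 0) = ∑ a ∈ S.powerset, f a := by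
  have h1 : S.powerset = Q.powerset.filter (fun a => a ⊆ S) := by
    ext a
    rw [Finset.mem_filter, Finset.mem_powerset, Finset.mem_powerset]
    exact ⟨fun h => ⟨h.trans hS, h⟩, fun h => h.2⟩
  rw [h1, Finset.sum_filter]
  refine Finset.sum_congr rfl fun a _ => ?_
  split_ifs
  · rw [mul_one]
  · rw [mul_zero]

/-- the function on the scales -/
noncomputable def gs (t : ι → ℝ) (S : ℕ → Finset ι) (e : ℕ → ℝ) (J : ℕ) (a : Finset ι) : ℝ :=
  if ∑ q ∈ a, t q ≤ 1 / 2 then ∑ s ∈ range (J + 1), e s * (if a ⊆ S s then (1 : ℝ) else 0) else 0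

section scales

variable (Q : Finset ι) (nu p t : ι → ℝ) (hnu : ∀ q ∈ Q, 0 ≤ nu q)
  (hp : ∀ q ∈ Q, p q * (1 + nu q) = nu q) (ht : ∀ q ∈ Q, 0 ≤ t q) (J : ℕ) (S : ℕ → Finset ι)
  (hS : ∀ s ≤ J, S s ⊆ Q) (e : ℕ → ℝ) (he : ∀ s, 0 ≤ e s)
  (hr : ∀ s, s + 1 < J + 1 → e (s + 1) ≤ 2 / 3 * e s)

include he hr in
theorem gs_sq_le (a : Finset ι) :
    gs t S e J a ^ 2 ≤ 9 * ∑ s ∈ range (J + 1), e s ^ 2 * (if a ⊆ S s then (1 : ℝ) else 0) := by
  have h1 := sq_aux (J + 1) e (fun s => if a ⊆ S s then (1 : ℝ) else 0) he hr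
    (fun s => by by_cases h : a ⊆ S s <;> simp [h])
  unfold gs
  split_ifs
  · exact h1
  · have : 0 ≤ ∑ s ∈ range (J + 1), e s ^ 2 * (if a ⊆ S s then (1 : ℝ) else 0) :=
      Finset.sum_nonneg fun s _ => mul_nonneg (sq_nonneg _) (by split_ifs <;> norm_num)
    linarith [sq_nonneg (0 : ℝ)]

include hnu hS he hr in
theorem M0_le : M0 Q nu (gs t S e J) ≤ 9 * ∑ s ∈ range (J + 1), e s ^ 2 * mass nu (S s) := by
  have h1 : ∑ s ∈ range (J + 1), e s ^ 2 * mass nu (S s) =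
      ∑ a ∈ Q.powerset, (∏ q ∈ a, nu q) *
        ∑ s ∈ range (J + 1), e s ^ 2 * (if a ⊆ S s then (1 : ℝ) else 0) := by
    simp_rw [Finset.mul_sum]
    rw [Finset.sum_comm]
    refine Finset.sum_congr rfl fun s hs => ?_
    rw [← sum_prod_powerset, ← sum_ind Q (S s) (hS s (by have := Finset.mem_range.1 hs; omega)),
      Finset.mul_sum]
    refine Finset.sum_congr rfl fun a _ => ?_
    ring
  rw [h1, Finset.mul_sum]
  unfold M0
  refine Finset.sum_le_sum fun a ha => ?_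
  have h2 := gs_sq_le t J S e he hr a
  have h3 := prod_nonneg_of_subset hnu (Finset.mem_powerset.1 ha)
  calc (∏ q ∈ a, nu q) * gs t S e J a ^ 2 ≤ (∏ q ∈ a, nu q) *
      (9 * ∑ s ∈ range (J + 1), e s ^ 2 * (if a ⊆ S s then (1 : ℝ) else 0)) :=
        mul_le_mul_of_nonneg_left h2 h3
    _ = _ := by ring

include hnu hp ht hS he hr in
theorem L1_le : L1 Q nu t (gs t S e J) ≤
    9 * ∑ s ∈ range (J + 1), e s ^ 2 * (mass nu (S s) * ∑ q ∈ S s, p q * t q) := by
  have h1 : ∑ s ∈ range (J + 1), e s ^ 2 * (mass nu (S s) * ∑ q ∈ S s, p q * t q) =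
      ∑ a ∈ Q.powerset, ((∑ q ∈ a, t q) * ∏ q ∈ a, nu q) *
        ∑ s ∈ range (J + 1), e s ^ 2 * (if a ⊆ S s then (1 : ℝ) else 0) := by
    simp_rw [Finset.mul_sum]
    rw [Finset.sum_comm]
    refine Finset.sum_congr rfl fun s hs => ?_
    have hsS := hS s (by have := Finset.mem_range.1 hs; omega)
    have h5 := sum_t_prod nu p t (S s) (fun q hq => hp q (hsS hq))
    have h6 := sum_ind Q (S s) hsS (fun a => (∑ q ∈ a, t q) * ∏ q ∈ a, nu q)
    rw [← Finset.mul_sum, ← Finset.mul_sum, ← h5, ← h6, Finset.mul_sum]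
    refine Finset.sum_congr rfl fun a _ => ?_
    ring
  rw [h1, Finset.mul_sum]
  unfold L1
  refine Finset.sum_le_sum fun a ha => ?_
  have h2 := gs_sq_le t J S e he hr a
  have ha' := Finset.mem_powerset.1 ha
  have h3 := prod_nonneg_of_subset hnu ha'
  have h4 : 0 ≤ ∑ q ∈ a, t q := Finset.sum_nonneg fun q hq => ht q (ha' hq)
  calc (∑ q ∈ a, t q) * ((∏ q ∈ a, nu q) * gs t S e J a ^ 2) =
      ((∑ q ∈ a, t q) * ∏ q ∈ a, nu q) * gs t S e J a ^ 2 := by ring
    _ ≤ ((∑ q ∈ a, t q) * ∏ q ∈ a, nu q) *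
      (9 * ∑ s ∈ range (J + 1), e s ^ 2 * (if a ⊆ S s then (1 : ℝ) else 0)) :=
        mul_le_mul_of_nonneg_left h2 (mul_nonneg h4 h3)
    _ = _ := by ring

/-- truncated mass -/
theorem trunc_mass (R : Finset ι) (hR : R ⊆ Q) (hnu : ∀ q ∈ Q, 0 ≤ nu q)
    (hp : ∀ q ∈ Q, p q * (1 + nu q) = nu q) (ht : ∀ q ∈ Q, 0 ≤ t q) :
    mass nu R * (1 - 2 * ∑ q ∈ R, p q * t q) ≤
      ∑ a ∈ R.powerset, (∏ q ∈ a, nu q) * (if ∑ q ∈ a, t q ≤ 1 / 2 then (1 : ℝ) else 0) := by
  have h1 := sum_t_prod nu p t R (fun q hq => hp q (hR hq))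
  have h2 : mass nu R * (1 - 2 * ∑ q ∈ R, p q * t q) =
      ∑ a ∈ R.powerset, (∏ q ∈ a, nu q) * (1 - 2 * ∑ q ∈ a, t q) := by
    have h3 : ∑ a ∈ R.powerset, (∏ q ∈ a, nu q) * (1 - 2 * ∑ q ∈ a, t q) =
        ∑ a ∈ R.powerset, ∏ q ∈ a, nu q -
          2 * ∑ a ∈ R.powerset, (∑ q ∈ a, t q) * ∏ q ∈ a, nu q := by
      rw [Finset.mul_sum, ← Finset.sum_sub_distrib]
      refine Finset.sum_congr rfl fun a _ => ?_
      ring
    rw [h3, h1, sum_prod_powerset]
    ring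
  rw [h2]
  refine Finset.sum_le_sum fun a ha => ?_
  have ha' := (Finset.mem_powerset.1 ha).trans hR
  refine mul_le_mul_of_nonneg_left ?_ (prod_nonneg_of_subset hnu ha')
  have h4 : 0 ≤ ∑ q ∈ a, t q := Finset.sum_nonneg fun q hq => ht q (ha' hq)
  split_ifs with h
  · linarith
  · push Not at h
    linarith

include hnu hp ht hS he in
theorem M1_ge : ∑ s ∈ range (J + 1), e s * (mass nu (S s) * (1 - 2 * ∑ q ∈ S s, p q * t q)) ≤
    M1 Q nu (gs t S e J) := by
  have h1 : M1 Q nu (gs t S e J) = ∑ s ∈ range (J + 1), e s * ∑ a ∈ (S s).powerset,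
      (∏ q ∈ a, nu q) * (if ∑ q ∈ a, t q ≤ 1 / 2 then (1 : ℝ) else 0) := by
    unfold M1 gs
    have h2 : ∀ a ∈ Q.powerset, (∏ q ∈ a, nu q) * (if ∑ q ∈ a, t q ≤ 1 / 2 then
        ∑ s ∈ range (J + 1), e s * (if a ⊆ S s then (1 : ℝ) else 0) else 0) =
        ∑ s ∈ range (J + 1), e s * (((∏ q ∈ a, nu q) *
          (if ∑ q ∈ a, t q ≤ 1 / 2 then (1 : ℝ) else 0)) * (if a ⊆ S s then (1 : ℝ) else 0)) := by
      intro a _
      split_ifs with h
      · rw [Finset.mul_sum]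
        refine Finset.sum_congr rfl fun s _ => ?_
        ring
      · simp
    rw [Finset.sum_congr rfl h2, Finset.sum_comm]
    refine Finset.sum_congr rfl fun s hs => ?_
    rw [← Finset.mul_sum, sum_ind Q (S s) (hS s (by have := Finset.mem_range.1 hs; omega))
      (fun a => (∏ q ∈ a, nu q) * (if ∑ q ∈ a, t q ≤ 1 / 2 then (1 : ℝ) else 0))]
  rw [h1]
  refine Finset.sum_le_sum fun s hs => mul_le_mul_of_nonneg_left ?_ (he s)
  exact trunc_mass Q nu p t (S s) (hS s (by have := Finset.mem_range.1 hs; omega)) hnu hp ht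

include hnu hp ht hS he in
theorem M0_ge (he0 : e 0 = 1) : mass nu (S 0) * (1 - 2 * ∑ q ∈ S 0, p q * t q) ≤
    M0 Q nu (gs t S e J) := by
  refine (trunc_mass Q nu p t (S 0) (hS 0 (Nat.zero_le _)) hnu hp ht).trans ?_
  rw [← sum_ind Q (S 0) (hS 0 (Nat.zero_le _))
    (fun a => (∏ q ∈ a, nu q) * (if ∑ q ∈ a, t q ≤ 1 / 2 then (1 : ℝ) else 0))]
  unfold M0
  refine Finset.sum_le_sum fun a ha => ?_
  rw [mul_assoc]
  refine mul_le_mul_of_nonneg_left ?_ (prod_nonneg_of_subset hnu (Finset.mem_powerset.1 ha))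
  unfold gs
  split_ifs with h1 h2
  · have h3 : 1 ≤ ∑ s ∈ range (J + 1), e s * (if a ⊆ S s then (1 : ℝ) else 0) := by
      rw [Finset.sum_range_succ', he0, if_pos h2]
      have : 0 ≤ ∑ s ∈ range J, e (s + 1) * (if a ⊆ S (s + 1) then (1 : ℝ) else 0) :=
        Finset.sum_nonneg fun s _ => mul_nonneg (he _) (by split_ifs <;> norm_num)
      linarith
    nlinarith
  · have : 0 ≤ (∑ s ∈ range (J + 1), e s * (if a ⊆ S s then (1 : ℝ) else 0)) ^ 2 := sq_nonneg _
    simpa using this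
  · norm_num
  · norm_num

end scales

end Pool.Agent.Lib.TwinAll.Mod69
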